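import Pool.Agent.Lib.MP_943dad_ag.BM.Fin

set_option linter.all false

/-!
The definitions in which the theorem is stated: those of module Defs, for the vector space `H1 φ` (the submodule `Coh φ`
as a type).
-/

namespace Pool.Agent.BigMon

open Pool.Agent.HMv
open Pool.Agent.BM (Coh Stab InLie)

variable {H : Type} [Group H] {g n : ℕ}

/-- The first cohomology of the cover, as a complex vector space. -/
def H1 (φ : F g n →* H) : Type := Coh φ

instance h1G (φ : F g n →* H) : AddCommGroup (H1 φ) := inferInstanceAs (AddCommGroup (Coh φ))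

instance h1M (φ : F g n →* H) : Module ℂ (H1 φ) := inferInstanceAs (Module ℂ (Coh φ))

/-- The value of a class on `x`. -/
def ev {φ : F g n →* H} (f : H1 φ) (x : F g n) : ℂ := f.1 x

/-- The class with given values. -/
def cl {φ : F g n →* H} (f : F g n → ℂ) (hf : f ∈ Coh φ) : H1 φ := ⟨f, hf⟩

/-- The deck transformation given by `y` on the cohomology: `(y f)(x) = f (y⁻¹ x y)`. -/
def inn (φ : F g n →* H) (y : F g n) : H1 φ →ₗ[ℂ] H1 φ where
  toFun f := cl (fun x => ev f (y⁻¹ * x * y)) (Pool.Agent.BM.inn_mem φ y f)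
  map_add' _ _ := rfl
  map_smul' _ _ := rfl

/-- The action of a mapping class on the cohomology: `(α f)(x) = f (α⁻¹ x)`. -/
def mon (φ : F g n →* H) (α : Stab φ) : H1 φ →ₗ[ℂ] H1 φ where
  toFun f := cl (fun x => ev f ((α⁻¹ : Stab φ).1 x)) (Pool.Agent.BM.mon_mem φ α f)
  map_add' _ _ := rfl
  map_smul' _ _ := rfl

/-- `Φ` is a primitive for the product of the cocycles `f` and `f'` on the punctured cover, and it vanishes on the
loops around the points over the branch points. -/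
def IsPrim (φ : F g n →* H) (f f' : H1 φ) (Φ : F g n → ℂ) : Prop :=
  (∀ x y, φ x = 1 → φ y = 1 → Φ (x * y) = Φ x + Φ y + ev f x * ev f' y) ∧
    ∀ (x : F g n) (j : Fin n) (k : ℕ), φ (c g j) ^ k = 1 → Φ (x * c g j ^ k * x⁻¹) = 0

/-- The bilinear forms on the cohomology. -/
abbrev Form (φ : F g n →* H) : Type := H1 φ →ₗ[ℂ] H1 φ →ₗ[ℂ] ℂ

/-- `ω` is the cup product on the cohomology of the cover: for the cocycles `f`, `f'` it is the sum of the values of
a primitive `Φ` on the lifts `s h R (s h)⁻¹` of the boundary word. -/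
def IsCup [Fintype H] (φ : F g n →* H) (ω : Form φ) : Prop :=
  ∀ f f' : H1 φ, (∃ Φ, IsPrim φ f f' Φ) ∧ ∀ Φ, IsPrim φ f f' Φ → ∀ s : H → F g n, (∀ h, φ (s h) = h) →
    ω f f' = ∑ h, Φ (s h * R g n * (s h)⁻¹)

/-- `ω` is symplectic: alternating and nondegenerate. -/
def Sympl {φ : F g n →* H} (ω : Form φ) : Prop :=
  (∀ f, ω f f = 0) ∧ ∀ f, (∀ f', ω f f' = 0) → f = 0

/-- The Lie algebra of the centralizer of the deck group in the symplectic group of `ω`. -/
def IsZ (φ : F g n →* H) (ω : Form φ) (X : H1 φ →ₗ[ℂ] H1 φ) : Prop :=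
  (∀ y f, X (inn φ y f) = inn φ y (X f)) ∧ ∀ f f', ω (X f) f' + ω f (X f') = 0

/-- Big monodromy: for every subgroup `Δ` of finite index of the group of the mapping classes which fix `φ`, the Lie
algebra of the Zariski closure of the image of `Δ` contains all commutators of elements of the Lie algebra of the
centralizer of `H` in the symplectic group of `ω`. -/
def BigM (φ : F g n →* H) (ω : Form φ) : Prop :=
  ∀ Δ : Subgroup (Stab φ), Δ.FiniteIndex → ∀ X Y : Module.End ℂ (H1 φ), IsZ φ ω X → IsZ φ ω Y →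
    InLie (mon φ '' (Δ : Set (Stab φ))) (X * Y - Y * X)

theorem main [Fintype H] (hg : 3 ≤ g + 1) (φ : F (g + 1) n →* H) (hφ : Function.Surjective φ)
    (hR : φ (R (g + 1) n) = 1) (t : MulAut (F (g + 1) n)) (ht : t (R (g + 1) n) = R (g + 1) n)
    (hc : ∀ j : Fin n, IsConj (t (c (g + 1) j)) (c (g + 1) j))
    (hi : φ (t (a n (Fin.last g))) = 1 ∧ φ (t (b n (Fin.last g))) = 1) :
    ∃ ω : Form φ, IsCup φ ω ∧ Sympl ω ∧ BigM φ ω := by
  obtain ⟨ω, h1, h2, h3, h4⟩ := Pool.Agent.BM.main1 hg φ hφ hR t ht hc hi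
  refine ⟨ω, h1, ⟨h2, h3⟩, ?_⟩
  intro Δ hΔ X Y hX hY
  have hX' : Pool.Agent.BM.IsZ φ ω X := ⟨fun y => LinearMap.ext fun f => hX.1 y f, hX.2⟩
  have hY' : Pool.Agent.BM.IsZ φ ω Y := ⟨fun y => LinearMap.ext fun f => hY.1 y f, hY.2⟩
  exact h4 Δ hΔ X Y hX' hY'

end Pool.Agent.BigMon
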