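import Mathlib

set_option linter.all false

/-!
# The Lie algebra generated by handle pushes

`V` is a finite dimensional symplectic representation of a finite group `H`, `zz ρ ω` is the
centraliser of `H` in the symplectic Lie algebra. With `S x y v = ∑ h, (ω v (h x) • h y + ω v (h y) • h x)` one has
`[A, S x y] = S (A x) y + S x (A y)` for `A ∈ zz`, and `zz` is the span of the `S x y`.
-/

open Finset

namespace Pool.Agent.Lib.MP_943dad_ag.BMo

variable {H V : Type} [Group H] [Fintype H] [AddCommGroup V] [Module ℂ V]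

/-- The centraliser of `H` in the symplectic Lie algebra of `ω`. -/
def zz {H V : Type} [Group H] [AddCommGroup V] [Module ℂ V] (ρ : H →* Module.End ℂ V)
    (ω : V →ₗ[ℂ] V →ₗ[ℂ] ℂ) : Submodule ℂ (Module.End ℂ V) where
  carrier := {X | (∀ h, X * ρ h = ρ h * X) ∧ ∀ u v, ω (X u) v + ω u (X v) = 0}
  add_mem' := by
    rintro X Y ⟨h1, h2⟩ ⟨h3, h4⟩
    refine ⟨fun h => by rw [add_mul, mul_add, h1, h3], fun u v => ?_⟩
    simp only [LinearMap.add_apply, map_add]
    linear_combination h2 u v + h4 u v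
  zero_mem' := ⟨fun h => by simp, fun u v => by simp⟩
  smul_mem' := by
    rintro c X ⟨h1, h2⟩
    refine ⟨fun h => by rw [smul_mul_assoc, h1, mul_smul_comm], fun u v => ?_⟩
    simp only [LinearMap.smul_apply, map_smul, smul_eq_mul]
    linear_combination c * h2 u v

/-- A symplectic representation. -/
structure Sym {H V : Type} [Group H] [AddCommGroup V] [Module ℂ V] (ρ : H →* Module.End ℂ V)
    (ω : V →ₗ[ℂ] V →ₗ[ℂ] ℂ) : Prop where
  alt : ∀ v, ω v v = 0
  nd : ∀ v, (∀ u, ω v u = 0) → v = 0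
  inv : ∀ h u v, ω (ρ h u) (ρ h v) = ω u v

section
variable {ρ : H →* Module.End ℂ V} {ω : V →ₗ[ℂ] V →ₗ[ℂ] ℂ}

theorem rho_one (v : V) : ρ 1 v = v := by rw [map_one, Module.End.one_apply]

theorem rho_mul (g h : H) (v : V) : ρ (g * h) v = ρ g (ρ h v) := by
  rw [map_mul, Module.End.mul_apply]

theorem Sym.skew (hS : Sym ρ ω) (u v : V) : ω u v = -ω v u := by
  have h := hS.alt (u + v)
  rw [map_add, map_add, LinearMap.add_apply, LinearMap.add_apply, hS.alt, hS.alt] at h
  linear_combination h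

theorem Sym.inv' (hS : Sym ρ ω) (h : H) (u v : V) : ω (ρ h u) v = ω u (ρ h⁻¹ v) := by
  rw [← hS.inv h u, ← rho_mul, mul_inv_cancel, rho_one]

theorem Sym.inv'' (hS : Sym ρ ω) (h : H) (u v : V) : ω u (ρ h v) = ω (ρ h⁻¹ u) v := by
  rw [hS.inv', inv_inv]

theorem Sym.nd' (hS : Sym ρ ω) (v : V) (h : ∀ u, ω u v = 0) : v = 0 :=
  hS.nd v fun u => by rw [hS.skew, h, neg_zero]

theorem comm_zz {X : Module.End ℂ V} (hX : X ∈ zz ρ ω) (h : H) (v : V) : X (ρ h v) = ρ h (X v) := by
  have h1 := LinearMap.congr_fun (hX.1 h) v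
  rwa [Module.End.mul_apply, Module.End.mul_apply] at h1

theorem skew_zz {X : Module.End ℂ V} (hX : X ∈ zz ρ ω) (u v : V) : ω (X u) v = -ω u (X v) :=
  eq_neg_of_add_eq_zero_left (hX.2 u v)

end

/-- `S x y v = ∑ h, (ω v (h x) • h y + ω v (h y) • h x)`. -/
noncomputable def S (ρ : H →* Module.End ℂ V) (ω : V →ₗ[ℂ] V →ₗ[ℂ] ℂ) :
    V →ₗ[ℂ] V →ₗ[ℂ] Module.End ℂ V :=
  LinearMap.mk₂ ℂ (fun x y => ∑ h : H, ((ω.flip (ρ h x)).smulRight (ρ h y) +
      (ω.flip (ρ h y)).smulRight (ρ h x)))
    (fun x x' y => by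
      rw [← sum_add_distrib]
      refine sum_congr rfl fun h _ => LinearMap.ext fun v => ?_
      simp only [LinearMap.add_apply, LinearMap.smulRight_apply, LinearMap.flip_apply, map_add, add_smul, smul_add]
      abel)
    (fun c x y => by
      rw [smul_sum]
      refine sum_congr rfl fun h _ => LinearMap.ext fun v => ?_
      simp only [LinearMap.add_apply, LinearMap.smulRight_apply, LinearMap.flip_apply, map_smul,
        LinearMap.smul_apply, smul_add, smul_eq_mul, mul_smul]
      rw [smul_comm c (ω v (ρ h y))])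
    (fun x y y' => by
      rw [← sum_add_distrib]
      refine sum_congr rfl fun h _ => LinearMap.ext fun v => ?_
      simp only [LinearMap.add_apply, LinearMap.smulRight_apply, LinearMap.flip_apply, map_add, add_smul, smul_add]
      abel)
    (fun c x y => by
      rw [smul_sum]
      refine sum_congr rfl fun h _ => LinearMap.ext fun v => ?_
      simp only [LinearMap.add_apply, LinearMap.smulRight_apply, LinearMap.flip_apply, map_smul,
        LinearMap.smul_apply, smul_add, smul_eq_mul, mul_smul]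
      rw [smul_comm c (ω v (ρ h x))])

section
variable {ρ : H →* Module.End ℂ V} {ω : V →ₗ[ℂ] V →ₗ[ℂ] ℂ}

theorem S_apply (x y v : V) :
    S ρ ω x y v = ∑ h : H, (ω v (ρ h x) • ρ h y + ω v (ρ h y) • ρ h x) := by
  rw [S, LinearMap.mk₂_apply, LinearMap.sum_apply]
  rfl

theorem S_symm (x y : V) : S ρ ω x y = S ρ ω y x := by
  refine LinearMap.ext fun v => ?_
  rw [S_apply, S_apply]
  exact sum_congr rfl fun h _ => add_comm _ _

theorem S_rho (g : H) (x y : V) : S ρ ω (ρ g x) (ρ g y) = S ρ ω x y := by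
  refine LinearMap.ext fun v => ?_
  rw [S_apply, S_apply]
  refine Fintype.sum_equiv (Equiv.mulRight g) _ _ fun h => ?_
  simp only [Equiv.coe_mulRight, rho_mul]

theorem S_rho' (g : H) (x y : V) : S ρ ω (ρ g x) y = S ρ ω x (ρ g⁻¹ y) := by
  rw [← S_rho g x, ← rho_mul, mul_inv_cancel, rho_one]

theorem S_zz (hS : Sym ρ ω) (x y : V) : S ρ ω x y ∈ zz ρ ω := by
  constructor
  · intro g
    refine LinearMap.ext fun v => ?_
    rw [Module.End.mul_apply, Module.End.mul_apply, S_apply, S_apply, map_sum]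
    refine Fintype.sum_equiv (Equiv.mulLeft g⁻¹) _ _ fun h => ?_
    simp only [Equiv.coe_mulLeft, map_add, map_smul, ← rho_mul, mul_inv_cancel_left]
    rw [hS.inv', ← rho_mul, hS.inv' g v (ρ h y), ← rho_mul]
  · intro u v
    rw [S_apply, S_apply, map_sum, map_sum, LinearMap.sum_apply, ← sum_add_distrib]
    refine sum_eq_zero fun h _ => ?_
    simp only [map_add, map_smul, LinearMap.add_apply, LinearMap.smul_apply, smul_eq_mul]
    rw [hS.skew (ρ h y) v, hS.skew (ρ h x) v]
    ring

theorem brk {A : Module.End ℂ V} (hA : A ∈ zz ρ ω) (x y : V) :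
    A * S ρ ω x y - S ρ ω x y * A = S ρ ω (A x) y + S ρ ω x (A y) := by
  refine LinearMap.ext fun v => ?_
  rw [LinearMap.sub_apply, LinearMap.add_apply, Module.End.mul_apply, Module.End.mul_apply, S_apply, S_apply,
    S_apply, S_apply, map_sum, ← sum_sub_distrib, ← sum_add_distrib]
  refine sum_congr rfl fun h _ => ?_
  rw [map_add, map_smul, map_smul, comm_zz hA, comm_zz hA, skew_zz hA, skew_zz hA, comm_zz hA, comm_zz hA]
  module

/-- `zz` is the span of the `S x y`. -/
theorem span_S [FiniteDimensional ℂ V] (hS : Sym ρ ω) {A : Module.End ℂ V} (hA : A ∈ zz ρ ω) :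
    A ∈ Submodule.span ℂ {X | ∃ x y, X = S ρ ω x y} := by
  classical
  have hinj : Function.Injective ω.flip := by
    rw [← LinearMap.ker_eq_bot, LinearMap.ker_eq_bot']
    intro v hv
    exact hS.nd' v fun u => by
      have := LinearMap.congr_fun hv u
      simpa using this
  have hsurj : Function.Surjective ω.flip := by
    have := LinearMap.injective_iff_surjective_of_finrank_eq_finrank (f := ω.flip)
      (Subspace.dual_finrank_eq (K := ℂ) (V := V)).symm
    exact this.1 hinj
  obtain ⟨b, -⟩ : ∃ b : Module.Basis (Fin (Module.finrank ℂ V)) ℂ V, True := ⟨Module.finBasis ℂ V, trivial⟩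
  choose e he using fun i => hsurj (b.coord i)
  have he' : ∀ i v, ω v (e i) = b.coord i v := fun i v => by
    rw [← he i, LinearMap.flip_apply]
  have hv : ∀ v, ∑ i, ω v (e i) • A (b i) = A v := by
    intro v
    conv_rhs => rw [← b.sum_repr v, map_sum]
    refine sum_congr rfl fun i _ => ?_
    rw [he', map_smul, Module.Basis.coord_apply]
  -- averages
  have h1 : ∀ v, ∑ i, ∑ h : H, ω v (ρ h (e i)) • ρ h (A (b i)) = (Fintype.card H : ℂ) • A v := by
    intro v
    rw [sum_comm]
    calc ∑ h : H, ∑ i, ω v (ρ h (e i)) • ρ h (A (b i)) = ∑ h : H, A v := by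
          refine sum_congr rfl fun h _ => ?_
          have h2 := congrArg (ρ h) (hv (ρ h⁻¹ v))
          rw [map_sum, ← comm_zz hA, ← rho_mul, mul_inv_cancel, rho_one] at h2
          rw [← h2]
          refine sum_congr rfl fun i _ => ?_
          rw [map_smul, hS.inv'']
      _ = (Fintype.card H : ℂ) • A v := by
          rw [sum_const, card_univ, ← Nat.cast_smul_eq_nsmul ℂ]
  have h2 : ∀ v, ∑ i, ∑ h : H, ω v (ρ h (A (b i))) • ρ h (e i) = (Fintype.card H : ℂ) • A v := by
    intro v
    rw [← sub_eq_zero]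
    refine hS.nd _ fun u => ?_
    rw [map_sub, LinearMap.sub_apply, sub_eq_zero]
    have h3 := congrArg (ω v) (h1 u)
    rw [map_smul, smul_eq_mul] at h3
    rw [map_smul, LinearMap.smul_apply, smul_eq_mul, skew_zz hA, mul_neg, ← h3]
    simp only [map_sum, LinearMap.sum_apply, map_smul, LinearMap.smul_apply, smul_eq_mul]
    rw [← sum_neg_distrib]
    refine sum_congr rfl fun i _ => ?_
    rw [← sum_neg_distrib]
    refine sum_congr rfl fun h _ => ?_
    rw [hS.skew (ρ h (e i)) u]
    ring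
  have h3 : (2 * (Fintype.card H : ℂ)) • A = ∑ i, S ρ ω (e i) (A (b i)) := by
    refine LinearMap.ext fun v => ?_
    rw [LinearMap.sum_apply, LinearMap.smul_apply, two_mul, add_smul]
    nth_rewrite 1 [← h1 v]
    rw [← h2 v, ← sum_add_distrib]
    refine sum_congr rfl fun i _ => ?_
    rw [S_apply, sum_add_distrib]
  have h4 : (2 * (Fintype.card H : ℂ)) ≠ 0 := by
    have : (Fintype.card H : ℂ) ≠ 0 := by exact_mod_cast Fintype.card_ne_zero
    exact mul_ne_zero two_ne_zero this
  rw [← one_smul ℂ A, ← inv_mul_cancel₀ h4, mul_smul, h3]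
  refine Submodule.smul_mem _ _ (Submodule.sum_mem _ fun i _ => Submodule.subset_span ⟨_, _, rfl⟩)

end

end Pool.Agent.Lib.MP_943dad_ag.BMo
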