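import Pool.Agent.Lib.MP_943dad_ag.BM.AlgA

set_option linter.all false

/-!
# The Lie algebra generated by handle pushes, second part
-/

open Finset

namespace Pool.Agent.Lib.MP_943dad_ag.BMo

variable {H V : Type} [Group H] [Fintype H] [AddCommGroup V] [Module ℂ V]
  {ρ : H →* Module.End ℂ V} {ω : V →ₗ[ℂ] V →ₗ[ℂ] ℂ}

/-- The translates of `p` and `q` are isotropic and dual to each other. -/
structure Dual {H V : Type} [Group H] [AddCommGroup V] [Module ℂ V] (ρ : H →* Module.End ℂ V)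
    (ω : V →ₗ[ℂ] V →ₗ[ℂ] ℂ) (p q : V) : Prop where
  pp : ∀ h, ω p (ρ h p) = 0
  qq : ∀ h, ω q (ρ h q) = 0
  pq : ω p q = 1
  pq' : ∀ h, h ≠ 1 → ω p (ρ h q) = 0

/-- The span of the translates. -/
def sp {H V : Type} [Group H] [AddCommGroup V] [Module ℂ V] (ρ : H →* Module.End ℂ V) (p : V) : Submodule ℂ V :=
  Submodule.span ℂ (Set.range fun h => ρ h p)

/-- The orthogonal complement of the translates. -/
def pe {H V : Type} [Group H] [AddCommGroup V] [Module ℂ V] (ρ : H →* Module.End ℂ V)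
    (ω : V →ₗ[ℂ] V →ₗ[ℂ] ℂ) (p : V) : Submodule ℂ V where
  carrier := {x | ∀ h, ω x (ρ h p) = 0}
  add_mem' := fun {x y} hx hy h => by rw [map_add, LinearMap.add_apply, hx, hy, add_zero]
  zero_mem' := fun h => by simp
  smul_mem' := fun c x hx h => by rw [map_smul, LinearMap.smul_apply, hx, smul_zero]

/-- `∑ h, c h • ρ h p`. -/
noncomputable def act (ρ : H →* Module.End ℂ V) (p : V) : (H → ℂ) →ₗ[ℂ] V where
  toFun c := ∑ h, c h • ρ h p
  map_add' c d := by simp [add_smul, sum_add_distrib]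
  map_smul' t c := by simp [smul_sum, mul_smul]

theorem act_apply (p : V) (c : H → ℂ) : act ρ p c = ∑ h, c h • ρ h p := rfl

theorem mem_sp (p : V) (h : H) : ρ h p ∈ sp ρ p := Submodule.subset_span ⟨h, rfl⟩

theorem mem_sp' (p : V) : p ∈ sp ρ p := by
  have h := mem_sp (ρ := ρ) p 1
  rwa [rho_one] at h

theorem act_mem (p : V) (c : H → ℂ) : act ρ p c ∈ sp ρ p :=
  Submodule.sum_mem _ fun h _ => Submodule.smul_mem _ _ (mem_sp p h)

theorem rho_sp {p u : V} (hu : u ∈ sp ρ p) (g : H) : ρ g u ∈ sp ρ p := by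
  induction hu using Submodule.span_induction with
  | mem x hx =>
    obtain ⟨h, rfl⟩ := hx
    change ρ g (ρ h p) ∈ _
    rw [← rho_mul]
    exact mem_sp p _
  | zero => rw [map_zero]; exact Submodule.zero_mem _
  | add x y _ _ hx hy => rw [map_add]; exact Submodule.add_mem _ hx hy
  | smul t x _ hx => rw [map_smul]; exact Submodule.smul_mem _ _ hx

theorem rho_pe (hS : Sym ρ ω) {p x : V} (hx : x ∈ pe ρ ω p) (g : H) : ρ g x ∈ pe ρ ω p := by
  intro h
  rw [hS.inv', ← rho_mul]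
  exact hx _

theorem pe_sp (hS : Sym ρ ω) {p x u : V} (hx : x ∈ pe ρ ω p) (hu : u ∈ sp ρ p) : ω x u = 0 := by
  induction hu using Submodule.span_induction with
  | mem x hx' =>
    obtain ⟨h, rfl⟩ := hx'
    exact hx h
  | zero => rw [map_zero]
  | add x y _ _ hx hy => rw [map_add, hx, hy, add_zero]
  | smul t x _ hx => rw [map_smul, hx, smul_zero]

theorem sp_pe (hS : Sym ρ ω) {p x u : V} (hx : x ∈ pe ρ ω p) (hu : u ∈ sp ρ p) : ω u x = 0 := by
  rw [hS.skew, pe_sp hS hx hu, neg_zero]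

theorem Dual.swap (hS : Sym ρ ω) {p q : V} (D : Dual ρ ω p q) : Dual ρ ω q (-p) where
  pp := D.qq
  qq h := by rw [map_neg, map_neg, map_neg, LinearMap.neg_apply, neg_neg, D.pp]
  pq := by rw [map_neg, hS.skew, neg_neg, D.pq]
  pq' h hh := by
    rw [map_neg, map_neg, hS.skew, neg_neg, hS.inv']
    exact D.pq' _ (by simpa using hh)

theorem Dual.p_pe {p q : V} (D : Dual ρ ω p q) : p ∈ pe ρ ω p := D.pp
theorem Dual.q_pe {p q : V} (D : Dual ρ ω p q) : q ∈ pe ρ ω q := D.qq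

theorem Dual.sp_pe {p q : V} (hS : Sym ρ ω) (D : Dual ρ ω p q) : sp ρ p ≤ pe ρ ω p := by
  rw [sp, Submodule.span_le]
  rintro _ ⟨h, rfl⟩
  exact rho_pe hS D.p_pe h

theorem Dual.spq_pe {p q : V} (hS : Sym ρ ω) (D : Dual ρ ω p q) : sp ρ q ≤ pe ρ ω q := by
  rw [sp, Submodule.span_le]
  rintro _ ⟨h, rfl⟩
  exact rho_pe hS D.q_pe h

/-- `∑ h, ω p (h q) • f h = f 1`. -/
theorem Dual.sum_pq {E : Type} [AddCommGroup E] [Module ℂ E] {p q : V} (D : Dual ρ ω p q) (f : H → E) :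
    ∑ h, ω p (ρ h q) • f h = f 1 := by
  classical
  rw [sum_eq_single 1]
  · rw [rho_one, D.pq, one_smul]
  · intro h _ hh
    rw [D.pq' h hh, zero_smul]
  · intro h
    exact absurd (mem_univ _) h

/-- `∑ h, ω q (h p) • f h = - f 1`. -/
theorem Dual.sum_qp {E : Type} [AddCommGroup E] [Module ℂ E] {p q : V} (hS : Sym ρ ω) (D : Dual ρ ω p q) (f : H → E) :
    ∑ h, ω q (ρ h p) • f h = - f 1 := by
  have h := (D.swap hS).sum_pq f
  simp only [map_neg, neg_smul, sum_neg_distrib] at h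
  rw [← h, neg_neg]

/-- `∑ h, ω (act p c) (h q) • f h = ∑ h, c h • f h`. -/
theorem Dual.act_q {p q : V} (hS : Sym ρ ω) (D : Dual ρ ω p q) (c : H → ℂ) (k : H) :
    ω (act ρ p c) (ρ k q) = c k := by
  classical
  rw [act_apply, map_sum, LinearMap.sum_apply, sum_eq_single k]
  · rw [map_smul, LinearMap.smul_apply, hS.inv, D.pq, smul_eq_mul, mul_one]
  · intro h _ hh
    rw [map_smul, LinearMap.smul_apply, hS.inv', ← rho_mul, D.pq', smul_zero]
    intro h1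
    exact hh (by rw [inv_mul_eq_one.1 h1])
  · intro h
    exact absurd (mem_univ _) h

/-- Decomposition. -/
theorem Dual.decomp {p q : V} (hS : Sym ρ ω) (D : Dual ρ ω p q) (v : V) :
    ∃ a ∈ sp ρ p, ∃ b ∈ sp ρ q, ∃ w, w ∈ pe ρ ω p ∧ w ∈ pe ρ ω q ∧ v = a + b + w := by
  refine ⟨act ρ p (fun h => ω v (ρ h q)), act_mem _ _, act ρ q (fun h => - ω v (ρ h p)), act_mem _ _,
    v - act ρ p (fun h => ω v (ρ h q)) - act ρ q (fun h => - ω v (ρ h p)), ?_, ?_, by abel⟩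
  · intro k
    rw [map_sub, map_sub, LinearMap.sub_apply, LinearMap.sub_apply,
      Pool.Agent.Lib.MP_943dad_ag.BMo.pe_sp hS (D.sp_pe hS (act_mem p _)) (mem_sp p k)]
    have h := (D.swap hS).act_q hS (fun h => - ω v (ρ h p)) k
    rw [map_neg, map_neg] at h
    linear_combination h
  · intro k
    rw [map_sub, map_sub, LinearMap.sub_apply, LinearMap.sub_apply, D.act_q hS,
      Pool.Agent.Lib.MP_943dad_ag.BMo.pe_sp hS (D.spq_pe hS (act_mem q _)) (mem_sp q k)]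
    ring

/-- A vector orthogonal to `P`, `Q` and `W` is zero. -/
theorem Dual.zero {p q : V} (hS : Sym ρ ω) (D : Dual ρ ω p q) {z : V} (h1 : z ∈ pe ρ ω p) (h2 : z ∈ pe ρ ω q)
    (h3 : ∀ y, y ∈ pe ρ ω p → y ∈ pe ρ ω q → ω y z = 0) : z = 0 := by
  refine hS.nd' z fun u => ?_
  obtain ⟨a, ha, b, hb, w, hw1, hw2, rfl⟩ := D.decomp hS u
  rw [map_add, map_add, LinearMap.add_apply, LinearMap.add_apply, h3 w hw1 hw2,
    Pool.Agent.Lib.MP_943dad_ag.BMo.sp_pe hS h1 ha, Pool.Agent.Lib.MP_943dad_ag.BMo.sp_pe hS h2 hb]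
  ring

/-- The action of `S p x` on the orthogonal complement of `P`. -/
theorem S_pe (hS : Sym ρ ω) {p x y : V} (hy : y ∈ pe ρ ω p) :
    S ρ ω p x y = act ρ p (fun h => ω y (ρ h x)) := by
  rw [S_apply, act_apply]
  refine sum_congr rfl fun h _ => ?_
  rw [hy h, zero_smul, zero_add]

theorem S_pe_sp (hS : Sym ρ ω) {p x u : V} (hp : p ∈ pe ρ ω p) (hx : x ∈ pe ρ ω p) (hu : u ∈ sp ρ p) :
    S ρ ω p x u = 0 := by
  rw [S_apply]
  refine sum_eq_zero fun h _ => ?_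
  have h1 : ω u (ρ h p) = 0 := Pool.Agent.Lib.MP_943dad_ag.BMo.sp_pe hS (rho_pe hS hp h) hu
  have h2 : ω u (ρ h x) = 0 := Pool.Agent.Lib.MP_943dad_ag.BMo.sp_pe hS (rho_pe hS hx h) hu
  rw [h1, h2, zero_smul, zero_smul, add_zero]

/-- `[S p x, S p y] = S p (∑ h, ω y (h x) • h p)`. -/
theorem brk_pp (hS : Sym ρ ω) {p x y : V} (hp : p ∈ pe ρ ω p) (hx : x ∈ pe ρ ω p) (hy : y ∈ pe ρ ω p) :
    S ρ ω p x * S ρ ω p y - S ρ ω p y * S ρ ω p x = S ρ ω p (act ρ p (fun h => ω y (ρ h x))) := by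
  rw [brk (S_zz hS p x), S_pe_sp hS hp hx (mem_sp' p), map_zero, LinearMap.zero_apply, zero_add, S_pe hS hy]

/-- The matrix coefficients of `W` span all functions if `W` is faithful. -/
theorem Dual.span_coef {p q : V} (hS : Sym ρ ω) (D : Dual ρ ω p q)
    (hW : ∀ c : H → ℂ, (∀ x, x ∈ pe ρ ω p → x ∈ pe ρ ω q → ∑ h, c h • ρ h x = 0) → c = 0) (c : H → ℂ) :
    c ∈ Submodule.span ℂ {f : H → ℂ | ∃ x y, x ∈ pe ρ ω p ∧ x ∈ pe ρ ω q ∧ y ∈ pe ρ ω p ∧ y ∈ pe ρ ω q ∧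
      f = fun h => ω y (ρ h x)} := by
  classical
  obtain ⟨U, hU⟩ : ∃ U : Submodule ℂ (H → ℂ), U = Submodule.span ℂ {f : H → ℂ | ∃ x y, x ∈ pe ρ ω p ∧
      x ∈ pe ρ ω q ∧ y ∈ pe ρ ω p ∧ y ∈ pe ρ ω q ∧ f = fun h => ω y (ρ h x)} := ⟨_, rfl⟩
  rw [← hU]
  by_contra hc
  have hlt : U < ⊤ := lt_of_le_of_ne le_top fun h => hc (by rw [h]; exact Submodule.mem_top)
  obtain ⟨f, hf, hle⟩ := Submodule.exists_le_ker_of_lt_top U hlt
  apply hf
  have h1 : ∀ g : H → ℂ, f g = ∑ h, g h * f (Pi.single h 1) := by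
    intro g
    rw [LinearMap.pi_apply_eq_sum_univ f g]
    refine sum_congr rfl fun h _ => ?_
    rw [smul_eq_mul]
    congr 2
    funext j
    rw [Pi.single_apply]
    simp only [eq_comm]
  have h2 : (fun h => f (Pi.single h 1)) = (0 : H → ℂ) := by
    refine hW _ fun x hx1 hx2 => ?_
    refine D.zero hS (Submodule.sum_mem _ fun h _ => Submodule.smul_mem _ _ (rho_pe hS hx1 h))
      (Submodule.sum_mem _ fun h _ => Submodule.smul_mem _ _ (rho_pe hS hx2 h)) fun y hy1 hy2 => ?_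
    have h3 := hle (by rw [hU]; exact Submodule.subset_span ⟨x, y, hx1, hx2, hy1, hy2, rfl⟩ :
      (fun h => ω y (ρ h x)) ∈ U)
    rw [LinearMap.mem_ker, h1] at h3
    rw [map_sum, ← h3]
    refine sum_congr rfl fun h _ => ?_
    rw [map_smul, smul_eq_mul, mul_comm]
  refine LinearMap.ext fun g => ?_
  rw [h1, LinearMap.zero_apply]
  refine sum_eq_zero fun h _ => ?_
  rw [congrFun h2 h, Pi.zero_apply, mul_zero]

/-- `S p u ∈ L` for `u ∈ P` and for `u ∈ W`. -/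
theorem Dual.stepA {p q : V} (hS : Sym ρ ω) (D : Dual ρ ω p q)
    (hW : ∀ c : H → ℂ, (∀ x, x ∈ pe ρ ω p → x ∈ pe ρ ω q → ∑ h, c h • ρ h x = 0) → c = 0)
    {L : Submodule ℂ (Module.End ℂ V)} (hL : ∀ X ∈ L, ∀ Y ∈ L, X * Y - Y * X ∈ L)
    (h1 : ∀ x, x ∈ pe ρ ω p → x ∈ pe ρ ω q → ∃ c ∈ sp ρ p, S ρ ω p (x + c) ∈ L) :
    ∀ x, x ∈ pe ρ ω p → S ρ ω p x ∈ L := by
  have h2 : ∀ c : H → ℂ, S ρ ω p (act ρ p c) ∈ L := by
    intro c
    have hc := D.span_coef hS hW c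
    induction hc using Submodule.span_induction with
    | mem f hf =>
      obtain ⟨x, y, hx1, hx2, hy1, hy2, rfl⟩ := hf
      obtain ⟨c, hc, hc'⟩ := h1 x hx1 hx2
      obtain ⟨d, hd, hd'⟩ := h1 y hy1 hy2
      have h3 := hL _ hc' _ hd'
      rw [brk_pp hS D.p_pe (Submodule.add_mem _ hx1 (D.sp_pe hS hc)) (Submodule.add_mem _ hy1 (D.sp_pe hS hd))] at h3
      convert h3 using 3
      funext h
      have e1 : ω d (ρ h x) = 0 := Pool.Agent.Lib.MP_943dad_ag.BMo.sp_pe hS (rho_pe hS hx1 h) hd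
      have e2 : ω y (ρ h c) = 0 := Pool.Agent.Lib.MP_943dad_ag.BMo.pe_sp hS hy1 (rho_sp hc h)
      have e3 : ω d (ρ h c) = 0 := Pool.Agent.Lib.MP_943dad_ag.BMo.pe_sp hS (D.sp_pe hS hd) (rho_sp hc h)
      simp only [map_add, LinearMap.add_apply, e1, e2, e3]
      ring
    | zero => rw [map_zero, map_zero]; exact Submodule.zero_mem _
    | add x y _ _ hx hy => rw [map_add, map_add]; exact Submodule.add_mem _ hx hy
    | smul t x _ hx => rw [map_smul, map_smul]; exact Submodule.smul_mem _ _ hx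
  have h3 : ∀ u ∈ sp ρ p, S ρ ω p u ∈ L := by
    intro u hu
    induction hu using Submodule.span_induction with
    | mem x hx =>
      classical
      obtain ⟨h, rfl⟩ := hx
      have h4 := h2 (Pi.single h 1)
      rwa [act_apply, sum_eq_single h (fun k _ hk => by rw [Pi.single_eq_of_ne hk, zero_smul])
        (fun h5 => absurd (mem_univ _) h5), Pi.single_eq_same, one_smul] at h4
    | zero => rw [map_zero]; exact Submodule.zero_mem _
    | add x y _ _ hx hy => rw [map_add]; exact Submodule.add_mem _ hx hy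
    | smul t x _ hx => rw [map_smul]; exact Submodule.smul_mem _ _ hx
  intro x hx
  obtain ⟨a, ha, b, hb, w, hw1, hw2, e⟩ := D.decomp hS x
  have hb0 : b = 0 := by
    have hbp : b ∈ pe ρ ω p := by
      have h4 : b = x - a - w := by rw [e]; abel
      rw [h4]
      exact Submodule.sub_mem _ (Submodule.sub_mem _ hx (D.sp_pe hS ha)) hw1
    refine D.zero hS hbp (D.spq_pe hS hb) fun y hy1 hy2 => Pool.Agent.Lib.MP_943dad_ag.BMo.pe_sp hS hy2 hb
  obtain ⟨c, hc, hc'⟩ := h1 w hw1 hw2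
  rw [e, hb0, add_zero]
  have h4 : a + w = (w + c) + (a - c) := by abel
  rw [h4, map_add]
  exact Submodule.add_mem _ hc' (h3 _ (Submodule.sub_mem _ ha hc))

end Pool.Agent.Lib.MP_943dad_ag.BMo
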