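import Pool.Agent.Lib.MP_943dad_ag.BM.AlgB

set_option linter.all false

/-!
# The Lie algebra generated by handle pushes, third part: all commutators
-/

open Finset

namespace Pool.Agent.Lib.MP_943dad_ag.BMo

variable {H V : Type} [Group H] [Fintype H] [AddCommGroup V] [Module ℂ V]
  {ρ : H →* Module.End ℂ V} {ω : V →ₗ[ℂ] V →ₗ[ℂ] ℂ}

theorem zero_pe (hS : Sym ρ ω) {p x u : V} (hx : x ∈ pe ρ ω p) (hu : u ∈ sp ρ p) (h : H) :
    ω u (ρ h x) = 0 := sp_pe hS (rho_pe hS hx h) hu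

/-- `S x y` kills `P` for `x`, `y` orthogonal to `P`. -/
theorem S_kills (hS : Sym ρ ω) {p x y u : V} (hx : x ∈ pe ρ ω p) (hy : y ∈ pe ρ ω p) (hu : u ∈ sp ρ p) :
    S ρ ω x y u = 0 := by
  rw [S_apply]
  refine sum_eq_zero fun h _ => ?_
  rw [zero_pe hS hx hu, zero_pe hS hy hu, zero_smul, zero_smul, add_zero]

/-- `S x y` maps `W` into `W`. -/
theorem S_pe_pe (hS : Sym ρ ω) {p x y u : V} (hx : x ∈ pe ρ ω p) (hy : y ∈ pe ρ ω p) :
    S ρ ω x y u ∈ pe ρ ω p := by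
  rw [S_apply]
  exact Submodule.sum_mem _ fun h _ => Submodule.add_mem _ (Submodule.smul_mem _ _ (rho_pe hS hy h))
    (Submodule.smul_mem _ _ (rho_pe hS hx h))

theorem Dual.S_p_q {p q : V} (hS : Sym ρ ω) (D : Dual ρ ω p q) {x : V} (hx : x ∈ pe ρ ω q) :
    S ρ ω p x q = -x := by
  rw [S_apply, sum_add_distrib, D.sum_qp hS (fun h => ρ h x), rho_one]
  rw [sum_eq_zero (fun h _ => by rw [zero_pe hS hx (mem_sp' q), zero_smul]), add_zero]

theorem Dual.S_qe_p {p q e : V} (hS : Sym ρ ω) (D : Dual ρ ω p q) (he : e ∈ sp ρ p) :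
    S ρ ω q e p = e := by
  rw [S_apply, sum_add_distrib, D.sum_pq (fun h => ρ h e), rho_one]
  rw [sum_eq_zero (fun h _ => by rw [zero_pe hS (D.sp_pe hS he) (mem_sp' p), zero_smul]), add_zero]

theorem Dual.S_qe_q {p q e : V} (hS : Sym ρ ω) (D : Dual ρ ω p q) (he : e ∈ sp ρ p) {u : V}
    (hu : u ∈ pe ρ ω q) : S ρ ω q e u ∈ sp ρ q := by
  rw [S_apply]
  refine Submodule.sum_mem _ fun h _ => ?_
  rw [hu h, zero_smul, zero_add]
  exact Submodule.smul_mem _ _ (mem_sp q h)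

theorem Dual.S_qe_u {p q e : V} (hS : Sym ρ ω) (D : Dual ρ ω p q) (he : e ∈ sp ρ p) {u : V}
    (hu : u ∈ pe ρ ω p) : S ρ ω q e u ∈ sp ρ p := by
  rw [S_apply]
  refine Submodule.sum_mem _ fun h _ => ?_
  rw [pe_sp hS hu (rho_sp he h), zero_smul, add_zero]
  exact Submodule.smul_mem _ _ (rho_sp he h)

section
variable {p q : V} {L : Submodule ℂ (Module.End ℂ V)}

/-- `S e u ∈ L` for `e ∈ P`, if `S p u ∈ L` for all `u ∈ U`. -/
theorem S_sp {p : V} {U : Submodule ℂ V} (hU : ∀ u ∈ U, ∀ h, ρ h u ∈ U) (hp : ∀ x ∈ U, S ρ ω p x ∈ L)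
    {e u : V} (he : e ∈ sp ρ p) (hu : u ∈ U) : S ρ ω e u ∈ L := by
  induction he using Submodule.span_induction with
  | mem x hx =>
    obtain ⟨h, rfl⟩ := hx
    change S ρ ω (ρ h p) u ∈ L
    rw [S_rho']
    exact hp _ (hU u hu _)
  | zero => rw [map_zero]; exact Submodule.zero_mem _
  | add x y _ _ hx hy => rw [map_add]; exact Submodule.add_mem _ hx hy
  | smul t x _ hx => rw [map_smul]; exact Submodule.smul_mem _ _ hx

theorem stepC (hS : Sym ρ ω) (D : Dual ρ ω p q) (hL : ∀ X ∈ L, ∀ Y ∈ L, X * Y - Y * X ∈ L)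
    (hp : ∀ x ∈ pe ρ ω p, S ρ ω p x ∈ L) (hq : ∀ x ∈ pe ρ ω q, S ρ ω q x ∈ L) {x y : V}
    (hx : x ∈ pe ρ ω p) (hx' : x ∈ pe ρ ω q) (hy : y ∈ pe ρ ω p) (hy' : y ∈ pe ρ ω q) :
    S ρ ω x y - S ρ ω q (act ρ p (fun h => ω y (ρ h x))) ∈ L := by
  have h1 := hL _ (hp x hx) _ (hq y hy')
  rw [brk (S_zz hS p x), D.S_p_q hS hx', S_pe hS hy, map_neg, LinearMap.neg_apply] at h1
  have h2 := Submodule.neg_mem _ h1
  rwa [neg_add, neg_neg, ← sub_eq_add_neg] at h2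

theorem stepD (hS : Sym ρ ω) (D : Dual ρ ω p q) (hL : ∀ X ∈ L, ∀ Y ∈ L, X * Y - Y * X ∈ L)
    (hp : ∀ x ∈ pe ρ ω p, S ρ ω p x ∈ L) (hq : ∀ x ∈ pe ρ ω q, S ρ ω q x ∈ L)
    (hW : ∀ c : H → ℂ, (∀ x, x ∈ pe ρ ω p → x ∈ pe ρ ω q → ∑ h, c h • ρ h x = 0) → c = 0) (a b : H → ℂ) :
    S ρ ω q (act ρ p a) * S ρ ω q (act ρ p b) - S ρ ω q (act ρ p b) * S ρ ω q (act ρ p a) ∈ L := by
  have ha := D.span_coef hS hW a
  induction ha using Submodule.span_induction with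
  | mem f hf =>
    obtain ⟨x, y, hx, hx', hy, hy', rfl⟩ := hf
    have hb := D.span_coef hS hW b
    induction hb using Submodule.span_induction with
    | mem f hf =>
      obtain ⟨u, v, hu, hu', hv, hv', rfl⟩ := hf
      obtain ⟨A, hA⟩ : ∃ A, A = S ρ ω x y := ⟨_, rfl⟩
      obtain ⟨B, hB⟩ : ∃ B, B = S ρ ω u v := ⟨_, rfl⟩
      obtain ⟨Ca, hCa⟩ : ∃ Ca, Ca = S ρ ω q (act ρ p (fun h => ω y (ρ h x))) := ⟨_, rfl⟩
      obtain ⟨Cb, hCb⟩ : ∃ Cb, Cb = S ρ ω q (act ρ p (fun h => ω v (ρ h u))) := ⟨_, rfl⟩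
      have h1 := stepC hS D hL hp hq hx hx' hy hy'
      have h2 := stepC hS D hL hp hq hu hu' hv hv'
      have h3 := hL _ h1 _ h2
      have hAz : A ∈ zz ρ ω := hA ▸ S_zz hS x y
      have hBz : B ∈ zz ρ ω := hB ▸ S_zz hS u v
      have k1 : A * Cb - Cb * A = 0 := by
        rw [hCb, brk hAz, hA, S_kills hS hx' hy' (mem_sp' q), S_kills hS hx hy (act_mem p _), map_zero,
          map_zero, LinearMap.zero_apply, add_zero]
      have k2 : B * Ca - Ca * B = 0 := by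
        rw [hCa, brk hBz, hB, S_kills hS hu' hv' (mem_sp' q), S_kills hS hu hv (act_mem p _), map_zero,
          map_zero, LinearMap.zero_apply, add_zero]
      have k3 : A * B - B * A ∈ L := by
        have e1 : A * B - B * A = S ρ ω (A u) v + S ρ ω u (A v) := by
          rw [hB]
          exact brk hAz u v
        have hAu : A u ∈ pe ρ ω p := hA ▸ S_pe_pe hS hx hy
        have hAu' : A u ∈ pe ρ ω q := hA ▸ S_pe_pe hS hx' hy'
        have hAv : A v ∈ pe ρ ω p := hA ▸ S_pe_pe hS hx hy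
        have hAv' : A v ∈ pe ρ ω q := hA ▸ S_pe_pe hS hx' hy'
        have h4 := Submodule.add_mem _ (stepC hS D hL hp hq hAu hAu' hv hv')
          (stepC hS D hL hp hq hu hu' hAv hAv')
        have e2 : S ρ ω q (act ρ p (fun h => ω v (ρ h (A u)))) + S ρ ω q (act ρ p (fun h => ω (A v) (ρ h u))) = 0 := by
          rw [← map_add, ← map_add]
          have e3 : ((fun h => ω v (ρ h (A u))) + fun h => ω (A v) (ρ h u)) = (0 : H → ℂ) := by
            funext h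
            rw [Pi.add_apply, Pi.zero_apply, skew_zz hAz, comm_zz hAz]
            ring
          rw [e3, map_zero, map_zero]
        rw [e1]
        have e4 : S ρ ω (A u) v + S ρ ω u (A v) = (S ρ ω (A u) v - S ρ ω q (act ρ p (fun h => ω v (ρ h (A u))))) +
            (S ρ ω u (A v) - S ρ ω q (act ρ p (fun h => ω (A v) (ρ h u)))) := by
          rw [sub_add_sub_comm, e2, sub_zero]
        rw [e4]
        exact h4
      rw [← hA, ← hB, ← hCa, ← hCb] at h3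
      rw [← hCa, ← hCb]
      have e5 : Ca * Cb - Cb * Ca = ((A - Ca) * (B - Cb) - (B - Cb) * (A - Ca)) - (A * B - B * A) +
          (A * Cb - Cb * A) - (B * Ca - Ca * B) := by
        noncomm_ring
      rw [e5, k1, k2, add_zero, sub_zero]
      exact Submodule.sub_mem _ h3 k3
    | zero => simp
    | add x y _ _ hx hy =>
      have h1 := Submodule.add_mem _ hx hy
      convert h1 using 1
      rw [map_add, map_add]
      noncomm_ring
    | smul t x _ hx =>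
      have h1 := Submodule.smul_mem _ t hx
      convert h1 using 1
      rw [map_smul, map_smul, smul_sub, mul_smul_comm, smul_mul_assoc]
  | zero => simp
  | add x y _ _ hx hy =>
    have h1 := Submodule.add_mem _ hx hy
    convert h1 using 1
    rw [map_add, map_add]
    noncomm_ring
  | smul t x _ hx =>
    have h1 := Submodule.smul_mem _ t hx
    convert h1 using 1
    rw [map_smul, map_smul, smul_sub, mul_smul_comm, smul_mul_assoc]

/-- All commutators of elements of `zz` are in `L`. -/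
theorem Dual.main [FiniteDimensional ℂ V] (hS : Sym ρ ω) (D : Dual ρ ω p q)
    (hL : ∀ X ∈ L, ∀ Y ∈ L, X * Y - Y * X ∈ L)
    (hp : ∀ x ∈ pe ρ ω p, S ρ ω p x ∈ L) (hq : ∀ x ∈ pe ρ ω q, S ρ ω q x ∈ L)
    (hW : ∀ c : H → ℂ, (∀ x, x ∈ pe ρ ω p → x ∈ pe ρ ω q → ∑ h, c h • ρ h x = 0) → c = 0) :
    ∀ X ∈ zz ρ ω, ∀ Y ∈ zz ρ ω, X * Y - Y * X ∈ L := by
  have hcc := stepD hS D hL hp hq hW
  -- the elements of `L` which are normalised by all `C c`
  obtain ⟨M, hM⟩ : ∃ M : Submodule ℂ (Module.End ℂ V), ∀ m, m ∈ M ↔ m ∈ L ∧ ∀ c : H → ℂ,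
      S ρ ω q (act ρ p c) * m - m * S ρ ω q (act ρ p c) ∈ L := by
    refine ⟨{ carrier := {m | m ∈ L ∧ ∀ c : H → ℂ, S ρ ω q (act ρ p c) * m - m * S ρ ω q (act ρ p c) ∈ L}
              add_mem' := ?_
              zero_mem' := ?_
              smul_mem' := ?_ }, fun m => Iff.rfl⟩
    · rintro m m' ⟨h1, h2⟩ ⟨h3, h4⟩
      refine ⟨Submodule.add_mem _ h1 h3, fun c => ?_⟩
      have := Submodule.add_mem _ (h2 c) (h4 c)
      convert this using 1
      noncomm_ring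
    · exact ⟨Submodule.zero_mem _, fun c => by simp⟩
    · rintro t m ⟨h1, h2⟩
      refine ⟨Submodule.smul_mem _ _ h1, fun c => ?_⟩
      have := Submodule.smul_mem _ t (h2 c)
      convert this using 1
      rw [smul_sub, mul_smul_comm, smul_mul_assoc]
  have hspL : ∀ {e u : V}, e ∈ sp ρ p → u ∈ pe ρ ω p → S ρ ω e u ∈ L := fun he hu =>
    S_sp (U := pe ρ ω p) (fun u hu h => rho_pe hS hu h) hp he hu
  have hsqL : ∀ {e u : V}, e ∈ sp ρ q → u ∈ pe ρ ω q → S ρ ω e u ∈ L := fun he hu =>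
    S_sp (U := pe ρ ω q) (fun u hu h => rho_pe hS hu h) hq he hu
  have g1 : ∀ u ∈ pe ρ ω p, S ρ ω p u ∈ M := by
    intro u hu
    rw [hM]
    refine ⟨hp u hu, fun c => ?_⟩
    rw [brk (S_zz hS _ _), D.S_qe_p hS (act_mem p c)]
    exact Submodule.add_mem _ (hspL (act_mem p c) hu) (hp _ (D.sp_pe hS (D.S_qe_u hS (act_mem p c) hu)))
  have g2 : ∀ u ∈ pe ρ ω q, S ρ ω q u ∈ M := by
    intro u hu
    rw [hM]
    refine ⟨hq u hu, fun c => ?_⟩
    rw [brk (S_zz hS _ _)]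
    exact Submodule.add_mem _ (hsqL (D.S_qe_q hS (act_mem p c) D.q_pe) hu)
      (hq _ (D.spq_pe hS (D.S_qe_q hS (act_mem p c) hu)))
  have g3 : ∀ x y, x ∈ pe ρ ω p → x ∈ pe ρ ω q → y ∈ pe ρ ω p → y ∈ pe ρ ω q →
      S ρ ω x y - S ρ ω q (act ρ p (fun h => ω y (ρ h x))) ∈ M := by
    intro x y hx hx' hy hy'
    rw [hM]
    refine ⟨stepC hS D hL hp hq hx hx' hy hy', fun c => ?_⟩
    have k1 : S ρ ω x y * S ρ ω q (act ρ p c) - S ρ ω q (act ρ p c) * S ρ ω x y = 0 := by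
      rw [brk (S_zz hS x y), S_kills hS hx' hy' (mem_sp' q), S_kills hS hx hy (act_mem p _), map_zero,
        map_zero, LinearMap.zero_apply, add_zero]
    have k2 := hcc c (fun h => ω y (ρ h x))
    have e : S ρ ω q (act ρ p c) * (S ρ ω x y - S ρ ω q (act ρ p (fun h => ω y (ρ h x)))) -
        (S ρ ω x y - S ρ ω q (act ρ p (fun h => ω y (ρ h x)))) * S ρ ω q (act ρ p c) =
        -(S ρ ω x y * S ρ ω q (act ρ p c) - S ρ ω q (act ρ p c) * S ρ ω x y) -
        (S ρ ω q (act ρ p c) * S ρ ω q (act ρ p (fun h => ω y (ρ h x))) -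
          S ρ ω q (act ρ p (fun h => ω y (ρ h x))) * S ρ ω q (act ρ p c)) := by
      noncomm_ring
    rw [e, k1, neg_zero, zero_sub]
    exact Submodule.neg_mem _ k2
  have g4 : ∀ {e u : V}, e ∈ sp ρ p → u ∈ pe ρ ω p → S ρ ω e u ∈ M := fun he hu =>
    S_sp (U := pe ρ ω p) (fun u hu h => rho_pe hS hu h) g1 he hu
  have g5 : ∀ {e u : V}, e ∈ sp ρ q → u ∈ pe ρ ω q → S ρ ω e u ∈ M := fun he hu =>
    S_sp (U := pe ρ ω q) (fun u hu h => rho_pe hS hu h) g2 he hu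
  -- the sum
  obtain ⟨N, hN⟩ : ∃ N : Submodule ℂ (Module.End ℂ V), N = M ⊔ LinearMap.range ((S ρ ω q) ∘ₗ (act ρ p)) := ⟨_, rfl⟩
  have hMN : M ≤ N := hN ▸ le_sup_left
  have hCN : ∀ c, S ρ ω q (act ρ p c) ∈ N := fun c =>
    hN ▸ Submodule.mem_sup_right (LinearMap.mem_range.2 ⟨c, rfl⟩)
  have g6 : ∀ {e u : V}, e ∈ sp ρ q → u ∈ sp ρ p → S ρ ω e u ∈ N := by
    intro e u he hu
    refine S_sp (U := sp ρ p) (fun u hu h => rho_sp hu h) (fun u hu => ?_) he hu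
    induction hu using Submodule.span_induction with
    | mem x hx =>
      classical
      obtain ⟨h, rfl⟩ := hx
      have h4 := hCN (Pi.single h 1)
      rwa [act_apply, sum_eq_single h (fun k _ hk => by rw [Pi.single_eq_of_ne hk, zero_smul])
        (fun h5 => absurd (mem_univ _) h5), Pi.single_eq_same, one_smul] at h4
    | zero => rw [map_zero]; exact Submodule.zero_mem _
    | add x y _ _ hx hy => rw [map_add]; exact Submodule.add_mem _ hx hy
    | smul t x _ hx => rw [map_smul]; exact Submodule.smul_mem _ _ hx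
  have g7 : ∀ u v : V, S ρ ω u v ∈ N := by
    intro u v
    obtain ⟨a, ha, b, hb, w, hw, hw', rfl⟩ := D.decomp hS u
    obtain ⟨a', ha', b', hb', w', hv, hv', rfl⟩ := D.decomp hS v
    have ea' := D.sp_pe hS ha'
    have eb' := D.spq_pe hS hb'
    have t1 : S ρ ω a a' ∈ N := hMN (g4 ha ea')
    have t2 : S ρ ω a b' ∈ N := by rw [S_symm]; exact g6 hb' ha
    have t3 : S ρ ω a w' ∈ N := hMN (g4 ha hv)
    have t4 : S ρ ω b a' ∈ N := g6 hb ha'
    have t5 : S ρ ω b b' ∈ N := hMN (g5 hb eb')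
    have t6 : S ρ ω b w' ∈ N := hMN (g5 hb hv')
    have t7 : S ρ ω w a' ∈ N := by rw [S_symm]; exact hMN (g4 ha' hw)
    have t8 : S ρ ω w b' ∈ N := by rw [S_symm]; exact hMN (g5 hb' hw')
    have t9 : S ρ ω w w' ∈ N := by
      have h1 := Submodule.add_mem _ (hMN (g3 w w' hw hw' hv hv')) (hCN (fun h => ω w' (ρ h w)))
      rwa [sub_add_cancel] at h1
    have e : S ρ ω (a + b + w) (a' + b' + w') = S ρ ω a a' + S ρ ω a b' + S ρ ω a w' + S ρ ω b a' +
        S ρ ω b b' + S ρ ω b w' + S ρ ω w a' + S ρ ω w b' + S ρ ω w w' := by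
      simp only [map_add, LinearMap.add_apply]
      abel
    rw [e]
    exact Submodule.add_mem _ (Submodule.add_mem _ (Submodule.add_mem _ (Submodule.add_mem _ (Submodule.add_mem _
      (Submodule.add_mem _ (Submodule.add_mem _ (Submodule.add_mem _ t1 t2) t3) t4) t5) t6) t7) t8) t9
  have g8 : ∀ X ∈ zz ρ ω, X ∈ N := by
    intro X hX
    have h1 := span_S hS hX
    refine (Submodule.span_le.2 ?_) h1
    rintro _ ⟨x, y, rfl⟩
    exact g7 x y
  intro X hX Y hY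
  have hX' := g8 X hX
  have hY' := g8 Y hY
  rw [hN] at hX' hY'
  obtain ⟨m, hm, _, ⟨c, rfl⟩, rfl⟩ := Submodule.mem_sup.1 hX'
  obtain ⟨m', hm', _, ⟨c', rfl⟩, rfl⟩ := Submodule.mem_sup.1 hY'
  rw [hM] at hm hm'
  change (m + S ρ ω q (act ρ p c)) * (m' + S ρ ω q (act ρ p c')) -
    (m' + S ρ ω q (act ρ p c')) * (m + S ρ ω q (act ρ p c)) ∈ L
  have e : (m + S ρ ω q (act ρ p c)) * (m' + S ρ ω q (act ρ p c')) -
    (m' + S ρ ω q (act ρ p c')) * (m + S ρ ω q (act ρ p c)) =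
    (m * m' - m' * m) - (S ρ ω q (act ρ p c') * m - m * S ρ ω q (act ρ p c')) +
    (S ρ ω q (act ρ p c) * m' - m' * S ρ ω q (act ρ p c)) +
    (S ρ ω q (act ρ p c) * S ρ ω q (act ρ p c') - S ρ ω q (act ρ p c') * S ρ ω q (act ρ p c)) := by
    noncomm_ring
  rw [e]
  exact Submodule.add_mem _ (Submodule.add_mem _ (Submodule.sub_mem _ (hL _ hm.1 _ hm'.1) (hm.2 c'))
    (hm'.2 c)) (hcc c c')

end

end Pool.Agent.Lib.MP_943dad_ag.BMo
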