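import Pool.Agent.Lib.MP_943dad_ag.BM.AlgC

set_option linter.all false

/-!
# The Lie algebra generated by handle pushes, fourth part: the form of the generators
-/

open Finset

namespace Pool.Agent.Lib.MP_943dad_ag.BMo

variable {H V : Type} [Group H] [Fintype H] [AddCommGroup V] [Module ℂ V]
  {ρ : H →* Module.End ℂ V} {ω : V →ₗ[ℂ] V →ₗ[ℂ] ℂ} {p q : V} {L : Submodule ℂ (Module.End ℂ V)}

/-- A vector of `P` which is orthogonal to `Q` is zero. -/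
theorem Dual.sp_zero (hS : Sym ρ ω) (D : Dual ρ ω p q) {u : V} (hu : u ∈ sp ρ p) (h : ∀ h, ω u (ρ h q) = 0) :
    u = 0 :=
  D.zero hS (D.sp_pe hS hu) h fun y hy _ => BMo.pe_sp hS hy hu

theorem Dual.zz_zero (hS : Sym ρ ω) (D : Dual ρ ω p q) {E : Module.End ℂ V} (hE : E ∈ zz ρ ω) (h1 : E p = 0)
    (h2 : E q ∈ sp ρ p) (h3 : ∀ h, ω (E q) (ρ h q) = 0) (h4 : ∀ z, z ∈ pe ρ ω p → z ∈ pe ρ ω q → E z ∈ sp ρ p) :
    E = 0 := by
  have k1 : E q = 0 := D.sp_zero hS h2 h3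
  have k2 : ∀ z, z ∈ pe ρ ω p → z ∈ pe ρ ω q → E z = 0 := by
    intro z hz hz'
    refine D.sp_zero hS (h4 z hz hz') fun h => ?_
    rw [skew_zz hE, comm_zz hE, k1, map_zero, map_zero, neg_zero]
  have k3 : ∀ {x : V}, E x = 0 → ∀ u ∈ sp ρ x, E u = 0 := by
    intro x hx u hu
    induction hu using Submodule.span_induction with
    | mem y hy =>
      obtain ⟨h, rfl⟩ := hy
      change E (ρ h x) = 0
      rw [comm_zz hE, hx, map_zero]
    | zero => rw [map_zero]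
    | add x y _ _ hx hy => rw [map_add, hx, hy, add_zero]
    | smul t x _ hx => rw [map_smul, hx, smul_zero]
  refine LinearMap.ext fun v => ?_
  obtain ⟨a, ha, b, hb, w, hw, hw', rfl⟩ := D.decomp hS v
  rw [map_add, map_add, k3 h1 a ha, k3 k1 b hb, k2 w hw hw', LinearMap.zero_apply]
  abel

/-- An element of `zz` which kills `p` and maps the orthogonal complement of `P` into `P` is `S p (x + c)`. -/
theorem Dual.form (hS : Sym ρ ω) (D : Dual ρ ω p q) {X : Module.End ℂ V} (hX : X ∈ zz ρ ω) (hXp : X p = 0)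
    (hXP : ∀ v ∈ pe ρ ω p, X v ∈ sp ρ p) :
    ∃ x, x ∈ pe ρ ω p ∧ x ∈ pe ρ ω q ∧ (∃ c ∈ sp ρ p, X = S ρ ω p (x + c)) ∧
      ∀ z, z ∈ pe ρ ω p → z ∈ pe ρ ω q → ω (X z) q = ω z x := by
  have hd : -X q ∈ pe ρ ω p := by
    intro h
    rw [map_neg, LinearMap.neg_apply, skew_zz hX, comm_zz hX, hXp, map_zero, map_zero, neg_zero, neg_zero]
  obtain ⟨a, ha, b, hb, x, hx, hx', e⟩ := D.decomp hS (-X q)
  have hb0 : b = 0 := by
    have hbp : b ∈ pe ρ ω p := by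
      have h4 : b = -X q - a - x := by rw [e]; abel
      rw [h4]
      exact Submodule.sub_mem _ (Submodule.sub_mem _ hd (D.sp_pe hS ha)) hx
    refine D.zero hS hbp (D.spq_pe hS hb) fun y hy1 hy2 => BMo.pe_sp hS hy2 hb
  rw [hb0, add_zero] at e
  have eXq : X q = -(a + x) := by rw [← e, neg_neg]
  have hsym : ∀ h, ω a (ρ h q) = ω a (ρ h⁻¹ q) := by
    intro h
    have h1 : ω (X q) (ρ h q) = ω (X q) (ρ h⁻¹ q) := by
      rw [skew_zz hX, comm_zz hX, hS.inv'', ← hS.skew, ]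
    rw [eXq, map_neg, LinearMap.neg_apply, LinearMap.neg_apply, map_add, LinearMap.add_apply,
      LinearMap.add_apply, hx' h, hx' h⁻¹, add_zero, add_zero] at h1
    exact neg_injective h1
  refine ⟨x, hx, hx', ⟨(1 / 2 : ℂ) • a, Submodule.smul_mem _ _ ha, ?_⟩, ?_⟩
  · have hc : (1 / 2 : ℂ) • a ∈ sp ρ p := Submodule.smul_mem _ _ ha
    have hxc : x + (1 / 2 : ℂ) • a ∈ pe ρ ω p := Submodule.add_mem _ hx (D.sp_pe hS hc)
    have hE : X - S ρ ω p (x + (1 / 2 : ℂ) • a) ∈ zz ρ ω := Submodule.sub_mem _ hX (S_zz hS _ _)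
    rw [← sub_eq_zero]
    have hq : S ρ ω p (x + (1 / 2 : ℂ) • a) q = -(x + (1 / 2 : ℂ) • a) +
        act ρ p (fun h => ω q (ρ h ((1 / 2 : ℂ) • a))) := by
      rw [S_apply, sum_add_distrib, D.sum_qp hS (fun h => ρ h (x + (1 / 2 : ℂ) • a)), rho_one, act_apply]
      congr 1
      refine sum_congr rfl fun h _ => ?_
      rw [map_add, map_add, zero_pe hS hx' (mem_sp' q), zero_add]
    refine D.zz_zero hS hE ?_ ?_ ?_ ?_
    · rw [LinearMap.sub_apply, hXp, S_pe_sp hS D.p_pe hxc (mem_sp' p), sub_zero]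
    · rw [LinearMap.sub_apply, hq, eXq]
      have h1 : -(a + x) - (-(x + (1 / 2 : ℂ) • a) + act ρ p (fun h => ω q (ρ h ((1 / 2 : ℂ) • a)))) =
        -a + (1 / 2 : ℂ) • a - act ρ p (fun h => ω q (ρ h ((1 / 2 : ℂ) • a))) := by abel
      rw [h1]
      exact Submodule.sub_mem _ (Submodule.add_mem _ (Submodule.neg_mem _ ha) hc) (act_mem _ _)
    · intro h
      rw [LinearMap.sub_apply, hq, eXq]
      simp only [map_sub, map_neg, map_add, LinearMap.sub_apply, LinearMap.neg_apply, LinearMap.add_apply,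
        map_smul, LinearMap.smul_apply, smul_eq_mul]
      rw [D.act_q hS, hx' h]
      rw [hS.skew q, hS.inv', ← hsym h]
      ring
    · intro z hz hz'
      rw [LinearMap.sub_apply, S_pe hS hz]
      exact Submodule.sub_mem _ (hXP z hz) (act_mem _ _)
  · intro z hz hz'
    rw [skew_zz hX, eXq, map_neg, neg_neg, map_add, BMo.pe_sp hS hz ha, zero_add]

theorem pe_neg {x : V} : x ∈ pe ρ ω (-p) ↔ x ∈ pe ρ ω p := by
  constructor
  · intro h k
    have := h k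
    rwa [map_neg, map_neg, neg_eq_zero] at this
  · intro h k
    rw [map_neg, map_neg, h k, neg_zero]

theorem ω_surj [FiniteDimensional ℂ V] (hS : Sym ρ ω) (f : V →ₗ[ℂ] ℂ) : ∃ z, ∀ u, f u = ω z u := by
  have hinj : Function.Injective ω := by
    rw [← LinearMap.ker_eq_bot, LinearMap.ker_eq_bot']
    intro v hv
    exact hS.nd v fun u => by rw [hv, LinearMap.zero_apply]
  have hsurj : Function.Surjective ω := by
    have := LinearMap.injective_iff_surjective_of_finrank_eq_finrank (f := ω)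
      (Subspace.dual_finrank_eq (K := ℂ) (V := V)).symm
    exact this.1 hinj
  obtain ⟨z, hz⟩ := hsurj f
  exact ⟨z, fun u => by rw [hz]⟩

/-- The main theorem for a dual pair. -/
theorem Dual.front [FiniteDimensional ℂ V] (hS : Sym ρ ω) (D : Dual ρ ω p q)
    (hL : ∀ X ∈ L, ∀ Y ∈ L, X * Y - Y * X ∈ L)
    (hW : ∀ c : H → ℂ, (∀ x, x ∈ pe ρ ω p → x ∈ pe ρ ω q → ∑ h, c h • ρ h x = 0) → c = 0)
    {M : Module.End ℂ V} (hM : M ∈ zz ρ ω) (hML : M ∈ L) (hMW : ∀ z, z ∈ pe ρ ω p → z ∈ pe ρ ω q → M z = 0)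
    (hqM : q ∈ sp ρ (M p))
    (h1 : ∀ z, z ∈ pe ρ ω p → z ∈ pe ρ ω q → (∀ X ∈ L, X ∈ zz ρ ω → X p = 0 →
      (∀ v ∈ pe ρ ω p, X v ∈ sp ρ p) → ω (X z) q = 0) → z = 0) :
    ∀ X ∈ zz ρ ω, ∀ Y ∈ zz ρ ω, X * Y - Y * X ∈ L := by
  have k1 : ∀ x, x ∈ pe ρ ω p → x ∈ pe ρ ω q → ∃ c ∈ sp ρ p, S ρ ω p (x + c) ∈ L := by
    obtain ⟨U, hU⟩ : ∃ U : Submodule ℂ V, ∀ x, x ∈ U ↔ x ∈ pe ρ ω p ∧ x ∈ pe ρ ω q ∧
        ∃ c ∈ sp ρ p, S ρ ω p (x + c) ∈ L := by
      refine ⟨{ carrier := {x | x ∈ pe ρ ω p ∧ x ∈ pe ρ ω q ∧ ∃ c ∈ sp ρ p, S ρ ω p (x + c) ∈ L}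
                add_mem' := ?_
                zero_mem' := ?_
                smul_mem' := ?_ }, fun m => Iff.rfl⟩
      · rintro x y ⟨hx, hx', c, hc, hc'⟩ ⟨hy, hy', d, hd, hd'⟩
        refine ⟨Submodule.add_mem _ hx hy, Submodule.add_mem _ hx' hy', c + d, Submodule.add_mem _ hc hd, ?_⟩
        rw [add_add_add_comm, map_add]
        exact Submodule.add_mem _ hc' hd'
      · exact ⟨Submodule.zero_mem _, Submodule.zero_mem _, 0, Submodule.zero_mem _, by simp⟩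
      · rintro t x ⟨hx, hx', c, hc, hc'⟩
        refine ⟨Submodule.smul_mem _ _ hx, Submodule.smul_mem _ _ hx', t • c, Submodule.smul_mem _ _ hc, ?_⟩
        rw [← smul_add, map_smul]
        exact Submodule.smul_mem _ _ hc'
    intro x hx hx'
    by_contra hcon
    have hxU : x ∉ U ⊔ sp ρ p ⊔ sp ρ q := by
      intro h
      obtain ⟨y, hy, b, hb, e1⟩ := Submodule.mem_sup.1 h
      obtain ⟨w, hw, a, ha, e2⟩ := Submodule.mem_sup.1 hy
      rw [hU] at hw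
      have hr : x - w = 0 := by
        refine D.zero hS (Submodule.sub_mem _ hx hw.1) (Submodule.sub_mem _ hx' hw.2.1) fun y hy hy' => ?_
        have e3 : x - w = a + b := by rw [← e1, ← e2]; abel
        rw [e3, map_add, BMo.pe_sp hS hy ha, BMo.pe_sp hS hy' hb, add_zero]
      rw [sub_eq_zero] at hr
      rw [hr] at hcon
      exact hcon hw.2.2
    obtain ⟨f, hf, hle⟩ : ∃ f : V →ₗ[ℂ] ℂ, f x ≠ 0 ∧ ∀ u ∈ U ⊔ sp ρ p ⊔ sp ρ q, f u = 0 := by
      obtain ⟨f, hf, hle⟩ := Submodule.exists_le_ker_of_notMem hxU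
      exact ⟨f, hf, fun u hu => hle hu⟩
    obtain ⟨z, hz⟩ := ω_surj hS f
    have hzp : z ∈ pe ρ ω p := fun h => by
      rw [← hz]
      exact hle _ (Submodule.mem_sup_left (Submodule.mem_sup_right (mem_sp p h)))
    have hzq : z ∈ pe ρ ω q := fun h => by
      rw [← hz]
      exact hle _ (Submodule.mem_sup_right (mem_sp q h))
    have hz0 : z = 0 := by
      refine h1 z hzp hzq fun X hXL hX hXp hXP => ?_
      obtain ⟨y, hy, hy', ⟨c, hc, e⟩, h2⟩ := D.form hS hX hXp hXP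
      rw [h2 z hzp hzq, ← hz]
      refine hle _ (Submodule.mem_sup_left (Submodule.mem_sup_left ?_))
      rw [hU]
      exact ⟨hy, hy', c, hc, e ▸ hXL⟩
    rw [hz, hz0, map_zero, LinearMap.zero_apply] at hf
    exact hf rfl
  have k2 := D.stepA hS hW hL k1
  have k3 : ∀ x ∈ pe ρ ω p ⊓ pe ρ ω q, S ρ ω (M p) x ∈ L := by
    rintro x ⟨hx, hx'⟩
    have h2 := hL _ hML _ (k2 x hx)
    rwa [brk hM, hMW x hx hx', map_zero, add_zero] at h2
  have k4 : ∀ x, x ∈ pe ρ ω p → x ∈ pe ρ ω q → S ρ ω q x ∈ L := fun x hx hx' =>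
    S_sp (U := pe ρ ω p ⊓ pe ρ ω q) (fun u hu h => ⟨rho_pe hS hu.1 h, rho_pe hS hu.2 h⟩) k3 hqM ⟨hx, hx'⟩
  have k5 : ∀ x, x ∈ pe ρ ω q → S ρ ω q x ∈ L := by
    refine (D.swap hS).stepA hS (fun c hc => hW c fun x hx hx' => hc x hx' (pe_neg.2 hx)) hL fun x hx hx' => ?_
    refine ⟨0, Submodule.zero_mem _, ?_⟩
    rw [add_zero]
    exact k4 x (pe_neg.1 hx') hx
  exact D.main hS hL k2 k5 hW

end Pool.Agent.Lib.MP_943dad_ag.BMo
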