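import Pool.Agent.Lib.MP_943dad_ag.BM.AlgD

set_option linter.all false

/-!
# The Lie algebra generated by handle pushes, fifth part: an arbitrary invariant form
-/

open Finset

namespace Pool.Agent.Lib.MP_943dad_ag.BMo

variable {H V : Type} [Group H] [Fintype H] [AddCommGroup V] [Module ℂ V]
  {ρ : H →* Module.End ℂ V} {ω : V →ₗ[ℂ] V →ₗ[ℂ] ℂ}

/-- The logarithm of a unipotent isometry. -/
theorem log_zz (hS : Sym ρ ω) (u : Module.End ℂ V) (h1 : ∀ h, u * ρ h = ρ h * u)
    (h2 : ∀ x y, ω (u x) (u y) = ω x y) (h3 : (u - 1) * (u - 1) * (u - 1) = 0) :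
    (u - 1) - (1 / 2 : ℂ) • ((u - 1) * (u - 1)) ∈ zz ρ ω := by
  obtain ⟨n, hn⟩ : ∃ n, n = u - 1 := ⟨_, rfl⟩
  have hu : u = 1 + n := by rw [hn]; abel
  rw [← hn] at h3 ⊢
  have k1 : ∀ h, n * ρ h = ρ h * n := by
    intro h
    rw [hn, sub_mul, mul_sub, h1, one_mul, mul_one]
  constructor
  · intro h
    rw [sub_mul, mul_sub, smul_mul_assoc, mul_smul_comm, mul_assoc, k1, ← mul_assoc, k1, mul_assoc]
  · intro x y
    have e : ∀ x y, ω (n x) y + ω x (n y) + ω (n x) (n y) = 0 := by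
      intro x y
      have := h2 x y
      rw [hu] at this
      simp only [LinearMap.add_apply, Module.End.one_apply, map_add] at this
      linear_combination this
    have e3 : ∀ x, n (n (n x)) = 0 := fun x => by
      have := LinearMap.congr_fun h3 x
      simpa [Module.End.mul_apply] using this
    have a1 := e x y
    have a2 := e (n x) y
    have a3 := e x (n y)
    have a4 := e (n x) (n y)
    have a5 := e (n (n x)) y
    have a6 := e x (n (n y))
    have a7 := e (n (n x)) (n y)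
    have a8 := e (n x) (n (n y))
    have a9 := e (n (n x)) (n (n y))
    simp only [e3, map_zero, LinearMap.zero_apply] at a1 a2 a3 a4 a5 a6 a7 a8 a9
    simp only [LinearMap.sub_apply, LinearMap.smul_apply, Module.End.mul_apply, map_sub, map_smul, smul_eq_mul]
    linear_combination a1 - (1 / 2) * a2 - (1 / 2) * a3 + (1 / 2) * a7 + (1/2) * a8 - (1/2) * a4 + a9 +
      a5 + a6 - (1 / 2) * a8

/-- **The abstract theorem.** `p`, `q` are free generators of `P`, `Q` with coordinates `α`, `β`; the twists `N`, `M`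
are in `zz`, `M ∈ L`; the complement `W` is faithful; the elements of `L` which act as handle pushes separate the
vectors of `W`. Then `L` contains all commutators of elements of `zz`. The form `ω` is arbitrary. -/
theorem alg_main [FiniteDimensional ℂ V] (hS : Sym ρ ω) {p q : V} {α β : V →ₗ[ℂ] ℂ}
    (αp : α p = 1) (αp' : ∀ h, h ≠ 1 → α (ρ h p) = 0) (αq : ∀ h, α (ρ h q) = 0)
    (βq : β q = 1) (βq' : ∀ h, h ≠ 1 → β (ρ h q) = 0) (βp : ∀ h, β (ρ h p) = 0)
    {N M : Module.End ℂ V} (hN : N ∈ zz ρ ω) (hM : M ∈ zz ρ ω) (hNv : ∀ v, N v = ∑ h, β (ρ h⁻¹ v) • ρ h p)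
    (hMv : ∀ v, M v = ∑ h, α (ρ h⁻¹ v) • ρ h q)
    (hW : ∀ c : H → ℂ, (∀ x, (∀ h, α (ρ h x) = 0) → (∀ h, β (ρ h x) = 0) → ∑ h, c h • ρ h x = 0) → c = 0)
    {L : Submodule ℂ (Module.End ℂ V)} (hL : ∀ X ∈ L, ∀ Y ∈ L, X * Y - Y * X ∈ L) (hML : M ∈ L)
    (h1 : ∀ x, (∀ h, α (ρ h x) = 0) → (∀ h, β (ρ h x) = 0) →
      (∀ X ∈ L, X ∈ zz ρ ω → X p = 0 → (∀ v, (∀ h, β (ρ h v) = 0) →
        X v ∈ Submodule.span ℂ (Set.range fun h => ρ h p)) → α (X x) = 0) → x = 0) :
    ∀ X ∈ zz ρ ω, ∀ Y ∈ zz ρ ω, X * Y - Y * X ∈ L := by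
  classical
  -- coordinates of `∑ c h • ρ h p`
  have ca : ∀ (c : H → ℂ) (k : H), α (ρ k⁻¹ (act ρ p c)) = c k := by
    intro c k
    rw [act_apply, map_sum, map_sum, sum_eq_single k]
    · rw [map_smul, map_smul, ← rho_mul, inv_mul_cancel, rho_one, αp, smul_eq_mul, mul_one]
    · intro h _ hh
      rw [map_smul, map_smul, ← rho_mul, αp', smul_zero]
      intro h2
      exact hh (inv_mul_eq_one.1 h2).symm
    · exact fun h => absurd (mem_univ _) h
  have cb : ∀ (c : H → ℂ) (k : H), β (ρ k⁻¹ (act ρ q c)) = c k := by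
    intro c k
    rw [act_apply, map_sum, map_sum, sum_eq_single k]
    · rw [map_smul, map_smul, ← rho_mul, inv_mul_cancel, rho_one, βq, smul_eq_mul, mul_one]
    · intro h _ hh
      rw [map_smul, map_smul, ← rho_mul, βq', smul_zero]
      intro h2
      exact hh (inv_mul_eq_one.1 h2).symm
    · exact fun h => absurd (mem_univ _) h
  have hNq : N q = p := by
    rw [hNv, sum_eq_single 1]
    · rw [inv_one, rho_one, rho_one, βq, one_smul]
    · intro h _ hh
      rw [βq' _ (by simpa using hh), zero_smul]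
    · exact fun h => absurd (mem_univ _) h
  have hMp : M p = q := by
    rw [hMv, sum_eq_single 1]
    · rw [inv_one, rho_one, rho_one, αp, one_smul]
    · intro h _ hh
      rw [αp' _ (by simpa using hh), zero_smul]
    · exact fun h => absurd (mem_univ _) h
  -- the orthogonal complements in coordinates
  have pe1 : ∀ v, v ∈ pe ρ ω p ↔ ∀ h, β (ρ h v) = 0 := by
    intro v
    constructor
    · intro hv
      have h2 : N v = 0 := by
        refine hS.nd' _ fun u => ?_
        have h3 : ω (N u) v = 0 := sp_pe hS hv (by rw [hNv]; exact act_mem p fun h => β (ρ h⁻¹ u))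
        rw [skew_zz hN, neg_eq_zero] at h3
        exact h3
      intro h
      have h4 : N v = act ρ p (fun h => β (ρ h⁻¹ v)) := hNv v
      have h3 := ca (fun h => β (ρ h⁻¹ v)) h⁻¹
      rw [← h4, h2, map_zero, map_zero] at h3
      simpa using h3.symm
    · intro hv h
      have h2 : N v = 0 := by
        rw [hNv]
        exact sum_eq_zero fun h _ => by rw [hv, zero_smul]
      rw [← hNq, ← comm_zz hN, ← neg_eq_zero, ← skew_zz hN, h2, map_zero, LinearMap.zero_apply]
  have qe1 : ∀ v, v ∈ pe ρ ω q ↔ ∀ h, α (ρ h v) = 0 := by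
    intro v
    constructor
    · intro hv
      have h2 : M v = 0 := by
        refine hS.nd' _ fun u => ?_
        have h3 : ω (M u) v = 0 := sp_pe hS hv (by rw [hMv]; exact act_mem q fun h => α (ρ h⁻¹ u))
        rw [skew_zz hM, neg_eq_zero] at h3
        exact h3
      intro h
      have h4 : M v = act ρ q (fun h => α (ρ h⁻¹ v)) := hMv v
      have h3 := cb (fun h => α (ρ h⁻¹ v)) h⁻¹
      rw [← h4, h2, map_zero, map_zero] at h3
      simpa using h3.symm
    · intro hv h
      have h2 : M v = 0 := by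
        rw [hMv]
        exact sum_eq_zero fun h _ => by rw [hv, zero_smul]
      rw [← hMp, ← comm_zz hM, ← neg_eq_zero, ← skew_zz hM, h2, map_zero, LinearMap.zero_apply]
  have pp : p ∈ pe ρ ω p := (pe1 p).2 βp
  have qq : q ∈ pe ρ ω q := (qe1 q).2 αq
  have spp : ∀ u ∈ sp ρ p, u ∈ pe ρ ω p := fun u hu =>
    (Submodule.span_le (p := pe ρ ω p)).2 (by rintro _ ⟨h, rfl⟩; exact rho_pe hS pp h) hu
  have sqq : ∀ u ∈ sp ρ q, u ∈ pe ρ ω q := fun u hu =>
    (Submodule.span_le (p := pe ρ ω q)).2 (by rintro _ ⟨h, rfl⟩; exact rho_pe hS qq h) hu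
  -- a vector of `Q` orthogonal to `P` is zero
  have qz : ∀ c : H → ℂ, (∀ h, ω (act ρ q c) (ρ h p) = 0) → c = 0 := by
    intro c hc
    have h2 := (pe1 _).1 hc
    funext k
    rw [← cb c k, h2, Pi.zero_apply]
  -- the dual vector
  obtain ⟨d, hd⟩ : ∃ d : H → ℂ, ∀ h, ω p (ρ h (act ρ q d)) = if h = 1 then 1 else 0 := by
    obtain ⟨Ψ, hΨ⟩ : ∃ Ψ : (H → ℂ) →ₗ[ℂ] (H → ℂ), ∀ c h, Ψ c h = ω p (ρ h (act ρ q c)) :=
      ⟨{ toFun := fun c h => ω p (ρ h (act ρ q c))
         map_add' := fun c c' => by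
          funext h
          simp only [map_add, Pi.add_apply]
         map_smul' := fun t c => by
          funext h
          simp only [map_smul, Pi.smul_apply, RingHom.id_apply] }, fun c h => rfl⟩
    have hinj : Function.Injective Ψ := by
      rw [← LinearMap.ker_eq_bot, LinearMap.ker_eq_bot']
      intro c hc
      refine qz c fun h => ?_
      rw [hS.skew, hS.inv', ← hΨ, hc, Pi.zero_apply, neg_zero]
    obtain ⟨d, hd⟩ := (LinearMap.injective_iff_surjective.1 hinj) (fun h => if h = 1 then 1 else 0)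
    exact ⟨d, fun h => by rw [← hΨ, hd]⟩
  obtain ⟨r, hr⟩ : ∃ r, r = act ρ q d := ⟨_, rfl⟩
  rw [← hr] at hd
  have hrq : r ∈ sp ρ q := hr ▸ act_mem q d
  have D : Dual ρ ω p r := by
    refine ⟨pp, fun h => ?_, ?_, fun h hh => ?_⟩
    · exact pe_sp hS (sqq r hrq) (rho_sp hrq h)
    · have := hd 1
      rwa [rho_one, if_pos rfl] at this
    · rw [hd, if_neg hh]
  -- `Q` is spanned by the translates of `r`
  have hqr : q ∈ sp ρ r := by
    obtain ⟨s, hs⟩ : ∃ s, s = act ρ r (fun h => ω (ρ h p) q) := ⟨_, rfl⟩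
    have hs1 : s ∈ sp ρ r := hs ▸ act_mem r _
    have hsq : ∀ u ∈ sp ρ r, u ∈ sp ρ q := fun u hu =>
      (Submodule.span_le (p := sp ρ q)).2 (by rintro _ ⟨h, rfl⟩; exact rho_sp hrq h) hu
    -- `q - s` is in `Q` and orthogonal to `P`
    have h2 : q - s ∈ pe ρ ω p := by
      intro h
      rw [hS.skew, neg_eq_zero, map_sub, sub_eq_zero, hs, act_apply, map_sum, sum_eq_single h]
      · rw [map_smul, hS.inv, D.pq, smul_eq_mul, mul_one]
      · intro k _ hk
        rw [map_smul, hS.inv' h p (ρ k r), ← rho_mul, D.pq', smul_zero]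
        intro h3
        exact hk (inv_mul_eq_one.1 h3).symm
      · exact fun h => absurd (mem_univ _) h
    have h3 : ∃ c, q - s = act ρ q c := by
      have h4 : ∀ u ∈ sp ρ q, ∃ c, u = act ρ q c := by
        intro u hu
        have h5 : sp ρ q ≤ LinearMap.range (act ρ q) := by
          rw [sp, Submodule.span_le]
          rintro _ ⟨h, rfl⟩
          refine ⟨Pi.single h 1, ?_⟩
          rw [act_apply, sum_eq_single h (fun k _ hk => by rw [Pi.single_eq_of_ne hk, zero_smul])
            (fun h5 => absurd (mem_univ _) h5), Pi.single_eq_same, one_smul]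
        obtain ⟨c, hc⟩ := h5 hu
        exact ⟨c, hc.symm⟩
      exact h4 _ (Submodule.sub_mem _ (mem_sp' q) (hsq s hs1))
    obtain ⟨c, hc⟩ := h3
    have h4 : c = 0 := qz c fun h => by rw [← hc]; exact h2 h
    rw [h4, map_zero, sub_eq_zero] at hc
    rw [hc]
    exact hs1
  have re1 : ∀ v, v ∈ pe ρ ω r ↔ v ∈ pe ρ ω q := by
    intro v
    constructor
    · intro hv h
      exact pe_sp hS hv (rho_sp hqr h)
    · intro hv h
      exact pe_sp hS hv (rho_sp hrq h)
  have hW' : ∀ c : H → ℂ, (∀ x, x ∈ pe ρ ω p → x ∈ pe ρ ω r → ∑ h, c h • ρ h x = 0) → c = 0 := fun c hc =>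
    hW c fun x hxa hxb => hc x ((pe1 x).2 hxb) ((re1 x).2 ((qe1 x).2 hxa))
  refine D.front hS hL hW' hM hML (fun z hz hz' => ?_) (by rw [hMp]; exact hrq) fun z hz hz' h2 => ?_
  · rw [hMv]
    exact sum_eq_zero fun h _ => by rw [(qe1 z).1 ((re1 z).1 hz'), zero_smul]
  · refine h1 z ((qe1 z).1 ((re1 z).1 hz')) ((pe1 z).1 hz) fun X hXL hX hXp hXP => ?_
    have h3 := h2 X hXL hX hXp fun v hv => hXP v ((pe1 v).1 hv)
    have h4 : X z ∈ sp ρ p := hXP z ((pe1 z).1 hz)
    obtain ⟨c, hc⟩ : ∃ c, X z = act ρ p c := by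
      have h5 : sp ρ p ≤ LinearMap.range (act ρ p) := by
        rw [sp, Submodule.span_le]
        rintro _ ⟨h, rfl⟩
        refine ⟨Pi.single h 1, ?_⟩
        rw [act_apply, sum_eq_single h (fun k _ hk => by rw [Pi.single_eq_of_ne hk, zero_smul])
          (fun h5 => absurd (mem_univ _) h5), Pi.single_eq_same, one_smul]
      obtain ⟨c, hc⟩ := h5 h4
      exact ⟨c, hc.symm⟩
    have h5 := ca c 1
    have h6 := D.act_q hS c 1
    rw [inv_one, rho_one, ← hc] at h5
    rw [rho_one, ← hc, h3] at h6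
    rw [h5, h6]

end Pool.Agent.Lib.MP_943dad_ag.BMo
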