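import Mathlib
import Pool.Agent.Lib.MP_943dad_ag.HMv.Defs

set_option linter.all false

/-!
The cohomology of a branched cover, the action of the mapping classes, primitives for the cup product,
polynomial functions on an algebra and the Lie algebra of a Zariski closure.
-/

namespace Pool.Agent.BM

open Pool.Agent.HMv

variable {H : Type} [Group H] {g n : ℕ}

/-- The homomorphisms `ker φ → ℂ` (extended by zero to `F g n`) which kill all conjugates of `R` and all
conjugates of the powers of the `c_j` which are in `ker φ`. -/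
def CohSet (φ : F g n →* H) : Set (F g n → ℂ) :=
  {f | (∀ x, φ x ≠ 1 → f x = 0) ∧ (∀ x y, φ x = 1 → φ y = 1 → f (x * y) = f x + f y) ∧
    (∀ x, f (x * R g n * x⁻¹) = 0) ∧
    ∀ (x : F g n) (j : Fin n) (k : ℕ), φ (c g j) ^ k = 1 → f (x * c g j ^ k * x⁻¹) = 0}

theorem coh_add (φ : F g n →* H) {f f' : F g n → ℂ} (hf : f ∈ CohSet φ) (hf' : f' ∈ CohSet φ) :
    f + f' ∈ CohSet φ := by
  obtain ⟨h1, h2, h3, h4⟩ := hf
  obtain ⟨k1, k2, k3, k4⟩ := hf'
  refine ⟨fun x hx => ?_, fun x y hx hy => ?_, fun x => ?_, fun x j k hk => ?_⟩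
  · simp [h1 x hx, k1 x hx]
  · simp only [Pi.add_apply, h2 x y hx hy, k2 x y hx hy]
    ring
  · simp [h3 x, k3 x]
  · simp [h4 x j k hk, k4 x j k hk]

theorem coh_zero (φ : F g n →* H) : (0 : F g n → ℂ) ∈ CohSet φ := by
  refine ⟨fun x hx => rfl, fun x y hx hy => ?_, fun x => rfl, fun x j k hk => rfl⟩
  simp

theorem coh_smul (φ : F g n →* H) (t : ℂ) {f : F g n → ℂ} (hf : f ∈ CohSet φ) : t • f ∈ CohSet φ := by
  obtain ⟨h1, h2, h3, h4⟩ := hf
  refine ⟨fun x hx => ?_, fun x y hx hy => ?_, fun x => ?_, fun x j k hk => ?_⟩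
  · simp [h1 x hx]
  · simp only [Pi.smul_apply, h2 x y hx hy, smul_add]
  · simp [h3 x]
  · simp [h4 x j k hk]

/-- The first cohomology, with complex coefficients, of the closed surface which covers the surface of genus `g`
with branch points `c_j` by `φ`. -/
def Coh (φ : F g n →* H) : Submodule ℂ (F g n → ℂ) where
  carrier := CohSet φ
  add_mem' := coh_add φ
  zero_mem' := coh_zero φ
  smul_mem' := fun t _ hf => coh_smul φ t hf

theorem mem_coh {φ : F g n →* H} {f : F g n → ℂ} : f ∈ Coh φ ↔ (∀ x, φ x ≠ 1 → f x = 0) ∧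
    (∀ x y, φ x = 1 → φ y = 1 → f (x * y) = f x + f y) ∧ (∀ x, f (x * R g n * x⁻¹) = 0) ∧
    ∀ (x : F g n) (j : Fin n) (k : ℕ), φ (c g j) ^ k = 1 → f (x * c g j ^ k * x⁻¹) = 0 := Iff.rfl

theorem inn_mem (φ : F g n →* H) (y : F g n) (f : Coh φ) : (fun x => f.1 (y⁻¹ * x * y)) ∈ Coh φ := by
  obtain ⟨h1, h2, h3, h4⟩ := f.2
  refine ⟨fun x hx => ?_, fun x z hx hz => ?_, fun x => ?_, fun x j k hk => ?_⟩
  · apply h1
    intro h
    apply hx
    simp only [map_mul, map_inv] at h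
    have h5 : φ x = φ y * ((φ y)⁻¹ * φ x * φ y) * (φ y)⁻¹ := by group
    rw [h5, h]
    group
  · have h5 : y⁻¹ * (x * z) * y = (y⁻¹ * x * y) * (y⁻¹ * z * y) := by group
    change f.1 (y⁻¹ * (x * z) * y) = _
    rw [h5, h2]
    · simp [hx]
    · simp [hz]
  · have h5 : y⁻¹ * (x * R g n * x⁻¹) * y = (y⁻¹ * x) * R g n * (y⁻¹ * x)⁻¹ := by group
    change f.1 (y⁻¹ * (x * R g n * x⁻¹) * y) = 0
    rw [h5, h3]
  · have h5 : y⁻¹ * (x * c g j ^ k * x⁻¹) * y = (y⁻¹ * x) * c g j ^ k * (y⁻¹ * x)⁻¹ := by group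
    change f.1 (y⁻¹ * (x * c g j ^ k * x⁻¹) * y) = 0
    rw [h5, h4 _ _ _ hk]

/-- The deck transformation given by `y` on the cohomology: `(y f)(x) = f (y⁻¹ x y)`. -/
def inn (φ : F g n →* H) (y : F g n) : Module.End ℂ (Coh φ) where
  toFun f := ⟨fun x => f.1 (y⁻¹ * x * y), inn_mem φ y f⟩
  map_add' _ _ := rfl
  map_smul' _ _ := rfl

theorem inn_apply (φ : F g n →* H) (y : F g n) (f : Coh φ) (x : F g n) :
    (inn φ y f).1 x = f.1 (y⁻¹ * x * y) := rfl

/-- `α` is a mapping class which fixes `φ`. -/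
def Fixes (φ : F g n →* H) (α : MulAut (F g n)) : Prop :=
  α (R g n) = R g n ∧ (∀ j : Fin n, IsConj (α (c g j)) (c g j)) ∧ ∀ x, φ (α x) = φ x

theorem fixes_mul {φ : F g n →* H} {α β : MulAut (F g n)} (h : Fixes φ α) (k : Fixes φ β) :
    Fixes φ (α * β) := by
  obtain ⟨h1, h2, h3⟩ := h
  obtain ⟨k1, k2, k3⟩ := k
  refine ⟨?_, fun j => ?_, fun x => ?_⟩
  · rw [MulAut.mul_apply, k1, h1]
  · rw [MulAut.mul_apply]
    exact ((α.toMonoidHom.map_isConj (k2 j))).trans (h2 j)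
  · rw [MulAut.mul_apply, h3, k3]

theorem fixes_one (φ : F g n →* H) : Fixes φ 1 := ⟨rfl, fun j => IsConj.refl _, fun x => rfl⟩

theorem fixes_inv {φ : F g n →* H} {α : MulAut (F g n)} (h : Fixes φ α) : Fixes φ α⁻¹ := by
  obtain ⟨h1, h2, h3⟩ := h
  refine ⟨?_, fun j => ?_, fun x => ?_⟩
  · rw [MulAut.inv_apply, MulEquiv.symm_apply_eq, h1]
  · rw [MulAut.inv_apply]
    have h4 := (MonoidHom.map_isConj α.symm.toMonoidHom (h2 j)).symm
    simpa using h4
  · rw [MulAut.inv_apply, ← h3, MulEquiv.apply_symm_apply]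

/-- The mapping classes which fix `φ`: the automorphisms of `F g n` which fix `R`, map each `c_j` to a
conjugate, and do not change `φ`. -/
def Stab (φ : F g n →* H) : Subgroup (MulAut (F g n)) where
  carrier := {α | Fixes φ α}
  mul_mem' := fixes_mul
  one_mem' := fixes_one φ
  inv_mem' := fixes_inv

theorem mon_mem (φ : F g n →* H) (α : Stab φ) (f : Coh φ) :
    (fun x => f.1 ((α⁻¹ : Stab φ).1 x)) ∈ Coh φ := by
  obtain ⟨k1, k2, k3⟩ := (α⁻¹ : Stab φ).2
  obtain ⟨h1, h2, h3, h4⟩ := f.2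
  refine ⟨fun x hx => ?_, fun x y hx hy => ?_, fun x => ?_, fun x j k hk => ?_⟩
  · apply h1
    rw [k3]
    exact hx
  · simp only [map_mul]
    exact h2 _ _ (by rw [k3, hx]) (by rw [k3, hy])
  · simp only [map_mul, map_inv, k1]
    exact h3 _
  · obtain ⟨d, hd⟩ := isConj_iff.1 (k2 j).symm
    simp only [map_mul, map_inv, map_pow]
    rw [← hd, ← conj_pow]
    have h5 := h4 ((α⁻¹ : Stab φ).1 x * d) j k hk
    have h6 : (α⁻¹ : Stab φ).1 x * d * c g j ^ k * ((α⁻¹ : Stab φ).1 x * d)⁻¹ =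
      (α⁻¹ : Stab φ).1 x * (d * c g j ^ k * d⁻¹) * ((α⁻¹ : Stab φ).1 x)⁻¹ := by group
    rw [h6] at h5
    rw [conj_pow, conj_pow]
    exact h5

/-- The action of a mapping class on the cohomology: `(α f)(x) = f (α⁻¹ x)`. -/
def mon (φ : F g n →* H) (α : Stab φ) : Module.End ℂ (Coh φ) where
  toFun f := ⟨fun x => f.1 ((α⁻¹ : Stab φ).1 x), mon_mem φ α f⟩
  map_add' _ _ := rfl
  map_smul' _ _ := rfl

theorem mon_apply (φ : F g n →* H) (α : Stab φ) (f : Coh φ) (x : F g n) :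
    (mon φ α f).1 x = f.1 ((α⁻¹ : Stab φ).1 x) := rfl

theorem mon_one (φ : F g n →* H) : mon φ 1 = 1 := by
  apply LinearMap.ext
  intro f
  apply Subtype.ext
  funext x
  rw [mon_apply]
  simp

theorem mon_mul (φ : F g n →* H) (α β : Stab φ) : mon φ (α * β) = mon φ α * mon φ β := by
  apply LinearMap.ext
  intro f
  apply Subtype.ext
  funext x
  change f.1 (((α * β)⁻¹ : Stab φ).1 x) = f.1 ((β⁻¹ : Stab φ).1 ((α⁻¹ : Stab φ).1 x))
  rw [mul_inv_rev]
  rfl

theorem mon_pow (φ : F g n →* H) (α : Stab φ) (k : ℕ) : mon φ (α ^ k) = mon φ α ^ k := by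
  induction k with
  | zero => rw [pow_zero, pow_zero, mon_one]
  | succ k ih => rw [pow_succ, pow_succ, mon_mul, ih]

/-- `Φ` is a primitive for the product of the cocycles `f` and `f'` on the punctured cover, and it vanishes on the
loops around the points over the branch points. -/
def IsPrim (φ : F g n →* H) (f f' : Coh φ) (Φ : F g n → ℂ) : Prop :=
  (∀ x y, φ x = 1 → φ y = 1 → Φ (x * y) = Φ x + Φ y + f.1 x * f'.1 y) ∧
    ∀ (x : F g n) (j : Fin n) (k : ℕ), φ (c g j) ^ k = 1 → Φ (x * c g j ^ k * x⁻¹) = 0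

/-- `ω` is the cup product on the cohomology of the cover: for the cocycles `f`, `f'` it is the sum of the values of
a primitive `Φ` on the lifts `s h R (s h)⁻¹` of the boundary word. -/
def IsCup [Fintype H] (φ : F g n →* H) (ω : LinearMap.BilinForm ℂ (Coh φ)) : Prop :=
  ∀ f f' : Coh φ, (∃ Φ, IsPrim φ f f' Φ) ∧ ∀ Φ, IsPrim φ f f' Φ → ∀ s : H → F g n, (∀ h, φ (s h) = h) →
    ω f f' = ∑ h, Φ (s h * R g n * (s h)⁻¹)

/-- The Lie algebra of the centralizer of the deck group in the symplectic group of `ω`. -/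
def IsZ (φ : F g n →* H) (ω : LinearMap.BilinForm ℂ (Coh φ)) (X : Module.End ℂ (Coh φ)) : Prop :=
  (∀ y, X * inn φ y = inn φ y * X) ∧ ∀ f f', ω (X f) f' + ω f (X f') = 0

/-- The polynomial functions on an algebra `A`. -/
def Pol (A : Type) [Ring A] [Algebra ℂ A] : Subalgebra ℂ (A → ℂ) :=
  Algebra.adjoin ℂ (Set.range fun l : Module.Dual ℂ A => (l : A → ℂ))

/-- `X` is in the Lie algebra of the Zariski closure of `G` (the tangent space at `1`): the derivative at `1` in the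
direction `X` of every polynomial function which vanishes on `G` is zero. -/
def InLie {A : Type} [Ring A] [Algebra ℂ A] (G : Set A) (X : A) : Prop :=
  ∀ P ∈ Pol A, (∀ x ∈ G, P x = 0) → deriv (fun t : ℂ => P (1 + t • X)) 0 = 0

end Pool.Agent.BM
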