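import Mathlib
import Pool.Agent.Lib.MP_943dad_ag.BM.Defs

set_option linter.all false

/-!
The boundary word `R` and one handle: `R = Q [a_i, b_i] Q'` with `Q`, `Q'` words in the other generators.
-/

namespace Pool.Agent.BM

open Pool.Agent.HMv

/-- The subgroup generated by the generators of `F g n` other than `a_i`, `b_i`. -/
def Xs {g : ℕ} (n : ℕ) (i : Fin g) : Subgroup (F g n) :=
  Subgroup.closure {x | (∃ j, j ≠ i ∧ (x = a n j ∨ x = b n j)) ∨ ∃ j : Fin n, x = c g j}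

theorem a_mem_Xs {g n : ℕ} {i j : Fin g} (h : j ≠ i) : a n j ∈ Xs n i :=
  Subgroup.subset_closure (Or.inl ⟨j, h, Or.inl rfl⟩)

theorem b_mem_Xs {g n : ℕ} {i j : Fin g} (h : j ≠ i) : b n j ∈ Xs n i :=
  Subgroup.subset_closure (Or.inl ⟨j, h, Or.inr rfl⟩)

theorem c_mem_Xs {g n : ℕ} (i : Fin g) (j : Fin n) : c g j ∈ Xs n i :=
  Subgroup.subset_closure (Or.inr ⟨j, rfl⟩)

/-- A product of a list which contains one exceptional element, at place `i`. -/
private theorem prod_split {G : Type} [Group G] (K : Subgroup G) : ∀ (g : ℕ) (f : Fin g → G) (i : Fin g),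
    (∀ j, j ≠ i → f j ∈ K) → ∃ Q ∈ K, ∃ Q' ∈ K, (List.ofFn f).prod = Q * f i * Q'
  | 0, _, i, _ => i.elim0
  | g + 1, f, i, hf => by
    rw [List.ofFn_succ, List.prod_cons]
    induction i using Fin.cases with
    | zero =>
      refine ⟨1, K.one_mem, (List.ofFn fun j : Fin g => f j.succ).prod, ?_, by group⟩
      apply Subgroup.list_prod_mem
      intro x hx
      obtain ⟨j, rfl⟩ := (List.mem_ofFn' _ _).1 hx
      exact hf _ (Fin.succ_ne_zero j)
    | succ i =>
      obtain ⟨Q, hQ, Q', hQ', h⟩ := prod_split K g (fun j => f j.succ) i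
        (fun j hj => hf _ (fun h => hj (Fin.succ_injective _ h)))
      refine ⟨f 0 * Q, K.mul_mem (hf 0 (Fin.succ_ne_zero i).symm) hQ, Q', hQ', ?_⟩
      rw [h]
      group

theorem R_split {g n : ℕ} (i : Fin g) : ∃ Q ∈ Xs n i, ∃ Q' ∈ Xs n i,
    R g n = Q * (a n i * b n i * (a n i)⁻¹ * (b n i)⁻¹) * Q' := by
  obtain ⟨Q, hQ, Q', hQ', h⟩ := prod_split (Xs n i) g
    (fun i : Fin g => a n i * b n i * (a n i)⁻¹ * (b n i)⁻¹) i (fun j hj =>
      mul_mem (mul_mem (mul_mem (a_mem_Xs hj) (b_mem_Xs hj)) (inv_mem (a_mem_Xs hj)))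
        (inv_mem (b_mem_Xs hj)))
  refine ⟨Q, hQ, Q' * (List.ofFn fun j : Fin n => c g j).prod, mul_mem hQ' ?_, ?_⟩
  · apply Subgroup.list_prod_mem
    intro x hx
    obtain ⟨j, rfl⟩ := (List.mem_ofFn' _ _).1 hx
    exact c_mem_Xs i j
  · rw [R, h]
    group

/-- An element of `F g n` is in every subgroup which contains the `Xs n i`, `a_i` and `b_i`. -/
theorem mem_of_Xs {g n : ℕ} {i : Fin g} {K : Subgroup (F g n)} (h : Xs n i ≤ K) (ha : a n i ∈ K)
    (hb : b n i ∈ K) (x : F g n) : x ∈ K := by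
  have h1 : Subgroup.closure (Set.range (FreeGroup.of : (Fin g × Bool) ⊕ Fin n → F g n)) = ⊤ :=
    FreeGroup.closure_range_of _
  have h2 : Subgroup.closure (Set.range (FreeGroup.of : (Fin g × Bool) ⊕ Fin n → F g n)) ≤ K := by
    rw [Subgroup.closure_le]
    rintro _ ⟨s, rfl⟩
    rcases s with ⟨j, s⟩ | j
    · by_cases hj : j = i
      · subst hj
        cases s
        · exact ha
        · exact hb
      · cases s
        · exact h (a_mem_Xs hj)
        · exact h (b_mem_Xs hj)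
    · exact h (c_mem_Xs i j)
  rw [h1] at h2
  exact h2 (Subgroup.mem_top x)

variable {H : Type} [Group H] {g n : ℕ}

/-- The subgroup generated by the generators other than `a_i` and `b_i`. -/
def Oth (g n : ℕ) (i : Fin g) : Subgroup (F g n) :=
  Subgroup.closure {z | ∃ q : (Fin g × Bool) ⊕ Fin n, q ≠ Sum.inl (i, false) ∧ q ≠ Sum.inl (i, true) ∧
    z = FreeGroup.of q}

theorem oth_eq (i : Fin g) : Oth g n i = Xs n i := by
  apply le_antisymm
  · rw [Oth, Subgroup.closure_le]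
    rintro z ⟨q, h1, h2, rfl⟩
    rcases q with ⟨j, s⟩ | j
    · have hj : j ≠ i := by
        rintro rfl
        cases s
        · exact h1 rfl
        · exact h2 rfl
      cases s
      · exact a_mem_Xs hj
      · exact b_mem_Xs hj
    · exact c_mem_Xs i j
  · rw [Xs, Subgroup.closure_le]
    rintro z (⟨j, hj, rfl | rfl⟩ | ⟨j, rfl⟩)
    · exact Subgroup.subset_closure ⟨Sum.inl (j, false), by simp [hj], by simp, rfl⟩
    · exact Subgroup.subset_closure ⟨Sum.inl (j, true), by simp, by simp [hj], rfl⟩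
    · exact Subgroup.subset_closure ⟨Sum.inr j, by simp, by simp, rfl⟩

theorem oth_le (i : Fin g) (e : Bool) :
    Oth g n i ≤ Subgroup.closure {z | ∃ q : (Fin g × Bool) ⊕ Fin n, q ≠ Sum.inl (i, e) ∧ z = FreeGroup.of q} := by
  rw [Oth]
  apply Subgroup.closure_mono
  rintro z ⟨q, h1, h2, rfl⟩
  refine ⟨q, ?_, rfl⟩
  cases e
  · exact h1
  · exact h2

theorem spl (g n : ℕ) (i : Fin g) : ∃ Q ∈ Oth g n i, ∃ Q' ∈ Oth g n i,
    R g n = Q * (a n i * b n i * (a n i)⁻¹ * (b n i)⁻¹) * Q' := by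
  rw [oth_eq]
  exact R_split i

theorem oth_surj {φ : F g n →* H} (hφ : Function.Surjective φ) {i : Fin g} (ha : φ (a n i) = 1)
    (hb : φ (b n i) = 1) (h : H) : ∃ y ∈ Oth g n i, φ y = h := by
  rw [oth_eq]
  obtain ⟨x, rfl⟩ := hφ h
  have h1 := mem_of_Xs (i := i) (K := (Subgroup.map φ (Xs n i)).comap φ)
    (fun y hy => Subgroup.mem_comap.2 ⟨y, hy, rfl⟩)
    (by rw [Subgroup.mem_comap, ha]; exact one_mem _) (by rw [Subgroup.mem_comap, hb]; exact one_mem _) x
  exact h1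

theorem oth_decomp (i : Fin g) (x : F g n) : ∃ γ ∈ Oth g n i,
    ∃ ν ∈ Subgroup.normalClosure ({a n i, b n i} : Set (F g n)), x = γ * ν := by
  rw [oth_eq]
  let N := Subgroup.normalClosure ({a n i, b n i} : Set (F g n))
  have h1 := mem_of_Xs (i := i) (K := Xs n i ⊔ N) le_sup_left
    (Subgroup.mem_sup_right (Subgroup.subset_normalClosure (by simp)))
    (Subgroup.mem_sup_right (Subgroup.subset_normalClosure (by simp))) x
  obtain ⟨y, hy, z, hz, h2⟩ := Subgroup.mem_sup_of_normal_right.1 h1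
  exact ⟨y, hy, z, hz, h2.symm⟩

end Pool.Agent.BM
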