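import Mathlib
import Pool.Agent.Lib.MP_943dad_ag.BM.Defs
import Pool.Agent.Lib.MP_943dad_ag.BM.Spl

set_option linter.all false

/-!
The cohomology of a cover: it is finite dimensional, its classes are determined by the values on the words in all
letters but `a_i`, `b_i` and on the conjugates of `a_i`, `b_i`, and classes from crossed homomorphisms.
-/

namespace Pool.Agent.BM

open Pool.Agent.HMv

variable {H : Type} [Group H] {g n : ℕ}

theorem coh_one {φ : F g n →* H} (f : Coh φ) : f.1 1 = 0 := by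
  have h := f.2.2.1 1 1 (map_one φ) (map_one φ)
  rw [mul_one] at h
  linear_combination -h

theorem coh_inv {φ : F g n →* H} (f : Coh φ) (x : F g n) (hx : φ x = 1) : f.1 x⁻¹ = - f.1 x := by
  have h := f.2.2.1 x x⁻¹ hx (by rw [map_inv, hx, inv_one])
  rw [mul_inv_cancel, coh_one] at h
  linear_combination -h

/-- A class does not change on conjugates by closed words. -/
theorem coh_conj {φ : F g n →* H} (f : Coh φ) (x y : F g n) (hx : φ x = 1) (hy : φ y = 1) :
    f.1 (x * y * x⁻¹) = f.1 y := by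
  rw [f.2.2.1 _ _ (by rw [map_mul, hx, hy, one_mul]) (by rw [map_inv, hx, inv_one]), f.2.2.1 _ _ hx hy,
    coh_inv f x hx]
  ring

/-- The value on a conjugate depends only on the image of the conjugating word. -/
theorem coh_conj' {φ : F g n →* H} (f : Coh φ) (x x' y : F g n) (hx : φ x = φ x') (hy : φ y = 1) :
    f.1 (x * y * x⁻¹) = f.1 (x' * y * x'⁻¹) := by
  have h1 : x * y * x⁻¹ = (x * x'⁻¹) * (x' * y * x'⁻¹) * (x * x'⁻¹)⁻¹ := by group
  rw [h1, coh_conj]
  · rw [map_mul, map_inv, hx, mul_inv_cancel]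
  · rw [map_mul, map_mul, map_inv, hy, mul_one, mul_inv_cancel]

/-- (G1) The cohomology is finite dimensional. -/
theorem finite_coh [Finite H] (φ : F g n →* H) : Module.Finite ℂ (Coh φ) := by
  haveI : φ.ker.FiniteIndex := inferInstance
  haveI : Group.FG φ.ker := inferInstance
  obtain ⟨S, hS⟩ := (Group.FG.out : (⊤ : Subgroup φ.ker).FG)
  let L : Coh φ →ₗ[ℂ] (S → ℂ) :=
    { toFun := fun f s => f.1 (s.1 : F g n)
      map_add' := fun f f' => rfl
      map_smul' := fun t f => rfl }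
  apply Module.Finite.of_injective L
  rw [injective_iff_map_eq_zero]
  intro f hf
  let K : Subgroup φ.ker :=
    { carrier := {x | f.1 (x : F g n) = 0}
      mul_mem' := by
        intro x y hx hy
        change f.1 ((x : F g n) * y) = 0
        rw [f.2.2.1 _ _ x.2 y.2]
        change f.1 (x : F g n) = 0 at hx
        change f.1 (y : F g n) = 0 at hy
        rw [hx, hy, add_zero]
      one_mem' := coh_one f
      inv_mem' := by
        intro x hx
        change f.1 ((x : F g n)⁻¹) = 0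
        change f.1 (x : F g n) = 0 at hx
        rw [coh_inv f _ x.2, hx, neg_zero] }
  have hK : Subgroup.closure (S : Set φ.ker) ≤ K := by
    rw [Subgroup.closure_le]
    intro s hs
    exact congrFun hf ⟨s, hs⟩
  apply Subtype.ext
  funext x
  change f.1 x = 0
  by_cases hx : φ x = 1
  · have h1 : (⟨x, hx⟩ : φ.ker) ∈ K := by
      apply hK
      rw [hS]
      exact Subgroup.mem_top _
    exact h1
  · exact f.2.1 x hx

/-- The projection which kills `a_i` and `b_i`. -/
def pr {g : ℕ} (n : ℕ) (i : Fin g) : F g n →* F g n :=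
  FreeGroup.lift fun s => match s with
    | Sum.inl (j, s) => if j = i then 1 else FreeGroup.of (Sum.inl (j, s))
    | Sum.inr j => FreeGroup.of (Sum.inr j)

theorem pr_a (n : ℕ) (i : Fin g) : pr n i (a n i) = 1 := by
  simp [pr, a]

theorem pr_b (n : ℕ) (i : Fin g) : pr n i (b n i) = 1 := by
  simp [pr, b]

theorem pr_of_mem {i : Fin g} {x : F g n} (hx : x ∈ Xs n i) : pr n i x = x := by
  have h1 : Xs n i ≤ (pr n i).eqLocus (MonoidHom.id _) := by
    rw [Xs, Subgroup.closure_le]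
    rintro x (⟨j, hj, rfl | rfl⟩ | ⟨j, rfl⟩)
    · change pr n i (a n j) = a n j
      simp [pr, a, hj]
    · change pr n i (b n j) = b n j
      simp [pr, b, hj]
    · change pr n i (c g j) = c g j
      simp [pr, c]
  exact h1 hx

theorem pr_mem (i : Fin g) (x : F g n) : pr n i x ∈ Xs n i := by
  have h1 := mem_of_Xs (i := i) (K := (Xs n i).comap (pr n i)) (fun y hy => by
    rw [Subgroup.mem_comap, pr_of_mem hy]
    exact hy) (by rw [Subgroup.mem_comap, pr_a]; exact one_mem _)
      (by rw [Subgroup.mem_comap, pr_b]; exact one_mem _) x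
  exact h1

theorem phi_pr (φ : F g n →* H) {i : Fin g} (ha : φ (a n i) = 1) (hb : φ (b n i) = 1) (x : F g n) :
    φ (pr n i x) = φ x := by
  have h1 := mem_of_Xs (i := i) (K := (φ.comp (pr n i)).eqLocus φ) (fun y hy => by
    change φ (pr n i y) = φ y
    rw [pr_of_mem hy]) (by
      change φ (pr n i (a n i)) = φ (a n i)
      rw [pr_a, map_one, ha]) (by
      change φ (pr n i (b n i)) = φ (b n i)
      rw [pr_b, map_one, hb]) x
  exact h1

theorem mul_pr_inv_mem (K : Subgroup (F g n)) [K.Normal] {i : Fin g} (ha : a n i ∈ K) (hb : b n i ∈ K)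
    (x : F g n) : x * (pr n i x)⁻¹ ∈ K := by
  have h1 := mem_of_Xs (i := i)
    (K := ((QuotientGroup.mk' K).comp (pr n i)).eqLocus (QuotientGroup.mk' K)) (fun y hy => by
      change QuotientGroup.mk' K (pr n i y) = QuotientGroup.mk' K y
      rw [pr_of_mem hy]) (by
      change QuotientGroup.mk' K (pr n i (a n i)) = QuotientGroup.mk' K (a n i)
      rw [pr_a, map_one, eq_comm]
      exact (QuotientGroup.eq_one_iff _).2 ha) (by
      change QuotientGroup.mk' K (pr n i (b n i)) = QuotientGroup.mk' K (b n i)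
      rw [pr_b, map_one, eq_comm]
      exact (QuotientGroup.eq_one_iff _).2 hb) x
  have h2 : (QuotientGroup.mk' K) (pr n i x) = (QuotientGroup.mk' K) x := h1
  have h3 : (QuotientGroup.mk' K) (x * (pr n i x)⁻¹) = 1 := by
    rw [map_mul, map_inv, h2, mul_inv_cancel]
  exact (QuotientGroup.eq_one_iff _).1 h3

/-- (G2) A class which vanishes on the closed words in all letters but `a_i`, `b_i`, and on the conjugates of `a_i`
and `b_i`, is zero. -/
theorem coh_eq_zero {φ : F g n →* H} {i : Fin g} (ha : φ (a n i) = 1) (hb : φ (b n i) = 1) (f : Coh φ)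
    (h0 : ∀ x ∈ Xs n i, φ x = 1 → f.1 x = 0) (h1 : ∀ x, f.1 (x * a n i * x⁻¹) = 0)
    (h2 : ∀ x, f.1 (x * b n i * x⁻¹) = 0) : f = 0 := by
  let K : Subgroup (F g n) :=
    { carrier := {x | φ x = 1 ∧ ∀ z, f.1 (z * x * z⁻¹) = 0}
      mul_mem' := by
        rintro x y ⟨hx, hx'⟩ ⟨hy, hy'⟩
        refine ⟨by rw [map_mul, hx, hy, one_mul], fun z => ?_⟩
        have h3 : z * (x * y) * z⁻¹ = (z * x * z⁻¹) * (z * y * z⁻¹) := by group
        rw [h3, f.2.2.1, hx', hy', add_zero]
        · simp [hx]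
        · simp [hy]
      one_mem' := ⟨map_one φ, fun z => by simp [coh_one]⟩
      inv_mem' := by
        rintro x ⟨hx, hx'⟩
        refine ⟨by rw [map_inv, hx, inv_one], fun z => ?_⟩
        have h3 : z * x⁻¹ * z⁻¹ = (z * x * z⁻¹)⁻¹ := by group
        rw [h3, coh_inv, hx', neg_zero]
        simp [hx] }
  haveI : K.Normal := by
    constructor
    rintro x ⟨hx, hx'⟩ y
    refine ⟨by simp [hx], fun z => ?_⟩
    have h3 : z * (y * x * y⁻¹) * z⁻¹ = (z * y) * x * (z * y)⁻¹ := by group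
    rw [h3, hx']
  apply Subtype.ext
  funext x
  change f.1 x = 0
  by_cases hx : φ x = 1
  · obtain ⟨hk, hk'⟩ : x * (pr n i x)⁻¹ ∈ K := mul_pr_inv_mem K ⟨ha, h1⟩ ⟨hb, h2⟩ x
    have h3 := hk' 1
    rw [one_mul, inv_one, mul_one] at h3
    have h4 : f.1 x = f.1 (x * (pr n i x)⁻¹ * pr n i x) := by rw [inv_mul_cancel_right]
    rw [h4, f.2.2.1 _ _ hk (by rw [phi_pr φ ha hb, hx]), h3,
      h0 _ (pr_mem i x) (by rw [phi_pr φ ha hb, hx]), add_zero]
  · exact f.2.1 x hx

/-- Crossed homomorphisms: `D (x y) h = D x (φ y h) + D y h`. For every choice of the values on the generators there is one. -/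
theorem exists_crossed (φ : F g n →* H) (t : (Fin g × Bool) ⊕ Fin n → H → ℂ) :
    ∃ D : F g n → H → ℂ, (∀ x y h, D (x * y) h = D x (φ y * h) + D y h) ∧
      ∀ s h, D (FreeGroup.of s) h = t s h := by
  let P : (Fin g × Bool) ⊕ Fin n → Equiv.Perm (H × ℂ) := fun s =>
    { toFun := fun p => (φ (FreeGroup.of s) * p.1, p.2 + t s p.1)
      invFun := fun p => ((φ (FreeGroup.of s))⁻¹ * p.1, p.2 - t s ((φ (FreeGroup.of s))⁻¹ * p.1))
      left_inv := fun p => by simp
      right_inv := fun p => by simp }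
  have hP : ∀ (s) (p : H × ℂ), FreeGroup.lift P (FreeGroup.of s) p =
      (φ (FreeGroup.of s) * p.1, p.2 + t s p.1) := fun s p => by
    rw [FreeGroup.lift_apply_of]
    rfl
  have key : ∀ x : F g n, ∀ h r, FreeGroup.lift P x (h, r) = (φ x * h, r + (FreeGroup.lift P x (h, 0)).2) := by
    intro x
    induction x using FreeGroup.induction_on with
    | C1 => simp
    | of s =>
      intro h r
      rw [hP, hP]
      simp
    | inv_of s ih =>
      intro h r
      have h1 : ∀ h r, FreeGroup.lift P (FreeGroup.of s)⁻¹ (h, r) =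
          ((φ (FreeGroup.of s))⁻¹ * h, r - t s ((φ (FreeGroup.of s))⁻¹ * h)) := by
        intro h r
        rw [map_inv, Equiv.Perm.inv_eq_iff_eq, hP]
        simp
      rw [h1, h1]
      simp [sub_eq_add_neg]
    | mul x y hx hy =>
      intro h r
      rw [map_mul, Equiv.Perm.mul_apply, Equiv.Perm.mul_apply, hy h r, hy h 0]
      rw [hx (φ y * h) (r + _), hx (φ y * h) (0 + _)]
      simp only [map_mul, mul_assoc]
      ext
      · rfl
      · simp
        ring
  refine ⟨fun x h => (FreeGroup.lift P x (h, 0)).2, fun x y h => ?_, fun s h => ?_⟩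
  · change (FreeGroup.lift P (x * y) (h, 0)).2 = (FreeGroup.lift P x (φ y * h, 0)).2 + (FreeGroup.lift P y (h, 0)).2
    rw [map_mul, Equiv.Perm.mul_apply, key y h 0, key x (φ y * h) (0 + _)]
    simp only
    ring
  · change (FreeGroup.lift P (FreeGroup.of s) (h, 0)).2 = t s h
    rw [hP]
    simp

section Crossed

variable {φ : F g n →* H} {D : F g n → H → ℂ} (hD : ∀ x y h, D (x * y) h = D x (φ y * h) + D y h)

include hD

theorem D_one (h : H) : D 1 h = 0 := by
  have h1 := hD 1 1 h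
  rw [mul_one, map_one, one_mul] at h1
  linear_combination -h1

theorem D_inv (x : F g n) (h : H) : D x⁻¹ h = - D x ((φ x)⁻¹ * h) := by
  have h1 := hD x x⁻¹ h
  rw [mul_inv_cancel, D_one hD, map_inv] at h1
  linear_combination -h1

/-- A crossed homomorphism on a conjugate of a closed word. -/
theorem D_conj (x y : F g n) (hy : φ y = 1) (h : H) : D (x * y * x⁻¹) h = D y ((φ x)⁻¹ * h) := by
  rw [hD, hD, D_inv hD, map_inv, hy, one_mul]
  ring

theorem D_comm (x y : F g n) (hx : φ x = 1) (hy : φ y = 1) (h : H) : D (x * y * x⁻¹ * y⁻¹) h = 0 := by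
  rw [hD, D_conj hD _ _ hy, D_inv hD, map_inv, hx, hy]
  simp

/-- The class of a crossed homomorphism. -/
noncomputable def ofD (hR : φ (R g n) = 1) (h1 : ∀ h, D (R g n) h = 0)
    (h2 : ∀ (j : Fin n) (k : ℕ), φ (c g j) ^ k = 1 → ∀ h, D (c g j ^ k) h = 0) : Coh φ := by
  classical
  exact ⟨fun x => if φ x = 1 then D x 1 else 0, by
    refine ⟨fun x hx => if_neg hx, fun x y hx hy => ?_, fun x => ?_, fun x j k hk => ?_⟩
    · change (if φ (x * y) = 1 then D (x * y) 1 else 0) = (if φ x = 1 then D x 1 else 0) +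
        (if φ y = 1 then D y 1 else 0)
      rw [if_pos hx, if_pos hy, if_pos (by rw [map_mul, hx, hy, one_mul]), hD, hy, one_mul]
    · change (if φ (x * R g n * x⁻¹) = 1 then D (x * R g n * x⁻¹) 1 else 0) = 0
      rw [if_pos (by simp [hR]), D_conj hD _ _ hR, h1]
    · change (if φ (x * c g j ^ k * x⁻¹) = 1 then D (x * c g j ^ k * x⁻¹) 1 else 0) = 0
      rw [if_pos (by simp [hk]), D_conj hD _ _ (by rw [map_pow, hk]), h2 j k hk]⟩

theorem ofD_apply (hR : φ (R g n) = 1) (h1 : ∀ h, D (R g n) h = 0)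
    (h2 : ∀ (j : Fin n) (k : ℕ), φ (c g j) ^ k = 1 → ∀ h, D (c g j ^ k) h = 0) (x : F g n) (hx : φ x = 1) :
    (ofD hD hR h1 h2).1 x = D x 1 := by
  classical
  change (if φ x = 1 then D x 1 else 0) = D x 1
  rw [if_pos hx]

/-- The class of a crossed homomorphism on a conjugate. -/
theorem ofD_conj (hR : φ (R g n) = 1) (h1 : ∀ h, D (R g n) h = 0)
    (h2 : ∀ (j : Fin n) (k : ℕ), φ (c g j) ^ k = 1 → ∀ h, D (c g j ^ k) h = 0) (x y : F g n) (hy : φ y = 1) :
    (ofD hD hR h1 h2).1 (x * y * x⁻¹) = D y (φ x)⁻¹ := by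
  rw [ofD_apply hD hR h1 h2 _ (by simp [hy]), D_conj hD _ _ hy, mul_one]

/-- A crossed homomorphism which vanishes on all generators but `a_i`, `b_i` vanishes on `Xs n i`. -/
theorem D_Xs {i : Fin g} (h0 : ∀ x ∈ ({x | (∃ j, j ≠ i ∧ (x = a n j ∨ x = b n j)) ∨ ∃ j : Fin n, x = c g j} : Set (F g n)),
    ∀ h, D x h = 0) (x : F g n) (hx : x ∈ Xs n i) (h : H) : D x h = 0 := by
  have h1 : ∀ x ∈ Xs n i, ∀ h, D x h = 0 := by
    intro x hx
    refine Subgroup.closure_induction (p := fun x _ => ∀ h, D x h = 0) h0 (D_one hD) ?_ ?_ hx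
    · intro x y _ _ hx hy h
      rw [hD, hx, hy, add_zero]
    · intro x _ hx h
      rw [D_inv hD, hx, neg_zero]
  exact h1 x hx h

end Crossed

/-- (G3) The classes dual to the conjugates of `a_i` and `b_i`: for all functions `u`, `v` on `H` there is a class
with values `u (φ x)⁻¹` on `x a_i x⁻¹` and `v (φ x)⁻¹` on `x b_i x⁻¹`, and zero on the conjugates of the
closed words in the other letters. -/
theorem exists_dual {φ : F g n →* H} (hR : φ (R g n) = 1) {i : Fin g} (ha : φ (a n i) = 1) (hb : φ (b n i) = 1)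
    (u v : H → ℂ) : ∃ f : Coh φ, (∀ x, f.1 (x * a n i * x⁻¹) = u (φ x)⁻¹) ∧
      (∀ x, f.1 (x * b n i * x⁻¹) = v (φ x)⁻¹) ∧ ∀ x, ∀ y ∈ Xs n i, φ y = 1 → f.1 (x * y * x⁻¹) = 0 := by
  classical
  obtain ⟨D, hD, ht⟩ := exists_crossed φ (fun s => if s = Sum.inl (i, false) then u else
    if s = Sum.inl (i, true) then v else 0)
  have h0 : ∀ x ∈ ({x | (∃ j, j ≠ i ∧ (x = a n j ∨ x = b n j)) ∨ ∃ j : Fin n, x = c g j} : Set (F g n)),
      ∀ h, D x h = 0 := by
    rintro x (⟨j, hj, rfl | rfl⟩ | ⟨j, rfl⟩) h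
    · rw [a, ht]
      simp [hj]
    · rw [b, ht]
      simp [hj]
    · rw [c, ht]
      simp
  have hX := D_Xs hD h0
  have h1 : ∀ h, D (R g n) h = 0 := by
    intro h
    obtain ⟨Q, hQ, Q', hQ', h3⟩ := R_split (n := n) i
    rw [h3, hD, hD, hX Q hQ, hX Q' hQ', D_comm hD _ _ ha hb]
    simp
  have h2 : ∀ (j : Fin n) (k : ℕ), φ (c g j) ^ k = 1 → ∀ h, D (c g j ^ k) h = 0 := fun j k _ h =>
    hX _ (pow_mem (c_mem_Xs i j) k) h
  refine ⟨ofD hD hR h1 h2, fun x => ?_, fun x => ?_, fun x y hy hy1 => ?_⟩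
  · rw [ofD_conj hD hR h1 h2 _ _ ha, a, ht]
    simp
  · rw [ofD_conj hD hR h1 h2 _ _ hb, b, ht]
    simp
  · rw [ofD_conj hD hR h1 h2 _ _ hy1, hX y hy]

end Pool.Agent.BM
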