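import Mathlib
import Pool.Agent.Lib.MP_943dad_ag.BM.Gen

set_option linter.all false

/-!
If one handle `i` is trivial and there are two other handles, the classes which vanish on the conjugates of `a_i` and
`b_i` are a faithful module over the group algebra: a count of dimensions for an idempotent of the group algebra.
-/

namespace Pool.Agent.BM

open Pool.Agent.HMv

variable {H : Type} [Group H] {g n : ℕ}

/-- The right translations of the functions on `H`. -/
private def rt (H : Type) [Group H] : H →* Module.End ℂ (H → ℂ) where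
  toFun k :=
    { toFun := fun v h => v (h * k)
      map_add' := fun v w => rfl
      map_smul' := fun t v => rfl }
  map_one' := by
    apply LinearMap.ext
    intro v
    funext h
    change v (h * 1) = v h
    rw [mul_one]
  map_mul' := by
    intro k l
    apply LinearMap.ext
    intro v
    funext h
    change v (h * (k * l)) = v (h * k * l)
    rw [mul_assoc]

/-- The action of the group algebra. -/
private noncomputable def Rr (H : Type) [Group H] : MonoidAlgebra ℂ H →ₐ[ℂ] Module.End ℂ (H → ℂ) :=
  MonoidAlgebra.lift ℂ _ H (rt H)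

private theorem Rr_left (e : MonoidAlgebra ℂ H) (v : H → ℂ) (k : H) :
    Rr H e (fun h => v (k * h)) = fun h => Rr H e v (k * h) := by
  induction e using MonoidAlgebra.induction_on with
  | of m =>
    rw [Rr, MonoidAlgebra.lift_of]
    funext h
    change v (k * (h * m)) = v (k * h * m)
    rw [mul_assoc]
  | add x y hx hy =>
    rw [map_add, LinearMap.add_apply, LinearMap.add_apply, hx, hy]
    rfl
  | smul t x hx =>
    rw [map_smul, LinearMap.smul_apply, LinearMap.smul_apply, hx]
    rfl

private theorem Rr_sum [Fintype H] (c : H → ℂ) (v : H → ℂ) (k : H) :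
    Rr H (∑ h, MonoidAlgebra.single h (c h)) v k = ∑ h, c h * v (k * h) := by
  rw [map_sum, LinearMap.sum_apply, Finset.sum_apply]
  refine Finset.sum_congr rfl fun h _ => ?_
  rw [Rr, MonoidAlgebra.lift_single]
  rfl

/-- Crossed homomorphisms are determined by their values on the generators. -/
theorem crossed_unique {φ : F g n →* H} {D D' : F g n → H → ℂ}
    (hD : ∀ x y h, D (x * y) h = D x (φ y * h) + D y h) (hD' : ∀ x y h, D' (x * y) h = D' x (φ y * h) + D' y h)
    (h0 : ∀ s, D (FreeGroup.of s) = D' (FreeGroup.of s)) (x : F g n) : D x = D' x := by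
  induction x using FreeGroup.induction_on with
  | C1 =>
    funext h
    rw [D_one hD, D_one hD']
  | of s => exact h0 s
  | inv_of s ih =>
    funext h
    rw [D_inv hD, D_inv hD', h0 s]
  | mul x y hx hy =>
    funext h
    rw [hD, hD', hx, hy]

/-- The crossed homomorphism with given values on the generators. -/
private noncomputable def Dt (φ : F g n →* H) (t : (Fin g × Bool) ⊕ Fin n → H → ℂ) : F g n → H → ℂ :=
  Classical.choose (exists_crossed φ t)

private theorem Dt_mul (φ : F g n →* H) (t : (Fin g × Bool) ⊕ Fin n → H → ℂ) (x y h) :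
    Dt φ t (x * y) h = Dt φ t x (φ y * h) + Dt φ t y h :=
  (Classical.choose_spec (exists_crossed φ t)).1 x y h

private theorem Dt_of (φ : F g n →* H) (t : (Fin g × Bool) ⊕ Fin n → H → ℂ) (s) :
    Dt φ t (FreeGroup.of s) = t s :=
  funext ((Classical.choose_spec (exists_crossed φ t)).2 s)

private theorem Dt_add (φ : F g n →* H) (t t' : (Fin g × Bool) ⊕ Fin n → H → ℂ) (x : F g n) :
    Dt φ (t + t') x = Dt φ t x + Dt φ t' x := by
  refine crossed_unique (D' := fun x => Dt φ t x + Dt φ t' x) (Dt_mul φ _) ?_ ?_ x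
  · intro x y h
    simp only [Pi.add_apply, Dt_mul]
    ring
  · intro s
    simp only [Dt_of]
    rfl

private theorem Dt_smul (φ : F g n →* H) (r : ℂ) (t : (Fin g × Bool) ⊕ Fin n → H → ℂ) (x : F g n) :
    Dt φ (r • t) x = r • Dt φ t x := by
  refine crossed_unique (D' := fun x => r • Dt φ t x) (Dt_mul φ _) ?_ ?_ x
  · intro x y h
    simp only [Pi.smul_apply, Dt_mul, smul_add]
  · intro s
    simp only [Dt_of]
    rfl

/-- An operator of the group algebra which fixes the values on the generators fixes all values. -/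
private theorem Rr_D {φ : F g n →* H} {D : F g n → H → ℂ}
    (hD : ∀ x y h, D (x * y) h = D x (φ y * h) + D y h) (e : MonoidAlgebra ℂ H)
    (h0 : ∀ s, Rr H e (D (FreeGroup.of s)) = D (FreeGroup.of s)) (x : F g n) : Rr H e (D x) = D x := by
  refine crossed_unique (D := fun x => Rr H e (D x)) ?_ hD h0 x
  intro x y h
  have h1 : D (x * y) = (fun h => D x (φ y * h)) + D y := by
    funext h
    rw [hD]
    rfl
  simp only [h1]
  rw [map_add, Rr_left]
  rfl

/-- A crossed homomorphism which vanishes on the closed words is a coboundary. -/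
private theorem cobound {φ : F g n →* H} (hs : Function.Surjective φ) {D : F g n → H → ℂ}
    (hD : ∀ x y h, D (x * y) h = D x (φ y * h) + D y h) (h0 : ∀ x, φ x = 1 → D x = 0) :
    ∃ w : H → ℂ, ∀ x, D x = (fun h => w (φ x * h)) - w := by
  choose s hsec using hs
  refine ⟨fun h => D (s h) 1, fun x => ?_⟩
  funext h
  change D x h = D (s (φ x * h)) 1 - D (s h) 1
  have h1 := hD x (s h) 1
  rw [hsec, mul_one] at h1
  have h2 : x * s h = (x * s h * (s (φ x * h))⁻¹) * s (φ x * h) := by group
  rw [h2, hD, h0 (x * s h * (s (φ x * h))⁻¹) (by simp [hsec])] at h1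
  simp only [Pi.zero_apply] at h1
  linear_combination -h1

/-- **Faithfulness.** -/
theorem faithful [Fintype H] {φ : F g n →* H} (hs : Function.Surjective φ) (hR : φ (R g n) = 1) (hg : 3 ≤ g)
    {i : Fin g} (ha : φ (a n i) = 1) (hb : φ (b n i) = 1) (s : H → F g n) (hsec : ∀ h, φ (s h) = h) (c : H → ℂ)
    (hc : ∀ f : Coh φ, (∀ x, f.1 (x * a n i * x⁻¹) = 0) → (∀ x, f.1 (x * b n i * x⁻¹) = 0) →
      ∑ h, c h • inn φ (s h) f = 0) : c = 0 := by
  classical
  -- the crossed homomorphisms which we use
  let Z : Set (F g n → H → ℂ) := {D | (∀ x y h, D (x * y) h = D x (φ y * h) + D y h) ∧ D (a n i) = 0 ∧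
    D (b n i) = 0 ∧ D (R g n) = 0 ∧ ∀ j : Fin n, D (Pool.Agent.HMv.c g j) = 0}
  let I : Ideal (MonoidAlgebra ℂ H) :=
    { carrier := {e | ∀ D ∈ Z, ∀ x, φ x = 1 → Rr H e (D x) = 0}
      add_mem' := by
        intro e e' he he' D hD x hx
        rw [map_add, LinearMap.add_apply, he D hD x hx, he' D hD x hx, add_zero]
      zero_mem' := by
        intro D hD x hx
        rw [map_zero, LinearMap.zero_apply]
      smul_mem' := by
        intro t e he D hD x hx
        rw [smul_eq_mul, map_mul, Module.End.mul_apply, he D hD x hx, map_zero] }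
  have hcI : (∑ h, MonoidAlgebra.single h (c h)) ∈ I := by
    rintro D ⟨hD, hDa, hDb, hDR, hDc⟩ x hx
    have hpow : ∀ (j : Fin n) (k : ℕ) (h : H), D (Pool.Agent.HMv.c g j ^ k) h = 0 := by
      intro j k
      induction k with
      | zero =>
        intro h
        rw [pow_zero, D_one hD]
      | succ k ih =>
        intro h
        rw [pow_succ, hD, ih, hDc]
        simp
    have h1 : ∀ h, D (R g n) h = 0 := fun h => by rw [hDR]; rfl
    have h2 : ∀ (j : Fin n) (k : ℕ), φ (Pool.Agent.HMv.c g j) ^ k = 1 → ∀ h,
        D (Pool.Agent.HMv.c g j ^ k) h = 0 := fun j k _ h => hpow j k h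
    have h3 := hc (ofD hD hR h1 h2) (fun x => by rw [ofD_conj hD hR h1 h2 _ _ ha, hDa]; rfl)
      (fun x => by rw [ofD_conj hD hR h1 h2 _ _ hb, hDb]; rfl)
    funext k
    rw [Rr_sum]
    obtain ⟨y, hy⟩ := hs k
    have h4 : (∑ h, c h • inn φ (s h) (ofD hD hR h1 h2)).1 (y⁻¹ * x * y) = 0 := by
      rw [h3]
      rfl
    have h5 : (∑ h, c h • inn φ (s h) (ofD hD hR h1 h2)).1 (y⁻¹ * x * y) =
        ∑ h, c h * (ofD hD hR h1 h2).1 ((s h)⁻¹ * (y⁻¹ * x * y) * s h) := by
      rw [Submodule.coe_sum, Finset.sum_apply]
      rfl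
    rw [h5] at h4
    refine Eq.trans ?_ h4
    refine Finset.sum_congr rfl fun h _ => ?_
    have h6 : (s h)⁻¹ * (y⁻¹ * x * y) * s h = (y * s h)⁻¹ * x * ((y * s h)⁻¹)⁻¹ := by group
    rw [h6, ofD_conj hD hR h1 h2 _ _ hx, map_inv, inv_inv, map_mul, hy, hsec]
  obtain ⟨e, he, hI⟩ := IsSemisimpleRing.ideal_eq_span_idempotent I
  have heI : e ∈ I := by
    rw [hI]
    exact Ideal.mem_span_singleton_self e
  -- the range of the idempotent
  let E : Module.End ℂ (H → ℂ) := Rr H e
  have hE : ∀ v, E (E v) = E v := fun v => by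
    change Rr H e (Rr H e v) = Rr H e v
    rw [← Module.End.mul_apply, ← map_mul, he.eq]
  let S : Submodule ℂ (H → ℂ) := LinearMap.range E
  have hS : ∀ v, v ∈ S ↔ E v = v := by
    intro v
    constructor
    · rintro ⟨w, rfl⟩
      exact hE w
    · intro h
      exact ⟨v, h⟩
  -- two more handles
  obtain ⟨j1, j2, h12, h1i, h2i⟩ : ∃ j1 j2 : Fin g, j1 ≠ j2 ∧ j1 ≠ i ∧ j2 ≠ i := by
    have h1 : 2 ≤ (Finset.univ.erase i).card := by
      rw [Finset.card_erase_of_mem (Finset.mem_univ i), Finset.card_univ, Fintype.card_fin]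
      omega
    obtain ⟨j1, hj1, j2, hj2, h⟩ := Finset.one_lt_card.1 h1
    exact ⟨j1, j2, h, (Finset.mem_erase.1 hj1).1, (Finset.mem_erase.1 hj2).1⟩
  let ι : (Bool × Bool → S) →ₗ[ℂ] ((Fin g × Bool) ⊕ Fin n → H → ℂ) :=
    { toFun := fun v s => match s with
        | Sum.inl (j, b) => if j = j1 then (v (false, b)).1 else if j = j2 then (v (true, b)).1 else 0
        | Sum.inr _ => 0
      map_add' := by
        intro v w
        funext s
        rcases s with ⟨j, b⟩ | j
        · by_cases h1 : j = j1
          · simp [h1]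
          · by_cases h2 : j = j2
            · simp [h2, h12.symm]
            · simp [h1, h2]
        · simp
      map_smul' := by
        intro r v
        funext s
        rcases s with ⟨j, b⟩ | j
        · by_cases h1 : j = j1
          · simp [h1]
          · by_cases h2 : j = j2
            · simp [h2, h12.symm]
            · simp [h1, h2]
        · simp }
  have hιS : ∀ v s, E (ι v s) = ι v s := by
    intro v s
    rcases s with ⟨j, b⟩ | j
    · change E (if j = j1 then (v (false, b)).1 else if j = j2 then (v (true, b)).1 else 0) =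
        (if j = j1 then (v (false, b)).1 else if j = j2 then (v (true, b)).1 else 0)
      by_cases h1 : j = j1
      · rw [if_pos h1]
        exact (hS _).1 (v (false, b)).2
      · rw [if_neg h1]
        by_cases h2 : j = j2
        · rw [if_pos h2]
          exact (hS _).1 (v (true, b)).2
        · rw [if_neg h2, map_zero]
    · change E 0 = 0
      rw [map_zero]
  have hD : ∀ v x, E (Dt φ (ι v) x) = Dt φ (ι v) x := by
    intro v x
    exact Rr_D (Dt_mul φ (ι v)) e (fun s => by rw [Dt_of]; exact hιS v s) x
  let Θ : (Bool × Bool → S) →ₗ[ℂ] S :=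
    { toFun := fun v => ⟨Dt φ (ι v) (R g n), (hS _).2 (hD v _)⟩
      map_add' := by
        intro v w
        apply Subtype.ext
        change Dt φ (ι (v + w)) (R g n) = Dt φ (ι v) (R g n) + Dt φ (ι w) (R g n)
        rw [map_add, Dt_add]
      map_smul' := by
        intro r v
        apply Subtype.ext
        change Dt φ (ι (r • v)) (R g n) = r • Dt φ (ι v) (R g n)
        rw [map_smul, Dt_smul] }
  let gen : Bool × Bool → F g n := fun q => FreeGroup.of (Sum.inl (if q.1 then j2 else j1, q.2))
  have hL : ∀ (k : H) (w : S), E ((fun h => w.1 (k * h)) - w.1) = (fun h => w.1 (k * h)) - w.1 := by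
    intro k w
    rw [map_sub, (hS _).1 w.2]
    change Rr H e (fun h => w.1 (k * h)) - w.1 = _
    rw [Rr_left]
    have h1 : Rr H e w.1 = w.1 := (hS _).1 w.2
    rw [h1]
  let δ : S →ₗ[ℂ] (Bool × Bool → S) :=
    { toFun := fun w q => ⟨(fun h => w.1 (φ (gen q) * h)) - w.1, (hS _).2 (hL _ w)⟩
      map_add' := by
        intro v w
        funext q
        apply Subtype.ext
        funext h
        change (v.1 + w.1) (φ (gen q) * h) - (v.1 + w.1) h = (v.1 (φ (gen q) * h) - v.1 h) +
          (w.1 (φ (gen q) * h) - w.1 h)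
        simp only [Pi.add_apply]
        ring
      map_smul' := by
        intro r w
        funext q
        apply Subtype.ext
        funext h
        change (r • w.1) (φ (gen q) * h) - (r • w.1) h = r • (w.1 (φ (gen q) * h) - w.1 h)
        simp only [Pi.smul_apply, smul_sub] }
  have hker : LinearMap.ker Θ ≤ LinearMap.range δ := by
    intro v hv
    rw [LinearMap.mem_ker] at hv
    have hv1 : Dt φ (ι v) (R g n) = 0 := congrArg Subtype.val hv
    have hZ : Dt φ (ι v) ∈ Z := by
      refine ⟨Dt_mul φ (ι v), ?_, ?_, hv1, fun j => ?_⟩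
      · rw [a, Dt_of]
        change (if i = j1 then (v (false, false)).1 else if i = j2 then (v (true, false)).1 else 0) = 0
        rw [if_neg h1i.symm, if_neg h2i.symm]
      · rw [b, Dt_of]
        change (if i = j1 then (v (false, true)).1 else if i = j2 then (v (true, true)).1 else 0) = 0
        rw [if_neg h1i.symm, if_neg h2i.symm]
      · rw [Pool.Agent.HMv.c, Dt_of]
        rfl
    have h0 : ∀ x, φ x = 1 → Dt φ (ι v) x = 0 := by
      intro x hx
      rw [← hD v x]
      exact heI _ hZ x hx
    obtain ⟨w, hw⟩ := cobound hs (Dt_mul φ (ι v)) h0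
    refine ⟨⟨E w, (hS _).2 (hE w)⟩, ?_⟩
    funext q
    apply Subtype.ext
    change (fun h => E w (φ (gen q) * h)) - E w = (v q).1
    have h1 : Dt φ (ι v) (gen q) = (v q).1 := by
      change Dt φ (ι v) (FreeGroup.of (Sum.inl (if q.1 then j2 else j1, q.2))) = (v q).1
      rw [Dt_of]
      obtain ⟨q1, q2⟩ := q
      cases q1
      · change (if (if (false : Bool) = true then j2 else j1) = j1 then (v (false, q2)).1 else
          if (if (false : Bool) = true then j2 else j1) = j2 then (v (true, q2)).1 else 0) = _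
        simp
      · change (if (if (true : Bool) = true then j2 else j1) = j1 then (v (false, q2)).1 else
          if (if (true : Bool) = true then j2 else j1) = j2 then (v (true, q2)).1 else 0) = _
        simp [h12.symm]
    rw [← h1, ← hD v, hw (gen q), map_sub]
    change _ = Rr H e (fun h => w (φ (gen q) * h)) - E w
    rw [Rr_left]
  have hr : Module.finrank ℂ S = 0 := by
    have h1 := LinearMap.finrank_range_add_finrank_ker Θ
    have h2 : Module.finrank ℂ (LinearMap.range Θ) ≤ Module.finrank ℂ S := Submodule.finrank_le _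
    have h3 : Module.finrank ℂ (LinearMap.ker Θ) ≤ Module.finrank ℂ (LinearMap.range δ) :=
      Submodule.finrank_mono hker
    have h4 : Module.finrank ℂ (LinearMap.range δ) ≤ Module.finrank ℂ S := LinearMap.finrank_range_le δ
    have h5 : Module.finrank ℂ (Bool × Bool → S) = 4 * Module.finrank ℂ S := by
      rw [Module.finrank_pi_fintype]
      simp
      try ring
    omega
  have hS0 : S = ⊥ := Submodule.finrank_eq_zero.1 hr
  have hE0 : ∀ v, E v = 0 := by
    intro v
    have h1 : E v ∈ S := ⟨v, rfl⟩
    rw [hS0] at h1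
    exact (Submodule.mem_bot ℂ).1 h1
  rw [hI, Ideal.mem_span_singleton'] at hcI
  obtain ⟨y, hy⟩ := hcI
  funext k
  have h1 : Rr H (∑ h, MonoidAlgebra.single h (c h)) (Pi.single 1 1) k⁻¹ = 0 := by
    rw [← hy, map_mul, Module.End.mul_apply]
    have h2 : Rr H e (Pi.single 1 1) = 0 := hE0 _
    rw [h2, map_zero]
    rfl
  rw [Rr_sum] at h1
  rw [Finset.sum_eq_single k] at h1
  · simpa using h1
  · intro h _ hk
    rw [Pi.single_apply, if_neg, mul_zero]
    intro h2
    apply hk
    rw [inv_mul_eq_one] at h2
    exact h2.symm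
  · intro h2
    exact absurd (Finset.mem_univ k) h2

end Pool.Agent.BM
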