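import Pool.Agent.Lib.MP_943dad_ag.BM.Psh
import Pool.Agent.Lib.MP_943dad_ag.BM.Spl
import Pool.Agent.Lib.MP_943dad_ag.BM.Defs

set_option linter.all false

/-!
# Unipotent mapping classes

`φ : F (g + 1) n → H` is trivial on the last handle `a`, `b`. For every `w` in the subgroup `X` of the other generators with
`φ w = 1` there is a mapping class in `Stab φ` which acts on `Coh φ` as `1 + N + N ^ 2 / 2`, `N ^ 3 = 0`, with
`(N f)(y b y⁻¹) = 0`, and if `f` kills all conjugates of `b`, then `N f` kills the closed words in `X` and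
`(N f)(y a y⁻¹) = f (y w y⁻¹)` (`push_mon`). The two Dehn twists: `twist_a`, `twist_b`. `detect`: an element of
`Coh φ` is zero if it kills the closed words in `X` and all conjugates of `a` and `b`.
-/

namespace Pool.Agent.BM

open Pool.Agent.HMv Pool.Agent.HMv.Item

namespace Unip

section Alg

variable {A : Type} [Ring A] [Algebra ℂ A]

theorem alg1 (m : A) (h : m * m * m = 0) :
    1 + m = 1 + (m - (1 / 2 : ℂ) • (m * m)) +
      (1 / 2 : ℂ) • ((m - (1 / 2 : ℂ) • (m * m)) * (m - (1 / 2 : ℂ) • (m * m))) := by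
  have h' : m * (m * m) = 0 := by rw [← mul_assoc]; exact h
  have h4 : m * m * (m * m) = 0 := by rw [← mul_assoc, h, zero_mul]
  have h1 : (m - (1 / 2 : ℂ) • (m * m)) * (m - (1 / 2 : ℂ) • (m * m)) = m * m := by
    simp only [sub_mul, mul_sub, smul_mul_assoc, mul_smul_comm, h, h', h4, smul_zero, sub_zero]
  rw [h1]
  module

theorem alg2 (m : A) (h : m * m * m = 0) :
    (m - (1 / 2 : ℂ) • (m * m)) * (m - (1 / 2 : ℂ) • (m * m)) * (m - (1 / 2 : ℂ) • (m * m)) = 0 := by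
  have h' : m * (m * m) = 0 := by rw [← mul_assoc]; exact h
  have h4 : m * m * (m * m) = 0 := by rw [← mul_assoc, h, zero_mul]
  have h1 : (m - (1 / 2 : ℂ) • (m * m)) * (m - (1 / 2 : ℂ) • (m * m)) = m * m := by
    simp only [sub_mul, mul_sub, smul_mul_assoc, mul_smul_comm, h, h', h4, smul_zero, sub_zero]
  rw [h1, mul_sub, mul_smul_comm, h, h4, smul_zero, sub_zero]

theorem alg3 (m t : A) (h : m * t = t * m) :
    (m - (1 / 2 : ℂ) • (m * m)) * t = t * (m - (1 / 2 : ℂ) • (m * m)) := by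
  have h1 : m * m * t = t * (m * m) := by
    rw [mul_assoc, h, ← mul_assoc, h, mul_assoc]
  rw [sub_mul, mul_sub, smul_mul_assoc, mul_smul_comm, h1, h]

theorem alg4 (u t : A) (h : u * t = t * u) : (u - 1) * t = t * (u - 1) := by
  rw [sub_mul, mul_sub, h, one_mul, mul_one]

end Alg

section Basic

variable {H : Type} [Group H] {g n : ℕ} {φ : F g n →* H}

theorem coh_mul (f : Coh φ) {x y : F g n} (hx : φ x = 1) (hy : φ y = 1) : f.1 (x * y) = f.1 x + f.1 y :=
  f.2.2.1 x y hx hy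

theorem coh_one (f : Coh φ) : f.1 1 = 0 := by
  have h := coh_mul f (map_one φ) (map_one φ)
  rw [mul_one] at h
  exact left_eq_add.1 h

theorem coh_inv (f : Coh φ) {x : F g n} (hx : φ x = 1) : f.1 x⁻¹ = - f.1 x := by
  have h := coh_mul f hx (by rw [map_inv, hx, inv_one] : φ x⁻¹ = 1)
  rw [mul_inv_cancel, coh_one] at h
  exact (neg_eq_of_add_eq_zero_right h.symm).symm

theorem coh_conj (f : Coh φ) {x y : F g n} (hx : φ x = 1) (hy : φ y = 1) : f.1 (y * x * y⁻¹) = f.1 x := by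
  rw [coh_mul f (by rw [map_mul, hx, hy, mul_one]) (by rw [map_inv, hy, inv_one]), coh_mul f hy hx, coh_inv f hy]
  ring

theorem coh_conj_eq (f : Coh φ) {x y z : F g n} (hx : φ x = 1) (hyz : φ y = φ z) :
    f.1 (y * x * y⁻¹) = f.1 (z * x * z⁻¹) := by
  have h1 := coh_conj f (x := z * x * z⁻¹) (y := y * z⁻¹) (by simp [hx]) (by simp [hyz])
  rw [← h1]
  congr 1
  group

theorem coh_ext {f f' : Coh φ} (h : ∀ x, φ x = 1 → f.1 x = f'.1 x) : f = f' := by
  apply Subtype.ext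
  funext x
  by_cases hx : φ x = 1
  · exact h x hx
  · rw [f.2.1 x hx, f'.2.1 x hx]

/-- The mapping class of an automorphism, inverted: `(mon φ σ f) x = f (α x)`. -/
theorem exists_stab (α : MulAut (F g n)) (hR : α (R g n) = R g n)
    (hc : ∀ j : Fin n, IsConj (α (c g j)) (c g j)) (hα : ∀ x, φ (α x) = φ x) :
    ∃ σ : Stab φ, ∀ f x, (mon φ σ f).1 x = f.1 (α x) := by
  refine ⟨(⟨α, hR, hc, hα⟩ : Stab φ)⁻¹, fun f x => ?_⟩
  rw [mon_apply, inv_inv]

/-- The action commutes with the deck transformations. -/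
theorem mon_inn (σ : Stab φ) (y : F g n) : mon φ σ * inn φ y = inn φ y * mon φ σ := by
  apply LinearMap.ext
  intro f
  apply coh_ext
  intro x hx
  change (inn φ y f).1 ((σ⁻¹ : Stab φ).1 x) = (mon φ σ f).1 (y⁻¹ * x * y)
  rw [mon_apply, inn_apply, map_mul, map_mul, map_inv]
  obtain ⟨-, -, h⟩ := (σ⁻¹ : Stab φ).2
  have h1 := coh_conj_eq f (x := (σ⁻¹ : Stab φ).1 x) (y := y⁻¹) (z := ((σ⁻¹ : Stab φ).1 y)⁻¹) (by rw [h, hx])
    (by rw [map_inv, map_inv, h])
  rw [inv_inv, inv_inv] at h1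
  exact h1

end Basic

section Last

variable {H : Type} [Group H] {g n : ℕ} {φ : F (g + 1) n →* H}

/-- `f` kills all conjugates of `z`. -/
def Kl (f : Coh φ) (z : F (g + 1) n) : Prop := ∀ y, f.1 (y * z * y⁻¹) = 0

/-- The elements of the kernel all whose conjugates are killed by `f`. -/
def KlS (f : Coh φ) : Subgroup (F (g + 1) n) where
  carrier := {x | φ x = 1 ∧ Kl f x}
  one_mem' := ⟨map_one φ, fun y => by
    have : y * 1 * y⁻¹ = 1 := by group
    rw [this, coh_one]⟩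
  mul_mem' := by
    rintro x x' ⟨h1, h2⟩ ⟨h3, h4⟩
    refine ⟨by rw [map_mul, h1, h3, mul_one], fun y => ?_⟩
    have : y * (x * x') * y⁻¹ = (y * x * y⁻¹) * (y * x' * y⁻¹) := by group
    rw [this, coh_mul f (by simp [h1]) (by simp [h3]), h2, h4, add_zero]
  inv_mem' := by
    rintro x ⟨h1, h2⟩
    refine ⟨by rw [map_inv, h1, inv_one], fun y => ?_⟩
    have : y * x⁻¹ * y⁻¹ = (y * x * y⁻¹)⁻¹ := by group
    rw [this, coh_inv f (by simp [h1]), h2, neg_zero]

instance (f : Coh φ) : (KlS f).Normal := by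
  constructor
  rintro x ⟨h1, h2⟩ z
  refine ⟨by simp [h1], fun y => ?_⟩
  have : y * (z * x * z⁻¹) * y⁻¹ = (y * z) * x * (y * z)⁻¹ := by group
  rw [this, h2]

theorem mem_KlS {f : Coh φ} {x : F (g + 1) n} : x ∈ KlS f ↔ φ x = 1 ∧ Kl f x := Iff.rfl

theorem ncl_le_KlS {f : Coh φ} {z : F (g + 1) n} (hz : φ z = 1) (h : Kl f z) :
    Subgroup.normalClosure {z} ≤ KlS f := by
  apply Subgroup.normalClosure_le_normal
  rw [Set.singleton_subset_iff]
  exact ⟨hz, h⟩

/-- An element of `Coh φ` which kills `x` kills `x m` for `m` in the normal closure of `b`. -/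
theorem kill_B {f : Coh φ} (hb : φ (bL g n) = 1) (h : Kl f (bL g n)) {x x' : F (g + 1) n} (hx : φ x = 1)
    (hxx : pL g n x' = pL g n x) (y : F (g + 1) n) : f.1 (y * x' * y⁻¹) = f.1 (y * x * y⁻¹) := by
  have h1 : x' * x⁻¹ ∈ BL g n := by
    rw [← pL_eq_one, map_mul, map_inv, hxx, mul_inv_cancel]
  obtain ⟨h2, h3⟩ := ncl_le_KlS hb h h1
  have h4 : y * x' * y⁻¹ = (y * (x' * x⁻¹) * y⁻¹) * (y * x * y⁻¹) := by group
  rw [h4, coh_mul f (by rw [map_mul, map_mul, h2]; simp) (by simp [hx]), h3, zero_add]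

theorem detect (ha : φ (aL g n) = 1) (hb : φ (bL g n) = 1) {f : Coh φ}
    (hX : ∀ x ∈ Xs n (Fin.last g), φ x = 1 → f.1 x = 0) (hfa : Kl f (aL g n)) (hfb : Kl f (bL g n)) : f = 0 := by
  apply coh_ext
  intro x hx
  have h1 : x ∈ Xs n (Fin.last g) ⊔ KlS f := by
    apply mem_of_Xs (i := Fin.last g) le_sup_left
    · exact (le_sup_right : KlS f ≤ _) (mem_KlS.2 ⟨ha, hfa⟩)
    · exact (le_sup_right : KlS f ≤ _) (mem_KlS.2 ⟨hb, hfb⟩)
  obtain ⟨k, hk, m, hm, rfl⟩ := Subgroup.mem_sup_of_normal_right.1 h1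
  obtain ⟨h2, h3⟩ := hm
  have h4 : φ k = 1 := by rwa [map_mul, h2, mul_one] at hx
  rw [coh_mul f h4 h2, hX k hk h4, zero_add]
  have h5 := h3 1
  rw [one_mul, inv_one, mul_one] at h5
  exact h5

theorem XL_eq : XL g n = Xs n (Fin.last g) := by
  apply le_antisymm
  · apply gen_le
    intro p hp z hz
    rcases List.mem_append.1 hp with hp | hp
    · unfold IA hds at hp
      rw [List.mem_map] at hp
      obtain ⟨q, hq, rfl⟩ := hp
      obtain ⟨i, rfl⟩ := (List.mem_ofFn' _ _).1 hq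
      rcases hz with hz | hz
      · rw [hz]
        exact a_mem_Xs (Fin.castSucc_lt_last i).ne
      · have hz' : z = b n i.castSucc := hz
        rw [hz']
        exact b_mem_Xs (Fin.castSucc_lt_last i).ne
    · unfold IP pts at hp
      rw [List.mem_map] at hp
      obtain ⟨q, hq, rfl⟩ := hp
      obtain ⟨j, rfl⟩ := (List.mem_ofFn' _ _).1 hq
      have hz' : z = c (g + 1) j := hz
      rw [hz']
      exact c_mem_Xs _ j
  · rw [Xs, Subgroup.closure_le]
    have hA : ∀ i : Fin g, (hd (a n i.castSucc) (b n i.castSucc) : Item (F (g + 1) n)) ∈ IA g n ++ IP g n := by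
      intro i
      apply List.mem_append_left
      unfold IA hds
      rw [List.mem_map]
      exact ⟨_, (List.mem_ofFn' _ _).2 ⟨i, rfl⟩, rfl⟩
    rintro x (⟨j, hj, hx⟩ | ⟨j, rfl⟩)
    · obtain ⟨i, rfl⟩ := Fin.exists_castSucc_eq.2 hj
      rcases hx with rfl | rfl
      · exact ent_mem_gen (hA i) (Or.inl rfl)
      · exact ent_mem_gen (hA i) (Or.inr rfl)
    · have hP : (pt (c (g + 1) j) : Item (F (g + 1) n)) ∈ IA g n ++ IP g n := by
        apply List.mem_append_right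
        unfold IP pts
        rw [List.mem_map]
        exact ⟨_, (List.mem_ofFn' _ _).2 ⟨j, rfl⟩, rfl⟩
      exact ent_mem_gen hP rfl

/-- The push along `w` as an operator. -/
theorem push_mon (ha : φ (aL g n) = 1) (hb : φ (bL g n) = 1) {w : F (g + 1) n} (hw : w ∈ Xs n (Fin.last g))
    (hw1 : φ w = 1) : ∃ N : Module.End ℂ (Coh φ),
      (∃ σ : Stab φ, mon φ σ = 1 + N + (1 / 2 : ℂ) • (N * N)) ∧ N * N * N = 0 ∧
      (∀ y, N * inn φ y = inn φ y * N) ∧ (∀ f, Kl (N f) (bL g n)) ∧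
      ∀ f, Kl f (bL g n) → (∀ x ∈ Xs n (Fin.last g), φ x = 1 → (N f).1 x = 0) ∧
        ∀ y, (N f).1 (y * aL g n * y⁻¹) = f.1 (y * w * y⁻¹) := by
  rw [← XL_eq] at hw ⊢
  obtain ⟨α, hα⟩ := exists_push hw
  -- `φ α = φ`
  have hBk : ∀ x ∈ BL g n, φ x = 1 := by
    have h1 : BL g n ≤ φ.ker := by
      apply Subgroup.normalClosure_le_normal
      rw [Set.singleton_subset_iff]
      exact hb
    exact fun x hx => h1 hx
  have hpk : ∀ x y, pL g n x = pL g n y → φ x = φ y := by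
    intro x y h
    have h1 : x * y⁻¹ ∈ BL g n := by
      rw [← pL_eq_one, map_mul, map_inv, h, mul_inv_cancel]
    have h2 := hBk _ h1
    rw [map_mul, map_inv] at h2
    exact mul_inv_eq_one.1 h2
  have hφα : ∀ x, φ (α x) = φ x := by
    intro x
    let E : Subgroup (F (g + 1) n) := (φ.comp (tM α)).eqLocus φ
    have h1 : x ∈ E := by
      apply mem_of_Xs (i := Fin.last g)
      · rw [← XL_eq]
        intro z hz
        exact hpk _ _ (hα.x_eq z hz)
      · show φ (α (aL g n)) = φ (aL g n)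
        rw [hpk _ _ hα.a_eq, map_mul, hw1, one_mul]
      · show φ (α (bL g n)) = φ (bL g n)
        obtain ⟨κ, hκ, h2⟩ := hα.b_eq
        rw [h2, map_mul, map_mul, hb, map_inv, hBk κ hκ]
        simp
    exact h1
  obtain ⟨σ, hσ⟩ := exists_stab α hα.R_eq hα.c_conj hφα
  set u := mon φ σ with hu
  set m : Module.End ℂ (Coh φ) := u - 1 with hm
  have hmv : ∀ f x, (m f).1 x = f.1 (α x) - f.1 x := by
    intro f x
    rw [← hσ]
    rfl
  -- the three steps
  have hm1 : ∀ f, Kl (m f) (bL g n) := by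
    intro f y
    obtain ⟨κ, hκ, h2⟩ := hα.b_eq
    rw [hmv, map_mul, map_mul, map_inv, h2, sub_eq_zero]
    have h3 : α y * (κ * bL g n * κ⁻¹) * (α y)⁻¹ = (α y * κ) * bL g n * (α y * κ)⁻¹ := by group
    rw [h3]
    exact coh_conj_eq f hb (by rw [map_mul, hBk κ hκ, mul_one, hφα])
  have hm2 : ∀ f, Kl f (bL g n) → ∀ x ∈ XL g n, φ x = 1 → (m f).1 x = 0 := by
    intro f hf x hx hx1
    rw [hmv, sub_eq_zero]
    have h3 := kill_B hb hf hx1 (hα.x_eq x hx) 1
    simpa using h3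
  have hm3 : ∀ f, Kl f (bL g n) → ∀ y, (m f).1 (y * aL g n * y⁻¹) = f.1 (y * w * y⁻¹) := by
    intro f hf y
    have hwa : φ (w * aL g n) = 1 := by rw [map_mul, hw1, ha, one_mul]
    rw [hmv, map_mul, map_mul, map_inv, kill_B hb hf hwa hα.a_eq, coh_conj_eq f hwa (hφα y)]
    have h3 : y * (w * aL g n) * y⁻¹ = (y * w * y⁻¹) * (y * aL g n * y⁻¹) := by group
    rw [h3, coh_mul f (by simp [hw1]) (by simp [ha])]
    ring
  have hm4 : ∀ f, Kl f (bL g n) → (∀ x ∈ XL g n, φ x = 1 → f.1 x = 0) → m f = 0 := by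
    intro f hf hfX
    refine detect ha hb ?_ ?_ (hm1 f)
    · rw [← XL_eq]
      exact hm2 f hf
    · intro y
      rw [hm3 f hf y]
      -- `y = y' z` with `y'` in `X` and `φ z = 1`
      have h1 : y ∈ Xs n (Fin.last g) ⊔ φ.ker := by
        apply mem_of_Xs (i := Fin.last g) le_sup_left
        · exact (le_sup_right : φ.ker ≤ _) ha
        · exact (le_sup_right : φ.ker ≤ _) hb
      obtain ⟨y', hy', z, hz, rfl⟩ := Subgroup.mem_sup_of_normal_right.1 h1
      have hz1 : φ z = 1 := hz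
      rw [coh_conj_eq f hw1 (show φ (y' * z) = φ y' by rw [map_mul, hz1, mul_one])]
      rw [← XL_eq] at hy'
      exact hfX _ (mul_mem (mul_mem hy' hw) (inv_mem hy')) (by simp [hw1])
  have hmmm : m * m * m = 0 := by
    apply LinearMap.ext
    intro f
    exact hm4 _ (hm1 _) (hm2 _ (hm1 _))
  have hinn : ∀ y, m * inn φ y = inn φ y * m := by
    intro y
    exact alg4 u (inn φ y) (mon_inn σ y)
  have hum : u = 1 + m := by
    rw [hm]
    abel
  refine ⟨m - (1 / 2 : ℂ) • (m * m), ⟨σ, ?_⟩, alg2 m hmmm, fun y => alg3 m (inn φ y) (hinn y), ?_, ?_⟩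
  · rw [← hu, hum]
    exact alg1 m hmmm
  · intro f y
    have h1 : ((m - (1 / 2 : ℂ) • (m * m)) f).1 (y * bL g n * y⁻¹) =
        (m f).1 (y * bL g n * y⁻¹) - (1 / 2 : ℂ) * (m (m f)).1 (y * bL g n * y⁻¹) := rfl
    rw [h1, hm1 f y, hm1 (m f) y]
    ring
  · intro f hf
    have h0 : m (m f) = 0 := hm4 _ (hm1 f) (hm2 f hf)
    have h1 : (m - (1 / 2 : ℂ) • (m * m)) f = m f := by
      have : (m - (1 / 2 : ℂ) • (m * m)) f = m f - (1 / 2 : ℂ) • m (m f) := rfl
      rw [this, h0, smul_zero, sub_zero]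
    rw [h1]
    exact ⟨hm2 f hf, hm3 f hf⟩

/-- An automorphism which changes only the last handle. -/
theorem exists_last {p q : F (g + 1) n}
    (h : Mv (B0 (g + 1) n) (IA g n ++ hd p q :: IP g n)) : ∃ α : MulAut (F (g + 1) n),
      α (R (g + 1) n) = R (g + 1) n ∧ (∀ j : Fin n, IsConj (α (c (g + 1) j)) (c (g + 1) j)) ∧
      α (aL g n) = p ∧ α (bL g n) = q ∧ ∀ x ∈ XL g n, α x = x := by
  have h7 : IA g n ++ hd p q :: IP g n = hds ((List.ofFn fun i : Fin g => (a n i.castSucc, b n i.castSucc)) ++ [(p, q)])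
      ++ pts (List.ofFn fun j : Fin n => c (g + 1) j) := by
    rw [hds_append, List.append_assoc]
    rfl
  rw [h7] at h
  obtain ⟨α, hR, hc, hα⟩ := sound (by simp) (by simp) h
  rw [← h7, B0_eq, mp_append, mp_cons] at hα
  obtain ⟨h8, h9⟩ := List.append_inj hα (by rw [mp_length])
  rw [List.cons.injEq, Item.mp_hd, Item.hd.injEq] at h9
  obtain ⟨⟨h10, h11⟩, h12⟩ := h9
  refine ⟨α, hR, hc, h10, h11, ?_⟩
  intro x hx
  have h14 : mp (tM α) (IA g n ++ IP g n) = mp (MonoidHom.id _) (IA g n ++ IP g n) := by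
    rw [mp_id, mp_append]
    have h15 : mp (tM α) (IA g n) = IA g n := h8
    have h16 : mp (tM α) (IP g n) = IP g n := h12
    rw [h15, h16]
  have h17 : XL g n ≤ (tM α).eqLocus (MonoidHom.id _) := by
    apply gen_le
    intro r hr z hz
    have h18 : r.mp (tM α) = r.mp (MonoidHom.id _) := List.map_inj_left.1 h14 r hr
    cases r with
    | hd u v =>
      rw [Item.mp_hd, Item.mp_hd, Item.hd.injEq] at h18
      rcases hz with hz | hz
      · rw [hz]
        exact h18.1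
      · have hz' : z = v := hz
        rw [hz']
        exact h18.2
    | pt u =>
      rw [Item.mp_pt, Item.mp_pt, Item.pt.injEq] at h18
      have hz' : z = u := hz
      rw [hz']
      exact h18
  exact h17 hx

/-- The twist `a ↦ a b`. -/
theorem twist_a (ha : φ (aL g n) = 1) (hb : φ (bL g n) = 1) : ∃ N : Module.End ℂ (Coh φ),
      (∃ σ : Stab φ, mon φ σ = 1 + N) ∧ N * N = 0 ∧ (∀ y, N * inn φ y = inn φ y * N) ∧
      ∀ f, (∀ x ∈ Xs n (Fin.last g), φ x = 1 → (N f).1 x = 0) ∧ Kl (N f) (bL g n) ∧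
        ∀ y, (N f).1 (y * aL g n * y⁻¹) = f.1 (y * bL g n * y⁻¹) := by
  have h0 : Mv (B0 (g + 1) n) (IA g n ++ hd (aL g n * bL g n ^ (1 : ℤ)) (bL g n) :: IP g n) := by
    rw [B0_eq]
    exact (Mv.twist (aL g n) (bL g n) 1 (IP g n)).app_left _
  obtain ⟨α, hR, hc, h1, h2, h3⟩ := exists_last h0
  rw [zpow_one] at h1
  have hφα : ∀ x, φ (α x) = φ x := by
    intro x
    let E : Subgroup (F (g + 1) n) := (φ.comp (tM α)).eqLocus φ
    have h4 : x ∈ E := by
      apply mem_of_Xs (i := Fin.last g)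
      · rw [← XL_eq]
        intro z hz
        show φ (α z) = φ z
        rw [h3 z hz]
      · show φ (α (aL g n)) = φ (aL g n)
        rw [h1, map_mul, hb, mul_one]
      · show φ (α (bL g n)) = φ (bL g n)
        rw [h2]
    exact h4
  obtain ⟨σ, hσ⟩ := exists_stab α hR hc hφα
  set m : Module.End ℂ (Coh φ) := mon φ σ - 1 with hm
  have hmv : ∀ f x, (m f).1 x = f.1 (α x) - f.1 x := by
    intro f x
    rw [← hσ]
    rfl
  have hm1 : ∀ f, ∀ x ∈ Xs n (Fin.last g), φ x = 1 → (m f).1 x = 0 := by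
    intro f x hx hx1
    rw [hmv, h3 x (by rwa [XL_eq]), sub_self]
  have hm2 : ∀ f, Kl (m f) (bL g n) := by
    intro f y
    rw [hmv, map_mul, map_mul, map_inv, h2, coh_conj_eq f hb (hφα y), sub_self]
  have hm3 : ∀ f y, (m f).1 (y * aL g n * y⁻¹) = f.1 (y * bL g n * y⁻¹) := by
    intro f y
    have hab : φ (aL g n * bL g n) = 1 := by rw [map_mul, ha, hb, one_mul]
    rw [hmv, map_mul, map_mul, map_inv, h1, coh_conj_eq f hab (hφα y)]
    have h4 : y * (aL g n * bL g n) * y⁻¹ = (y * aL g n * y⁻¹) * (y * bL g n * y⁻¹) := by group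
    rw [h4, coh_mul f (by simp [ha]) (by simp [hb])]
    ring
  refine ⟨m, ⟨σ, by rw [hm]; abel⟩, ?_, ?_, fun f => ⟨hm1 f, hm2 f, hm3 f⟩⟩
  · apply LinearMap.ext
    intro f
    refine detect ha hb (hm1 (m f)) ?_ (hm2 (m f))
    intro y
    exact (hm3 (m f) y).trans (hm2 f y)
  · intro y
    exact alg4 (mon φ σ) (inn φ y) (mon_inn σ y)

/-- The twist `b ↦ b a`. -/
theorem twist_b (ha : φ (aL g n) = 1) (hb : φ (bL g n) = 1) : ∃ N : Module.End ℂ (Coh φ),
      (∃ σ : Stab φ, mon φ σ = 1 + N) ∧ N * N = 0 ∧ (∀ y, N * inn φ y = inn φ y * N) ∧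
      ∀ f, (∀ x ∈ Xs n (Fin.last g), φ x = 1 → (N f).1 x = 0) ∧ Kl (N f) (aL g n) ∧
        ∀ y, (N f).1 (y * bL g n * y⁻¹) = f.1 (y * aL g n * y⁻¹) := by
  have h0 : Mv (B0 (g + 1) n) (IA g n ++ hd (aL g n) (bL g n * aL g n) :: IP g n) := by
    rw [B0_eq]
    have h1 := Mv.rot (aL g n) (bL g n) (IP g n)
    have h2 := Mv.twist (aL g n * bL g n * (aL g n)⁻¹) (aL g n)⁻¹ (-1) (IP g n)
    have h3 := Mv.rotInv (aL g n * bL g n * (aL g n)⁻¹ * (aL g n)⁻¹ ^ (-1 : ℤ)) (aL g n)⁻¹ (IP g n)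
    have e1 : (aL g n)⁻¹⁻¹ = aL g n := inv_inv _
    have e2 : (aL g n)⁻¹ * (aL g n * bL g n * (aL g n)⁻¹ * (aL g n)⁻¹ ^ (-1 : ℤ)) * (aL g n)⁻¹⁻¹ = bL g n * aL g n := by
      group
    rw [e2, e1] at h3
    exact (h1.trans (h2.trans h3)).app_left _
  obtain ⟨α, hR, hc, h1, h2, h3⟩ := exists_last h0
  have hφα : ∀ x, φ (α x) = φ x := by
    intro x
    let E : Subgroup (F (g + 1) n) := (φ.comp (tM α)).eqLocus φ
    have h4 : x ∈ E := by
      apply mem_of_Xs (i := Fin.last g)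
      · rw [← XL_eq]
        intro z hz
        show φ (α z) = φ z
        rw [h3 z hz]
      · show φ (α (aL g n)) = φ (aL g n)
        rw [h1]
      · show φ (α (bL g n)) = φ (bL g n)
        rw [h2, map_mul, ha, mul_one]
    exact h4
  obtain ⟨σ, hσ⟩ := exists_stab α hR hc hφα
  set m : Module.End ℂ (Coh φ) := mon φ σ - 1 with hm
  have hmv : ∀ f x, (m f).1 x = f.1 (α x) - f.1 x := by
    intro f x
    rw [← hσ]
    rfl
  have hm1 : ∀ f, ∀ x ∈ Xs n (Fin.last g), φ x = 1 → (m f).1 x = 0 := by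
    intro f x hx hx1
    rw [hmv, h3 x (by rwa [XL_eq]), sub_self]
  have hm2 : ∀ f, Kl (m f) (aL g n) := by
    intro f y
    rw [hmv, map_mul, map_mul, map_inv, h1, coh_conj_eq f ha (hφα y), sub_self]
  have hm3 : ∀ f y, (m f).1 (y * bL g n * y⁻¹) = f.1 (y * aL g n * y⁻¹) := by
    intro f y
    have hab : φ (bL g n * aL g n) = 1 := by rw [map_mul, ha, hb, one_mul]
    rw [hmv, map_mul, map_mul, map_inv, h2, coh_conj_eq f hab (hφα y)]
    have h4 : y * (bL g n * aL g n) * y⁻¹ = (y * bL g n * y⁻¹) * (y * aL g n * y⁻¹) := by group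
    rw [h4, coh_mul f (by simp [hb]) (by simp [ha])]
    ring
  refine ⟨m, ⟨σ, by rw [hm]; abel⟩, ?_, ?_, fun f => ⟨hm1 f, hm2 f, hm3 f⟩⟩
  · apply LinearMap.ext
    intro f
    refine detect ha hb (hm1 (m f)) (hm2 (m f)) ?_
    intro y
    exact (hm3 (m f) y).trans (hm2 f y)
  · intro y
    exact alg4 (mon φ σ) (inn φ y) (mon_inn σ y)

end Last

end Unip

end Pool.Agent.BM
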