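import Pool.Agent.Lib.MP_943dad_ag.BM.Defs

set_option linter.all false

/-!
# Zariski closures through polynomial functions

`E` is an algebra over the complex numbers (in the application the algebra of
endomorphisms of a finite-dimensional space).  A polynomial function on `E` is
an element of the algebra of functions generated by the linear functionals.
For a group `Gam` of units of `E` we write `InTan Gam X` when every polynomial
function that vanishes on `Gam` has derivative `0` at `1` in the direction `X`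
(that is, `X` lies in the Lie algebra of the Zariski closure of `Gam`).

* `nil_tan`   : if `N ^ 3 = 0` and a power of `u = 1 + N + N ^ 2 / 2` is in
  `Gam`, then `InTan Gam N`;
* `lie_tan`   : and then `InTan Gam X` implies `InTan Gam (N X - X N)`;
* `main_zar`  : for the image of a finite-index subgroup, a space of tangent
  vectors closed under the bracket and containing every such `N`;
* `curve_zero`: if `InTan Gam X` then every polynomial function vanishing on
  `Gam` vanishes on the one-parameter group of `X`;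
* `exp_zero`  : the same for `exp (t X)` computed in a basis;
* `exists_lie`, `exp_lie`: the final forms for the image of a finite-index subgroup.
-/

open Finset

namespace Pool.Agent.BM

section

variable {E : Type} [Ring E] [Algebra ℂ E]

/-- `X` lies in the tangent space at `1` of the Zariski closure of `Gam`. -/
def InTan (Gam : Subgroup Eˣ) (X : E) : Prop :=
  ∀ f ∈ Pol E, (∀ u ∈ Gam, f ((u : Eˣ) : E) = 0) →
    deriv (fun t : ℂ => f (1 + t • X)) 0 = 0

theorem lin_mem (l : E →ₗ[ℂ] ℂ) : (fun A => l A) ∈ Pol E :=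
  Algebra.subset_adjoin ⟨l, rfl⟩

/-- induction principle for polynomial functions -/
theorem pol_ind {P : (E → ℂ) → Prop}
    (hl : ∀ l : E →ₗ[ℂ] ℂ, P (fun A => l A))
    (hc : ∀ c : ℂ, P (fun _ => c))
    (ha : ∀ f g : E → ℂ, P f → P g → P (fun A => f A + g A))
    (hm : ∀ f g : E → ℂ, P f → P g → P (fun A => f A * g A))
    (f : E → ℂ) (hf : f ∈ Pol E) : P f := by
  induction hf using Algebra.adjoin_induction with
  | mem x hx =>
      obtain ⟨l, rfl⟩ := hx
      exact hl l
  | algebraMap r => exact hc r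
  | add x y _ _ h1 h2 => exact ha x y h1 h2
  | mul x y _ _ h1 h2 => exact hm x y h1 h2

/-- precomposition with a linear map keeps polynomial functions polynomial -/
theorem comp_mem (T : E →ₗ[ℂ] E) (f : E → ℂ) (hf : f ∈ Pol E) :
    (fun A => f (T A)) ∈ Pol E := by
  refine pol_ind (P := fun f => (fun A => f (T A)) ∈ Pol E) ?_ ?_ ?_ ?_ f hf
  · intro l
    exact lin_mem (l.comp T)
  · intro c
    exact (Pol E).algebraMap_mem c
  · intro f g h1 h2
    exact (Pol E).add_mem h1 h2
  · intro f g h1 h2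
    exact (Pol E).mul_mem h1 h2

/-- the gradient of a polynomial function at a point -/
theorem grad (A : E) (f : E → ℂ) (hf : f ∈ Pol E) :
    ∃ L : E →ₗ[ℂ] ℂ, ∀ (c : ℂ → E) (c' : E) (s : ℂ), c s = A →
      (∀ l : E →ₗ[ℂ] ℂ, HasDerivAt (fun t => l (c t)) (l c') s) →
      HasDerivAt (fun t => f (c t)) (L c') s := by
  refine pol_ind (P := fun f => ∃ L : E →ₗ[ℂ] ℂ, ∀ (c : ℂ → E) (c' : E) (s : ℂ),
      c s = A → (∀ l : E →ₗ[ℂ] ℂ, HasDerivAt (fun t => l (c t)) (l c') s) →
      HasDerivAt (fun t => f (c t)) (L c') s) ?_ ?_ ?_ ?_ f hf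
  · intro l
    exact ⟨l, fun c c' s _ h => h l⟩
  · intro a
    refine ⟨0, fun c c' s _ _ => ?_⟩
    simpa using hasDerivAt_const s a
  · rintro f g ⟨L1, h1⟩ ⟨L2, h2⟩
    refine ⟨L1 + L2, fun c c' s hs h => ?_⟩
    exact (h1 c c' s hs h).add (h2 c c' s hs h)
  · rintro f g ⟨L1, h1⟩ ⟨L2, h2⟩
    refine ⟨(g A) • L1 + (f A) • L2, fun c c' s hs h => ?_⟩
    have := (h1 c c' s hs h).mul (h2 c c' s hs h)
    rw [hs] at this
    have h3 : ((g A) • L1 + (f A) • L2) c' = L1 c' * g A + f A * L2 c' := by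
      rw [LinearMap.add_apply, LinearMap.smul_apply, LinearMap.smul_apply, smul_eq_mul,
        smul_eq_mul, mul_comm (g A)]
    rw [h3]
    exact this

theorem line_der (X : E) (l : E →ₗ[ℂ] ℂ) (A : E) :
    HasDerivAt (fun t : ℂ => l (A + t • X)) (l X) 0 := by
  have : (fun t : ℂ => l (A + t • X)) = fun t => l A + t * l X := by
    funext t
    simp
  rw [this]
  simpa using ((hasDerivAt_id (0 : ℂ)).mul_const (l X)).const_add (l A)

/-- the tangent space as a submodule -/
def tan (Gam : Subgroup Eˣ) : Submodule ℂ E where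
  carrier := {X | InTan Gam X}
  zero_mem' := by
    intro f hf hv
    have : (fun t : ℂ => f (1 + t • (0 : E))) = fun _ => f 1 := by
      funext t
      rw [smul_zero, add_zero]
    rw [this, deriv_const]
  add_mem' := by
    intro X Y hX hY f hf hv
    obtain ⟨L, hL⟩ := grad 1 f hf
    have h1 := hX f hf hv
    have h2 := hY f hf hv
    rw [(hL (fun t => 1 + t • X) X 0 (by simp) (fun l => line_der X l 1)).deriv] at h1
    rw [(hL (fun t => 1 + t • Y) Y 0 (by simp) (fun l => line_der Y l 1)).deriv] at h2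
    rw [(hL (fun t => 1 + t • (X + Y)) (X + Y) 0 (by simp)
      (fun l => line_der (X + Y) l 1)).deriv, map_add, h1, h2, add_zero]
  smul_mem' := by
    intro a X hX f hf hv
    obtain ⟨L, hL⟩ := grad 1 f hf
    have h1 := hX f hf hv
    rw [(hL (fun t => 1 + t • X) X 0 (by simp) (fun l => line_der X l 1)).deriv] at h1
    rw [(hL (fun t => 1 + t • (a • X)) (a • X) 0 (by simp)
      (fun l => line_der (a • X) l 1)).deriv, map_smul, h1, smul_zero]

theorem mem_tan (Gam : Subgroup Eˣ) (X : E) : X ∈ tan Gam ↔ InTan Gam X := Iff.rfl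

/-- tangent vectors from curves -/
theorem tan_of_curve (Gam : Subgroup Eˣ) (X : E) (c : ℂ → E) (hc : c 0 = 1)
    (hd : ∀ l : E →ₗ[ℂ] ℂ, HasDerivAt (fun t => l (c t)) (l X) 0)
    (hz : ∀ f ∈ Pol E, (∀ u ∈ Gam, f ((u : Eˣ) : E) = 0) → ∀ t, f (c t) = 0) :
    InTan Gam X := by
  intro f hf hv
  obtain ⟨L, hL⟩ := grad 1 f hf
  rw [(hL (fun t => 1 + t • X) X 0 (by simp) (fun l => line_der X l 1)).deriv]
  have h1 := (hL c X 0 hc hd).deriv
  have h2 : (fun t => f (c t)) = fun _ => (0 : ℂ) := by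
    funext t
    exact hz f hf hv t
  rw [h2] at h1
  simpa using h1.symm

/-- conjugation by an element of the group keeps the tangent space -/
theorem conj_tan (Gam : Subgroup Eˣ) (u : Eˣ) (hu : u ∈ Gam) (X : E)
    (hX : InTan Gam X) : InTan Gam ((u : E) * X * ((u⁻¹ : Eˣ) : E)) := by
  intro f hf hv
  let T : E →ₗ[ℂ] E := (LinearMap.mulRight ℂ ((u⁻¹ : Eˣ) : E)).comp
    (LinearMap.mulLeft ℂ (u : E))
  have hT : ∀ A, T A = (u : E) * A * ((u⁻¹ : Eˣ) : E) := fun A => rfl
  have h1 := hX (fun A => f (T A)) (comp_mem T f hf) (by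
    intro v hv'
    have := hv (u * v * u⁻¹) (Gam.mul_mem (Gam.mul_mem hu hv') (Gam.inv_mem hu))
    simpa [hT] using this)
  have h2 : (fun t : ℂ => f (T (1 + t • X)))
      = fun t : ℂ => f (1 + t • ((u : E) * X * ((u⁻¹ : Eˣ) : E))) := by
    funext t
    congr 1
    rw [map_add, map_smul, hT, hT]
    simp
  rw [h2] at h1
  exact h1

end

section nil

variable {E : Type} [Ring E] [Algebra ℂ E]

/-- `exp (t N)` when `N ^ 3 = 0` -/
noncomputable def ex (N : E) (t : ℂ) : E := 1 + t • N + (t ^ 2 / 2) • (N * N)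

theorem ex_zero (N : E) : ex N 0 = 1 := by simp [ex]

theorem ex_add (N : E) (hN : N * N * N = 0) (s t : ℂ) :
    ex N s * ex N t = ex N (s + t) := by
  have h3 : N * (N * N) = 0 := by rw [← mul_assoc]; exact hN
  have h4 : (N * N) * (N * N) = 0 := by rw [← mul_assoc, hN, zero_mul]
  unfold ex
  simp only [add_mul, mul_add, one_mul, mul_one, smul_mul_assoc, mul_smul_comm, h3, hN, h4,
    smul_zero, add_zero]
  module

theorem ex_pow (N : E) (hN : N * N * N = 0) (u : Eˣ) (hu : (u : E) = ex N 1) (k : ℕ) :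
    ((u ^ k : Eˣ) : E) = ex N k := by
  induction k with
  | zero => simp [ex_zero]
  | succ k ih =>
      rw [pow_succ, Units.val_mul, ih, hu, ex_add N hN]
      push_cast
      rfl

theorem ex_pow_inv (N : E) (hN : N * N * N = 0) (u : Eˣ) (hu : (u : E) = ex N 1) (k : ℕ) :
    (((u ^ k)⁻¹ : Eˣ) : E) = ex N (-k) := by
  have h1 : ((u ^ k : Eˣ) : E) * ex N (-k) = 1 := by
    rw [ex_pow N hN u hu, ex_add N hN, add_neg_cancel, ex_zero]
  calc (((u ^ k)⁻¹ : Eˣ) : E) = (((u ^ k)⁻¹ : Eˣ) : E) * (((u ^ k : Eˣ) : E) * ex N (-k)) := by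
        rw [h1, mul_one]
    _ = ex N (-k) := by
        rw [← mul_assoc, Units.inv_mul, one_mul]

theorem ex_der (N : E) (l : E →ₗ[ℂ] ℂ) : HasDerivAt (fun t => l (ex N t)) (l N) 0 := by
  have h : (fun t : ℂ => l (ex N t)) = fun t : ℂ => l 1 + t * l N + t ^ 2 / 2 * l (N * N) := by
    funext t
    simp [ex]
  rw [h]
  have h1 : HasDerivAt (fun t : ℂ => l 1 + t * l N + t ^ 2 / 2 * l (N * N))
      (1 * l N + (2 * (0 : ℂ) ^ (2 - 1) * 1 / 2) * l (N * N)) 0 := by
    exact (((hasDerivAt_id (0 : ℂ)).mul_const (l N)).const_add (l 1)).add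
      ((((hasDerivAt_id (0 : ℂ)).pow 2).div_const 2).mul_const (l (N * N)))
  simpa using h1

/-- along `exp (t N)` every polynomial function is a polynomial in `t` -/
theorem ex_poly (N : E) (f : E → ℂ) (hf : f ∈ Pol E) :
    ∃ P : Polynomial ℂ, ∀ t, f (ex N t) = P.eval t := by
  refine pol_ind (P := fun f => ∃ P : Polynomial ℂ, ∀ t, f (ex N t) = P.eval t)
    ?_ ?_ ?_ ?_ f hf
  · intro l
    refine ⟨Polynomial.C (l 1) + Polynomial.X * Polynomial.C (l N)
      + Polynomial.X ^ 2 * Polynomial.C (l (N * N) / 2), fun t => ?_⟩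
    simp [ex]
    ring
  · intro c
    exact ⟨Polynomial.C c, fun t => by simp⟩
  · rintro f g ⟨P, hP⟩ ⟨Q, hQ⟩
    exact ⟨P + Q, fun t => by simp [hP, hQ]⟩
  · rintro f g ⟨P, hP⟩ ⟨Q, hQ⟩
    exact ⟨P * Q, fun t => by simp [hP, hQ]⟩

theorem inf_mult (k : ℕ) (hk : 0 < k) : (Set.range (fun m : ℕ => ((k * m : ℕ) : ℂ))).Infinite := by
  apply Set.infinite_range_of_injective
  intro a b hab
  have h1 : k * a = k * b := Nat.cast_injective (R := ℂ) hab
  exact Nat.eq_of_mul_eq_mul_left hk h1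

theorem poly_zero (P : Polynomial ℂ) (k : ℕ) (hk : 0 < k)
    (h : ∀ m : ℕ, P.eval ((k * m : ℕ) : ℂ) = 0) : P = 0 := by
  apply Polynomial.eq_zero_of_infinite_isRoot
  refine (inf_mult k hk).mono ?_
  rintro x ⟨m, rfl⟩
  exact h m

theorem coeff_zero (a0 a1 a2 a3 a4 : ℂ) (k : ℕ) (hk : 0 < k)
    (h : ∀ m : ℕ, a0 + ((k * m : ℕ) : ℂ) * a1 + ((k * m : ℕ) : ℂ) ^ 2 * a2
      + ((k * m : ℕ) : ℂ) ^ 3 * a3 + ((k * m : ℕ) : ℂ) ^ 4 * a4 = 0) : a1 = 0 := by
  let P : Polynomial ℂ := Polynomial.C a0 + Polynomial.X * Polynomial.C a1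
    + Polynomial.X ^ 2 * Polynomial.C a2 + Polynomial.X ^ 3 * Polynomial.C a3
    + Polynomial.X ^ 4 * Polynomial.C a4
  have hP : P = 0 := by
    apply poly_zero P k hk
    intro m
    have := h m
    simp only [P, Polynomial.eval_add, Polynomial.eval_mul, Polynomial.eval_C,
      Polynomial.eval_X, Polynomial.eval_pow]
    exact this
  have hc : P.coeff 1 = a1 := by
    simp [P, Polynomial.coeff_C, Polynomial.coeff_X_pow]
  rw [hP, Polynomial.coeff_zero] at hc
  exact hc.symm

/-- a unipotent element one power of which lies in `Gam` gives a tangent vector -/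
theorem nil_tan (Gam : Subgroup Eˣ) (N : E) (hN : N * N * N = 0) (u : Eˣ)
    (hu : (u : E) = ex N 1) (k : ℕ) (hk : 0 < k) (huk : u ^ k ∈ Gam) : InTan Gam N := by
  refine tan_of_curve Gam N (ex N) (ex_zero N) (fun l => ex_der N l) ?_
  intro f hf hv t
  obtain ⟨P, hP⟩ := ex_poly N f hf
  have : P = 0 := by
    apply poly_zero P k hk
    intro m
    rw [← hP, ← ex_pow N hN u hu, pow_mul]
    exact hv _ (Gam.pow_mem huk m)
  rw [hP, this, Polynomial.eval_zero]

/-- and then the tangent space is stable under the bracket with `N` -/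
theorem lie_tan (Gam : Subgroup Eˣ) (N : E) (hN : N * N * N = 0) (u : Eˣ)
    (hu : (u : E) = ex N 1) (k : ℕ) (hk : 0 < k) (huk : u ^ k ∈ Gam) (X : E)
    (hX : InTan Gam X) : InTan Gam (N * X - X * N) := by
  by_contra hcon
  have hcon' : N * X - X * N ∉ tan Gam := hcon
  obtain ⟨l, hl1, hl2⟩ := Submodule.exists_le_ker_of_notMem hcon'
  have hev : ∀ t : ℂ, l (ex N t * X * ex N (-t)) = l X + t * l (N * X - X * N)
      + t ^ 2 * (l ((N * N) * X) / 2 - l (N * X * N) + l (X * (N * N)) / 2)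
      + t ^ 3 * (l (N * X * (N * N)) / 2 - l ((N * N) * X * N) / 2)
      + t ^ 4 * (l ((N * N) * X * (N * N)) / 4) := by
    intro t
    have h1 : ex N t * X * ex N (-t) = X + t • (N * X - X * N)
      + (t ^ 2 / 2) • ((N * N) * X) - t ^ 2 • (N * X * N) + (t ^ 2 / 2) • (X * (N * N))
      + (t ^ 3 / 2) • (N * X * (N * N)) - (t ^ 3 / 2) • ((N * N) * X * N)
      + (t ^ 4 / 4) • ((N * N) * X * (N * N)) := by
      unfold ex
      simp only [add_mul, mul_add, one_mul, mul_one, smul_mul_assoc, mul_smul_comm]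
      module
    rw [h1]
    simp only [map_add, map_sub, map_smul, smul_eq_mul]
    ring
  apply hl1
  refine coeff_zero (l X) (l (N * X - X * N))
    (l ((N * N) * X) / 2 - l (N * X * N) + l (X * (N * N)) / 2)
    (l (N * X * (N * N)) / 2 - l ((N * N) * X * N) / 2)
    (l ((N * N) * X * (N * N)) / 4) k hk (fun m => ?_)
  rw [← hev, ← ex_pow N hN u hu, ← ex_pow_inv N hN u hu, pow_mul]
  exact hl2 (conj_tan Gam _ (Gam.pow_mem huk m) X hX)

/-- The tangent vectors whose bracket keeps the tangent space: a linear space of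
tangent vectors closed under the bracket. -/
def core (Gam : Subgroup Eˣ) : Submodule ℂ E where
  carrier := {Y | InTan Gam Y ∧ ∀ Z, InTan Gam Z → InTan Gam (Y * Z - Z * Y)}
  zero_mem' := by
    refine ⟨(tan Gam).zero_mem, fun Z hZ => ?_⟩
    rw [zero_mul, mul_zero, sub_zero]
    exact (tan Gam).zero_mem
  add_mem' := by
    intro a b ha hb
    refine ⟨(tan Gam).add_mem ha.1 hb.1, fun Z hZ => ?_⟩
    have h : (a + b) * Z - Z * (a + b) = (a * Z - Z * a) + (b * Z - Z * b) := by
      noncomm_ring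
    rw [h]
    exact (tan Gam).add_mem (ha.2 Z hZ) (hb.2 Z hZ)
  smul_mem' := by
    intro a b hb
    refine ⟨(tan Gam).smul_mem a hb.1, fun Z hZ => ?_⟩
    have h : (a • b) * Z - Z * (a • b) = a • (b * Z - Z * b) := by
      rw [smul_mul_assoc, mul_smul_comm, smul_sub]
    rw [h]
    exact (tan Gam).smul_mem a (hb.2 Z hZ)

theorem core_lie (Gam : Subgroup Eˣ) (X Y : E) (hX : X ∈ core Gam) (hY : Y ∈ core Gam) :
    X * Y - Y * X ∈ core Gam := by
  refine ⟨hX.2 Y hY.1, fun Z hZ => ?_⟩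
  have h : (X * Y - Y * X) * Z - Z * (X * Y - Y * X)
      = (X * (Y * Z - Z * Y) - (Y * Z - Z * Y) * X)
        - (Y * (X * Z - Z * X) - (X * Z - Z * X) * Y) := by
    noncomm_ring
  rw [h]
  exact (tan Gam).sub_mem (hX.2 _ (hY.2 Z hZ)) (hY.2 _ (hX.2 Z hZ))

theorem nil_core (Gam : Subgroup Eˣ) (N : E) (hN : N * N * N = 0) (u : Eˣ)
    (hu : (u : E) = ex N 1) (k : ℕ) (hk : 0 < k) (huk : u ^ k ∈ Gam) : N ∈ core Gam :=
  ⟨nil_tan Gam N hN u hu k hk huk, fun Z hZ => lie_tan Gam N hN u hu k hk huk Z hZ⟩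

/-- Summary for the image of a finite-index subgroup `K` of a group `G`: there is
a space `L` of tangent vectors, closed under the bracket, which contains every `N`
with `N ^ 3 = 0` whose exponential is the image of an element of `G`. -/
theorem main_zar {G : Type*} [Group G] (rho : G →* Eˣ) (K : Subgroup G) [K.FiniteIndex] :
    ∃ L : Submodule ℂ E, (∀ X ∈ L, InTan (K.map rho) X) ∧
      (∀ X ∈ L, ∀ Y ∈ L, X * Y - Y * X ∈ L) ∧
      (∀ N : E, N * N * N = 0 → (∃ g : G, ((rho g : Eˣ) : E) = ex N 1) → N ∈ L) := by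
  refine ⟨core (K.map rho), fun X hX => hX.1, fun X hX Y hY => core_lie _ X Y hX hY, ?_⟩
  rintro N hN ⟨g, hg⟩
  obtain ⟨k, hk, -, hgk⟩ := Subgroup.exists_pow_mem_of_index_ne_zero
    (Subgroup.FiniteIndex.index_ne_zero (H := K)) g
  exact nil_core (K.map rho) N hN (rho g) hg k hk ⟨g ^ k, hgk, by rw [map_pow]⟩

end nil

section curve

variable {E : Type} [Ring E] [Algebra ℂ E]

/-- the derivative along the left-invariant field `A ↦ A X` -/
theorem field_der (X : E) (f : E → ℂ) (hf : f ∈ Pol E) :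
    ∃ f' ∈ Pol E, ∀ (A : E) (c : ℂ → E) (s : ℂ), c s = A →
      (∀ l : E →ₗ[ℂ] ℂ, HasDerivAt (fun t => l (c t)) (l (A * X)) s) →
      HasDerivAt (fun t => f (c t)) (f' A) s := by
  refine (pol_ind (P := fun f => f ∈ Pol E ∧ ∃ f' ∈ Pol E, ∀ (A : E) (c : ℂ → E) (s : ℂ),
      c s = A → (∀ l : E →ₗ[ℂ] ℂ, HasDerivAt (fun t => l (c t)) (l (A * X)) s) →
      HasDerivAt (fun t => f (c t)) (f' A) s) ?_ ?_ ?_ ?_ f hf).2
  · intro l
    refine ⟨lin_mem l, _, lin_mem (l.comp (LinearMap.mulRight ℂ X)), ?_⟩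
    intro A c s hs h
    exact h l
  · intro a
    refine ⟨(Pol E).algebraMap_mem a, _, (Pol E).zero_mem, ?_⟩
    intro A c s hs h
    exact hasDerivAt_const s a
  · rintro f g ⟨hf, f', hf', h1⟩ ⟨hg, g', hg', h2⟩
    refine ⟨(Pol E).add_mem hf hg, _, (Pol E).add_mem hf' hg', ?_⟩
    intro A c s hs h
    exact (h1 A c s hs h).add (h2 A c s hs h)
  · rintro f g ⟨hf, f', hf', h1⟩ ⟨hg, g', hg', h2⟩
    refine ⟨(Pol E).mul_mem hf hg, _, (Pol E).add_mem ((Pol E).mul_mem hf' hg)
      ((Pol E).mul_mem hf hg'), ?_⟩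
    intro A c s hs h
    have := (h1 A c s hs h).mul (h2 A c s hs h)
    rw [hs] at this
    exact this

/-- the field derivative of a polynomial function vanishing on `Gam` vanishes on `Gam` -/
theorem field_van (Gam : Subgroup Eˣ) (X : E) (hX : InTan Gam X) (f : E → ℂ)
    (hf : f ∈ Pol E) (hv : ∀ u ∈ Gam, f ((u : Eˣ) : E) = 0) (f' : E → ℂ)
    (hf' : ∀ (A : E) (c : ℂ → E) (s : ℂ), c s = A →
      (∀ l : E →ₗ[ℂ] ℂ, HasDerivAt (fun t => l (c t)) (l (A * X)) s) →
      HasDerivAt (fun t => f (c t)) (f' A) s) :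
    ∀ u ∈ Gam, f' ((u : Eˣ) : E) = 0 := by
  intro u hu
  have h1 := hf' (u : E) (fun t => (u : E) + t • ((u : E) * X)) 0 (by simp)
    (fun l => line_der ((u : E) * X) l (u : E))
  have h2 := hX (fun A => f (LinearMap.mulLeft ℂ (u : E) A))
    (comp_mem (LinearMap.mulLeft ℂ (u : E)) f hf) (by
      intro v hv'
      have := hv (u * v) (Gam.mul_mem hu hv')
      simpa using this)
  have h3 : (fun t : ℂ => f (LinearMap.mulLeft ℂ (u : E) (1 + t • X)))
      = fun t : ℂ => f ((u : E) + t • ((u : E) * X)) := by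
    funext t
    congr 1
    simp [mul_add]
  rw [h3, h1.deriv] at h2
  exact h2

/-- Every polynomial function vanishing on `Gam` vanishes on the one-parameter
group with generator a tangent vector of `Gam`. -/
theorem curve_zero (Gam : Subgroup Eˣ) (X : E) (hX : InTan Gam X) (c : ℂ → E) (hc : c 0 = 1)
    (hd : ∀ (s : ℂ) (l : E →ₗ[ℂ] ℂ), HasDerivAt (fun t => l (c t)) (l (c s * X)) s)
    (f : E → ℂ) (hf : f ∈ Pol E) (hv : ∀ u ∈ Gam, f ((u : Eˣ) : E) = 0) (t : ℂ) :
    f (c t) = 0 := by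
  -- all iterated derivatives vanish at 0
  have key : ∀ n : ℕ, ∀ f : E → ℂ, f ∈ Pol E → (∀ u ∈ Gam, f ((u : Eˣ) : E) = 0) →
      iteratedDeriv n (fun t => f (c t)) 0 = 0 := by
    intro n
    induction n with
    | zero =>
        intro f hf hv
        rw [iteratedDeriv_zero, hc]
        exact hv 1 Gam.one_mem
    | succ n ih =>
        intro f hf hv
        obtain ⟨f', hf', h⟩ := field_der X f hf
        have h1 : deriv (fun t => f (c t)) = fun t => f' (c t) := by
          funext s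
          exact (h (c s) c s rfl (hd s)).deriv
        rw [iteratedDeriv_succ', h1]
        exact ih f' hf' (field_van Gam X hX f hf hv f' h)
  have hdiff : Differentiable ℂ (fun t => f (c t)) := by
    obtain ⟨f', hf', h⟩ := field_der X f hf
    intro s
    exact (h (c s) c s rfl (hd s)).differentiableAt
  have h := Complex.taylorSeries_eq_of_entire hdiff 0 t
  rw [← h]
  have : (fun n : ℕ => ((n.factorial : ℂ))⁻¹ • (t - 0) ^ n •
      iteratedDeriv n (fun t => f (c t)) 0) = fun _ => 0 := by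
    funext n
    rw [key n f hf hv]
    simp
  rw [this, tsum_zero]

end curve

section expo

variable {n : Type} [Fintype n] [DecidableEq n]

theorem mat_der (X : Matrix n n ℂ) (l : Matrix n n ℂ →ₗ[ℂ] ℂ) (s : ℂ) :
    HasDerivAt (fun t : ℂ => l (NormedSpace.exp (t • X)))
      (l (NormedSpace.exp (s • X) * X)) s := by
  let _ : NormedRing (Matrix n n ℂ) := Matrix.linftyOpNormedRing
  let _ : NormedAlgebra ℂ (Matrix n n ℂ) := Matrix.linftyOpNormedAlgebra
  have h1 : HasDerivAt (fun t : ℂ => NormedSpace.exp (t • X))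
      (NormedSpace.exp (s • X) * X) s := hasDerivAt_exp_smul_const X s
  have h2 : HasFDerivAt (fun A : Matrix n n ℂ => l A) (LinearMap.toContinuousLinearMap l)
      (NormedSpace.exp (s • X)) := (LinearMap.toContinuousLinearMap l).hasFDerivAt
  exact h2.comp_hasDerivAt s h1

variable {V : Type} [AddCommGroup V] [Module ℂ V]

/-- Every polynomial function on the endomorphisms of `V` that vanishes on `Gam`
vanishes at `exp (t X)`, the exponential being computed in a basis. -/
theorem exp_zero (b : Module.Basis n ℂ V) (Gam : Subgroup (Module.End ℂ V)ˣ)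
    (X : Module.End ℂ V) (hX : InTan Gam X) (f : Module.End ℂ V → ℂ)
    (hf : f ∈ Pol (Module.End ℂ V))
    (hv : ∀ u ∈ Gam, f ((u : (Module.End ℂ V)ˣ) : Module.End ℂ V) = 0) (t : ℂ) :
    f (Matrix.toLin b b (NormedSpace.exp (t • LinearMap.toMatrix b b X))) = 0 := by
  refine curve_zero Gam X hX
    (fun t => Matrix.toLin b b (NormedSpace.exp (t • LinearMap.toMatrix b b X))) ?_ ?_ f hf hv t
  · simp only [zero_smul, NormedSpace.exp_zero]
    exact Matrix.toLin_one b
  · intro s l
    have h := mat_der (LinearMap.toMatrix b b X) (l.comp (Matrix.toLin b b).toLinearMap) s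
    have h2 : Matrix.toLin b b (NormedSpace.exp (s • LinearMap.toMatrix b b X)
        * LinearMap.toMatrix b b X)
        = Matrix.toLin b b (NormedSpace.exp (s • LinearMap.toMatrix b b X)) * X := by
      rw [Matrix.toLin_mul b b b, Matrix.toLin_toMatrix]
      rfl
    have h3 : (l.comp (Matrix.toLin b b).toLinearMap) (NormedSpace.exp
        (s • LinearMap.toMatrix b b X) * LinearMap.toMatrix b b X)
        = l (Matrix.toLin b b (NormedSpace.exp (s • LinearMap.toMatrix b b X)) * X) := by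
      rw [← h2]
      rfl
    rw [h3] at h
    exact h

end expo

section final

variable {E : Type} [Ring E] [Algebra ℂ E] {Γ : Type} [Group Γ]

theorem van_iff (rho : Γ →* E) (K : Subgroup Γ) (f : E → ℂ) :
    (∀ u ∈ K.map rho.toHomUnits, f ((u : Eˣ) : E) = 0) ↔
      ∀ x ∈ (fun γ => rho γ) '' (K : Set Γ), f x = 0 := by
  constructor
  · rintro h _ ⟨γ, hγ, rfl⟩
    have := h (rho.toHomUnits γ) ⟨γ, hγ, rfl⟩
    rwa [MonoidHom.coe_toHomUnits] at this
  · rintro h _ ⟨γ, hγ, rfl⟩
    rw [MonoidHom.coe_toHomUnits]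
    exact h _ ⟨γ, hγ, rfl⟩

theorem inLie_iff (rho : Γ →* E) (K : Subgroup Γ) (X : E) :
    InLie ((fun γ => rho γ) '' (K : Set Γ)) X ↔ InTan (K.map rho.toHomUnits) X := by
  constructor
  · intro h f hf hv
    exact h f hf ((van_iff rho K f).1 hv)
  · intro h f hf hv
    exact h f hf ((van_iff rho K f).2 hv)

/-- For a finite-index subgroup `K` of `Γ` there is a space `L` of elements of the
Lie algebra of the Zariski closure of the image of `K`, closed under commutators,
which contains every `N` with `N ^ 3 = 0` such that `1 + N + N ^ 2 / 2` is in the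
image of `Γ`. -/
theorem exists_lie (rho : Γ →* E) (K : Subgroup Γ) [K.FiniteIndex] :
    ∃ L : Submodule ℂ E, (∀ X ∈ L, InLie ((fun γ => rho γ) '' (K : Set Γ)) X) ∧
      (∀ X ∈ L, ∀ Y ∈ L, X * Y - Y * X ∈ L) ∧
      ∀ N : E, N * N * N = 0 → (∃ γ : Γ, rho γ = 1 + N + (1 / 2 : ℂ) • (N * N)) → N ∈ L := by
  obtain ⟨L, h1, h2, h3⟩ := main_zar rho.toHomUnits K
  refine ⟨L, fun X hX => (inLie_iff rho K X).2 (h1 X hX), h2, ?_⟩
  rintro N hN ⟨γ, hγ⟩
  refine h3 N hN ⟨γ, ?_⟩
  rw [MonoidHom.coe_toHomUnits, hγ, ex]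
  simp

variable {V : Type} [AddCommGroup V] [Module ℂ V] {n : Type} [Fintype n] [DecidableEq n]

/-- Every polynomial function which vanishes on the image of `K` vanishes at the
exponential (computed in a basis) of every element of the Lie algebra. -/
theorem exp_lie (rho : Γ →* Module.End ℂ V) (K : Subgroup Γ) (b : Module.Basis n ℂ V)
    (X : Module.End ℂ V) (hX : InLie ((fun γ => rho γ) '' (K : Set Γ)) X)
    (f : Module.End ℂ V → ℂ) (hf : f ∈ Pol (Module.End ℂ V))
    (hv : ∀ γ ∈ K, f (rho γ) = 0) :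
    f (Matrix.toLin b b (NormedSpace.exp (LinearMap.toMatrix b b X))) = 0 := by
  have h := exp_zero b (K.map rho.toHomUnits) X ((inLie_iff rho K X).1 hX) f hf
    ((van_iff rho K f).2 (by
      rintro _ ⟨γ, hγ, rfl⟩
      exact hv γ hγ)) 1
  rwa [one_smul] at h

end final

end Pool.Agent.BM
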