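import Pool.Agent.Lib.MP_943dad_ag.BM.AlgE
import Pool.Agent.Lib.MP_943dad_ag.BM.Zar
import Pool.Agent.Lib.MP_943dad_ag.BM.Gen
import Pool.Agent.Lib.MP_943dad_ag.BM.Fth
import Pool.Agent.Lib.MP_943dad_ag.BM.Unip

set_option linter.all false

/-!
# Big monodromy for a cover which is trivial on one handle
-/

open Finset

namespace Pool.Agent.BM

open Pool.Agent.HMv Pool.Agent.Lib.MP_943dad_ag

variable {H : Type} [Group H] {g n : ℕ} {φ : F g n →* H}

private theorem Big_inn_mul (y z : F g n) : inn φ (y * z) = inn φ y * inn φ z := by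
  refine LinearMap.ext fun f => Subtype.ext (funext fun x => ?_)
  rw [Module.End.mul_apply, inn_apply, inn_apply, inn_apply]
  congr 1
  group

private theorem Big_inn_congr {y z : F g n} (h : φ y = φ z) : inn φ y = inn φ z := by
  refine LinearMap.ext fun f => Subtype.ext (funext fun x => ?_)
  rw [inn_apply, inn_apply]
  by_cases hx : φ x = 1
  · have h1 := coh_conj' f y⁻¹ z⁻¹ x (by rw [map_inv, map_inv, h]) hx
    rwa [inv_inv, inv_inv] at h1
  · have h1 : ∀ w : F g n, φ (w⁻¹ * x * w) ≠ 1 := by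
      intro w hw
      apply hx
      rw [map_mul, map_mul, map_inv] at hw
      have h2 : φ x = φ w * ((φ w)⁻¹ * φ x * φ w) * (φ w)⁻¹ := by group
      rw [h2, hw]
      group
    rw [f.2.1 _ (h1 y), f.2.1 _ (h1 z)]

private theorem Big_exists_rho (hφ : Function.Surjective φ) :
    ∃ ρ : H →* Module.End ℂ (Coh φ), ∀ y, ρ (φ y) = inn φ y := by
  obtain ⟨s, hs⟩ := hφ.hasRightInverse
  refine ⟨{ toFun := fun h => inn φ (s h)
            map_one' := ?_
            map_mul' := fun h k => ?_ }, fun y => ?_⟩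
  · rw [Big_inn_congr (z := 1) (by rw [hs, map_one])]
    refine LinearMap.ext fun f => Subtype.ext (funext fun x => ?_)
    rw [inn_apply, Module.End.one_apply]
    simp
  · rw [← Big_inn_mul]
    exact Big_inn_congr (by rw [hs, map_mul, hs, hs])
  · exact Big_inn_congr (hs _)

private theorem Big_mon_inn (α : Stab φ) (y : F g n) : mon φ α * inn φ y = inn φ y * mon φ α := by
  refine LinearMap.ext fun f => Subtype.ext (funext fun x => ?_)
  rw [Module.End.mul_apply, Module.End.mul_apply, mon_apply, inn_apply, inn_apply, mon_apply]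
  have h1 := (α⁻¹ : Stab φ).2.2.2
  have h2 : inn φ y f = inn φ ((α⁻¹ : Stab φ).1 y) f := by rw [Big_inn_congr (h1 y).symm]
  have h3 := congrArg (fun f : Coh φ => f.1 ((α⁻¹ : Stab φ).1 x)) h2
  simp only [inn_apply] at h3
  rw [h3, map_mul, map_mul, map_inv]

variable [Fintype H]

/-- Big monodromy for a cover which is trivial on the handle `i`, with the pushes, the twists and the faithfulness as
hypotheses. -/
theorem big_of (hφ : Function.Surjective φ) (hR : φ (R g n) = 1) {i : Fin g} (ha : φ (a n i) = 1)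
    (hb : φ (b n i) = 1)
    (hpush : ∀ w ∈ Xs n i, φ w = 1 → ∃ N : Module.End ℂ (Coh φ), N * N * N = 0 ∧
      (∃ α : Stab φ, mon φ α = 1 + N + (1 / 2 : ℂ) • (N * N)) ∧
      (∀ f x, (N f).1 (x * b n i * x⁻¹) = 0) ∧
      ∀ f : Coh φ, (∀ x, f.1 (x * b n i * x⁻¹) = 0) → (∀ x ∈ Xs n i, φ x = 1 → (N f).1 x = 0) ∧
        ∀ y, (N f).1 (y * a n i * y⁻¹) = f.1 (y * w * y⁻¹))
    (htwa : ∃ N : Module.End ℂ (Coh φ), ∃ ε : ℂ, ε ≠ 0 ∧ N * N * N = 0 ∧
      (∃ α : Stab φ, mon φ α = 1 + N + (1 / 2 : ℂ) • (N * N)) ∧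
      ∀ f, (∀ x, (N f).1 (x * a n i * x⁻¹) = ε * f.1 (x * b n i * x⁻¹)) ∧
        (∀ x, (N f).1 (x * b n i * x⁻¹) = 0) ∧ ∀ x ∈ Xs n i, φ x = 1 → (N f).1 x = 0)
    (htwb : ∃ N : Module.End ℂ (Coh φ), ∃ ε : ℂ, ε ≠ 0 ∧ N * N * N = 0 ∧
      (∃ α : Stab φ, mon φ α = 1 + N + (1 / 2 : ℂ) • (N * N)) ∧
      ∀ f, (∀ x, (N f).1 (x * b n i * x⁻¹) = ε * f.1 (x * a n i * x⁻¹)) ∧
        (∀ x, (N f).1 (x * a n i * x⁻¹) = 0) ∧ ∀ x ∈ Xs n i, φ x = 1 → (N f).1 x = 0)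
    (hfth : ∀ (s : H → F g n), (∀ h, φ (s h) = h) → ∀ c : H → ℂ, (∀ f : Coh φ,
      (∀ x, f.1 (x * a n i * x⁻¹) = 0) → (∀ x, f.1 (x * b n i * x⁻¹) = 0) →
        ∑ h, c h • inn φ (s h) f = 0) → c = 0)
    {ω : LinearMap.BilinForm ℂ (Coh φ)} (halt : ∀ f, ω f f = 0) (hnd : ∀ f, (∀ f', ω f f' = 0) → f = 0)
    (hinn : ∀ y f f', ω (inn φ y f) (inn φ y f') = ω f f')
    (hmon : ∀ α f f', ω (mon φ α f) (mon φ α f') = ω f f')
    (Δ : Subgroup (Stab φ)) (hΔ : Δ.FiniteIndex) {X Y : Module.End ℂ (Coh φ)} (hX : IsZ φ ω X)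
    (hY : IsZ φ ω Y) : InLie (mon φ '' (Δ : Set (Stab φ))) (X * Y - Y * X) := by
  classical
  haveI := hΔ
  haveI : FiniteDimensional ℂ (Coh φ) := finite_coh φ
  obtain ⟨ρ, hρ⟩ := Big_exists_rho hφ
  obtain ⟨s, hs⟩ := hφ.hasRightInverse
  have hρs : ∀ h, ρ h = inn φ (s h) := fun h => by rw [← hρ, hs]
  have hS : BMo.Sym ρ ω := ⟨halt, hnd, fun h u v => by rw [hρs]; exact hinn _ _ _⟩
  have hz : ∀ X, IsZ φ ω X → X ∈ BMo.zz ρ ω := fun X hX =>
    ⟨fun h => by rw [hρs]; exact hX.1 _, hX.2⟩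
  obtain ⟨L, hL1, hL2, hL3⟩ := exists_lie (E := Module.End ℂ (Coh φ)) ⟨⟨mon φ, mon_one φ⟩, mon_mul φ⟩ Δ
  -- the logarithms are in `zz`
  have hlog : ∀ N : Module.End ℂ (Coh φ), N * N * N = 0 →
      (∃ α : Stab φ, mon φ α = 1 + N + (1 / 2 : ℂ) • (N * N)) → N ∈ BMo.zz ρ ω := by
    rintro N hN ⟨α, hα⟩
    obtain ⟨u, hu⟩ : ∃ u, u = mon φ α := ⟨_, rfl⟩
    have h4 : N * N * (N * N) = 0 := by rw [← mul_assoc, hN, zero_mul]
    have hN' : N * (N * N) = 0 := by rw [← mul_assoc, hN]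
    have e1 : u - 1 = N + (1 / 2 : ℂ) • (N * N) := by rw [hu, hα]; abel
    have e2 : (u - 1) * (u - 1) = N * N := by
      rw [e1]
      simp only [add_mul, mul_add, smul_mul_assoc, mul_smul_comm, hN, hN', h4, smul_zero, add_zero]
    have h1 := BMo.log_zz hS u (fun h => by rw [hρs, hu]; exact Big_mon_inn α _)
      (fun x y => by rw [hu]; exact hmon α x y) (by rw [e2, e1, mul_add, mul_smul_comm, hN, h4, smul_zero, add_zero])
    have e3 : (u - 1) - (1 / 2 : ℂ) • ((u - 1) * (u - 1)) = N := by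
      rw [e2, e1]
      abel
    rwa [e3] at h1
  -- values of the translates
  have val : ∀ (h : H) (f : Coh φ) (x y : F g n), φ y = h → φ x = 1 → (ρ h f).1 x = f.1 (y⁻¹ * x * y) := by
    intro h f x y hy hx
    rw [← hy, hρ, inn_apply]
  obtain ⟨p, hpa, hpb, hpX⟩ := exists_dual hR ha hb (Pi.single 1 1) 0
  obtain ⟨q, hqa, hqb, hqX⟩ := exists_dual hR ha hb 0 (Pi.single 1 1)
  obtain ⟨α, hα⟩ : ∃ α : Coh φ →ₗ[ℂ] ℂ, ∀ f, α f = f.1 (a n i) :=
    ⟨{ toFun := fun f => f.1 (a n i), map_add' := fun f f' => rfl, map_smul' := fun t f => rfl }, fun f => rfl⟩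
  obtain ⟨β, hβ⟩ : ∃ β : Coh φ →ₗ[ℂ] ℂ, ∀ f, β f = f.1 (b n i) :=
    ⟨{ toFun := fun f => f.1 (b n i), map_add' := fun f f' => rfl, map_smul' := fun t f => rfl }, fun f => rfl⟩
  have αρ : ∀ x f, α (ρ (φ x)⁻¹ f) = f.1 (x * a n i * x⁻¹) := by
    intro x f
    rw [hα, ← map_inv, hρ, inn_apply, inv_inv]
  have βρ : ∀ x f, β (ρ (φ x)⁻¹ f) = f.1 (x * b n i * x⁻¹) := by
    intro x f
    rw [hβ, ← map_inv, hρ, inn_apply, inv_inv]
  have αρ' : ∀ h f, α (ρ h f) = f.1 ((s h)⁻¹ * a n i * s h) := by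
    intro h f
    have := αρ (s h)⁻¹ f
    rwa [map_inv φ, inv_inv, hs, inv_inv] at this
  have βρ' : ∀ h f, β (ρ h f) = f.1 ((s h)⁻¹ * b n i * s h) := by
    intro h f
    have := βρ (s h)⁻¹ f
    rwa [map_inv φ, inv_inv, hs, inv_inv] at this
  have Wa : ∀ f, (∀ h, α (ρ h f) = 0) → ∀ x, f.1 (x * a n i * x⁻¹) = 0 := fun f hf x => by rw [← αρ, hf]
  have Wb : ∀ f, (∀ h, β (ρ h f) = 0) → ∀ x, f.1 (x * b n i * x⁻¹) = 0 := fun f hf x => by rw [← βρ, hf]
  -- a class is determined by its values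
  have ext : ∀ f f' : Coh φ, (∀ x ∈ Xs n i, φ x = 1 → f.1 x = f'.1 x) →
      (∀ x, f.1 (x * a n i * x⁻¹) = f'.1 (x * a n i * x⁻¹)) →
      (∀ x, f.1 (x * b n i * x⁻¹) = f'.1 (x * b n i * x⁻¹)) → f = f' := by
    intro f f' h0 h1 h2
    rw [← sub_eq_zero]
    refine coh_eq_zero ha hb _ (fun x hx hx' => ?_) (fun x => ?_) (fun x => ?_)
    · change f.1 x - f'.1 x = 0
      rw [h0 x hx hx', sub_self]
    · change f.1 _ - f'.1 _ = 0
      rw [h1, sub_self]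
    · change f.1 _ - f'.1 _ = 0
      rw [h2, sub_self]
  -- values of combinations of translates
  have cval : ∀ (c : H → ℂ) (r : Coh φ) (x : F g n), φ x = 1 →
      (∑ h, c h • ρ h r).1 x = ∑ h, c h * r.1 ((s h)⁻¹ * x * s h) := by
    intro c r x hx
    have h1 : (∑ h, c h • ρ h r).1 x = ∑ h, (c h • ρ h r).1 x := by
      rw [Submodule.coe_sum, Finset.sum_apply]
    rw [h1]
    refine sum_congr rfl fun h _ => ?_
    change c h * (ρ h r).1 x = _
    rw [val h r x (s h) (hs h) hx]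
  -- a sum of translates of `p`
  have psum : ∀ (c : H → ℂ) (f : Coh φ), (∀ x ∈ Xs n i, φ x = 1 → f.1 x = 0) →
      (∀ x, f.1 (x * b n i * x⁻¹) = 0) → (∀ x, f.1 (x * a n i * x⁻¹) = c (φ x)) → f = ∑ h, c h • ρ h p := by
    intro c f h0 h1 h2
    refine ext _ _ (fun x hx hx' => ?_) (fun x => ?_) (fun x => ?_)
    · rw [h0 x hx hx', cval c p x hx']
      symm
      refine sum_eq_zero fun h _ => ?_
      have h3 := hpX (s h)⁻¹ x hx hx'
      rw [inv_inv] at h3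
      rw [h3, mul_zero]
    · rw [h2, cval c p _ (by rw [map_mul, map_mul, ha, map_inv, mul_one, mul_inv_cancel]), sum_eq_single (φ x)]
      · have h3 := hpa ((s (φ x))⁻¹ * x)
        have h4 : (s (φ x))⁻¹ * (x * a n i * x⁻¹) * s (φ x) = (s (φ x))⁻¹ * x * a n i * ((s (φ x))⁻¹ * x)⁻¹ := by group
        rw [h4, h3, map_mul, map_inv, hs, inv_mul_cancel, inv_one, Pi.single_eq_same, mul_one]
      · intro h _ hh
        have h3 := hpa ((s h)⁻¹ * x)
        have h4 : (s h)⁻¹ * (x * a n i * x⁻¹) * s h = (s h)⁻¹ * x * a n i * ((s h)⁻¹ * x)⁻¹ := by group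
        rw [h4, h3, map_mul, map_inv, hs, Pi.single_eq_of_ne, mul_zero]
        intro h5
        exact hh (inv_mul_eq_one.1 (inv_eq_one.1 h5))
      · exact fun h => absurd (mem_univ _) h
    · rw [h1, cval c p _ (by rw [map_mul, map_mul, hb, map_inv, mul_one, mul_inv_cancel])]
      symm
      refine sum_eq_zero fun h _ => ?_
      have h3 := hpb ((s h)⁻¹ * x)
      have h4 : (s h)⁻¹ * (x * b n i * x⁻¹) * s h = (s h)⁻¹ * x * b n i * ((s h)⁻¹ * x)⁻¹ := by group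
      rw [h4, h3]
      simp
  have qsum : ∀ (c : H → ℂ) (f : Coh φ), (∀ x ∈ Xs n i, φ x = 1 → f.1 x = 0) →
      (∀ x, f.1 (x * a n i * x⁻¹) = 0) → (∀ x, f.1 (x * b n i * x⁻¹) = c (φ x)) → f = ∑ h, c h • ρ h q := by
    intro c f h0 h1 h2
    refine ext _ _ (fun x hx hx' => ?_) (fun x => ?_) (fun x => ?_)
    · rw [h0 x hx hx', cval c q x hx']
      symm
      refine sum_eq_zero fun h _ => ?_
      have h3 := hqX (s h)⁻¹ x hx hx'
      rw [inv_inv] at h3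
      rw [h3, mul_zero]
    · rw [h1, cval c q _ (by rw [map_mul, map_mul, ha, map_inv, mul_one, mul_inv_cancel])]
      symm
      refine sum_eq_zero fun h _ => ?_
      have h3 := hqa ((s h)⁻¹ * x)
      have h4 : (s h)⁻¹ * (x * a n i * x⁻¹) * s h = (s h)⁻¹ * x * a n i * ((s h)⁻¹ * x)⁻¹ := by group
      rw [h4, h3]
      simp
    · rw [h2, cval c q _ (by rw [map_mul, map_mul, hb, map_inv, mul_one, mul_inv_cancel]), sum_eq_single (φ x)]
      · have h3 := hqb ((s (φ x))⁻¹ * x)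
        have h4 : (s (φ x))⁻¹ * (x * b n i * x⁻¹) * s (φ x) = (s (φ x))⁻¹ * x * b n i * ((s (φ x))⁻¹ * x)⁻¹ := by group
        rw [h4, h3, map_mul, map_inv, hs, inv_mul_cancel, inv_one, Pi.single_eq_same, mul_one]
      · intro h _ hh
        have h3 := hqb ((s h)⁻¹ * x)
        have h4 : (s h)⁻¹ * (x * b n i * x⁻¹) * s h = (s h)⁻¹ * x * b n i * ((s h)⁻¹ * x)⁻¹ := by group
        rw [h4, h3, map_mul, map_inv, hs, Pi.single_eq_of_ne, mul_zero]
        intro h5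
        exact hh (inv_mul_eq_one.1 (inv_eq_one.1 h5))
      · exact fun h => absurd (mem_univ _) h
  -- the twists
  obtain ⟨N0, ε, hε, hN03, hN0m, hN0⟩ := htwa
  obtain ⟨M0, δ, hδ, hM03, hM0m, hM0⟩ := htwb
  have hN0z := hlog N0 hN03 hN0m
  have hM0z := hlog M0 hM03 hM0m
  have hM0L : M0 ∈ L := hL3 M0 hM03 hM0m
  have coef : ∀ (f : Coh φ) (x : F g n), β (ρ (φ x)⁻¹ f) = f.1 (x * b n i * x⁻¹) := fun f x => βρ x f
  refine hL1 _ (BMo.alg_main hS (p := p) (q := q) (α := α) (β := β) ?_ ?_ ?_ ?_ ?_ ?_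
    (N := ε⁻¹ • N0) (M := δ⁻¹ • M0) (Submodule.smul_mem _ _ hN0z) (Submodule.smul_mem _ _ hM0z) ?_ ?_ ?_ hL2
    (Submodule.smul_mem _ _ hM0L) ?_ X (hz X hX) Y (hz Y hY))
  · have h1 := hpa 1
    rwa [one_mul, inv_one, mul_one, map_one, inv_one, Pi.single_eq_same, ← hα] at h1
  · intro h hh
    have h1 := αρ (s h)⁻¹ p
    rw [map_inv φ, inv_inv, hs] at h1
    rw [h1, hpa, map_inv φ, inv_inv, hs, Pi.single_eq_of_ne hh]
  · intro h
    have h1 := αρ (s h)⁻¹ q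
    rw [map_inv φ, inv_inv, hs] at h1
    rw [h1, hqa, Pi.zero_apply]
  · have h1 := hqb 1
    rwa [one_mul, inv_one, mul_one, map_one, inv_one, Pi.single_eq_same, ← hβ] at h1
  · intro h hh
    have h1 := βρ (s h)⁻¹ q
    rw [map_inv φ, inv_inv, hs] at h1
    rw [h1, hqb, map_inv φ, inv_inv, hs, Pi.single_eq_of_ne hh]
  · intro h
    have h1 := βρ (s h)⁻¹ p
    rw [map_inv φ, inv_inv, hs] at h1
    rw [h1, hpb, Pi.zero_apply]
  · intro f
    refine psum (fun h => β (ρ h⁻¹ f)) _ (fun x hx hx' => ?_) (fun x => ?_) (fun x => ?_)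
    · change ε⁻¹ * (N0 f).1 x = 0
      rw [(hN0 f).2.2 x hx hx', mul_zero]
    · change ε⁻¹ * (N0 f).1 _ = 0
      rw [(hN0 f).2.1, mul_zero]
    · change ε⁻¹ * (N0 f).1 _ = _
      rw [(hN0 f).1, coef, inv_mul_cancel_left₀ hε]
  · intro f
    refine qsum (fun h => α (ρ h⁻¹ f)) _ (fun x hx hx' => ?_) (fun x => ?_) (fun x => ?_)
    · change δ⁻¹ * (M0 f).1 x = 0
      rw [(hM0 f).2.2 x hx hx', mul_zero]
    · change δ⁻¹ * (M0 f).1 _ = 0
      rw [(hM0 f).2.1, mul_zero]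
    · change δ⁻¹ * (M0 f).1 _ = _
      rw [(hM0 f).1, αρ, inv_mul_cancel_left₀ hδ]
  · intro c hc
    refine hfth s hs c fun f hfa hfb => ?_
    have h1 := hc f (fun h => by
      rw [αρ']
      have := hfa (s h)⁻¹
      rwa [inv_inv] at this) (fun h => by
      rw [βρ']
      have := hfb (s h)⁻¹
      rwa [inv_inv] at this)
    rw [← h1]
    exact sum_congr rfl fun h _ => by rw [hρs]
  · intro f hfa hfb hall
    refine coh_eq_zero ha hb f (fun w hw hw' => ?_) (Wa f hfa) (Wb f hfb)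
    obtain ⟨N, hN3, hNm, hNb, hN⟩ := hpush w hw hw'
    have h1 := hall N (hL3 N hN3 hNm) (hlog N hN3 hNm) ?_ ?_
    · have h2 := (hN f (Wb f hfb)).2 1
      simp only [one_mul, inv_one, mul_one] at h2
      rw [← hα, h1] at h2
      exact h2.symm
    · have h2 := hN p (fun x => by rw [hpb, Pi.zero_apply])
      refine coh_eq_zero ha hb _ h2.1 (fun x => ?_) (fun x => hNb _ x)
      rw [h2.2, hpX x w hw hw']
    · intro v hv
      have h2 := hN v (Wb v hv)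
      have h3 := psum (fun h => α (ρ h⁻¹ (N v))) (N v) h2.1 (fun x => hNb _ x) (fun x => by rw [αρ])
      rw [h3]
      exact Submodule.sum_mem _ fun h _ => Submodule.smul_mem _ _ (Submodule.subset_span ⟨h, rfl⟩)

/-- **Big monodromy for a cover which is trivial on the last handle**, for every invariant symplectic form. -/
theorem big {φ : F (g + 1) n →* H} (hφ : Function.Surjective φ) (hR : φ (R (g + 1) n) = 1) (hg : 3 ≤ g + 1)
    (ha : φ (a n (Fin.last g)) = 1) (hb : φ (b n (Fin.last g)) = 1)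
    {ω : LinearMap.BilinForm ℂ (Coh φ)} (halt : ∀ f, ω f f = 0) (hnd : ∀ f, (∀ f', ω f f' = 0) → f = 0)
    (hinn : ∀ y f f', ω (inn φ y f) (inn φ y f') = ω f f')
    (hmon : ∀ α f f', ω (mon φ α f) (mon φ α f') = ω f f')
    (Δ : Subgroup (Stab φ)) (hΔ : Δ.FiniteIndex) {X Y : Module.End ℂ (Coh φ)} (hX : IsZ φ ω X)
    (hY : IsZ φ ω Y) : InLie (mon φ '' (Δ : Set (Stab φ))) (X * Y - Y * X) := by
  refine big_of hφ hR ha hb (fun w hw hw' => ?_) ?_ ?_ (fun s hs c hc => faithful hφ hR hg ha hb s hs c hc)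
    halt hnd hinn hmon Δ hΔ hX hY
  · obtain ⟨N, h1, h2, -, h4, h5⟩ := Unip.push_mon (φ := φ) ha hb hw hw'
    exact ⟨N, h2, h1, fun f x => h4 f x, fun f hf => h5 f hf⟩
  · obtain ⟨N, ⟨σ, hσ⟩, h2, -, h4⟩ := Unip.twist_a (φ := φ) ha hb
    refine ⟨N, 1, one_ne_zero, by rw [h2, zero_mul], ⟨σ, by rw [hσ, h2, smul_zero, add_zero]⟩, fun f => ?_⟩
    obtain ⟨k1, k2, k3⟩ := h4 f
    exact ⟨fun x => by rw [one_mul]; exact k3 x, fun x => k2 x, k1⟩
  · obtain ⟨N, ⟨σ, hσ⟩, h2, -, h4⟩ := Unip.twist_b (φ := φ) ha hb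
    refine ⟨N, 1, one_ne_zero, by rw [h2, zero_mul], ⟨σ, by rw [hσ, h2, smul_zero, add_zero]⟩, fun f => ?_⟩
    obtain ⟨k1, k2, k3⟩ := h4 f
    exact ⟨fun x => by rw [one_mul]; exact k3 x, fun x => k2 x, k1⟩

end Pool.Agent.BM
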