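import Pool.Agent.Lib.MP_943dad_ag.BM.CupF
import Pool.Agent.Lib.MP_943dad_ag.BM.Unip

set_option linter.all false

/-!
# The cup product for a cover which is trivial on the last handle is non-degenerate
-/

namespace Pool.Agent.BM

open Pool.Agent.HMv

variable {H : Type} [Group H] [Fintype H] {g n : ℕ} {φ : F (g + 1) n →* H}

/-- The cup product is non-degenerate if the last handle is trivial. -/
theorem cup_nd (hs : Function.Surjective φ) (hR : φ (R (g + 1) n) = 1) (ha : φ (a n (Fin.last g)) = 1)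
    (hb : φ (b n (Fin.last g)) = 1) {ω : LinearMap.BilinForm ℂ (Coh φ)} (hω : IsCup φ ω) (f : Coh φ)
    (hf : ∀ f', ω f f' = 0) : f = 0 := by
  refine nondeg (cup_lam hs hR hω) (cup_mon hs hR hω) hs hR ha hb (fun w hw hw1 => ?_) hf
  obtain ⟨N, hσ, hN3, _, _, h1⟩ := Unip.push_mon ha hb hw hw1
  exact ⟨N, hN3, hσ, fun f hf => (h1 f hf).2⟩

/-- The cup product of a cover which is trivial on the last handle: it exists, it is alternating, non-degenerate and
invariant under the deck group and under the mapping classes. -/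
theorem exists_cup_nd (hs : Function.Surjective φ) (hR : φ (R (g + 1) n) = 1) (ha : φ (a n (Fin.last g)) = 1)
    (hb : φ (b n (Fin.last g)) = 1) : ∃ ω : LinearMap.BilinForm ℂ (Coh φ), IsCup φ ω ∧ (∀ f, ω f f = 0) ∧
      (∀ f, (∀ f', ω f f' = 0) → f = 0) ∧ (∀ y f f', ω (inn φ y f) (inn φ y f') = ω f f') ∧
      ∀ α f f', ω (mon φ α f) (mon φ α f') = ω f f' := by
  obtain ⟨ω, hω⟩ := exists_cup hs hR
  exact ⟨ω, hω, cup_alt hs hR hω, cup_nd hs hR ha hb hω, cup_inn hs hR hω, cup_mon hs hR hω⟩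

end Pool.Agent.BM
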