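import Pool.Agent.Lib.MP_943dad_ag.BM.Defs

set_option linter.all false

/-!
Transport along an automorphism `t` of `F g n` which fixes `R` and maps each `c_j` to a conjugate.
-/

namespace Pool.Agent.BM

open Pool.Agent.HMv

namespace Tp

variable {H : Type} [Group H] {g n : ℕ}

/-- The automorphism `t` fixes `R` and maps each `c_j` to a conjugate, and `ψ = φ t`. -/
structure Tr (φ ψ : F g n →* H) (t : MulAut (F g n)) : Prop where
  R_eq : t (R g n) = R g n
  c_conj : ∀ j : Fin n, IsConj (t (c g j)) (c g j)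
  eq : ∀ x, ψ x = φ (t x)

theorem Tr.symm {φ ψ : F g n →* H} {t : MulAut (F g n)} (T : Tr φ ψ t) : Tr ψ φ t⁻¹ where
  R_eq := by
    have h := congrArg (t⁻¹ : MulAut (F g n)) T.R_eq
    rw [MulAut.inv_apply_self] at h
    exact h.symm
  c_conj := fun j => by
    have h := (MonoidHom.map_isConj (MulEquiv.toMonoidHom (t⁻¹ : MulAut (F g n))) (T.c_conj j)).symm
    have h1 : MulEquiv.toMonoidHom (t⁻¹ : MulAut (F g n)) (t (c g j)) = c g j := MulAut.inv_apply_self _ t _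
    rw [h1] at h
    exact h
  eq := fun x => by
    rw [T.eq, MulAut.apply_inv_self]

theorem Tr.conj {φ ψ : F g n →* H} {t : MulAut (F g n)} (T : Tr φ ψ t) (x : F g n) (j : Fin n) (k : ℕ) :
    ∃ y, t (x * c g j ^ k * x⁻¹) = y * c g j ^ k * y⁻¹ := by
  obtain ⟨d, hd⟩ := isConj_iff.1 (T.c_conj j).symm
  refine ⟨t x * d, ?_⟩
  simp only [map_mul, map_inv, map_pow]
  rw [← hd, ← conj_pow]
  have h6 : t x * d * c g j ^ k * (t x * d)⁻¹ = t x * (d * c g j ^ k * d⁻¹) * (t x)⁻¹ := by group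
  rw [h6, conj_pow, conj_pow]

theorem Tr.pow {φ ψ : F g n →* H} {t : MulAut (F g n)} (T : Tr φ ψ t) {j : Fin n} {k : ℕ}
    (h : ψ (c g j) ^ k = 1) : φ (c g j) ^ k = 1 := by
  obtain ⟨y, hy⟩ := T.symm.conj 1 j k
  have h1 : t⁻¹ (c g j ^ k) = y * c g j ^ k * y⁻¹ := by
    rw [← hy]
    simp
  rw [← map_pow, T.symm.eq, h1, map_mul, map_mul, map_pow, h, map_inv]
  simp

theorem Tr.mem {φ ψ : F g n →* H} {t : MulAut (F g n)} (T : Tr φ ψ t) {f : F g n → ℂ} (hf : f ∈ Coh φ) :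
    (fun x => f (t x)) ∈ Coh ψ := by
  obtain ⟨h1, h2, h3, h4⟩ := hf
  refine ⟨fun x hx => ?_, fun x y hx hy => ?_, fun x => ?_, fun x j k hk => ?_⟩
  · apply h1
    rwa [← T.eq]
  · change f (t (x * y)) = f (t x) + f (t y)
    rw [map_mul]
    exact h2 _ _ (by rw [← T.eq, hx]) (by rw [← T.eq, hy])
  · change f (t (x * R g n * x⁻¹)) = 0
    rw [map_mul, map_mul, map_inv, T.R_eq]
    exact h3 _
  · obtain ⟨y, hy⟩ := T.conj x j k
    change f (t (x * c g j ^ k * x⁻¹)) = 0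
    rw [hy]
    exact h4 y j k (T.pow hk)

/-- The isomorphism of the cohomologies. -/
def eqv {φ ψ : F g n →* H} {t : MulAut (F g n)} (T : Tr φ ψ t) : Coh φ ≃ₗ[ℂ] Coh ψ where
  toFun f := ⟨fun x => f.1 (t x), T.mem f.2⟩
  invFun f := ⟨fun x => f.1 (t⁻¹ x), T.symm.mem f.2⟩
  map_add' _ _ := rfl
  map_smul' _ _ := rfl
  left_inv f := by
    apply Subtype.ext
    funext x
    exact congrArg f.1 (MulAut.apply_inv_self _ t x)
  right_inv f := by
    apply Subtype.ext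
    funext x
    exact congrArg f.1 (MulAut.inv_apply_self _ t x)

theorem eqv_apply {φ ψ : F g n →* H} {t : MulAut (F g n)} (T : Tr φ ψ t) (f : Coh φ) (x : F g n) :
    (eqv T f).1 x = f.1 (t x) := rfl

theorem eqv_symm_apply {φ ψ : F g n →* H} {t : MulAut (F g n)} (T : Tr φ ψ t) (f : Coh ψ) (x : F g n) :
    ((eqv T).symm f).1 x = f.1 (t⁻¹ x) := rfl

theorem prim_comp {φ ψ : F g n →* H} {t : MulAut (F g n)} (T : Tr φ ψ t) {f f' : Coh φ} {h h' : Coh ψ}
    (hf : ∀ x, h.1 x = f.1 (t x)) (hf' : ∀ x, h'.1 x = f'.1 (t x)) {Φ : F g n → ℂ} (hΦ : IsPrim φ f f' Φ) :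
    IsPrim ψ h h' (fun x => Φ (t x)) := by
  obtain ⟨h1, h2⟩ := hΦ
  refine ⟨fun x y hx hy => ?_, fun x j k hk => ?_⟩
  · change Φ (t (x * y)) = Φ (t x) + Φ (t y) + h.1 x * h'.1 y
    rw [map_mul, hf, hf']
    exact h1 _ _ (by rw [← T.eq, hx]) (by rw [← T.eq, hy])
  · obtain ⟨y, hy⟩ := T.conj x j k
    change Φ (t (x * c g j ^ k * x⁻¹)) = 0
    rw [hy]
    exact h2 y j k (T.pow hk)

theorem cup_comp [Fintype H] {φ ψ : F g n →* H} {t : MulAut (F g n)} (T : Tr φ ψ t)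
    {ω : LinearMap.BilinForm ℂ (Coh φ)} (hω : IsCup φ ω) :
    IsCup ψ (ω.compl₁₂ (eqv T).symm.toLinearMap (eqv T).symm.toLinearMap) := by
  intro f f'
  obtain ⟨⟨Φ, hΦ⟩, h⟩ := hω ((eqv T).symm f) ((eqv T).symm f')
  constructor
  · refine ⟨fun x => Φ (t x), prim_comp T (fun x => ?_) (fun x => ?_) hΦ⟩
    · rw [eqv_symm_apply, MulAut.inv_apply_self]
    · rw [eqv_symm_apply, MulAut.inv_apply_self]
  · intro Φ' hΦ' s hs
    have h1 := h (fun x => Φ' (t⁻¹ x)) (prim_comp T.symm (fun x => rfl) (fun x => rfl) hΦ') (fun h => t (s h))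
      (fun h => by rw [← T.eq, hs])
    have h2 : (ω.compl₁₂ (eqv T).symm.toLinearMap (eqv T).symm.toLinearMap) f f' =
        ω ((eqv T).symm f) ((eqv T).symm f') := rfl
    rw [h2, h1]
    apply Finset.sum_congr rfl
    intro k _
    have h3 : t⁻¹ (t (s k) * R g n * (t (s k))⁻¹) = s k * R g n * (s k)⁻¹ := by
      rw [map_mul, map_mul, map_inv, MulAut.inv_apply_self, T.symm.R_eq]
    rw [h3]

/-- The isomorphism of the stabilisers. -/
def stab {φ ψ : F g n →* H} {t : MulAut (F g n)} (T : Tr φ ψ t) : Stab φ ≃* Stab ψ where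
  toFun α := ⟨t⁻¹ * α.1 * t, by
    obtain ⟨h1, h2, h3⟩ := α.2
    refine ⟨?_, fun j => ?_, fun x => ?_⟩
    · rw [MulAut.mul_apply, MulAut.mul_apply, T.R_eq, h1, T.symm.R_eq]
    · rw [MulAut.mul_apply, MulAut.mul_apply]
      have k1 := (MonoidHom.map_isConj (MulEquiv.toMonoidHom (t⁻¹ * α.1 : MulAut (F g n))) (T.c_conj j))
      have k2 := (MonoidHom.map_isConj (MulEquiv.toMonoidHom (t⁻¹ : MulAut (F g n))) (h2 j))
      exact (k1.trans k2).trans (T.symm.c_conj j)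
    · rw [MulAut.mul_apply, MulAut.mul_apply, T.eq, MulAut.apply_inv_self, h3, T.eq]⟩
  invFun α := ⟨t * α.1 * t⁻¹, by
    obtain ⟨h1, h2, h3⟩ := α.2
    refine ⟨?_, fun j => ?_, fun x => ?_⟩
    · rw [MulAut.mul_apply, MulAut.mul_apply, T.symm.R_eq, h1, T.R_eq]
    · rw [MulAut.mul_apply, MulAut.mul_apply]
      have k1 := (MonoidHom.map_isConj (MulEquiv.toMonoidHom (t * α.1 : MulAut (F g n))) (T.symm.c_conj j))
      have k2 := (MonoidHom.map_isConj (MulEquiv.toMonoidHom t) (h2 j))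
      exact (k1.trans k2).trans (T.c_conj j)
    · rw [MulAut.mul_apply, MulAut.mul_apply, ← T.eq, h3, T.eq, MulAut.apply_inv_self]⟩
  left_inv α := by
    apply Subtype.ext
    change t * (t⁻¹ * α.1 * t) * t⁻¹ = α.1
    group
  right_inv α := by
    apply Subtype.ext
    change t⁻¹ * (t * α.1 * t⁻¹) * t = α.1
    group
  map_mul' α β := by
    apply Subtype.ext
    change t⁻¹ * (α.1 * β.1) * t = (t⁻¹ * α.1 * t) * (t⁻¹ * β.1 * t)
    group

theorem stab_val {φ ψ : F g n →* H} {t : MulAut (F g n)} (T : Tr φ ψ t) (α : Stab φ) :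
    (stab T α).1 = t⁻¹ * α.1 * t := rfl

theorem inn_comp {φ ψ : F g n →* H} {t : MulAut (F g n)} (T : Tr φ ψ t) (y : F g n) (f : Coh φ) :
    eqv T (inn φ (t y) f) = inn ψ y (eqv T f) := by
  apply Subtype.ext
  funext x
  rw [eqv_apply, inn_apply, inn_apply, eqv_apply, map_mul, map_mul, map_inv]

theorem mon_comp {φ ψ : F g n →* H} {t : MulAut (F g n)} (T : Tr φ ψ t) (α : Stab φ) (f : Coh φ) :
    eqv T (mon φ α f) = mon ψ (stab T α) (eqv T f) := by
  apply Subtype.ext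
  funext x
  rw [eqv_apply, mon_apply, mon_apply, eqv_apply]
  congr 1
  rw [← map_inv, stab_val, MulAut.mul_apply, MulAut.mul_apply, MulAut.apply_inv_self]

/-- The isomorphism of the endomorphism algebras. -/
noncomputable def alg {φ ψ : F g n →* H} {t : MulAut (F g n)} (T : Tr φ ψ t) :
    Module.End ℂ (Coh φ) ≃ₐ[ℂ] Module.End ℂ (Coh ψ) := LinearEquiv.conjAlgEquiv ℂ (eqv T)

theorem alg_apply {φ ψ : F g n →* H} {t : MulAut (F g n)} (T : Tr φ ψ t) (X : Module.End ℂ (Coh φ)) (f : Coh φ) :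
    alg T X (eqv T f) = eqv T (X f) := by
  change eqv T (X ((eqv T).symm (eqv T f))) = eqv T (X f)
  rw [LinearEquiv.symm_apply_apply]

theorem alg_mon {φ ψ : F g n →* H} {t : MulAut (F g n)} (T : Tr φ ψ t) (α : Stab φ) :
    alg T (mon φ α) = mon ψ (stab T α) := by
  apply LinearMap.ext
  intro f
  obtain ⟨f, rfl⟩ := (eqv T).surjective f
  rw [alg_apply, mon_comp]

theorem alg_inn {φ ψ : F g n →* H} {t : MulAut (F g n)} (T : Tr φ ψ t) (y : F g n) :
    alg T (inn φ (t y)) = inn ψ y := by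
  apply LinearMap.ext
  intro f
  obtain ⟨f, rfl⟩ := (eqv T).surjective f
  rw [alg_apply, inn_comp]

/-- Transport of `InLie` along an isomorphism of algebras. -/
theorem inLie_map {A B : Type} [Ring A] [Algebra ℂ A] [Ring B] [Algebra ℂ B] (Ψ : A ≃ₐ[ℂ] B) {G : Set A} {X : A}
    (h : InLie (Ψ '' G) (Ψ X)) : InLie G X := by
  intro P hP hv
  have hmem : (fun y => P (Ψ.symm y)) ∈ Pol B := by
    clear hv
    induction hP using Algebra.adjoin_induction with
    | mem x hx =>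
      obtain ⟨l, rfl⟩ := hx
      exact Algebra.subset_adjoin ⟨l.comp Ψ.symm.toLinearMap, rfl⟩
    | algebraMap r => exact (Pol B).algebraMap_mem r
    | add x y _ _ h1 h2 => exact (Pol B).add_mem h1 h2
    | mul x y _ _ h1 h2 => exact (Pol B).mul_mem h1 h2
  have h1 := h (fun y => P (Ψ.symm y)) hmem (by
    rintro _ ⟨x, hx, rfl⟩
    rw [AlgEquiv.symm_apply_apply]
    exact hv x hx)
  have h2 : (fun t : ℂ => P (Ψ.symm (1 + t • Ψ X))) = fun t : ℂ => P (1 + t • X) := by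
    funext t
    rw [map_add, map_one, map_smul, AlgEquiv.symm_apply_apply]
  rwa [h2] at h1

theorem alg_comm {A B : Type} [Ring A] [Algebra ℂ A] [Ring B] [Algebra ℂ B] (Ψ : A ≃ₐ[ℂ] B) (X Y : A) :
    Ψ (X * Y - Y * X) = Ψ X * Ψ Y - Ψ Y * Ψ X := by
  rw [map_sub, map_mul, map_mul]

theorem isZ_comp {φ ψ : F g n →* H} {t : MulAut (F g n)} (T : Tr φ ψ t)
    {ω : LinearMap.BilinForm ℂ (Coh φ)} {X : Module.End ℂ (Coh φ)} (hX : IsZ φ ω X) :
    IsZ ψ (ω.compl₁₂ (eqv T).symm.toLinearMap (eqv T).symm.toLinearMap) (alg T X) := by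
  obtain ⟨h1, h2⟩ := hX
  constructor
  · intro y
    rw [← alg_inn T, ← map_mul, ← map_mul, h1]
  · intro f f'
    obtain ⟨f, rfl⟩ := (eqv T).surjective f
    obtain ⟨f', rfl⟩ := (eqv T).surjective f'
    rw [alg_apply, alg_apply]
    change ω ((eqv T).symm (eqv T (X f))) ((eqv T).symm (eqv T f')) +
      ω ((eqv T).symm (eqv T f)) ((eqv T).symm (eqv T (X f'))) = 0
    simp only [LinearEquiv.symm_apply_apply]
    exact h2 f f'

/-- The properties of the form: alternating, nondegenerate, invariant under deck transformations and mapping classes. -/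
structure Good (φ : F g n →* H) (ω : LinearMap.BilinForm ℂ (Coh φ)) : Prop where
  alt : ∀ f, ω f f = 0
  nd : ∀ f, (∀ f', ω f f' = 0) → f = 0
  inn : ∀ y f f', ω (inn φ y f) (inn φ y f') = ω f f'
  mon : ∀ α f f', ω (mon φ α f) (mon φ α f') = ω f f'

theorem good_comp {φ ψ : F g n →* H} {t : MulAut (F g n)} (T : Tr φ ψ t)
    {ω : LinearMap.BilinForm ℂ (Coh φ)} (h : Good φ ω) :
    Good ψ (ω.compl₁₂ (eqv T).symm.toLinearMap (eqv T).symm.toLinearMap) := by
  have hv : ∀ f f', (ω.compl₁₂ (eqv T).symm.toLinearMap (eqv T).symm.toLinearMap) (eqv T f) (eqv T f') = ω f f' := by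
    intro f f'
    change ω ((eqv T).symm (eqv T f)) ((eqv T).symm (eqv T f')) = ω f f'
    rw [LinearEquiv.symm_apply_apply, LinearEquiv.symm_apply_apply]
  refine ⟨fun f => ?_, fun f hf => ?_, fun y f f' => ?_, fun α f f' => ?_⟩
  · obtain ⟨f, rfl⟩ := (eqv T).surjective f
    rw [hv]
    exact h.alt f
  · obtain ⟨f, rfl⟩ := (eqv T).surjective f
    rw [h.nd f (fun f' => by rw [← hv]; exact hf _), map_zero]
  · obtain ⟨f, rfl⟩ := (eqv T).surjective f
    obtain ⟨f', rfl⟩ := (eqv T).surjective f'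
    rw [← inn_comp, ← inn_comp, hv, hv]
    exact h.inn _ f f'
  · obtain ⟨f, rfl⟩ := (eqv T).surjective f
    obtain ⟨f', rfl⟩ := (eqv T).surjective f'
    obtain ⟨α, rfl⟩ := (stab T).surjective α
    rw [← mon_comp, ← mon_comp, hv, hv]
    exact h.mon α f f'

/-- Nondegeneracy can be checked after the transport. -/
theorem nd_of_comp {φ ψ : F g n →* H} {t : MulAut (F g n)} (T : Tr φ ψ t)
    {ω : LinearMap.BilinForm ℂ (Coh φ)} (h : ∀ f, (∀ f',
      (ω.compl₁₂ (eqv T).symm.toLinearMap (eqv T).symm.toLinearMap) f f' = 0) → f = 0) :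
    ∀ f, (∀ f', ω f f' = 0) → f = 0 := by
  intro f hf
  have h1 := h (eqv T f) (fun f' => by
    change ω ((eqv T).symm (eqv T f)) ((eqv T).symm f') = 0
    rw [LinearEquiv.symm_apply_apply]
    exact hf _)
  exact (LinearEquiv.map_eq_zero_iff _).1 h1

/-- The transport of the theorem. -/
theorem inLie_comp {φ ψ : F g n →* H} {t : MulAut (F g n)} (T : Tr φ ψ t) {X : Module.End ℂ (Coh φ)}
    (Δ : Subgroup (Stab φ)) (h : InLie (mon ψ '' ((Δ.map (stab T).toMonoidHom : Subgroup (Stab ψ)) : Set (Stab ψ)))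
      (alg T X)) : InLie (mon φ '' (Δ : Set (Stab φ))) X := by
  apply inLie_map (A := Module.End ℂ (Coh φ)) (B := Module.End ℂ (Coh ψ)) (alg T)
  have h1 : alg T '' (mon φ '' (Δ : Set (Stab φ))) =
      mon ψ '' ((Δ.map (stab T).toMonoidHom : Subgroup (Stab ψ)) : Set (Stab ψ)) := by
    ext Y
    constructor
    · rintro ⟨_, ⟨α, hα, rfl⟩, rfl⟩
      exact ⟨stab T α, ⟨α, hα, rfl⟩, (alg_mon T α).symm⟩
    · rintro ⟨_, ⟨α, hα, rfl⟩, rfl⟩
      exact ⟨mon φ α, ⟨α, hα, rfl⟩, alg_mon T α⟩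
  rw [h1]
  exact h

/-- The image of a subgroup of finite index. -/
theorem finiteIndex_map {φ ψ : F g n →* H} {t : MulAut (F g n)} (T : Tr φ ψ t) (Δ : Subgroup (Stab φ))
    (h : Δ.FiniteIndex) : (Δ.map (stab T).toMonoidHom).FiniteIndex := by
  constructor
  rw [Subgroup.index_map_of_bijective (stab T).bijective]
  exact h.index_ne_zero

/-- **Transport of the theorem for all forms.** -/
theorem main_comp {φ ψ : F g n →* H} {t : MulAut (F g n)} (T : Tr φ ψ t)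
    (main : ∀ ω : LinearMap.BilinForm ℂ (Coh ψ), Good ψ ω → ∀ Δ : Subgroup (Stab ψ), Δ.FiniteIndex →
      ∀ X Y, IsZ ψ ω X → IsZ ψ ω Y → InLie (mon ψ '' (Δ : Set (Stab ψ))) (X * Y - Y * X))
    (ω : LinearMap.BilinForm ℂ (Coh φ)) (hω : Good φ ω) (Δ : Subgroup (Stab φ)) (hΔ : Δ.FiniteIndex)
    (X Y : Module.End ℂ (Coh φ)) (hX : IsZ φ ω X) (hY : IsZ φ ω Y) :
    InLie (mon φ '' (Δ : Set (Stab φ))) (X * Y - Y * X) := by
  apply inLie_comp T
  have h1 : alg T (X * Y - Y * X) = alg T X * alg T Y - alg T Y * alg T X := by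
    exact alg_comm (A := Module.End ℂ (Coh φ)) (B := Module.End ℂ (Coh ψ)) (alg T) X Y
  rw [h1]
  exact main _ (good_comp T hω) _ (finiteIndex_map T Δ hΔ) _ _ (isZ_comp T hX) (isZ_comp T hY)

end Tp

end Pool.Agent.BM
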