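import Pool.Agent.Lib.MP_943dad_ag.BM.AlgE
import Pool.Agent.Lib.MP_943dad_ag.BM.Zar
import Pool.Agent.Lib.MP_943dad_ag.BM.Gen
import Pool.Agent.Lib.MP_943dad_ag.BM.Fth
import Pool.Agent.Lib.MP_943dad_ag.BM.Unip
import Pool.Agent.Lib.MP_943dad_ag.BM.CupN
import Pool.Agent.Lib.MP_943dad_ag.BM.Tp

set_option linter.all false

/-!
# The theorem for an arbitrary Lie algebra which contains the logarithms

`big_L'`: if a cover is trivial on the last handle after an automorphism which is a mapping class, then every subspace `L`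
of the endomorphisms of `Coh φ` which is closed under commutators and contains the logarithms of the mapping classes
`1 + N + N² / 2` contains all commutators of endomorphisms in the Lie algebra of the centralizer of the deck group.
-/

open Finset

namespace Pool.Agent.BM

open Pool.Agent.HMv Pool.Agent.Lib.MP_943dad_ag

variable {H : Type} [Group H] {g n : ℕ} {φ : F g n →* H}

private theorem BigL_inn_mul (y z : F g n) : inn φ (y * z) = inn φ y * inn φ z := by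
  refine LinearMap.ext fun f => Subtype.ext (funext fun x => ?_)
  rw [Module.End.mul_apply, inn_apply, inn_apply, inn_apply]
  congr 1
  group

private theorem BigL_inn_congr {y z : F g n} (h : φ y = φ z) : inn φ y = inn φ z := by
  refine LinearMap.ext fun f => Subtype.ext (funext fun x => ?_)
  rw [inn_apply, inn_apply]
  by_cases hx : φ x = 1
  · have h1 := coh_conj' f y⁻¹ z⁻¹ x (by rw [map_inv, map_inv, h]) hx
    rwa [inv_inv, inv_inv] at h1
  · have h1 : ∀ w : F g n, φ (w⁻¹ * x * w) ≠ 1 := by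
      intro w hw
      apply hx
      rw [map_mul, map_mul, map_inv] at hw
      have h2 : φ x = φ w * ((φ w)⁻¹ * φ x * φ w) * (φ w)⁻¹ := by group
      rw [h2, hw]
      group
    rw [f.2.1 _ (h1 y), f.2.1 _ (h1 z)]

private theorem BigL_exists_rho (hφ : Function.Surjective φ) :
    ∃ ρ : H →* Module.End ℂ (Coh φ), ∀ y, ρ (φ y) = inn φ y := by
  obtain ⟨s, hs⟩ := hφ.hasRightInverse
  refine ⟨{ toFun := fun h => inn φ (s h)
            map_one' := ?_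
            map_mul' := fun h k => ?_ }, fun y => ?_⟩
  · rw [BigL_inn_congr (z := 1) (by rw [hs, map_one])]
    refine LinearMap.ext fun f => Subtype.ext (funext fun x => ?_)
    rw [inn_apply, Module.End.one_apply]
    simp
  · rw [← BigL_inn_mul]
    exact BigL_inn_congr (by rw [hs, map_mul, hs, hs])
  · exact BigL_inn_congr (hs _)

private theorem BigL_mon_inn (α : Stab φ) (y : F g n) : mon φ α * inn φ y = inn φ y * mon φ α := by
  refine LinearMap.ext fun f => Subtype.ext (funext fun x => ?_)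
  rw [Module.End.mul_apply, Module.End.mul_apply, mon_apply, inn_apply, inn_apply, mon_apply]
  have h1 := (α⁻¹ : Stab φ).2.2.2
  have h2 : inn φ y f = inn φ ((α⁻¹ : Stab φ).1 y) f := by rw [BigL_inn_congr (h1 y).symm]
  have h3 := congrArg (fun f : Coh φ => f.1 ((α⁻¹ : Stab φ).1 x)) h2
  simp only [inn_apply] at h3
  rw [h3, map_mul, map_mul, map_inv]

variable [Fintype H]

/-- The theorem for a cover which is trivial on the handle `i`, with the pushes, the twists and the faithfulness as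
hypotheses. -/
theorem big_L_of (hφ : Function.Surjective φ) (hR : φ (R g n) = 1) {i : Fin g} (ha : φ (a n i) = 1)
    (hb : φ (b n i) = 1)
    (hpush : ∀ w ∈ Xs n i, φ w = 1 → ∃ N : Module.End ℂ (Coh φ), N * N * N = 0 ∧
      (∃ α : Stab φ, mon φ α = 1 + N + (1 / 2 : ℂ) • (N * N)) ∧
      (∀ f x, (N f).1 (x * b n i * x⁻¹) = 0) ∧
      ∀ f : Coh φ, (∀ x, f.1 (x * b n i * x⁻¹) = 0) → (∀ x ∈ Xs n i, φ x = 1 → (N f).1 x = 0) ∧
        ∀ y, (N f).1 (y * a n i * y⁻¹) = f.1 (y * w * y⁻¹))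
    (htwa : ∃ N : Module.End ℂ (Coh φ), ∃ ε : ℂ, ε ≠ 0 ∧ N * N * N = 0 ∧
      (∃ α : Stab φ, mon φ α = 1 + N + (1 / 2 : ℂ) • (N * N)) ∧
      ∀ f, (∀ x, (N f).1 (x * a n i * x⁻¹) = ε * f.1 (x * b n i * x⁻¹)) ∧
        (∀ x, (N f).1 (x * b n i * x⁻¹) = 0) ∧ ∀ x ∈ Xs n i, φ x = 1 → (N f).1 x = 0)
    (htwb : ∃ N : Module.End ℂ (Coh φ), ∃ ε : ℂ, ε ≠ 0 ∧ N * N * N = 0 ∧
      (∃ α : Stab φ, mon φ α = 1 + N + (1 / 2 : ℂ) • (N * N)) ∧
      ∀ f, (∀ x, (N f).1 (x * b n i * x⁻¹) = ε * f.1 (x * a n i * x⁻¹)) ∧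
        (∀ x, (N f).1 (x * a n i * x⁻¹) = 0) ∧ ∀ x ∈ Xs n i, φ x = 1 → (N f).1 x = 0)
    (hfth : ∀ (s : H → F g n), (∀ h, φ (s h) = h) → ∀ c : H → ℂ, (∀ f : Coh φ,
      (∀ x, f.1 (x * a n i * x⁻¹) = 0) → (∀ x, f.1 (x * b n i * x⁻¹) = 0) →
        ∑ h, c h • inn φ (s h) f = 0) → c = 0)
    {ω : LinearMap.BilinForm ℂ (Coh φ)} (halt : ∀ f, ω f f = 0) (hnd : ∀ f, (∀ f', ω f f' = 0) → f = 0)
    (hinn : ∀ y f f', ω (inn φ y f) (inn φ y f') = ω f f')
    (hmon : ∀ α f f', ω (mon φ α f) (mon φ α f') = ω f f')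
    (L : Submodule ℂ (Module.End ℂ (Coh φ))) (hL2 : ∀ X ∈ L, ∀ Y ∈ L, X * Y - Y * X ∈ L)
    (hL3 : ∀ N : Module.End ℂ (Coh φ), N * N * N = 0 →
      (∃ α : Stab φ, mon φ α = 1 + N + (1 / 2 : ℂ) • (N * N)) → N ∈ L)
    {X Y : Module.End ℂ (Coh φ)} (hX : IsZ φ ω X) (hY : IsZ φ ω Y) : X * Y - Y * X ∈ L := by
  classical
  haveI : FiniteDimensional ℂ (Coh φ) := finite_coh φ
  obtain ⟨ρ, hρ⟩ := BigL_exists_rho hφ
  obtain ⟨s, hs⟩ := hφ.hasRightInverse
  have hρs : ∀ h, ρ h = inn φ (s h) := fun h => by rw [← hρ, hs]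
  have hS : BMo.Sym ρ ω := ⟨halt, hnd, fun h u v => by rw [hρs]; exact hinn _ _ _⟩
  have hz : ∀ X, IsZ φ ω X → X ∈ BMo.zz ρ ω := fun X hX =>
    ⟨fun h => by rw [hρs]; exact hX.1 _, hX.2⟩
  -- the logarithms are in `zz`
  have hlog : ∀ N : Module.End ℂ (Coh φ), N * N * N = 0 →
      (∃ α : Stab φ, mon φ α = 1 + N + (1 / 2 : ℂ) • (N * N)) → N ∈ BMo.zz ρ ω := by
    rintro N hN ⟨α, hα⟩
    obtain ⟨u, hu⟩ : ∃ u, u = mon φ α := ⟨_, rfl⟩
    have h4 : N * N * (N * N) = 0 := by rw [← mul_assoc, hN, zero_mul]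
    have hN' : N * (N * N) = 0 := by rw [← mul_assoc, hN]
    have e1 : u - 1 = N + (1 / 2 : ℂ) • (N * N) := by rw [hu, hα]; abel
    have e2 : (u - 1) * (u - 1) = N * N := by
      rw [e1]
      simp only [add_mul, mul_add, smul_mul_assoc, mul_smul_comm, hN, hN', h4, smul_zero, add_zero]
    have h1 := BMo.log_zz hS u (fun h => by rw [hρs, hu]; exact BigL_mon_inn α _)
      (fun x y => by rw [hu]; exact hmon α x y) (by rw [e2, e1, mul_add, mul_smul_comm, hN, h4, smul_zero, add_zero])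
    have e3 : (u - 1) - (1 / 2 : ℂ) • ((u - 1) * (u - 1)) = N := by
      rw [e2, e1]
      abel
    rwa [e3] at h1
  -- values of the translates
  have val : ∀ (h : H) (f : Coh φ) (x y : F g n), φ y = h → φ x = 1 → (ρ h f).1 x = f.1 (y⁻¹ * x * y) := by
    intro h f x y hy hx
    rw [← hy, hρ, inn_apply]
  obtain ⟨p, hpa, hpb, hpX⟩ := exists_dual hR ha hb (Pi.single 1 1) 0
  obtain ⟨q, hqa, hqb, hqX⟩ := exists_dual hR ha hb 0 (Pi.single 1 1)
  obtain ⟨α, hα⟩ : ∃ α : Coh φ →ₗ[ℂ] ℂ, ∀ f, α f = f.1 (a n i) :=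
    ⟨{ toFun := fun f => f.1 (a n i), map_add' := fun f f' => rfl, map_smul' := fun t f => rfl }, fun f => rfl⟩
  obtain ⟨β, hβ⟩ : ∃ β : Coh φ →ₗ[ℂ] ℂ, ∀ f, β f = f.1 (b n i) :=
    ⟨{ toFun := fun f => f.1 (b n i), map_add' := fun f f' => rfl, map_smul' := fun t f => rfl }, fun f => rfl⟩
  have αρ : ∀ x f, α (ρ (φ x)⁻¹ f) = f.1 (x * a n i * x⁻¹) := by
    intro x f
    rw [hα, ← map_inv, hρ, inn_apply, inv_inv]
  have βρ : ∀ x f, β (ρ (φ x)⁻¹ f) = f.1 (x * b n i * x⁻¹) := by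
    intro x f
    rw [hβ, ← map_inv, hρ, inn_apply, inv_inv]
  have αρ' : ∀ h f, α (ρ h f) = f.1 ((s h)⁻¹ * a n i * s h) := by
    intro h f
    have := αρ (s h)⁻¹ f
    rwa [map_inv φ, inv_inv, hs, inv_inv] at this
  have βρ' : ∀ h f, β (ρ h f) = f.1 ((s h)⁻¹ * b n i * s h) := by
    intro h f
    have := βρ (s h)⁻¹ f
    rwa [map_inv φ, inv_inv, hs, inv_inv] at this
  have Wa : ∀ f, (∀ h, α (ρ h f) = 0) → ∀ x, f.1 (x * a n i * x⁻¹) = 0 := fun f hf x => by rw [← αρ, hf]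
  have Wb : ∀ f, (∀ h, β (ρ h f) = 0) → ∀ x, f.1 (x * b n i * x⁻¹) = 0 := fun f hf x => by rw [← βρ, hf]
  -- a class is determined by its values
  have ext : ∀ f f' : Coh φ, (∀ x ∈ Xs n i, φ x = 1 → f.1 x = f'.1 x) →
      (∀ x, f.1 (x * a n i * x⁻¹) = f'.1 (x * a n i * x⁻¹)) →
      (∀ x, f.1 (x * b n i * x⁻¹) = f'.1 (x * b n i * x⁻¹)) → f = f' := by
    intro f f' h0 h1 h2
    rw [← sub_eq_zero]
    refine coh_eq_zero ha hb _ (fun x hx hx' => ?_) (fun x => ?_) (fun x => ?_)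
    · change f.1 x - f'.1 x = 0
      rw [h0 x hx hx', sub_self]
    · change f.1 _ - f'.1 _ = 0
      rw [h1, sub_self]
    · change f.1 _ - f'.1 _ = 0
      rw [h2, sub_self]
  -- values of combinations of translates
  have cval : ∀ (c : H → ℂ) (r : Coh φ) (x : F g n), φ x = 1 →
      (∑ h, c h • ρ h r).1 x = ∑ h, c h * r.1 ((s h)⁻¹ * x * s h) := by
    intro c r x hx
    have h1 : (∑ h, c h • ρ h r).1 x = ∑ h, (c h • ρ h r).1 x := by
      rw [Submodule.coe_sum, Finset.sum_apply]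
    rw [h1]
    refine sum_congr rfl fun h _ => ?_
    change c h * (ρ h r).1 x = _
    rw [val h r x (s h) (hs h) hx]
  -- a sum of translates of `p`
  have psum : ∀ (c : H → ℂ) (f : Coh φ), (∀ x ∈ Xs n i, φ x = 1 → f.1 x = 0) →
      (∀ x, f.1 (x * b n i * x⁻¹) = 0) → (∀ x, f.1 (x * a n i * x⁻¹) = c (φ x)) → f = ∑ h, c h • ρ h p := by
    intro c f h0 h1 h2
    refine ext _ _ (fun x hx hx' => ?_) (fun x => ?_) (fun x => ?_)
    · rw [h0 x hx hx', cval c p x hx']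
      symm
      refine sum_eq_zero fun h _ => ?_
      have h3 := hpX (s h)⁻¹ x hx hx'
      rw [inv_inv] at h3
      rw [h3, mul_zero]
    · rw [h2, cval c p _ (by rw [map_mul, map_mul, ha, map_inv, mul_one, mul_inv_cancel]), sum_eq_single (φ x)]
      · have h3 := hpa ((s (φ x))⁻¹ * x)
        have h4 : (s (φ x))⁻¹ * (x * a n i * x⁻¹) * s (φ x) = (s (φ x))⁻¹ * x * a n i * ((s (φ x))⁻¹ * x)⁻¹ := by group
        rw [h4, h3, map_mul, map_inv, hs, inv_mul_cancel, inv_one, Pi.single_eq_same, mul_one]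
      · intro h _ hh
        have h3 := hpa ((s h)⁻¹ * x)
        have h4 : (s h)⁻¹ * (x * a n i * x⁻¹) * s h = (s h)⁻¹ * x * a n i * ((s h)⁻¹ * x)⁻¹ := by group
        rw [h4, h3, map_mul, map_inv, hs, Pi.single_eq_of_ne, mul_zero]
        intro h5
        exact hh (inv_mul_eq_one.1 (inv_eq_one.1 h5))
      · exact fun h => absurd (mem_univ _) h
    · rw [h1, cval c p _ (by rw [map_mul, map_mul, hb, map_inv, mul_one, mul_inv_cancel])]
      symm
      refine sum_eq_zero fun h _ => ?_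
      have h3 := hpb ((s h)⁻¹ * x)
      have h4 : (s h)⁻¹ * (x * b n i * x⁻¹) * s h = (s h)⁻¹ * x * b n i * ((s h)⁻¹ * x)⁻¹ := by group
      rw [h4, h3]
      simp
  have qsum : ∀ (c : H → ℂ) (f : Coh φ), (∀ x ∈ Xs n i, φ x = 1 → f.1 x = 0) →
      (∀ x, f.1 (x * a n i * x⁻¹) = 0) → (∀ x, f.1 (x * b n i * x⁻¹) = c (φ x)) → f = ∑ h, c h • ρ h q := by
    intro c f h0 h1 h2
    refine ext _ _ (fun x hx hx' => ?_) (fun x => ?_) (fun x => ?_)
    · rw [h0 x hx hx', cval c q x hx']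
      symm
      refine sum_eq_zero fun h _ => ?_
      have h3 := hqX (s h)⁻¹ x hx hx'
      rw [inv_inv] at h3
      rw [h3, mul_zero]
    · rw [h1, cval c q _ (by rw [map_mul, map_mul, ha, map_inv, mul_one, mul_inv_cancel])]
      symm
      refine sum_eq_zero fun h _ => ?_
      have h3 := hqa ((s h)⁻¹ * x)
      have h4 : (s h)⁻¹ * (x * a n i * x⁻¹) * s h = (s h)⁻¹ * x * a n i * ((s h)⁻¹ * x)⁻¹ := by group
      rw [h4, h3]
      simp
    · rw [h2, cval c q _ (by rw [map_mul, map_mul, hb, map_inv, mul_one, mul_inv_cancel]), sum_eq_single (φ x)]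
      · have h3 := hqb ((s (φ x))⁻¹ * x)
        have h4 : (s (φ x))⁻¹ * (x * b n i * x⁻¹) * s (φ x) = (s (φ x))⁻¹ * x * b n i * ((s (φ x))⁻¹ * x)⁻¹ := by group
        rw [h4, h3, map_mul, map_inv, hs, inv_mul_cancel, inv_one, Pi.single_eq_same, mul_one]
      · intro h _ hh
        have h3 := hqb ((s h)⁻¹ * x)
        have h4 : (s h)⁻¹ * (x * b n i * x⁻¹) * s h = (s h)⁻¹ * x * b n i * ((s h)⁻¹ * x)⁻¹ := by group
        rw [h4, h3, map_mul, map_inv, hs, Pi.single_eq_of_ne, mul_zero]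
        intro h5
        exact hh (inv_mul_eq_one.1 (inv_eq_one.1 h5))
      · exact fun h => absurd (mem_univ _) h
  -- the twists
  obtain ⟨N0, ε, hε, hN03, hN0m, hN0⟩ := htwa
  obtain ⟨M0, δ, hδ, hM03, hM0m, hM0⟩ := htwb
  have hN0z := hlog N0 hN03 hN0m
  have hM0z := hlog M0 hM03 hM0m
  have hM0L : M0 ∈ L := hL3 M0 hM03 hM0m
  have coef : ∀ (f : Coh φ) (x : F g n), β (ρ (φ x)⁻¹ f) = f.1 (x * b n i * x⁻¹) := fun f x => βρ x f
  refine (BMo.alg_main hS (p := p) (q := q) (α := α) (β := β) ?_ ?_ ?_ ?_ ?_ ?_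
    (N := ε⁻¹ • N0) (M := δ⁻¹ • M0) (Submodule.smul_mem _ _ hN0z) (Submodule.smul_mem _ _ hM0z) ?_ ?_ ?_ hL2
    (Submodule.smul_mem _ _ hM0L) ?_ X (hz X hX) Y (hz Y hY))
  · have h1 := hpa 1
    rwa [one_mul, inv_one, mul_one, map_one, inv_one, Pi.single_eq_same, ← hα] at h1
  · intro h hh
    have h1 := αρ (s h)⁻¹ p
    rw [map_inv φ, inv_inv, hs] at h1
    rw [h1, hpa, map_inv φ, inv_inv, hs, Pi.single_eq_of_ne hh]
  · intro h
    have h1 := αρ (s h)⁻¹ q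
    rw [map_inv φ, inv_inv, hs] at h1
    rw [h1, hqa, Pi.zero_apply]
  · have h1 := hqb 1
    rwa [one_mul, inv_one, mul_one, map_one, inv_one, Pi.single_eq_same, ← hβ] at h1
  · intro h hh
    have h1 := βρ (s h)⁻¹ q
    rw [map_inv φ, inv_inv, hs] at h1
    rw [h1, hqb, map_inv φ, inv_inv, hs, Pi.single_eq_of_ne hh]
  · intro h
    have h1 := βρ (s h)⁻¹ p
    rw [map_inv φ, inv_inv, hs] at h1
    rw [h1, hpb, Pi.zero_apply]
  · intro f
    refine psum (fun h => β (ρ h⁻¹ f)) _ (fun x hx hx' => ?_) (fun x => ?_) (fun x => ?_)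
    · change ε⁻¹ * (N0 f).1 x = 0
      rw [(hN0 f).2.2 x hx hx', mul_zero]
    · change ε⁻¹ * (N0 f).1 _ = 0
      rw [(hN0 f).2.1, mul_zero]
    · change ε⁻¹ * (N0 f).1 _ = _
      rw [(hN0 f).1, coef, inv_mul_cancel_left₀ hε]
  · intro f
    refine qsum (fun h => α (ρ h⁻¹ f)) _ (fun x hx hx' => ?_) (fun x => ?_) (fun x => ?_)
    · change δ⁻¹ * (M0 f).1 x = 0
      rw [(hM0 f).2.2 x hx hx', mul_zero]
    · change δ⁻¹ * (M0 f).1 _ = 0
      rw [(hM0 f).2.1, mul_zero]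
    · change δ⁻¹ * (M0 f).1 _ = _
      rw [(hM0 f).1, αρ, inv_mul_cancel_left₀ hδ]
  · intro c hc
    refine hfth s hs c fun f hfa hfb => ?_
    have h1 := hc f (fun h => by
      rw [αρ']
      have := hfa (s h)⁻¹
      rwa [inv_inv] at this) (fun h => by
      rw [βρ']
      have := hfb (s h)⁻¹
      rwa [inv_inv] at this)
    rw [← h1]
    exact sum_congr rfl fun h _ => by rw [hρs]
  · intro f hfa hfb hall
    refine coh_eq_zero ha hb f (fun w hw hw' => ?_) (Wa f hfa) (Wb f hfb)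
    obtain ⟨N, hN3, hNm, hNb, hN⟩ := hpush w hw hw'
    have h1 := hall N (hL3 N hN3 hNm) (hlog N hN3 hNm) ?_ ?_
    · have h2 := (hN f (Wb f hfb)).2 1
      simp only [one_mul, inv_one, mul_one] at h2
      rw [← hα, h1] at h2
      exact h2.symm
    · have h2 := hN p (fun x => by rw [hpb, Pi.zero_apply])
      refine coh_eq_zero ha hb _ h2.1 (fun x => ?_) (fun x => hNb _ x)
      rw [h2.2, hpX x w hw hw']
    · intro v hv
      have h2 := hN v (Wb v hv)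
      have h3 := psum (fun h => α (ρ h⁻¹ (N v))) (N v) h2.1 (fun x => hNb _ x) (fun x => by rw [αρ])
      rw [h3]
      exact Submodule.sum_mem _ fun h _ => Submodule.smul_mem _ _ (Submodule.subset_span ⟨h, rfl⟩)

/-- The theorem for a cover which is trivial on the last handle. -/
theorem big_L {φ : F (g + 1) n →* H} (hφ : Function.Surjective φ) (hR : φ (R (g + 1) n) = 1) (hg : 3 ≤ g + 1)
    (ha : φ (a n (Fin.last g)) = 1) (hb : φ (b n (Fin.last g)) = 1)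
    {ω : LinearMap.BilinForm ℂ (Coh φ)} (hω : Tp.Good φ ω)
    (L : Submodule ℂ (Module.End ℂ (Coh φ))) (hL : ∀ X ∈ L, ∀ Y ∈ L, X * Y - Y * X ∈ L)
    (hL3 : ∀ N : Module.End ℂ (Coh φ), N * N * N = 0 →
      (∃ α : Stab φ, mon φ α = 1 + N + (1 / 2 : ℂ) • (N * N)) → N ∈ L)
    {X Y : Module.End ℂ (Coh φ)} (hX : IsZ φ ω X) (hY : IsZ φ ω Y) : X * Y - Y * X ∈ L := by
  refine big_L_of hφ hR ha hb (fun w hw hw' => ?_) ?_ ?_ (fun s hs c hc => faithful hφ hR hg ha hb s hs c hc)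
    hω.alt hω.nd hω.inn hω.mon L hL hL3 hX hY
  · obtain ⟨N, h1, h2, -, h4, h5⟩ := Unip.push_mon (φ := φ) ha hb hw hw'
    exact ⟨N, h2, h1, fun f x => h4 f x, fun f hf => h5 f hf⟩
  · obtain ⟨N, ⟨σ, hσ⟩, h2, -, h4⟩ := Unip.twist_a (φ := φ) ha hb
    refine ⟨N, 1, one_ne_zero, by rw [h2, zero_mul], ⟨σ, by rw [hσ, h2, smul_zero, add_zero]⟩, fun f => ?_⟩
    obtain ⟨k1, k2, k3⟩ := h4 f
    exact ⟨fun x => by rw [one_mul]; exact k3 x, fun x => k2 x, k1⟩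
  · obtain ⟨N, ⟨σ, hσ⟩, h2, -, h4⟩ := Unip.twist_b (φ := φ) ha hb
    refine ⟨N, 1, one_ne_zero, by rw [h2, zero_mul], ⟨σ, by rw [hσ, h2, smul_zero, add_zero]⟩, fun f => ?_⟩
    obtain ⟨k1, k2, k3⟩ := h4 f
    exact ⟨fun x => by rw [one_mul]; exact k3 x, fun x => k2 x, k1⟩

/-- After an automorphism, which is a mapping class, the cover is trivial on the last handle. -/
def Triv (φ : F (g + 1) n →* H) : Prop :=
  ∃ t : MulAut (F (g + 1) n), t (R (g + 1) n) = R (g + 1) n ∧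
    (∀ j : Fin n, IsConj (t (c (g + 1) j)) (c (g + 1) j)) ∧
    φ (t (a n (Fin.last g))) = 1 ∧ φ (t (b n (Fin.last g))) = 1

theorem Triv.tr {φ : F (g + 1) n →* H} (hφ : Function.Surjective φ) (hR : φ (R (g + 1) n) = 1) (ht : Triv φ) :
    ∃ (ψ : F (g + 1) n →* H) (t : MulAut (F (g + 1) n)), Tp.Tr φ ψ t ∧ Function.Surjective ψ ∧
      ψ (R (g + 1) n) = 1 ∧ ψ (a n (Fin.last g)) = 1 ∧ ψ (b n (Fin.last g)) = 1 := by
  obtain ⟨t, h1, h2, h3, h4⟩ := ht
  have T : Tp.Tr φ (φ.comp (MulEquiv.toMonoidHom t)) t := ⟨h1, h2, fun x => rfl⟩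
  exact ⟨φ.comp (MulEquiv.toMonoidHom t), t, T, hφ.comp (MulEquiv.surjective t), by rw [T.eq, h1, hR], h3, h4⟩

/-- There is a cup product, and it is a good form. -/
theorem exists_good {φ : F (g + 1) n →* H} (hφ : Function.Surjective φ) (hR : φ (R (g + 1) n) = 1)
    (ht : Triv φ) : ∃ ω : LinearMap.BilinForm ℂ (Coh φ), IsCup φ ω ∧ Tp.Good φ ω := by
  obtain ⟨ψ, t, T, hψ, hRψ, ha, hb⟩ := ht.tr hφ hR
  obtain ⟨ω', h1, h2, h3, h4, h5⟩ := exists_cup_nd hψ hRψ ha hb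
  exact ⟨_, Tp.cup_comp T.symm h1, Tp.good_comp T.symm ⟨h2, h3, h4, h5⟩⟩

/-- **The theorem for an arbitrary Lie algebra which contains the logarithms.** -/
theorem big_L' {φ : F (g + 1) n →* H} (hφ : Function.Surjective φ) (hR : φ (R (g + 1) n) = 1) (hg : 3 ≤ g + 1)
    (ht : Triv φ) {ω : LinearMap.BilinForm ℂ (Coh φ)} (hω : Tp.Good φ ω)
    (L : Submodule ℂ (Module.End ℂ (Coh φ))) (hL : ∀ X ∈ L, ∀ Y ∈ L, X * Y - Y * X ∈ L)
    (hL3 : ∀ N : Module.End ℂ (Coh φ), N * N * N = 0 →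
      (∃ α : Stab φ, mon φ α = 1 + N + (1 / 2 : ℂ) • (N * N)) → N ∈ L)
    {X Y : Module.End ℂ (Coh φ)} (hX : IsZ φ ω X) (hY : IsZ φ ω Y) : X * Y - Y * X ∈ L := by
  obtain ⟨ψ, t, T, hψ, hRψ, ha, hb⟩ := ht.tr hφ hR
  have hL' : ∀ X' ∈ L.map (Tp.alg T).toLinearMap, ∀ Y' ∈ L.map (Tp.alg T).toLinearMap,
      X' * Y' - Y' * X' ∈ L.map (Tp.alg T).toLinearMap := by
    rintro _ ⟨X, hX, rfl⟩ _ ⟨Y, hY, rfl⟩
    exact ⟨X * Y - Y * X, hL X hX Y hY, Tp.alg_comm (A := Module.End ℂ (Coh φ)) (B := Module.End ℂ (Coh ψ)) (Tp.alg T) X Y⟩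
  have hL3' : ∀ N' : Module.End ℂ (Coh ψ), N' * N' * N' = 0 →
      (∃ α : Stab ψ, mon ψ α = 1 + N' + (1 / 2 : ℂ) • (N' * N')) → N' ∈ L.map (Tp.alg T).toLinearMap := by
    rintro N' hN ⟨α, hα⟩
    obtain ⟨N, rfl⟩ := (Tp.alg T).surjective N'
    obtain ⟨α, rfl⟩ := (Tp.stab T).surjective α
    refine ⟨N, hL3 N ?_ ⟨α, ?_⟩, rfl⟩
    · apply (Tp.alg T).injective
      rw [map_mul, map_mul, hN, map_zero]
    · apply (Tp.alg T).injective
      rw [Tp.alg_mon, hα, map_add, map_add, map_one, map_smul, map_mul]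
  obtain ⟨Z, hZ, hZ'⟩ := big_L hψ hRψ hg ha hb (Tp.good_comp T hω) _ hL' hL3' (Tp.isZ_comp T hX) (Tp.isZ_comp T hY)
  have h1 : Z = X * Y - Y * X := by
    apply (Tp.alg T).injective
    exact hZ'.trans (Tp.alg_comm (A := Module.End ℂ (Coh φ)) (B := Module.End ℂ (Coh ψ)) (Tp.alg T) X Y).symm
  rw [← h1]
  exact hZ

end Pool.Agent.BM
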