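import Pool.Agent.Lib.MP_943dad_ag.BM.Perf

set_option linter.all false

/-!
# Selfadjoint central idempotents of a symplectic representation
-/

open Finset Polynomial

namespace Pool.Agent.Lib.MP_943dad_ag.BMo

theorem aeval_comm {V : Type} [AddCommGroup V] [Module ℂ V] {f Y : Module.End ℂ V} (h : f * Y = Y * f) (p : ℂ[X]) :
    aeval f p * Y = Y * aeval f p := by
  induction p using Polynomial.induction_on' with
  | add p q hp hq => rw [map_add, add_mul, mul_add, hp, hq]
  | monomial n c =>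
    rw [aeval_monomial, ← Algebra.smul_def, smul_mul_assoc, mul_smul_comm]
    congr 1
    exact ((show Commute f Y from h).pow_left n).eq

theorem aeval_adj {V : Type} [AddCommGroup V] [Module ℂ V] {f : Module.End ℂ V} {ω : V →ₗ[ℂ] V →ₗ[ℂ] ℂ}
    (h : ∀ u v, ω (f u) v = ω u (f v)) (p : ℂ[X]) (u v : V) : ω (aeval f p u) v = ω u (aeval f p v) := by
  induction p using Polynomial.induction_on' with
  | add p q hp hq => rw [map_add, LinearMap.add_apply, LinearMap.add_apply, map_add, LinearMap.add_apply, map_add, hp, hq]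
  | monomial n c =>
    rw [aeval_monomial, ← Algebra.smul_def, LinearMap.smul_apply, LinearMap.smul_apply, map_smul, map_smul,
      LinearMap.smul_apply]
    congr 1
    induction n generalizing u with
    | zero => simp
    | succ n ih =>
      rw [pow_succ, Module.End.mul_apply, ih, h, ← Module.End.mul_apply, ← pow_succ']
      rw [pow_succ]

variable {H V : Type} [Group H] [AddCommGroup V] [Module ℂ V]

/-- The selfadjoint central idempotents. -/
structure Bl (ρ : H →* Module.End ℂ V) (ω : V →ₗ[ℂ] V →ₗ[ℂ] ℂ) (e : Module.End ℂ V) : Prop where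
  idem : e * e = e
  rho : ∀ h, e * ρ h = ρ h * e
  com : ∀ X : Module.End ℂ V, (∀ h, X * ρ h = ρ h * X) → X * e = e * X
  adj : ∀ u v, ω (e u) v = ω u (e v)

/-- A primitive idempotent. -/
structure Prim (ρ : H →* Module.End ℂ V) (ω : V →ₗ[ℂ] V →ₗ[ℂ] ℂ) (e : Module.End ℂ V) : Prop where
  bl : Bl ρ ω e
  ne : e ≠ 0
  min : ∀ e', Bl ρ ω e' → e' * e = e' → e' = 0 ∨ e' = e

/-- The kernel of the action on the range of `e`. -/
def kerE (ρ : H →* Module.End ℂ V) (e : Module.End ℂ V) : Subgroup H where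
  carrier := {h | ρ h * e = e}
  mul_mem' := by
    intro g h hg hh
    change ρ (g * h) * e = e
    rw [map_mul, mul_assoc, hh, hg]
  one_mem' := by
    change ρ 1 * e = e
    rw [map_one, one_mul]
  inv_mem' := by
    intro h hh
    change ρ h⁻¹ * e = e
    have h1 : ρ h⁻¹ * (ρ h * e) = e := by rw [← mul_assoc, ← map_mul, inv_mul_cancel, map_one, one_mul]
    rwa [show ρ h * e = e from hh] at h1

section
variable {ρ : H →* Module.End ℂ V} {ω : V →ₗ[ℂ] V →ₗ[ℂ] ℂ} {e : Module.End ℂ V}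

theorem mem_kerE {h : H} : h ∈ kerE ρ e ↔ ρ h * e = e := Iff.rfl

theorem Bl.normal (he : Bl ρ ω e) : (kerE ρ e).Normal := by
  refine ⟨fun n hn g => ?_⟩
  rw [mem_kerE] at hn ⊢
  rw [map_mul, map_mul, mul_assoc, ← he.rho, ← mul_assoc, mul_assoc (ρ g), hn, ← he.rho, mul_assoc, ← map_mul,
    mul_inv_cancel, map_one, mul_one]

/-- An element of the centre has only one eigenvalue on a primitive block. -/
theorem Prim.single [FiniteDimensional ℂ V] (hP : Prim ρ ω e) {f : Module.End ℂ V} (hf1 : ∀ h, f * ρ h = ρ h * f)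
    (hf2 : ∀ X : Module.End ℂ V, (∀ h, X * ρ h = ρ h * X) → X * f = f * X) (hf3 : ∀ u v, ω (f u) v = ω u (f v))
    {v : V} (hv : v ≠ 0) (hev : e v = v) {μ : ℂ} (hfv : f v = μ • v) :
    ∃ k : ℕ, (f - algebraMap ℂ (Module.End ℂ V) μ) ^ k * e = 0 := by
  obtain ⟨q, k, h1, h2⟩ := fitting f μ
  obtain ⟨A, hA⟩ : ∃ A, A = aeval f ((X - C μ) ^ (k + 1) * q) := ⟨_, rfl⟩
  rw [← hA] at h1 h2
  have hfe : f * e = e * f := hP.bl.com f hf1
  have hAe : A * e = e * A := hA ▸ aeval_comm hfe _
  have hAA : A * A = A := h1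
  have hPe : (1 - A) * e = e * (1 - A) := by rw [sub_mul, mul_sub, hAe, one_mul, mul_one]
  have hPP : (1 - A) * (1 - A) = 1 - A := by
    rw [mul_sub, sub_mul, sub_mul, hAA, one_mul, mul_one, one_mul, sub_self, sub_zero]
  have hB : Bl ρ ω ((1 - A) * e) := by
    refine ⟨?_, fun h => ?_, fun X hX => ?_, fun u v => ?_⟩
    · rw [mul_assoc, ← mul_assoc e, ← hPe, mul_assoc, hP.bl.idem, ← mul_assoc, hPP]
    · have h3 : A * ρ h = ρ h * A := hA ▸ aeval_comm (hf1 h) _
      have h4 : (1 - A) * ρ h = ρ h * (1 - A) := by rw [sub_mul, mul_sub, h3, one_mul, mul_one]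
      rw [mul_assoc, hP.bl.rho, ← mul_assoc, h4, mul_assoc]
    · have h3 : A * X = X * A := hA ▸ aeval_comm (hf2 X hX).symm _
      have h4 : (1 - A) * X = X * (1 - A) := by rw [sub_mul, mul_sub, h3, one_mul, mul_one]
      rw [← mul_assoc, ← h4, mul_assoc, hP.bl.com X hX, ← mul_assoc]
    · have h3 : ∀ u v, ω (A u) v = ω u (A v) := fun u v => by
        rw [hA]
        exact aeval_adj hf3 _ u v
      have h4 : ω (((1 - A) * e) u) v = ω u ((e * (1 - A)) v) := by
        rw [Module.End.mul_apply, Module.End.mul_apply, ← hP.bl.adj]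
        simp only [LinearMap.sub_apply, Module.End.one_apply, map_sub, h3]
      rw [h4, hPe]
  have hfv0 : ∀ k : ℕ, aeval f ((X - C μ) ^ (k + 1)) v = 0 := by
    intro k
    rw [map_pow, map_sub, aeval_X, aeval_C, pow_succ, Module.End.mul_apply, LinearMap.sub_apply, hfv,
      Module.algebraMap_end_apply, sub_self, map_zero]
  have hAv : A v = 0 := by
    rw [hA, mul_comm, map_mul, Module.End.mul_apply, hfv0, map_zero]
  have hBv : ((1 - A) * e) v = v := by
    rw [Module.End.mul_apply, hev, LinearMap.sub_apply, hAv, sub_zero, Module.End.one_apply]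
  rcases hP.min _ hB (by rw [mul_assoc, hP.bl.idem]) with h3 | h3
  · rw [h3, LinearMap.zero_apply] at hBv
    exact absurd hBv.symm hv
  · refine ⟨k + 1, ?_⟩
    have h4 : (f - algebraMap ℂ (Module.End ℂ V) μ) ^ (k + 1) = aeval f ((X - C μ) ^ (k + 1)) := by
      rw [map_pow, map_sub, aeval_X, aeval_C]
    rw [h4, ← h3, ← mul_assoc, h2, zero_mul]

variable [Fintype H]

/-- The sum of the conjugates. -/
noncomputable def cls (ρ : H →* Module.End ℂ V) (z : H) : Module.End ℂ V := ∑ h, ρ (h * z * h⁻¹)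

theorem cls_rho (z g : H) : cls ρ z * ρ g = ρ g * cls ρ z := by
  rw [cls, sum_mul, mul_sum]
  refine Fintype.sum_equiv (Equiv.mulLeft g⁻¹) _ _ fun h => ?_
  rw [← map_mul, ← map_mul, Equiv.coe_mulLeft]
  congr 1
  group

theorem cls_com (z : H) {X : Module.End ℂ V} (hX : ∀ h, X * ρ h = ρ h * X) : X * cls ρ z = cls ρ z * X := by
  rw [cls, sum_mul, mul_sum]
  exact sum_congr rfl fun h _ => hX _

theorem cls_adj (hS : Sym ρ ω) (z : H) (u v : V) : ω (cls ρ z u) v = ω u (cls ρ z⁻¹ v) := by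
  rw [cls, cls, LinearMap.sum_apply, LinearMap.sum_apply, map_sum, map_sum, LinearMap.sum_apply]
  refine sum_congr rfl fun h _ => ?_
  rw [hS.inv']
  congr 3
  group

/-- If all conjugates of `z` act in the same way on the block, then `cls z` acts as `|H| ρ z`. -/
theorem cls_e {z : H} (hz : ∀ h, ρ (h * z * h⁻¹) * e = ρ z * e) : cls ρ z * e = (Fintype.card H : ℂ) • (ρ z * e) := by
  rw [cls, sum_mul, sum_congr rfl fun h _ => hz h, sum_const, card_univ, ← Nat.cast_smul_eq_nsmul ℂ]

/-- Unipotent of finite order is trivial. -/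
theorem unip_one {u : Module.End ℂ V} {m : ℕ} (hm : m ≠ 0) (hu : u ^ m = 1) {k : ℕ} {x : V}
    (hx : ((u - 1) ^ k) x = 0) : u x = x := by
  have h1 : ∀ y, (u - 1) ((u - 1) y) = 0 → (u - 1) y = 0 := by
    intro y hy
    have h2 : ∀ j : ℕ, (u ^ j) y = y + (j : ℂ) • (u - 1) y := by
      intro j
      induction j with
      | zero => simp
      | succ j ih =>
        rw [pow_succ', Module.End.mul_apply, ih, map_add, map_smul]
        have h3 : u ((u - 1) y) = (u - 1) y := by
          rw [LinearMap.sub_apply, Module.End.one_apply, sub_eq_zero] at hy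
          exact hy
        have h4 : u y = y + (u - 1) y := by
          rw [LinearMap.sub_apply, Module.End.one_apply]
          abel
        rw [h3]
        nth_rewrite 1 [h4]
        push_cast
        rw [add_smul, one_smul]
        abel
    have h5 := h2 m
    rw [hu, Module.End.one_apply] at h5
    have h6 : (m : ℂ) • (u - 1) y = 0 := by
      have := h5.symm
      rwa [add_eq_left] at this
    exact (smul_eq_zero.1 h6).resolve_left (by exact_mod_cast hm)
  have h2 : ∀ k : ℕ, ((u - 1) ^ k) x = 0 → (u - 1) x = 0 := by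
    intro k
    induction k with
    | zero =>
      intro h
      rw [pow_zero, Module.End.one_apply] at h
      rw [h, map_zero]
    | succ k ih =>
      intro h
      rcases k with _ | k
      · rwa [zero_add, pow_one] at h
      · refine ih ?_
        rw [pow_succ', Module.End.mul_apply, pow_succ', Module.End.mul_apply] at h
        rw [pow_succ', Module.End.mul_apply]
        exact h1 _ h
  have h3 := h2 k hx
  rwa [LinearMap.sub_apply, Module.End.one_apply, sub_eq_zero] at h3

/-- **The centre of the group which acts faithfully on a primitive block is cyclic.** -/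
theorem Prim.cyc [FiniteDimensional ℂ V] (hS : Sym ρ ω) (hP : Prim ρ ω e) [(kerE ρ e).Normal] :
    IsCyclic (Subgroup.center (H ⧸ kerE ρ e)) := by
  classical
  have hwd : ∀ g h : H, (g : H ⧸ kerE ρ e) = h → ρ g * e = ρ h * e := by
    intro g h hgh
    rw [QuotientGroup.eq, mem_kerE, map_mul, mul_assoc] at hgh
    have h1 : ρ g * (ρ g⁻¹ * (ρ h * e)) = ρ g * e := by rw [hgh]
    rw [← mul_assoc, ← map_mul, mul_inv_cancel, map_one, one_mul] at h1
    exact h1.symm
  obtain ⟨r, hr⟩ : ∃ r : Subgroup.center (H ⧸ kerE ρ e) → H, ∀ z, (r z : H ⧸ kerE ρ e) = z.1 :=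
    ⟨fun z => Quotient.out z.1, fun z => Quotient.out_eq' z.1⟩
  have hcen : ∀ (z : Subgroup.center (H ⧸ kerE ρ e)) (x : H ⧸ kerE ρ e), x * z.1 = z.1 * x := fun z x =>
    Subgroup.mem_center_iff.1 z.2 x
  have hconj : ∀ z h, ρ (h * r z * h⁻¹) * e = ρ (r z) * e := by
    intro z h
    refine hwd _ _ ?_
    rw [QuotientGroup.mk_mul, QuotientGroup.mk_mul, QuotientGroup.mk_inv, hr, hcen, mul_inv_cancel_right]
  have hconj' : ∀ z h, ρ (h * (r z)⁻¹ * h⁻¹) * e = ρ (r z)⁻¹ * e := by
    intro z h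
    refine hwd _ _ ?_
    rw [QuotientGroup.mk_mul, QuotientGroup.mk_mul, QuotientGroup.mk_inv, QuotientGroup.mk_inv, hr]
    have h1 : ((h : H ⧸ kerE ρ e)) * (z.1)⁻¹ = (z.1)⁻¹ * h := by
      rw [mul_inv_eq_iff_eq_mul, mul_assoc, hcen, inv_mul_cancel_left]
    rw [h1, mul_inv_cancel_right]
  have hmul : ∀ z w, ρ (r (z * w)) * e = ρ (r z) * (ρ (r w) * e) := by
    intro z w
    rw [← mul_assoc, ← map_mul]
    refine hwd _ _ ?_
    rw [hr, QuotientGroup.mk_mul, hr, hr]
    rfl
  -- a minimal subspace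
  obtain ⟨W, hW, hmin⟩ : ∃ W ∈ {W : Submodule ℂ V | W ≠ ⊥ ∧ (∀ w ∈ W, e w = w) ∧ ∀ z, ∀ w ∈ W, ρ (r z) w ∈ W},
      ∀ W' ∈ {W : Submodule ℂ V | W ≠ ⊥ ∧ (∀ w ∈ W, e w = w) ∧ ∀ z, ∀ w ∈ W, ρ (r z) w ∈ W}, ¬ W' < W := by
    refine wellFounded_lt.has_min _ ⟨LinearMap.range e, ?_, ?_, ?_⟩
    · intro h
      exact hP.ne (LinearMap.range_eq_bot.1 h)
    · rintro _ ⟨w, rfl⟩
      rw [← Module.End.mul_apply, hP.bl.idem]
    · rintro z _ ⟨w, rfl⟩
      exact ⟨ρ (r z) w, by rw [← Module.End.mul_apply, hP.bl.rho, Module.End.mul_apply]⟩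
  obtain ⟨hW0, hWe, hWr⟩ := hW
  haveI : Nontrivial W := Submodule.nontrivial_iff_ne_bot.2 hW0
  have hscal : ∀ z, ∃ c : ℂ, ∀ w ∈ W, ρ (r z) w = c • w := by
    intro z
    obtain ⟨c, hc⟩ := Module.End.exists_eigenvalue ((ρ (r z)).restrict (hWr z))
    obtain ⟨w0, hw0⟩ := hc.exists_hasEigenvector
    refine ⟨c, ?_⟩
    obtain ⟨W', hW'⟩ : ∃ W' : Submodule ℂ V, ∀ w, w ∈ W' ↔ w ∈ W ∧ ρ (r z) w = c • w := by
      refine ⟨W ⊓ LinearMap.ker (ρ (r z) - algebraMap ℂ (Module.End ℂ V) c), fun w => ?_⟩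
      rw [Submodule.mem_inf, LinearMap.mem_ker, LinearMap.sub_apply, Module.algebraMap_end_apply, sub_eq_zero]
    have hle : W' ≤ W := fun w hw => ((hW' w).1 hw).1
    have h1 : W' ∈ {W : Submodule ℂ V | W ≠ ⊥ ∧ (∀ w ∈ W, e w = w) ∧ ∀ z, ∀ w ∈ W, ρ (r z) w ∈ W} := by
      refine ⟨?_, fun w hw => hWe w (hle hw), fun z' w hw => ?_⟩
      · intro h
        have h2 : w0.1 ∈ W' := by
          rw [hW']
          exact ⟨w0.2, congrArg Subtype.val hw0.apply_eq_smul⟩
        rw [h, Submodule.mem_bot] at h2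
        exact hw0.2 (Subtype.ext h2)
      · rw [hW'] at hw ⊢
        refine ⟨hWr z' w hw.1, ?_⟩
        have h2 : ρ (r z) * (ρ (r z') * e) = ρ (r z') * (ρ (r z) * e) := by
          rw [← hmul, ← hmul, show z * z' = z' * z from Subtype.ext (hcen z' z.1)]
        have h3 := LinearMap.congr_fun h2 w
        simp only [Module.End.mul_apply] at h3
        rw [hWe w hw.1] at h3
        rw [h3, hw.2, map_smul]
    have h2 : W' = W := by
      by_contra hne
      exact hmin W' h1 (lt_of_le_of_ne hle hne)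
    intro w hw
    rw [← h2, hW'] at hw
    exact hw.2
  choose lam hlam using hscal
  obtain ⟨v, hvW, hv⟩ := W.ne_bot_iff.1 hW0
  have hev := hWe v hvW
  have hinj : ∀ c d : ℂ, c • v = d • v → c = d := fun c d h => smul_left_injective ℂ hv h
  obtain ⟨F, hF⟩ : ∃ F : Subgroup.center (H ⧸ kerE ρ e) →* ℂ, ∀ z, F z = lam z := by
    refine ⟨{ toFun := lam, map_one' := ?_, map_mul' := fun z w => ?_ }, fun z => rfl⟩
    · apply hinj
      rw [← hlam 1 v hvW, one_smul]
      have h1 : ρ (r 1) * e = ρ 1 * e := hwd _ _ (by rw [hr]; rfl)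
      have h2 := LinearMap.congr_fun h1 v
      rw [Module.End.mul_apply, Module.End.mul_apply, hev, map_one, Module.End.one_apply] at h2
      exact h2
    · apply hinj
      have h2 := LinearMap.congr_fun (hmul z w) v
      simp only [Module.End.mul_apply] at h2
      rw [hev, hlam _ v hvW, hlam w v hvW, map_smul, hlam z v hvW, smul_smul, mul_comm (lam w)] at h2
      exact h2
  refine isCyclic_of_injective_ringHom F ((injective_iff_map_eq_one F).2 fun z hz => ?_)
  rw [hF] at hz
  obtain ⟨u, hu⟩ : ∃ u, u = ρ (r z) := ⟨_, rfl⟩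
  obtain ⟨u', hu'⟩ : ∃ u', u' = ρ (r z)⁻¹ := ⟨_, rfl⟩
  have huu : u * u' = 1 := by rw [hu, hu', ← map_mul, mul_inv_cancel, map_one]
  have huu' : u' * u = 1 := by rw [hu, hu', ← map_mul, inv_mul_cancel, map_one]
  have hue : e * u = u * e := by rw [hu, hP.bl.rho]
  have hue' : e * u' = u' * e := by rw [hu', hP.bl.rho]
  have huv : u v = v := by rw [hu, hlam z v hvW, hz, one_smul]
  have huv' : u' v = v := by
    have h1 := LinearMap.congr_fun huu' v
    rwa [Module.End.mul_apply, huv, Module.End.one_apply] at h1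
  obtain ⟨f, hf⟩ : ∃ f, f = cls ρ (r z) + cls ρ (r z)⁻¹ := ⟨_, rfl⟩
  have hN : (Fintype.card H : ℂ) ≠ 0 := by exact_mod_cast Fintype.card_ne_zero
  have hfe : f * e = (Fintype.card H : ℂ) • ((u + u') * e) := by
    rw [hf, add_mul, cls_e (hconj z), cls_e (hconj' z), add_mul, smul_add, hu, hu']
  have hf1 : ∀ h, f * ρ h = ρ h * f := fun h => by rw [hf, add_mul, mul_add, cls_rho, cls_rho]
  have hfv : f v = (2 * (Fintype.card H : ℂ)) • v := by
    have h1 := LinearMap.congr_fun hfe v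
    rw [Module.End.mul_apply, hev, LinearMap.smul_apply, Module.End.mul_apply, hev, LinearMap.add_apply, huv, huv',
      ← two_smul ℂ v, smul_smul, mul_comm] at h1
    exact h1
  obtain ⟨k, hk⟩ := hP.single hf1 (fun X hX => by rw [hf, mul_add, add_mul, cls_com _ hX, cls_com _ hX])
    (fun x y => by
      rw [hf, LinearMap.add_apply, LinearMap.add_apply, map_add, LinearMap.add_apply, map_add, cls_adj hS,
        cls_adj hS, inv_inv]
      ring) hv hev hfv
  obtain ⟨g, hg⟩ : ∃ g, g = f - algebraMap ℂ (Module.End ℂ V) (2 * (Fintype.card H : ℂ)) := ⟨_, rfl⟩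
  obtain ⟨d, hd⟩ : ∃ d, d = u' * ((u - 1) * (u - 1)) := ⟨_, rfl⟩
  rw [← hg] at hk
  have hd1 : d = u + u' - 2 := by
    have h1 : u' * ((u - 1) * (u - 1)) = (u' * u) * u - 2 * (u' * u) + u' := by noncomm_ring
    rw [hd, h1, huu', one_mul, mul_one]
    abel
  have hge : g * e = (Fintype.card H : ℂ) • (d * e) := by
    rw [hg, sub_mul, hfe, hd1, Algebra.algebraMap_eq_smul_one, smul_mul_assoc, one_mul, sub_mul, smul_sub, mul_comm 2,
      mul_smul, two_mul, two_smul]
  have hde : d * e = e * d := by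
    have h1 : (u + u' - 2) * e = e * (u + u' - 2) := by
      rw [sub_mul, mul_sub, add_mul, mul_add, hue, hue', two_mul, mul_two]
    rw [hd1, h1]
  have hpow : ∀ j : ℕ, g ^ j * e = (Fintype.card H : ℂ) ^ j • (d ^ j * e) := by
    intro j
    induction j with
    | zero => rw [pow_zero, pow_zero, pow_zero, one_smul]
    | succ j ih =>
      rw [pow_succ, mul_assoc, hge, mul_smul_comm, hde, ← mul_assoc, ih, smul_mul_assoc, smul_smul, mul_assoc, ← hde,
        ← mul_assoc, ← pow_succ, ← pow_succ']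
  have hdk : d ^ k * e = 0 := by
    rw [hpow] at hk
    exact (smul_eq_zero.1 hk).resolve_left (pow_ne_zero _ hN)
  have hcu : Commute u' ((u - 1) * (u - 1)) := by
    have h1 : Commute u' (u - 1) := by
      change u' * (u - 1) = (u - 1) * u'
      rw [mul_sub, sub_mul, huu, huu', mul_one, one_mul]
    exact h1.mul_right h1
  have hk2 : (u - 1) ^ (2 * k) * e = 0 := by
    have h1 : u ^ k * (d ^ k * e) = 0 := by rw [hdk, mul_zero]
    rw [hd, hcu.mul_pow, mul_assoc, ← mul_assoc, ← (show Commute u u' from by rw [Commute, SemiconjBy, huu, huu']).mul_pow,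
      huu, one_pow, one_mul, ← pow_two, ← pow_mul] at h1
    exact h1
  have hmem : ρ (r z) * e = e := by
    refine LinearMap.ext fun x => ?_
    rw [Module.End.mul_apply, ← hu]
    refine unip_one (m := Fintype.card H) (k := 2 * k) Fintype.card_ne_zero ?_ ?_
    · rw [hu, ← map_pow, pow_card_eq_one, map_one]
    · rw [← Module.End.mul_apply, hk2, LinearMap.zero_apply]
  have h1 : ((r z : H) : H ⧸ kerE ρ e) = 1 := (QuotientGroup.eq_one_iff _).2 hmem
  exact Subtype.ext (by rw [← hr, h1]; rfl)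

end

end Pool.Agent.Lib.MP_943dad_ag.BMo
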