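import Mathlib

set_option linter.all false

/-!
# Self-adjoint minimal central idempotents of the group algebra
-/

open MonoidAlgebra

namespace Pool.Agent.BM

variable {H : Type} [Group H]

/-- The linear involution `h ↦ h⁻¹` of the group algebra. -/
noncomputable def tr' (x : MonoidAlgebra ℂ H) : MonoidAlgebra ℂ H := MonoidAlgebra.mapDomain (fun h : H => h⁻¹) x

theorem tr'_single (h : H) (t : ℂ) : tr' (single h t) = single h⁻¹ t := MonoidAlgebra.mapDomain_single ..

theorem tr'_zero : tr' (0 : MonoidAlgebra ℂ H) = 0 := MonoidAlgebra.mapDomain_zero _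

theorem tr'_add (x y : MonoidAlgebra ℂ H) : tr' (x + y) = tr' x + tr' y := MonoidAlgebra.mapDomain_add ..

theorem tr'_smul (t : ℂ) (x : MonoidAlgebra ℂ H) : tr' (t • x) = t • tr' x := by
  induction x using MonoidAlgebra.induction_linear with
  | zero => rw [smul_zero, tr'_zero, smul_zero]
  | add x y hx hy => rw [smul_add, tr'_add, hx, hy, tr'_add, smul_add]
  | single h s => rw [smul_single, tr'_single, tr'_single, smul_single]

theorem tr'_mul (x y : MonoidAlgebra ℂ H) : tr' (x * y) = tr' y * tr' x := by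
  induction x using MonoidAlgebra.induction_linear with
  | zero => rw [zero_mul, tr'_zero, mul_zero]
  | add x x' hx hx' => rw [add_mul, tr'_add, hx, hx', tr'_add, mul_add]
  | single h s =>
    induction y using MonoidAlgebra.induction_linear with
    | zero => rw [mul_zero, tr'_zero, zero_mul]
    | add y y' hy hy' => rw [mul_add, tr'_add, hy, hy', tr'_add, add_mul]
    | single k t => rw [single_mul_single, tr'_single, tr'_single, tr'_single, single_mul_single, mul_inv_rev,
        mul_comm s t]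

theorem tr'_coeff (x : MonoidAlgebra ℂ H) (h : H) : (tr' x).coeff h = x.coeff h⁻¹ := by
  classical
  induction x using MonoidAlgebra.induction_linear with
  | zero => rw [tr'_zero]; rfl
  | add x y hx hy =>
    rw [tr'_add, coeff_add, coeff_add, Finsupp.add_apply, Finsupp.add_apply, hx, hy]
  | single k t =>
    rw [tr'_single, coeff_single, coeff_single, Finsupp.single_apply, Finsupp.single_apply]
    by_cases h1 : k⁻¹ = h
    · rw [if_pos h1, if_pos (by rw [← h1, inv_inv])]
    · rw [if_neg h1, if_neg (fun h2 => h1 (by rw [h2, inv_inv]))]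

/-- The centre of the group algebra is reduced. -/
theorem sa_reduced [Finite H] {z : MonoidAlgebra ℂ H} (hz : ∀ x, z * x = x * z) (hn : IsNilpotent z) : z = 0 := by
  haveI : NeZero (Nat.card H : ℂ) := ⟨by exact_mod_cast Nat.card_pos.ne'⟩
  obtain ⟨J, hJ⟩ := exists_isCompl (Ideal.span {z} : Submodule (MonoidAlgebra ℂ H) (MonoidAlgebra ℂ H))
  have h1 : (1 : MonoidAlgebra ℂ H) ∈ (Ideal.span {z} : Submodule (MonoidAlgebra ℂ H) (MonoidAlgebra ℂ H)) ⊔ J := by
    rw [hJ.sup_eq_top]
    trivial
  obtain ⟨u, hu, v, hv, huv⟩ := Submodule.mem_sup.1 h1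
  obtain ⟨a, ha⟩ := Ideal.mem_span_singleton'.1 hu
  have h2 : z * v = 0 := by
    have h3 : z * v ∈ (Ideal.span {z} : Submodule (MonoidAlgebra ℂ H) (MonoidAlgebra ℂ H)) := by
      rw [hz v]
      exact Ideal.mem_span_singleton'.2 ⟨v, rfl⟩
    have h4 : z * v ∈ J := J.smul_mem z hv
    exact (Submodule.disjoint_def.1 hJ.disjoint) _ h3 h4
  have h5 : z = a * z * z := by
    calc z = z * 1 := (mul_one z).symm
      _ = z * u + z * v := by rw [← huv, mul_add]
      _ = a * z * z := by rw [h2, add_zero, ← ha, hz (a * z)]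
  have h6 : ∀ k : ℕ, z = a ^ k * z ^ (k + 1) := by
    intro k
    induction k with
    | zero => rw [pow_zero, one_mul, zero_add, pow_one]
    | succ k ih =>
      calc z = a ^ k * z ^ (k + 1) := ih
        _ = a ^ k * (z ^ k * (a * z * z)) := by rw [← h5, ← pow_succ]
        _ = a ^ (k + 1) * z ^ (k + 1 + 1) := by
          have h7 : z ^ k * a = a * z ^ k := ((show Commute z a from hz a).pow_left k).eq
          rw [← mul_assoc (z ^ k), ← mul_assoc (z ^ k), h7, pow_succ, pow_succ, pow_succ]
          simp only [mul_assoc]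
  obtain ⟨k, hk⟩ := hn
  rw [h6 k, pow_succ, hk, zero_mul, mul_zero]

/-- The algebra of the self-adjoint central elements. -/
noncomputable def Zp (H : Type) [Group H] : Subalgebra ℂ (Subalgebra.center ℂ (MonoidAlgebra ℂ H)) where
  carrier := {z | tr' z.1 = z.1}
  mul_mem' := fun {x y} hx hy => by
    change tr' (x.1 * y.1) = x.1 * y.1
    rw [tr'_mul, hx, hy, (Subalgebra.mem_center_iff.1 x.2 y.1)]
  add_mem' := fun {x y} hx hy => by
    change tr' (x.1 + y.1) = x.1 + y.1
    rw [tr'_add, hx, hy]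
  algebraMap_mem' := fun t => by
    change tr' (algebraMap ℂ (MonoidAlgebra ℂ H) t) = algebraMap ℂ (MonoidAlgebra ℂ H) t
    have h1 : algebraMap ℂ (MonoidAlgebra ℂ H) t = single 1 t := by
      rw [Algebra.algebraMap_eq_smul_one, one_def, smul_single, smul_eq_mul, mul_one]
    rw [h1, tr'_single, inv_one]

/-- The idempotents of a reduced commutative algebra. -/
theorem idem_of_reduced (R : Type) [CommRing R] [Algebra ℂ R] [Module.Finite ℂ R] [IsReduced R] :
    ∃ (I : Type) (_ : Fintype I) (e : I → R), ∑ i, e i = 1 ∧ (∀ i, e i * e i = e i) ∧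
      (∀ i j, i ≠ j → e i * e j = 0) ∧ (∀ i, e i ≠ 0) ∧ ∀ i z, ∃ t : ℂ, z * e i = t • e i := by
  classical
  haveI : IsArtinianRing R := IsArtinianRing.of_finite ℂ R
  let Φ := IsArtinianRing.equivPi R
  haveI : Fintype (MaximalSpectrum R) := Fintype.ofFinite _
  let e : MaximalSpectrum R → R := fun i => Φ.symm (Pi.single i 1)
  have hΦe : ∀ i, Φ (e i) = Pi.single i 1 := fun i => AlgEquiv.apply_symm_apply _ _
  refine ⟨MaximalSpectrum R, inferInstance, e, ?_, fun i => ?_, fun i j hij => ?_, fun i h1 => ?_, fun i z => ?_⟩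
  · apply Φ.injective
    rw [map_sum, map_one]
    simp only [hΦe]
    exact Finset.univ_sum_single (1 : ∀ I : MaximalSpectrum R, R ⧸ I.asIdeal)
  · apply Φ.injective
    rw [map_mul, hΦe, ← Pi.single_mul, mul_one]
  · apply Φ.injective
    rw [map_mul, hΦe, hΦe, map_zero]
    funext k
    rw [Pi.mul_apply, Pi.zero_apply]
    by_cases hk : k = i
    · subst hk
      rw [Pi.single_eq_of_ne (i := j) (i' := k) hij, mul_zero]
    · rw [Pi.single_eq_of_ne hk, zero_mul]
  · have h2 := hΦe i
    rw [h1, map_zero] at h2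
    have h3 := congrFun h2 i
    rw [Pi.single_eq_same, Pi.zero_apply] at h3
    haveI := i.isMaximal
    haveI : Nontrivial (R ⧸ i.asIdeal) := Ideal.Quotient.nontrivial_iff.2 i.isMaximal.ne_top
    exact zero_ne_one h3
  · haveI := i.isMaximal
    letI : Field (R ⧸ i.asIdeal) := Ideal.Quotient.field _
    haveI : Module.Finite ℂ (R ⧸ i.asIdeal) := Module.Finite.of_surjective
      (Ideal.Quotient.mkₐ ℂ i.asIdeal).toLinearMap (Ideal.Quotient.mkₐ_surjective ℂ i.asIdeal)
    haveI : Algebra.IsIntegral ℂ (R ⧸ i.asIdeal) := Algebra.IsIntegral.of_finite ℂ _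
    obtain ⟨t, ht⟩ := (IsAlgClosed.algebraMap_bijective_of_isIntegral (k := ℂ) (K := R ⧸ i.asIdeal)).2
      (Ideal.Quotient.mk _ z)
    refine ⟨t, ?_⟩
    apply Φ.injective
    rw [map_mul, hΦe]
    have h2 : Φ (t • e i) = t • Φ (e i) := by
      have h3 : t • e i = (algebraMap ℂ R t) • e i := by rw [algebraMap_smul]
      rw [h3, map_smul, algebraMap_smul]
    rw [h2, hΦe]
    funext k
    rw [Pi.mul_apply, Pi.smul_apply]
    by_cases hk : k = i
    · subst hk
      rw [Pi.single_eq_same, mul_one]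
      change Ideal.Quotient.mk _ z = _
      rw [← ht, Algebra.algebraMap_eq_smul_one]
    · rw [Pi.single_eq_of_ne hk, mul_zero, smul_zero]

theorem exists_idem (H : Type) [Group H] [Finite H] : ∃ (I : Type) (_ : Fintype I) (e : I → MonoidAlgebra ℂ H),
    (∀ i x, e i * x = x * e i) ∧ (∀ i, tr' (e i) = e i) ∧ ∑ i, e i = 1 ∧ (∀ i, e i * e i = e i) ∧
      (∀ i j, i ≠ j → e i * e j = 0) ∧ (∀ i, e i ≠ 0) ∧
      ∀ i z, (∀ x, z * x = x * z) → tr' z = z → ∃ t : ℂ, z * e i = t • e i := by
  classical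
  haveI : Module.Finite ℂ (MonoidAlgebra ℂ H) := by
    infer_instance
  haveI : FiniteDimensional ℂ (Subalgebra.center ℂ (MonoidAlgebra ℂ H)) := FiniteDimensional.finiteDimensional_subalgebra _
  haveI : FiniteDimensional ℂ (Zp H) := FiniteDimensional.finiteDimensional_subalgebra _
  haveI : IsReduced (Zp H) := ⟨fun z hz => by
    obtain ⟨k, hk⟩ := hz
    have h1 : z.1.1 = 0 := sa_reduced (fun x => (Subalgebra.mem_center_iff.1 z.1.2 x).symm)
      ⟨k, by
        have h2 := congrArg (fun w : Zp H => w.1.1) hk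
        exact h2⟩
    exact Subtype.ext (Subtype.ext h1)⟩
  obtain ⟨I, hI, e, h1, h2, h3, h4, h5⟩ := idem_of_reduced (Zp H)
  refine ⟨I, hI, fun i => (e i).1.1, fun i x => ?_, fun i => (e i).2, ?_,
    fun i => ?_, fun i j hij => ?_, fun i => ?_, fun i z hz hz' => ?_⟩
  · exact (Subalgebra.mem_center_iff.1 (e i).1.2 x).symm
  · have h6 := congrArg (fun w : Zp H => w.1.1) h1
    simp only [AddSubmonoidClass.coe_finset_sum] at h6
    exact h6
  · exact congrArg (fun w : Zp H => w.1.1) (h2 i)
  · exact congrArg (fun w : Zp H => w.1.1) (h3 i j hij)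
  · intro h
    exact h4 i (Subtype.ext (Subtype.ext h))
  · obtain ⟨t, ht⟩ := h5 i ⟨⟨z, Subalgebra.mem_center_iff.2 fun x => (hz x).symm⟩, hz'⟩
    exact ⟨t, congrArg (fun w : Zp H => w.1.1) ht⟩

end Pool.Agent.BM
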