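import Pool.Agent.Lib.MP_943dad_ag.BM.Nondeg

set_option linter.all false

/-!
# The cup product exists: primitives which vanish on the loops around the branch points
-/

namespace Pool.Agent.BM

open Pool.Agent.HMv

section general

variable {F H : Type} [Group F] [Group H] {φ : F →* H} {u v P : F → ℂ}

theorem AddK.pow (hu : AddK φ u) {r : F} (hr : φ r = 1) (m : ℕ) : u (r ^ m) = m * u r := by
  induction m with
  | zero => rw [pow_zero, hu.one]; simp
  | succ m ih => rw [pow_succ, hu _ _ (by rw [map_pow, hr, one_pow]) hr, ih]; push_cast; ring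

theorem PrimK.pow (hu : AddK φ u) (hP : PrimK φ u v P) {r : F} (hr : φ r = 1) (h1 : u r = 0) (m : ℕ) :
    P (r ^ m) = m * P r := by
  induction m with
  | zero => rw [pow_zero, PrimK.one hu hP]; simp
  | succ m ih =>
    rw [pow_succ, hP _ _ (by rw [map_pow, hr, one_pow]) hr, ih, hu.pow hr, h1]
    push_cast
    ring

end general

variable {H : Type} [Group H] [Fintype H] {g n : ℕ}

/-- There is an additive function on the kernel with given values at the loops around the branch points. -/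
theorem prim_fix {φ : F g n →* H} (hs : Function.Surjective φ) {f f' : Coh φ} {P : F g n → ℂ}
    (hP : PrimK φ f.1 f'.1 P) : ∃ Q : F g n → ℂ, AddK φ Q ∧ ∀ (x : F g n) (j : Fin n),
      Q (x * c g j ^ orderOf (φ (c g j)) * x⁻¹) = P (x * c g j ^ orderOf (φ (c g j)) * x⁻¹) := by
  classical
  set s := Function.surjInv hs with hs0
  have hs1 : ∀ h, φ (s h) = h := Function.surjInv_eq hs
  obtain ⟨D, hD, ht⟩ := exists_crossed φ (fun t : (Fin g × Bool) ⊕ Fin n => fun h : H =>
    Sum.elim (fun _ : Fin g × Bool => (0 : ℂ)) (fun j : Fin n => (1 / (orderOf (φ (c g j)) : ℂ)) *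
      P (s h⁻¹ * c g j ^ orderOf (φ (c g j)) * (s h⁻¹)⁻¹)) t)
  have hpow : ∀ (j : Fin n) (m : ℕ) (h : H), D (c g j ^ m) h =
      ∑ i ∈ Finset.range m, D (c g j) (φ (c g j) ^ i * h) := by
    intro j m
    induction m with
    | zero => intro h; rw [pow_zero, D_one hD, Finset.range_zero, Finset.sum_empty]
    | succ m ih =>
      intro h
      rw [pow_succ', hD, ih, Finset.sum_range_succ, map_pow]
      ring
  refine ⟨fun x => D x 1, fun x y hx hy => ?_, fun x j => ?_⟩
  · simp only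
    rw [hD, hy, one_mul]
  · have ho : (orderOf (φ (c g j)) : ℂ) ≠ 0 := by
      have h3 : 0 < orderOf (φ (c g j)) := orderOf_pos _
      exact_mod_cast h3.ne'
    simp only
    rw [D_conj hD _ _ (c_ord φ j), hpow, mul_one]
    have h1 : ∀ i ∈ Finset.range (orderOf (φ (c g j))), D (c g j) (φ (c g j) ^ i * (φ x)⁻¹) =
        (1 / (orderOf (φ (c g j)) : ℂ)) * P (x * c g j ^ orderOf (φ (c g j)) * x⁻¹) := by
      intro i _
      have h2 : D (c g j) (φ (c g j) ^ i * (φ x)⁻¹) = (1 / (orderOf (φ (c g j)) : ℂ)) *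
          P (s (φ (c g j) ^ i * (φ x)⁻¹)⁻¹ * c g j ^ orderOf (φ (c g j)) *
            (s (φ (c g j) ^ i * (φ x)⁻¹)⁻¹)⁻¹) := by
        have h3 := ht (Sum.inr j) (φ (c g j) ^ i * (φ x)⁻¹)
        exact h3
      have h4 : φ (s (φ (c g j) ^ i * (φ x)⁻¹)⁻¹) = φ (x * (c g j ^ i)⁻¹) := by
        rw [hs1, map_mul, map_inv, map_pow]
        group
      rw [h2, PrimK.conj_eq (coh_addK f) (coh_addK f') hP (c_ord φ j) (fun x => coh_c f x j)
        (fun x => coh_c f' x j) h4]
      congr 2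
      have h5 : (c g j ^ i)⁻¹ * c g j ^ orderOf (φ (c g j)) * c g j ^ i = c g j ^ orderOf (φ (c g j)) := by
        rw [mul_assoc, ← pow_add, add_comm, pow_add, ← mul_assoc, inv_mul_cancel, one_mul]
      calc x * (c g j ^ i)⁻¹ * c g j ^ orderOf (φ (c g j)) * (x * (c g j ^ i)⁻¹)⁻¹
          = x * ((c g j ^ i)⁻¹ * c g j ^ orderOf (φ (c g j)) * c g j ^ i) * x⁻¹ := by group
        _ = _ := by rw [h5]
    rw [Finset.sum_congr rfl h1, Finset.sum_const, Finset.card_range, nsmul_eq_mul]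
    field_simp

/-- Primitives exist. -/
theorem exists_prim {φ : F g n →* H} (hs : Function.Surjective φ) (f f' : Coh φ) :
    ∃ Φ, IsPrim φ f f' Φ := by
  obtain ⟨P, hP⟩ := exists_primC f f'
  obtain ⟨Q, hQ, hQ1⟩ := prim_fix hs hP
  have hΦ : PrimK φ f.1 f'.1 (fun x => P x - Q x) := by
    intro x y hx hy
    simp only
    rw [hP _ _ hx hy, hQ _ _ hx hy]
    ring
  refine ⟨fun x => P x - Q x, hΦ, fun x j k hk => ?_⟩
  obtain ⟨m, rfl⟩ := orderOf_dvd_of_pow_eq_one hk
  have h1 : x * c g j ^ (orderOf (φ (c g j)) * m) * x⁻¹ = (x * c g j ^ orderOf (φ (c g j)) * x⁻¹) ^ m := by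
    rw [conj_pow, pow_mul]
  have h2 : φ (x * c g j ^ orderOf (φ (c g j)) * x⁻¹) = 1 := by
    rw [map_mul, map_mul, map_inv, c_ord φ j, mul_one, mul_inv_cancel]
  rw [h1]
  refine (PrimK.pow (coh_addK f) hΦ h2 (coh_c f x j) m).trans ?_
  rw [hQ1, sub_self, mul_zero]

theorem IsPrim.primK {φ : F g n →* H} {f f' : Coh φ} {Φ : F g n → ℂ} (h : IsPrim φ f f' Φ) :
    PrimK φ f.1 f'.1 Φ := h.1

theorem IsPrim.lam {φ : F g n →* H} {f f' : Coh φ} {Φ : F g n → ℂ} (h : IsPrim φ f f' Φ) (s : H → F g n) :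
    Lam φ s Φ = ∑ h, Φ (s h * R g n * (s h)⁻¹) := by
  rw [Lam]
  have h1 : ∀ (h : H) (j : Fin n), Φ (s h * c g j ^ orderOf (φ (c g j)) * (s h)⁻¹) = 0 :=
    fun k j => h.2 (s k) j _ (pow_orderOf_eq_one _)
  simp only [h1]
  simp

/-- The form is the cup product. -/
theorem isCup_form {φ : F g n →* H} (hs : Function.Surjective φ) (hR : φ (R g n) = 1) :
    IsCup φ (form hs hR) := by
  intro f f'
  refine ⟨exists_prim hs f f', fun Φ hΦ s h1 => ?_⟩
  rw [form_eq hs hR f f' hΦ.primK h1, hΦ.lam]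

/-- There is only one cup product. -/
theorem isCup_eq {φ : F g n →* H} (hs : Function.Surjective φ) (hR : φ (R g n) = 1)
    {ω : LinearMap.BilinForm ℂ (Coh φ)} (h : IsCup φ ω) : ω = form hs hR := by
  refine LinearMap.ext fun f => LinearMap.ext fun f' => ?_
  obtain ⟨⟨Φ, hΦ⟩, h2⟩ := h f f'
  rw [h2 Φ hΦ _ (Function.surjInv_eq hs), ← hΦ.lam, form_eq hs hR f f' hΦ.primK (Function.surjInv_eq hs)]

/-- There is a cup product. -/
theorem exists_cup {φ : F g n →* H} (hs : Function.Surjective φ) (hR : φ (R g n) = 1) :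
    ∃ ω : LinearMap.BilinForm ℂ (Coh φ), IsCup φ ω := ⟨_, isCup_form hs hR⟩

/-- The value by any primitive and any family of representatives. -/
theorem cup_eq {φ : F g n →* H} {ω : LinearMap.BilinForm ℂ (Coh φ)}
    (hω : IsCup φ ω) {f f' : Coh φ}
    {Φ : F g n → ℂ} (h : IsPrim φ f f' Φ) (x : H → F g n) (hx : Function.Bijective fun h => φ (x h)) :
    ω f f' = ∑ h, Φ (x h * R g n * (x h)⁻¹) := by
  set σ := Equiv.ofBijective _ hx with hσ
  have h1 : ∀ h, φ (x (σ.symm h)) = h := by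
    intro h
    exact σ.apply_symm_apply h
  rw [(hω f f').2 Φ h (fun h => x (σ.symm h)) h1]
  exact Equiv.sum_comp σ.symm (fun h => Φ (x h * R g n * (x h)⁻¹))

theorem cup_alt {φ : F g n →* H} (hs : Function.Surjective φ) (hR : φ (R g n) = 1)
    {ω : LinearMap.BilinForm ℂ (Coh φ)} (hω : IsCup φ ω) (f : Coh φ) : ω f f = 0 := by
  rw [isCup_eq hs hR hω]
  exact form_self hs hR f

theorem cup_inn {φ : F g n →* H} (hs : Function.Surjective φ) (hR : φ (R g n) = 1)
    {ω : LinearMap.BilinForm ℂ (Coh φ)} (hω : IsCup φ ω) (y : F g n)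
    (f f' : Coh φ) : ω (inn φ y f) (inn φ y f') = ω f f' := by
  rw [isCup_eq hs hR hω]
  exact form_inn hs hR y f f'

theorem cup_mon {φ : F g n →* H} (hs : Function.Surjective φ) (hR : φ (R g n) = 1)
    {ω : LinearMap.BilinForm ℂ (Coh φ)} (hω : IsCup φ ω) (α : Stab φ)
    (f f' : Coh φ) : ω (mon φ α f) (mon φ α f') = ω f f' := by
  rw [isCup_eq hs hR hω]
  exact form_mon hs hR α f f'

theorem cup_lam {φ : F g n →* H} (hs : Function.Surjective φ) (hR : φ (R g n) = 1)
    {ω : LinearMap.BilinForm ℂ (Coh φ)} (hω : IsCup φ ω) : ∀ (f f' : Coh φ) (P : F g n → ℂ),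
    PrimK φ f.1 f'.1 P → ∀ s : H → F g n, (∀ h, φ (s h) = h) → ω f f' = Lam φ s P := by
  intro f f' P hP s h1
  rw [isCup_eq hs hR hω]
  exact form_eq hs hR f f' hP h1

end Pool.Agent.BM
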