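import Mathlib

set_option linter.all false

/-!
# The inequality for the trace formula

`c : H → ℂ` a class function, idempotent under convolution, `c x⁻¹ = c x` (the coefficients of a central idempotent `e` of `ℂ[H]` fixed by
the linear inversion). Then `c` is real and `U c α β = k ^ 2 |H| τ(e e_β e_α)` satisfies `0 ≤ U ≤ k ^ 2 |H| c 1`, with equality
only if `c (α x) = c x` and `c (β x) = c x` for all `x`.
-/

namespace Pool.Agent.BM.Ineq

open Finset

variable {H : Type} [Group H] [Fintype H]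

/-- Convolution. -/
noncomputable def conv (f g : H → ℂ) (x : H) : ℂ := ∑ y, f y * g (y⁻¹ * x)

theorem conv_assoc (f g h : H → ℂ) : conv (conv f g) h = conv f (conv g h) := by
  funext x
  unfold conv
  simp only [Finset.sum_mul, Finset.mul_sum]
  rw [Finset.sum_comm]
  refine Finset.sum_congr rfl fun z _ => ?_
  refine (Fintype.sum_equiv (Equiv.mulLeft z) _ _ fun w => ?_).symm
  simp only [Equiv.coe_mulLeft, mul_inv_rev, inv_mul_cancel_left]
  rw [show w⁻¹ * (z⁻¹ * x) = w⁻¹ * z⁻¹ * x by group]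
  ring

theorem class_comm {K : Type} {g : H → K} (hg : ∀ x u, g (u * x * u⁻¹) = g x) (x y : H) : g (x * y) = g (y * x) := by
  have h := hg (x * y) y
  rw [← h]
  congr 1
  group

theorem conv_comm {g : H → ℂ} (hg : ∀ x u, g (u * x * u⁻¹) = g x) (f : H → ℂ) : conv g f = conv f g := by
  funext x
  unfold conv
  refine (Fintype.sum_equiv ((Equiv.inv H).trans (Equiv.mulLeft x)) _ _ fun y => ?_).symm
  simp only [Equiv.trans_apply, Equiv.inv_apply, Equiv.coe_mulLeft]
  rw [class_comm hg y⁻¹ x, show (x * y⁻¹)⁻¹ * x = y by group]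
  ring

/-- `c` is real. -/
theorem real_of_idem {c : H → ℂ} (hcl : ∀ x u, c (u * x * u⁻¹) = c x)
    (hid : ∀ x, ∑ y, c y * c (y⁻¹ * x) = c x) (hinv : ∀ x, c x⁻¹ = c x) (x : H) :
    (starRingEnd ℂ) (c x) = c x := by
  set b : H → ℂ := fun x => (starRingEnd ℂ) (c x) with hb
  have hbcl : ∀ x u, b (u * x * u⁻¹) = b x := fun x u => by simp only [hb, hcl]
  have hbinv : ∀ x, b x⁻¹ = b x := fun x => by simp only [hb, hinv]
  have hcc : conv c c = c := funext hid
  have hbb : conv b b = b := by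
    funext x
    simp only [conv, hb]
    rw [← hid x, map_sum]
    simp only [map_mul]
  have hcb : conv c b = conv b c := conv_comm hcl b
  set a : H → ℂ := conv c b with ha
  have hab : (fun x => (starRingEnd ℂ) (a x)) = a := by
    have h1 : (fun x => (starRingEnd ℂ) (conv c b x)) = conv b c := by
      funext x
      simp only [conv, hb, map_sum, map_mul, Complex.conj_conj]
    rw [← hcb, ← ha] at h1
    exact h1
  have hainv : ∀ x, a x⁻¹ = a x := by
    intro x
    have h1 : a x⁻¹ = conv b c x := by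
      rw [ha]
      unfold conv
      refine Fintype.sum_equiv (Equiv.mulLeft x) _ _ fun y => ?_
      simp only [Equiv.coe_mulLeft]
      rw [show (x * y)⁻¹ * x = y⁻¹ by group, hinv, ← hbinv (x * y), show (x * y)⁻¹ = y⁻¹ * x⁻¹ by group]
      ring
    rw [h1, ← hcb]
  have hca : conv c a = a := by
    rw [ha, ← conv_assoc, hcc]
  have haB : conv a b = a := by
    rw [ha, conv_assoc, hbb]
  have haa : conv a a = a := by
    calc conv a a = conv a (conv b c) := by rw [← hcb]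
      _ = conv (conv a b) c := (conv_assoc a b c).symm
      _ = conv a c := by rw [haB]
      _ = conv (conv b c) c := by rw [← hcb]
      _ = conv b (conv c c) := conv_assoc b c c
      _ = a := by rw [hcc, ← hcb]
  have hz : ∑ x, (c x - a x) * (starRingEnd ℂ) (c x - a x) = 0 := by
    have h1 : ∀ x, (c x - a x) * (starRingEnd ℂ) (c x - a x) =
        c x * b (x⁻¹ * 1) - c x * a (x⁻¹ * 1) - a x * b (x⁻¹ * 1) + a x * a (x⁻¹ * 1) := by
      intro x
      have h2 : (starRingEnd ℂ) (a x) = a x := congrFun hab x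
      rw [mul_one, hbinv, hainv, map_sub, h2]
      simp only [hb]
      ring
    rw [Finset.sum_congr rfl fun x _ => h1 x]
    rw [Finset.sum_add_distrib, Finset.sum_sub_distrib, Finset.sum_sub_distrib]
    have e1 : ∑ x, c x * b (x⁻¹ * 1) = a 1 := rfl
    have e2 : ∑ x, c x * a (x⁻¹ * 1) = a 1 := congrFun hca 1
    have e3 : ∑ x, a x * b (x⁻¹ * 1) = a 1 := congrFun haB 1
    have e4 : ∑ x, a x * a (x⁻¹ * 1) = a 1 := congrFun haa 1
    rw [e1, e2, e3, e4]
    ring
  have hz2 : ∀ x, c x = a x := by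
    have h3 : ∑ x, Complex.normSq (c x - a x) = 0 := by
      have h4 : ((∑ x, Complex.normSq (c x - a x) : ℝ) : ℂ) = 0 := by
        rw [← hz]
        push_cast
        refine Finset.sum_congr rfl fun x _ => ?_
        rw [Complex.mul_conj]
      exact_mod_cast h4
    rw [Finset.sum_eq_zero_iff_of_nonneg fun x _ => Complex.normSq_nonneg _] at h3
    intro x
    have h5 := h3 x (Finset.mem_univ _)
    rw [Complex.normSq_eq_zero] at h5
    exact sub_eq_zero.1 h5
  rw [hz2 x]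
  exact congrFun hab x

/-- Shifting a sum over a cyclic group. -/
theorem sum_shift (φ : H → ℝ) (g : H) (m : ℕ) :
    ∑ i ∈ range (Fintype.card H), φ (g ^ i * g ^ m) = ∑ i ∈ range (Fintype.card H), φ (g ^ i) := by
  induction m with
  | zero => simp
  | succ m ih =>
    rw [← ih]
    have h1 : ∀ i, φ (g ^ i * g ^ (m + 1)) = φ (g ^ (i + 1) * g ^ m) := fun i => by
      rw [← pow_add, ← pow_add]
      congr 2
      ring
    rw [Finset.sum_congr rfl fun i _ => h1 i]
    have h2 := Finset.sum_range_succ' (fun i => φ (g ^ i * g ^ m)) (Fintype.card H)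
    have h3 := Finset.sum_range_succ (fun i => φ (g ^ i * g ^ m)) (Fintype.card H)
    rw [pow_card_eq_one] at h3
    simp only [pow_zero] at h2 h3
    linarith

theorem sum_shift_inv (φ : H → ℝ) (g : H) (m : ℕ) :
    ∑ i ∈ range (Fintype.card H), φ (g ^ i * (g ^ m)⁻¹) = ∑ i ∈ range (Fintype.card H), φ (g ^ i) := by
  have h : (g ^ m)⁻¹ = g ^ ((Fintype.card H - 1) * m) := by
    rw [inv_eq_iff_mul_eq_one, ← pow_add]
    have : m + (Fintype.card H - 1) * m = Fintype.card H * m := by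
      obtain ⟨t, ht⟩ : ∃ t, Fintype.card H = t + 1 := ⟨Fintype.card H - 1, by
        have := Fintype.card_pos (α := H); omega⟩
      rw [ht]
      simp
      ring
    rw [this, pow_mul, pow_card_eq_one, one_pow]
  rw [h]
  exact sum_shift φ g _

/-- The real form. -/
theorem real_ineq {r : H → ℝ} (hcl : ∀ x u, r (u * x * u⁻¹) = r x)
    (hid : ∀ x, ∑ y, r y * r (y⁻¹ * x) = r x) (hinv : ∀ x, r x⁻¹ = r x) (α β : H) :
    0 ≤ ∑ i ∈ range (Fintype.card H), ∑ j ∈ range (Fintype.card H), r (β ^ i * α ^ j) ∧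
    ∑ i ∈ range (Fintype.card H), ∑ j ∈ range (Fintype.card H), r (β ^ i * α ^ j) ≤ (Fintype.card H : ℝ) ^ 2 * r 1 ∧
    (∑ i ∈ range (Fintype.card H), ∑ j ∈ range (Fintype.card H), r (β ^ i * α ^ j) = (Fintype.card H : ℝ) ^ 2 * r 1 →
      (∀ x, r (α * x) = r x) ∧ ∀ x, r (β * x) = r x) := by
  set k := Fintype.card H with hk
  have hk0 : 0 < k := Fintype.card_pos
  have hkr : (0 : ℝ) < (k : ℝ) := by exact_mod_cast hk0
  set W := ∑ i ∈ range k, ∑ j ∈ range k, r (β ^ i * α ^ j) with hW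
  have gram : ∀ g g' : H, ∑ y, r (y * g) * r (y * g') = r (g'⁻¹ * g) := by
    intro g g'
    rw [← hid (g'⁻¹ * g)]
    refine Fintype.sum_equiv (Equiv.mulRight g) _ _ fun y => ?_
    simp only [Equiv.coe_mulRight]
    rw [← hinv (y * g'), show (y * g')⁻¹ = g'⁻¹ * g * (y * g)⁻¹ by group,
      class_comm hcl (g'⁻¹ * g) (y * g)⁻¹]
  set I := range k ×ˢ range k with hI
  set v : ℕ × ℕ → H → ℝ := fun p y => r (y * (β ^ p.1 * α ^ p.2)) with hv
  have hIc : (I.card : ℝ) = (k : ℝ) ^ 2 := by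
    rw [hI, Finset.card_product, Finset.card_range]
    push_cast
    ring
  have hgq : ∀ q : ℕ × ℕ, ∑ p ∈ I, r ((β ^ q.1 * α ^ q.2)⁻¹ * (β ^ p.1 * α ^ p.2)) = W := by
    intro q
    rw [hI, Finset.sum_product]
    have h1 : ∀ i j : ℕ, r ((β ^ q.1 * α ^ q.2)⁻¹ * (β ^ i * α ^ j)) = r (β ^ i * (β ^ q.1)⁻¹ * (α ^ j * (α ^ q.2)⁻¹)) := by
      intro i j
      have e1 : β ^ i * (β ^ q.1)⁻¹ = (β ^ q.1)⁻¹ * β ^ i := by
        have : Commute (β ^ i) (β ^ q.1)⁻¹ := ((Commute.refl β).pow_pow i q.1).inv_right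
        exact this
      rw [e1, show (β ^ q.1 * α ^ q.2)⁻¹ * (β ^ i * α ^ j) = (α ^ q.2)⁻¹ * ((β ^ q.1)⁻¹ * β ^ i * α ^ j) by group,
        class_comm hcl (α ^ q.2)⁻¹]
      congr 1
      group
    have h2 : ∀ i, ∑ j ∈ range k, r ((β ^ q.1 * α ^ q.2)⁻¹ * (β ^ i * α ^ j)) =
        ∑ j ∈ range k, r (β ^ i * (β ^ q.1)⁻¹ * α ^ j) := by
      intro i
      rw [Finset.sum_congr rfl fun j _ => h1 i j]
      exact sum_shift_inv (fun z => r (β ^ i * (β ^ q.1)⁻¹ * z)) α q.2
    rw [Finset.sum_congr rfl fun i _ => h2 i]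
    exact sum_shift_inv (fun z => ∑ j ∈ range k, r (z * α ^ j)) β q.1
  have hN : ∑ y, (∑ p ∈ I, v p y) ^ 2 = (k : ℝ) ^ 2 * W := by
    have h1 : ∀ y, (∑ p ∈ I, v p y) ^ 2 = ∑ q ∈ I, ∑ p ∈ I, v p y * v q y := by
      intro y
      rw [sq, Finset.mul_sum]
      refine Finset.sum_congr rfl fun q _ => ?_
      rw [Finset.sum_mul]
    rw [Finset.sum_congr rfl fun y _ => h1 y, Finset.sum_comm]
    have h2 : ∀ q ∈ I, ∑ y, ∑ p ∈ I, v p y * v q y = W := by
      intro q _
      rw [Finset.sum_comm]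
      rw [Finset.sum_congr rfl fun p _ => gram (β ^ p.1 * α ^ p.2) (β ^ q.1 * α ^ q.2)]
      exact hgq q
    rw [Finset.sum_congr rfl h2, Finset.sum_const, nsmul_eq_mul, hIc]
  have hdiag : ∀ p : ℕ × ℕ, ∑ y, v p y ^ 2 = r 1 := by
    intro p
    have h := gram (β ^ p.1 * α ^ p.2) (β ^ p.1 * α ^ p.2)
    rw [inv_mul_cancel] at h
    rw [← h]
    refine Finset.sum_congr rfl fun y _ => ?_
    simp only [hv]
    ring
  have hD : ∑ p ∈ I, ∑ q ∈ I, ∑ y, (v p y - v q y) ^ 2 = 2 * ((k : ℝ) ^ 4 * r 1) - 2 * ((k : ℝ) ^ 2 * W) := by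
    have h1 : ∀ p q : ℕ × ℕ, ∑ y, (v p y - v q y) ^ 2 = 2 * r 1 - 2 * ∑ y, v p y * v q y := by
      intro p q
      have : ∑ y, (v p y - v q y) ^ 2 = ∑ y, v p y ^ 2 + ∑ y, v q y ^ 2 - 2 * ∑ y, v p y * v q y := by
        rw [Finset.mul_sum, ← Finset.sum_add_distrib, ← Finset.sum_sub_distrib]
        exact Finset.sum_congr rfl fun y _ => by ring
      rw [this, hdiag, hdiag]
      ring
    rw [Finset.sum_congr rfl fun p _ => Finset.sum_congr rfl fun q _ => h1 p q]
    simp only [Finset.sum_sub_distrib, Finset.sum_const, nsmul_eq_mul, ← Finset.mul_sum]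
    rw [hIc]
    have h2 : ∑ p ∈ I, ∑ q ∈ I, ∑ y, v p y * v q y = (k : ℝ) ^ 2 * W := by
      have h3 : ∀ y, (∑ p ∈ I, v p y) ^ 2 = ∑ p ∈ I, ∑ q ∈ I, v p y * v q y := by
        intro y
        rw [sq, Finset.sum_mul_sum]
      calc ∑ p ∈ I, ∑ q ∈ I, ∑ y, v p y * v q y = ∑ p ∈ I, ∑ y, ∑ q ∈ I, v p y * v q y :=
            Finset.sum_congr rfl fun p _ => Finset.sum_comm
        _ = ∑ y, ∑ p ∈ I, ∑ q ∈ I, v p y * v q y := Finset.sum_comm
        _ = ∑ y, (∑ p ∈ I, v p y) ^ 2 := Finset.sum_congr rfl fun y _ => (h3 y).symm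
        _ = _ := hN
    rw [h2]
    ring
  have hD0 : 0 ≤ ∑ p ∈ I, ∑ q ∈ I, ∑ y, (v p y - v q y) ^ 2 := by positivity
  have hN0 : 0 ≤ ∑ y, (∑ p ∈ I, v p y) ^ 2 := by positivity
  have hk2 : (0 : ℝ) < (k : ℝ) ^ 2 := by positivity
  refine ⟨?_, ?_, ?_⟩
  · rw [hN] at hN0
    exact nonneg_of_mul_nonneg_right hN0 hk2
  · rw [hD] at hD0
    have : (k : ℝ) ^ 2 * W ≤ (k : ℝ) ^ 2 * ((k : ℝ) ^ 2 * r 1) := by nlinarith
    exact le_of_mul_le_mul_left this hk2
  · intro hE
    have hz : ∑ p ∈ I, ∑ q ∈ I, ∑ y, (v p y - v q y) ^ 2 = 0 := by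
      rw [hD, hE]
      ring
    have hall : ∀ p ∈ I, ∀ q ∈ I, ∀ y, v p y = v q y := by
      intro p hp q hq y
      have h1 := (Finset.sum_eq_zero_iff_of_nonneg (s := I) (f := fun p => ∑ q ∈ I, ∑ y, (v p y - v q y) ^ 2)
        (fun p _ => Finset.sum_nonneg fun q _ => Finset.sum_nonneg fun y _ => sq_nonneg _)).1 hz p hp
      have h2 := (Finset.sum_eq_zero_iff_of_nonneg (s := I) (f := fun q => ∑ y, (v p y - v q y) ^ 2)
        (fun q _ => Finset.sum_nonneg fun y _ => sq_nonneg _)).1 h1 q hq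
      have h3 := (Finset.sum_eq_zero_iff_of_nonneg (s := Finset.univ) (f := fun y => (v p y - v q y) ^ 2)
        (fun y _ => sq_nonneg _)).1 h2 y (Finset.mem_univ _)
      exact sub_eq_zero.1 (pow_eq_zero_iff two_ne_zero |>.1 h3)
    rcases Nat.lt_or_ge k 2 with hk1 | hk2'
    · have hs : Subsingleton H := Fintype.card_le_one_iff_subsingleton.1 (by omega)
      exact ⟨fun x => by rw [Subsingleton.elim (α * x) x], fun x => by rw [Subsingleton.elim (β * x) x]⟩
    · have m00 : ((0, 0) : ℕ × ℕ) ∈ I := by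
        rw [hI]; simp; omega
      have m01 : ((0, 1) : ℕ × ℕ) ∈ I := by
        rw [hI]; simp; omega
      have m10 : ((1, 0) : ℕ × ℕ) ∈ I := by
        rw [hI]; simp; omega
      refine ⟨fun x => ?_, fun x => ?_⟩
      · have h := hall _ m01 _ m00 x
        simp only [hv, pow_zero, pow_one, one_mul, mul_one] at h
        rw [class_comm hcl, h]
      · have h := hall _ m10 _ m00 x
        simp only [hv, pow_zero, pow_one, one_mul, mul_one] at h
        rw [class_comm hcl, h]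

/-- The sum of the trace formula. -/
noncomputable def U (c : H → ℂ) (α β : H) : ℂ :=
  ∑ u : H, ∑ i ∈ range (Fintype.card H), ∑ j ∈ range (Fintype.card H), c (u * β ^ i * α ^ j * u⁻¹)

/-- The inequality and its case of equality. -/
theorem ineq {c : H → ℂ} (hcl : ∀ x u, c (u * x * u⁻¹) = c x)
    (hid : ∀ x, ∑ y, c y * c (y⁻¹ * x) = c x) (hinv : ∀ x, c x⁻¹ = c x) (α β : H) :
    ∃ s t : ℝ, c 1 = (s : ℂ) ∧ U c α β = (t : ℂ) ∧ 0 ≤ t ∧
      t ≤ (Fintype.card H : ℝ) ^ 2 * (Fintype.card H : ℝ) * s ∧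
      (t = (Fintype.card H : ℝ) ^ 2 * (Fintype.card H : ℝ) * s → (∀ x, c (α * x) = c x) ∧ ∀ x, c (β * x) = c x) := by
  have hreal := real_of_idem hcl hid hinv
  obtain ⟨r, hr⟩ : ∃ r : H → ℝ, ∀ x, c x = (r x : ℂ) :=
    ⟨fun x => (c x).re, fun x => ((Complex.conj_eq_iff_re.1 (hreal x))).symm⟩
  have rcl : ∀ x u, r (u * x * u⁻¹) = r x := fun x u => by
    have h := hcl x u
    rw [hr, hr] at h
    exact_mod_cast h
  have rid : ∀ x, ∑ y, r y * r (y⁻¹ * x) = r x := fun x => by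
    have h := hid x
    simp only [hr] at h
    exact_mod_cast h
  have rinv : ∀ x, r x⁻¹ = r x := fun x => by
    have h := hinv x
    rw [hr, hr] at h
    exact_mod_cast h
  obtain ⟨h0, h1, h2⟩ := real_ineq rcl rid rinv α β
  have hk0 : (0 : ℝ) < (Fintype.card H : ℝ) := by exact_mod_cast Fintype.card_pos (α := H)
  set W := ∑ i ∈ range (Fintype.card H), ∑ j ∈ range (Fintype.card H), r (β ^ i * α ^ j) with hW
  refine ⟨r 1, (Fintype.card H : ℝ) * W, hr 1, ?_, mul_nonneg hk0.le h0, ?_, ?_⟩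
  · unfold U
    have e1 : ∀ (u : H) (i j : ℕ), c (u * β ^ i * α ^ j * u⁻¹) = (r (β ^ i * α ^ j) : ℂ) := by
      intro u i j
      rw [show u * β ^ i * α ^ j * u⁻¹ = u * (β ^ i * α ^ j) * u⁻¹ by group, hcl, hr]
    simp only [e1, Finset.sum_const, Finset.card_univ, nsmul_eq_mul]
    rw [hW]
    push_cast
    rfl
  · have := mul_le_mul_of_nonneg_left h1 hk0.le
    calc _ ≤ _ := this
      _ = _ := by ring
  · intro h
    have h3 : W = (Fintype.card H : ℝ) ^ 2 * r 1 := by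
      have h4 : (Fintype.card H : ℝ) * W = (Fintype.card H : ℝ) * ((Fintype.card H : ℝ) ^ 2 * r 1) := by
        rw [h]; ring
      exact mul_left_cancel₀ hk0.ne' h4
    obtain ⟨h5, h6⟩ := h2 h3
    exact ⟨fun x => by rw [hr, hr, h5], fun x => by rw [hr, hr, h6]⟩

end Pool.Agent.BM.Ineq
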