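import Mathlib

set_option linter.all false

/-!
# Kernels of irreducible representations
-/

namespace Pool.Agent.BM

/-- `N` is the kernel of an irreducible complex representation of `H`. -/
def IrrK {H : Type} [Group H] (N : Subgroup H) : Prop :=
  ∃ (W : Type) (_ : AddCommGroup W) (_ : Module ℂ W) (ρ : H →* Module.End ℂ W), Nontrivial W ∧
    (∀ U : Submodule ℂ W, (∀ h, ∀ v ∈ U, ρ h v ∈ U) → U = ⊥ ∨ U = ⊤) ∧ ∀ h, h ∈ N ↔ ρ h = 1

variable {H V : Type} [Group H] [AddCommGroup V] [Module ℂ V]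

/-- The elements of `H` which fix all vectors of `U`. -/
def fixer (ρ : H →* Module.End ℂ V) (U : Submodule ℂ V) : Subgroup H where
  carrier := {h | ∀ v ∈ U, ρ h v = v}
  mul_mem' := fun {x y} hx hy w hw => by rw [map_mul, Module.End.mul_apply, hy w hw, hx w hw]
  one_mem' := fun w hw => by rw [map_one, Module.End.one_apply]
  inv_mem' := fun {x} hx w hw => by
    have h1 := hx w hw
    calc ρ x⁻¹ w = ρ x⁻¹ (ρ x w) := by rw [h1]
      _ = w := by rw [← Module.End.mul_apply, ← map_mul, inv_mul_cancel, map_one, Module.End.one_apply]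

theorem mem_fixer {ρ : H →* Module.End ℂ V} {U : Submodule ℂ V} {h : H} : h ∈ fixer ρ U ↔ ∀ v ∈ U, ρ h v = v :=
  Iff.rfl

theorem fixer_normal {ρ : H →* Module.End ℂ V} {U : Submodule ℂ V} (hU : ∀ h, ∀ v ∈ U, ρ h v ∈ U) :
    (fixer ρ U).Normal := ⟨fun x hx y => by
  rw [mem_fixer] at hx ⊢
  intro w hw
  rw [map_mul, map_mul, Module.End.mul_apply, Module.End.mul_apply, hx _ (hU _ _ hw), ← Module.End.mul_apply,
    ← map_mul, mul_inv_cancel, map_one, Module.End.one_apply]⟩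

/-- The representation on an invariant subspace. -/
def subrep (ρ : H →* Module.End ℂ V) {U : Submodule ℂ V} (hU : ∀ h, ∀ v ∈ U, ρ h v ∈ U) : H →* Module.End ℂ U where
  toFun h := (ρ h).restrict (hU h)
  map_one' := by
    refine LinearMap.ext fun v => Subtype.ext ?_
    change ρ 1 v.1 = v.1
    rw [map_one, Module.End.one_apply]
  map_mul' := fun x y => by
    refine LinearMap.ext fun v => Subtype.ext ?_
    change ρ (x * y) v.1 = ρ x (ρ y v.1)
    rw [map_mul, Module.End.mul_apply]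

theorem subrep_apply (ρ : H →* Module.End ℂ V) {U : Submodule ℂ V} (hU : ∀ h, ∀ v ∈ U, ρ h v ∈ U) (h : H) (v : U) :
    (subrep ρ hU h v).1 = ρ h v.1 := rfl

/-- A minimal invariant subspace. -/
theorem exists_min [FiniteDimensional ℂ V] (ρ : H →* Module.End ℂ V) (R : Submodule ℂ V)
    (hR : ∀ h, ∀ v ∈ R, ρ h v ∈ R) (hR0 : R ≠ ⊥) :
    ∃ W : Submodule ℂ V, W ≤ R ∧ W ≠ ⊥ ∧ (∀ h, ∀ v ∈ W, ρ h v ∈ W) ∧ IrrK (fixer ρ W) := by
  classical
  have wf : WellFounded ((· < ·) : Submodule ℂ V → Submodule ℂ V → Prop) := wellFounded_lt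
  obtain ⟨W, hW, hm⟩ := wf.has_min {W : Submodule ℂ V | W ≤ R ∧ W ≠ ⊥ ∧ ∀ h, ∀ v ∈ W, ρ h v ∈ W}
    ⟨R, le_rfl, hR0, hR⟩
  obtain ⟨hWR, hW0, hWρ⟩ := hW
  refine ⟨W, hWR, hW0, hWρ, W, inferInstance, inferInstance, subrep ρ hWρ, ?_, fun U hU => ?_, fun h => ?_⟩
  · exact Submodule.nontrivial_iff_ne_bot.2 hW0
  · by_cases hU0 : U = ⊥
    · exact Or.inl hU0
    · refine Or.inr ?_
      have h1 : U.map W.subtype ≤ W := by
        rintro _ ⟨u, -, rfl⟩
        exact u.2
      have h2 : U.map W.subtype = W := by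
        by_contra h4
        refine hm (U.map W.subtype) ⟨h1.trans hWR, ?_, ?_⟩ (lt_of_le_of_ne h1 h4)
        · intro h5
          apply hU0
          rw [eq_bot_iff]
          intro u hu
          have h6 : W.subtype u ∈ U.map W.subtype := ⟨u, hu, rfl⟩
          rw [h5, Submodule.mem_bot] at h6
          rw [Submodule.mem_bot]
          exact Subtype.ext h6
        · rintro h _ ⟨u, hu, rfl⟩
          exact ⟨subrep ρ hWρ h u, hU h u hu, rfl⟩
      rw [eq_top_iff]
      rintro ⟨w, hw⟩ -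
      rw [← h2] at hw
      obtain ⟨u, hu, h3⟩ := hw
      have h4 : u = ⟨w, h1 ⟨u, hu, h3⟩⟩ := Subtype.ext h3
      rw [← h4]
      exact hu
  · rw [mem_fixer]
    constructor
    · intro h1
      exact LinearMap.ext fun v => Subtype.ext (h1 v.1 v.2)
    · intro h1 v hv
      have h2 := congrArg Subtype.val (LinearMap.congr_fun h1 ⟨v, hv⟩)
      exact h2

/-- An invariant subspace other than `0` contains a vector other than `0` which is fixed by the kernel of an
irreducible representation. -/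
theorem exists_fix_irr [FiniteDimensional ℂ V] (ρ : H →* Module.End ℂ V) (R : Submodule ℂ V)
    (hR : ∀ h, ∀ v ∈ R, ρ h v ∈ R) (hR0 : R ≠ ⊥) :
    ∃ (N : Subgroup H) (_ : N.Normal), IrrK N ∧ ∃ v ∈ R, v ≠ 0 ∧ ∀ h ∈ N, ρ h v = v := by
  obtain ⟨W, h1, h2, h3, h4⟩ := exists_min ρ R hR hR0
  obtain ⟨w0, hw0, hw0'⟩ := Submodule.exists_mem_ne_zero_of_ne_bot h2
  exact ⟨fixer ρ W, fixer_normal h3, h4, w0, h1 hw0, hw0', fun h hh => hh w0 hw0⟩

variable [Fintype H]

/-- The symmetric class operators. -/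
noncomputable def Tcl (ρ : H →* Module.End ℂ V) (h : H) : Module.End ℂ V :=
  ∑ x : H, (ρ (x * h * x⁻¹) + ρ (x * h⁻¹ * x⁻¹))

theorem Tcl_comm (ρ : H →* Module.End ℂ V) (h y : H) : Tcl ρ h * ρ y = ρ y * Tcl ρ h := by
  have h1 : ∀ h : H, (∑ x : H, ρ (x * h * x⁻¹)) * ρ y = ρ y * ∑ x : H, ρ (x * h * x⁻¹) := by
    intro h
    rw [Finset.sum_mul, Finset.mul_sum, ← Equiv.sum_comp (Equiv.mulLeft y)]
    refine Finset.sum_congr rfl fun x _ => ?_
    rw [← map_mul, ← map_mul]
    congr 1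
    simp only [Equiv.coe_mulLeft]
    group
  unfold Tcl
  rw [Finset.sum_add_distrib, add_mul, mul_add, h1, h1]

theorem Tcl_comm' (ρ : H →* Module.End ℂ V) (h k : H) : Commute (Tcl ρ h) (Tcl ρ k) := by
  change Tcl ρ h * Tcl ρ k = Tcl ρ k * Tcl ρ h
  conv_lhs => rw [Tcl.eq_def ρ k]
  conv_rhs => rw [Tcl.eq_def ρ k]
  rw [Finset.mul_sum, Finset.sum_mul]
  refine Finset.sum_congr rfl fun x _ => ?_
  rw [mul_add, add_mul, Tcl_comm, Tcl_comm]

/-- If all symmetric class operators have only one eigenvalue, then the kernel is the kernel of an irreducible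
representation. -/
theorem irrK_top [FiniteDimensional ℂ V] [Nontrivial V] (ρ : H →* Module.End ℂ V)
    (hsc : ∀ h, ∃ μ : ℂ, IsNilpotent (Tcl ρ h - μ • (1 : Module.End ℂ V))) :
    ∃ N : Subgroup H, IrrK N ∧ ∀ h, h ∈ N ↔ ρ h = 1 := by
  classical
  choose μ hμ using hsc
  obtain ⟨W, -, hW0, hWρ, hW⟩ := exists_min ρ ⊤ (fun _ _ _ => trivial) top_ne_bot
  obtain ⟨w0, hw0, hw0'⟩ := Submodule.exists_mem_ne_zero_of_ne_bot hW0
  refine ⟨fixer ρ W, hW, ?_⟩
  have hnor : (fixer ρ W).Normal := fixer_normal hWρ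
  have hHc : (Fintype.card H : ℂ) ≠ 0 := by exact_mod_cast Fintype.card_ne_zero
  have hNc : (Fintype.card (fixer ρ W) : ℂ) ≠ 0 := by exact_mod_cast Fintype.card_ne_zero
  -- the eigenvalue
  have hTw : ∀ h ∈ fixer ρ W, Tcl ρ h w0 = (2 * Fintype.card H : ℂ) • w0 := by
    intro h hh
    unfold Tcl
    rw [LinearMap.sum_apply]
    have h1 : ∀ x : H, (ρ (x * h * x⁻¹) + ρ (x * h⁻¹ * x⁻¹)) w0 = (2 : ℂ) • w0 := by
      intro x
      rw [LinearMap.add_apply, mem_fixer.1 (hnor.conj_mem h hh x) w0 hw0,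
        mem_fixer.1 (hnor.conj_mem h⁻¹ (inv_mem hh) x) w0 hw0, two_smul]
    rw [Finset.sum_congr rfl fun x _ => h1 x, Finset.sum_const, Finset.card_univ, ← Nat.cast_smul_eq_nsmul ℂ,
      smul_smul, mul_comm]
  have hμ2 : ∀ h ∈ fixer ρ W, μ h = 2 * Fintype.card H := by
    intro h hh
    obtain ⟨k, hk⟩ := hμ h
    have h1 : ∀ k : ℕ, ((Tcl ρ h - μ h • (1 : Module.End ℂ V)) ^ k) w0 = ((2 * Fintype.card H - μ h : ℂ)) ^ k • w0 := by
      intro k
      induction k with
      | zero => rw [pow_zero, pow_zero, Module.End.one_apply, one_smul]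
      | succ k ih =>
        rw [pow_succ, Module.End.mul_apply, LinearMap.sub_apply, hTw h hh, LinearMap.smul_apply, Module.End.one_apply,
          ← sub_smul, map_smul, ih, smul_smul, pow_succ, mul_comm]
    have h2 := h1 k
    rw [hk, LinearMap.zero_apply] at h2
    have h3 := (smul_eq_zero.1 h2.symm).resolve_right hw0'
    rcases Nat.eq_zero_or_pos k with h5 | h5
    · rw [h5, pow_zero] at h3
      exact absurd h3 one_ne_zero
    · exact (sub_eq_zero.1 (pow_eq_zero_iff h5.ne' |>.1 h3)).symm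
  -- the average
  set A : Module.End ℂ V := (Fintype.card (fixer ρ W) : ℂ)⁻¹ • ∑ x : fixer ρ W, ρ x.1 with hA
  have hAx : ∀ x ∈ fixer ρ W, ρ x * A = A := by
    intro x hx
    rw [hA, mul_smul_comm, Finset.mul_sum]
    congr 1
    exact Fintype.sum_equiv (Equiv.mulLeft (⟨x, hx⟩ : fixer ρ W)) _ _ (fun y => by rw [← map_mul]; rfl)
  have hAA : A * A = A := by
    conv_lhs => rw [hA, smul_mul_assoc, Finset.sum_mul]
    rw [Finset.sum_congr rfl fun x _ => hAx x.1 x.2, Finset.sum_const, Finset.card_univ, ← Nat.cast_smul_eq_nsmul ℂ,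
      smul_smul, inv_mul_cancel₀ hNc, one_smul]
  have hS : ∑ x : fixer ρ W, Tcl ρ x.1 = (2 * Fintype.card H : ℂ) • ∑ x : fixer ρ W, ρ x.1 := by
    unfold Tcl
    rw [Finset.sum_comm]
    have h1 : ∀ y : H, ∑ x : fixer ρ W, (ρ (y * x.1 * y⁻¹) + ρ (y * x.1⁻¹ * y⁻¹)) =
        (2 : ℂ) • ∑ x : fixer ρ W, ρ x.1 := by
      intro y
      rw [Finset.sum_add_distrib, two_smul]
      congr 1
      · exact Fintype.sum_equiv (MulAut.conjNormal (H := fixer ρ W) y).toEquiv _ _ (fun x => rfl)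
      · exact Fintype.sum_equiv ((Equiv.inv (fixer ρ W)).trans (MulAut.conjNormal (H := fixer ρ W) y).toEquiv) _ _
          (fun x => rfl)
    rw [Finset.sum_congr rfl fun y _ => h1 y, Finset.sum_const, Finset.card_univ, ← Nat.cast_smul_eq_nsmul ℂ,
      smul_smul, mul_comm]
  have hA1 : A - 1 = ∑ x : fixer ρ W, ((2 * Fintype.card H : ℂ)⁻¹ * (Fintype.card (fixer ρ W) : ℂ)⁻¹) •
      (Tcl ρ x.1 - μ x.1 • (1 : Module.End ℂ V)) := by
    have h0 : ∑ x : fixer ρ W, μ x.1 • (1 : Module.End ℂ V) =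
        ((Fintype.card (fixer ρ W) : ℂ) * (2 * Fintype.card H : ℂ)) • (1 : Module.End ℂ V) := by
      have h1 : ∀ x : fixer ρ W, μ x.1 • (1 : Module.End ℂ V) = (2 * Fintype.card H : ℂ) • (1 : Module.End ℂ V) :=
        fun x => by rw [hμ2 x.1 x.2]
      rw [Finset.sum_congr rfl fun x _ => h1 x, Finset.sum_const, Finset.card_univ, ← Nat.cast_smul_eq_nsmul ℂ,
        smul_smul]
    rw [← Finset.smul_sum, Finset.sum_sub_distrib, hS, h0, smul_sub, smul_smul, smul_smul, hA]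
    have h2 : ((2 * Fintype.card H : ℂ)⁻¹ * (Fintype.card (fixer ρ W) : ℂ)⁻¹ *
        ((Fintype.card (fixer ρ W) : ℂ) * (2 * Fintype.card H : ℂ))) = 1 := by
      field_simp
    have h3 : ((2 * Fintype.card H : ℂ)⁻¹ * (Fintype.card (fixer ρ W) : ℂ)⁻¹ * (2 * Fintype.card H : ℂ)) =
        (Fintype.card (fixer ρ W) : ℂ)⁻¹ := by
      field_simp
    rw [h2, h3, one_smul]
  have hnil : IsNilpotent (A - 1) := by
    rw [hA1]
    refine Commute.isNilpotent_sum (fun x _ => (hμ x.1).smul _) (fun x y _ _ => ?_)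
    refine Commute.smul_left (Commute.smul_right ?_ _) _
    have h1 := Tcl_comm' ρ x.1 y.1
    exact ((h1.sub_left ((Commute.one_left _).smul_left _)).sub_right
      (((Commute.one_right _).smul_right _)))
  have hA2 : A = 1 := by
    have h1 : (A - 1) * (A - 1) = -(A - 1) := by
      rw [sub_mul, mul_sub, hAA]
      noncomm_ring
    have h2 : ∀ k : ℕ, (A - 1) ^ (k + 1) = (-1) ^ k * (A - 1) := by
      intro k
      induction k with
      | zero => rw [zero_add, pow_one, pow_zero, one_mul]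
      | succ k ih => rw [pow_succ, ih, mul_assoc, h1, pow_succ, mul_neg, mul_neg, mul_one, neg_mul]
    obtain ⟨k, hk⟩ := hnil
    have h3 := h2 k
    rw [pow_succ, hk, zero_mul] at h3
    exact sub_eq_zero.1 (neg_one_pow_mul_eq_zero_iff.1 h3.symm)
  intro h
  constructor
  · intro hh
    have h1 := hAx h hh
    rwa [hA2, mul_one] at h1
  · intro hh
    rw [mem_fixer]
    intro v _
    rw [hh, Module.End.one_apply]

/-- The kernel on an invariant subspace on which all symmetric class operators have only one eigenvalue is the kernel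
of an irreducible representation. -/
theorem irrK_block [FiniteDimensional ℂ V] (ρ : H →* Module.End ℂ V) (U : Submodule ℂ V)
    (hU : ∀ h, ∀ v ∈ U, ρ h v ∈ U) (hU0 : U ≠ ⊥)
    (hsc : ∀ h, ∃ μ : ℂ, ∀ v ∈ U, ∃ k : ℕ, ((Tcl ρ h - μ • (1 : Module.End ℂ V)) ^ k) v = 0) : IrrK (fixer ρ U) := by
  haveI : Nontrivial U := Submodule.nontrivial_iff_ne_bot.2 hU0
  have hT : ∀ h (v : U), (Tcl (subrep ρ hU) h v).1 = Tcl ρ h v.1 := by
    intro h v
    unfold Tcl
    rw [LinearMap.sum_apply, LinearMap.sum_apply, Submodule.coe_sum]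
    rfl
  have hTk : ∀ (h : H) (μ : ℂ) (k : ℕ) (v : U), (((Tcl (subrep ρ hU) h - μ • (1 : Module.End ℂ U)) ^ k) v).1 =
      ((Tcl ρ h - μ • (1 : Module.End ℂ V)) ^ k) v.1 := by
    intro h μ k
    induction k with
    | zero => intro v; rfl
    | succ k ih =>
      intro v
      rw [pow_succ, pow_succ, Module.End.mul_apply, Module.End.mul_apply, ih]
      congr 1
      change (Tcl (subrep ρ hU) h v).1 - μ • v.1 = Tcl ρ h v.1 - μ • v.1
      rw [hT]
  obtain ⟨N, hN, hN1⟩ := irrK_top (subrep ρ hU) fun h => by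
    obtain ⟨μ, hμ⟩ := hsc h
    refine ⟨μ, ?_⟩
    have h1 : ∀ v : U, ∃ k : ℕ, ((Tcl (subrep ρ hU) h - μ • (1 : Module.End ℂ U)) ^ k) v = 0 := by
      intro v
      obtain ⟨k, hk⟩ := hμ v.1 v.2
      exact ⟨k, Subtype.ext (by rw [hTk, hk]; rfl)⟩
    have h2 : Module.End.maxGenEigenspace (Tcl (subrep ρ hU) h) μ = ⊤ := by
      rw [eq_top_iff]
      intro v _
      rw [Module.End.mem_maxGenEigenspace]
      exact h1 v
    rw [Module.End.maxGenEigenspace_eq] at h2
    refine ⟨Module.End.maxGenEigenspaceIndex (Tcl (subrep ρ hU) h) μ, LinearMap.ext fun v => ?_⟩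
    have h3 : v ∈ Module.End.genEigenspace (Tcl (subrep ρ hU) h) μ
        (Module.End.maxGenEigenspaceIndex (Tcl (subrep ρ hU) h) μ) := by
      rw [h2]
      trivial
    rw [Module.End.mem_genEigenspace_nat] at h3
    exact h3
  have h4 : N = fixer ρ U := by
    ext h
    rw [hN1, mem_fixer]
    constructor
    · intro h1 v hv
      exact congrArg Subtype.val (LinearMap.congr_fun h1 ⟨v, hv⟩)
    · intro h1
      exact LinearMap.ext fun v => Subtype.ext (h1 v.1 v.2)
  rw [← h4]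
  exact hN

end Pool.Agent.BM
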