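import Pool.Agent.Lib.MP_943dad_ag.BM.Cid
import Pool.Agent.Lib.MP_943dad_ag.BM.Blk
import Pool.Agent.Lib.MP_943dad_ag.BM.Irr
import Pool.Agent.Lib.MP_943dad_ag.BM.Ineq

set_option linter.all false

/-!
# The family of the self-adjoint minimal central idempotents of the group algebra
-/

open Finset MonoidAlgebra

namespace Pool.Agent.BM

open Pool.Agent.Lib.MP_943dad_ag

variable {H : Type} [Group H] [Fintype H]

/-- The convolution. -/
def cv (a b : H → ℂ) (x : H) : ℂ := ∑ y, a y * b (y⁻¹ * x)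

/-- A function as an element of the group algebra. -/
noncomputable def fA (a : H → ℂ) : MonoidAlgebra ℂ H := MonoidAlgebra.ofCoeff (Finsupp.equivFunOnFinite.symm a)

theorem fA_coeff (a : H → ℂ) (x : H) : (fA a).coeff x = a x := rfl

theorem fA_ext {x y : MonoidAlgebra ℂ H} (h : ∀ g, x.coeff g = y.coeff g) : x = y := by
  rw [← MonoidAlgebra.coeff_inj]
  exact Finsupp.ext h

theorem coeff_mul' (x y : MonoidAlgebra ℂ H) (g : H) : (x * y).coeff g = cv (fun h => x.coeff h) (fun h => y.coeff h) g := by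
  rw [coeff_mul_apply_left, Finsupp.sum_fintype _ _ (fun h => zero_mul _)]
  rfl

theorem central_iff (z : MonoidAlgebra ℂ H) : (∀ x, z * x = x * z) ↔ ∀ u x, z.coeff (u * x * u⁻¹) = z.coeff x := by
  constructor
  · intro h u x
    have h1 := congrArg (fun w => w.coeff (u * x)) (h (single u 1))
    simp only [coeff_mul_single_apply, coeff_single_mul_apply, mul_one, one_mul] at h1
    rw [h1, inv_mul_cancel_left]
  · intro h x
    induction x using MonoidAlgebra.induction_linear with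
    | zero => rw [mul_zero, zero_mul]
    | add x y hx hy => rw [mul_add, add_mul, hx, hy]
    | single u t =>
      apply fA_ext
      intro g
      rw [coeff_mul_single_apply, coeff_single_mul_apply, mul_comm]
      congr 1
      have h1 := h u (u⁻¹ * g)
      rw [mul_inv_cancel_left] at h1
      exact h1

/-- The properties of the functions `c i`. -/
structure Fam (H : Type) [Group H] [Fintype H] (I : Type) [Fintype I] [DecidableEq H] (c : I → H → ℂ) : Prop where
  cl : ∀ i x u, c i (u * x * u⁻¹) = c i x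
  inv : ∀ i x, c i x⁻¹ = c i x
  idem : ∀ i x, ∑ y, c i y * c i (y⁻¹ * x) = c i x
  orth : ∀ i j, i ≠ j → ∀ x, ∑ y, c i y * c j (y⁻¹ * x) = 0
  one : ∀ x, ∑ i, c i x = if x = 1 then 1 else 0
  ne : ∀ i, ∃ x, c i x ≠ 0
  scal : ∀ i (z : H → ℂ), (∀ u x, z (u * x * u⁻¹) = z x) → (∀ x, z x⁻¹ = z x) →
    ∃ t : ℂ, ∀ x, ∑ y, z y * c i (y⁻¹ * x) = t * c i x

theorem exists_fam (H : Type) [Group H] [Fintype H] [DecidableEq H] : ∃ (I : Type) (_ : Fintype I) (c : I → H → ℂ),
    Fam H I c := by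
  obtain ⟨I, hI, e, h1, h2, h3, h4, h5, h6, h7⟩ := exists_idem H
  refine ⟨I, hI, fun i x => (e i).coeff x, ?_, ?_, ?_, ?_, ?_, ?_, ?_⟩
  · intro i x u
    exact (central_iff (e i)).1 (h1 i) u x
  · intro i x
    have h8 := congrArg (fun w => w.coeff x) (h2 i)
    simp only [tr'_coeff] at h8
    exact h8
  · intro i x
    have h8 := congrArg (fun w => w.coeff x) (h4 i)
    simp only [coeff_mul'] at h8
    exact h8
  · intro i j hij x
    have h8 := congrArg (fun w => w.coeff x) (h5 i j hij)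
    simp only [coeff_mul'] at h8
    exact h8
  · intro x
    have h8 := congrArg (fun w => w.coeff x) h3
    simp only [coeff_sum, Finsupp.finset_sum_apply] at h8
    rw [h8, one_def, coeff_single, Finsupp.single_apply]
    exact if_congr eq_comm rfl rfl
  · intro i
    by_contra hcon
    push Not at hcon
    exact h6 i (fA_ext fun x => by rw [hcon]; rfl)
  · intro i z hz hz'
    obtain ⟨t, ht⟩ := h7 i (fA z) ((central_iff _).2 fun u x => by rw [fA_coeff, fA_coeff, hz])
      (fA_ext fun x => by rw [tr'_coeff, fA_coeff, fA_coeff, hz'])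
    refine ⟨t, fun x => ?_⟩
    have h8 := congrArg (fun w => w.coeff x) ht
    simp only [coeff_mul', coeff_smul_apply, smul_eq_mul] at h8
    exact h8

variable {V : Type} [AddCommGroup V] [Module ℂ V]

/-- The action of a function. -/
noncomputable def Ef (ρ : H →* Module.End ℂ V) (c : H → ℂ) : Module.End ℂ V := ∑ h, c h • ρ h

theorem Ef_mul (ρ : H →* Module.End ℂ V) (a b : H → ℂ) : Ef ρ a * Ef ρ b = Ef ρ (fun x => ∑ y, a y * b (y⁻¹ * x)) := by
  unfold Ef
  rw [sum_mul]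
  simp only [mul_sum, sum_smul]
  rw [sum_comm (s := univ) (t := univ) (f := fun x y => (a y * b (y⁻¹ * x)) • ρ x)]
  refine sum_congr rfl fun y _ => ?_
  refine Fintype.sum_equiv (Equiv.mulLeft y) _ _ fun z => ?_
  rw [smul_mul_smul_comm, ← map_mul, Equiv.coe_mulLeft, inv_mul_cancel_left]

theorem Ef_left (ρ : H →* Module.End ℂ V) (c : H → ℂ) (g : H) : ρ g * Ef ρ c = Ef ρ (fun x => c (g⁻¹ * x)) := by
  unfold Ef
  rw [mul_sum]
  refine Fintype.sum_equiv (Equiv.mulLeft g) _ _ fun z => ?_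
  rw [mul_smul_comm, ← map_mul]
  change c z • ρ (g * z) = c (g⁻¹ * (g * z)) • ρ (g * z)
  rw [inv_mul_cancel_left]

theorem Ef_com (ρ : H →* Module.End ℂ V) (c : H → ℂ) {X : Module.End ℂ V} (hX : ∀ h, X * ρ h = ρ h * X) :
    X * Ef ρ c = Ef ρ c * X := by
  unfold Ef
  rw [mul_sum, sum_mul]
  exact sum_congr rfl fun h _ => by rw [mul_smul_comm, smul_mul_assoc, hX]

theorem Ef_rho (ρ : H →* Module.End ℂ V) {c : H → ℂ} (hc : ∀ x u, c (u * x * u⁻¹) = c x) (g : H) :
    Ef ρ c * ρ g = ρ g * Ef ρ c := by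
  unfold Ef
  rw [mul_sum, sum_mul]
  refine Fintype.sum_equiv (MulAut.conj g⁻¹).toEquiv _ _ fun x => ?_
  rw [smul_mul_assoc, mul_smul_comm, ← map_mul, ← map_mul]
  change c x • ρ (x * g) = c (g⁻¹ * x * g⁻¹⁻¹) • ρ (g * (g⁻¹ * x * g⁻¹⁻¹))
  rw [hc]
  congr 2
  group

theorem Ef_adj (ρ : H →* Module.End ℂ V) {ω : V →ₗ[ℂ] V →ₗ[ℂ] ℂ} (hω : ∀ h u v, ω (ρ h u) (ρ h v) = ω u v)
    {c : H → ℂ} (hc : ∀ x, c x⁻¹ = c x) (u v : V) : ω (Ef ρ c u) v = ω u (Ef ρ c v) := by
  unfold Ef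
  rw [LinearMap.sum_apply, LinearMap.sum_apply, map_sum, map_sum, LinearMap.sum_apply]
  refine Fintype.sum_equiv (Equiv.inv H) _ _ fun x => ?_
  rw [Equiv.inv_apply, hc, LinearMap.smul_apply, LinearMap.smul_apply, map_smul, map_smul, LinearMap.smul_apply]
  congr 1
  rw [← hω x u, ← Module.End.mul_apply (ρ x), ← map_mul, mul_inv_cancel, map_one, Module.End.one_apply]

/-- The group of the elements which act trivially on the block. -/
def kerC (c : H → ℂ) : Subgroup H where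
  carrier := {h | ∀ x, c (h * x) = c x}
  mul_mem' := fun {a b} ha hb x => by rw [mul_assoc, ha, hb]
  one_mem' := fun x => by rw [one_mul]
  inv_mem' := fun {a} ha x => by
    have h1 := ha (a⁻¹ * x)
    rw [mul_inv_cancel_left] at h1
    exact h1.symm

theorem mem_kerC {c : H → ℂ} {h : H} : h ∈ kerC c ↔ ∀ x, c (h * x) = c x := Iff.rfl

theorem kerC_normal {c : H → ℂ} (hc : ∀ x u, c (u * x * u⁻¹) = c x) : (kerC c).Normal := ⟨fun a ha u => by
  rw [mem_kerC] at ha ⊢
  intro x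
  have h1 : u * a * u⁻¹ * x = u * (a * (u⁻¹ * x * u)) * u⁻¹ := by group
  have h2 : u⁻¹ * x * u = u⁻¹ * x * u⁻¹⁻¹ := by rw [inv_inv]
  rw [h1, hc, ha, h2, hc]⟩

theorem rho_Ef (ρ : H →* Module.End ℂ V) {c : H → ℂ} {h : H} (hh : h ∈ kerC c) : ρ h * Ef ρ c = Ef ρ c := by
  rw [Ef_left]
  congr 1
  funext x
  exact mem_kerC.1 (inv_mem hh) x

section fam

variable [DecidableEq H] {I : Type} [Fintype I] {c : I → H → ℂ}

theorem Fam.bl (F : Fam H I c) (ρ : H →* Module.End ℂ V) {ω : V →ₗ[ℂ] V →ₗ[ℂ] ℂ}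
    (hω : ∀ h u v, ω (ρ h u) (ρ h v) = ω u v) (i : I) : BMo.Bl ρ ω (Ef ρ (c i)) where
  idem := by
    rw [Ef_mul]
    congr 1
    funext x
    exact F.idem i x
  rho := fun h => Ef_rho ρ (F.cl i) h
  com := fun X hX => Ef_com ρ (c i) hX
  adj := fun u v => Ef_adj ρ hω (F.inv i) u v

theorem Fam.ort (F : Fam H I c) (ρ : H →* Module.End ℂ V) {i j : I} (hij : i ≠ j) :
    Ef ρ (c i) * Ef ρ (c j) = 0 := by
  rw [Ef_mul]
  have h1 : (fun x => ∑ y, c i y * c j (y⁻¹ * x)) = fun _ => (0 : ℂ) := by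
    funext x
    exact F.orth i j hij x
  rw [h1]
  unfold Ef
  simp

theorem Fam.sum (F : Fam H I c) (ρ : H →* Module.End ℂ V) : ∑ i, Ef ρ (c i) = 1 := by
  unfold Ef
  rw [sum_comm]
  have h1 : ∀ x : H, ∑ i, c i x • ρ x = if x = 1 then (1 : Module.End ℂ V) else 0 := by
    intro x
    rw [← sum_smul, F.one]
    split_ifs with h
    · rw [h, map_one, one_smul]
    · rw [zero_smul]
  rw [sum_congr rfl fun x _ => h1 x]
  simp

/-- The symmetric class operators act on a block by a scalar. -/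
theorem Fam.Tcl (F : Fam H I c) (ρ : H →* Module.End ℂ V) (i : I) (h : H) :
    ∃ t : ℂ, Pool.Agent.BM.Tcl ρ h * Ef ρ (c i) = t • Ef ρ (c i) := by
  classical
  let z : H → ℂ := fun y => ∑ x : H, ((if x * h * x⁻¹ = y then 1 else 0) + (if x * h⁻¹ * x⁻¹ = y then 1 else 0))
  have hz1 : ∀ u y, z (u * y * u⁻¹) = z y := by
    intro u y
    refine Fintype.sum_equiv (Equiv.mulLeft u⁻¹) _ _ fun x => ?_
    have h1 : ∀ k : H, (x * k * x⁻¹ = u * y * u⁻¹) ↔ (u⁻¹ * x) * k * (u⁻¹ * x)⁻¹ = y := by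
      intro k
      have h2 : (u⁻¹ * x) * k * (u⁻¹ * x)⁻¹ = u⁻¹ * (x * k * x⁻¹) * u := by group
      rw [h2]
      constructor
      · intro h3
        rw [h3]
        group
      · intro h3
        rw [← h3]
        group
    rw [Equiv.coe_mulLeft]
    congr 1
    · exact if_congr (h1 h) rfl rfl
    · exact if_congr (h1 h⁻¹) rfl rfl
  have hz2 : ∀ y, z y⁻¹ = z y := by
    intro y
    refine sum_congr rfl fun x _ => ?_
    rw [add_comm]
    have h1 : ∀ k : H, (x * k⁻¹ * x⁻¹ = y⁻¹) ↔ x * k * x⁻¹ = y := by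
      intro k
      have h2 : x * k⁻¹ * x⁻¹ = (x * k * x⁻¹)⁻¹ := by group
      rw [h2, inv_inj]
    congr 1
    · exact if_congr (h1 h) rfl rfl
    · have h3 := h1 h⁻¹
      rw [inv_inv] at h3
      exact if_congr h3 rfl rfl
  have hz3 : Pool.Agent.BM.Tcl ρ h = Ef ρ z := by
    unfold Pool.Agent.BM.Tcl Ef
    simp only [z, sum_smul, add_smul, sum_add_distrib]
    congr 1
    · rw [sum_comm]
      refine sum_congr rfl fun x _ => ?_
      simp [ite_smul]
    · rw [sum_comm]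
      refine sum_congr rfl fun x _ => ?_
      simp [ite_smul]
  obtain ⟨t, ht⟩ := F.scal i z hz1 hz2
  refine ⟨t, ?_⟩
  rw [hz3, Ef_mul]
  have h1 : (fun x => ∑ y, z y * c i (y⁻¹ * x)) = fun x => t * c i x := funext ht
  rw [h1]
  unfold Ef
  rw [smul_sum]
  exact sum_congr rfl fun x _ => by rw [mul_smul]

/-- `kerC (c i)` is the kernel of an irreducible representation. -/
theorem Fam.irrK (F : Fam H I c) (i : I) : IrrK (kerC (c i)) := by
  classical
  -- the regular representation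
  let ρ : H →* Module.End ℂ (H → ℂ) :=
    { toFun := fun h => { toFun := fun f x => f (h⁻¹ * x), map_add' := fun _ _ => rfl, map_smul' := fun _ _ => rfl }
      map_one' := by
        refine LinearMap.ext fun f => funext fun x => ?_
        change f (1⁻¹ * x) = f x
        rw [inv_one, one_mul]
      map_mul' := fun a b => by
        refine LinearMap.ext fun f => funext fun x => ?_
        change f ((a * b)⁻¹ * x) = f (b⁻¹ * (a⁻¹ * x))
        rw [mul_inv_rev, mul_assoc] }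
  have hρ : ∀ h (f : H → ℂ) x, ρ h f x = f (h⁻¹ * x) := fun h f x => rfl
  have hE : ∀ (f : H → ℂ) x, Ef ρ (c i) f x = ∑ y, c i y * f (y⁻¹ * x) := by
    intro f x
    unfold Ef
    rw [LinearMap.sum_apply, Finset.sum_apply]
    rfl
  set U := LinearMap.range (Ef ρ (c i)) with hU
  have hUinv : ∀ h, ∀ v ∈ U, ρ h v ∈ U := by
    rintro h _ ⟨f, rfl⟩
    refine ⟨ρ h f, ?_⟩
    rw [← Module.End.mul_apply, Ef_rho ρ (F.cl i), Module.End.mul_apply]
  have hcU : c i ∈ U := by
    refine ⟨c i, funext fun x => ?_⟩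
    rw [hE]
    exact F.idem i x
  have hU0 : U ≠ ⊥ := by
    intro h
    rw [h, Submodule.mem_bot] at hcU
    obtain ⟨x, hx⟩ := F.ne i
    exact hx (congrFun hcU x)
  have h1 := irrK_block ρ U hUinv hU0 (fun h => by
    obtain ⟨t, ht⟩ := F.Tcl ρ i h
    refine ⟨t, ?_⟩
    rintro _ ⟨f, rfl⟩
    refine ⟨1, ?_⟩
    rw [pow_one, LinearMap.sub_apply, LinearMap.smul_apply, Module.End.one_apply, ← Module.End.mul_apply, ht,
      LinearMap.smul_apply, sub_self])
  have h2 : fixer ρ U = kerC (c i) := by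
    ext h
    rw [mem_fixer]
    constructor
    · intro h3
      have h4 : ∀ x, c i (h⁻¹ * x) = c i x := fun x => by
        have h5 := congrFun (h3 _ hcU) x
        rwa [hρ] at h5
      have h5 : h⁻¹ ∈ kerC (c i) := h4
      exact inv_mem_iff.1 h5
    · rintro h3 _ ⟨f, rfl⟩
      rw [← Module.End.mul_apply, rho_Ef ρ h3]
  rw [← h2]
  exact h1

/-- The value at `1` is positive. -/
theorem Fam.pos (F : Fam H I c) (i : I) : ∃ s : ℝ, 0 < s ∧ c i 1 = s := by
  have hreal := Ineq.real_of_idem (F.cl i) (F.idem i) (F.inv i)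
  obtain ⟨r, hr⟩ : ∃ r : H → ℝ, ∀ x, c i x = (r x : ℂ) :=
    ⟨fun x => (c i x).re, fun x => ((Complex.conj_eq_iff_re.1 (hreal x))).symm⟩
  have h1 : c i 1 = ((∑ y, r y * r y : ℝ) : ℂ) := by
    rw [← F.idem i 1]
    push_cast
    refine sum_congr rfl fun y _ => ?_
    rw [mul_one, F.inv, hr]
  refine ⟨_, ?_, h1⟩
  obtain ⟨x, hx⟩ := F.ne i
  refine sum_pos' (fun y _ => mul_self_nonneg _) ⟨x, mem_univ x, ?_⟩
  rw [hr] at hx
  have h2 : r x ≠ 0 := fun h => hx (by rw [h]; rfl)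
  exact mul_self_pos.2 h2

/-- The sum of the trace formula for elements which act trivially on the block. -/
theorem Fam.U (F : Fam H I c) (i : I) {α β : H} (hα : α ∈ kerC (c i)) (hβ : β ∈ kerC (c i)) :
    Ineq.U (c i) α β = (Fintype.card H : ℂ) ^ 2 * (Fintype.card H : ℂ) * c i 1 := by
  have h1 : ∀ (u : H) (p q : ℕ), c i (u * β ^ p * α ^ q * u⁻¹) = c i 1 := by
    intro u p q
    have h2 : u * β ^ p * α ^ q * u⁻¹ = u * (β ^ p * α ^ q) * u⁻¹ := by group
    have h3 := (mul_mem (pow_mem hβ p) (pow_mem hα q) : β ^ p * α ^ q ∈ kerC (c i)) 1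
    rw [mul_one] at h3
    rw [h2, F.cl, h3]
  unfold Ineq.U
  rw [sum_congr rfl fun u _ => sum_congr rfl fun p _ => sum_congr rfl fun q _ => h1 u p q]
  simp only [sum_const, card_univ, card_range, nsmul_eq_mul]
  ring

end fam

end Pool.Agent.BM
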