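import Pool.Agent.Lib.MP_943dad_ag.BM.CupN
import Pool.Agent.Lib.MP_943dad_ag.BM.Tp
import Pool.Agent.Lib.MP_943dad_ag.BM.Big

set_option linter.all false

/-!
The theorem for a cover which becomes trivial on the last handle after an automorphism.
-/

namespace Pool.Agent.BM

open Pool.Agent.HMv

variable {H : Type} [Group H] [Fintype H] {g n : ℕ}

/-- The theorem for a cover which is trivial on the last handle, for every invariant form. -/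
theorem big_triv (hg : 3 ≤ g + 1) (ψ : F (g + 1) n →* H) (hψ : Function.Surjective ψ)
    (hR : ψ (R (g + 1) n) = 1) (ha : ψ (a n (Fin.last g)) = 1) (hb : ψ (b n (Fin.last g)) = 1)
    (ω : LinearMap.BilinForm ℂ (Coh ψ)) (hω : Tp.Good ψ ω) (Δ : Subgroup (Stab ψ)) (hΔ : Δ.FiniteIndex)
    (X Y : Module.End ℂ (Coh ψ)) (hX : IsZ ψ ω X) (hY : IsZ ψ ω Y) :
    InLie (mon ψ '' (Δ : Set (Stab ψ))) (X * Y - Y * X) :=
  big hψ hR hg ha hb hω.alt hω.nd hω.inn hω.mon Δ hΔ hX hY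

theorem main1 (hg : 3 ≤ g + 1) (φ : F (g + 1) n →* H) (hφ : Function.Surjective φ)
    (hR : φ (R (g + 1) n) = 1) (t : MulAut (F (g + 1) n)) (ht : t (R (g + 1) n) = R (g + 1) n)
    (hc : ∀ j : Fin n, IsConj (t (c (g + 1) j)) (c (g + 1) j))
    (hi : φ (t (a n (Fin.last g))) = 1 ∧ φ (t (b n (Fin.last g))) = 1) :
    ∃ ω : LinearMap.BilinForm ℂ (Coh φ), IsCup φ ω ∧ (∀ f, ω f f = 0) ∧ (∀ f, (∀ f', ω f f' = 0) → f = 0) ∧
      ∀ Δ : Subgroup (Stab φ), Δ.FiniteIndex → ∀ X Y, IsZ φ ω X → IsZ φ ω Y →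
        InLie (mon φ '' (Δ : Set (Stab φ))) (X * Y - Y * X) := by
  let ψ : F (g + 1) n →* H := φ.comp (MulEquiv.toMonoidHom t)
  have T : Tp.Tr φ ψ t := ⟨ht, hc, fun x => rfl⟩
  have hψ : Function.Surjective ψ := hφ.comp (MulEquiv.surjective t)
  have hRψ : ψ (R (g + 1) n) = 1 := by
    rw [T.eq, ht, hR]
  have ha : ψ (a n (Fin.last g)) = 1 := hi.1
  have hb : ψ (b n (Fin.last g)) = 1 := hi.2
  obtain ⟨ω', h1, h2, h3, h4, h5⟩ := exists_cup_nd hψ hRψ ha hb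
  have hgood := Tp.good_comp T.symm ⟨h2, h3, h4, h5⟩
  exact ⟨_, Tp.cup_comp T.symm h1, hgood.alt, hgood.nd, fun Δ hΔ X Y hX hY =>
    Tp.main_comp T (fun ω hω Δ hΔ X Y hX hY => big_triv hg ψ hψ hRψ ha hb ω hω Δ hΔ X Y hX hY) _ hgood Δ hΔ X Y hX hY⟩

end Pool.Agent.BM
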