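import Pool.Agent.Lib.MP_943dad_ag.BM.Blk
import Pool.Agent.Lib.MP_943dad_ag.BM.Irr

set_option linter.all false

/-!
# Gluing: a Lie algebra which contains the commutators for all pairs of primitive blocks contains all commutators
-/

open Finset

namespace Pool.Agent.Lib.MP_943dad_ag.BMo

variable {H V : Type} [Group H] [AddCommGroup V] [Module ℂ V]
  {ρ : H →* Module.End ℂ V} {ω : V →ₗ[ℂ] V →ₗ[ℂ] ℂ}

theorem Bl.zero : Bl ρ ω 0 :=
  ⟨mul_zero _, fun h => by rw [zero_mul, mul_zero], fun X _ => by rw [zero_mul, mul_zero], fun u v => by simp⟩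

theorem Bl.one : Bl ρ ω 1 :=
  ⟨mul_one _, fun h => by rw [one_mul, mul_one], fun X _ => by rw [one_mul, mul_one], fun u v => by simp⟩

theorem Bl.comm {e e' : Module.End ℂ V} (he : Bl ρ ω e) (he' : Bl ρ ω e') : e * e' = e' * e := he'.com e he.rho

/-- The difference. -/
theorem Bl.sub {e e' : Module.End ℂ V} (he : Bl ρ ω e) (he' : Bl ρ ω e') (h : e' * e = e') : Bl ρ ω (e - e') := by
  have h' : e * e' = e' := by rw [he.comm he', h]
  refine ⟨?_, fun k => ?_, fun X hX => ?_, fun u v => ?_⟩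
  · rw [mul_sub, sub_mul, sub_mul, he.idem, he'.idem, h, h', sub_self, sub_zero]
  · rw [sub_mul, mul_sub, he.rho, he'.rho]
  · rw [sub_mul, mul_sub, he.com X hX, he'.com X hX]
  · simp only [LinearMap.sub_apply, map_sub, he.adj, he'.adj]

variable [Fintype H]

theorem Bl.zz {e X : Module.End ℂ V} (he : Bl ρ ω e) (hX : X ∈ zz ρ ω) : e * X ∈ zz ρ ω := by
  refine ⟨fun h => ?_, fun u v => ?_⟩
  · rw [mul_assoc, hX.1, ← mul_assoc, he.rho, mul_assoc]
  · rw [Module.End.mul_apply, he.adj, skew_zz hX, ← Module.End.mul_apply X e, he.com X hX.1, Module.End.mul_apply]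
    ring

theorem Bl.gg {e X : Module.End ℂ V} (he : Bl ρ ω e) (hX : X ∈ gg ρ ω) : e * X ∈ gg ρ ω := by
  induction hX using Submodule.span_induction with
  | mem Z hZ =>
    obtain ⟨X, hX, Y, hY, rfl⟩ := hZ
    refine Submodule.subset_span ⟨e * X, he.zz hX, Y, hY, ?_⟩
    rw [mul_sub, mul_assoc, ← mul_assoc Y, he.com Y hY.1, mul_assoc]
  | zero => rw [mul_zero]; exact Submodule.zero_mem _
  | add x y _ _ hx hy => rw [mul_add]; exact Submodule.add_mem _ hx hy
  | smul t x _ hx => rw [mul_smul_comm]; exact Submodule.smul_mem _ _ hx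

/-- The rank goes down. -/
theorem Bl.lt [FiniteDimensional ℂ V] {e e' : Module.End ℂ V} (he : Bl ρ ω e) (he' : Bl ρ ω e') (h : e' * e = e')
    (hne : e' ≠ e) : Module.finrank ℂ (LinearMap.range e') < Module.finrank ℂ (LinearMap.range e) := by
  have h' : e * e' = e' := by rw [he.comm he', h]
  refine Submodule.finrank_lt_finrank_of_lt (lt_of_le_of_ne ?_ fun h1 => hne ?_)
  · rintro _ ⟨x, rfl⟩
    exact ⟨e' x, by rw [← Module.End.mul_apply, h']⟩
  · refine LinearMap.ext fun x => ?_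
    have h2 : e x ∈ LinearMap.range e' := by
      rw [h1]
      exact ⟨x, rfl⟩
    obtain ⟨y, hy⟩ := h2
    have h3 : e' (e x) = e x := by rw [← hy, ← Module.End.mul_apply, he'.idem]
    rwa [← Module.End.mul_apply, h] at h3

/-- An idempotent is zero, primitive or a sum of two smaller ones. -/
theorem Bl.cases {e : Module.End ℂ V} (he : Bl ρ ω e) : e = 0 ∨ Prim ρ ω e ∨
    ∃ e', Bl ρ ω e' ∧ e' * e = e' ∧ e' ≠ 0 ∧ e' ≠ e := by
  by_cases h0 : e = 0
  · exact Or.inl h0
  · by_cases h1 : ∃ e', Bl ρ ω e' ∧ e' * e = e' ∧ e' ≠ 0 ∧ e' ≠ e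
    · exact Or.inr (Or.inr h1)
    · refine Or.inr (Or.inl ⟨he, h0, fun e' he' h2 => ?_⟩)
      by_contra h3
      rw [not_or] at h3
      exact h1 ⟨e', he', h2, h3.1, h3.2⟩

theorem glue_step [FiniteDimensional ℂ V] (hS : Sym ρ ω) {L : Submodule ℂ (Module.End ℂ V)}
    (hL : ∀ X ∈ L, ∀ Y ∈ L, X * Y - Y * X ∈ L) (hLc : ∀ X ∈ L, ∀ h, X * ρ h = ρ h * X)
    {e : Module.End ℂ V} (he : Prim ρ ω e) (hone : ∀ G ∈ gg ρ ω, ∃ l ∈ L, e * l = e * G)
    (hcross : ∀ e', Prim ρ ω e' → e' * e = 0 → ∀ G ∈ gg ρ ω, ∃ l ∈ L, e * l = e * G ∧ e' * l = 0) (n : ℕ) :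
    ∀ e', Bl ρ ω e' → Module.finrank ℂ (LinearMap.range e') ≤ n → e' * e = 0 → ∀ G ∈ gg ρ ω,
      ∃ l ∈ L, e * l = e * G ∧ e' * l = 0 := by
  induction n with
  | zero =>
    intro e' he' hn h0 G hG
    have h1 : e' = 0 := by
      rw [Nat.le_zero, Submodule.finrank_eq_zero] at hn
      exact LinearMap.range_eq_bot.1 hn
    obtain ⟨l, hl, h2⟩ := hone G hG
    exact ⟨l, hl, h2, by rw [h1, zero_mul]⟩
  | succ n ih =>
    intro e' he' hn h0 G hG
    rcases he'.cases with h1 | h1 | ⟨d, hd, hde, hd0, hdn⟩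
    · obtain ⟨l, hl, h2⟩ := hone G hG
      exact ⟨l, hl, h2, by rw [h1, zero_mul]⟩
    · exact hcross e' h1 h0 G hG
    · -- two smaller idempotents
      have hd' : e' * d = d := by rw [he'.comm hd, hde]
      have hlt1 := he'.lt hd hde hdn
      have hs := he'.sub hd hde
      have hsn : e' - d ≠ e' := by
        intro h
        exact hd0 (sub_eq_self.1 h)
      have hse : (e' - d) * e' = e' - d := by rw [sub_mul, he'.idem, hde]
      have hlt2 := he'.lt hs hse hsn
      have hde0 : d * e = 0 := by rw [← hde, mul_assoc, h0, mul_zero]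
      have hse0 : (e' - d) * e = 0 := by rw [sub_mul, h0, hde0, sub_zero]
      have h1 := ih d hd (by omega) hde0
      have h2 := ih (e' - d) hs (by omega) hse0
      have hG' := perfect hS hG
      induction hG' using Submodule.span_induction with
      | mem Z hZ =>
        obtain ⟨A, hA, B, hB, rfl⟩ := hZ
        obtain ⟨l, hl, k1, k2⟩ := h1 A hA
        obtain ⟨m, hm, k3, k4⟩ := h2 B hB
        have c1 : ∀ {X : Module.End ℂ V}, X ∈ L → ∀ {c : Module.End ℂ V}, Bl ρ ω c → c * X = X * c :=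
          fun hX _ hc => (hc.com _ (hLc _ hX)).symm
        have c2 : ∀ {X : Module.End ℂ V}, X ∈ gg ρ ω → e * X = X * e := fun hX => (he.bl.com _ (gg_zz hS hX).1).symm
        refine ⟨l * m - m * l, hL l hl m hm, ?_, ?_⟩
        · have e1 : e * (l * m - m * l) = (e * l) * (e * m) - (e * m) * (e * l) := by
            have e2 : (e * l) * (e * m) = e * (l * m) := by
              rw [c1 hl he.bl, mul_assoc, ← mul_assoc e, he.bl.idem, ← mul_assoc, ← c1 hl he.bl, mul_assoc]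
            have e3 : (e * m) * (e * l) = e * (m * l) := by
              rw [c1 hm he.bl, mul_assoc, ← mul_assoc e, he.bl.idem, ← mul_assoc, ← c1 hm he.bl, mul_assoc]
            rw [e2, e3, mul_sub]
          have e4 : e * (A * B - B * A) = (e * A) * (e * B) - (e * B) * (e * A) := by
            have e2 : (e * A) * (e * B) = e * (A * B) := by
              rw [c2 hA, mul_assoc, ← mul_assoc e, he.bl.idem, ← mul_assoc, ← c2 hA, mul_assoc]
            have e3 : (e * B) * (e * A) = e * (B * A) := by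
              rw [c2 hB, mul_assoc, ← mul_assoc e, he.bl.idem, ← mul_assoc, ← c2 hB, mul_assoc]
            rw [e2, e3, mul_sub]
          rw [e1, e4, k1, k3]
        · have e1 : d * (l * m - m * l) = 0 := by
            rw [mul_sub, ← mul_assoc, ← mul_assoc, k2, zero_mul, c1 hm hd, mul_assoc, k2, mul_zero, sub_zero]
          have e2 : (e' - d) * (l * m - m * l) = 0 := by
            rw [mul_sub, ← mul_assoc, ← mul_assoc, k4, zero_mul, c1 hl hs, mul_assoc, k4, mul_zero, sub_zero]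
          have e3 : e' * (l * m - m * l) = d * (l * m - m * l) + (e' - d) * (l * m - m * l) := by
            rw [← add_mul, add_sub_cancel]
          rw [e3, e1, e2, add_zero]
      | zero => exact ⟨0, Submodule.zero_mem _, by rw [mul_zero], by rw [mul_zero]⟩
      | add x y hx hy ihx ihy =>
        have gx : x ∈ gg ρ ω := by
          refine (Submodule.span_le.2 ?_) hx
          rintro _ ⟨X, hX, Y, hY, rfl⟩
          exact Submodule.subset_span ⟨X, gg_zz hS hX, Y, gg_zz hS hY, rfl⟩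
        have gy : y ∈ gg ρ ω := by
          refine (Submodule.span_le.2 ?_) hy
          rintro _ ⟨X, hX, Y, hY, rfl⟩
          exact Submodule.subset_span ⟨X, gg_zz hS hX, Y, gg_zz hS hY, rfl⟩
        obtain ⟨l, hl, k1, k2⟩ := ihx gx
        obtain ⟨m, hm, k3, k4⟩ := ihy gy
        exact ⟨l + m, Submodule.add_mem _ hl hm, by rw [mul_add, mul_add, k1, k3], by rw [mul_add, k2, k4, add_zero]⟩
      | smul t x hx ihx =>
        have gx : x ∈ gg ρ ω := by
          refine (Submodule.span_le.2 ?_) hx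
          rintro _ ⟨X, hX, Y, hY, rfl⟩
          exact Submodule.subset_span ⟨X, gg_zz hS hX, Y, gg_zz hS hY, rfl⟩
        obtain ⟨l, hl, k1, k2⟩ := ihx gx
        exact ⟨t • l, Submodule.smul_mem _ _ hl, by rw [mul_smul_comm, mul_smul_comm, k1], by
          rw [mul_smul_comm, k2, smul_zero]⟩

theorem glue_all [FiniteDimensional ℂ V] (hS : Sym ρ ω) {L : Submodule ℂ (Module.End ℂ V)}
    (hL : ∀ X ∈ L, ∀ Y ∈ L, X * Y - Y * X ∈ L) (hLc : ∀ X ∈ L, ∀ h, X * ρ h = ρ h * X)
    (hone : ∀ e, Prim ρ ω e → ∀ G ∈ gg ρ ω, ∃ l ∈ L, e * l = e * G)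
    (hcross : ∀ e e', Prim ρ ω e → Prim ρ ω e' → e' * e = 0 → ∀ G ∈ gg ρ ω, ∃ l ∈ L, e * l = e * G ∧ e' * l = 0)
    (n : ℕ) : ∀ e, Bl ρ ω e → Module.finrank ℂ (LinearMap.range e) ≤ n → ∀ G ∈ gg ρ ω, e * G ∈ L := by
  induction n with
  | zero =>
    intro e he hn G hG
    have h1 : e = 0 := by
      rw [Nat.le_zero, Submodule.finrank_eq_zero] at hn
      exact LinearMap.range_eq_bot.1 hn
    rw [h1, zero_mul]
    exact Submodule.zero_mem _
  | succ n ih =>
    intro e he hn G hG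
    rcases he.cases with h1 | h1 | ⟨d, hd, hde, hd0, hdn⟩
    · rw [h1, zero_mul]
      exact Submodule.zero_mem _
    · have h2 : Bl ρ ω (1 - e) := Bl.one.sub he (mul_one _)
      obtain ⟨l, hl, k1, k2⟩ := glue_step hS hL hLc h1 (hone e h1) (fun e' he' => hcross e e' h1 he') _ (1 - e) h2 le_rfl
        (by rw [sub_mul, he.idem, one_mul, sub_self]) G hG
      rw [← k1]
      rw [sub_mul, one_mul, sub_eq_zero] at k2
      rw [← k2]
      exact hl
    · have hlt1 := he.lt hd hde hdn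
      have hs := he.sub hd hde
      have hse : (e - d) * e = e - d := by rw [sub_mul, he.idem, hde]
      have hlt2 := he.lt hs hse fun h => hd0 (sub_eq_self.1 h)
      have e3 : e * G = d * G + (e - d) * G := by rw [← add_mul, add_sub_cancel]
      rw [e3]
      exact Submodule.add_mem _ (ih d hd (by omega) G hG) (ih (e - d) hs (by omega) G hG)

/-- **Gluing over blocks.** A Lie algebra `L` of endomorphisms which commute with `H` contains all commutators of
elements of `zz` if this holds on every primitive block and if for two different primitive blocks the elements of `L` which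
vanish on the second one still give everything on the first one. -/
theorem glue_block [FiniteDimensional ℂ V] (hS : Sym ρ ω) {L : Submodule ℂ (Module.End ℂ V)}
    (hL : ∀ X ∈ L, ∀ Y ∈ L, X * Y - Y * X ∈ L) (hLc : ∀ X ∈ L, ∀ h, X * ρ h = ρ h * X)
    (hone : ∀ e, Prim ρ ω e → ∀ G ∈ gg ρ ω, ∃ l ∈ L, e * l = e * G)
    (hcross : ∀ e e', Prim ρ ω e → Prim ρ ω e' → e' * e = 0 → ∀ G ∈ gg ρ ω, ∃ l ∈ L, e * l = e * G ∧ e' * l = 0) :
    ∀ X ∈ zz ρ ω, ∀ Y ∈ zz ρ ω, X * Y - Y * X ∈ L := by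
  intro X hX Y hY
  have h2 := glue_all hS hL hLc hone hcross _ 1 Bl.one le_rfl (X * Y - Y * X)
    (Submodule.subset_span ⟨X, hX, Y, hY, rfl⟩)
  rwa [one_mul] at h2

/-- Different primitive idempotents are orthogonal. -/
theorem Prim.orth {e e' : Module.End ℂ V} (he : Prim ρ ω e) (he' : Prim ρ ω e') (hne : e ≠ e') : e * e' = 0 := by
  have hc := he.bl.comm he'.bl
  have hb : Bl ρ ω (e * e') := by
    refine ⟨?_, fun h => ?_, fun X hX => ?_, fun u v => ?_⟩
    · rw [mul_assoc, ← mul_assoc e', ← hc, mul_assoc, he'.bl.idem, ← mul_assoc, he.bl.idem]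
    · rw [mul_assoc, he'.bl.rho, ← mul_assoc, he.bl.rho, mul_assoc]
    · rw [← mul_assoc, he.bl.com X hX, mul_assoc, he'.bl.com X hX, mul_assoc]
    · rw [Module.End.mul_apply, he.bl.adj, he'.bl.adj, ← Module.End.mul_apply, ← hc]
  rcases he.min _ hb (by rw [mul_assoc, ← hc, ← mul_assoc, he.bl.idem]) with h1 | h1
  · exact h1
  · rcases he'.min _ hb (by rw [mul_assoc, he'.bl.idem]) with h2 | h2
    · exact h2
    · exact absurd (h1.symm.trans h2) hne

/-- Gluing over pairs of primitive idempotents. -/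
theorem glue_prim [FiniteDimensional ℂ V] (hS : Sym ρ ω) {L : Submodule ℂ (Module.End ℂ V)}
    (hL : ∀ X ∈ L, ∀ Y ∈ L, X * Y - Y * X ∈ L) (hLc : ∀ X ∈ L, ∀ h, X * ρ h = ρ h * X)
    (hpair : ∀ e e' : Module.End ℂ V, Prim ρ ω e → Prim ρ ω e' → ∀ X ∈ zz ρ ω, ∀ Y ∈ zz ρ ω,
        ∃ l ∈ L, ∀ v, (∀ h ∈ kerE ρ e ⊓ kerE ρ e', ρ h v = v) → l v = (X * Y - Y * X) v) :
    ∀ X ∈ zz ρ ω, ∀ Y ∈ zz ρ ω, X * Y - Y * X ∈ L := by
  intro X hX Y hY
  have h1 : ∀ e e', Prim ρ ω e → Prim ρ ω e' → ∀ G ∈ gg ρ ω, ∃ l ∈ L, e * l = e * G ∧ e' * l = e' * G := by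
    intro e e' he he' G hG
    have c1 : ∀ {X : Module.End ℂ V}, (∀ h, X * ρ h = ρ h * X) → ∀ {c : Module.End ℂ V}, Bl ρ ω c → c * X = X * c :=
      fun hX _ hc => (hc.com _ hX).symm
    have h2 : ∃ l ∈ L, ∀ v, (∀ h ∈ kerE ρ e ⊓ kerE ρ e', ρ h v = v) → l v = G v := by
      induction hG using Submodule.span_induction with
      | mem Z hZ =>
        obtain ⟨A, hA, B, hB, rfl⟩ := hZ
        exact hpair e e' he he' A hA B hB
      | zero => exact ⟨0, Submodule.zero_mem _, fun v _ => rfl⟩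
      | add x y _ _ hx hy =>
        obtain ⟨l, hl, k1⟩ := hx
        obtain ⟨m, hm, k2⟩ := hy
        exact ⟨l + m, Submodule.add_mem _ hl hm, fun v hv => by
          rw [LinearMap.add_apply, LinearMap.add_apply, k1 v hv, k2 v hv]⟩
      | smul t x _ hx =>
        obtain ⟨l, hl, k1⟩ := hx
        exact ⟨t • l, Submodule.smul_mem _ _ hl, fun v hv => by
          rw [LinearMap.smul_apply, LinearMap.smul_apply, k1 v hv]⟩
    obtain ⟨l, hl, k1⟩ := h2
    have hGc := (gg_zz hS hG).1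
    refine ⟨l, hl, ?_, ?_⟩
    · rw [c1 (hLc l hl) he.bl, c1 hGc he.bl]
      refine LinearMap.ext fun v => ?_
      rw [Module.End.mul_apply, Module.End.mul_apply]
      exact k1 _ fun h hh => by rw [← Module.End.mul_apply, show ρ h * e = e from hh.1]
    · rw [c1 (hLc l hl) he'.bl, c1 hGc he'.bl]
      refine LinearMap.ext fun v => ?_
      rw [Module.End.mul_apply, Module.End.mul_apply]
      exact k1 _ fun h hh => by rw [← Module.End.mul_apply, show ρ h * e' = e' from hh.2]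
  refine glue_block hS hL hLc (fun e he G hG => ?_) (fun e e' he he' h0 G hG => ?_) X hX Y hY
  · obtain ⟨l, hl, h2, -⟩ := h1 e e he he G hG
    exact ⟨l, hl, h2⟩
  · obtain ⟨l, hl, h2, h3⟩ := h1 e e' he he' (e * G) (he.bl.gg hG)
    refine ⟨l, hl, ?_, ?_⟩
    · rw [h2, ← mul_assoc, he.bl.idem]
    · rw [h3, ← mul_assoc, h0, zero_mul]

/-- **Gluing, cyclic centres.** A Lie algebra `L` of endomorphisms which commute with `H` contains all commutators of
elements of `zz` if this holds on the invariants of `N₁ ⊓ N₂` for all normal subgroups `N₁`, `N₂` such that `H ⧸ N₁` and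
`H ⧸ N₂` have cyclic centres. -/
theorem glue [FiniteDimensional ℂ V] (hS : Sym ρ ω) {L : Submodule ℂ (Module.End ℂ V)}
    (hL : ∀ X ∈ L, ∀ Y ∈ L, X * Y - Y * X ∈ L) (hLc : ∀ X ∈ L, ∀ h, X * ρ h = ρ h * X)
    (hpair : ∀ (N₁ N₂ : Subgroup H) [N₁.Normal] [N₂.Normal], IsCyclic (Subgroup.center (H ⧸ N₁)) →
      IsCyclic (Subgroup.center (H ⧸ N₂)) → ∀ X ∈ zz ρ ω, ∀ Y ∈ zz ρ ω,
        ∃ l ∈ L, ∀ v, (∀ h ∈ N₁ ⊓ N₂, ρ h v = v) → l v = (X * Y - Y * X) v) :
    ∀ X ∈ zz ρ ω, ∀ Y ∈ zz ρ ω, X * Y - Y * X ∈ L := by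
  refine glue_prim hS hL hLc fun e e' he he' => ?_
  haveI := he.bl.normal
  haveI := he'.bl.normal
  exact hpair (kerE ρ e) (kerE ρ e') (he.cyc hS) (he'.cyc hS)

/-- The kernel of a primitive block is the kernel of an irreducible representation. -/
theorem Prim.irrK [FiniteDimensional ℂ V] (hS : Sym ρ ω) {e : Module.End ℂ V} (he : Prim ρ ω e) :
    BM.IrrK (kerE ρ e) := by
  have hU : ∀ h, ∀ v ∈ LinearMap.range e, ρ h v ∈ LinearMap.range e := by
    rintro h _ ⟨w, rfl⟩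
    exact ⟨ρ h w, by rw [← Module.End.mul_apply, he.bl.rho, Module.End.mul_apply]⟩
  have hU0 : LinearMap.range e ≠ ⊥ := fun h => he.ne (LinearMap.range_eq_bot.1 h)
  have hev : ∀ v ∈ LinearMap.range e, e v = v := by
    rintro _ ⟨w, rfl⟩
    rw [← Module.End.mul_apply, he.bl.idem]
  have h1 : kerE ρ e = BM.fixer ρ (LinearMap.range e) := by
    ext h
    rw [mem_kerE, BM.mem_fixer]
    constructor
    · rintro h1 _ ⟨w, rfl⟩
      rw [← Module.End.mul_apply, h1]
    · intro h1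
      exact LinearMap.ext fun w => h1 _ ⟨w, rfl⟩
  rw [h1]
  refine BM.irrK_block ρ (LinearMap.range e) hU hU0 fun h => ?_
  have hT : ∀ v ∈ LinearMap.range e, BM.Tcl ρ h v ∈ LinearMap.range e := by
    rintro _ ⟨w, rfl⟩
    refine ⟨BM.Tcl ρ h w, ?_⟩
    rw [← Module.End.mul_apply, ← he.bl.com _ (BM.Tcl_comm ρ h), Module.End.mul_apply]
  haveI : Nontrivial (LinearMap.range e) := Submodule.nontrivial_iff_ne_bot.2 hU0
  obtain ⟨μ, hμ⟩ := Module.End.exists_eigenvalue ((BM.Tcl ρ h).restrict hT)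
  obtain ⟨w0, hw0⟩ := hμ.exists_hasEigenvector
  have hTX : ∀ X : Module.End ℂ V, (∀ h, X * ρ h = ρ h * X) → X * BM.Tcl ρ h = BM.Tcl ρ h * X := by
    intro X hX
    rw [BM.Tcl, sum_mul, mul_sum]
    refine sum_congr rfl fun x _ => ?_
    rw [mul_add, add_mul, hX, hX]
  have hTa : ∀ u v, ω (BM.Tcl ρ h u) v = ω u (BM.Tcl ρ h v) := by
    intro u v
    rw [BM.Tcl, LinearMap.sum_apply, LinearMap.sum_apply, map_sum, map_sum, LinearMap.sum_apply]
    refine sum_congr rfl fun x _ => ?_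
    rw [LinearMap.add_apply, LinearMap.add_apply, map_add, LinearMap.add_apply, map_add, hS.inv', hS.inv', add_comm]
    have e1 : (x * h⁻¹ * x⁻¹)⁻¹ = x * h * x⁻¹ := by group
    have e2 : (x * h * x⁻¹)⁻¹ = x * h⁻¹ * x⁻¹ := by group
    rw [e1, e2]
  obtain ⟨k, hk⟩ := he.single (BM.Tcl_comm ρ h) hTX hTa
    (v := w0.1) (fun h2 => hw0.2 (Subtype.ext h2)) (hev _ w0.2) (μ := μ) (congrArg Subtype.val hw0.apply_eq_smul)
  refine ⟨μ, fun v hv => ⟨k, ?_⟩⟩
  have h2 := LinearMap.congr_fun hk v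
  rw [Module.End.mul_apply, hev v hv, LinearMap.zero_apply, Algebra.algebraMap_eq_smul_one] at h2
  exact h2

/-- **Gluing, kernels of irreducible representations.** A Lie algebra `L` of endomorphisms which commute with `H`
contains all commutators of elements of `zz` if this holds on the invariants of `N₁ ⊓ N₂` for all kernels `N₁`, `N₂` of
irreducible representations of `H`. -/
theorem glue_irr [FiniteDimensional ℂ V] (hS : Sym ρ ω) {L : Submodule ℂ (Module.End ℂ V)}
    (hL : ∀ X ∈ L, ∀ Y ∈ L, X * Y - Y * X ∈ L) (hLc : ∀ X ∈ L, ∀ h, X * ρ h = ρ h * X)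
    (hpair : ∀ (N₁ N₂ : Subgroup H) [N₁.Normal] [N₂.Normal], BM.IrrK N₁ → BM.IrrK N₂ → ∀ X ∈ zz ρ ω, ∀ Y ∈ zz ρ ω,
        ∃ l ∈ L, ∀ v, (∀ h ∈ N₁ ⊓ N₂, ρ h v = v) → l v = (X * Y - Y * X) v) :
    ∀ X ∈ zz ρ ω, ∀ Y ∈ zz ρ ω, X * Y - Y * X ∈ L := by
  refine glue_prim hS hL hLc fun e e' he he' => ?_
  haveI := he.bl.normal
  haveI := he'.bl.normal
  exact hpair (kerE ρ e) (kerE ρ e') (he.irrK hS) (he'.irrK hS)

/-- **Gluing over a finite family of blocks.** -/
theorem glue_fam [FiniteDimensional ℂ V] (hS : Sym ρ ω) {L : Submodule ℂ (Module.End ℂ V)}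
    (hL : ∀ X ∈ L, ∀ Y ∈ L, X * Y - Y * X ∈ L) (hLc : ∀ X ∈ L, ∀ h, X * ρ h = ρ h * X)
    {ι : Type} [Fintype ι] (E : ι → Module.End ℂ V) (hE : ∀ i, Bl ρ ω (E i)) (h0 : ∀ i j, i ≠ j → E i * E j = 0)
    (h1 : ∑ i, E i = 1) (hone : ∀ i, ∀ G ∈ gg ρ ω, ∃ l ∈ L, E i * l = E i * G)
    (hcross : ∀ i j, i ≠ j → ∀ G ∈ gg ρ ω, ∃ l ∈ L, E i * l = E i * G ∧ E j * l = 0) :
    ∀ X ∈ zz ρ ω, ∀ Y ∈ zz ρ ω, X * Y - Y * X ∈ L := by
  classical
  have c1 : ∀ {X : Module.End ℂ V}, X ∈ L → ∀ i, E i * X = X * E i := fun hX i => ((hE i).com _ (hLc _ hX)).symm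
  have c2 : ∀ {X : Module.End ℂ V}, X ∈ gg ρ ω → ∀ i, E i * X = X * E i := fun hX i =>
    ((hE i).com _ (gg_zz hS hX).1).symm
  have key : ∀ (i : ι) (J : Finset ι), i ∉ J → ∀ G ∈ gg ρ ω, ∃ l ∈ L, E i * l = E i * G ∧ ∀ j ∈ J, E j * l = 0 := by
    intro i J
    induction J using Finset.induction_on with
    | empty =>
      intro _ G hG
      obtain ⟨l, hl, k1⟩ := hone i G hG
      exact ⟨l, hl, k1, fun j hj => absurd hj (Finset.notMem_empty j)⟩
    | insert j J hj ih =>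
      intro hi G hG
      rw [Finset.mem_insert, not_or] at hi
      have hG' := perfect hS hG
      induction hG' using Submodule.span_induction with
      | mem W hW =>
        obtain ⟨A, hA, B, hB, rfl⟩ := hW
        obtain ⟨l, hl, k1, k2⟩ := ih hi.2 A hA
        obtain ⟨m, hm, k3, k4⟩ := hcross i j hi.1 B hB
        refine ⟨l * m - m * l, hL l hl m hm, ?_, fun k hk => ?_⟩
        · have e1 : ∀ {X Y : Module.End ℂ V}, E i * X = X * E i → (E i * X) * (E i * Y) = E i * (X * Y) := by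
            intro X Y hX
            rw [hX, mul_assoc, ← mul_assoc (E i) (E i), (hE i).idem, ← mul_assoc, ← hX, mul_assoc]
          rw [mul_sub, mul_sub, ← e1 (c1 hl i), ← e1 (c1 hm i), ← e1 (c2 hA i), ← e1 (c2 hB i), k1, k3]
        · rcases Finset.mem_insert.1 hk with rfl | hk
          · rw [mul_sub, ← mul_assoc, ← mul_assoc, k4, zero_mul, sub_zero, c1 hl, mul_assoc, k4, mul_zero]
          · rw [mul_sub, ← mul_assoc, ← mul_assoc, k2 k hk, zero_mul, zero_sub, c1 hm, mul_assoc, k2 k hk, mul_zero,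
              neg_zero]
      | zero => exact ⟨0, Submodule.zero_mem _, by rw [mul_zero], fun k _ => by rw [mul_zero]⟩
      | add x y hx hy ihx ihy =>
        have gx : x ∈ gg ρ ω := by
          refine (Submodule.span_le.2 ?_) hx
          rintro _ ⟨X, hX, Y, hY, rfl⟩
          exact Submodule.subset_span ⟨X, gg_zz hS hX, Y, gg_zz hS hY, rfl⟩
        have gy : y ∈ gg ρ ω := by
          refine (Submodule.span_le.2 ?_) hy
          rintro _ ⟨X, hX, Y, hY, rfl⟩
          exact Submodule.subset_span ⟨X, gg_zz hS hX, Y, gg_zz hS hY, rfl⟩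
        obtain ⟨l, hl, k1, k2⟩ := ihx gx
        obtain ⟨m, hm, k3, k4⟩ := ihy gy
        exact ⟨l + m, Submodule.add_mem _ hl hm, by rw [mul_add, mul_add, k1, k3], fun k hk => by
          rw [mul_add, k2 k hk, k4 k hk, add_zero]⟩
      | smul t x hx ihx =>
        have gx : x ∈ gg ρ ω := by
          refine (Submodule.span_le.2 ?_) hx
          rintro _ ⟨X, hX, Y, hY, rfl⟩
          exact Submodule.subset_span ⟨X, gg_zz hS hX, Y, gg_zz hS hY, rfl⟩
        obtain ⟨l, hl, k1, k2⟩ := ihx gx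
        exact ⟨t • l, Submodule.smul_mem _ _ hl, by rw [mul_smul_comm, mul_smul_comm, k1], fun k hk => by
          rw [mul_smul_comm, k2 k hk, smul_zero]⟩
  intro X hX Y hY
  have hG : X * Y - Y * X ∈ gg ρ ω := Submodule.subset_span ⟨X, hX, Y, hY, rfl⟩
  rw [← one_mul (X * Y - Y * X), ← h1, Finset.sum_mul]
  refine Submodule.sum_mem _ fun i _ => ?_
  obtain ⟨l, hl, k1, k2⟩ := key i (Finset.univ.erase i) (Finset.notMem_erase i _) _ hG
  have h2 : l = E i * l := by
    conv_lhs => rw [← one_mul l, ← h1, Finset.sum_mul]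
    refine Finset.sum_eq_single i (fun j _ hj => k2 j (Finset.mem_erase.2 ⟨hj, Finset.mem_univ j⟩)) fun h => ?_
    exact absurd (Finset.mem_univ i) h
  rw [← k1, ← h2]
  exact hl

end Pool.Agent.Lib.MP_943dad_ag.BMo
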