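import Pool.Agent.Lib.MP_943dad_ag.BM.Zar

set_option linter.all false

/-!
# The Lie algebra of a Zariski closure: brackets, and logarithms of unipotent parts

* `tan_lie`: the tangent space at `1` of the Zariski closure of a group is closed under the bracket.
* `exists_log`: for `g` in the group there is a tangent vector `X`, the logarithm of the unipotent part of `g`.
* `exists_lie_all`: the form for the image of a subgroup.
-/

open Finset Polynomial

namespace Pool.Agent.BM.Jor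

section lie

variable {E : Type} [Ring E] [Algebra ℂ E]

/-- `f'` is the derivative of `f` along the field `A ↦ A X`. -/
def Der (X : E) (f f' : E → ℂ) : Prop := ∀ A : E, HasDerivAt (fun t : ℂ => f (A + t • (A * X))) (f' A) 0

theorem Der.add {X : E} {f f' g g' : E → ℂ} (h : Der X f f') (k : Der X g g') :
    Der X (fun A => f A + g A) (fun A => f' A + g' A) := fun A => (h A).add (k A)

theorem Der.mul {X : E} {f f' g g' : E → ℂ} (h : Der X f f') (k : Der X g g') :
    Der X (fun A => f A * g A) (fun A => f' A * g A + f A * g' A) := by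
  intro A
  have h1 := (h A).mul (k A)
  have h2 : f' A * g (A + (0 : ℂ) • (A * X)) + f (A + (0 : ℂ) • (A * X)) * g' A =
      f' A * g A + f A * g' A := by
    rw [zero_smul, add_zero]
  rw [h2] at h1
  exact h1

theorem Der.lin (X : E) (l : E →ₗ[ℂ] ℂ) : Der X (fun A => l A) (fun A => l (A * X)) :=
  fun A => line_der (A * X) l A

theorem Der.const (X : E) (c : ℂ) : Der X (fun _ => c) (fun _ => 0) := fun A => hasDerivAt_const _ _

/-- The commutator of two fields. -/
theorem der_comm (X Y : E) (f : E → ℂ) (hf : f ∈ Pol E) : ∃ fX ∈ Pol E, ∃ fY ∈ Pol E, ∃ fXY ∈ Pol E, ∃ fYX ∈ Pol E,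
    Der X f fX ∧ Der Y f fY ∧ Der Y fX fXY ∧ Der X fY fYX ∧
      Der (X * Y - Y * X) f (fun A => fYX A - fXY A) := by
  refine (pol_ind (P := fun f => f ∈ Pol E ∧ ∃ fX ∈ Pol E, ∃ fY ∈ Pol E, ∃ fXY ∈ Pol E, ∃ fYX ∈ Pol E,
    Der X f fX ∧ Der Y f fY ∧ Der Y fX fXY ∧ Der X fY fYX ∧
      Der (X * Y - Y * X) f (fun A => fYX A - fXY A)) ?_ ?_ ?_ ?_ f hf).2
  · intro l
    refine ⟨lin_mem l, _, lin_mem (l.comp (LinearMap.mulRight ℂ X)), _, lin_mem (l.comp (LinearMap.mulRight ℂ Y)),
      _, lin_mem (l.comp (LinearMap.mulRight ℂ (Y * X))), _, lin_mem (l.comp (LinearMap.mulRight ℂ (X * Y))),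
      Der.lin X l, Der.lin Y l, ?_, ?_, ?_⟩
    · have h := Der.lin Y (l.comp (LinearMap.mulRight ℂ X))
      intro A
      have h1 := h A
      simp only [LinearMap.comp_apply, LinearMap.mulRight_apply, mul_assoc] at h1 ⊢
      exact h1
    · have h := Der.lin X (l.comp (LinearMap.mulRight ℂ Y))
      intro A
      have h1 := h A
      simp only [LinearMap.comp_apply, LinearMap.mulRight_apply, mul_assoc] at h1 ⊢
      exact h1
    · have h := Der.lin (X * Y - Y * X) l
      intro A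
      have h1 := h A
      simp only [LinearMap.comp_apply, LinearMap.mulRight_apply, mul_sub, map_sub] at h1 ⊢
      exact h1
  · intro c
    refine ⟨(Pol E).algebraMap_mem c, _, (Pol E).zero_mem, _, (Pol E).zero_mem, _, (Pol E).zero_mem, _,
      (Pol E).zero_mem, Der.const X c, Der.const Y c, Der.const Y 0, Der.const X 0, ?_⟩
    intro A
    have h := Der.const (X * Y - Y * X) c A
    simpa using h
  · rintro f g ⟨hf, fX, hfX, fY, hfY, fXY, hfXY, fYX, hfYX, h1, h2, h3, h4, h5⟩
      ⟨hg, gX, hgX, gY, hgY, gXY, hgXY, gYX, hgYX, k1, k2, k3, k4, k5⟩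
    refine ⟨(Pol E).add_mem hf hg, _, (Pol E).add_mem hfX hgX, _, (Pol E).add_mem hfY hgY, _,
      (Pol E).add_mem hfXY hgXY, _, (Pol E).add_mem hfYX hgYX, h1.add k1, h2.add k2, h3.add k3, h4.add k4, ?_⟩
    intro A
    have h := (h5.add k5) A
    simp only [Pi.add_apply]
    convert h using 1
    ring
  · rintro f g ⟨hf, fX, hfX, fY, hfY, fXY, hfXY, fYX, hfYX, h1, h2, h3, h4, h5⟩
      ⟨hg, gX, hgX, gY, hgY, gXY, hgXY, gYX, hgYX, k1, k2, k3, k4, k5⟩
    refine ⟨(Pol E).mul_mem hf hg, _, (Pol E).add_mem ((Pol E).mul_mem hfX hg) ((Pol E).mul_mem hf hgX), _,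
      (Pol E).add_mem ((Pol E).mul_mem hfY hg) ((Pol E).mul_mem hf hgY), _,
      (Pol E).add_mem ((Pol E).add_mem ((Pol E).mul_mem hfXY hg) ((Pol E).mul_mem hfX hgY))
        ((Pol E).add_mem ((Pol E).mul_mem hfY hgX) ((Pol E).mul_mem hf hgXY)), _,
      (Pol E).add_mem ((Pol E).add_mem ((Pol E).mul_mem hfYX hg) ((Pol E).mul_mem hfY hgX))
        ((Pol E).add_mem ((Pol E).mul_mem hfX hgY) ((Pol E).mul_mem hf hgYX)), h1.mul k1, h2.mul k2,
      (h3.mul k2).add (h2.mul k3), (h4.mul k1).add (h1.mul k4), ?_⟩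
    intro A
    have h := (h5.mul k5) A
    simp only [Pi.add_apply, Pi.mul_apply]
    convert h using 1
    ring

/-- The derivative of a polynomial function which vanishes on the group vanishes on the group. -/
theorem der_van (Gam : Subgroup Eˣ) {X : E} (hX : InTan Gam X) {f f' : E → ℂ} (hf : f ∈ Pol E)
    (h : Der X f f') (hv : ∀ u ∈ Gam, f ((u : Eˣ) : E) = 0) : ∀ u ∈ Gam, f' ((u : Eˣ) : E) = 0 := by
  intro u hu
  have h2 := hX (fun A => f (LinearMap.mulLeft ℂ (u : E) A))
    (comp_mem (LinearMap.mulLeft ℂ (u : E)) f hf) (by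
      intro v hv'
      have := hv (u * v) (Gam.mul_mem hu hv')
      simpa using this)
  have h3 : (fun t : ℂ => f (LinearMap.mulLeft ℂ (u : E) (1 + t • X)))
      = fun t : ℂ => f ((u : E) + t • ((u : E) * X)) := by
    funext t
    congr 1
    simp [mul_add]
  rw [h3, (h (u : E)).deriv] at h2
  exact h2

/-- The tangent space is closed under the bracket. -/
theorem _root_.Pool.Agent.BM.tan_lie (Gam : Subgroup Eˣ) {X Y : E} (hX : InTan Gam X) (hY : InTan Gam Y) :
    InTan Gam (X * Y - Y * X) := by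
  intro f hf hv
  obtain ⟨fX, hfX, fY, hfY, fXY, hfXY, fYX, hfYX, h1, h2, h3, h4, h5⟩ := der_comm X Y f hf
  have k1 := der_van Gam hX hf h1 hv
  have k2 := der_van Gam hY hf h2 hv
  have k3 := der_van Gam hY hfX h3 k1 1 Gam.one_mem
  have k4 := der_van Gam hX hfY h4 k2 1 Gam.one_mem
  have h6 := (h5 1).deriv
  rw [one_mul] at h6
  rw [Units.val_one] at k3 k4
  rw [h6]
  show fYX 1 - fXY 1 = 0
  rw [k3, k4, sub_zero]

end lie

section expoly

/-- The functions `(k, t) ↦ ∑ μ ^ k q_μ(t)`. -/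
noncomputable def ev : MonoidAlgebra ℂ[X] ℂˣ →+* (ℕ × ℂ → ℂ) :=
  MonoidAlgebra.liftNCRingHom
    ({ toFun := fun q p => q.eval p.2
       map_one' := by funext p; simp
       map_mul' := fun a b => by funext p; simp
       map_zero' := by funext p; simp
       map_add' := fun a b => by funext p; simp } : ℂ[X] →+* (ℕ × ℂ → ℂ))
    ({ toFun := fun μ p => (μ : ℂ) ^ p.1
       map_one' := by funext p; simp
       map_mul' := fun a b => by funext p; simp [mul_pow] } : ℂˣ →* (ℕ × ℂ → ℂ))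
    (fun _ _ => Commute.all _ _)

theorem ev_single (μ : ℂˣ) (q : ℂ[X]) (p : ℕ × ℂ) :
    ev (MonoidAlgebra.single μ q) p = q.eval p.2 * (μ : ℂ) ^ p.1 := by
  simp [ev, MonoidAlgebra.liftNCRingHom]

theorem ev_apply (c : MonoidAlgebra ℂ[X] ℂˣ) (p : ℕ × ℂ) :
    ev c p = c.coeff.sum fun μ q => q.eval p.2 * (μ : ℂ) ^ p.1 := by
  induction c using MonoidAlgebra.induction_linear with
  | zero => simp
  | add f g hf hg =>
    rw [map_add, Pi.add_apply, hf, hg, MonoidAlgebra.coeff_add, Finsupp.sum_add_index']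
    · intro a
      simp
    · intro a b₁ b₂
      simp [add_mul]
  | single a b =>
    rw [ev_single]
    simp

/-- The shift on sequences. -/
def shf : Module.End ℂ (ℕ → ℂ) where
  toFun f k := f (k + 1)
  map_add' _ _ := rfl
  map_smul' _ _ := rfl

theorem shf_iter (μ : ℂ) (n : ℕ) : ∀ q : ℂ → ℂ, ((shf - μ • (1 : Module.End ℂ (ℕ → ℂ))) ^ n)
    (fun k : ℕ => q k * μ ^ k) = μ ^ n • fun k : ℕ => ((fwdDiff (1 : ℂ))^[n] q) k * μ ^ k := by
  induction n with
  | zero =>
    intro q
    simp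
  | succ n ih =>
    intro q
    have h1 : (shf - μ • (1 : Module.End ℂ (ℕ → ℂ))) (fun k : ℕ => q k * μ ^ k) =
        μ • fun k : ℕ => (fwdDiff (1 : ℂ) q) k * μ ^ k := by
      funext k
      show q ((k + 1 : ℕ) : ℂ) * μ ^ (k + 1) - μ * (q k * μ ^ k) = μ * ((q ((k : ℂ) + 1) - q k) * μ ^ k)
      push_cast
      ring
    rw [pow_succ, Module.End.mul_apply, h1, map_smul, ih, smul_smul, ← pow_succ', Function.iterate_succ_apply]

theorem shf_mem (μ : ℂ) (q : ℂ[X]) :
    (fun k : ℕ => q.eval (k : ℂ) * μ ^ k) ∈ shf.maxGenEigenspace μ := by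
  rw [Module.End.mem_maxGenEigenspace]
  refine ⟨q.natDegree + 1, ?_⟩
  rw [shf_iter μ _ (fun x => q.eval x), Polynomial.fwdDiff_iter_eq_zero_of_degree_lt (Nat.lt_succ_self _)]
  funext k
  simp

theorem ev_diag (c : MonoidAlgebra ℂ[X] ℂˣ) (h : ∀ k : ℕ, ev c (k, (k : ℂ)) = 0) : c = 0 := by
  classical
  have hI : iSupIndep fun μ : ℂˣ => shf.maxGenEigenspace (μ : ℂ) :=
    shf.independent_maxGenEigenspace.comp Units.val_injective
  have hsum : ∑ μ ∈ c.coeff.support, (fun k : ℕ => (c.coeff μ).eval (k : ℂ) * (μ : ℂ) ^ k) = 0 := by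
    funext k
    have h1 := h k
    rw [ev_apply] at h1
    simpa [Finsupp.sum] using h1
  apply MonoidAlgebra.ext
  ext μ : 1
  by_cases hμ : μ ∈ c.coeff.support
  · have h1 : (fun k : ℕ => (c.coeff μ).eval (k : ℂ) * (μ : ℂ) ^ k) =
        - ∑ ν ∈ c.coeff.support.erase μ, (fun k : ℕ => (c.coeff ν).eval (k : ℂ) * (ν : ℂ) ^ k) := by
      rw [← Finset.add_sum_erase _ _ hμ] at hsum
      exact eq_neg_of_add_eq_zero_left hsum
    have h2 : (fun k : ℕ => (c.coeff μ).eval (k : ℂ) * (μ : ℂ) ^ k) ∈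
        ⨆ (ν : ℂˣ) (_ : ν ≠ μ), shf.maxGenEigenspace (ν : ℂ) := by
      rw [h1]
      refine Submodule.neg_mem _ (Submodule.sum_mem _ fun ν hν => ?_)
      exact Submodule.mem_iSup_of_mem ν (Submodule.mem_iSup_of_mem (Finset.ne_of_mem_erase hν) (shf_mem _ _))
    have h3 := (hI μ).le_bot ⟨shf_mem _ _, h2⟩
    rw [Submodule.mem_bot] at h3
    have h4 : c.coeff μ = 0 := by
      refine poly_zero _ 1 Nat.one_pos fun m => ?_
      have h5 := congrFun h3 m
      have h6 : ((μ : ℂ)) ^ m ≠ 0 := pow_ne_zero _ μ.ne_zero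
      have h7 : (c.coeff μ).eval (m : ℂ) * (μ : ℂ) ^ m = 0 := h5
      rw [one_mul]
      exact (mul_eq_zero.1 h7).resolve_right h6
    rw [h4]
    simp
  · rw [Finsupp.notMem_support_iff.1 hμ]
    simp

end expoly

section semi

variable {V : Type} [AddCommGroup V] [Module ℂ V] [FiniteDimensional ℂ V]

/-- The powers of a semisimple invertible endomorphism. -/
theorem semi_pow {s : Module.End ℂ V} (hs : s.IsSemisimple) (hu : IsUnit s) :
    ∃ (I : Finset ℂˣ) (e : ℂˣ → Module.End ℂ V), ∀ k : ℕ, s ^ k = ∑ μ ∈ I, (μ : ℂ) ^ k • e μ := by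
  classical
  have hinj : Function.Injective s := ((Module.End.isUnit_iff s).1 hu).1
  have htop : ⨆ μ : ℂˣ, s.eigenspace (μ : ℂ) = ⊤ := by
    rw [eq_top_iff, ← hs.iSup_eigenspace_eq_top]
    refine iSup_le fun μ => ?_
    by_cases hμ : μ = 0
    · subst hμ
      intro v hv
      rw [Module.End.mem_eigenspace_iff, zero_smul] at hv
      have h1 : v = 0 := hinj (by rw [hv, map_zero])
      rw [h1]
      exact Submodule.zero_mem _
    · exact le_iSup (fun ν : ℂˣ => s.eigenspace (ν : ℂ)) (Units.mk0 μ hμ)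
  let b := Module.finBasis ℂ V
  have h1 : ∀ i, ∃ f : ℂˣ →₀ V, (∀ μ : ℂˣ, f μ ∈ s.eigenspace (μ : ℂ)) ∧ (f.sum fun _ x => x) = b i := by
    intro i
    have h2 : b i ∈ ⨆ μ : ℂˣ, s.eigenspace (μ : ℂ) := by
      rw [htop]
      exact Submodule.mem_top
    exact (Submodule.mem_iSup_iff_exists_finsupp _ _).1 h2
  choose f hf hfb using h1
  refine ⟨Finset.univ.biUnion fun i => (f i).support, fun μ => b.constr ℂ fun i => f i μ, fun k => ?_⟩
  refine b.ext fun i => ?_
  rw [LinearMap.sum_apply]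
  have h2 : ∀ (v : V) (μ : ℂˣ), v ∈ s.eigenspace (μ : ℂ) → (s ^ k) v = (μ : ℂ) ^ k • v := by
    intro v μ hv
    rw [Module.End.mem_eigenspace_iff] at hv
    induction k with
    | zero => simp
    | succ k ih => rw [pow_succ', Module.End.mul_apply, ih, map_smul, hv, smul_smul, ← pow_succ]
  have h3 : (s ^ k) (b i) = ∑ μ ∈ (f i).support, (μ : ℂ) ^ k • f i μ := by
    conv_lhs => rw [← hfb i]
    rw [Finsupp.sum, map_sum]
    exact Finset.sum_congr rfl fun μ _ => h2 _ μ (hf i μ)
  rw [h3]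
  have h4 : (f i).support ⊆ Finset.univ.biUnion fun i => (f i).support :=
    Finset.subset_biUnion_of_mem (fun i => (f i).support) (Finset.mem_univ i)
  rw [Finset.sum_subset h4 fun μ _ hμ => by rw [Finsupp.notMem_support_iff.1 hμ, smul_zero]]
  refine Finset.sum_congr rfl fun μ _ => ?_
  rw [LinearMap.smul_apply, Module.Basis.constr_basis]

end semi

section log

/-- The binomial polynomials. -/
noncomputable def bin (j : ℕ) : ℂ[X] := C ((j.factorial : ℂ)⁻¹) * descPochhammer ℂ j

theorem bin_eval (j k : ℕ) : (bin j).eval (k : ℂ) = (k.choose j : ℂ) := by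
  rw [bin, eval_mul, eval_C, descPochhammer_eval_eq_descFactorial, Nat.descFactorial_eq_factorial_mul_choose]
  have h : (j.factorial : ℂ) ≠ 0 := by exact_mod_cast j.factorial_ne_zero
  push_cast
  field_simp

theorem bin_d0 : (derivative (bin 0)).eval 0 = 0 := by
  simp [bin]

theorem bin_d1 : (derivative (bin 1)).eval 0 = 1 := by
  simp [bin]

theorem bin_d2 : (derivative (bin 2)).eval 0 = -(1 / 2) := by
  rw [bin, descPochhammer_succ_right]
  simp

variable {E : Type} [Ring E] [Algebra ℂ E]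

/-- `(1 + m) ^ t` for nilpotent `m`. -/
noncomputable def U (m : E) (d : ℕ) (t : ℂ) : E := ∑ j ∈ range d, (bin j).eval t • m ^ j

theorem U_nat {m : E} {d : ℕ} (hm : m ^ d = 0) (k : ℕ) : U m d k = (1 + m) ^ k := by
  have h1 : (1 + m) ^ k = ∑ j ∈ range (k + 1), (k.choose j : ℂ) • m ^ j := by
    rw [add_comm, (Commute.one_right m).add_pow]
    refine Finset.sum_congr rfl fun j _ => ?_
    rw [one_pow, mul_one, Algebra.smul_def, map_natCast, (Nat.cast_commute _ _).eq]
  have h2 : ∑ j ∈ range (k + 1), (k.choose j : ℂ) • m ^ j = ∑ j ∈ range (k + 1 + d), (k.choose j : ℂ) • m ^ j := by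
    refine Finset.sum_subset (Finset.range_mono (Nat.le_add_right _ _)) fun j _ hj => ?_
    rw [Finset.mem_range, not_lt] at hj
    rw [Nat.choose_eq_zero_of_lt (by omega), Nat.cast_zero, zero_smul]
  have h3 : U m d k = ∑ j ∈ range (k + 1 + d), (k.choose j : ℂ) • m ^ j := by
    unfold U
    simp only [bin_eval]
    refine Finset.sum_subset (Finset.range_mono (Nat.le_add_left _ _)) fun j _ hj => ?_
    rw [Finset.mem_range, not_lt] at hj
    rw [pow_eq_zero_of_le hj hm, smul_zero]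
  rw [h1, h2, h3]

/-- Polynomial functions along `s ^ k (1 + m) ^ t`. -/
theorem rep {s m : E} {I : Finset ℂˣ} {e : ℂˣ → E} (hs : ∀ k : ℕ, s ^ k = ∑ μ ∈ I, (μ : ℂ) ^ k • e μ) (d : ℕ)
    (f : E → ℂ) (hf : f ∈ Pol E) : ∃ c : MonoidAlgebra ℂ[X] ℂˣ, ∀ (k : ℕ) (t : ℂ), f (s ^ k * U m d t) = ev c (k, t) := by
  refine pol_ind (P := fun f => ∃ c : MonoidAlgebra ℂ[X] ℂˣ, ∀ (k : ℕ) (t : ℂ), f (s ^ k * U m d t) = ev c (k, t))
    ?_ ?_ ?_ ?_ f hf
  · intro l
    refine ⟨∑ μ ∈ I, ∑ j ∈ range d, MonoidAlgebra.single μ (C (l (e μ * m ^ j)) * bin j), fun k t => ?_⟩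
    show l (s ^ k * U m d t) = _
    rw [map_sum, Finset.sum_apply, hs, Finset.sum_mul, map_sum]
    refine Finset.sum_congr rfl fun μ _ => ?_
    rw [map_sum, Finset.sum_apply, U, Finset.mul_sum, map_sum]
    refine Finset.sum_congr rfl fun j _ => ?_
    rw [ev_single, smul_mul_assoc, mul_smul_comm, map_smul, map_smul, eval_mul, eval_C, smul_eq_mul, smul_eq_mul]
    ring
  · intro a
    refine ⟨MonoidAlgebra.single 1 (C a), fun k t => ?_⟩
    rw [ev_single]
    simp
  · rintro f g ⟨c, hc⟩ ⟨c', hc'⟩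
    refine ⟨c + c', fun k t => ?_⟩
    show f (s ^ k * U m d t) + g (s ^ k * U m d t) = _
    rw [map_add, Pi.add_apply, hc, hc']
  · rintro f g ⟨c, hc⟩ ⟨c', hc'⟩
    refine ⟨c * c', fun k t => ?_⟩
    show f (s ^ k * U m d t) * g (s ^ k * U m d t) = _
    rw [map_mul, Pi.mul_apply, hc, hc']

variable {V : Type} [AddCommGroup V] [Module ℂ V] [FiniteDimensional ℂ V]

/-- **The logarithm of the unipotent part.** -/
theorem _root_.Pool.Agent.BM.exists_log (Gam : Subgroup (Module.End ℂ V)ˣ) (g : (Module.End ℂ V)ˣ) (hg : g ∈ Gam) :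
    ∃ X : Module.End ℂ V, InTan Gam X ∧
      (∀ Y : Module.End ℂ V, Y * (g : Module.End ℂ V) = (g : Module.End ℂ V) * Y → Y * X = X * Y) ∧
      ∀ v : V, ((((g : Module.End ℂ V) - 1) ^ 3 : Module.End ℂ V)) v = 0 →
        X v = ((g : Module.End ℂ V) - 1) v - (1 / 2 : ℂ) • ((g : Module.End ℂ V) - 1) (((g : Module.End ℂ V) - 1) v) := by
  obtain ⟨n, hn, s, hs, hnil, hss, hgs⟩ := Module.End.exists_isNilpotent_isSemisimple (f := (g : Module.End ℂ V))
  have hcom : ∀ Y : Module.End ℂ V, Commute Y (g : Module.End ℂ V) → Commute Y n ∧ Commute Y s := fun Y hY =>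
    ⟨(Algebra.commute_of_mem_adjoin_singleton_of_commute hn hY), (Algebra.commute_of_mem_adjoin_singleton_of_commute hs hY)⟩
  have hgn : Commute (g : Module.End ℂ V) n := (hcom _ (Commute.refl _)).1
  have hgs' : Commute (g : Module.End ℂ V) s := (hcom _ (Commute.refl _)).2
  have hsn : Commute s n := (hcom s hgs'.symm).1
  have hsu : IsUnit s := by
    have h1 : s = (g : Module.End ℂ V) + -n := by rw [hgs]; abel
    rw [h1]
    exact hnil.neg.isUnit_add_left_of_commute g.isUnit (hgn.symm.neg_left)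
  obtain ⟨I, e, hI⟩ := semi_pow hss hsu
  obtain ⟨su, hsu'⟩ := hsu
  -- `m = s⁻¹ n`
  have hsi : ∀ Y : Module.End ℂ V, Commute Y s → Commute Y ((su⁻¹ : (Module.End ℂ V)ˣ) : Module.End ℂ V) := by
    intro Y hY
    rw [← hsu'] at hY
    exact hY.units_inv_right
  obtain ⟨m, hm⟩ : ∃ m : Module.End ℂ V, m = ((su⁻¹ : (Module.End ℂ V)ˣ) : Module.End ℂ V) * n := ⟨_, rfl⟩
  have hsin : Commute ((su⁻¹ : (Module.End ℂ V)ˣ) : Module.End ℂ V) n := (hsi n hsn.symm).symm
  have hmnil : IsNilpotent m := by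
    rw [hm]
    exact hsin.isNilpotent_mul_left hnil
  have hcm : ∀ Y : Module.End ℂ V, Commute Y (g : Module.End ℂ V) → Commute Y m := fun Y hY => by
    rw [hm]
    exact (hsi Y (hcom Y hY).2).mul_right (hcom Y hY).1
  have hsm : Commute s m := hcm s hgs'.symm
  have hg1 : (g : Module.End ℂ V) = s * (1 + m) := by
    rw [mul_add, mul_one, hm, ← hsu', Units.mul_inv_cancel_left, hsu', hgs, add_comm]
  obtain ⟨d0, hd0⟩ := hmnil
  have hmd : m ^ (d0 + 3) = 0 := pow_eq_zero_of_le (Nat.le_add_right _ _) hd0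
  have hgk : ∀ k : ℕ, ((g ^ k : (Module.End ℂ V)ˣ) : Module.End ℂ V) = s ^ k * U m (d0 + 3) k := by
    intro k
    rw [U_nat hmd, Units.val_pow_eq_pow_val, hg1, Commute.mul_pow]
    exact (Commute.one_right s).add_right hsm
  refine ⟨∑ j ∈ range (d0 + 3), (derivative (bin j)).eval 0 • m ^ j, ?_, ?_, ?_⟩
  · refine tan_of_curve Gam _ (U m (d0 + 3)) ?_ ?_ ?_
    · have h1 := U_nat hmd 0
      rw [Nat.cast_zero, pow_zero] at h1
      exact h1
    · intro l
      have h1 : (fun t : ℂ => l (U m (d0 + 3) t)) = fun t : ℂ => ∑ j ∈ range (d0 + 3), (bin j).eval t * l (m ^ j) := by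
        funext t
        rw [U, map_sum]
        exact Finset.sum_congr rfl fun j _ => by rw [map_smul, smul_eq_mul]
      rw [h1, map_sum]
      have h2 := HasDerivAt.fun_sum (u := range (d0 + 3)) (A := fun j (t : ℂ) => (bin j).eval t * l (m ^ j))
        (A' := fun j => l ((derivative (bin j)).eval 0 • m ^ j)) (x := (0 : ℂ)) (fun j _ => by
          rw [map_smul, smul_eq_mul]
          exact ((bin j).hasDerivAt 0).mul_const _)
      exact h2
    · intro f hf hv t
      obtain ⟨c, hc⟩ := rep hI (d0 + 3) f hf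
      have h1 : c = 0 := by
        apply ev_diag
        intro k
        rw [← hc, ← hgk]
        exact hv _ (Gam.pow_mem hg k)
      have h2 := hc 0 t
      rw [pow_zero, one_mul, h1, map_zero, Pi.zero_apply] at h2
      exact h2
  · intro Y hY
    exact Commute.sum_right _ _ _ fun j _ => ((hcm Y hY).pow_right j).smul_right _
  · intro v hv
    have h1 : s v = v := by
      obtain ⟨e', he'⟩ := hnil
      have h2 : v ∈ s.maxGenEigenspace 1 := by
        rw [Module.End.mem_maxGenEigenspace]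
        refine ⟨3 + e', ?_⟩
        have h3 : s - (1 : ℂ) • (1 : Module.End ℂ V) = -n + ((g : Module.End ℂ V) - 1) := by
          rw [hgs, one_smul]; abel
        have h4 : Commute (-n) ((g : Module.End ℂ V) - 1) :=
          (hgn.symm.sub_right (Commute.one_right n)).neg_left
        rw [h3, h4.add_pow, LinearMap.sum_apply]
        refine Finset.sum_eq_zero fun j hj => ?_
        rw [← Nat.cast_comm, Module.End.mul_apply, Module.End.mul_apply]
        have h5 : ((-n) ^ j * ((g : Module.End ℂ V) - 1) ^ (3 + e' - j)) v = 0 := by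
          by_cases h : e' ≤ j
          · rw [neg_pow, pow_eq_zero_of_le h he', mul_zero, zero_mul, LinearMap.zero_apply]
          · have h6 : 3 + e' - j = (e' - j) + 3 := by omega
            rw [h6, pow_add, Module.End.mul_apply, Module.End.mul_apply, hv, map_zero, map_zero]
        rw [Module.End.mul_apply] at h5
        rw [h5, map_zero]
      rw [hss.isFinitelySemisimple.maxGenEigenspace_eq_eigenspace, Module.End.mem_eigenspace_iff, one_smul] at h2
      exact h2
    have h2 : ∀ w : V, s w = w → ((su⁻¹ : (Module.End ℂ V)ˣ) : Module.End ℂ V) w = w := by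
      intro w hw
      conv_lhs => rw [← hw, ← hsu']
      rw [← Module.End.mul_apply, Units.inv_mul, Module.End.one_apply]
    have h3 : ∀ w : V, s w = w → m w = ((g : Module.End ℂ V) - 1) w ∧ s (m w) = m w := by
      intro w hw
      have h4 : m w = n w := by
        rw [hm, (hsin.eq), Module.End.mul_apply, h2 w hw]
      have h5 : ((g : Module.End ℂ V) - 1) w = n w := by
        rw [hgs, LinearMap.sub_apply, LinearMap.add_apply, hw, Module.End.one_apply, add_sub_cancel_right]
      refine ⟨h4.trans h5.symm, ?_⟩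
      rw [← Module.End.mul_apply, hsm.eq, Module.End.mul_apply, hw]
    obtain ⟨k1, k2⟩ := h3 v h1
    obtain ⟨k3, k4⟩ := h3 (m v) k2
    obtain ⟨k5, k6⟩ := h3 (m (m v)) k4
    have h7 : (m ^ 3) v = 0 := by
      have h8 : (m ^ 3) v = m (m (m v)) := by
        rw [pow_succ, pow_succ, pow_one, Module.End.mul_apply, Module.End.mul_apply]
      have hv' := hv
      rw [pow_succ, pow_succ, pow_one, Module.End.mul_apply, Module.End.mul_apply] at hv'
      rw [h8, k5, k3, k1, hv']
    rw [LinearMap.sum_apply, show d0 + 3 = 3 + d0 by omega, Finset.sum_range_add]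
    have h8 : ∑ x ∈ range d0, ((derivative (bin (3 + x))).eval 0 • m ^ (3 + x)) v = 0 := by
      refine Finset.sum_eq_zero fun x _ => ?_
      rw [LinearMap.smul_apply, show 3 + x = x + 3 by omega, pow_add, Module.End.mul_apply, h7, map_zero, smul_zero]
    rw [h8, add_zero, Finset.sum_range_succ, Finset.sum_range_succ, Finset.sum_range_succ, Finset.sum_range_zero,
      bin_d0, bin_d1, bin_d2, zero_smul, LinearMap.zero_apply, one_smul, pow_one, zero_add, zero_add,
      LinearMap.smul_apply, pow_two, Module.End.mul_apply, k3, k1, neg_smul, ← sub_eq_add_neg]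

end log

section final

variable {V : Type} [AddCommGroup V] [Module ℂ V] {Γ : Type} [Group Γ]

/-- Elements of the Lie algebra commute with everything that commutes with the group. -/
theorem _root_.Pool.Agent.BM.inLie_comm {E : Type} [Ring E] [Algebra ℂ E] (G : Set E) {X Y : E} (hX : InLie G X)
    (h : ∀ x ∈ G, Y * x = x * Y) (l : Module.Dual ℂ E) : l (Y * X) = l (X * Y) := by
  have h1 := hX (fun A => (l.comp (LinearMap.mulLeft ℂ Y - LinearMap.mulRight ℂ Y)) A) (lin_mem _) (by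
    intro x hx
    show l (Y * x - x * Y) = 0
    rw [h x hx, sub_self, map_zero])
  rw [(line_der X (l.comp (LinearMap.mulLeft ℂ Y - LinearMap.mulRight ℂ Y)) 1).deriv] at h1
  have h2 : l (Y * X - X * Y) = 0 := h1
  rw [map_sub] at h2
  exact sub_eq_zero.1 h2

/-- **The Lie algebra of the Zariski closure of the image of `K`**: it is closed under brackets, commutes with all
that commutes with `K`, and contains the logarithms of the unipotent parts of the elements of `K`. -/
theorem _root_.Pool.Agent.BM.exists_lie_all [FiniteDimensional ℂ V] (rho : Γ →* Module.End ℂ V) (K : Subgroup Γ) :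
    ∃ L : Submodule ℂ (Module.End ℂ V),
      (∀ X, X ∈ L ↔ InLie ((fun γ => rho γ) '' (K : Set Γ)) X) ∧
      (∀ X ∈ L, ∀ Y ∈ L, X * Y - Y * X ∈ L) ∧
      (∀ Y : Module.End ℂ V, (∀ γ ∈ K, Y * rho γ = rho γ * Y) → ∀ X ∈ L, Y * X = X * Y) ∧
      ∀ γ ∈ K, ∃ X ∈ L, ∀ v : V, ((rho γ - 1) ^ 3 : Module.End ℂ V) v = 0 →
        X v = (rho γ - 1) v - (1 / 2 : ℂ) • ((rho γ - 1) ^ 2 : Module.End ℂ V) v := by
  refine ⟨tan (K.map rho.toHomUnits), fun X => (inLie_iff rho K X).symm, fun X hX Y hY => tan_lie _ hX hY, ?_, ?_⟩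
  · intro Y hY X hX
    refine (Module.forall_dual_apply_eq_zero_iff ℂ (Y * X - X * Y)).1 ?_ |> sub_eq_zero.1
    intro l
    rw [map_sub, inLie_comm _ ((inLie_iff rho K X).2 hX) (by rintro _ ⟨γ, hγ, rfl⟩; exact hY γ hγ) l, sub_self]
  · intro γ hγ
    obtain ⟨X, h1, -, h3⟩ := exists_log (K.map rho.toHomUnits) (rho.toHomUnits γ) ⟨γ, hγ, rfl⟩
    refine ⟨X, h1, fun v hv => ?_⟩
    rw [pow_two, Module.End.mul_apply]
    exact h3 v hv

end final

end Pool.Agent.BM.Jor
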