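import Mathlib
import Pool.Agent.Lib.MP_943dad_ag.BM.CupF

set_option linter.all false

/-!
# The cohomology of a quotient cover

For a homomorphism `q : H → H'` the cohomology of the cover `q ∘ φ` is the space of the classes of `φ` which are
invariant under the kernel of `q`; the deck transformations, the mapping classes and the cup products are compatible.
-/

namespace Pool.Agent.BM

open Pool.Agent.HMv

variable {H H' : Type} [Group H] [Group H'] {g n : ℕ}

open Classical in
/-- The restriction of a class of `q ∘ φ` to the kernel of `φ`. -/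
noncomputable def res (q : H →* H') (φ : F g n →* H) : Coh (q.comp φ) →ₗ[ℂ] Coh φ where
  toFun f := ⟨fun x => if φ x = 1 then f.1 x else 0, by
    have hq : ∀ x, φ x = 1 → (q.comp φ) x = 1 := fun x hx => by
      rw [MonoidHom.comp_apply, hx, map_one]
    obtain ⟨h1, h2, h3, h4⟩ := f.2
    refine ⟨fun x hx => if_neg hx, fun x y hx hy => ?_, fun x => ?_, fun x j k hk => ?_⟩
    · change (if φ (x * y) = 1 then f.1 (x * y) else 0) = (if φ x = 1 then f.1 x else 0) +
        (if φ y = 1 then f.1 y else 0)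
      rw [if_pos hx, if_pos hy, if_pos (by rw [map_mul, hx, hy, one_mul]), h2 x y (hq x hx) (hq y hy)]
    · change (if φ (x * R g n * x⁻¹) = 1 then f.1 (x * R g n * x⁻¹) else 0) = 0
      rw [h3, ite_self]
    · change (if φ (x * c g j ^ k * x⁻¹) = 1 then f.1 (x * c g j ^ k * x⁻¹) else 0) = 0
      rw [h4 x j k (by rw [MonoidHom.comp_apply, ← map_pow, hk, map_one]), ite_self]⟩
  map_add' f f' := by
    apply Subtype.ext
    funext x
    change (if φ x = 1 then f.1 x + f'.1 x else 0) = (if φ x = 1 then f.1 x else 0) + (if φ x = 1 then f'.1 x else 0)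
    split_ifs <;> simp
  map_smul' t f := by
    apply Subtype.ext
    funext x
    change (if φ x = 1 then t * f.1 x else 0) = t * (if φ x = 1 then f.1 x else 0)
    split_ifs <;> simp

theorem res_apply (q : H →* H') (φ : F g n →* H) (f : Coh (q.comp φ)) {x : F g n} (hx : φ x = 1) :
    (res q φ f).1 x = f.1 x := by
  classical
  change (if φ x = 1 then f.1 x else 0) = f.1 x
  rw [if_pos hx]

theorem coh_pow {φ : F g n →* H} (f : Coh φ) {x : F g n} (hx : φ x = 1) (m : ℕ) : f.1 (x ^ m) = m * f.1 x :=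
  AddK.pow (φ := φ) f.2.2.1 hx m

/-- Two classes which agree on the kernel agree. -/
theorem coh_ext {φ : F g n →* H} {f f' : Coh φ} (h : ∀ x, φ x = 1 → f.1 x = f'.1 x) : f = f' := by
  apply Subtype.ext
  funext x
  by_cases hx : φ x = 1
  · exact h x hx
  · rw [f.2.1 x hx, f'.2.1 x hx]

theorem res_injective [Finite H] (q : H →* H') (φ : F g n →* H) : Function.Injective (res q φ) := by
  intro f f' h
  apply coh_ext
  intro x hx
  have hm : φ (x ^ Nat.card H) = 1 := by rw [map_pow, pow_card_eq_one']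
  have h1 : (res q φ f).1 (x ^ Nat.card H) = (res q φ f').1 (x ^ Nat.card H) := by rw [h]
  rw [res_apply q φ f hm, res_apply q φ f' hm, coh_pow f hx, coh_pow f' hx] at h1
  have h2 : (Nat.card H : ℂ) ≠ 0 := by
    have : 0 < Nat.card H := Nat.card_pos
    exact_mod_cast this.ne'
  exact mul_left_cancel₀ h2 h1

/-- The restriction commutes with the deck transformations. -/
theorem res_inn (q : H →* H') (φ : F g n →* H) (y : F g n) (f : Coh (q.comp φ)) :
    res q φ (inn (q.comp φ) y f) = inn φ y (res q φ f) := by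
  apply coh_ext
  intro x hx
  rw [res_apply q φ _ hx]
  change f.1 (y⁻¹ * x * y) = (res q φ f).1 (y⁻¹ * x * y)
  rw [res_apply q φ f (by simp [hx])]

/-- A class of `q ∘ φ` restricts to a class which is invariant under the kernel of `q`. -/
theorem inn_res (q : H →* H') (φ : F g n →* H) {y : F g n} (hy : q (φ y) = 1) (f : Coh (q.comp φ)) :
    inn φ y (res q φ f) = res q φ f := by
  rw [← res_inn]
  congr 1
  apply coh_ext
  intro x hx
  change f.1 (y⁻¹ * x * y) = f.1 x
  have h1 := f.2.2.1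
  have hy' : (q.comp φ) y = 1 := hy
  have hyi : (q.comp φ) y⁻¹ = 1 := by rw [map_inv, hy', inv_one]
  rw [h1 _ _ (by rw [map_mul, hyi, hx, one_mul]) hy', h1 _ _ hyi hx]
  have h2 := h1 y⁻¹ y hyi hy'
  rw [inv_mul_cancel] at h2
  have h3 := h1 1 1 (map_one _) (map_one _)
  rw [mul_one] at h3
  linear_combination -h2 - h3

/-- An invariant class comes from the quotient cover. -/
theorem exists_res [Finite H] (q : H →* H') (φ : F g n →* H) (hφ : Function.Surjective φ)
    (hR : φ (R g n) = 1) (f : Coh φ) (hf : ∀ y, q (φ y) = 1 → inn φ y f = f) : ∃ f' : Coh (q.comp φ), res q φ f' = f := by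
  classical
  haveI : Fintype q.ker := Fintype.ofFinite _
  -- the homomorphism from the kernel of `q ∘ φ` to the kernel of `q`
  let φ₁ : (q.comp φ).ker →* q.ker := (φ.comp (q.comp φ).ker.subtype).codRestrict q.ker fun x => x.2
  have hφ₁ : ∀ x : (q.comp φ).ker, ((φ₁ x : q.ker) : H) = φ x.1 := fun x => rfl
  have hker : ∀ x : (q.comp φ).ker, φ₁ x = 1 ↔ φ x.1 = 1 := by
    intro x
    rw [← hφ₁ x]
    exact ⟨fun h => by rw [h]; rfl, fun h => Subtype.ext h⟩
  have hsurj : ∀ h : q.ker, ∃ x : (q.comp φ).ker, φ₁ x = h := by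
    rintro ⟨h, hh⟩
    obtain ⟨x, rfl⟩ := hφ h
    exact ⟨⟨x, hh⟩, rfl⟩
  choose s hs using hsurj
  have hQ : AddK φ₁ (fun x => f.1 x.1) := fun x y hx hy =>
    f.2.2.1 _ _ ((hker x).1 hx) ((hker y).1 hy)
  let T := trHom hQ hs
  have hT : ∀ x : (q.comp φ).ker, φ x.1 = 1 → Multiplicative.toAdd (T x) = Fintype.card q.ker * f.1 x.1 := by
    intro x hx
    rw [trHom_ker hQ hs ((hker x).2 hx)]
    have h1 : ∀ h : q.ker, f.1 ((s h * x * (s h)⁻¹ : (q.comp φ).ker) : F g n) = f.1 x.1 := by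
      intro h
      have h2 := hf (s h).1⁻¹ (by
        have h3 : q (φ (s h).1) = 1 := (s h).2
        rw [map_inv, map_inv, h3, inv_one])
      have h3 : (inn φ (s h).1⁻¹ f).1 x.1 = f.1 x.1 := by rw [h2]
      have h4 : (inn φ (s h).1⁻¹ f).1 x.1 = f.1 ((s h).1⁻¹⁻¹ * x.1 * (s h).1⁻¹) := rfl
      rw [h4, inv_inv] at h3
      exact h3
    simp only [h1]
    rw [Finset.sum_const, Finset.card_univ, nsmul_eq_mul]
  have hc : (Fintype.card q.ker : ℂ) ≠ 0 := by
    have : 0 < Fintype.card q.ker := Fintype.card_pos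
    exact_mod_cast this.ne'
  let f₀ : F g n → ℂ := fun x => if h : (q.comp φ) x = 1 then
    (1 / (Fintype.card q.ker : ℂ)) * Multiplicative.toAdd (T ⟨x, h⟩) else 0
  have hf₀ : ∀ (x : F g n) (h : (q.comp φ) x = 1), f₀ x =
      (1 / (Fintype.card q.ker : ℂ)) * Multiplicative.toAdd (T ⟨x, h⟩) := fun x h => dif_pos h
  have hf₀' : ∀ x : F g n, φ x = 1 → f₀ x = f.1 x := by
    intro x hx
    have h1 : (q.comp φ) x = 1 := by rw [MonoidHom.comp_apply, hx, map_one]
    rw [hf₀ x h1, hT ⟨x, h1⟩ hx]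
    field_simp
  have hadd : ∀ x y, (q.comp φ) x = 1 → (q.comp φ) y = 1 → f₀ (x * y) = f₀ x + f₀ y := by
    intro x y hx hy
    have hxy : (q.comp φ) (x * y) = 1 := by rw [map_mul, hx, hy, one_mul]
    rw [hf₀ _ hx, hf₀ _ hy, hf₀ _ hxy]
    have h1 : T ⟨x * y, hxy⟩ = T ⟨x, hx⟩ * T ⟨y, hy⟩ := by
      rw [← map_mul]
      rfl
    rw [h1, toAdd_mul]
    ring
  have hpow : ∀ (x : F g n) (m : ℕ), (q.comp φ) x = 1 → f₀ (x ^ m) = m * f₀ x := fun x m hx =>
    AddK.pow (φ := q.comp φ) hadd hx m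
  have hcard : (Nat.card H : ℂ) ≠ 0 := by
    have : 0 < Nat.card H := Nat.card_pos
    exact_mod_cast this.ne'
  refine ⟨⟨f₀, ?_, hadd, fun x => ?_, fun x j k hk => ?_⟩, ?_⟩
  · intro x hx
    exact dif_neg hx
  · rw [hf₀' _ (by simp [hR]), f.2.2.2.1]
  · have h1 : (q.comp φ) (x * c g j ^ k * x⁻¹) = 1 := by
      rw [map_mul, map_mul, map_pow, map_inv, hk, mul_one, mul_inv_cancel]
    have h2 : φ ((x * c g j ^ k * x⁻¹) ^ Nat.card H) = 1 := by rw [map_pow, pow_card_eq_one']
    have h3 := hpow (x * c g j ^ k * x⁻¹) (Nat.card H) h1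
    rw [hf₀' _ h2, conj_pow, ← pow_mul, f.2.2.2.2 x j (k * Nat.card H) (by
      rw [pow_mul, pow_card_eq_one'])] at h3
    exact (mul_eq_zero.1 h3.symm).resolve_left hcard
  · apply coh_ext
    intro x hx
    rw [res_apply q φ _ hx]
    exact hf₀' x hx

/-- The mapping classes which fix `φ` fix `q ∘ φ`. -/
theorem stab_le (q : H →* H') (φ : F g n →* H) : Stab φ ≤ Stab (q.comp φ) := by
  rintro α ⟨h1, h2, h3⟩
  exact ⟨h1, h2, fun x => by rw [MonoidHom.comp_apply, h3]; rfl⟩

/-- The restriction commutes with the mapping classes. -/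
theorem res_mon (q : H →* H') (φ : F g n →* H) (α : Stab φ) (f : Coh (q.comp φ)) :
    res q φ (mon (q.comp φ) ⟨α.1, stab_le q φ α.2⟩ f) = mon φ α (res q φ f) := by
  apply coh_ext
  intro x hx
  rw [res_apply q φ _ hx]
  have h1 : φ ((α⁻¹ : Stab φ).1 x) = 1 := by rw [(α⁻¹ : Stab φ).2.2.2, hx]
  change f.1 _ = (res q φ f).1 ((α⁻¹ : Stab φ).1 x)
  rw [res_apply q φ f h1]
  rfl

/-- A power of a mapping class which fixes `q ∘ φ` is in a given subgroup of finite index of `Stab φ`. -/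
theorem exists_pow_mem [Finite H] (q : H →* H') (φ : F g n →* H) (Δ : Subgroup (Stab φ)) [Δ.FiniteIndex]
    (σ : Stab (q.comp φ)) : ∃ k : ℕ, 0 < k ∧ ∃ τ : Stab φ, τ ∈ Δ ∧ τ.1 = σ.1 ^ k := by
  haveI : Finite (F g n →* H) := Finite.of_injective (fun ψ : F g n →* H => fun s => ψ (FreeGroup.of s))
    (fun ψ ψ' h => FreeGroup.ext_hom _ _ fun s => congrFun h s)
  obtain ⟨i, j, hij, h⟩ := Finite.exists_ne_map_eq_of_infinite
    (fun i : ℕ => φ.comp (σ.1 ^ i : MulAut (F g n)).toMonoidHom)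
  have key : ∀ i j : ℕ, i < j → φ.comp (σ.1 ^ i : MulAut (F g n)).toMonoidHom =
      φ.comp (σ.1 ^ j : MulAut (F g n)).toMonoidHom → ∃ k : ℕ, 0 < k ∧ σ.1 ^ k ∈ Stab φ := by
    intro i j hij h
    refine ⟨j - i, by omega, ?_⟩
    have h1 : σ.1 ^ (j - i) ∈ Stab (q.comp φ) := pow_mem σ.2 _
    refine ⟨h1.1, h1.2.1, fun x => ?_⟩
    have h2 := DFunLike.congr_fun h ((σ.1 ^ i)⁻¹ x)
    have h3 : σ.1 ^ j = σ.1 ^ (j - i) * σ.1 ^ i := by rw [← pow_add]; congr 1; omega
    have h4 : (φ.comp (σ.1 ^ i : MulAut (F g n)).toMonoidHom) ((σ.1 ^ i)⁻¹ x) = φ x := by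
      change φ ((σ.1 ^ i * (σ.1 ^ i)⁻¹) x) = φ x
      rw [mul_inv_cancel]
      rfl
    have h5 : (φ.comp (σ.1 ^ j : MulAut (F g n)).toMonoidHom) ((σ.1 ^ i)⁻¹ x) = φ ((σ.1 ^ (j - i)) x) := by
      change φ ((σ.1 ^ j * (σ.1 ^ i)⁻¹) x) = _
      rw [h3, mul_inv_cancel_right]
    rw [h4, h5] at h2
    exact h2.symm
  obtain ⟨k, hk, hσ⟩ : ∃ k : ℕ, 0 < k ∧ σ.1 ^ k ∈ Stab φ := by
    rcases lt_or_gt_of_ne hij with h1 | h1
    · exact key i j h1 h
    · exact key j i h1 h.symm
  obtain ⟨l, hl, -, h2⟩ := Subgroup.exists_pow_mem_of_index_ne_zero (H := Δ) Subgroup.FiniteIndex.index_ne_zero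
    (⟨σ.1 ^ k, hσ⟩ : Stab φ)
  refine ⟨k * l, Nat.mul_pos hk hl, ⟨σ.1 ^ k, hσ⟩ ^ l, h2, ?_⟩
  rw [SubgroupClass.coe_pow, pow_mul]

/-- The cup products. -/
theorem cup_res [Fintype H] [Fintype H'] (q : H →* H') (hq : Function.Surjective q) (φ : F g n →* H)
    (hφ : Function.Surjective φ) (hR : φ (R g n) = 1) {ω : LinearMap.BilinForm ℂ (Coh φ)} (hω : IsCup φ ω)
    {ω' : LinearMap.BilinForm ℂ (Coh (q.comp φ))} (hω' : IsCup (q.comp φ) ω') (f f' : Coh (q.comp φ)) :
    ω (res q φ f) (res q φ f') = Nat.card q.ker * ω' f f' := by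
  classical
  have hR' : (q.comp φ) (R g n) = 1 := by rw [MonoidHom.comp_apply, hR, map_one]
  obtain ⟨P, hP⟩ := (hω' f f').1
  have hP' : IsPrim φ (res q φ f) (res q φ f') P := by
    refine ⟨fun x y hx hy => ?_, fun x j k hk => ?_⟩
    · rw [res_apply q φ f hx, res_apply q φ f' hy]
      exact hP.1 x y (by rw [MonoidHom.comp_apply, hx, map_one]) (by rw [MonoidHom.comp_apply, hy, map_one])
    · exact hP.2 x j k (by rw [MonoidHom.comp_apply, ← map_pow, hk, map_one])
  set s := Function.surjInv hφ with hs0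
  have hs : ∀ h, φ (s h) = h := Function.surjInv_eq hφ
  set r := Function.surjInv hq with hr0
  have hr : ∀ h, q (r h) = h := Function.surjInv_eq hq
  have hs' : ∀ h, (q.comp φ) (s (r h)) = h := fun h => by rw [MonoidHom.comp_apply, hs, hr]
  rw [(hω _ _).2 P hP' s hs, (hω' f f').2 P hP (fun h => s (r h)) hs']
  have h1 : ∀ h : H, P (s h * R g n * (s h)⁻¹) = P (s (r (q h)) * R g n * (s (r (q h)))⁻¹) := by
    intro h
    exact PrimK.conj_eq (φ := q.comp φ) (coh_addK f) (coh_addK f') hP.1 hR' (coh_R f) (coh_R f') (by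
      rw [hs' (q h), MonoidHom.comp_apply, hs])
  rw [Finset.sum_congr rfl fun h _ => h1 h]
  rw [← Finset.sum_fiberwise_of_maps_to (s := Finset.univ) (t := Finset.univ) (g := q) (fun h _ => Finset.mem_univ _)]
  rw [Finset.mul_sum]
  refine Finset.sum_congr rfl fun k _ => ?_
  have h2 : ∀ h ∈ Finset.univ.filter (fun h => q h = k), P (s (r (q h)) * R g n * (s (r (q h)))⁻¹) =
      P (s (r k) * R g n * (s (r k))⁻¹) := by
    intro h hh
    rw [(Finset.mem_filter.1 hh).2]
  rw [Finset.sum_congr rfl h2, Finset.sum_const, nsmul_eq_mul]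
  congr 1
  have h3 : (Finset.univ.filter fun h => q h = k).card = Nat.card q.ker := by
    rw [← Fintype.card_subtype, ← Nat.card_eq_fintype_card]
    refine Nat.card_congr ⟨fun h => ⟨(r k)⁻¹ * h.1, ?_⟩, fun h => ⟨r k * h.1, ?_⟩, fun h => ?_, fun h => ?_⟩
    · rw [MonoidHom.mem_ker, map_mul, map_inv, hr, h.2, inv_mul_cancel]
    · rw [map_mul, hr, MonoidHom.mem_ker.1 h.2, mul_one]
    · apply Subtype.ext
      simp
    · apply Subtype.ext
      simp
  exact_mod_cast h3

/-- An endomorphism which commutes with the deck transformations restricts to the cohomology of the quotient cover. -/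
theorem exists_restrict [Finite H] (q : H →* H') (φ : F g n →* H) (hφ : Function.Surjective φ)
    (hR : φ (R g n) = 1) {X : Module.End ℂ (Coh φ)} (hX : ∀ y, X * inn φ y = inn φ y * X) :
    ∃ X' : Module.End ℂ (Coh (q.comp φ)), ∀ f, res q φ (X' f) = X (res q φ f) := by
  have h1 : ∀ f : Coh (q.comp φ), ∃ f' : Coh (q.comp φ), res q φ f' = X (res q φ f) := by
    intro f
    apply exists_res q φ hφ hR
    intro y hy
    have h2 := LinearMap.congr_fun (hX y) (res q φ f)
    rw [Module.End.mul_apply, Module.End.mul_apply, inn_res q φ hy] at h2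
    exact h2.symm
  choose X' hX' using h1
  refine ⟨{ toFun := X', map_add' := fun f f' => ?_, map_smul' := fun t f => ?_ }, hX'⟩
  · apply res_injective q φ
    rw [hX', map_add, map_add, map_add, hX', hX']
  · apply res_injective q φ
    rw [hX', map_smul, map_smul, RingHom.id_apply, map_smul, hX']

/-- The restriction of an element of the Lie algebra of the centralizer. -/
theorem isZ_restrict [Fintype H] [Fintype H'] (q : H →* H') (hq : Function.Surjective q) (φ : F g n →* H)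
    (hφ : Function.Surjective φ) (hR : φ (R g n) = 1) {ω : LinearMap.BilinForm ℂ (Coh φ)} (hω : IsCup φ ω)
    {ω' : LinearMap.BilinForm ℂ (Coh (q.comp φ))} (hω' : IsCup (q.comp φ) ω') {X : Module.End ℂ (Coh φ)}
    (hX : IsZ φ ω X) {X' : Module.End ℂ (Coh (q.comp φ))} (h : ∀ f, res q φ (X' f) = X (res q φ f)) :
    IsZ (q.comp φ) ω' X' := by
  have hc : (Nat.card q.ker : ℂ) ≠ 0 := by
    have : 0 < Nat.card q.ker := Nat.card_pos
    exact_mod_cast this.ne'
  refine ⟨fun y => LinearMap.ext fun f => ?_, fun f f' => ?_⟩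
  · apply res_injective q φ
    rw [Module.End.mul_apply, Module.End.mul_apply, h, res_inn, res_inn, h]
    exact LinearMap.congr_fun (hX.1 y) (res q φ f)
  · have h1 := hX.2 (res q φ f) (res q φ f')
    rw [← h, ← h, cup_res q hq φ hφ hR hω hω', cup_res q hq φ hφ hR hω hω', ← mul_add] at h1
    exact (mul_eq_zero.1 h1).resolve_left hc

/-- The restriction of a commutator. -/
theorem restrict_comm [Finite H] (q : H →* H') (φ : F g n →* H) {X Y : Module.End ℂ (Coh φ)}
    {X' Y' Z' : Module.End ℂ (Coh (q.comp φ))} (hX : ∀ f, res q φ (X' f) = X (res q φ f))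
    (hY : ∀ f, res q φ (Y' f) = Y (res q φ f)) (hZ : ∀ f, res q φ (Z' f) = (X * Y - Y * X) (res q φ f)) :
    Z' = X' * Y' - Y' * X' := by
  apply LinearMap.ext
  intro f
  apply res_injective q φ
  rw [hZ, LinearMap.sub_apply, LinearMap.sub_apply, map_sub, Module.End.mul_apply, Module.End.mul_apply,
    Module.End.mul_apply, Module.End.mul_apply, hX, hY, hY, hX]

/-- The classes which are invariant under the kernel of `q` are the restrictions. -/
theorem mem_range_res [Finite H] (q : H →* H') (φ : F g n →* H) (hφ : Function.Surjective φ)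
    (hR : φ (R g n) = 1) (f : Coh φ) :
    f ∈ LinearMap.range (res q φ) ↔ ∀ y, q (φ y) = 1 → inn φ y f = f := by
  constructor
  · rintro ⟨f', rfl⟩ y hy
    exact inn_res q φ hy f'
  · intro h
    obtain ⟨f', h1⟩ := exists_res q φ hφ hR f h
    exact ⟨f', h1⟩

end Pool.Agent.BM
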