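import Mathlib
import Pool.Agent.Lib.MP_943dad_ag.BM.Inv

set_option linter.all false

/-!
# From a quotient cover to the cover

A Lie algebra `L` of endomorphisms of the cohomology of the cover `φ` which contains the logarithms of the unipotent
parts of the mapping classes in a subgroup of finite index restricts to a Lie algebra for the quotient cover `q ∘ φ` which
contains all logarithms of unipotent mapping classes.
-/

namespace Pool.Agent.BM

open Pool.Agent.HMv

variable {H H' : Type} [Group H] [Group H'] {g n : ℕ}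

/-- The endomorphisms of the cohomology of the quotient cover which are restrictions of elements of `L`. -/
def resL (q : H →* H') (φ : F g n →* H) (L : Submodule ℂ (Module.End ℂ (Coh φ))) :
    Submodule ℂ (Module.End ℂ (Coh (q.comp φ))) where
  carrier := {X' | ∃ l ∈ L, ∀ f, l (res q φ f) = res q φ (X' f)}
  add_mem' := by
    rintro X Y ⟨l, hl, h1⟩ ⟨l', hl', h2⟩
    exact ⟨l + l', L.add_mem hl hl', fun f => by
      rw [LinearMap.add_apply, LinearMap.add_apply, map_add, h1, h2]⟩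
  zero_mem' := ⟨0, L.zero_mem, fun f => by simp⟩
  smul_mem' := by
    rintro t X ⟨l, hl, h1⟩
    exact ⟨t • l, L.smul_mem t hl, fun f => by
      rw [LinearMap.smul_apply, LinearMap.smul_apply, map_smul, h1]⟩

theorem mem_resL {q : H →* H'} {φ : F g n →* H} {L : Submodule ℂ (Module.End ℂ (Coh φ))}
    {X' : Module.End ℂ (Coh (q.comp φ))} :
    X' ∈ resL q φ L ↔ ∃ l ∈ L, ∀ f, l (res q φ f) = res q φ (X' f) := Iff.rfl

theorem resL_lie {q : H →* H'} {φ : F g n →* H} {L : Submodule ℂ (Module.End ℂ (Coh φ))}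
    (hL : ∀ X ∈ L, ∀ Y ∈ L, X * Y - Y * X ∈ L) :
    ∀ X ∈ resL q φ L, ∀ Y ∈ resL q φ L, X * Y - Y * X ∈ resL q φ L := by
  rintro X ⟨l, hl, h1⟩ Y ⟨l', hl', h2⟩
  refine ⟨l * l' - l' * l, hL l hl l' hl', fun f => ?_⟩
  rw [LinearMap.sub_apply, LinearMap.sub_apply, map_sub, Module.End.mul_apply, Module.End.mul_apply,
    Module.End.mul_apply, Module.End.mul_apply, h2, h1, h1, h2]

/-- A power of a unipotent mapping class. -/
theorem exp_pow {V : Type} [AddCommGroup V] [Module ℂ V] {N : Module.End ℂ V} (hN : N * N * N = 0) (k : ℕ) :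
    (1 + N + (1 / 2 : ℂ) • (N * N)) ^ k = 1 + (k : ℂ) • N + ((k : ℂ) ^ 2 / 2) • (N * N) := by
  have h4 : N * N * (N * N) = 0 := by rw [← mul_assoc, hN, zero_mul]
  have h3 : N * (N * N) = 0 := by rw [← mul_assoc, hN]
  induction k with
  | zero => simp
  | succ k ih =>
    rw [pow_succ, ih]
    push_cast
    simp only [mul_add, add_mul, mul_one, one_mul, smul_mul_assoc, mul_smul_comm, h3, h4, hN, smul_zero, add_zero]
    module

/-- The logarithms of the unipotent mapping classes of the quotient cover. -/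
theorem resL_log [Finite H] (q : H →* H') (φ : F g n →* H) (Δ : Subgroup (Stab φ)) [Δ.FiniteIndex]
    {L : Submodule ℂ (Module.End ℂ (Coh φ))}
    (hL : ∀ τ ∈ Δ, ∃ X ∈ L, ∀ v, (mon φ τ - 1) ((mon φ τ - 1) ((mon φ τ - 1) v)) = 0 →
      X v = (mon φ τ - 1) v - (1 / 2 : ℂ) • (mon φ τ - 1) ((mon φ τ - 1) v))
    {N : Module.End ℂ (Coh (q.comp φ))} (hN : N * N * N = 0)
    (h : ∃ α : Stab (q.comp φ), mon (q.comp φ) α = 1 + N + (1 / 2 : ℂ) • (N * N)) : N ∈ resL q φ L := by
  obtain ⟨α, hα⟩ := h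
  obtain ⟨k, hk, τ, hτ, hτα⟩ := exists_pow_mem q φ Δ α
  obtain ⟨X, hX, h1⟩ := hL τ hτ
  have hk0 : (k : ℂ) ≠ 0 := by exact_mod_cast hk.ne'
  have h2 : ∀ f, mon φ τ (res q φ f) = res q φ ((1 + (k : ℂ) • N + ((k : ℂ) ^ 2 / 2) • (N * N) :
      Module.End ℂ (Coh (q.comp φ))) f) := by
    intro f
    rw [← exp_pow hN, ← hα, ← mon_pow, ← res_mon]
    congr 2
    apply congrArg (mon (q.comp φ))
    exact Subtype.ext hτα
  set A : Module.End ℂ (Coh (q.comp φ)) := (k : ℂ) • N + ((k : ℂ) ^ 2 / 2) • (N * N) with hA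
  have h3 : ∀ f, (mon φ τ - 1) (res q φ f) = res q φ (A f) := by
    intro f
    rw [LinearMap.sub_apply, h2, add_assoc, ← hA, LinearMap.add_apply, map_add]
    simp
  have hNNN : ∀ f, N (N (N f)) = 0 := fun f => LinearMap.congr_fun hN f
  have h4 : ∀ f, A (A f) = (k : ℂ) ^ 2 • N (N f) := by
    intro f
    simp only [hA, LinearMap.add_apply, LinearMap.smul_apply, Module.End.mul_apply, map_add, map_smul, hNNN,
      smul_zero, add_zero, map_zero]
    module
  have h5 : ∀ f, A (A (A f)) = 0 := by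
    intro f
    rw [h4]
    simp only [hA, LinearMap.add_apply, LinearMap.smul_apply, Module.End.mul_apply, map_add, map_smul, hNNN,
      smul_zero, add_zero, map_zero]
  refine (Submodule.smul_mem_iff _ hk0).1 ⟨X, hX, fun f => ?_⟩
  rw [h1 _ (by rw [h3, h3, h3, h5, map_zero]), h3, h3, h4, ← map_smul, ← map_sub]
  congr 1
  simp only [hA, LinearMap.add_apply, LinearMap.smul_apply, Module.End.mul_apply]
  module

/-- **The pair step.** If every Lie algebra for the quotient cover which contains the logarithms contains the commutators of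
the centralizer, the commutators of the centralizer for `φ` restrict on the invariants as elements of `L`. -/
theorem pair_step [Fintype H] [Fintype H'] (q : H →* H') (hq : Function.Surjective q) (φ : F g n →* H)
    (hφ : Function.Surjective φ) (hR : φ (R g n) = 1) {ω : LinearMap.BilinForm ℂ (Coh φ)} (hω : IsCup φ ω)
    {ω' : LinearMap.BilinForm ℂ (Coh (q.comp φ))} (hω' : IsCup (q.comp φ) ω')
    (hbig : ∀ L' : Submodule ℂ (Module.End ℂ (Coh (q.comp φ))), (∀ X ∈ L', ∀ Y ∈ L', X * Y - Y * X ∈ L') →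
      (∀ N, N * N * N = 0 → (∃ α : Stab (q.comp φ), mon (q.comp φ) α = 1 + N + (1 / 2 : ℂ) • (N * N)) → N ∈ L') →
      ∀ X Y, IsZ (q.comp φ) ω' X → IsZ (q.comp φ) ω' Y → X * Y - Y * X ∈ L')
    (Δ : Subgroup (Stab φ)) [Δ.FiniteIndex] {L : Submodule ℂ (Module.End ℂ (Coh φ))}
    (hL2 : ∀ X ∈ L, ∀ Y ∈ L, X * Y - Y * X ∈ L)
    (hL : ∀ τ ∈ Δ, ∃ X ∈ L, ∀ v, (mon φ τ - 1) ((mon φ τ - 1) ((mon φ τ - 1) v)) = 0 →
      X v = (mon φ τ - 1) v - (1 / 2 : ℂ) • (mon φ τ - 1) ((mon φ τ - 1) v))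
    {X Y : Module.End ℂ (Coh φ)} (hX : IsZ φ ω X) (hY : IsZ φ ω Y) :
    ∃ l ∈ L, ∀ f, (∀ y, q (φ y) = 1 → inn φ y f = f) → l f = (X * Y - Y * X) f := by
  obtain ⟨X', hX'⟩ := exists_restrict q φ hφ hR hX.1
  obtain ⟨Y', hY'⟩ := exists_restrict q φ hφ hR hY.1
  have h1 := hbig (resL q φ L) (resL_lie hL2) (fun N hN h => resL_log q φ Δ hL hN h) X' Y'
    (isZ_restrict q hq φ hφ hR hω hω' hX hX') (isZ_restrict q hq φ hφ hR hω hω' hY hY')
  obtain ⟨l, hl, h2⟩ := h1
  refine ⟨l, hl, fun f hf => ?_⟩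
  obtain ⟨f', rfl⟩ := exists_res q φ hφ hR f hf
  rw [h2, LinearMap.sub_apply, LinearMap.sub_apply, map_sub, Module.End.mul_apply, Module.End.mul_apply,
    Module.End.mul_apply, Module.End.mul_apply, hX' (Y' f'), hY' f', hY' (X' f'), hX' f']

end Pool.Agent.BM
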