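import Pool.Agent.Lib.MP_943dad_ag.BM.Nd
import Pool.Agent.Lib.MP_943dad_ag.BM.PStep
import Pool.Agent.Lib.MP_943dad_ag.BM.Jor
import Pool.Agent.Lib.MP_943dad_ag.BM.BigL
import Pool.Agent.Lib.MP_943dad_ag.BM.Glue

set_option linter.all false

/-!
The theorem for a cover, if the quotients of the deck group by the intersections of the kernels of two irreducible
representations become trivial on the last handle.
-/

namespace Pool.Agent.BM

open Pool.Agent.HMv Pool.Agent.Lib.MP_943dad_ag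

variable {H : Type} [Group H] {g n : ℕ}

theorem mon_inn' {φ : F g n →* H} (α : Stab φ) (y : F g n) : mon φ α * inn φ y = inn φ y * mon φ α := by
  refine LinearMap.ext fun f => Subtype.ext (funext fun x => ?_)
  rw [Module.End.mul_apply, Module.End.mul_apply, mon_apply, inn_apply, inn_apply, mon_apply]
  have h1 := (α⁻¹ : Stab φ).2.2.2
  have h2 : inn φ y f = inn φ ((α⁻¹ : Stab φ).1 y) f := by rw [inn_congr' (h1 y).symm]
  have h3 := congrArg (fun f : Coh φ => f.1 ((α⁻¹ : Stab φ).1 x)) h2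
  simp only [inn_apply] at h3
  rw [h3, map_mul, map_mul, map_inv]

variable [Fintype H]

theorem main2 (hg : 3 ≤ g + 1) (φ : F (g + 1) n →* H) (hφ : Function.Surjective φ)
    (hR : φ (R (g + 1) n) = 1)
    (hT : ∀ (N₁ N₂ : Subgroup H) [N₁.Normal] [N₂.Normal], IrrK N₁ → IrrK N₂ →
      Triv ((QuotientGroup.mk' (N₁ ⊓ N₂)).comp φ)) :
    ∃ ω : LinearMap.BilinForm ℂ (Coh φ), IsCup φ ω ∧ (∀ f, ω f f = 0) ∧ (∀ f, (∀ f', ω f f' = 0) → f = 0) ∧
      ∀ Δ : Subgroup (Stab φ), Δ.FiniteIndex → ∀ X Y, IsZ φ ω X → IsZ φ ω Y →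
        InLie (mon φ '' (Δ : Set (Stab φ))) (X * Y - Y * X) := by
  classical
  haveI : FiniteDimensional ℂ (Coh φ) := finite_coh φ
  obtain ⟨ω, hω⟩ := exists_cup hφ hR
  have hqs : ∀ (N : Subgroup H) [N.Normal], Function.Surjective ((QuotientGroup.mk' N).comp φ) := fun N _ =>
    (QuotientGroup.mk'_surjective N).comp hφ
  have hqR : ∀ (N : Subgroup H) [N.Normal], ((QuotientGroup.mk' N).comp φ) (R (g + 1) n) = 1 := fun N _ => by
    rw [MonoidHom.comp_apply, hR, map_one]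
  -- the good form for the quotients
  have hgood : ∀ (N : Subgroup H) [N.Normal] [Fintype (H ⧸ N)], Triv ((QuotientGroup.mk' N).comp φ) →
      ∀ ω' : LinearMap.BilinForm ℂ (Coh ((QuotientGroup.mk' N).comp φ)), IsCup ((QuotientGroup.mk' N).comp φ) ω' →
        Tp.Good ((QuotientGroup.mk' N).comp φ) ω' := by
    intro N _ _ h ω' hω'
    obtain ⟨ω'', h1, h2⟩ := exists_good (hqs N) (hqR N) h
    rw [isCup_eq (hqs N) (hqR N) hω', ← isCup_eq (hqs N) (hqR N) h1]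
    exact h2
  have hnd : ∀ f, (∀ f', ω f f' = 0) → f = 0 := by
    refine cup_nd_quot hφ hR hω fun N _ _ hN ω' hω' => ?_
    have key : ∀ (M : Subgroup H) (hM : M.Normal), M = N → Triv ((QuotientGroup.mk' M).comp φ) →
        Triv ((QuotientGroup.mk' N).comp φ) := by
      rintro M hM rfl h
      exact h
    exact (hgood N (key (N ⊓ N) inferInstance (inf_idem N) (hT N N hN hN)) ω' hω').nd
  refine ⟨ω, hω, cup_alt hφ hR hω, hnd, ?_⟩
  intro Δ hΔ X Y hX hY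
  haveI := hΔ
  obtain ⟨ρ, hρ⟩ := exists_rho' hφ
  have hS : BMo.Sym ρ ω := ⟨cup_alt hφ hR hω, hnd, fun h u v => by
    obtain ⟨y, rfl⟩ := hφ h
    rw [hρ]
    exact cup_inn hφ hR hω y u v⟩
  have hz : ∀ X, IsZ φ ω X → X ∈ BMo.zz ρ ω := fun X hX =>
    ⟨fun h => by
      obtain ⟨y, rfl⟩ := hφ h
      rw [hρ]
      exact hX.1 y, hX.2⟩
  have hz' : ∀ X, X ∈ BMo.zz ρ ω → IsZ φ ω X := fun X hX =>
    ⟨fun y => by rw [← hρ]; exact hX.1 (φ y), hX.2⟩
  obtain ⟨L, hL1, hL2, hLc, hLlog⟩ := exists_lie_all (V := Coh φ) ⟨⟨mon φ, mon_one φ⟩, mon_mul φ⟩ Δ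
  have hL1' : ∀ X ∈ L, InLie (mon φ '' (Δ : Set (Stab φ))) X := fun X hX => (hL1 X).1 hX
  refine hL1' _ (BMo.glue_irr hS hL2 ?_ ?_ X (hz X hX) Y (hz Y hY))
  · intro X hX h
    obtain ⟨y, rfl⟩ := hφ h
    rw [hρ]
    exact (hLc (inn φ y) (fun τ _ => (mon_inn' τ y).symm) X hX).symm
  · intro N₁ N₂ _ _ h1 h2 X hX Y hY
    haveI : Fintype (H ⧸ (N₁ ⊓ N₂)) := Fintype.ofFinite _
    obtain ⟨ω', hω', hg'⟩ := exists_good (hqs (N₁ ⊓ N₂)) (hqR (N₁ ⊓ N₂)) (hT N₁ N₂ h1 h2)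
    obtain ⟨l, hl, h3⟩ := pair_step (QuotientGroup.mk' (N₁ ⊓ N₂)) (QuotientGroup.mk'_surjective _) φ hφ hR hω hω'
      (fun L' h4 h5 X Y hX hY => big_L' (hqs (N₁ ⊓ N₂)) (hqR (N₁ ⊓ N₂)) hg (hT N₁ N₂ h1 h2) hg' L' h4 h5 hX hY)
      Δ hL2 (fun τ hτ => by
        obtain ⟨X, hX, h6⟩ := hLlog τ hτ
        refine ⟨X, hX, fun v hv => ?_⟩
        have h7 := h6 v (by
          rw [pow_succ, pow_succ, pow_one]
          exact hv)
        rw [h7]
        rw [pow_succ, pow_one]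
        rfl) (hz' X hX) (hz' Y hY)
    refine ⟨l, hl, fun v hv => h3 v fun y hy => ?_⟩
    rw [← hρ]
    exact hv _ ((QuotientGroup.eq_one_iff _).1 hy)

end Pool.Agent.BM
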