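import Pool.Agent.Lib.MP_943dad_ag.BM.Glue

set_option linter.all false

/-!
# Goursat's lemma for two blocks, with trace forms
-/

open Finset

namespace Pool.Agent.Lib.MP_943dad_ag.BMo

variable {H V : Type} [Group H] [AddCommGroup V] [Module ℂ V]
  {ρ : H →* Module.End ℂ V} {ω : V →ₗ[ℂ] V →ₗ[ℂ] ℂ}

/-- The commutators on the block `e`. -/
def gE (ρ : H →* Module.End ℂ V) (ω : V →ₗ[ℂ] V →ₗ[ℂ] ℂ) (e : Module.End ℂ V) : Submodule ℂ (Module.End ℂ V) where
  carrier := {X | X ∈ gg ρ ω ∧ e * X = X}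
  add_mem' := by
    rintro X Y ⟨h1, h2⟩ ⟨h3, h4⟩
    exact ⟨Submodule.add_mem _ h1 h3, by rw [mul_add, h2, h4]⟩
  zero_mem' := ⟨Submodule.zero_mem _, mul_zero _⟩
  smul_mem' := by
    rintro t X ⟨h1, h2⟩
    exact ⟨Submodule.smul_mem _ _ h1, by rw [mul_smul_comm, h2]⟩

theorem mem_gE {e X : Module.End ℂ V} : X ∈ gE ρ ω e ↔ X ∈ gg ρ ω ∧ e * X = X := Iff.rfl

/-- The block is simple as a module over the commutators. -/
def Simp (ρ : H →* Module.End ℂ V) (ω : V →ₗ[ℂ] V →ₗ[ℂ] ℂ) (e : Module.End ℂ V) : Prop :=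
  ∀ I : Submodule ℂ (Module.End ℂ V), I ≤ gE ρ ω e → (∀ G ∈ gg ρ ω, ∀ X ∈ I, G * X - X * G ∈ I) →
    I = ⊥ ∨ gE ρ ω e ≤ I

theorem trace_rk1 [FiniteDimensional ℂ V] (f : V →ₗ[ℂ] ℂ) (v : V) : LinearMap.trace ℂ V (f.smulRight v) = f v := by
  have h1 : f.smulRight v = dualTensorHom ℂ V V (TensorProduct.tmul ℂ f v) := by
    refine LinearMap.ext fun x => ?_
    rw [dualTensorHom_apply, LinearMap.smulRight_apply]
  rw [h1, LinearMap.trace_eq_contract_apply, contractLeft_apply]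

variable [Fintype H]

theorem mul_gE {e G : Module.End ℂ V} (he : Bl ρ ω e) (hG : G ∈ gg ρ ω) : e * G ∈ gE ρ ω e :=
  ⟨he.gg hG, by rw [← mul_assoc, he.idem]⟩

theorem brk_gg {X Y : Module.End ℂ V} (hX : X ∈ zz ρ ω) (hY : Y ∈ zz ρ ω) :
    X * Y - Y * X ∈ gg ρ ω := Submodule.subset_span ⟨X, hX, Y, hY, rfl⟩

theorem trace_S [FiniteDimensional ℂ V] (hS : Sym ρ ω) {X : Module.End ℂ V} (hX : X ∈ zz ρ ω) (x y : V) :
    LinearMap.trace ℂ V (X * S ρ ω x y) = (2 * (Fintype.card H : ℂ)) * ω (X x) y := by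
  have h1 : X * S ρ ω x y = ∑ h : H, ((ω.flip (ρ h x)).smulRight (X (ρ h y)) +
      (ω.flip (ρ h y)).smulRight (X (ρ h x))) := by
    refine LinearMap.ext fun v => ?_
    rw [Module.End.mul_apply, S_apply, map_sum, LinearMap.sum_apply]
    refine sum_congr rfl fun h _ => ?_
    rw [map_add, map_smul, map_smul]
    rfl
  rw [h1, map_sum]
  have h2 : ∀ h : H, LinearMap.trace ℂ V ((ω.flip (ρ h x)).smulRight (X (ρ h y)) +
      (ω.flip (ρ h y)).smulRight (X (ρ h x))) = 2 * ω (X x) y := by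
    intro h
    rw [map_add, trace_rk1, trace_rk1, LinearMap.flip_apply, LinearMap.flip_apply, comm_zz hX, comm_zz hX, hS.inv,
      hS.inv, skew_zz hX y x, ← hS.skew]
    ring
  rw [sum_congr rfl fun h _ => h2 h, sum_const, card_univ, nsmul_eq_mul]
  ring

/-- The trace form is nondegenerate on `zz`. -/
theorem trace_nd [FiniteDimensional ℂ V] (hS : Sym ρ ω) {X : Module.End ℂ V} (hX : X ∈ zz ρ ω)
    (h : ∀ Y ∈ zz ρ ω, LinearMap.trace ℂ V (X * Y) = 0) : X = 0 := by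
  have hcard : (2 * (Fintype.card H : ℂ)) ≠ 0 := by
    have : (Fintype.card H : ℂ) ≠ 0 := by exact_mod_cast Fintype.card_ne_zero
    exact mul_ne_zero two_ne_zero this
  refine LinearMap.ext fun x => hS.nd _ fun y => ?_
  have h1 := h _ (S_zz hS x y)
  rw [trace_S hS hX] at h1
  exact (mul_eq_zero.1 h1).resolve_left hcard

/-- Commutators are orthogonal to the centre. -/
theorem trace_gg_cen [FiniteDimensional ℂ V] (hS : Sym ρ ω) {G Z : Module.End ℂ V} (hG : G ∈ gg ρ ω)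
    (hZ : ∀ Y ∈ zz ρ ω, Z * Y = Y * Z) : LinearMap.trace ℂ V (G * Z) = 0 := by
  induction hG using Submodule.span_induction with
  | mem W hW =>
    obtain ⟨A, hA, B, hB, rfl⟩ := hW
    have h1 : LinearMap.trace ℂ V (B * A * Z) = LinearMap.trace ℂ V (A * B * Z) := by
      rw [mul_assoc, LinearMap.trace_mul_comm, mul_assoc A Z B, hZ B hB, ← mul_assoc]
    rw [sub_mul, map_sub, h1, sub_self]
  | zero => rw [zero_mul, map_zero]
  | add x y _ _ hx hy => rw [add_mul, map_add, hx, hy, add_zero]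
  | smul t x _ hx => rw [smul_mul_assoc, map_smul, hx, smul_zero]

/-- The trace form is nondegenerate on a block. -/
theorem trace_nd_gE [FiniteDimensional ℂ V] (hS : Sym ρ ω) {e X : Module.End ℂ V} (he : Bl ρ ω e)
    (hX : X ∈ gE ρ ω e) (h : ∀ Y ∈ gE ρ ω e, LinearMap.trace ℂ V (X * Y) = 0) : X = 0 := by
  refine trace_nd hS (gg_zz hS hX.1) fun Y hY => ?_
  obtain ⟨G, hG, Z, hZ, hZ', rfl⟩ := zz_le hS hY
  rw [mul_add, map_add, trace_gg_cen hS hX.1 hZ', add_zero]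
  have h1 : X * G = X * (e * G) := by
    rw [← mul_assoc, he.com X (gg_zz hS hX.1).1, hX.2]
  rw [h1]
  exact h _ (mul_gE he hG)

/-- Nilpotent elements of `zz` are sums of commutators. -/
theorem nil_gg [FiniteDimensional ℂ V] (hS : Sym ρ ω) {N : Module.End ℂ V} (hN : N ∈ zz ρ ω) (hn : IsNilpotent N) :
    N ∈ gg ρ ω := by
  obtain ⟨G, hG, Z, hZ, hZ', e⟩ := zz_le hS hN
  have h1 : Z = 0 := by
    refine trace_nd hS hZ fun Y hY => ?_
    obtain ⟨G', hG', Z', hZz, hZ'', rfl⟩ := zz_le hS hY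
    rw [mul_add, map_add, LinearMap.trace_mul_comm, trace_gg_cen hS hG' hZ', zero_add]
    have h2 : Z * Z' = N * Z' - G * Z' := by rw [e, add_mul, add_sub_cancel_left]
    have h3 : IsNilpotent (N * Z') := (show Commute N Z' from (hZ'' N hN).symm).isNilpotent_mul_right hn
    rw [h2, map_sub, trace_gg_cen hS hG hZ'', sub_zero]
    exact (LinearMap.isNilpotent_trace_of_isNilpotent h3).eq_zero
  rw [e, h1, add_zero]
  exact hG

/-- **Goursat's lemma.** If `L` gives everything on each of two simple blocks, then it gives everything on both together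
or the two trace forms on `L` are proportional. -/
theorem goursat [FiniteDimensional ℂ V] (hS : Sym ρ ω) {L : Submodule ℂ (Module.End ℂ V)}
    (hL : ∀ X ∈ L, ∀ Y ∈ L, X * Y - Y * X ∈ L) (hLz : L ≤ zz ρ ω) {e e' : Module.End ℂ V} (he : Bl ρ ω e)
    (he' : Bl ρ ω e') (hs : Simp ρ ω e) (hs' : Simp ρ ω e')
    (hone : ∀ G ∈ gg ρ ω, ∃ l ∈ L, e * l = e * G) (hone' : ∀ G ∈ gg ρ ω, ∃ l ∈ L, e' * l = e' * G)
    (hne : gE ρ ω e ≠ ⊥) :
    ((∀ G ∈ gg ρ ω, ∃ l ∈ L, e * l = e * G ∧ e' * l = 0) ∧ (∀ G ∈ gg ρ ω, ∃ l ∈ L, e' * l = e' * G ∧ e * l = 0)) ∨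
      ∃ c : ℂ, c ≠ 0 ∧ ∀ l ∈ L, ∀ l' ∈ L, l ∈ gg ρ ω → l' ∈ gg ρ ω →
        LinearMap.trace ℂ V (l * l' * e') = c * LinearMap.trace ℂ V (l * l' * e) := by
  have cen : ∀ {c : Module.End ℂ V}, Bl ρ ω c → ∀ {X : Module.End ℂ V}, X ∈ zz ρ ω → c * X = X * c :=
    fun hc _ hX => (hc.com _ hX.1).symm
  -- products on a block
  have blk : ∀ {c : Module.End ℂ V}, Bl ρ ω c → ∀ {X Y : Module.End ℂ V}, X ∈ zz ρ ω → (c * X) * (c * Y) = c * (X * Y) := by
    intro c hc X Y hX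
    rw [cen hc hX, mul_assoc, ← mul_assoc c, hc.idem, ← mul_assoc, ← cen hc hX, mul_assoc]
  have blkb : ∀ {c : Module.End ℂ V}, Bl ρ ω c → ∀ {X Y : Module.End ℂ V}, X ∈ zz ρ ω → Y ∈ zz ρ ω →
      c * (X * Y - Y * X) = (c * X) * (c * Y) - (c * Y) * (c * X) := by
    intro c hc X Y hX hY
    rw [blk hc hX, blk hc hY, mul_sub]
  -- lifts in `L ⊓ gg`
  have lift : ∀ {c : Module.End ℂ V}, Bl ρ ω c → (∀ G ∈ gg ρ ω, ∃ l ∈ L, c * l = c * G) → ∀ G ∈ gg ρ ω,
      ∃ l ∈ L, l ∈ gg ρ ω ∧ c * l = c * G := by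
    intro c hc hone G hG
    have hG' := perfect hS hG
    induction hG' using Submodule.span_induction with
    | mem W hW =>
      obtain ⟨A, hA, B, hB, rfl⟩ := hW
      obtain ⟨l, hl, k1⟩ := hone A hA
      obtain ⟨m, hm, k2⟩ := hone B hB
      refine ⟨l * m - m * l, hL l hl m hm, brk_gg (hLz hl) (hLz hm), ?_⟩
      rw [blkb hc (hLz hl) (hLz hm), blkb hc (gg_zz hS hA) (gg_zz hS hB), k1, k2]
    | zero => exact ⟨0, Submodule.zero_mem _, Submodule.zero_mem _, rfl⟩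
    | add x y hx hy ihx ihy =>
      have gx : x ∈ gg ρ ω := by
        refine (Submodule.span_le.2 ?_) hx
        rintro _ ⟨X, hX, Y, hY, rfl⟩
        exact brk_gg (gg_zz hS hX) (gg_zz hS hY)
      have gy : y ∈ gg ρ ω := by
        refine (Submodule.span_le.2 ?_) hy
        rintro _ ⟨X, hX, Y, hY, rfl⟩
        exact brk_gg (gg_zz hS hX) (gg_zz hS hY)
      obtain ⟨l, hl, k1, k2⟩ := ihx gx
      obtain ⟨m, hm, k3, k4⟩ := ihy gy
      exact ⟨l + m, Submodule.add_mem _ hl hm, Submodule.add_mem _ k1 k3, by rw [mul_add, mul_add, k2, k4]⟩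
    | smul t x hx ihx =>
      have gx : x ∈ gg ρ ω := by
        refine (Submodule.span_le.2 ?_) hx
        rintro _ ⟨X, hX, Y, hY, rfl⟩
        exact brk_gg (gg_zz hS hX) (gg_zz hS hY)
      obtain ⟨l, hl, k1, k2⟩ := ihx gx
      exact ⟨t • l, Submodule.smul_mem _ _ hl, Submodule.smul_mem _ _ k1, by rw [mul_smul_comm, mul_smul_comm, k2]⟩
  -- the alternatives for one block
  have alt : ∀ {c c' : Module.End ℂ V}, Bl ρ ω c → Bl ρ ω c' → Simp ρ ω c → (∀ G ∈ gg ρ ω, ∃ l ∈ L, c * l = c * G) →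
      (∀ l ∈ L, l ∈ gg ρ ω → c' * l = 0 → c * l = 0) ∨ ∀ G ∈ gg ρ ω, ∃ l ∈ L, l ∈ gg ρ ω ∧ c * l = c * G ∧ c' * l = 0 := by
    intro c c' hc hc' hsc hone
    obtain ⟨I, hI⟩ : ∃ I : Submodule ℂ (Module.End ℂ V), ∀ X, X ∈ I ↔ ∃ l ∈ L, l ∈ gg ρ ω ∧ c * l = X ∧ c' * l = 0 := by
      refine ⟨{ carrier := {X | ∃ l ∈ L, l ∈ gg ρ ω ∧ c * l = X ∧ c' * l = 0}
                add_mem' := ?_
                zero_mem' := ⟨0, Submodule.zero_mem _, Submodule.zero_mem _, mul_zero _, mul_zero _⟩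
                smul_mem' := ?_ }, fun X => Iff.rfl⟩
      · rintro _ _ ⟨l, hl, k1, rfl, k2⟩ ⟨m, hm, k3, rfl, k4⟩
        exact ⟨l + m, Submodule.add_mem _ hl hm, Submodule.add_mem _ k1 k3, mul_add _ _ _, by rw [mul_add, k2, k4, add_zero]⟩
      · rintro t _ ⟨l, hl, k1, rfl, k2⟩
        exact ⟨t • l, Submodule.smul_mem _ _ hl, Submodule.smul_mem _ _ k1, mul_smul_comm _ _ _, by
          rw [mul_smul_comm, k2, smul_zero]⟩
    have hI1 : I ≤ gE ρ ω c := by
      intro X hX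
      obtain ⟨l, hl, k1, rfl, k2⟩ := (hI X).1 hX
      exact mul_gE hc k1
    have hI2 : ∀ G ∈ gg ρ ω, ∀ X ∈ I, G * X - X * G ∈ I := by
      intro G hG X hX
      obtain ⟨l, hl, k1, rfl, k2⟩ := (hI X).1 hX
      obtain ⟨m, hm, k3, k4⟩ := lift hc hone G hG
      refine (hI _).2 ⟨m * l - l * m, hL m hm l hl, brk_gg (hLz hm) (hLz hl), ?_, ?_⟩
      · have e1 : G * (c * l) = (c * G) * (c * l) := by
          rw [cen hc (gg_zz hS hG), mul_assoc, ← mul_assoc c c, hc.idem]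
        have e2 : (c * l) * G = (c * l) * (c * G) := by
          rw [cen hc (hLz hl), mul_assoc, mul_assoc, ← mul_assoc c c, hc.idem]
        rw [blkb hc (hLz hm) (hLz hl), k4, e1, e2]
      · rw [blkb hc' (hLz hm) (hLz hl), k2, mul_zero, zero_mul, sub_zero]
    rcases hsc I hI1 hI2 with h | h
    · left
      intro l hl k1 k2
      have h1 : c * l ∈ I := (hI _).2 ⟨l, hl, k1, rfl, k2⟩
      rw [h, Submodule.mem_bot] at h1
      exact h1
    · right
      intro G hG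
      exact (hI _).1 (h (mul_gE hc hG))
  rcases alt he he' hs hone with a1 | a1
  · rcases alt he' he hs' hone' with a2 | a2
    · right
      -- the section
      obtain ⟨σ, hσ⟩ : ∃ σ : gE ρ ω e →ₗ[ℂ] (L ⊓ gg ρ ω : Submodule ℂ (Module.End ℂ V)), ∀ X, e * (σ X).1 = X.1 := by
        obtain ⟨p, hp⟩ : ∃ p : (L ⊓ gg ρ ω : Submodule ℂ (Module.End ℂ V)) →ₗ[ℂ] gE ρ ω e, ∀ l, (p l).1 = e * l.1 :=
          ⟨{ toFun := fun l => ⟨e * l.1, mul_gE he l.2.2⟩
             map_add' := fun l m => Subtype.ext (mul_add _ _ _)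
             map_smul' := fun t l => Subtype.ext (mul_smul_comm _ _ _) }, fun l => rfl⟩
        have hsur : LinearMap.range p = ⊤ := by
          rw [LinearMap.range_eq_top]
          intro X
          obtain ⟨l, hl, k1, k2⟩ := lift he hone X.1 X.2.1
          exact ⟨⟨l, hl, k1⟩, Subtype.ext (by rw [hp, k2, X.2.2])⟩
        obtain ⟨σ, hσ⟩ := p.exists_rightInverse_of_surjective hsur
        exact ⟨σ, fun X => by rw [← hp]; exact congrArg Subtype.val (LinearMap.congr_fun hσ X)⟩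
      obtain ⟨φ, hφ⟩ : ∃ φ : gE ρ ω e →ₗ[ℂ] Module.End ℂ V, ∀ X, φ X = e' * (σ X).1 :=
        ⟨{ toFun := fun X => e' * (σ X).1
           map_add' := fun X Y => by rw [map_add]; exact mul_add _ _ _
           map_smul' := fun t X => by rw [map_smul]; exact mul_smul_comm _ _ _ }, fun X => rfl⟩
      have hφl : ∀ l ∈ L, ∀ (hl : l ∈ gg ρ ω), φ ⟨e * l, mul_gE he hl⟩ = e' * l := by
        intro l hl k1
        rw [hφ, ← sub_eq_zero, ← mul_sub]
        refine a2 _ (Submodule.sub_mem _ (σ _).2.1 hl) (Submodule.sub_mem _ (σ _).2.2 k1) ?_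
        rw [mul_sub, hσ, sub_self]
      have hφz : ∀ X, φ X ∈ zz ρ ω := fun X => by
        rw [hφ]
        exact he'.zz (gg_zz hS (σ X).2.2)
      -- the trace form on the block
      obtain ⟨B, hB⟩ : ∃ B : gE ρ ω e →ₗ[ℂ] gE ρ ω e →ₗ[ℂ] ℂ, ∀ X Y, B X Y = LinearMap.trace ℂ V (X.1 * Y.1) :=
        ⟨LinearMap.mk₂ ℂ (fun X Y => LinearMap.trace ℂ V (X.1 * Y.1))
          (fun X X' Y => by
            change LinearMap.trace ℂ V ((X.1 + X'.1) * Y.1) = _
            rw [add_mul, map_add])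
          (fun t X Y => by
            change LinearMap.trace ℂ V ((t • X.1) * Y.1) = _
            rw [smul_mul_assoc, map_smul])
          (fun X Y Y' => by
            change LinearMap.trace ℂ V (X.1 * (Y.1 + Y'.1)) = _
            rw [mul_add, map_add])
          (fun t X Y => by
            change LinearMap.trace ℂ V (X.1 * (t • Y.1)) = _
            rw [mul_smul_comm, map_smul]), fun X Y => rfl⟩
      obtain ⟨B', hB'⟩ : ∃ B' : gE ρ ω e →ₗ[ℂ] gE ρ ω e →ₗ[ℂ] ℂ, ∀ X Y, B' X Y = LinearMap.trace ℂ V (φ X * φ Y) :=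
        ⟨LinearMap.mk₂ ℂ (fun X Y => LinearMap.trace ℂ V (φ X * φ Y))
          (fun X X' Y => by rw [map_add, add_mul, map_add])
          (fun t X Y => by rw [map_smul, smul_mul_assoc, map_smul])
          (fun X Y Y' => by rw [map_add, mul_add, map_add])
          (fun t X Y => by rw [map_smul, mul_smul_comm, map_smul]), fun X Y => rfl⟩
      have hinj : Function.Injective B := by
        rw [← LinearMap.ker_eq_bot, LinearMap.ker_eq_bot']
        intro X hX
        refine Subtype.ext (trace_nd_gE hS he X.2 fun Y hY => ?_)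
        have := LinearMap.congr_fun hX ⟨Y, hY⟩
        rw [hB] at this
        exact this
      have hsurj : Function.Surjective B :=
        (LinearMap.injective_iff_surjective_of_finrank_eq_finrank (f := B)
          (Subspace.dual_finrank_eq (K := ℂ) (V := gE ρ ω e)).symm).1 hinj
      obtain ⟨T, hT⟩ : ∃ T : Module.End ℂ (gE ρ ω e), ∀ X Y, B (T X) Y = B' X Y := by
        refine ⟨(LinearEquiv.ofBijective B ⟨hinj, hsurj⟩).symm.toLinearMap ∘ₗ B', fun X Y => ?_⟩
        change (LinearEquiv.ofBijective B ⟨hinj, hsurj⟩) ((LinearEquiv.ofBijective B ⟨hinj, hsurj⟩).symm (B' X)) Y = _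
        rw [LinearEquiv.apply_symm_apply]
      haveI : Nontrivial (gE ρ ω e) := Submodule.nontrivial_iff_ne_bot.2 hne
      obtain ⟨c, hc⟩ := Module.End.exists_eigenvalue T
      obtain ⟨X0, hX0⟩ := hc.exists_hasEigenvector
      -- `T` commutes with the brackets
      have inv : ∀ G A B : Module.End ℂ V, LinearMap.trace ℂ V ((G * A - A * G) * B) =
          - LinearMap.trace ℂ V (A * (G * B - B * G)) := by
        intro G A B
        have e1 : LinearMap.trace ℂ V (G * A * B) = LinearMap.trace ℂ V (A * B * G) := by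
          rw [mul_assoc, LinearMap.trace_mul_comm]
        rw [sub_mul, mul_sub, map_sub, map_sub, e1, mul_assoc A G B, ← mul_assoc A B G]
        ring
      have hst : ∀ G ∈ gg ρ ω, ∀ X : gE ρ ω e, G * X.1 - X.1 * G ∈ gE ρ ω e := by
        intro G hG X
        refine ⟨brk_gg (gg_zz hS hG) (gg_zz hS X.2.1), ?_⟩
        rw [mul_sub, ← mul_assoc, ← mul_assoc, X.2.2, cen he (gg_zz hS hG), mul_assoc, X.2.2]
      have hT2 : ∀ G (hG : G ∈ gg ρ ω) (X : gE ρ ω e), (T ⟨_, hst G hG X⟩).1 = G * (T X).1 - (T X).1 * G := by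
        intro G hG X
        obtain ⟨l, hl, k1, k2⟩ := lift he hone G hG
        have hφD : ∀ Y : gE ρ ω e, φ ⟨_, hst G hG Y⟩ = l * φ Y - φ Y * l := by
          intro Y
          have h1 : e * (l * (σ Y).1 - (σ Y).1 * l) = G * Y.1 - Y.1 * G := by
            have e1 : G * Y.1 = (e * G) * Y.1 := by rw [cen he (gg_zz hS hG), mul_assoc, Y.2.2]
            have e2 : Y.1 * G = Y.1 * (e * G) := by rw [← mul_assoc, ← cen he (gg_zz hS Y.2.1), Y.2.2]
            rw [blkb he (hLz hl) (hLz (σ Y).2.1), k2, hσ, e1, e2]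
          have h2 := hφl (l * (σ Y).1 - (σ Y).1 * l) (hL _ hl _ (σ Y).2.1) (brk_gg (hLz hl) (hLz (σ Y).2.1))
          have h3 : (⟨_, hst G hG Y⟩ : gE ρ ω e) = ⟨e * (l * (σ Y).1 - (σ Y).1 * l),
              mul_gE he (brk_gg (hLz hl) (hLz (σ Y).2.1))⟩ := Subtype.ext h1.symm
          rw [h3, h2, hφ, mul_sub, ← mul_assoc, ← mul_assoc, cen he' (hLz hl), mul_assoc]
        have h4 : T ⟨_, hst G hG X⟩ = ⟨_, hst G hG (T X)⟩ := by
          apply hinj
          refine LinearMap.ext fun Y => ?_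
          rw [hT, hB', hφD, inv, ← hφD, ← hB', ← hT, hB, hB]
          rw [inv]
        rw [h4]
      obtain ⟨I, hI⟩ : ∃ I : Submodule ℂ (Module.End ℂ V), ∀ X, X ∈ I ↔ ∃ h : X ∈ gE ρ ω e, T ⟨X, h⟩ = c • ⟨X, h⟩ := by
        refine ⟨(LinearMap.ker (T - algebraMap ℂ (Module.End ℂ (gE ρ ω e)) c)).map (gE ρ ω e).subtype, fun X => ?_⟩
        constructor
        · rintro ⟨Y, hY, rfl⟩
          refine ⟨Y.2, ?_⟩
          have h1 : (T - algebraMap ℂ (Module.End ℂ (gE ρ ω e)) c) Y = 0 := hY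
          rwa [LinearMap.sub_apply, Module.algebraMap_end_apply, sub_eq_zero] at h1
        · rintro ⟨h, h1⟩
          refine ⟨⟨X, h⟩, ?_, rfl⟩
          change (T - algebraMap ℂ (Module.End ℂ (gE ρ ω e)) c) _ = 0
          rw [LinearMap.sub_apply, Module.algebraMap_end_apply, sub_eq_zero, h1]
      have hI1 : I ≤ gE ρ ω e := fun X hX => ((hI X).1 hX).1
      have hI2 : ∀ G ∈ gg ρ ω, ∀ X ∈ I, G * X - X * G ∈ I := by
        intro G hG X hX
        obtain ⟨h, h1⟩ := (hI X).1 hX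
        refine (hI _).2 ⟨hst G hG ⟨X, h⟩, Subtype.ext ?_⟩
        rw [hT2 G hG ⟨X, h⟩, h1]
        change G * (c • X) - (c • X) * G = c • (G * X - X * G)
        rw [smul_sub, mul_smul_comm, smul_mul_assoc]
      have hTc : ∀ X : gE ρ ω e, T X = c • X := by
        rcases hs I hI1 hI2 with h | h
        · exfalso
          have h1 : X0.1 ∈ I := (hI _).2 ⟨X0.2, hX0.apply_eq_smul⟩
          rw [h, Submodule.mem_bot] at h1
          exact hX0.2 (Subtype.ext h1)
        · intro X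
          exact ((hI _).1 (h X.2)).2
      have hBB : ∀ X Y, B' X Y = c * B X Y := by
        intro X Y
        rw [← hT, hTc, map_smul, LinearMap.smul_apply, smul_eq_mul]
      refine ⟨c, fun hc0 => ?_, fun l hl l' hl' k k' => ?_⟩
      · -- `c ≠ 0`
        have hz : ∀ Z ∈ gE ρ ω e', Z = 0 := by
          intro Z hZ
          refine trace_nd_gE hS he' hZ fun Z' hZ' => ?_
          obtain ⟨l, hl, k1, k2⟩ := lift he' hone' Z hZ.1
          obtain ⟨l', hl', k3, k4⟩ := lift he' hone' Z' hZ'.1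
          rw [hZ.2, ← hφl l hl k1] at k2
          rw [hZ'.2, ← hφl l' hl' k3] at k4
          rw [← k2, ← k4, ← hB', hBB, hc0, zero_mul]
        have h1 : φ X0 = 0 := hz _ (by rw [hφ]; exact mul_gE he' (σ X0).2.2)
        rw [hφ] at h1
        have h2 := a1 _ (σ X0).2.1 (σ X0).2.2 h1
        rw [hσ] at h2
        exact hX0.2 (Subtype.ext h2)
      · have h1 := hBB ⟨e * l, mul_gE he k⟩ ⟨e * l', mul_gE he k'⟩
        rw [hB', hB, hφl l hl k, hφl l' hl' k', blk he' (hLz hl), blk he (hLz hl), LinearMap.trace_mul_comm] at h1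
        rw [h1, LinearMap.trace_mul_comm ℂ e]
    · -- the block `e` is zero: impossible
      exfalso
      apply hne
      rw [eq_bot_iff]
      intro X hX
      obtain ⟨l, hl, k1, k2⟩ := lift he hone X hX.1
      obtain ⟨m, hm, k3, k4, k5⟩ := a2 l k1
      have h1 := a1 (l - m) (Submodule.sub_mem _ hl hm) (Submodule.sub_mem _ k1 k3) (by rw [mul_sub, k4, sub_self])
      rw [mul_sub, k5, sub_zero, k2, hX.2] at h1
      exact h1
  · left
    refine ⟨fun G hG => ?_, ?_⟩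
    · obtain ⟨l, hl, k1, k2, k3⟩ := a1 G hG
      exact ⟨l, hl, k2, k3⟩
    · rcases alt he' he hs' hone' with a2 | a2
      · intro G hG
        obtain ⟨l, hl, k1, k2⟩ := lift he' hone' G hG
        obtain ⟨m, hm, k3, k4, k5⟩ := a1 l k1
        have h1 := a2 (l - m) (Submodule.sub_mem _ hl hm) (Submodule.sub_mem _ k1 k3) (by rw [mul_sub, k4, sub_self])
        rw [mul_sub, k5, sub_zero, k2] at h1
        exact ⟨0, Submodule.zero_mem _, by rw [h1, mul_zero], mul_zero _⟩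
      · intro G hG
        obtain ⟨l, hl, k1, k2, k3⟩ := a2 G hG
        exact ⟨l, hl, k2, k3⟩

end Pool.Agent.Lib.MP_943dad_ag.BMo
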