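import Pool.Agent.Lib.MP_943dad_ag.BM.Ineq

set_option linter.all false

/-!
# Complements to the inequality: the kernel case, positivity of `c 1`, the kernel subgroup
-/

namespace Pool.Agent.BM.Ineq

open Finset

variable {H : Type} [Group H] [Fintype H]

theorem pow_fix {c : H → ℂ} {α : H} (hα : ∀ x, c (α * x) = c x) (j : ℕ) (x : H) : c (α ^ j * x) = c x := by
  induction j generalizing x with
  | zero => simp
  | succ j ih => rw [pow_succ, mul_assoc, ih, hα]

/-- In the kernel there is equality. -/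
theorem U_eq_of_fix {c : H → ℂ} (hcl : ∀ x u, c (u * x * u⁻¹) = c x) {α β : H}
    (hα : ∀ x, c (α * x) = c x) (hβ : ∀ x, c (β * x) = c x) :
    U c α β = (Fintype.card H : ℂ) ^ 2 * (Fintype.card H : ℂ) * c 1 := by
  unfold U
  have e1 : ∀ (u : H) (i j : ℕ), c (u * β ^ i * α ^ j * u⁻¹) = c 1 := by
    intro u i j
    rw [show u * β ^ i * α ^ j * u⁻¹ = u * (β ^ i * (α ^ j * 1)) * u⁻¹ by group, hcl, pow_fix hβ, pow_fix hα]
  simp only [e1, Finset.sum_const, Finset.card_univ, Finset.card_range, nsmul_eq_mul]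
  ring

/-- `c 1` is the sum of the squares of the moduli. -/
theorem one_eq {c : H → ℂ} (hcl : ∀ x u, c (u * x * u⁻¹) = c x)
    (hid : ∀ x, ∑ y, c y * c (y⁻¹ * x) = c x) (hinv : ∀ x, c x⁻¹ = c x) :
    c 1 = ((∑ x, Complex.normSq (c x) : ℝ) : ℂ) := by
  rw [← hid 1]
  push_cast
  refine Finset.sum_congr rfl fun x _ => ?_
  rw [← Complex.mul_conj, real_of_idem hcl hid hinv, mul_one, hinv]

/-- `c 1 > 0` if `c ≠ 0`. -/
theorem one_pos {c : H → ℂ} (hcl : ∀ x u, c (u * x * u⁻¹) = c x)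
    (hid : ∀ x, ∑ y, c y * c (y⁻¹ * x) = c x) (hinv : ∀ x, c x⁻¹ = c x) (h0 : c ≠ 0) :
    ∃ s : ℝ, 0 < s ∧ c 1 = (s : ℂ) := by
  refine ⟨∑ x, Complex.normSq (c x), ?_, one_eq hcl hid hinv⟩
  obtain ⟨x, hx⟩ := Function.ne_iff.1 h0
  exact Finset.sum_pos' (fun y _ => Complex.normSq_nonneg _) ⟨x, Finset.mem_univ _, Complex.normSq_pos.2 hx⟩

/-- The kernel of a class function. -/
def ker (c : H → ℂ) : Subgroup H where
  carrier := {h | ∀ x, c (h * x) = c x}
  one_mem' := fun x => by rw [one_mul]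
  mul_mem' := fun {a b} ha hb x => by rw [mul_assoc, ha, hb]
  inv_mem' := fun {a} ha x => by rw [← ha (a⁻¹ * x), mul_inv_cancel_left]

theorem mem_ker {c : H → ℂ} {h : H} : h ∈ ker c ↔ ∀ x, c (h * x) = c x := Iff.rfl

theorem ker_normal {c : H → ℂ} (hcl : ∀ x u, c (u * x * u⁻¹) = c x) : (ker c).Normal :=
  ⟨fun h hh u x => by
    rw [← hcl (u * h * u⁻¹ * x) u⁻¹, show u⁻¹ * (u * h * u⁻¹ * x) * u⁻¹⁻¹ = h * (u⁻¹ * x * u) by group, hh,
      ← hcl (u⁻¹ * x * u) u, show u * (u⁻¹ * x * u) * u⁻¹ = x by group]⟩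

/-- The combined form used for two idempotents: if `U c α β = λ c 1` and ... with the product rule. If `0 < s`, `U = k² |H| s` iff both are in the kernel. -/
theorem U_eq_iff {c : H → ℂ} (hcl : ∀ x u, c (u * x * u⁻¹) = c x)
    (hid : ∀ x, ∑ y, c y * c (y⁻¹ * x) = c x) (hinv : ∀ x, c x⁻¹ = c x) (α β : H) :
    U c α β = (Fintype.card H : ℂ) ^ 2 * (Fintype.card H : ℂ) * c 1 ↔ α ∈ ker c ∧ β ∈ ker c := by
  constructor
  · intro h
    obtain ⟨s, t, h1, h2, _, _, h5⟩ := ineq hcl hid hinv α β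
    rw [h1, h2] at h
    exact h5 (by exact_mod_cast h)
  · rintro ⟨h1, h2⟩
    exact U_eq_of_fix hcl h1 h2

/-- Two idempotents: `κ` the constant of proportionality of the trace forms. If the handle `(α, β)` is in the kernel of `c` and the handle
`(α', β')` in the kernel of `d`, and `U d = κ U c` for both handles, then both handles are in both kernels. -/
theorem two_handles {c d : H → ℂ} (hcl : ∀ x u, c (u * x * u⁻¹) = c x)
    (hid : ∀ x, ∑ y, c y * c (y⁻¹ * x) = c x) (hinv : ∀ x, c x⁻¹ = c x) (h0 : c ≠ 0)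
    (dcl : ∀ x u, d (u * x * u⁻¹) = d x)
    (did : ∀ x, ∑ y, d y * d (y⁻¹ * x) = d x) (dinv : ∀ x, d x⁻¹ = d x) (d0 : d ≠ 0)
    {α β α' β' : H} (hα : α ∈ ker c) (hβ : β ∈ ker c) (hα' : α' ∈ ker d) (hβ' : β' ∈ ker d) {κ : ℂ}
    (e1 : U d α β = κ * U c α β) (e2 : U d α' β' = κ * U c α' β') :
    (α ∈ ker d ∧ β ∈ ker d) ∧ (α' ∈ ker c ∧ β' ∈ ker c) := by
  obtain ⟨s, hs, hs1⟩ := one_pos hcl hid hinv h0
  obtain ⟨s', hs', hs1'⟩ := one_pos dcl did dinv d0
  obtain ⟨s2, t, h1, h2, h3, h4, h5⟩ := ineq hcl hid hinv α' β'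
  obtain ⟨s2', t', h1', h2', h3', h4', h5'⟩ := ineq dcl did dinv α β
  have es : s2 = s := by
    have := h1.symm.trans hs1
    exact_mod_cast this
  have es' : s2' = s' := by
    have := h1'.symm.trans hs1'
    exact_mod_cast this
  subst es
  subst es'
  have hk : (0 : ℝ) < (Fintype.card H : ℝ) := by exact_mod_cast Fintype.card_pos (α := H)
  set M : ℝ := (Fintype.card H : ℝ) ^ 2 * (Fintype.card H : ℝ) with hM
  have hM0 : 0 < M := by positivity
  have f1 : U c α β = ((M * s2 : ℝ) : ℂ) := by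
    rw [U_eq_of_fix hcl hα hβ, hs1, hM]
    push_cast
    ring
  have f2 : U d α' β' = ((M * s2' : ℝ) : ℂ) := by
    rw [U_eq_of_fix dcl hα' hβ', hs1', hM]
    push_cast
    ring
  rw [h2', f1] at e1
  rw [f2, h2] at e2
  -- `t' = κ M s`, `M s' = κ t`, so `t' t = M² s s'`
  have e3 : ((t' * t : ℝ) : ℂ) = ((M * s2 * (M * s2') : ℝ) : ℂ) := by
    push_cast
    rw [e1]
    have : ((M : ℂ) * (s2' : ℂ)) = κ * (t : ℂ) := by
      rw [← e2]
      push_cast
      ring
    rw [this]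
    push_cast
    ring
  have e4 : t' * t = M * s2 * (M * s2') := by exact_mod_cast e3
  have p1 : 0 < M * s2 := mul_pos hM0 hs
  have p2 : 0 < M * s2' := mul_pos hM0 hs'
  have q1 : t = M * s2 := by
    refine le_antisymm h4 ?_
    by_contra hlt
    push Not at hlt
    have : t' * t < M * s2 * (M * s2') := by
      calc t' * t ≤ M * s2' * t := mul_le_mul_of_nonneg_right h4' h3
        _ < M * s2' * (M * s2) := mul_lt_mul_of_pos_left hlt p2
        _ = _ := by ring
    exact absurd e4 this.ne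
  have q2 : t' = M * s2' := by
    refine le_antisymm h4' ?_
    by_contra hlt
    push Not at hlt
    have : t' * t < M * s2 * (M * s2') := by
      rw [q1]
      calc t' * (M * s2) < M * s2' * (M * s2) := mul_lt_mul_of_pos_right hlt p1
        _ = _ := by ring
    exact absurd e4 this.ne
  exact ⟨h5' q2, h5 q1⟩

end Pool.Agent.BM.Ineq
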