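import Pool.Agent.Lib.MP_943dad_ag.BM.Defs

set_option linter.all false

/-!
# The Lie algebra of the Zariski closure of a group of isometries
-/

namespace Pool.Agent.BM

/-- A bilinear form of two linear maps is a polynomial function. -/
theorem form_pol {E V : Type} [Ring E] [Algebra ℂ E] [AddCommGroup V] [Module ℂ V] [FiniteDimensional ℂ V]
    (ω : V →ₗ[ℂ] V →ₗ[ℂ] ℂ) (u v : E →ₗ[ℂ] V) : (fun A => ω (u A) (v A)) ∈ Pol E := by
  have b := Module.finBasis ℂ V
  have h1 : (fun A => ω (u A) (v A)) = ∑ i, ∑ j, (ω (b i) (b j)) •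
      ((fun A => (b.coord i ∘ₗ u) A) * (fun A => (b.coord j ∘ₗ v) A) : E → ℂ) := by
    funext A
    simp only [Finset.sum_apply, Pi.smul_apply, Pi.mul_apply, LinearMap.comp_apply, Module.Basis.coord_apply,
      smul_eq_mul]
    conv_lhs => rw [← b.sum_repr (u A), ← b.sum_repr (v A)]
    rw [map_sum ω, LinearMap.sum_apply]
    refine Finset.sum_congr rfl fun i _ => ?_
    rw [map_sum]
    refine Finset.sum_congr rfl fun j _ => ?_
    rw [map_smul, map_smul, LinearMap.smul_apply, smul_eq_mul, smul_eq_mul]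
    ring
  rw [h1]
  refine Subalgebra.sum_mem _ fun i _ => Subalgebra.sum_mem _ fun j _ => Subalgebra.smul_mem _ ?_ _
  exact Subalgebra.mul_mem _ (Algebra.subset_adjoin ⟨b.coord i ∘ₗ u, rfl⟩) (Algebra.subset_adjoin ⟨b.coord j ∘ₗ v, rfl⟩)

/-- The Lie algebra of a group of isometries consists of skew endomorphisms. -/
theorem lie_form {V : Type} [AddCommGroup V] [Module ℂ V] [FiniteDimensional ℂ V] {ω : V →ₗ[ℂ] V →ₗ[ℂ] ℂ}
    {G : Set (Module.End ℂ V)} (hG : ∀ A ∈ G, ∀ u v, ω (A u) (A v) = ω u v) {X : Module.End ℂ V} (hX : InLie G X)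
    (u v : V) : ω (X u) v + ω u (X v) = 0 := by
  let ev : V → (Module.End ℂ V →ₗ[ℂ] V) := fun w => LinearMap.applyₗ w
  have hev : ∀ w A, ev w A = A w := fun w A => rfl
  have h1 : (fun A : Module.End ℂ V => ω (ev u A) (ev v A) - ω u v) ∈ Pol (Module.End ℂ V) := by
    have h2 : (fun A : Module.End ℂ V => ω (ev u A) (ev v A) - ω u v) =
        (fun A => ω (ev u A) (ev v A)) - algebraMap ℂ (Module.End ℂ V → ℂ) (ω u v) := rfl
    rw [h2]
    exact Subalgebra.sub_mem _ (form_pol ω _ _) (Subalgebra.algebraMap_mem _ _)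
  have h3 := hX _ h1 (fun A hA => by rw [hev, hev, hG A hA, sub_self])
  have h4 : (fun t : ℂ => ω (ev u (1 + t • X)) (ev v (1 + t • X)) - ω u v) =
      fun t : ℂ => t * (ω (X u) v + ω u (X v)) + t ^ 2 * ω (X u) (X v) := by
    funext t
    rw [hev, hev]
    simp only [LinearMap.add_apply, LinearMap.smul_apply, Module.End.one_apply, map_add, map_smul, smul_eq_mul]
    ring
  rw [h4] at h3
  have h5 : HasDerivAt (fun t : ℂ => t * (ω (X u) v + ω u (X v)) + t ^ 2 * ω (X u) (X v))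
      (1 * (ω (X u) v + ω u (X v)) + (2 * (0 : ℂ) ^ 1 * 1) * ω (X u) (X v)) 0 :=
    ((hasDerivAt_id' (0 : ℂ)).mul_const _).add (((hasDerivAt_id' (0 : ℂ)).pow 2).mul_const _)
  rw [h5.deriv] at h3
  simpa using h3

end Pool.Agent.BM
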