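import Pool.Agent.Lib.MP_943dad_ag.BM.Irr
import Pool.Agent.Lib.MP_943dad_ag.BM.Inv
import Pool.Agent.Lib.MP_943dad_ag.BM.Gen

set_option linter.all false

/-!
# The cup product is non-degenerate if it is non-degenerate for the images of the deck group in irreducible representations
-/

namespace Pool.Agent.BM

open Pool.Agent.HMv

variable {H : Type} [Group H] {g n : ℕ} {φ : F g n →* H}

theorem inn_mul' (y z : F g n) : inn φ (y * z) = inn φ y * inn φ z := by
  refine LinearMap.ext fun f => Subtype.ext (funext fun x => ?_)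
  rw [Module.End.mul_apply, inn_apply, inn_apply, inn_apply]
  congr 1
  group

theorem inn_congr' {y z : F g n} (h : φ y = φ z) : inn φ y = inn φ z := by
  refine LinearMap.ext fun f => Subtype.ext (funext fun x => ?_)
  rw [inn_apply, inn_apply]
  by_cases hx : φ x = 1
  · have h1 := coh_conj' f y⁻¹ z⁻¹ x (by rw [map_inv, map_inv, h]) hx
    rwa [inv_inv, inv_inv] at h1
  · have h1 : ∀ w : F g n, φ (w⁻¹ * x * w) ≠ 1 := by
      intro w hw
      apply hx
      rw [map_mul, map_mul, map_inv] at hw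
      have h2 : φ x = φ w * ((φ w)⁻¹ * φ x * φ w) * (φ w)⁻¹ := by group
      rw [h2, hw]
      group
    rw [f.2.1 _ (h1 y), f.2.1 _ (h1 z)]

theorem exists_rho' (hφ : Function.Surjective φ) :
    ∃ ρ : H →* Module.End ℂ (Coh φ), ∀ y, ρ (φ y) = inn φ y := by
  obtain ⟨s, hs⟩ := hφ.hasRightInverse
  refine ⟨{ toFun := fun h => inn φ (s h)
            map_one' := ?_
            map_mul' := fun h k => ?_ }, fun y => ?_⟩
  · rw [inn_congr' (z := 1) (by rw [hs, map_one])]
    refine LinearMap.ext fun f => Subtype.ext (funext fun x => ?_)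
    rw [inn_apply, Module.End.one_apply]
    simp
  · rw [← inn_mul']
    exact inn_congr' (by rw [hs, map_mul, hs, hs])
  · exact inn_congr' (hs _)

variable [Fintype H]

/-- The cup product is non-degenerate if it is non-degenerate for the quotients `H / N`, where `N` is the kernel of an
irreducible representation. -/
theorem cup_nd_quot (hφ : Function.Surjective φ) (hR : φ (R g n) = 1)
    {ω : LinearMap.BilinForm ℂ (Coh φ)} (hω : IsCup φ ω)
    (hq : ∀ (N : Subgroup H) [N.Normal] [Fintype (H ⧸ N)], IrrK N →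
      ∀ ω' : LinearMap.BilinForm ℂ (Coh ((QuotientGroup.mk' N).comp φ)), IsCup ((QuotientGroup.mk' N).comp φ) ω' →
        ∀ f, (∀ f', ω' f f' = 0) → f = 0) :
    ∀ f, (∀ f', ω f f' = 0) → f = 0 := by
  classical
  haveI : FiniteDimensional ℂ (Coh φ) := finite_coh φ
  obtain ⟨ρ, hρ⟩ := exists_rho' hφ
  let K : Submodule ℂ (Coh φ) :=
    { carrier := {f | ∀ f', ω f f' = 0}
      add_mem' := fun {f f'} h h' u => by rw [map_add, LinearMap.add_apply, h, h', add_zero]
      zero_mem' := fun u => by rw [map_zero, LinearMap.zero_apply]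
      smul_mem' := fun t f h u => by rw [map_smul, LinearMap.smul_apply, h, smul_zero] }
  have memK : ∀ f, f ∈ K ↔ ∀ f', ω f f' = 0 := fun f => Iff.rfl
  by_contra hcon
  have hK0 : K ≠ ⊥ := by
    intro h
    apply hcon
    intro f hf
    have h1 : f ∈ K := hf
    rw [h] at h1
    exact (Submodule.mem_bot ℂ).1 h1
  have hKρ : ∀ h, ∀ f ∈ K, ρ h f ∈ K := by
    intro h f hf
    obtain ⟨y, rfl⟩ := hφ h
    rw [memK]
    intro f'
    have h1 : f' = inn φ y (inn φ y⁻¹ f') := by
      rw [← Module.End.mul_apply, ← inn_mul', mul_inv_cancel]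
      refine Subtype.ext (funext fun x => ?_)
      rw [inn_apply]
      simp
    rw [hρ, h1, cup_inn hφ hR hω]
    exact (memK f).1 hf _
  obtain ⟨N, hN, hc, v, hv, hv0, hNv⟩ := exists_fix_irr ρ K hKρ hK0
  haveI := hN
  haveI : Fintype (H ⧸ N) := Fintype.ofFinite _
  have hqs : Function.Surjective (QuotientGroup.mk' N) := QuotientGroup.mk'_surjective N
  have hR' : ((QuotientGroup.mk' N).comp φ) (R g n) = 1 := by rw [MonoidHom.comp_apply, hR, map_one]
  obtain ⟨v', rfl⟩ := exists_res (QuotientGroup.mk' N) φ hφ hR v (fun y hy => by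
    rw [← hρ]
    exact hNv _ ((QuotientGroup.eq_one_iff _).1 hy))
  obtain ⟨ω', hω'⟩ := exists_cup (φ := (QuotientGroup.mk' N).comp φ) (hqs.comp hφ) hR'
  apply hv0
  rw [hq N hc ω' hω' v' fun f' => ?_, map_zero]
  have h1 := (memK _).1 hv (res (QuotientGroup.mk' N) φ f')
  rw [cup_res (QuotientGroup.mk' N) hqs φ hφ hR hω hω'] at h1
  refine (mul_eq_zero.1 h1).resolve_left ?_
  have h2 : 0 < Nat.card (QuotientGroup.mk' N).ker := Nat.card_pos
  exact_mod_cast h2.ne'

end Pool.Agent.BM
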