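import Pool.Agent.Lib.MP_943dad_ag.BM.Gou
import Pool.Agent.Lib.MP_943dad_ag.BM.Inv
import Pool.Agent.Lib.MP_943dad_ag.BM.Nd

set_option linter.all false

/-!
# A block of the cohomology of a cover and the cohomology of the quotient cover
-/

open Finset

namespace Pool.Agent.BM

open Pool.Agent.HMv Pool.Agent.Lib.MP_943dad_ag

variable {H H' : Type} [Group H] [Group H'] {g n : ℕ}

theorem mem_zz_iff {φ : F g n →* H} (hφ : Function.Surjective φ) {ω : LinearMap.BilinForm ℂ (Coh φ)}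
    {ρ : H →* Module.End ℂ (Coh φ)} (hρ : ∀ y, ρ (φ y) = inn φ y) {X : Module.End ℂ (Coh φ)} :
    X ∈ BMo.zz ρ ω ↔ IsZ φ ω X := by
  constructor
  · rintro ⟨h1, h2⟩
    exact ⟨fun y => by rw [← hρ]; exact h1 _, h2⟩
  · rintro ⟨h1, h2⟩
    refine ⟨fun h => ?_, h2⟩
    obtain ⟨y, rfl⟩ := hφ h
    rw [hρ]
    exact h1 y

variable [Fintype H] [Fintype H']

/-- The projection on the invariants of the kernel of `q` and the inverse of the restriction. -/
theorem exists_ret (q : H →* H') (φ : F g n →* H) (hφ : Function.Surjective φ)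
    (hR : φ (R g n) = 1) {ω : LinearMap.BilinForm ℂ (Coh φ)} (hω : IsCup φ ω) :
    ∃ (π : Module.End ℂ (Coh φ)) (Rl : Coh φ →ₗ[ℂ] Coh (q.comp φ)), (∀ f, res q φ (Rl f) = π f) ∧
      (∀ f, π (res q φ f) = res q φ f) ∧ (∀ f, Rl (res q φ f) = f) ∧
      (∀ y f, Rl (inn φ y f) = inn (q.comp φ) y (Rl f)) ∧ ∀ u v, ω (π u) v = ω u (π v) := by
  classical
  haveI : Fintype q.ker := Fintype.ofFinite _
  obtain ⟨ρ, hρ⟩ := exists_rho' (φ := φ) hφ
  have hcK : (Nat.card q.ker : ℂ) ≠ 0 := by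
    have : 0 < Nat.card q.ker := Nat.card_pos
    exact_mod_cast this.ne'
  have hcK' : (Fintype.card q.ker : ℂ) ≠ 0 := by rwa [← Nat.card_eq_fintype_card]
  have hinv : ∀ h u v, ω (ρ h u) (ρ h v) = ω u v := by
    intro h u v
    obtain ⟨y, rfl⟩ := hφ h
    rw [hρ]
    exact cup_inn hφ hR hω y u v
  have hinv' : ∀ (h : H) (u v : Coh φ), ω (ρ h u) v = ω u (ρ h⁻¹ v) := by
    intro h u v
    have h1 := hinv h u (ρ h⁻¹ v)
    have h2 : ρ h (ρ h⁻¹ v) = v := by
      rw [← Module.End.mul_apply, ← map_mul, mul_inv_cancel, map_one, Module.End.one_apply]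
    rw [h2] at h1
    exact h1
  -- the projection on the invariants of the kernel
  obtain ⟨π, hπ⟩ : ∃ π : Module.End ℂ (Coh φ), π = (1 / (Fintype.card q.ker : ℂ)) • ∑ k : q.ker, ρ k := ⟨_, rfl⟩
  have hπ1 : ∀ y, q (φ y) = 1 → ∀ f, inn φ y (π f) = π f := by
    intro y hy f
    have h1 : ρ (φ y) * ∑ k : q.ker, ρ k = ∑ k : q.ker, ρ k := by
      rw [mul_sum]
      refine Fintype.sum_equiv (Equiv.mulLeft (⟨φ y, hy⟩ : q.ker)) _ _ fun k => ?_
      rw [← map_mul]
      rfl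
    rw [← hρ, ← Module.End.mul_apply, hπ, mul_smul_comm, h1]
  have hπ2 : ∀ f, π (res q φ f) = res q φ f := by
    intro f
    have h1 : ∀ k : q.ker, ρ k (res q φ f) = res q φ f := by
      rintro ⟨k, hk⟩
      obtain ⟨y, rfl⟩ := hφ k
      change ρ (φ y) (res q φ f) = res q φ f
      rw [hρ]
      exact inn_res q φ hk f
    rw [hπ, LinearMap.smul_apply, LinearMap.sum_apply, sum_congr rfl fun k _ => h1 k, sum_const, card_univ,
      ← Nat.cast_smul_eq_nsmul ℂ, smul_smul, one_div, inv_mul_cancel₀ hcK', one_smul]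
  have hπ3 : ∀ h, π * ρ h = ρ h * π := by
    intro h
    have h1 : (∑ k : q.ker, ρ k) * ρ h = ρ h * ∑ k : q.ker, ρ k := by
      rw [sum_mul, mul_sum]
      have hn : ∀ k : q.ker, h⁻¹ * k.1 * h ∈ q.ker := by
        intro k
        rw [MonoidHom.mem_ker, map_mul, map_mul, map_inv, MonoidHom.mem_ker.1 k.2, mul_one, inv_mul_cancel]
      have hn' : ∀ k : q.ker, h * k.1 * h⁻¹ ∈ q.ker := by
        intro k
        rw [MonoidHom.mem_ker, map_mul, map_mul, map_inv, MonoidHom.mem_ker.1 k.2, mul_one, mul_inv_cancel]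
      let E : q.ker ≃ q.ker :=
        { toFun := fun k => ⟨h⁻¹ * k.1 * h, hn k⟩
          invFun := fun k => ⟨h * k.1 * h⁻¹, hn' k⟩
          left_inv := fun k => Subtype.ext (by simp [mul_assoc])
          right_inv := fun k => Subtype.ext (by simp [mul_assoc]) }
      refine Fintype.sum_equiv E _ _ fun k => ?_
      rw [← map_mul, ← map_mul]
      congr 1
      change k.1 * h = h * (h⁻¹ * k.1 * h)
      group
    rw [hπ, smul_mul_assoc, mul_smul_comm, h1]
  have hπ4 : ∀ u v, ω (π u) v = ω u (π v) := by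
    intro u v
    rw [hπ]
    simp only [LinearMap.smul_apply, LinearMap.sum_apply, map_smul, map_sum, smul_eq_mul]
    congr 1
    refine Fintype.sum_equiv (Equiv.inv q.ker) _ _ fun k => ?_
    rw [hinv']
    rfl
  -- the inverse of the restriction
  have h0 : ∀ f : Coh φ, ∃ f' : Coh (q.comp φ), res q φ f' = π f := fun f =>
    exists_res q φ hφ hR (π f) fun y hy => hπ1 y hy f
  choose r hr using h0
  obtain ⟨Rl, hRl⟩ : ∃ Rl : Coh φ →ₗ[ℂ] Coh (q.comp φ), ∀ f, res q φ (Rl f) = π f := by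
    refine ⟨{ toFun := r, map_add' := fun f f' => ?_, map_smul' := fun t f => ?_ }, hr⟩
    · apply res_injective q φ
      rw [hr, map_add, map_add, hr, hr]
    · apply res_injective q φ
      rw [hr, map_smul, RingHom.id_apply, map_smul, hr]
  have hRr : ∀ f, Rl (res q φ f) = f := by
    intro f
    apply res_injective q φ
    rw [hRl, hπ2]
  have hRi : ∀ y f, Rl (inn φ y f) = inn (q.comp φ) y (Rl f) := by
    intro y f
    apply res_injective q φ
    rw [hRl, res_inn, hRl, ← hρ, ← Module.End.mul_apply, hπ3, Module.End.mul_apply]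
  exact ⟨π, Rl, hRl, hπ2, hRr, hRi, hπ4⟩

theorem exists_liftC (q : H →* H') (φ : F g n →* H) (hφ : Function.Surjective φ)
    (hR : φ (R g n) = 1) {ω : LinearMap.BilinForm ℂ (Coh φ)} (hω : IsCup φ ω)
    {X' : Module.End ℂ (Coh (q.comp φ))} (hX' : ∀ y, X' * inn (q.comp φ) y = inn (q.comp φ) y * X') :
    ∃ X : Module.End ℂ (Coh φ), (∀ y, X * inn φ y = inn φ y * X) ∧ ∀ f, X (res q φ f) = res q φ (X' f) := by
  obtain ⟨π, Rl, hRl, hπ2, hRr, hRi, hπ4⟩ := exists_ret q φ hφ hR hω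
  refine ⟨(res q φ) ∘ₗ X' ∘ₗ Rl, fun y => LinearMap.ext fun f => ?_, fun f => ?_⟩
  · rw [Module.End.mul_apply, Module.End.mul_apply]
    change res q φ (X' (Rl (inn φ y f))) = inn φ y (res q φ (X' (Rl f)))
    rw [hRi, ← res_inn]
    congr 1
    exact LinearMap.congr_fun (hX' y) (Rl f)
  · change res q φ (X' (Rl (res q φ f))) = res q φ (X' f)
    rw [hRr]

theorem exists_lift (q : H →* H') (hq : Function.Surjective q) (φ : F g n →* H) (hφ : Function.Surjective φ)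
    (hR : φ (R g n) = 1) {ω : LinearMap.BilinForm ℂ (Coh φ)} (hω : IsCup φ ω)
    {ω' : LinearMap.BilinForm ℂ (Coh (q.comp φ))} (hω' : IsCup (q.comp φ) ω')
    {X' : Module.End ℂ (Coh (q.comp φ))} (hX' : IsZ (q.comp φ) ω' X') :
    ∃ X : Module.End ℂ (Coh φ), IsZ φ ω X ∧ ∀ f, X (res q φ f) = res q φ (X' f) := by
  obtain ⟨π, Rl, hRl, hπ2, hRr, hRi, hπ4⟩ := exists_ret q φ hφ hR hω
  refine ⟨(res q φ) ∘ₗ X' ∘ₗ Rl, ⟨fun y => LinearMap.ext fun f => ?_, fun f f' => ?_⟩, fun f => ?_⟩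
  · rw [Module.End.mul_apply, Module.End.mul_apply]
    change res q φ (X' (Rl (inn φ y f))) = inn φ y (res q φ (X' (Rl f)))
    rw [hRi, ← res_inn]
    congr 1
    exact LinearMap.congr_fun (hX'.1 y) (Rl f)
  · change ω (res q φ (X' (Rl f))) f' + ω f (res q φ (X' (Rl f'))) = 0
    have h1 : ω (res q φ (X' (Rl f))) f' = Nat.card q.ker * ω' (X' (Rl f)) (Rl f') := by
      rw [← cup_res q hq φ hφ hR hω hω', hRl, ← hπ4, hπ2]
    have h2 : ω f (res q φ (X' (Rl f'))) = Nat.card q.ker * ω' (Rl f) (X' (Rl f')) := by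
      rw [← cup_res q hq φ hφ hR hω hω', hRl, hπ4, hπ2]
    rw [h1, h2, ← mul_add, hX'.2, mul_zero]
  · change res q φ (X' (Rl (res q φ f))) = res q φ (X' f)
    rw [hRr]

section
variable (q : H →* H') (hq : Function.Surjective q) (φ : F g n →* H) (hφ : Function.Surjective φ)
  (hR : φ (R g n) = 1) {ω : LinearMap.BilinForm ℂ (Coh φ)} (hω : IsCup φ ω)
  {ω' : LinearMap.BilinForm ℂ (Coh (q.comp φ))} (hω' : IsCup (q.comp φ) ω')
  {ρ : H →* Module.End ℂ (Coh φ)} (hρ : ∀ y, ρ (φ y) = inn φ y)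
  {ρ' : H' →* Module.End ℂ (Coh (q.comp φ))} (hρ' : ∀ y, ρ' (q (φ y)) = inn (q.comp φ) y)
  {e : Module.End ℂ (Coh φ)} {e' : Module.End ℂ (Coh (q.comp φ))}
include hq hφ hR hω hω' hρ hρ'

theorem zz_restrict {X : Module.End ℂ (Coh φ)} (hX : X ∈ BMo.zz ρ ω) :
    ∃ X' ∈ BMo.zz ρ' ω', ∀ f, X (res q φ f) = res q φ (X' f) := by
  have h1 := (mem_zz_iff hφ hρ).1 hX
  obtain ⟨X', hX'⟩ := exists_restrict q φ hφ hR h1.1
  have hqφ : Function.Surjective (q.comp φ) := hq.comp hφ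
  exact ⟨X', (mem_zz_iff hqφ hρ').2 (isZ_restrict q hq φ hφ hR hω hω' h1 hX'), fun f => (hX' f).symm⟩

theorem zz_lift {X' : Module.End ℂ (Coh (q.comp φ))} (hX' : X' ∈ BMo.zz ρ' ω') :
    ∃ X ∈ BMo.zz ρ ω, ∀ f, X (res q φ f) = res q φ (X' f) := by
  have hqφ : Function.Surjective (q.comp φ) := hq.comp hφ
  obtain ⟨X, hX, h1⟩ := exists_lift q hq φ hφ hR hω hω' ((mem_zz_iff hqφ hρ').1 hX')
  exact ⟨X, (mem_zz_iff hφ hρ).2 hX, h1⟩

theorem gg_restrict {X : Module.End ℂ (Coh φ)} (hX : X ∈ BMo.gg ρ ω) :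
    ∃ X' ∈ BMo.gg ρ' ω', ∀ f, X (res q φ f) = res q φ (X' f) := by
  refine Submodule.span_induction (p := fun X _ => ∃ X' ∈ BMo.gg ρ' ω', ∀ f, X (res q φ f) = res q φ (X' f))
    ?_ ?_ ?_ ?_ hX
  · rintro _ ⟨A, hA, B, hB, rfl⟩
    obtain ⟨A', hA', hA1⟩ := zz_restrict q hq φ hφ hR hω hω' hρ hρ' hA
    obtain ⟨B', hB', hB1⟩ := zz_restrict q hq φ hφ hR hω hω' hρ hρ' hB
    refine ⟨A' * B' - B' * A', Submodule.subset_span ⟨A', hA', B', hB', rfl⟩, fun f => ?_⟩
    rw [LinearMap.sub_apply, LinearMap.sub_apply, map_sub, Module.End.mul_apply, Module.End.mul_apply,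
      Module.End.mul_apply, Module.End.mul_apply, hA1, hB1, hB1, hA1]
  · exact ⟨0, Submodule.zero_mem _, fun f => by rw [LinearMap.zero_apply, LinearMap.zero_apply, map_zero]⟩
  · rintro X Y - - ⟨X', hX', h1⟩ ⟨Y', hY', h2⟩
    exact ⟨X' + Y', Submodule.add_mem _ hX' hY', fun f => by
      rw [LinearMap.add_apply, LinearMap.add_apply, map_add, h1, h2]⟩
  · rintro t X - ⟨X', hX', h1⟩
    exact ⟨t • X', Submodule.smul_mem _ _ hX', fun f => by
      rw [LinearMap.smul_apply, LinearMap.smul_apply, map_smul, h1]⟩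

theorem gg_lift {X' : Module.End ℂ (Coh (q.comp φ))} (hX' : X' ∈ BMo.gg ρ' ω') :
    ∃ X ∈ BMo.gg ρ ω, ∀ f, X (res q φ f) = res q φ (X' f) := by
  refine Submodule.span_induction (p := fun X' _ => ∃ X ∈ BMo.gg ρ ω, ∀ f, X (res q φ f) = res q φ (X' f))
    ?_ ?_ ?_ ?_ hX'
  · rintro _ ⟨A', hA', B', hB', rfl⟩
    obtain ⟨A, hA, hA1⟩ := zz_lift q hq φ hφ hR hω hω' hρ hρ' hA'
    obtain ⟨B, hB, hB1⟩ := zz_lift q hq φ hφ hR hω hω' hρ hρ' hB'
    refine ⟨A * B - B * A, Submodule.subset_span ⟨A, hA, B, hB, rfl⟩, fun f => ?_⟩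
    rw [LinearMap.sub_apply, LinearMap.sub_apply, map_sub, Module.End.mul_apply, Module.End.mul_apply,
      Module.End.mul_apply, Module.End.mul_apply, hA1, hB1, hB1, hA1]
  · exact ⟨0, Submodule.zero_mem _, fun f => by rw [LinearMap.zero_apply, LinearMap.zero_apply, map_zero]⟩
  · rintro X' Y' - - ⟨X, hX, h1⟩ ⟨Y, hY, h2⟩
    exact ⟨X + Y, Submodule.add_mem _ hX hY, fun f => by
      rw [LinearMap.add_apply, LinearMap.add_apply, map_add, h1, h2]⟩
  · rintro t X' - ⟨X, hX, h1⟩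
    exact ⟨t • X, Submodule.smul_mem _ _ hX, fun f => by
      rw [LinearMap.smul_apply, LinearMap.smul_apply, map_smul, h1]⟩

omit hq hω hω' hρ' in
/-- The restriction of a block. -/
theorem exists_blk (he : BMo.Bl ρ ω e) :
    ∃ e' : Module.End ℂ (Coh (q.comp φ)), ∀ f, res q φ (e' f) = e (res q φ f) :=
  exists_restrict q φ hφ hR fun y => by rw [← hρ]; exact he.rho _

omit hq hφ hR hω hω' hρ hρ' [Fintype H'] in
theorem blk_idem (he : BMo.Bl ρ ω e) (he' : ∀ f, res q φ (e' f) = e (res q φ f)) : e' * e' = e' := by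
  refine LinearMap.ext fun f => res_injective q φ ?_
  rw [Module.End.mul_apply, he', he', ← Module.End.mul_apply, he.idem]

theorem blk_com (he : BMo.Bl ρ ω e) (he' : ∀ f, res q φ (e' f) = e (res q φ f)) :
    ∀ X ∈ BMo.zz ρ' ω', X * e' = e' * X := by
  intro X' hX'
  obtain ⟨X, hX, h1⟩ := zz_lift q hq φ hφ hR hω hω' hρ hρ' hX'
  refine LinearMap.ext fun f => res_injective q φ ?_
  rw [Module.End.mul_apply, Module.End.mul_apply, ← h1, he', he', ← h1, ← Module.End.mul_apply,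
    ← Module.End.mul_apply, he.com X hX.1]

omit hR hω hω' in
theorem blk_rho (he : BMo.Bl ρ ω e) (he' : ∀ f, res q φ (e' f) = e (res q φ f)) :
    ∀ h, e' * ρ' h = ρ' h * e' := by
  intro h'
  obtain ⟨y, rfl⟩ := (hq.comp hφ) h'
  refine LinearMap.ext fun f => res_injective q φ ?_
  rw [Module.End.mul_apply, Module.End.mul_apply]
  change res q φ (e' (ρ' (q (φ y)) f)) = res q φ (ρ' (q (φ y)) (e' f))
  rw [hρ', he', res_inn, res_inn, he', ← hρ, ← Module.End.mul_apply, ← Module.End.mul_apply, he.rho]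

/-- The restriction of a block is a block. -/
theorem blk_bl (he : BMo.Bl ρ ω e) (he' : ∀ f, res q φ (e' f) = e (res q φ f)) : BMo.Bl ρ' ω' e' := by
  have hc : (Nat.card q.ker : ℂ) ≠ 0 := by
    have : 0 < Nat.card q.ker := Nat.card_pos
    exact_mod_cast this.ne'
  refine ⟨blk_idem q φ he he', blk_rho q hq φ hφ hρ hρ' he he', fun X' hX' => ?_, fun u v => ?_⟩
  · obtain ⟨X, hX, h1⟩ := exists_liftC q φ hφ hR hω (X' := X') fun y => by rw [← hρ']; exact hX' _
    have hX2 : ∀ h, X * ρ h = ρ h * X := by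
      intro h
      obtain ⟨y, rfl⟩ := hφ h
      rw [hρ]
      exact hX y
    refine LinearMap.ext fun f => res_injective q φ ?_
    rw [Module.End.mul_apply, Module.End.mul_apply, ← h1, he', he', ← h1, ← Module.End.mul_apply,
      ← Module.End.mul_apply, he.com X hX2]
  · have h1 := he.adj (res q φ u) (res q φ v)
    rw [← he', ← he', cup_res q hq φ hφ hR hω hω', cup_res q hq φ hφ hR hω hω'] at h1
    exact mul_left_cancel₀ hc h1

omit hR hω hω' in
theorem cls_res (z : H) (f : Coh (q.comp φ)) :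
    BMo.cls ρ z (res q φ f) = (Nat.card q.ker : ℂ) • res q φ (BMo.cls ρ' (q z) f) := by
  classical
  haveI : Fintype q.ker := Fintype.ofFinite _
  have h1 : ∀ h : H, ρ h (res q φ f) = res q φ (ρ' (q h) f) := by
    intro h
    obtain ⟨y, rfl⟩ := hφ h
    rw [hρ, hρ', res_inn]
  rw [BMo.cls, BMo.cls, LinearMap.sum_apply, LinearMap.sum_apply, map_sum, smul_sum]
  rw [sum_congr rfl fun h _ => h1 (h * z * h⁻¹)]
  rw [← sum_fiberwise_of_maps_to (s := univ) (t := univ) (g := q) (fun h _ => mem_univ _)]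
  refine sum_congr rfl fun h' _ => ?_
  have h2 : ∀ h ∈ univ.filter (fun h => q h = h'), res q φ (ρ' (q (h * z * h⁻¹)) f) =
      res q φ (ρ' (h' * q z * h'⁻¹) f) := by
    intro h hh
    have h3 : q (h * z * h⁻¹) = h' * q z * h'⁻¹ := by rw [map_mul, map_mul, map_inv, (mem_filter.1 hh).2]
    rw [h3]
  rw [sum_congr rfl h2, sum_const, ← Nat.cast_smul_eq_nsmul ℂ]
  congr 2
  obtain ⟨h0, rfl⟩ := hq h'
  rw [Nat.card_eq_fintype_card, ← card_univ]
  have hm : ∀ h ∈ univ.filter (fun h => q h = q h0), h0⁻¹ * h ∈ q.ker := by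
    intro h hh
    rw [MonoidHom.mem_ker, map_mul, map_inv, (mem_filter.1 hh).2, inv_mul_cancel]
  refine card_bij' (fun h hh => (⟨h0⁻¹ * h, hm h hh⟩ : q.ker)) (fun k _ => h0 * k.1) ?_ ?_ ?_ ?_
  · intro h hh
    exact mem_univ _
  · intro k hk
    rw [mem_filter]
    exact ⟨mem_univ _, by rw [map_mul, MonoidHom.mem_ker.1 k.2, mul_one]⟩
  · intro h hh
    simp
  · intro k hk
    apply Subtype.ext
    simp

omit hR hω hω' in
theorem blk_sc (he' : ∀ f, res q φ (e' f) = e (res q φ f))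
    (hsc : ∀ z, ∃ μ : ℂ, (BMo.cls ρ z + BMo.cls ρ z⁻¹) * e = μ • e) :
    ∀ z, ∃ μ : ℂ, (BMo.cls ρ' z + BMo.cls ρ' z⁻¹) * e' = μ • e' := by
  intro z'
  obtain ⟨z, rfl⟩ := hq z'
  obtain ⟨μ, hμ⟩ := hsc z
  have hc : (Nat.card q.ker : ℂ) ≠ 0 := by
    have : 0 < Nat.card q.ker := Nat.card_pos
    exact_mod_cast this.ne'
  refine ⟨(Nat.card q.ker : ℂ)⁻¹ * μ, LinearMap.ext fun f => res_injective q φ ?_⟩
  have h1 := LinearMap.congr_fun hμ (res q φ f)
  rw [Module.End.mul_apply, LinearMap.add_apply, ← he', cls_res q hq φ hφ hρ hρ', cls_res q hq φ hφ hρ hρ',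
    LinearMap.smul_apply, ← he', ← smul_add, ← map_add, map_inv] at h1
  rw [Module.End.mul_apply, LinearMap.add_apply, LinearMap.smul_apply, map_smul, mul_smul, ← h1, smul_smul,
    inv_mul_cancel₀ hc, one_smul]

/-- The simplicity of a block. -/
theorem simp_transfer (he : BMo.Bl ρ ω e) (hk : ∀ h, q h = 1 → ρ h * e = e)
    (he' : ∀ f, res q φ (e' f) = e (res q φ f)) (hs : BMo.Simp ρ' ω' e') (hS : BMo.Sym ρ ω) :
    BMo.Simp ρ ω e := by
  intro I hI hst
  -- the range of the block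
  have hrg : ∀ v, ∃ f, res q φ f = e v := by
    intro v
    apply exists_res q φ hφ hR
    intro y hy
    rw [← hρ, ← Module.End.mul_apply, hk _ hy]
  have hXe : ∀ X ∈ BMo.gE ρ ω e, ∀ v, X v = X (e v) := by
    intro X hX v
    have h1 : X * e = X := by rw [he.com X (BMo.gg_zz hS hX.1).1, hX.2]
    rw [← Module.End.mul_apply, h1]
  let I' : Submodule ℂ (Module.End ℂ (Coh (q.comp φ))) :=
    { carrier := {X' | ∃ X ∈ I, ∀ f, X (res q φ f) = res q φ (X' f)}
      add_mem' := by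
        rintro X' Y' ⟨X, hX, h1⟩ ⟨Y, hY, h2⟩
        exact ⟨X + Y, I.add_mem hX hY, fun f => by rw [LinearMap.add_apply, LinearMap.add_apply, map_add, h1, h2]⟩
      zero_mem' := ⟨0, I.zero_mem, fun f => by rw [LinearMap.zero_apply, LinearMap.zero_apply, map_zero]⟩
      smul_mem' := by
        rintro t X' ⟨X, hX, h1⟩
        exact ⟨t • X, I.smul_mem _ hX, fun f => by rw [LinearMap.smul_apply, LinearMap.smul_apply, map_smul, h1]⟩ }
  have hI' : I' ≤ BMo.gE ρ' ω' e' := by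
    rintro X' ⟨X, hX, h1⟩
    have h2 := hI hX
    obtain ⟨X'', hX'', h3⟩ := gg_restrict q hq φ hφ hR hω hω' hρ hρ' h2.1
    have h4 : X' = X'' := LinearMap.ext fun f => res_injective q φ (by rw [← h1, h3])
    refine ⟨h4 ▸ hX'', LinearMap.ext fun f => res_injective q φ ?_⟩
    rw [Module.End.mul_apply, he', ← h1, ← Module.End.mul_apply, h2.2]
  have hst' : ∀ G ∈ BMo.gg ρ' ω', ∀ X ∈ I', G * X - X * G ∈ I' := by
    rintro G' hG' X' ⟨X, hX, h1⟩
    obtain ⟨G, hG, h2⟩ := gg_lift q hq φ hφ hR hω hω' hρ hρ' hG'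
    refine ⟨G * X - X * G, hst G hG X hX, fun f => ?_⟩
    rw [LinearMap.sub_apply, LinearMap.sub_apply, map_sub, Module.End.mul_apply, Module.End.mul_apply,
      Module.End.mul_apply, Module.End.mul_apply, h1, h2, h2, h1]
  rcases hs I' hI' hst' with h | h
  · left
    rw [eq_bot_iff]
    intro X hX
    have h1 := hI hX
    obtain ⟨X', -, h3⟩ := gg_restrict q hq φ hφ hR hω hω' hρ hρ' h1.1
    have h4 : X' ∈ I' := ⟨X, hX, h3⟩
    rw [h, Submodule.mem_bot] at h4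
    rw [Submodule.mem_bot]
    refine LinearMap.ext fun v => ?_
    obtain ⟨f, hf⟩ := hrg v
    rw [hXe X h1 v, ← hf, h3, h4, LinearMap.zero_apply, map_zero, LinearMap.zero_apply]
  · right
    intro G hG
    obtain ⟨G', hG', h1⟩ := gg_restrict q hq φ hφ hR hω hω' hρ hρ' hG.1
    have h2 : G' ∈ BMo.gE ρ' ω' e' := by
      refine ⟨hG', LinearMap.ext fun f => res_injective q φ ?_⟩
      rw [Module.End.mul_apply, he', ← h1, ← Module.End.mul_apply, hG.2]
    obtain ⟨X, hX, h3⟩ := h h2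
    have h4 : X = G := by
      refine LinearMap.ext fun v => ?_
      obtain ⟨f, hf⟩ := hrg v
      rw [hXe X (hI hX) v, hXe G hG v, ← hf, h3, h1]
    exact h4 ▸ hX

end

end Pool.Agent.BM
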