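import Pool.Agent.Lib.MP_943dad_ag.BM.BigL
import Pool.Agent.Lib.MP_943dad_ag.BM.AlgE

set_option linter.all false

/-!
# The dual pair of a cover which is trivial on a handle

`dual_of`: from free generators `p`, `q` with coordinates and the two twists we get a dual pair `p`, `r`, and the orthogonal
complement of the translates is faithful. `exists_dual_std`, `exists_dual_triv`: covers which are trivial on the last handle,
covers which become trivial on the last handle after an automorphism.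
-/

open Finset

namespace Pool.Agent.Lib.MP_943dad_ag.BMo

variable {H V : Type} [Group H] [Fintype H] [AddCommGroup V] [Module ℂ V]
  {ρ : H →* Module.End ℂ V} {ω : V →ₗ[ℂ] V →ₗ[ℂ] ℂ}

theorem dual_of [FiniteDimensional ℂ V] (hS : Sym ρ ω) {p q : V} {α β : V →ₗ[ℂ] ℂ}
    (αp : α p = 1) (αp' : ∀ h, h ≠ 1 → α (ρ h p) = 0) (αq : ∀ h, α (ρ h q) = 0)
    (βq : β q = 1) (βq' : ∀ h, h ≠ 1 → β (ρ h q) = 0) (βp : ∀ h, β (ρ h p) = 0)
    {N M : Module.End ℂ V} (hN : N ∈ zz ρ ω) (hM : M ∈ zz ρ ω) (hNv : ∀ v, N v = ∑ h, β (ρ h⁻¹ v) • ρ h p)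
    (hMv : ∀ v, M v = ∑ h, α (ρ h⁻¹ v) • ρ h q)
    (hW : ∀ c : H → ℂ, (∀ x, (∀ h, α (ρ h x) = 0) → (∀ h, β (ρ h x) = 0) → ∑ h, c h • ρ h x = 0) → c = 0) :
    ∃ r, Dual ρ ω p r ∧ ∀ c : H → ℂ, (∀ x, x ∈ pe ρ ω p → x ∈ pe ρ ω r → ∑ h, c h • ρ h x = 0) → c = 0 := by
  classical
  -- coordinates of `∑ c h • ρ h p`
  have ca : ∀ (c : H → ℂ) (k : H), α (ρ k⁻¹ (act ρ p c)) = c k := by
    intro c k
    rw [act_apply, map_sum, map_sum, sum_eq_single k]
    · rw [map_smul, map_smul, ← rho_mul, inv_mul_cancel, rho_one, αp, smul_eq_mul, mul_one]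
    · intro h _ hh
      rw [map_smul, map_smul, ← rho_mul, αp', smul_zero]
      intro h2
      exact hh (inv_mul_eq_one.1 h2).symm
    · exact fun h => absurd (mem_univ _) h
  have cb : ∀ (c : H → ℂ) (k : H), β (ρ k⁻¹ (act ρ q c)) = c k := by
    intro c k
    rw [act_apply, map_sum, map_sum, sum_eq_single k]
    · rw [map_smul, map_smul, ← rho_mul, inv_mul_cancel, rho_one, βq, smul_eq_mul, mul_one]
    · intro h _ hh
      rw [map_smul, map_smul, ← rho_mul, βq', smul_zero]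
      intro h2
      exact hh (inv_mul_eq_one.1 h2).symm
    · exact fun h => absurd (mem_univ _) h
  have hNq : N q = p := by
    rw [hNv, sum_eq_single 1]
    · rw [inv_one, rho_one, rho_one, βq, one_smul]
    · intro h _ hh
      rw [βq' _ (by simpa using hh), zero_smul]
    · exact fun h => absurd (mem_univ _) h
  have hMp : M p = q := by
    rw [hMv, sum_eq_single 1]
    · rw [inv_one, rho_one, rho_one, αp, one_smul]
    · intro h _ hh
      rw [αp' _ (by simpa using hh), zero_smul]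
    · exact fun h => absurd (mem_univ _) h
  -- the orthogonal complements in coordinates
  have pe1 : ∀ v, v ∈ pe ρ ω p ↔ ∀ h, β (ρ h v) = 0 := by
    intro v
    constructor
    · intro hv
      have h2 : N v = 0 := by
        refine hS.nd' _ fun u => ?_
        have h3 : ω (N u) v = 0 := sp_pe hS hv (by rw [hNv]; exact act_mem p fun h => β (ρ h⁻¹ u))
        rw [skew_zz hN, neg_eq_zero] at h3
        exact h3
      intro h
      have h4 : N v = act ρ p (fun h => β (ρ h⁻¹ v)) := hNv v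
      have h3 := ca (fun h => β (ρ h⁻¹ v)) h⁻¹
      rw [← h4, h2, map_zero, map_zero] at h3
      simpa using h3.symm
    · intro hv h
      have h2 : N v = 0 := by
        rw [hNv]
        exact sum_eq_zero fun h _ => by rw [hv, zero_smul]
      rw [← hNq, ← comm_zz hN, ← neg_eq_zero, ← skew_zz hN, h2, map_zero, LinearMap.zero_apply]
  have qe1 : ∀ v, v ∈ pe ρ ω q ↔ ∀ h, α (ρ h v) = 0 := by
    intro v
    constructor
    · intro hv
      have h2 : M v = 0 := by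
        refine hS.nd' _ fun u => ?_
        have h3 : ω (M u) v = 0 := sp_pe hS hv (by rw [hMv]; exact act_mem q fun h => α (ρ h⁻¹ u))
        rw [skew_zz hM, neg_eq_zero] at h3
        exact h3
      intro h
      have h4 : M v = act ρ q (fun h => α (ρ h⁻¹ v)) := hMv v
      have h3 := cb (fun h => α (ρ h⁻¹ v)) h⁻¹
      rw [← h4, h2, map_zero, map_zero] at h3
      simpa using h3.symm
    · intro hv h
      have h2 : M v = 0 := by
        rw [hMv]
        exact sum_eq_zero fun h _ => by rw [hv, zero_smul]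
      rw [← hMp, ← comm_zz hM, ← neg_eq_zero, ← skew_zz hM, h2, map_zero, LinearMap.zero_apply]
  have pp : p ∈ pe ρ ω p := (pe1 p).2 βp
  have qq : q ∈ pe ρ ω q := (qe1 q).2 αq
  have spp : ∀ u ∈ sp ρ p, u ∈ pe ρ ω p := fun u hu =>
    (Submodule.span_le (p := pe ρ ω p)).2 (by rintro _ ⟨h, rfl⟩; exact rho_pe hS pp h) hu
  have sqq : ∀ u ∈ sp ρ q, u ∈ pe ρ ω q := fun u hu =>
    (Submodule.span_le (p := pe ρ ω q)).2 (by rintro _ ⟨h, rfl⟩; exact rho_pe hS qq h) hu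
  -- a vector of `Q` orthogonal to `P` is zero
  have qz : ∀ c : H → ℂ, (∀ h, ω (act ρ q c) (ρ h p) = 0) → c = 0 := by
    intro c hc
    have h2 := (pe1 _).1 hc
    funext k
    rw [← cb c k, h2, Pi.zero_apply]
  -- the dual vector
  obtain ⟨d, hd⟩ : ∃ d : H → ℂ, ∀ h, ω p (ρ h (act ρ q d)) = if h = 1 then 1 else 0 := by
    obtain ⟨Ψ, hΨ⟩ : ∃ Ψ : (H → ℂ) →ₗ[ℂ] (H → ℂ), ∀ c h, Ψ c h = ω p (ρ h (act ρ q c)) :=
      ⟨{ toFun := fun c h => ω p (ρ h (act ρ q c))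
         map_add' := fun c c' => by
          funext h
          simp only [map_add, Pi.add_apply]
         map_smul' := fun t c => by
          funext h
          simp only [map_smul, Pi.smul_apply, RingHom.id_apply] }, fun c h => rfl⟩
    have hinj : Function.Injective Ψ := by
      rw [← LinearMap.ker_eq_bot, LinearMap.ker_eq_bot']
      intro c hc
      refine qz c fun h => ?_
      rw [hS.skew, hS.inv', ← hΨ, hc, Pi.zero_apply, neg_zero]
    obtain ⟨d, hd⟩ := (LinearMap.injective_iff_surjective.1 hinj) (fun h => if h = 1 then 1 else 0)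
    exact ⟨d, fun h => by rw [← hΨ, hd]⟩
  obtain ⟨r, hr⟩ : ∃ r, r = act ρ q d := ⟨_, rfl⟩
  rw [← hr] at hd
  have hrq : r ∈ sp ρ q := hr ▸ act_mem q d
  have D : Dual ρ ω p r := by
    refine ⟨pp, fun h => ?_, ?_, fun h hh => ?_⟩
    · exact pe_sp hS (sqq r hrq) (rho_sp hrq h)
    · have := hd 1
      rwa [rho_one, if_pos rfl] at this
    · rw [hd, if_neg hh]
  -- `Q` is spanned by the translates of `r`
  have hqr : q ∈ sp ρ r := by
    obtain ⟨s, hs⟩ : ∃ s, s = act ρ r (fun h => ω (ρ h p) q) := ⟨_, rfl⟩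
    have hs1 : s ∈ sp ρ r := hs ▸ act_mem r _
    have hsq : ∀ u ∈ sp ρ r, u ∈ sp ρ q := fun u hu =>
      (Submodule.span_le (p := sp ρ q)).2 (by rintro _ ⟨h, rfl⟩; exact rho_sp hrq h) hu
    -- `q - s` is in `Q` and orthogonal to `P`
    have h2 : q - s ∈ pe ρ ω p := by
      intro h
      rw [hS.skew, neg_eq_zero, map_sub, sub_eq_zero, hs, act_apply, map_sum, sum_eq_single h]
      · rw [map_smul, hS.inv, D.pq, smul_eq_mul, mul_one]
      · intro k _ hk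
        rw [map_smul, hS.inv' h p (ρ k r), ← rho_mul, D.pq', smul_zero]
        intro h3
        exact hk (inv_mul_eq_one.1 h3).symm
      · exact fun h => absurd (mem_univ _) h
    have h3 : ∃ c, q - s = act ρ q c := by
      have h4 : ∀ u ∈ sp ρ q, ∃ c, u = act ρ q c := by
        intro u hu
        have h5 : sp ρ q ≤ LinearMap.range (act ρ q) := by
          rw [sp, Submodule.span_le]
          rintro _ ⟨h, rfl⟩
          refine ⟨Pi.single h 1, ?_⟩
          rw [act_apply, sum_eq_single h (fun k _ hk => by rw [Pi.single_eq_of_ne hk, zero_smul])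
            (fun h5 => absurd (mem_univ _) h5), Pi.single_eq_same, one_smul]
        obtain ⟨c, hc⟩ := h5 hu
        exact ⟨c, hc.symm⟩
      exact h4 _ (Submodule.sub_mem _ (mem_sp' q) (hsq s hs1))
    obtain ⟨c, hc⟩ := h3
    have h4 : c = 0 := qz c fun h => by rw [← hc]; exact h2 h
    rw [h4, map_zero, sub_eq_zero] at hc
    rw [hc]
    exact hs1
  have re1 : ∀ v, v ∈ pe ρ ω r ↔ v ∈ pe ρ ω q := by
    intro v
    constructor
    · intro hv h
      exact pe_sp hS hv (rho_sp hqr h)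
    · intro hv h
      exact pe_sp hS hv (rho_sp hrq h)
  have hW' : ∀ c : H → ℂ, (∀ x, x ∈ pe ρ ω p → x ∈ pe ρ ω r → ∑ h, c h • ρ h x = 0) → c = 0 := fun c hc =>
    hW c fun x hxa hxb => hc x ((pe1 x).2 hxb) ((re1 x).2 ((qe1 x).2 hxa))
  exact ⟨r, D, hW'⟩

end Pool.Agent.Lib.MP_943dad_ag.BMo

namespace Pool.Agent.BM

open Pool.Agent.HMv Pool.Agent.Lib.MP_943dad_ag

variable {H : Type} [Group H] {g n : ℕ} {φ : F g n →* H}

private theorem SimC_inn_congr {y z : F g n} (h : φ y = φ z) : inn φ y = inn φ z := by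
  refine LinearMap.ext fun f => Subtype.ext (funext fun x => ?_)
  rw [inn_apply, inn_apply]
  by_cases hx : φ x = 1
  · have h1 := coh_conj' f y⁻¹ z⁻¹ x (by rw [map_inv, map_inv, h]) hx
    rwa [inv_inv, inv_inv] at h1
  · have h1 : ∀ w : F g n, φ (w⁻¹ * x * w) ≠ 1 := by
      intro w hw
      apply hx
      rw [map_mul, map_mul, map_inv] at hw
      have h2 : φ x = φ w * ((φ w)⁻¹ * φ x * φ w) * (φ w)⁻¹ := by group
      rw [h2, hw]
      group
    rw [f.2.1 _ (h1 y), f.2.1 _ (h1 z)]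

private theorem SimC_mon_inn (α : Stab φ) (y : F g n) : mon φ α * inn φ y = inn φ y * mon φ α := by
  refine LinearMap.ext fun f => Subtype.ext (funext fun x => ?_)
  rw [Module.End.mul_apply, Module.End.mul_apply, mon_apply, inn_apply, inn_apply, mon_apply]
  have h1 := (α⁻¹ : Stab φ).2.2.2
  have h2 : inn φ y f = inn φ ((α⁻¹ : Stab φ).1 y) f := by rw [SimC_inn_congr (h1 y).symm]
  have h3 := congrArg (fun f : Coh φ => f.1 ((α⁻¹ : Stab φ).1 x)) h2
  simp only [inn_apply] at h3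
  rw [h3, map_mul, map_mul, map_inv]

variable [Fintype H]

/-- The dual pair, with the twists and the faithfulness as hypotheses. -/
theorem exists_dual_of (hφ : Function.Surjective φ) (hR : φ (R g n) = 1) {i : Fin g} (ha : φ (a n i) = 1)
    (hb : φ (b n i) = 1)
    (htwa : ∃ N : Module.End ℂ (Coh φ), ∃ ε : ℂ, ε ≠ 0 ∧ N * N * N = 0 ∧
      (∃ α : Stab φ, mon φ α = 1 + N + (1 / 2 : ℂ) • (N * N)) ∧
      ∀ f, (∀ x, (N f).1 (x * a n i * x⁻¹) = ε * f.1 (x * b n i * x⁻¹)) ∧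
        (∀ x, (N f).1 (x * b n i * x⁻¹) = 0) ∧ ∀ x ∈ Xs n i, φ x = 1 → (N f).1 x = 0)
    (htwb : ∃ N : Module.End ℂ (Coh φ), ∃ ε : ℂ, ε ≠ 0 ∧ N * N * N = 0 ∧
      (∃ α : Stab φ, mon φ α = 1 + N + (1 / 2 : ℂ) • (N * N)) ∧
      ∀ f, (∀ x, (N f).1 (x * b n i * x⁻¹) = ε * f.1 (x * a n i * x⁻¹)) ∧
        (∀ x, (N f).1 (x * a n i * x⁻¹) = 0) ∧ ∀ x ∈ Xs n i, φ x = 1 → (N f).1 x = 0)
    (hfth : ∀ (s : H → F g n), (∀ h, φ (s h) = h) → ∀ c : H → ℂ, (∀ f : Coh φ,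
      (∀ x, f.1 (x * a n i * x⁻¹) = 0) → (∀ x, f.1 (x * b n i * x⁻¹) = 0) →
        ∑ h, c h • inn φ (s h) f = 0) → c = 0)
    {ω : LinearMap.BilinForm ℂ (Coh φ)} (halt : ∀ f, ω f f = 0) (hnd : ∀ f, (∀ f', ω f f' = 0) → f = 0)
    (hinn : ∀ y f f', ω (inn φ y f) (inn φ y f') = ω f f')
    (hmon : ∀ α f f', ω (mon φ α f) (mon φ α f') = ω f f')
    {ρ : H →* Module.End ℂ (Coh φ)} (hρ : ∀ y, ρ (φ y) = inn φ y) :
    ∃ p r : Coh φ, BMo.Dual ρ ω p r ∧ ∀ c : H → ℂ, (∀ x, x ∈ BMo.pe ρ ω p → x ∈ BMo.pe ρ ω r →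
      ∑ h, c h • ρ h x = 0) → c = 0 := by
  classical
  haveI : FiniteDimensional ℂ (Coh φ) := finite_coh φ
  obtain ⟨s, hs⟩ := hφ.hasRightInverse
  have hρs : ∀ h, ρ h = inn φ (s h) := fun h => by rw [← hρ, hs]
  have hS : BMo.Sym ρ ω := ⟨halt, hnd, fun h u v => by rw [hρs]; exact hinn _ _ _⟩
  have hz : ∀ X, IsZ φ ω X → X ∈ BMo.zz ρ ω := fun X hX =>
    ⟨fun h => by rw [hρs]; exact hX.1 _, hX.2⟩
  -- the logarithms are in `zz`
  have hlog : ∀ N : Module.End ℂ (Coh φ), N * N * N = 0 →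
      (∃ α : Stab φ, mon φ α = 1 + N + (1 / 2 : ℂ) • (N * N)) → N ∈ BMo.zz ρ ω := by
    rintro N hN ⟨α, hα⟩
    obtain ⟨u, hu⟩ : ∃ u, u = mon φ α := ⟨_, rfl⟩
    have h4 : N * N * (N * N) = 0 := by rw [← mul_assoc, hN, zero_mul]
    have hN' : N * (N * N) = 0 := by rw [← mul_assoc, hN]
    have e1 : u - 1 = N + (1 / 2 : ℂ) • (N * N) := by rw [hu, hα]; abel
    have e2 : (u - 1) * (u - 1) = N * N := by
      rw [e1]
      simp only [add_mul, mul_add, smul_mul_assoc, mul_smul_comm, hN, hN', h4, smul_zero, add_zero]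
    have h1 := BMo.log_zz hS u (fun h => by rw [hρs, hu]; exact SimC_mon_inn α _)
      (fun x y => by rw [hu]; exact hmon α x y) (by rw [e2, e1, mul_add, mul_smul_comm, hN, h4, smul_zero, add_zero])
    have e3 : (u - 1) - (1 / 2 : ℂ) • ((u - 1) * (u - 1)) = N := by
      rw [e2, e1]
      abel
    rwa [e3] at h1
  -- values of the translates
  have val : ∀ (h : H) (f : Coh φ) (x y : F g n), φ y = h → φ x = 1 → (ρ h f).1 x = f.1 (y⁻¹ * x * y) := by
    intro h f x y hy hx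
    rw [← hy, hρ, inn_apply]
  obtain ⟨p, hpa, hpb, hpX⟩ := exists_dual hR ha hb (Pi.single 1 1) 0
  obtain ⟨q, hqa, hqb, hqX⟩ := exists_dual hR ha hb 0 (Pi.single 1 1)
  obtain ⟨α, hα⟩ : ∃ α : Coh φ →ₗ[ℂ] ℂ, ∀ f, α f = f.1 (a n i) :=
    ⟨{ toFun := fun f => f.1 (a n i), map_add' := fun f f' => rfl, map_smul' := fun t f => rfl }, fun f => rfl⟩
  obtain ⟨β, hβ⟩ : ∃ β : Coh φ →ₗ[ℂ] ℂ, ∀ f, β f = f.1 (b n i) :=
    ⟨{ toFun := fun f => f.1 (b n i), map_add' := fun f f' => rfl, map_smul' := fun t f => rfl }, fun f => rfl⟩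
  have αρ : ∀ x f, α (ρ (φ x)⁻¹ f) = f.1 (x * a n i * x⁻¹) := by
    intro x f
    rw [hα, ← map_inv, hρ, inn_apply, inv_inv]
  have βρ : ∀ x f, β (ρ (φ x)⁻¹ f) = f.1 (x * b n i * x⁻¹) := by
    intro x f
    rw [hβ, ← map_inv, hρ, inn_apply, inv_inv]
  have αρ' : ∀ h f, α (ρ h f) = f.1 ((s h)⁻¹ * a n i * s h) := by
    intro h f
    have := αρ (s h)⁻¹ f
    rwa [map_inv φ, inv_inv, hs, inv_inv] at this
  have βρ' : ∀ h f, β (ρ h f) = f.1 ((s h)⁻¹ * b n i * s h) := by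
    intro h f
    have := βρ (s h)⁻¹ f
    rwa [map_inv φ, inv_inv, hs, inv_inv] at this
  have Wa : ∀ f, (∀ h, α (ρ h f) = 0) → ∀ x, f.1 (x * a n i * x⁻¹) = 0 := fun f hf x => by rw [← αρ, hf]
  have Wb : ∀ f, (∀ h, β (ρ h f) = 0) → ∀ x, f.1 (x * b n i * x⁻¹) = 0 := fun f hf x => by rw [← βρ, hf]
  -- a class is determined by its values
  have ext : ∀ f f' : Coh φ, (∀ x ∈ Xs n i, φ x = 1 → f.1 x = f'.1 x) →
      (∀ x, f.1 (x * a n i * x⁻¹) = f'.1 (x * a n i * x⁻¹)) →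
      (∀ x, f.1 (x * b n i * x⁻¹) = f'.1 (x * b n i * x⁻¹)) → f = f' := by
    intro f f' h0 h1 h2
    rw [← sub_eq_zero]
    refine coh_eq_zero ha hb _ (fun x hx hx' => ?_) (fun x => ?_) (fun x => ?_)
    · change f.1 x - f'.1 x = 0
      rw [h0 x hx hx', sub_self]
    · change f.1 _ - f'.1 _ = 0
      rw [h1, sub_self]
    · change f.1 _ - f'.1 _ = 0
      rw [h2, sub_self]
  -- values of combinations of translates
  have cval : ∀ (c : H → ℂ) (r : Coh φ) (x : F g n), φ x = 1 →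
      (∑ h, c h • ρ h r).1 x = ∑ h, c h * r.1 ((s h)⁻¹ * x * s h) := by
    intro c r x hx
    have h1 : (∑ h, c h • ρ h r).1 x = ∑ h, (c h • ρ h r).1 x := by
      rw [Submodule.coe_sum, Finset.sum_apply]
    rw [h1]
    refine sum_congr rfl fun h _ => ?_
    change c h * (ρ h r).1 x = _
    rw [val h r x (s h) (hs h) hx]
  -- a sum of translates of `p`
  have psum : ∀ (c : H → ℂ) (f : Coh φ), (∀ x ∈ Xs n i, φ x = 1 → f.1 x = 0) →
      (∀ x, f.1 (x * b n i * x⁻¹) = 0) → (∀ x, f.1 (x * a n i * x⁻¹) = c (φ x)) → f = ∑ h, c h • ρ h p := by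
    intro c f h0 h1 h2
    refine ext _ _ (fun x hx hx' => ?_) (fun x => ?_) (fun x => ?_)
    · rw [h0 x hx hx', cval c p x hx']
      symm
      refine sum_eq_zero fun h _ => ?_
      have h3 := hpX (s h)⁻¹ x hx hx'
      rw [inv_inv] at h3
      rw [h3, mul_zero]
    · rw [h2, cval c p _ (by rw [map_mul, map_mul, ha, map_inv, mul_one, mul_inv_cancel]), sum_eq_single (φ x)]
      · have h3 := hpa ((s (φ x))⁻¹ * x)
        have h4 : (s (φ x))⁻¹ * (x * a n i * x⁻¹) * s (φ x) = (s (φ x))⁻¹ * x * a n i * ((s (φ x))⁻¹ * x)⁻¹ := by group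
        rw [h4, h3, map_mul, map_inv, hs, inv_mul_cancel, inv_one, Pi.single_eq_same, mul_one]
      · intro h _ hh
        have h3 := hpa ((s h)⁻¹ * x)
        have h4 : (s h)⁻¹ * (x * a n i * x⁻¹) * s h = (s h)⁻¹ * x * a n i * ((s h)⁻¹ * x)⁻¹ := by group
        rw [h4, h3, map_mul, map_inv, hs, Pi.single_eq_of_ne, mul_zero]
        intro h5
        exact hh (inv_mul_eq_one.1 (inv_eq_one.1 h5))
      · exact fun h => absurd (mem_univ _) h
    · rw [h1, cval c p _ (by rw [map_mul, map_mul, hb, map_inv, mul_one, mul_inv_cancel])]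
      symm
      refine sum_eq_zero fun h _ => ?_
      have h3 := hpb ((s h)⁻¹ * x)
      have h4 : (s h)⁻¹ * (x * b n i * x⁻¹) * s h = (s h)⁻¹ * x * b n i * ((s h)⁻¹ * x)⁻¹ := by group
      rw [h4, h3]
      simp
  have qsum : ∀ (c : H → ℂ) (f : Coh φ), (∀ x ∈ Xs n i, φ x = 1 → f.1 x = 0) →
      (∀ x, f.1 (x * a n i * x⁻¹) = 0) → (∀ x, f.1 (x * b n i * x⁻¹) = c (φ x)) → f = ∑ h, c h • ρ h q := by
    intro c f h0 h1 h2
    refine ext _ _ (fun x hx hx' => ?_) (fun x => ?_) (fun x => ?_)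
    · rw [h0 x hx hx', cval c q x hx']
      symm
      refine sum_eq_zero fun h _ => ?_
      have h3 := hqX (s h)⁻¹ x hx hx'
      rw [inv_inv] at h3
      rw [h3, mul_zero]
    · rw [h1, cval c q _ (by rw [map_mul, map_mul, ha, map_inv, mul_one, mul_inv_cancel])]
      symm
      refine sum_eq_zero fun h _ => ?_
      have h3 := hqa ((s h)⁻¹ * x)
      have h4 : (s h)⁻¹ * (x * a n i * x⁻¹) * s h = (s h)⁻¹ * x * a n i * ((s h)⁻¹ * x)⁻¹ := by group
      rw [h4, h3]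
      simp
    · rw [h2, cval c q _ (by rw [map_mul, map_mul, hb, map_inv, mul_one, mul_inv_cancel]), sum_eq_single (φ x)]
      · have h3 := hqb ((s (φ x))⁻¹ * x)
        have h4 : (s (φ x))⁻¹ * (x * b n i * x⁻¹) * s (φ x) = (s (φ x))⁻¹ * x * b n i * ((s (φ x))⁻¹ * x)⁻¹ := by group
        rw [h4, h3, map_mul, map_inv, hs, inv_mul_cancel, inv_one, Pi.single_eq_same, mul_one]
      · intro h _ hh
        have h3 := hqb ((s h)⁻¹ * x)
        have h4 : (s h)⁻¹ * (x * b n i * x⁻¹) * s h = (s h)⁻¹ * x * b n i * ((s h)⁻¹ * x)⁻¹ := by group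
        rw [h4, h3, map_mul, map_inv, hs, Pi.single_eq_of_ne, mul_zero]
        intro h5
        exact hh (inv_mul_eq_one.1 (inv_eq_one.1 h5))
      · exact fun h => absurd (mem_univ _) h
  -- the twists
  obtain ⟨N0, ε, hε, hN03, hN0m, hN0⟩ := htwa
  obtain ⟨M0, δ, hδ, hM03, hM0m, hM0⟩ := htwb
  have hN0z := hlog N0 hN03 hN0m
  have hM0z := hlog M0 hM03 hM0m
  have coef : ∀ (f : Coh φ) (x : F g n), β (ρ (φ x)⁻¹ f) = f.1 (x * b n i * x⁻¹) := fun f x => βρ x f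
  refine ⟨p, BMo.dual_of hS (p := p) (q := q) (α := α) (β := β) ?_ ?_ ?_ ?_ ?_ ?_
    (N := ε⁻¹ • N0) (M := δ⁻¹ • M0) (Submodule.smul_mem _ _ hN0z) (Submodule.smul_mem _ _ hM0z) ?_ ?_ ?_⟩
  · have h1 := hpa 1
    rwa [one_mul, inv_one, mul_one, map_one, inv_one, Pi.single_eq_same, ← hα] at h1
  · intro h hh
    have h1 := αρ (s h)⁻¹ p
    rw [map_inv φ, inv_inv, hs] at h1
    rw [h1, hpa, map_inv φ, inv_inv, hs, Pi.single_eq_of_ne hh]
  · intro h
    have h1 := αρ (s h)⁻¹ q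
    rw [map_inv φ, inv_inv, hs] at h1
    rw [h1, hqa, Pi.zero_apply]
  · have h1 := hqb 1
    rwa [one_mul, inv_one, mul_one, map_one, inv_one, Pi.single_eq_same, ← hβ] at h1
  · intro h hh
    have h1 := βρ (s h)⁻¹ q
    rw [map_inv φ, inv_inv, hs] at h1
    rw [h1, hqb, map_inv φ, inv_inv, hs, Pi.single_eq_of_ne hh]
  · intro h
    have h1 := βρ (s h)⁻¹ p
    rw [map_inv φ, inv_inv, hs] at h1
    rw [h1, hpb, Pi.zero_apply]
  · intro f
    refine psum (fun h => β (ρ h⁻¹ f)) _ (fun x hx hx' => ?_) (fun x => ?_) (fun x => ?_)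
    · change ε⁻¹ * (N0 f).1 x = 0
      rw [(hN0 f).2.2 x hx hx', mul_zero]
    · change ε⁻¹ * (N0 f).1 _ = 0
      rw [(hN0 f).2.1, mul_zero]
    · change ε⁻¹ * (N0 f).1 _ = _
      rw [(hN0 f).1, coef, inv_mul_cancel_left₀ hε]
  · intro f
    refine qsum (fun h => α (ρ h⁻¹ f)) _ (fun x hx hx' => ?_) (fun x => ?_) (fun x => ?_)
    · change δ⁻¹ * (M0 f).1 x = 0
      rw [(hM0 f).2.2 x hx hx', mul_zero]
    · change δ⁻¹ * (M0 f).1 _ = 0
      rw [(hM0 f).2.1, mul_zero]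
    · change δ⁻¹ * (M0 f).1 _ = _
      rw [(hM0 f).1, αρ, inv_mul_cancel_left₀ hδ]
  · intro c hc
    refine hfth s hs c fun f hfa hfb => ?_
    have h1 := hc f (fun h => by
      rw [αρ']
      have := hfa (s h)⁻¹
      rwa [inv_inv] at this) (fun h => by
      rw [βρ']
      have := hfb (s h)⁻¹
      rwa [inv_inv] at this)
    rw [← h1]
    exact sum_congr rfl fun h _ => by rw [hρs]

/-- **The dual pair of a cover which is trivial on the last handle.** -/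
theorem exists_dual_std {φ : F (g + 1) n →* H} (hφ : Function.Surjective φ) (hR : φ (R (g + 1) n) = 1) (hg : 3 ≤ g + 1)
    (ha : φ (a n (Fin.last g)) = 1) (hb : φ (b n (Fin.last g)) = 1)
    {ω : LinearMap.BilinForm ℂ (Coh φ)} (hω : Tp.Good φ ω) {ρ : H →* Module.End ℂ (Coh φ)}
    (hρ : ∀ y, ρ (φ y) = inn φ y) :
    ∃ p r : Coh φ, BMo.Dual ρ ω p r ∧ ∀ c : H → ℂ, (∀ x, x ∈ BMo.pe ρ ω p → x ∈ BMo.pe ρ ω r →
      ∑ h, c h • ρ h x = 0) → c = 0 := by
  refine exists_dual_of hφ hR ha hb ?_ ?_ (fun s hs c hc => faithful hφ hR hg ha hb s hs c hc)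
    hω.alt hω.nd hω.inn hω.mon hρ
  · obtain ⟨N, ⟨σ, hσ⟩, h2, -, h4⟩ := Unip.twist_a (φ := φ) ha hb
    refine ⟨N, 1, one_ne_zero, by rw [h2, zero_mul], ⟨σ, by rw [hσ, h2, smul_zero, add_zero]⟩, fun f => ?_⟩
    obtain ⟨k1, k2, k3⟩ := h4 f
    exact ⟨fun x => by rw [one_mul]; exact k3 x, fun x => k2 x, k1⟩
  · obtain ⟨N, ⟨σ, hσ⟩, h2, -, h4⟩ := Unip.twist_b (φ := φ) ha hb
    refine ⟨N, 1, one_ne_zero, by rw [h2, zero_mul], ⟨σ, by rw [hσ, h2, smul_zero, add_zero]⟩, fun f => ?_⟩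
    obtain ⟨k1, k2, k3⟩ := h4 f
    exact ⟨fun x => by rw [one_mul]; exact k3 x, fun x => k2 x, k1⟩

/-- **The dual pair of a cover which becomes trivial on the last handle.** -/
theorem exists_dual_triv {φ : F (g + 1) n →* H} (hφ : Function.Surjective φ) (hR : φ (R (g + 1) n) = 1) (hg : 3 ≤ g + 1)
    (ht : Triv φ) {ω : LinearMap.BilinForm ℂ (Coh φ)} (hω : Tp.Good φ ω) {ρ : H →* Module.End ℂ (Coh φ)}
    (hρ : ∀ y, ρ (φ y) = inn φ y) :
    ∃ p r : Coh φ, BMo.Dual ρ ω p r ∧ ∀ c : H → ℂ, (∀ x, x ∈ BMo.pe ρ ω p → x ∈ BMo.pe ρ ω r →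
      ∑ h, c h • ρ h x = 0) → c = 0 := by
  obtain ⟨ψ, t, T, hψ, hRψ, ha, hb⟩ := ht.tr hφ hR
  obtain ⟨ρ', hρ'⟩ : ∃ ρ' : H →* Module.End ℂ (Coh ψ), ∀ h, ρ' h = Tp.alg T (ρ h) :=
    ⟨((Tp.alg T : Module.End ℂ (Coh φ) →* Module.End ℂ (Coh ψ)).comp ρ), fun h => rfl⟩
  have hρψ : ∀ y, ρ' (ψ y) = inn ψ y := fun y => by
    rw [hρ', T.eq, hρ, Tp.alg_inn]
  obtain ⟨p, r, D, hW⟩ := exists_dual_std hψ hRψ hg ha hb (Tp.good_comp T hω) hρψ
  have hω' : ∀ x y, (ω.compl₁₂ (Tp.eqv T).symm.toLinearMap (Tp.eqv T).symm.toLinearMap) x y =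
      ω ((Tp.eqv T).symm x) ((Tp.eqv T).symm y) := fun x y => rfl
  have hv : ∀ h x, (Tp.eqv T).symm (ρ' h x) = ρ h ((Tp.eqv T).symm x) := by
    intro h x
    obtain ⟨x, rfl⟩ := (Tp.eqv T).surjective x
    rw [hρ', Tp.alg_apply, LinearEquiv.symm_apply_apply, LinearEquiv.symm_apply_apply]
  refine ⟨(Tp.eqv T).symm p, (Tp.eqv T).symm r, ⟨fun h => ?_, fun h => ?_, ?_, fun h hh => ?_⟩, fun c hc => ?_⟩
  · rw [← hv, ← hω']
    exact D.pp h
  · rw [← hv, ← hω']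
    exact D.qq h
  · rw [← hω']
    exact D.pq
  · rw [← hv, ← hω']
    exact D.pq' h hh
  · refine hW c fun x hx hx' => ?_
    have h1 := hc ((Tp.eqv T).symm x) (fun h => by rw [← hv, ← hω']; exact hx h)
      (fun h => by rw [← hv, ← hω']; exact hx' h)
    apply (Tp.eqv T).symm.injective
    rw [map_sum, map_zero, ← h1]
    exact sum_congr rfl fun h _ => by rw [map_smul, hv]

end Pool.Agent.BM
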