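import Pool.Agent.Lib.MP_943dad_ag.BM.Irr

set_option linter.all false

/-!
# The symmetric class functions of a quotient act by scalars on a block
-/

open Finset

namespace Pool.Agent.BM

variable {H H' V V' : Type} [Group H] [Group H'] [Fintype H] [Fintype H'] [AddCommGroup V] [Module ℂ V]
  [AddCommGroup V'] [Module ℂ V'] {ρ : H →* Module.End ℂ V} {ρ' : H' →* Module.End ℂ V'}

/-- A sum over `H` of a function on the quotient. -/
theorem sum_quot {A : Type} [AddCommGroup A] [Module ℂ A] (q : H →* H') (hq : Function.Surjective q) (f : H' → A) :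
    ∑ x : H, f (q x) = (Nat.card q.ker : ℂ) • ∑ y : H', f y := by
  classical
  haveI : Fintype q.ker := Fintype.ofFinite _
  obtain ⟨s, hs⟩ := hq.hasRightInverse
  have hmem : ∀ x, (s (q x))⁻¹ * x ∈ q.ker := fun x => by
    rw [MonoidHom.mem_ker, map_mul, map_inv, hs, inv_mul_cancel]
  have hq2 : ∀ p : H' × q.ker, q (s p.1 * p.2.1) = p.1 := fun p => by
    rw [map_mul, hs, MonoidHom.mem_ker.1 p.2.2, mul_one]
  obtain ⟨E, hE⟩ : ∃ E : H ≃ H' × q.ker, ∀ x, (E x).1 = q x :=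
    ⟨{ toFun := fun x => (q x, ⟨(s (q x))⁻¹ * x, hmem x⟩)
       invFun := fun p => s p.1 * p.2.1
       left_inv := fun x => mul_inv_cancel_left _ _
       right_inv := fun p => by
         refine Prod.ext (hq2 p) (Subtype.ext ?_)
         change (s (q (s p.1 * p.2.1)))⁻¹ * (s p.1 * p.2.1) = p.2.1
         rw [hq2, inv_mul_cancel_left] }, fun x => rfl⟩
  have h1 : ∑ x : H, f (q x) = ∑ p : H' × q.ker, f p.1 :=
    Fintype.sum_equiv E _ _ fun x => by rw [hE]
  rw [h1, Fintype.sum_prod_type, smul_sum]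
  refine sum_congr rfl fun y _ => ?_
  change ∑ _k : q.ker, f y = _
  rw [sum_const, card_univ, Nat.card_eq_fintype_card, Nat.cast_smul_eq_nsmul]

/-- The class operators and the embedding of the invariants. -/
theorem tcl_res (q : H →* H') (hq : Function.Surjective q) (res : V' →ₗ[ℂ] V)
    (hi : ∀ h v, res (ρ' (q h) v) = ρ h (res v)) (h : H) (v : V') :
    Tcl ρ h (res v) = (Nat.card q.ker : ℂ) • res (Tcl ρ' (q h) v) := by
  rw [Tcl, Tcl, LinearMap.sum_apply, LinearMap.sum_apply, map_sum]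
  rw [← sum_quot q hq fun y => res ((ρ' (y * q h * y⁻¹) + ρ' (y * (q h)⁻¹ * y⁻¹)) v)]
  refine sum_congr rfl fun x _ => ?_
  rw [LinearMap.add_apply, LinearMap.add_apply, map_add, ← hi, ← hi]
  simp only [map_mul, map_inv]

theorem card_ker_ne (q : H →* H') : (Nat.card q.ker : ℂ) ≠ 0 := by
  have : 0 < Nat.card q.ker := Nat.card_pos
  exact_mod_cast this.ne'

/-- If the symmetric class operators of `H` act by scalars on the block `e`, then so do those of the quotient on the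
restriction of `e`. -/
theorem tcl_quot (q : H →* H') (hq : Function.Surjective q) (res : V' →ₗ[ℂ] V) (hinj : Function.Injective res)
    (hi : ∀ h v, res (ρ' (q h) v) = ρ h (res v)) {e : Module.End ℂ V} {e' : Module.End ℂ V'}
    (he : ∀ v, res (e' v) = e (res v)) (hsc : ∀ h, ∃ t : ℂ, Tcl ρ h * e = t • e) (h' : H') :
    ∃ t : ℂ, Tcl ρ' h' * e' = t • e' := by
  obtain ⟨h, rfl⟩ := hq h'
  obtain ⟨t, ht⟩ := hsc h
  refine ⟨(Nat.card q.ker : ℂ)⁻¹ * t, LinearMap.ext fun v => hinj ?_⟩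
  have h1 := tcl_res (ρ := ρ) (ρ' := ρ') q hq res hi h (e' v)
  rw [he, ← Module.End.mul_apply, ht, LinearMap.smul_apply] at h1
  rw [Module.End.mul_apply, LinearMap.smul_apply, map_smul, he, mul_smul, h1, smul_smul,
    inv_mul_cancel₀ (card_ker_ne q), one_smul]

/-- From the class operators to all symmetric class functions. -/
theorem scal_of_tcl {e : Module.End ℂ V} (hsc : ∀ h, ∃ t : ℂ, Tcl ρ h * e = t • e) (ζ : H → ℂ)
    (h1 : ∀ x u, ζ (u * x * u⁻¹) = ζ x) (h2 : ∀ x, ζ x⁻¹ = ζ x) :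
    ∃ t : ℂ, (∑ h, ζ h • ρ h) * e = t • e := by
  choose t ht using hsc
  have hcard : (2 * (Fintype.card H : ℂ)) ≠ 0 := by
    have : (Fintype.card H : ℂ) ≠ 0 := by exact_mod_cast Fintype.card_ne_zero
    exact mul_ne_zero two_ne_zero this
  have h3 : ∑ h, ζ h • Tcl ρ h = (2 * (Fintype.card H : ℂ)) • ∑ h, ζ h • ρ h := by
    have h4 : ∀ h, ζ h • Tcl ρ h = ∑ y : H, (ζ (y * h * y⁻¹) • ρ (y * h * y⁻¹) +
        ζ (y * h⁻¹ * y⁻¹) • ρ (y * h⁻¹ * y⁻¹)) := by
      intro h
      rw [Tcl, smul_sum]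
      exact sum_congr rfl fun y _ => by rw [h1, h1, h2, smul_add]
    rw [sum_congr rfl fun h _ => h4 h, sum_comm]
    have h5 : ∀ y : H, ∑ h, (ζ (y * h * y⁻¹) • ρ (y * h * y⁻¹) + ζ (y * h⁻¹ * y⁻¹) • ρ (y * h⁻¹ * y⁻¹)) =
        (2 : ℂ) • ∑ h, ζ h • ρ h := by
      intro y
      rw [sum_add_distrib, two_smul]
      congr 1
      · exact Fintype.sum_equiv (MulAut.conj y).toEquiv _ _ fun h => rfl
      · exact Fintype.sum_equiv ((Equiv.inv H).trans (MulAut.conj y).toEquiv) _ _ fun h => rfl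
    rw [sum_congr rfl fun y _ => h5 y, sum_const, card_univ, ← Nat.cast_smul_eq_nsmul ℂ, smul_smul, mul_comm]
  refine ⟨(2 * (Fintype.card H : ℂ))⁻¹ * ∑ h, ζ h * t h, ?_⟩
  have h6 : (2 * (Fintype.card H : ℂ)) • ((∑ h, ζ h • ρ h) * e) = (∑ h, ζ h * t h) • e := by
    rw [← smul_mul_assoc, ← h3, sum_mul, sum_smul]
    exact sum_congr rfl fun h _ => by rw [smul_mul_assoc, ht, smul_smul]
  rw [mul_smul, ← h6, smul_smul, inv_mul_cancel₀ hcard, one_smul]

end Pool.Agent.BM
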