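import Pool.Agent.Lib.MP_943dad_ag.BM.Gou
import Pool.Agent.Lib.MP_943dad_ag.BM.AlgC

set_option linter.all false

/-!
# The blocks are simple

`p`, `q` is a dual pair, the complement `W` of `P + Q` is faithful, and the symmetric central elements of the group
algebra act on the block `e` by scalars. Then a nonzero subspace `I` of the commutators on the block `e` which is stable
under commutators contains all commutators on the block.

`[X, S x y] = S (X x) y + S x (X y)`. `X ∈ I`: `S p (X p) ∈ I`, and so `S p (r p) ∈ I`, `r h = 2 ω (X p) (h p)`. If `r ≠ 0`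
for some `X`, then `k⁻¹ r + r k`, `k⁻¹ r k` are also in the set of the `c` with `S p (c p) ∈ I`; so we find a central
symmetric `ζ` in it with `ζ 1 ≠ 0`, and `e p = t⁻¹ ζ p`. Then `{X | e X ∈ I}` satisfies the hypotheses of `Dual.main`.
If `r = 0` for all `X ∈ I`, and the same for `q`, then every `X ∈ I` is the action of a central element of the group algebra,
so it is in the centre, and `X = 0` because the trace form is nondegenerate on the commutators of the block.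
-/

open Finset

namespace Pool.Agent.Lib.MP_943dad_ag.BMo

variable {H V : Type} [Group H] [Fintype H] [AddCommGroup V] [Module ℂ V]
  {ρ : H →* Module.End ℂ V} {ω : V →ₗ[ℂ] V →ₗ[ℂ] ℂ} {p q : V}

/-- `e S x y = S x (e y)`. -/
theorem Bl.S (hS : Sym ρ ω) {e : Module.End ℂ V} (he : Bl ρ ω e) (x y : V) :
    e * BMo.S ρ ω x y = BMo.S ρ ω x (e y) := by
  obtain ⟨F, hF⟩ : ∃ F : Module.End ℂ V, ∀ v, F v = ∑ h : H, ω v (ρ h y) • ρ h x :=
    ⟨∑ h : H, (ω.flip (ρ h y)).smulRight (ρ h x), fun v => by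
      rw [LinearMap.sum_apply]
      rfl⟩
  have h1 : ∀ g, F * ρ g = ρ g * F := by
    intro g
    refine LinearMap.ext fun v => ?_
    rw [Module.End.mul_apply, Module.End.mul_apply, hF, hF, map_sum]
    refine Fintype.sum_equiv (Equiv.mulLeft g⁻¹) _ _ fun h => ?_
    rw [Equiv.coe_mulLeft, map_smul, ← rho_mul, mul_inv_cancel_left, hS.inv', ← rho_mul]
  have h2 := he.com F h1
  have her : ∀ h v, e (ρ h v) = ρ h (e v) := fun h v => LinearMap.congr_fun (he.rho h) v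
  refine LinearMap.ext fun v => ?_
  have h3 := LinearMap.congr_fun h2 v
  rw [Module.End.mul_apply, Module.End.mul_apply, hF, hF, map_sum] at h3
  rw [Module.End.mul_apply, S_apply, S_apply, map_sum, sum_congr rfl fun h _ => map_add e _ _, sum_add_distrib,
    sum_add_distrib]
  congr 1
  · refine sum_congr rfl fun h _ => ?_
    rw [map_smul, her]
  · rw [← h3]
    refine sum_congr rfl fun h _ => ?_
    rw [he.adj, her]

theorem Bl.S' (hS : Sym ρ ω) {e : Module.End ℂ V} (he : Bl ρ ω e) (x y : V) :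
    e * BMo.S ρ ω x y = BMo.S ρ ω (e x) y := by
  rw [S_symm x y, he.S hS, S_symm]

theorem act_rho (x : V) (c : H → ℂ) (A : Module.End ℂ V) (hA : ∀ h, A * ρ h = ρ h * A) :
    A (act ρ x c) = act ρ (A x) c := by
  rw [act_apply, act_apply, map_sum]
  refine sum_congr rfl fun h _ => ?_
  rw [map_smul]
  congr 1
  exact LinearMap.congr_fun (hA h) x

section

variable {I : Submodule ℂ (Module.End ℂ V)} {e : Module.End ℂ V}

/-- A subspace of the commutators which is stable under commutators is stable under `zz`. -/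
theorem stab_zz [FiniteDimensional ℂ V] (hS : Sym ρ ω) (hI : I ≤ gE ρ ω e)
    (hI' : ∀ G ∈ gg ρ ω, ∀ X ∈ I, G * X - X * G ∈ I) {A X : Module.End ℂ V} (hA : A ∈ zz ρ ω) (hX : X ∈ I) :
    A * X - X * A ∈ I := by
  obtain ⟨G, hG, Z, hZ, hZ', rfl⟩ := zz_le hS hA
  have h1 := hI' G hG X hX
  have h2 := hZ' X (gg_zz hS (hI hX).1)
  rwa [add_mul, mul_add, h2, add_sub_add_right_eq_sub]

/-- Functionals: `ω (act p c) (h q)`. -/
theorem sp_act {x : V} (hx : x ∈ sp ρ p) : ∃ c, x = act ρ p c := by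
  classical
  have h5 : sp ρ p ≤ LinearMap.range (act ρ p) := by
    rw [sp, Submodule.span_le]
    rintro _ ⟨h, rfl⟩
    refine ⟨Pi.single h 1, ?_⟩
    rw [act_apply, sum_eq_single h (fun k _ hk => by rw [Pi.single_eq_of_ne hk, zero_smul])
      (fun h5 => absurd (mem_univ _) h5), Pi.single_eq_same, one_smul]
  obtain ⟨c, hc⟩ := h5 hx
  exact ⟨c, hc.symm⟩

/-- `S q x p = x` for `x` orthogonal to `P`. -/
theorem Dual.S_q_p (hS : Sym ρ ω) (D : Dual ρ ω p q) {x : V} (hx : x ∈ pe ρ ω p) : S ρ ω q x p = x := by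
  rw [S_apply, sum_add_distrib, D.sum_pq (fun h => ρ h x), rho_one]
  rw [sum_eq_zero (fun h _ => by rw [zero_pe hS hx (mem_sp' p), zero_smul]), add_zero]

/-- `S q (k q) p = k q + k⁻¹ q`. -/
theorem Dual.S_qkq_p (hS : Sym ρ ω) (D : Dual ρ ω p q) (k : H) : S ρ ω q (ρ k q) p = ρ k q + ρ k⁻¹ q := by
  rw [S_apply, sum_add_distrib, D.sum_pq (fun h => ρ h (ρ k q)), rho_one]
  congr 1
  rw [sum_eq_single k⁻¹]
  · rw [← rho_mul, inv_mul_cancel, rho_one, D.pq, one_smul]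
  · intro h _ hh
    rw [← rho_mul, D.pq', zero_smul]
    intro h1
    exact hh (eq_inv_of_mul_eq_one_left h1)
  · exact fun h => absurd (mem_univ _) h

/-- If `r = 0` for all elements of `I`, then `X p ∈ P`. -/
theorem simp_sp [FiniteDimensional ℂ V] (hS : Sym ρ ω) (D : Dual ρ ω p q) (hI : I ≤ gE ρ ω e)
    (hI' : ∀ G ∈ gg ρ ω, ∀ X ∈ I, G * X - X * G ∈ I) (h1 : ∀ X ∈ I, ∀ h, ω (X p) (ρ h p) = 0)
    {X : Module.End ℂ V} (hX : X ∈ I) : X p ∈ sp ρ p ∧ ∀ k, ω (X p) (ρ k q) + ω (X p) (ρ k⁻¹ q) = 0 := by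
  have h2 : ∀ A ∈ zz ρ ω, ω (X p) (A p) = 0 := by
    intro A hA
    have h3 := h1 _ (stab_zz hS hI hI' hA hX) 1
    rw [rho_one, LinearMap.sub_apply, Module.End.mul_apply, Module.End.mul_apply, map_sub, LinearMap.sub_apply,
      skew_zz hA (X p) p, skew_zz (gg_zz hS (hI hX).1) (A p) p, hS.skew (A p) (X p)] at h3
    linear_combination (-1 / 2 : ℂ) * h3
  have hXp : X p ∈ pe ρ ω p := h1 X hX
  refine ⟨?_, fun k => ?_⟩
  · obtain ⟨a, ha, b, hb, x, hx, hx', e⟩ := D.decomp hS (X p)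
    have hb0 : b = 0 := by
      have hbp : b ∈ pe ρ ω p := by
        have h4 : b = X p - a - x := by rw [e]; abel
        rw [h4]
        exact Submodule.sub_mem _ (Submodule.sub_mem _ hXp (D.sp_pe hS ha)) hx
      exact D.zero hS hbp (D.spq_pe hS hb) fun y hy1 hy2 => BMo.pe_sp hS hy2 hb
    have hx0 : x = 0 := by
      refine D.zero hS hx hx' fun y hy hy' => ?_
      have h5 := h2 _ (S_zz hS q y)
      rw [D.S_q_p hS hy, hS.skew, e, hb0, add_zero, map_add, BMo.pe_sp hS hy ha, zero_add, neg_eq_zero] at h5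
      exact h5
    rw [e, hb0, hx0, add_zero, add_zero]
    exact ha
  · have h5 := h2 _ (S_zz hS q (ρ k q))
    rwa [D.S_qkq_p hS, map_add] at h5

/-- The case `r = 0`. -/
theorem simp_zero [FiniteDimensional ℂ V] (hS : Sym ρ ω) (D : Dual ρ ω p q)
    (hW : ∀ c : H → ℂ, (∀ x, x ∈ pe ρ ω p → x ∈ pe ρ ω q → ∑ h, c h • ρ h x = 0) → c = 0) (he : Bl ρ ω e)
    (hI : I ≤ gE ρ ω e) (hI' : ∀ G ∈ gg ρ ω, ∀ X ∈ I, G * X - X * G ∈ I)
    (h1 : ∀ X ∈ I, ∀ h, ω (X p) (ρ h p) = 0) (h2 : ∀ X ∈ I, ∀ h, ω (X q) (ρ h q) = 0) : I = ⊥ := by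
  rw [Submodule.eq_bot_iff]
  intro X hX
  have hXz : X ∈ zz ρ ω := gg_zz hS (hI hX).1
  have hP : ∀ Y ∈ I, Y p ∈ sp ρ p := fun Y hY => (simp_sp hS D hI hI' h1 hY).1
  have hQ : ∀ Y ∈ I, Y q ∈ sp ρ q := fun Y hY => (simp_sp hS (D.swap hS) hI hI' h2 hY).1
  obtain ⟨s, hs⟩ := sp_act (hP X hX)
  obtain ⟨t, ht⟩ := sp_act (hQ X hX)
  have hs' : ∀ k, ω (X p) (ρ k q) = s k := fun k => by rw [hs, D.act_q hS]
  have hst : t = s := by
    funext k
    have h3 := (D.swap hS).act_q hS t k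
    rw [← ht, map_neg, map_neg, skew_zz hXz, neg_neg, comm_zz hXz, hS.skew, hS.inv', hs'] at h3
    have h4 := (simp_sp hS D hI hI' h1 hX).2 k
    rw [hs', hs'] at h4
    rw [← h3]
    linear_combination -h4
  rw [hst] at ht
  -- `X w = s w`
  have hw : ∀ w, w ∈ pe ρ ω p → w ∈ pe ρ ω q → X w = act ρ w s := by
    intro w hw hw'
    have k1 : act ρ w s - X w ∈ sp ρ p := by
      have h3 := hP _ (stab_zz hS hI hI' (S_zz hS q w) hX)
      rwa [LinearMap.sub_apply, Module.End.mul_apply, Module.End.mul_apply, D.S_q_p hS hw, hs,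
        act_rho p s _ (S_zz hS q w).1, D.S_q_p hS hw] at h3
    have k2 : act ρ w s - X w ∈ sp ρ q := by
      have h3 := hQ _ (stab_zz hS hI hI' (S_zz hS p w) hX)
      rw [LinearMap.sub_apply, Module.End.mul_apply, Module.End.mul_apply, D.S_p_q hS hw', ht,
        act_rho q s _ (S_zz hS p w).1, D.S_p_q hS hw'] at h3
      have h4 : act ρ (-w) s = - act ρ w s := by
        rw [act_apply, act_apply, ← sum_neg_distrib]
        exact sum_congr rfl fun h _ => by rw [map_neg, smul_neg]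
      rw [h4, map_neg, sub_neg_eq_add] at h3
      have h5 := Submodule.neg_mem _ h3
      rwa [neg_add, neg_neg, ← sub_eq_add_neg] at h5
    have k3 : act ρ w s - X w = 0 := D.zero hS (D.sp_pe hS k1) (D.spq_pe hS k2) fun y hy _ => BMo.pe_sp hS hy k1
    exact (sub_eq_zero.1 k3).symm
  -- `s` is a class function
  have hcl : ∀ h k, s (k * h⁻¹) = s (h⁻¹ * k) := by
    intro h
    have h3 : (fun k => s (k * h⁻¹) - s (h⁻¹ * k)) = 0 := by
      refine hW _ fun w hw1 hw2 => ?_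
      have h4 := hw _ (rho_pe hS hw1 h) (rho_pe hS hw2 h)
      rw [comm_zz hXz, hw w hw1 hw2, act_apply, act_apply, map_sum] at h4
      simp only [sub_smul, sum_sub_distrib]
      rw [sub_eq_zero]
      have e1 : ∑ k, s (k * h⁻¹) • ρ k w = ∑ k, s k • ρ k (ρ h w) := by
        refine Fintype.sum_equiv (Equiv.mulRight h⁻¹) _ _ fun k => ?_
        rw [Equiv.coe_mulRight, ← rho_mul, inv_mul_cancel_right]
      have e2 : ∑ k, s (h⁻¹ * k) • ρ k w = ∑ k, ρ h (s k • ρ k w) := by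
        refine Fintype.sum_equiv (Equiv.mulLeft h⁻¹) _ _ fun k => ?_
        rw [Equiv.coe_mulLeft, map_smul, ← rho_mul, mul_inv_cancel_left]
      rw [e1, e2, h4]
    exact fun k => sub_eq_zero.1 (congrFun h3 k)
  obtain ⟨T, hT⟩ : ∃ T : Module.End ℂ V, T = ∑ h, s h • ρ h := ⟨_, rfl⟩
  have hTv : ∀ v, T v = act ρ v s := fun v => by
    rw [hT, LinearMap.sum_apply, act_apply]
    rfl
  have hTr : ∀ h, T * ρ h = ρ h * T := by
    intro h
    rw [hT, sum_mul, mul_sum]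
    have e1 : ∑ k, s k • ρ k * ρ h = ∑ k, s (k * h⁻¹) • ρ k := by
      refine (Fintype.sum_equiv (Equiv.mulRight h⁻¹) _ _ fun k => ?_).symm
      rw [Equiv.coe_mulRight, smul_mul_assoc, ← map_mul, inv_mul_cancel_right]
    have e2 : ∑ k, ρ h * s k • ρ k = ∑ k, s (h⁻¹ * k) • ρ k := by
      refine (Fintype.sum_equiv (Equiv.mulLeft h⁻¹) _ _ fun k => ?_).symm
      rw [Equiv.coe_mulLeft, mul_smul_comm, ← map_mul, mul_inv_cancel_left]
    rw [e1, e2]
    exact sum_congr rfl fun k _ => by rw [hcl]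
  have hXT : X = T := by
    have k3 : ∀ {x : V}, X x = T x → ∀ u ∈ sp ρ x, X u = T u := by
      intro x hx u hu
      induction hu using Submodule.span_induction with
      | mem y hy =>
        obtain ⟨h, rfl⟩ := hy
        change X (ρ h x) = T (ρ h x)
        have h5 := LinearMap.congr_fun (hTr h) x
        rw [Module.End.mul_apply, Module.End.mul_apply] at h5
        rw [comm_zz hXz, hx, h5]
      | zero => rw [map_zero, map_zero]
      | add x y _ _ hx hy => rw [map_add, map_add, hx, hy]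
      | smul t x _ hx => rw [map_smul, map_smul, hx]
    refine LinearMap.ext fun v => ?_
    obtain ⟨a, ha, b, hb, w, hw1, hw2, rfl⟩ := D.decomp hS v
    rw [map_add, map_add, map_add, map_add, k3 (by rw [hs, hTv]) a ha, k3 (by rw [ht, hTv]) b hb,
      hw w hw1 hw2, hTv w]
  have hc : ∀ Y ∈ zz ρ ω, X * Y = Y * X := by
    intro Y hY
    rw [hXT, hT, sum_mul, mul_sum]
    exact sum_congr rfl fun h _ => by rw [smul_mul_assoc, mul_smul_comm, hY.1]
  refine trace_nd_gE hS he (hI hX) fun Y hY => ?_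
  rw [LinearMap.trace_mul_comm]
  exact trace_gg_cen hS hY.1 hc

/-- `S p (r p) ∈ I` for `r h = 2 ω (X p) (h p)`. -/
theorem r_mem [FiniteDimensional ℂ V] (hS : Sym ρ ω) (D : Dual ρ ω p q) (hI : I ≤ gE ρ ω e)
    (hI' : ∀ G ∈ gg ρ ω, ∀ X ∈ I, G * X - X * G ∈ I) {X : Module.End ℂ V} (hX : X ∈ I) :
    S ρ ω p (act ρ p fun h => 2 * ω (X p) (ρ h p)) ∈ I := by
  have hXz : X ∈ zz ρ ω := gg_zz hS (hI hX).1
  have h1 : S ρ ω p (X p) ∈ I := by
    have h2 := stab_zz hS hI hI' (S_zz hS p p) hX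
    have h3 : S ρ ω p p * X - X * S ρ ω p p = (-2 : ℂ) • S ρ ω p (X p) := by
      rw [← neg_sub, brk hXz, S_symm (X p) p]
      module
    rw [h3] at h2
    exact (Submodule.smul_mem_iff _ (by norm_num)).1 h2
  have h2 := stab_zz hS hI hI' (S_zz hS p p) h1
  rw [brk (S_zz hS p p), S_pe_sp hS D.p_pe D.p_pe (mem_sp' p), map_zero, LinearMap.zero_apply, zero_add, S_apply] at h2
  have h3 : (∑ h, (ω (X p) (ρ h p) • ρ h p + ω (X p) (ρ h p) • ρ h p)) =
      act ρ p fun h => 2 * ω (X p) (ρ h p) := by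
    rw [act_apply]
    exact sum_congr rfl fun h _ => by module
  rwa [h3] at h2

/-- The case `r ≠ 0`. -/
theorem simp_pos [FiniteDimensional ℂ V] (hS : Sym ρ ω) (D : Dual ρ ω p q)
    (hW : ∀ c : H → ℂ, (∀ x, x ∈ pe ρ ω p → x ∈ pe ρ ω q → ∑ h, c h • ρ h x = 0) → c = 0) (he : Bl ρ ω e)
    (hsc : ∀ ζ : H → ℂ, (∀ x u, ζ (u * x * u⁻¹) = ζ x) → (∀ x, ζ x⁻¹ = ζ x) → ∃ t : ℂ, (∑ h, ζ h • ρ h) * e = t • e)
    (hI : I ≤ gE ρ ω e) (hI' : ∀ G ∈ gg ρ ω, ∀ X ∈ I, G * X - X * G ∈ I)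
    {r : H → ℂ} (hr : ∀ h, r h⁻¹ = r h) {g₀ : H} (hg : r g₀ ≠ 0) (hrI : S ρ ω p (act ρ p r) ∈ I) :
    gE ρ ω e ≤ I := by
  have hze := fun {A X : Module.End ℂ V} (hA : A ∈ zz ρ ω) (hX : X ∈ I) => stab_zz hS hI hI' hA hX
  obtain ⟨Rm, hRm⟩ : ∃ Rm : Submodule ℂ (H → ℂ), ∀ c, c ∈ Rm ↔ S ρ ω p (act ρ p c) ∈ I :=
    ⟨I.comap ((S ρ ω p) ∘ₗ (act ρ p)), fun c => Iff.rfl⟩
  have hT : ∀ (k : H) (c : H → ℂ), c ∈ Rm → (fun h => c (k * h) + c (h * k⁻¹)) ∈ Rm := by
    intro k c hc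
    rw [hRm] at hc ⊢
    have h1 := hze (S_zz hS q (ρ k p)) hc
    rw [brk (S_zz hS q (ρ k p)), D.S_qe_p hS (mem_sp p k), act_rho p c _ (S_zz hS q (ρ k p)).1,
      D.S_qe_p hS (mem_sp p k), S_rho', ← map_add] at h1
    have h2 : ρ k⁻¹ (act ρ p c) + act ρ (ρ k p) c = act ρ p (fun h => c (k * h) + c (h * k⁻¹)) := by
      rw [act_apply, act_apply, act_apply, map_sum]
      simp only [add_smul, sum_add_distrib]
      congr 1
      · refine (Fintype.sum_equiv (Equiv.mulLeft k) _ _ fun h => ?_).symm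
        rw [Equiv.coe_mulLeft, map_smul, ← rho_mul, inv_mul_cancel_left]
      · refine (Fintype.sum_equiv (Equiv.mulRight k⁻¹) _ _ fun h => ?_).symm
        rw [Equiv.coe_mulRight, ← rho_mul, inv_mul_cancel_right]
    rwa [h2] at h1
  have hconj : ∀ (k : H) (c : H → ℂ), c ∈ Rm → (fun h => c (k * h * k⁻¹)) ∈ Rm := by
    intro k c hc
    have h1 := hT k _ (hT k c hc)
    have h2 := hT (k * k) c hc
    have h3 := Submodule.smul_mem _ (1 / 2 : ℂ) (Submodule.sub_mem _ h1 h2)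
    convert h3 using 1
    funext h
    simp only [Pi.smul_apply, Pi.sub_apply, smul_eq_mul, mul_inv_rev, mul_assoc, inv_mul_cancel_left,
      mul_inv_cancel_left]
    ring
  obtain ⟨c, hc⟩ : ∃ c : H → ℂ, c = fun h => r (g₀ * h) + r (h * g₀⁻¹) := ⟨_, rfl⟩
  have hcR : c ∈ Rm := hc ▸ hT g₀ r ((hRm r).2 hrI)
  have hcs : ∀ h, c h⁻¹ = c h := by
    intro h
    rw [hc]
    change r (g₀ * h⁻¹) + r (h⁻¹ * g₀⁻¹) = r (g₀ * h) + r (h * g₀⁻¹)
    rw [← hr (g₀ * h⁻¹), ← hr (h⁻¹ * g₀⁻¹), mul_inv_rev, mul_inv_rev, inv_inv, inv_inv, add_comm]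
  have hc1 : c 1 = 2 * r g₀ := by
    rw [hc]
    change r (g₀ * 1) + r (1 * g₀⁻¹) = _
    rw [mul_one, one_mul, hr]
    ring
  obtain ⟨ζ, hζ⟩ : ∃ ζ : H → ℂ, ζ = ∑ k : H, fun h => c (k * h * k⁻¹) := ⟨_, rfl⟩
  have hζh : ∀ h, ζ h = ∑ k : H, c (k * h * k⁻¹) := fun h => by rw [hζ, Finset.sum_apply]
  have hζR : ζ ∈ Rm := hζ ▸ Submodule.sum_mem _ fun k _ => hconj k c hcR
  have hζc : ∀ x u, ζ (u * x * u⁻¹) = ζ x := by
    intro x u
    rw [hζh, hζh]
    refine Fintype.sum_equiv (Equiv.mulRight u) _ _ fun k => ?_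
    rw [Equiv.coe_mulRight]
    congr 1
    group
  have hζs : ∀ x, ζ x⁻¹ = ζ x := by
    intro x
    rw [hζh, hζh]
    refine sum_congr rfl fun k _ => ?_
    rw [← hcs]
    congr 1
    group
  have hζ1 : ζ 1 ≠ 0 := by
    rw [hζh]
    simp only [mul_one, mul_inv_cancel, sum_const, card_univ, hc1, nsmul_eq_mul]
    have : (Fintype.card H : ℂ) ≠ 0 := by exact_mod_cast Fintype.card_ne_zero
    exact mul_ne_zero this (mul_ne_zero two_ne_zero hg)
  obtain ⟨t, ht⟩ := hsc ζ hζc hζs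
  have hTv : ∀ v, (∑ h, ζ h • ρ h : Module.End ℂ V) v = act ρ v ζ := fun v => by
    rw [LinearMap.sum_apply, act_apply]
    rfl
  have hu : S ρ ω p (act ρ p ζ) = t • S ρ ω p (e p) := by
    have h1 := (hI ((hRm ζ).1 hζR)).2
    have h2 := LinearMap.congr_fun ht p
    rw [Module.End.mul_apply, LinearMap.smul_apply, hTv] at h2
    rw [he.S hS, act_rho p ζ e he.rho, h2, map_smul] at h1
    exact h1.symm
  have ht0 : t ≠ 0 := by
    intro h0
    rw [h0, zero_smul] at hu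
    have h1 := LinearMap.congr_fun hu q
    rw [S_apply, sum_add_distrib, D.sum_qp hS (fun h => ρ h (act ρ p ζ)), rho_one, LinearMap.zero_apply] at h1
    have h2 := congrArg (fun v => ω v (ρ 1 q)) h1
    have h3 := D.act_q hS ζ 1
    have h4 := D.act_q hS (fun h => ω q (ρ h (act ρ p ζ))) 1
    rw [act_apply _ (fun h => ω q (ρ h (act ρ p ζ)))] at h4
    simp only [map_add, map_neg, LinearMap.add_apply, LinearMap.neg_apply, map_zero, LinearMap.zero_apply] at h2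
    rw [h3, h4, rho_one, hS.skew, ← rho_one (ρ := ρ) q, h3] at h2
    exact hζ1 (by linear_combination (-1 / 2 : ℂ) * h2)
  have hep : S ρ ω p (e p) ∈ I := by
    have h1 := (hRm ζ).1 hζR
    rw [hu] at h1
    exact (Submodule.smul_mem_iff _ ht0).1 h1
  have hAe : ∀ {A : Module.End ℂ V}, A ∈ zz ρ ω → ∀ v, A (e v) = e (A v) := fun hA v =>
    LinearMap.congr_fun (he.com _ hA.1) v
  -- half of an element
  have half : ∀ {Y : Module.End ℂ V} {s : ℂ}, s ≠ 0 → s • Y ∈ I → Y ∈ I := fun hs h =>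
    (Submodule.smul_mem_iff _ hs).1 h
  have hp : ∀ x ∈ pe ρ ω p, e * S ρ ω p x ∈ I := by
    intro x hx
    have h1 := hze (S_zz hS q x) hep
    rw [brk (S_zz hS q x), hAe (S_zz hS q x), D.S_q_p hS hx, ← he.S hS, ← he.S hS, S_symm x p] at h1
    exact half (s := 2) two_ne_zero (by rw [two_smul]; exact h1)
  have hqq : S ρ ω q q q = 0 := S_pe_sp hS D.q_pe D.q_pe (mem_sp' q)
  have hqp : S ρ ω q q p = (2 : ℂ) • q := by
    have h1 := D.S_qkq_p hS 1
    rw [inv_one, rho_one, ← two_smul ℂ q] at h1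
    exact h1
  have heq : S ρ ω q (e q) ∈ I := by
    have h1 := hze (S_zz hS q q) hep
    rw [brk (S_zz hS q q), hAe (S_zz hS q q), hqp, ← he.S hS, ← he.S hS, map_smul, map_smul, LinearMap.smul_apply,
      S_symm q p] at h1
    have h2 : e * S ρ ω p q ∈ I := by
      refine half (s := 4) (by norm_num) ?_
      convert h1 using 1
      rw [mul_smul_comm]
      module
    have h3 := hze (S_zz hS q q) h2
    rw [he.S hS, brk (S_zz hS q q), hAe (S_zz hS q q), hqq, map_zero, map_zero, add_zero, hqp, map_smul,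
      LinearMap.smul_apply] at h3
    exact half (s := 2) two_ne_zero h3
  have hq : ∀ x ∈ pe ρ ω q, e * S ρ ω q x ∈ I := by
    intro x hx
    have h1 := hze (S_zz hS p x) heq
    rw [brk (S_zz hS p x), hAe (S_zz hS p x), D.S_p_q hS hx, ← he.S hS, ← he.S hS, map_neg, map_neg,
      LinearMap.neg_apply, S_symm x q, mul_neg] at h1
    refine half (s := -2) (by norm_num) ?_
    convert h1 using 1
    module
  obtain ⟨L, hL⟩ : ∃ L : Submodule ℂ (Module.End ℂ V), ∀ X, X ∈ L ↔ X ∈ zz ρ ω ∧ e * X ∈ I :=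
    ⟨zz ρ ω ⊓ I.comap (LinearMap.mulLeft ℂ e), fun X => Iff.rfl⟩
  have hLb : ∀ X ∈ L, ∀ Y ∈ L, X * Y - Y * X ∈ L := by
    intro X hX Y hY
    rw [hL] at hX hY ⊢
    refine ⟨brk_zz hS hX.1 hY.1, ?_⟩
    have h1 := Submodule.neg_mem _ (hze hY.1 hX.2)
    have h2 : Y * (e * X) = e * (Y * X) := by rw [← mul_assoc, he.com Y hY.1.1, mul_assoc]
    rw [neg_sub, h2, mul_assoc, ← mul_sub] at h1
    exact h1
  have key := D.main hS hLb (fun x hx => (hL _).2 ⟨S_zz hS p x, hp x hx⟩) (fun x hx => (hL _).2 ⟨S_zz hS q x, hq x hx⟩) hW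
  rintro G ⟨hG, hG'⟩
  rw [← hG']
  clear hG'
  induction hG using Submodule.span_induction with
  | mem W hW' =>
    obtain ⟨A, hA, B, hB, rfl⟩ := hW'
    exact ((hL _).1 (key A hA B hB)).2
  | zero => rw [mul_zero]; exact Submodule.zero_mem _
  | add x y _ _ hx hy => rw [mul_add]; exact Submodule.add_mem _ hx hy
  | smul t x _ hx => rw [mul_smul_comm]; exact Submodule.smul_mem _ _ hx

/-- **The blocks are simple.** -/
theorem simp_of_dual [FiniteDimensional ℂ V] (hS : Sym ρ ω) (D : Dual ρ ω p q)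
    (hW : ∀ c : H → ℂ, (∀ x, x ∈ pe ρ ω p → x ∈ pe ρ ω q → ∑ h, c h • ρ h x = 0) → c = 0) (he : Bl ρ ω e)
    (hsc : ∀ ζ : H → ℂ, (∀ x u, ζ (u * x * u⁻¹) = ζ x) → (∀ x, ζ x⁻¹ = ζ x) → ∃ t : ℂ, (∑ h, ζ h • ρ h) * e = t • e) :
    Simp ρ ω e := by
  intro I hI hI'
  have hsym : ∀ X ∈ I, ∀ (x : V) h, 2 * ω (X x) (ρ h⁻¹ x) = 2 * ω (X x) (ρ h x) := by
    intro X hX x h
    have hXz : X ∈ zz ρ ω := gg_zz hS (hI hX).1
    rw [← hS.inv h, ← rho_mul, mul_inv_cancel, rho_one, ← comm_zz hXz, skew_zz hXz, hS.skew (ρ h x), neg_neg]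
  have hpe : ∀ {x : V}, x ∈ pe ρ ω (-p) ↔ x ∈ pe ρ ω p := by
    intro x
    constructor
    · intro h k
      have := h k
      rwa [map_neg, map_neg, neg_eq_zero] at this
    · intro h k
      rw [map_neg, map_neg, h k, neg_zero]
  by_cases h1 : ∀ X ∈ I, ∀ h, ω (X p) (ρ h p) = 0
  · by_cases h2 : ∀ X ∈ I, ∀ h, ω (X q) (ρ h q) = 0
    · exact Or.inl (simp_zero hS D hW he hI hI' h1 h2)
    · push Not at h2
      obtain ⟨X, hX, g₀, hg⟩ := h2
      refine Or.inr (simp_pos hS (D.swap hS) (fun c hc => hW c fun x hx hx' => hc x hx' (hpe.2 hx)) he hsc hI hI'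
        (r := fun h => 2 * ω (X q) (ρ h q)) (hsym X hX q) (g₀ := g₀) (mul_ne_zero two_ne_zero hg)
        (r_mem hS (D.swap hS) hI hI' hX))
  · push Not at h1
    obtain ⟨X, hX, g₀, hg⟩ := h1
    exact Or.inr (simp_pos hS D hW he hsc hI hI' (r := fun h => 2 * ω (X p) (ρ h p)) (hsym X hX p) (g₀ := g₀)
      (mul_ne_zero two_ne_zero hg) (r_mem hS D hI hI' hX))

end

end Pool.Agent.Lib.MP_943dad_ag.BMo
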