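import Pool.Agent.Lib.MP_943dad_ag.BM.Trf
import Pool.Agent.Lib.MP_943dad_ag.BM.Tp

set_option linter.all false

/-!
# The trace formula for the handles of the automorphisms
-/

open Finset

namespace Pool.Agent.BM

open Pool.Agent.HMv

variable {H : Type} [Group H] [Fintype H] {g n : ℕ}

/-- **The trace formula for the handle** `t a`, `t b`. -/
theorem trace_formula' {φ ψ : F (g + 1) n →* H} {t : MulAut (F (g + 1) n)} (T : Tp.Tr φ ψ t)
    (hR : φ (R (g + 1) n) = 1) (s : H → F (g + 1) n) (hs : ∀ h, φ (s h) = h) :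
    ∃ Na Nb : Module.End ℂ (Coh φ), Na * Na = 0 ∧ Nb * Nb = 0 ∧ (∃ σ : Stab φ, mon φ σ = 1 + Na) ∧
      (∃ σ : Stab φ, mon φ σ = 1 + Nb) ∧ ∀ c : H → ℂ,
      LinearMap.trace ℂ (Coh φ) (Na * Nb * ∑ h, c h • inn φ (s h)) =
        ∑ u : H, ∑ i ∈ range (Fintype.card H), ∑ j ∈ range (Fintype.card H),
          c (u * φ (t (b n (Fin.last g))) ^ i * φ (t (a n (Fin.last g))) ^ j * u⁻¹) := by
  have hs' : ∀ h, ψ (t⁻¹ (s h)) = h := fun h => by rw [T.eq, MulAut.apply_inv_self, hs]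
  obtain ⟨Na, Nb, h1, h2, ⟨σ, hσ⟩, ⟨τ, hτ⟩, h5⟩ := trace_formula (φ := ψ) (by rw [T.eq, T.R_eq, hR]) (fun h => t⁻¹ (s h)) hs'
  obtain ⟨Na, rfl⟩ := (Tp.alg T).surjective Na
  obtain ⟨Nb, rfl⟩ := (Tp.alg T).surjective Nb
  obtain ⟨σ, rfl⟩ := (Tp.stab T).surjective σ
  obtain ⟨τ, rfl⟩ := (Tp.stab T).surjective τ
  refine ⟨Na, Nb, ?_, ?_, ⟨σ, ?_⟩, ⟨τ, ?_⟩, fun c => ?_⟩
  · apply (Tp.alg T).injective
    rw [map_mul, h1, map_zero]
  · apply (Tp.alg T).injective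
    rw [map_mul, h2, map_zero]
  · apply (Tp.alg T).injective
    rw [Tp.alg_mon, hσ, map_add, map_one]
  · apply (Tp.alg T).injective
    rw [Tp.alg_mon, hτ, map_add, map_one]
  · have h6 := h5 c
    have h7 : Tp.alg T Na * Tp.alg T Nb * ∑ h, c h • inn ψ (t⁻¹ (s h)) =
        Tp.alg T (Na * Nb * ∑ h, c h • inn φ (s h)) := by
      have h8 : ∀ h, inn ψ (t⁻¹ (s h)) = Tp.alg T (inn φ (s h)) := fun h => by
        rw [← Tp.alg_inn T, MulAut.apply_inv_self]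
      rw [map_mul, map_mul, map_sum]
      simp only [map_smul, h8]
    rw [h7] at h6
    have h9 : LinearMap.trace ℂ (Coh ψ) (Tp.alg T (Na * Nb * ∑ h, c h • inn φ (s h))) =
        LinearMap.trace ℂ (Coh φ) (Na * Nb * ∑ h, c h • inn φ (s h)) :=
      LinearMap.trace_conj' _ (Tp.eqv T)
    rw [h9] at h6
    rw [h6]
    simp only [T.eq]

end Pool.Agent.BM
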