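import Pool.Agent.Lib.MP_943dad_ag.BM.Fin2
import Pool.Agent.Lib.MP_943dad_ag.BM.Gou
import Pool.Agent.Lib.MP_943dad_ag.BM.TrfT
import Pool.Agent.Lib.MP_943dad_ag.BM.IneqB
import Pool.Agent.Lib.MP_943dad_ag.BM.Fam
import Pool.Agent.Lib.MP_943dad_ag.BM.Lzz
import Pool.Agent.Lib.MP_943dad_ag.BM.Simp
import Pool.Agent.Lib.MP_943dad_ag.BM.SimH
import Pool.Agent.Lib.MP_943dad_ag.BM.SimB
import Pool.Agent.Lib.MP_943dad_ag.BM.SimC

set_option linter.all false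

/-!
The theorem for a cover, if the quotients of the deck group by the kernels of the irreducible representations become
trivial on the last handle.
-/

open Finset

namespace Pool.Agent.BM

open Pool.Agent.HMv Pool.Agent.Lib.MP_943dad_ag

variable {H : Type} [Group H] {g n : ℕ} [Fintype H]

/-- The blocks are simple. -/
theorem simp_block [DecidableEq H] (hg : 3 ≤ g + 1) (φ : F (g + 1) n →* H) (hφ : Function.Surjective φ)
    (hR : φ (R (g + 1) n) = 1) {ω : LinearMap.BilinForm ℂ (Coh φ)} (hω : IsCup φ ω)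
    {ρ : H →* Module.End ℂ (Coh φ)} (hS : BMo.Sym ρ ω) (hρ : ∀ y, ρ (φ y) = inn φ y)
    {I : Type} [Fintype I] {c : I → H → ℂ} (F : Fam H I c) (i : I)
    [(kerC (c i)).Normal] (ht : Triv ((QuotientGroup.mk' (kerC (c i))).comp φ)) : BMo.Simp ρ ω (Ef ρ (c i)) := by
  classical
  haveI : Fintype (H ⧸ kerC (c i)) := Fintype.ofFinite _
  have hq : Function.Surjective (QuotientGroup.mk' (kerC (c i))) := QuotientGroup.mk'_surjective _
  have hφ' : Function.Surjective ((QuotientGroup.mk' (kerC (c i))).comp φ) := hq.comp hφ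
  have hR' : ((QuotientGroup.mk' (kerC (c i))).comp φ) (R (g + 1) n) = 1 := by
    rw [MonoidHom.comp_apply, hR, map_one]
  haveI : FiniteDimensional ℂ (Coh ((QuotientGroup.mk' (kerC (c i))).comp φ)) := finite_coh _
  obtain ⟨ω', hω', hG⟩ := exists_good hφ' hR' ht
  obtain ⟨ρ', hρ'⟩ := exists_rho' hφ'
  have hS' : BMo.Sym ρ' ω' := ⟨cup_alt hφ' hR' hω', hG.nd, fun h u v => by
    obtain ⟨y, rfl⟩ := hφ' h
    rw [hρ']
    exact cup_inn hφ' hR' hω' y u v⟩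
  have he : BMo.Bl ρ ω (Ef ρ (c i)) := F.bl ρ hS.inv i
  obtain ⟨e', he'⟩ := exists_blk (QuotientGroup.mk' (kerC (c i))) φ hφ hR hρ he
  obtain ⟨p, r, hD, hW⟩ := exists_dual_triv hφ' hR' hg ht hG hρ'
  have hi : ∀ h v, res (QuotientGroup.mk' (kerC (c i))) φ (ρ' (QuotientGroup.mk' (kerC (c i)) h) v) =
      ρ h (res (QuotientGroup.mk' (kerC (c i))) φ v) := by
    intro h v
    obtain ⟨y, rfl⟩ := hφ h
    rw [hρ, ← res_inn, ← hρ']
    rfl
  have hsc : ∀ h, ∃ t : ℂ, Tcl ρ' h * e' = t • e' := fun h =>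
    tcl_quot (QuotientGroup.mk' (kerC (c i))) hq (res (QuotientGroup.mk' (kerC (c i))) φ) (res_injective _ φ) hi he'
      (fun h => F.Tcl ρ i h) h
  have hbl' : BMo.Bl ρ' ω' e' := blk_bl (QuotientGroup.mk' (kerC (c i))) hq φ hφ hR hω hω' hρ hρ' he he'
  exact simp_transfer (QuotientGroup.mk' (kerC (c i))) hq φ hφ hR hω hω' hρ hρ' he
    (fun h hh => rho_Ef ρ ((QuotientGroup.eq_one_iff _).1 hh)) he'
    (BMo.simp_of_dual hS' hD hW hbl' fun ζ h1 h2 => scal_of_tcl hsc ζ h1 h2) hS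

theorem main3 (hg : 3 ≤ g + 1) (φ : F (g + 1) n →* H) (hφ : Function.Surjective φ)
    (hR : φ (R (g + 1) n) = 1)
    (hT : ∀ (N : Subgroup H) [N.Normal], IrrK N → Triv ((QuotientGroup.mk' N).comp φ)) :
    ∃ ω : LinearMap.BilinForm ℂ (Coh φ), IsCup φ ω ∧ (∀ f, ω f f = 0) ∧ (∀ f, (∀ f', ω f f' = 0) → f = 0) ∧
      ∀ Δ : Subgroup (Stab φ), Δ.FiniteIndex → ∀ X Y, IsZ φ ω X → IsZ φ ω Y →
        InLie (mon φ '' (Δ : Set (Stab φ))) (X * Y - Y * X) := by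
  classical
  haveI : FiniteDimensional ℂ (Coh φ) := finite_coh φ
  obtain ⟨ω, hω⟩ := exists_cup hφ hR
  have hqs : ∀ (N : Subgroup H) [N.Normal], Function.Surjective ((QuotientGroup.mk' N).comp φ) := fun N _ =>
    (QuotientGroup.mk'_surjective N).comp hφ
  have hqR : ∀ (N : Subgroup H) [N.Normal], ((QuotientGroup.mk' N).comp φ) (R (g + 1) n) = 1 := fun N _ => by
    rw [MonoidHom.comp_apply, hR, map_one]
  -- the good form for the quotients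
  have hgood : ∀ (N : Subgroup H) [N.Normal] [Fintype (H ⧸ N)], Triv ((QuotientGroup.mk' N).comp φ) →
      ∀ ω' : LinearMap.BilinForm ℂ (Coh ((QuotientGroup.mk' N).comp φ)), IsCup ((QuotientGroup.mk' N).comp φ) ω' →
        Tp.Good ((QuotientGroup.mk' N).comp φ) ω' := by
    intro N _ _ h ω' hω'
    obtain ⟨ω'', h1, h2⟩ := exists_good (hqs N) (hqR N) h
    rw [isCup_eq (hqs N) (hqR N) hω', ← isCup_eq (hqs N) (hqR N) h1]
    exact h2
  have hnd : ∀ f, (∀ f', ω f f' = 0) → f = 0 :=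
    cup_nd_quot hφ hR hω fun N _ _ hN ω' hω' => (hgood N (hT N hN) ω' hω').nd
  refine ⟨ω, hω, cup_alt hφ hR hω, hnd, ?_⟩
  intro Δ hΔ X Y hX hY
  haveI := hΔ
  obtain ⟨ρ, hρ⟩ := exists_rho' hφ
  have hS : BMo.Sym ρ ω := ⟨cup_alt hφ hR hω, hnd, fun h u v => by
    obtain ⟨y, rfl⟩ := hφ h
    rw [hρ]
    exact cup_inn hφ hR hω y u v⟩
  have hz : ∀ X, IsZ φ ω X → X ∈ BMo.zz ρ ω := fun X hX =>
    ⟨fun h => by
      obtain ⟨y, rfl⟩ := hφ h
      rw [hρ]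
      exact hX.1 y, hX.2⟩
  have hz' : ∀ X, X ∈ BMo.zz ρ ω → IsZ φ ω X := fun X hX =>
    ⟨fun y => by rw [← hρ]; exact hX.1 (φ y), hX.2⟩
  obtain ⟨L, hL1, hL2, hLc, hLlog⟩ := exists_lie_all (V := Coh φ) ⟨⟨mon φ, mon_one φ⟩, mon_mul φ⟩ Δ
  have hL1' : ∀ X ∈ L, InLie (mon φ '' (Δ : Set (Stab φ))) X := fun X hX => (hL1 X).1 hX
  have hLc' : ∀ X ∈ L, ∀ h, X * ρ h = ρ h * X := by
    intro X hX h
    obtain ⟨y, rfl⟩ := hφ h
    rw [hρ]
    exact (hLc (inn φ y) (fun τ _ => (mon_inn' τ y).symm) X hX).symm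
  have hLz : L ≤ BMo.zz ρ ω := fun X hX => ⟨fun h => hLc' X hX h, fun u v =>
    lie_form (G := mon φ '' (Δ : Set (Stab φ))) (by
      rintro _ ⟨τ, _, rfl⟩ u v
      exact cup_mon hφ hR hω τ u v) (hL1' X hX) u v⟩
  have hLlog' : ∀ τ ∈ Δ, ∃ X ∈ L, ∀ v, (mon φ τ - 1) ((mon φ τ - 1) ((mon φ τ - 1) v)) = 0 →
      X v = (mon φ τ - 1) v - (1 / 2 : ℂ) • (mon φ τ - 1) ((mon φ τ - 1) v) := by
    intro τ hτ
    obtain ⟨X, hX, h6⟩ := hLlog τ hτ
    refine ⟨X, hX, fun v hv => ?_⟩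
    have h7 := h6 v (by
      rw [pow_succ, pow_succ, pow_one]
      exact hv)
    rw [h7]
    rw [pow_succ, pow_one]
    rfl
  -- the logarithms of square zero
  have hsq : ∀ N : Module.End ℂ (Coh φ), N * N = 0 → (∃ σ : Stab φ, mon φ σ = 1 + N) → N ∈ L ∧ N ∈ BMo.gg ρ ω := by
    rintro N hN ⟨σ, hσ⟩
    obtain ⟨k, hk, -, hkΔ⟩ := Subgroup.exists_pow_mem_of_index_ne_zero (H := Δ) Subgroup.FiniteIndex.index_ne_zero σ
    have hpow : ∀ k : ℕ, (1 + N) ^ k = 1 + (k : ℂ) • N := by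
      intro k
      induction k with
      | zero => simp
      | succ k ih =>
        rw [pow_succ, ih, mul_add, mul_one, add_mul, one_mul, smul_mul_assoc, hN, smul_zero, add_zero]
        push_cast
        rw [add_smul, one_smul]
        abel
    obtain ⟨X, hX, h1⟩ := hLlog' (σ ^ k) hkΔ
    have hk0 : (k : ℂ) ≠ 0 := by exact_mod_cast hk.ne'
    have h2 : ∀ v, (mon φ (σ ^ k) - 1) v = ((k : ℂ) • N) v := by
      intro v
      rw [LinearMap.sub_apply, mon_pow, hσ, hpow, LinearMap.add_apply, Module.End.one_apply, add_sub_cancel_left]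
    have h3 : X = (k : ℂ) • N := by
      refine LinearMap.ext fun v => ?_
      have h4 : ∀ v, ((k : ℂ) • N) (((k : ℂ) • N) v) = 0 := by
        intro v
        have h5 := LinearMap.congr_fun hN v
        rw [Module.End.mul_apply, LinearMap.zero_apply] at h5
        rw [LinearMap.smul_apply, LinearMap.smul_apply, map_smul, h5, smul_zero, smul_zero]
      rw [h1 v (by rw [h2, h2, h2, h4]), h2, h2, h4, smul_zero, sub_zero]
    have h6 : N ∈ L := by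
      rw [h3] at hX
      exact (Submodule.smul_mem_iff _ hk0).1 hX
    exact ⟨h6, BMo.nil_gg hS (hLz h6) ⟨2, by rw [pow_two, hN]⟩⟩
  obtain ⟨I, hI, c, Fm⟩ := exists_fam H
  have hBl : ∀ i, BMo.Bl ρ ω (Ef ρ (c i)) := fun i => Fm.bl ρ hS.inv i
  haveI hnor : ∀ i, (kerC (c i)).Normal := fun i => kerC_normal (Fm.cl i)
  -- the step for a normal subgroup which fixes blocks
  have hstep : ∀ (N : Subgroup H) [N.Normal], Triv ((QuotientGroup.mk' N).comp φ) → ∀ G ∈ BMo.gg ρ ω,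
      ∃ l ∈ L, ∀ v, (∀ h ∈ N, ρ h v = v) → l v = G v := by
    intro N _ ht G hG
    induction hG using Submodule.span_induction with
    | mem Z hZ =>
      obtain ⟨A, hA, B, hB, rfl⟩ := hZ
      haveI : Fintype (H ⧸ N) := Fintype.ofFinite _
      obtain ⟨ω', hω', hg'⟩ := exists_good (hqs N) (hqR N) ht
      obtain ⟨l, hl, h3⟩ := pair_step (QuotientGroup.mk' N) (QuotientGroup.mk'_surjective _) φ hφ hR hω hω'
        (fun L' h4 h5 X Y hX hY => big_L' (hqs N) (hqR N) hg ht hg' L' h4 h5 hX hY)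
        Δ hL2 hLlog' (hz' A hA) (hz' B hB)
      refine ⟨l, hl, fun v hv => h3 v fun y hy => ?_⟩
      rw [← hρ]
      exact hv _ ((QuotientGroup.eq_one_iff _).1 hy)
    | zero => exact ⟨0, Submodule.zero_mem _, fun v _ => rfl⟩
    | add x y _ _ hx hy =>
      obtain ⟨l, hl, k1⟩ := hx
      obtain ⟨m, hm, k2⟩ := hy
      exact ⟨l + m, Submodule.add_mem _ hl hm, fun v hv => by
        rw [LinearMap.add_apply, LinearMap.add_apply, k1 v hv, k2 v hv]⟩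
    | smul t x _ hx =>
      obtain ⟨l, hl, k1⟩ := hx
      exact ⟨t • l, Submodule.smul_mem _ _ hl, fun v hv => by
        rw [LinearMap.smul_apply, LinearMap.smul_apply, k1 v hv]⟩
  have hcomL : ∀ i, ∀ l ∈ L, Ef ρ (c i) * l = l * Ef ρ (c i) := fun i l hl => ((hBl i).com _ (hLc' l hl)).symm
  have hcomG : ∀ i, ∀ G ∈ BMo.gg ρ ω, Ef ρ (c i) * G = G * Ef ρ (c i) := fun i G hG =>
    ((hBl i).com _ (BMo.gg_zz hS hG).1).symm
  have hblk : ∀ i (N : Subgroup H), N ≤ kerC (c i) → ∀ l ∈ L, ∀ G ∈ BMo.gg ρ ω,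
      (∀ v, (∀ h ∈ N, ρ h v = v) → l v = G v) → Ef ρ (c i) * l = Ef ρ (c i) * G := by
    intro i N hN l hl G hG h1
    rw [hcomL i l hl, hcomG i G hG]
    refine LinearMap.ext fun v => ?_
    rw [Module.End.mul_apply, Module.End.mul_apply]
    exact h1 _ fun h hh => by rw [← Module.End.mul_apply, rho_Ef ρ (hN hh)]
  have hone : ∀ i, ∀ G ∈ BMo.gg ρ ω, ∃ l ∈ L, Ef ρ (c i) * l = Ef ρ (c i) * G := by
    intro i G hG
    obtain ⟨l, hl, h1⟩ := hstep (kerC (c i)) (hT _ (Fm.irrK i)) G hG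
    exact ⟨l, hl, hblk i _ le_rfl l hl G hG h1⟩
  have hsimp : ∀ i, BMo.Simp ρ ω (Ef ρ (c i)) := fun i =>
    simp_block hg φ hφ hR hω hS hρ Fm i (hT _ (Fm.irrK i))
  refine hL1' _ (BMo.glue_fam hS hL2 hLc' (fun i => Ef ρ (c i)) hBl (fun i j hij => Fm.ort ρ hij) (Fm.sum ρ) hone ?_
    X (hz X hX) Y (hz Y hY))
  intro i j hij G hG
  by_cases hne : BMo.gE ρ ω (Ef ρ (c i)) = ⊥
  · refine ⟨0, Submodule.zero_mem _, ?_, mul_zero _⟩
    have h1 := BMo.mul_gE (hBl i) hG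
    rw [hne, Submodule.mem_bot] at h1
    rw [h1, mul_zero]
  rcases BMo.goursat hS hL2 hLz (hBl i) (hBl j) (hsimp i) (hsimp j) (hone i) (hone j) hne with ⟨h1, -⟩ | ⟨κ, -, hκ⟩
  · exact h1 G hG
  -- the two handles
  obtain ⟨s, hs⟩ := hφ.hasRightInverse
  have hE : ∀ i, ∑ h, c i h • inn φ (s h) = Ef ρ (c i) := fun i => by
    unfold Ef
    exact sum_congr rfl fun h _ => by rw [← hρ, hs]
  obtain ⟨t, ht1, ht2, ht3, ht4⟩ := hT _ (Fm.irrK i)
  obtain ⟨t', ht1', ht2', ht3', ht4'⟩ := hT _ (Fm.irrK j)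
  have T : Tp.Tr φ (φ.comp (MulEquiv.toMonoidHom t)) t := ⟨ht1, ht2, fun x => rfl⟩
  have T' : Tp.Tr φ (φ.comp (MulEquiv.toMonoidHom t')) t' := ⟨ht1', ht2', fun x => rfl⟩
  obtain ⟨Na, Nb, a1, a2, a3, a4, a5⟩ := trace_formula' T hR s hs
  obtain ⟨Na', Nb', b1, b2, b3, b4, b5⟩ := trace_formula' T' hR s hs
  have e1 := hκ Na (hsq Na a1 a3).1 Nb (hsq Nb a2 a4).1 (hsq Na a1 a3).2 (hsq Nb a2 a4).2
  have e2 := hκ Na' (hsq Na' b1 b3).1 Nb' (hsq Nb' b2 b4).1 (hsq Na' b1 b3).2 (hsq Nb' b2 b4).2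
  rw [← hE i, ← hE j, a5, a5] at e1
  rw [← hE i, ← hE j, b5, b5] at e2
  have m1 : φ (t (a n (Fin.last g))) ∈ kerC (c i) := (QuotientGroup.eq_one_iff _).1 ht3
  have m2 : φ (t (b n (Fin.last g))) ∈ kerC (c i) := (QuotientGroup.eq_one_iff _).1 ht4
  have m3 : φ (t' (a n (Fin.last g))) ∈ kerC (c j) := (QuotientGroup.eq_one_iff _).1 ht3'
  have m4 : φ (t' (b n (Fin.last g))) ∈ kerC (c j) := (QuotientGroup.eq_one_iff _).1 ht4'
  have hc0 : ∀ i, c i ≠ 0 := fun i h => by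
    obtain ⟨x, hx⟩ := Fm.ne i
    exact hx (by rw [h]; rfl)
  obtain ⟨⟨m5, m6⟩, -⟩ := Ineq.two_handles (Fm.cl i) (Fm.idem i) (Fm.inv i) (hc0 i) (Fm.cl j) (Fm.idem j)
    (Fm.inv j) (hc0 j) (α := φ (t (a n (Fin.last g)))) (β := φ (t (b n (Fin.last g))))
    (α' := φ (t' (a n (Fin.last g)))) (β' := φ (t' (b n (Fin.last g)))) m1 m2 m3 m4 (κ := κ) e1 e2
  have ht : Triv ((QuotientGroup.mk' (kerC (c i) ⊓ kerC (c j))).comp φ) :=
    ⟨t, ht1, ht2, (QuotientGroup.eq_one_iff _).2 ⟨m1, m5⟩, (QuotientGroup.eq_one_iff _).2 ⟨m2, m6⟩⟩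
  have hG' : Ef ρ (c i) * G ∈ BMo.gg ρ ω := (hBl i).gg hG
  obtain ⟨l, hl, h1⟩ := hstep _ ht _ hG'
  refine ⟨l, hl, ?_, ?_⟩
  · rw [hblk i _ inf_le_left l hl _ hG' h1, ← mul_assoc, (hBl i).idem]
  · rw [hblk j _ inf_le_right l hl _ hG' h1, ← mul_assoc, Fm.ort ρ hij.symm, zero_mul]

end Pool.Agent.BM
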