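import Pool.Agent.Lib.MP_943dad_ag.BM.Defs

set_option linter.all false

/-!
# The cup product by primitives: existence, invariance
-/

namespace Pool.Agent.BM

open Pool.Agent.HMv

/-- the Heisenberg group -/
@[ext] structure Heis where
  /-- first coordinate -/
  x : ℂ
  /-- second coordinate -/
  y : ℂ
  /-- the central coordinate -/
  z : ℂ

namespace Heis

instance : Mul Heis := ⟨fun a b => ⟨a.x + b.x, a.y + b.y, a.z + b.z + a.x * b.y⟩⟩
instance : One Heis := ⟨⟨0, 0, 0⟩⟩
instance : Inv Heis := ⟨fun a => ⟨-a.x, -a.y, -a.z + a.x * a.y⟩⟩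

theorem mul_x (a b : Heis) : (a * b).x = a.x + b.x := rfl
theorem mul_y (a b : Heis) : (a * b).y = a.y + b.y := rfl
theorem mul_z (a b : Heis) : (a * b).z = a.z + b.z + a.x * b.y := rfl
theorem one_x : (1 : Heis).x = 0 := rfl
theorem one_y : (1 : Heis).y = 0 := rfl
theorem one_z : (1 : Heis).z = 0 := rfl
theorem inv_x (a : Heis) : (a⁻¹).x = -a.x := rfl
theorem inv_y (a : Heis) : (a⁻¹).y = -a.y := rfl
theorem inv_z (a : Heis) : (a⁻¹).z = -a.z + a.x * a.y := rfl

instance : Group Heis := Group.ofLeftAxioms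
  (fun a b c => by
    ext
    · simp only [mul_x]; ring
    · simp only [mul_y]; ring
    · simp only [mul_z, mul_x, mul_y]; ring)
  (fun a => by
    ext
    · simp only [mul_x, one_x]; ring
    · simp only [mul_y, one_y]; ring
    · simp only [mul_z, one_x, one_z]; ring)
  (fun a => by
    ext
    · simp only [mul_x, inv_x, one_x]; ring
    · simp only [mul_y, inv_y, one_y]; ring
    · simp only [mul_z, inv_z, inv_x, one_z]; ring)

end Heis

/-- primitives exist on a free group -/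
theorem exists_prim_free {K : Type} [Group K] [IsFreeGroup K] {u v : K → ℂ}
    (hu : ∀ x y, u (x * y) = u x + u y) (hv : ∀ x y, v (x * y) = v x + v y) :
    ∃ P : K → ℂ, ∀ x y, P (x * y) = P x + P y + u x * v y := by
  have hu1 : u 1 = 0 := by
    have h := hu 1 1
    rw [mul_one] at h
    linear_combination -h
  have hv1 : v 1 = 0 := by
    have h := hv 1 1
    rw [mul_one] at h
    linear_combination -h
  let Ψ : K →* Heis := IsFreeGroup.lift (fun g => (⟨u (IsFreeGroup.of g), v (IsFreeGroup.of g), 0⟩ : Heis))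
  let px : Heis →* Multiplicative ℂ :=
    { toFun := fun a => Multiplicative.ofAdd a.x
      map_one' := rfl
      map_mul' := fun a b => rfl }
  let py : Heis →* Multiplicative ℂ :=
    { toFun := fun a => Multiplicative.ofAdd a.y
      map_one' := rfl
      map_mul' := fun a b => rfl }
  let U : K →* Multiplicative ℂ :=
    { toFun := fun a => Multiplicative.ofAdd (u a)
      map_one' := by rw [hu1]; rfl
      map_mul' := fun a b => by rw [hu]; rfl }
  let W : K →* Multiplicative ℂ :=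
    { toFun := fun a => Multiplicative.ofAdd (v a)
      map_one' := by rw [hv1]; rfl
      map_mul' := fun a b => by rw [hv]; rfl }
  have hx : px.comp Ψ = U := by
    refine IsFreeGroup.ext_hom fun g => ?_
    simp [Ψ, px, U]
  have hy : py.comp Ψ = W := by
    refine IsFreeGroup.ext_hom fun g => ?_
    simp [Ψ, py, W]
  have hx' : ∀ a, (Ψ a).x = u a := fun a => congrArg Multiplicative.toAdd (DFunLike.congr_fun hx a)
  have hy' : ∀ a, (Ψ a).y = v a := fun a => congrArg Multiplicative.toAdd (DFunLike.congr_fun hy a)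
  refine ⟨fun a => (Ψ a).z, fun a b => ?_⟩
  simp only
  rw [map_mul, Heis.mul_z, hx', hy']

section general

variable {F H : Type} [Group F] [Group H]

/-- `u` is additive on the kernel -/
def AddK (φ : F →* H) (u : F → ℂ) : Prop := ∀ x y, φ x = 1 → φ y = 1 → u (x * y) = u x + u y

/-- `P` is a primitive of `(u, v)` on the kernel -/
def PrimK (φ : F →* H) (u v P : F → ℂ) : Prop :=
  ∀ x y, φ x = 1 → φ y = 1 → P (x * y) = P x + P y + u x * v y

variable {φ : F →* H} {u v P Q : F → ℂ}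

theorem AddK.one (hu : AddK φ u) : u 1 = 0 := by
  have h := hu 1 1 (map_one _) (map_one _)
  rw [mul_one] at h
  linear_combination -h

theorem AddK.inv (hu : AddK φ u) {x : F} (hx : φ x = 1) : u x⁻¹ = - u x := by
  have h := hu x x⁻¹ hx (by rw [map_inv, hx, inv_one])
  rw [mul_inv_cancel, hu.one] at h
  linear_combination -h

theorem PrimK.one (hu : AddK φ u) (hP : PrimK φ u v P) : P 1 = 0 := by
  have h := hP 1 1 (map_one _) (map_one _)
  rw [mul_one, hu.one] at h
  linear_combination -h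

theorem PrimK.inv (hu : AddK φ u) (hv : AddK φ v) (hP : PrimK φ u v P) {x : F} (hx : φ x = 1) :
    P x⁻¹ = - P x + u x * v x := by
  have h := hP x x⁻¹ hx (by rw [map_inv, hx, inv_one])
  rw [mul_inv_cancel, PrimK.one hu hP, hv.inv hx] at h
  linear_combination -h

/-- conjugation of an element on which `u` and `v` vanish -/
theorem PrimK.conj (hu : AddK φ u) (hv : AddK φ v) (hP : PrimK φ u v P) {x N : F} (hx : φ x = 1)
    (hN : φ N = 1) (h1 : u N = 0) (h2 : v N = 0) : P (x * N * x⁻¹) = P N := by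
  have hi : φ x⁻¹ = 1 := by rw [map_inv, hx, inv_one]
  have hxN : φ (x * N) = 1 := by rw [map_mul, hx, hN, one_mul]
  rw [hP _ _ hxN hi, hP _ _ hx hN, PrimK.inv hu hv hP hx, hu _ _ hx hN, hv.inv hx, h1, h2]
  ring

theorem PrimK.comm (hu : AddK φ u) (hv : AddK φ v) (hP : PrimK φ u v P) {x y : F} (hx : φ x = 1)
    (hy : φ y = 1) : P (x * y * x⁻¹ * y⁻¹) = u x * v y - u y * v x := by
  have hix : φ x⁻¹ = 1 := by rw [map_inv, hx, inv_one]
  have hiy : φ y⁻¹ = 1 := by rw [map_inv, hy, inv_one]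
  have hxy : φ (x * y) = 1 := by rw [map_mul, hx, hy, one_mul]
  have hxyx : φ (x * y * x⁻¹) = 1 := by rw [map_mul, hxy, hix, one_mul]
  rw [hP _ _ hxyx hiy, hP _ _ hxy hix, hP _ _ hx hy, PrimK.inv hu hv hP hx, PrimK.inv hu hv hP hy,
    hu _ _ hxy hix, hu _ _ hx hy, hu.inv hx, hv.inv hx, hv.inv hy]
  ring

theorem PrimK.sub (hP : PrimK φ u v P) (hQ : PrimK φ u v Q) : AddK φ (fun x => P x - Q x) := by
  intro x y hx hy
  simp only [hP x y hx hy, hQ x y hx hy]
  ring

/-- conjugates by elements with the same image -/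
theorem PrimK.conj_eq (hu : AddK φ u) (hv : AddK φ v) (hP : PrimK φ u v P) {N : F} (hN : φ N = 1)
    (h1 : ∀ x, u (x * N * x⁻¹) = 0) (h2 : ∀ x, v (x * N * x⁻¹) = 0) {x y : F} (hxy : φ x = φ y) :
    P (x * N * x⁻¹) = P (y * N * y⁻¹) := by
  have h3 : x * N * x⁻¹ = (x * y⁻¹) * (y * N * y⁻¹) * (x * y⁻¹)⁻¹ := by group
  rw [h3, PrimK.conj hu hv hP (by rw [map_mul, map_inv, hxy, mul_inv_cancel])
    (by rw [map_mul, map_mul, map_inv, hN, mul_one, mul_inv_cancel]) (h1 y) (h2 y)]

variable [Fintype H]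

/-- the sum over the conjugates does not depend on the representatives -/
theorem PrimK.sum_eq (hu : AddK φ u) (hv : AddK φ v) (hP : PrimK φ u v P) {N : F} (hN : φ N = 1)
    (h1 : ∀ x, u (x * N * x⁻¹) = 0) (h2 : ∀ x, v (x * N * x⁻¹) = 0) {s t : H → F}
    (hs : ∀ h, φ (s h) = h) (σ : H ≃ H) (ht : ∀ h, φ (t h) = σ h) :
    ∑ h, P (t h * N * (t h)⁻¹) = ∑ h, P (s h * N * (s h)⁻¹) := by
  rw [← Equiv.sum_comp σ (fun h => P (s h * N * (s h)⁻¹))]
  exact Finset.sum_congr rfl fun h _ => PrimK.conj_eq hu hv hP hN h1 h2 (by rw [ht, hs])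

/-- the transfer of an additive function -/
theorem tr_mul (hQ : AddK φ Q) {s : H → F} (hs : ∀ h, φ (s h) = h) (y z : F) :
    ∑ h, Q (s h * (y * z) * (s (h * φ (y * z)))⁻¹) =
      ∑ h, Q (s h * y * (s (h * φ y))⁻¹) + ∑ h, Q (s h * z * (s (h * φ z))⁻¹) := by
  rw [← Equiv.sum_comp (Equiv.mulRight (φ y)) (fun h => Q (s h * z * (s (h * φ z))⁻¹)),
    ← Finset.sum_add_distrib]
  refine Finset.sum_congr rfl fun h _ => ?_
  rw [Equiv.coe_mulRight, ← hQ]
  · congr 1
    rw [map_mul, mul_assoc h]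
    group
  · rw [map_mul, map_mul, map_inv, hs, hs]
    group
  · rw [map_mul, map_mul, map_inv, hs, hs]
    group

/-- the transfer as a homomorphism -/
noncomputable def trHom (hQ : AddK φ Q) {s : H → F} (hs : ∀ h, φ (s h) = h) : F →* Multiplicative ℂ where
  toFun y := Multiplicative.ofAdd (∑ h, Q (s h * y * (s (h * φ y))⁻¹))
  map_one' := by
    have h1 : ∑ h, Q (s h * 1 * (s (h * φ (1 : F)))⁻¹) = 0 := by
      refine Finset.sum_eq_zero fun h _ => ?_
      rw [map_one, mul_one, mul_one, mul_inv_cancel, hQ.one]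
    rw [h1]
    rfl
  map_mul' y z := by
    rw [tr_mul hQ hs]
    rfl

theorem trHom_ker (hQ : AddK φ Q) {s : H → F} (hs : ∀ h, φ (s h) = h) {y : F} (hy : φ y = 1) :
    Multiplicative.toAdd (trHom hQ hs y) = ∑ h, Q (s h * y * (s h)⁻¹) := by
  change ∑ h, Q (s h * y * (s (h * φ y))⁻¹) = _
  simp only [hy, mul_one]

/-- primitives exist if the kernel is free -/
theorem exists_primK {F H : Type} [Group F] [Group H] {φ : F →* H} [IsFreeGroup φ.ker] {u v : F → ℂ}
    (hu : AddK φ u) (hv : AddK φ v) : ∃ P, PrimK φ u v P := by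
  classical
  obtain ⟨P, hP⟩ := exists_prim_free (K := φ.ker) (u := fun x => u x.1) (v := fun x => v x.1)
    (fun x y => hu x.1 y.1 x.2 y.2) (fun x y => hv x.1 y.1 x.2 y.2)
  refine ⟨fun x => if h : φ x = 1 then P ⟨x, h⟩ else 0, fun x y hx hy => ?_⟩
  have hxy : φ (x * y) = 1 := by rw [map_mul, hx, hy, mul_one]
  simp only [dif_pos hx, dif_pos hy, dif_pos hxy]
  exact hP ⟨x, hx⟩ ⟨y, hy⟩

end general

section surface

variable {H : Type} [Group H] [Fintype H] {g n : ℕ}

/-- the boundary relation -/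
theorem boundary {φ : F g n →* H} (hR : φ (R g n) = 1) {Q : F g n → ℂ} (hQ : AddK φ Q) {s : H → F g n}
    (hs : ∀ h, φ (s h) = h) : ∑ h, Q (s h * R g n * (s h)⁻¹) =
      ∑ j : Fin n, (1 / (orderOf (φ (c g j)) : ℂ)) *
        ∑ h, Q (s h * c g j ^ orderOf (φ (c g j)) * (s h)⁻¹) := by
  rw [← trHom_ker hQ hs hR]
  have h1 : Multiplicative.toAdd (trHom hQ hs (R g n)) =
      ∑ j : Fin n, Multiplicative.toAdd (trHom hQ hs (c g j)) := by
    unfold R
    rw [map_mul, map_list_prod, map_list_prod, List.map_ofFn, List.map_ofFn]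
    have h2 : (List.ofFn ((trHom hQ hs) ∘ fun i : Fin g => a n i * b n i * (a n i)⁻¹ * (b n i)⁻¹)).prod = 1 := by
      rw [List.prod_ofFn]
      refine Finset.prod_eq_one fun i _ => ?_
      simp only [Function.comp_apply, map_mul, map_inv]
      rw [mul_assoc, mul_assoc, mul_comm, mul_assoc]
      simp
    rw [h2, one_mul, List.prod_ofFn, toAdd_prod]
    rfl
  rw [h1]
  refine Finset.sum_congr rfl fun j _ => ?_
  have ho : (orderOf (φ (c g j)) : ℂ) ≠ 0 := by
    have h3 : 0 < orderOf (φ (c g j)) := orderOf_pos _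
    exact_mod_cast h3.ne'
  have h4 : φ (c g j ^ orderOf (φ (c g j))) = 1 := by
    rw [map_pow, pow_orderOf_eq_one]
  rw [← trHom_ker hQ hs h4, map_pow, toAdd_pow, nsmul_eq_mul]
  field_simp


/-- the functional which defines the cup product -/
noncomputable def Lam (φ : F g n →* H) (s : H → F g n) (P : F g n → ℂ) : ℂ :=
  ∑ h, P (s h * R g n * (s h)⁻¹) - ∑ j : Fin n, (1 / (orderOf (φ (c g j)) : ℂ)) *
        ∑ h, P (s h * c g j ^ orderOf (φ (c g j)) * (s h)⁻¹)

variable {φ : F g n →* H}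

theorem lam_add (s : H → F g n) (P Q : F g n → ℂ) :
    Lam φ s (fun x => P x + Q x) = Lam φ s P + Lam φ s Q := by
  simp only [Lam, Finset.sum_add_distrib, mul_add]
  ring

theorem lam_sub (s : H → F g n) (P Q : F g n → ℂ) :
    Lam φ s (fun x => P x - Q x) = Lam φ s P - Lam φ s Q := by
  simp only [Lam, Finset.sum_sub_distrib, mul_sub]
  ring

theorem lam_smul (s : H → F g n) (t : ℂ) (P : F g n → ℂ) :
    Lam φ s (fun x => t * P x) = t * Lam φ s P := by
  simp only [Lam, mul_sub, Finset.mul_sum]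
  congr 1
  refine Finset.sum_congr rfl fun j _ => Finset.sum_congr rfl fun h _ => ?_
  ring

theorem lam_addK (hR : φ (R g n) = 1) {Q : F g n → ℂ} (hQ : AddK φ Q) {s : H → F g n}
    (hs : ∀ h, φ (s h) = h) : Lam φ s Q = 0 := by
  rw [Lam, boundary hR hQ hs, sub_self]

theorem coh_addK (f : Coh φ) : AddK φ f.1 := f.2.2.1

theorem coh_R (f : Coh φ) (x : F g n) : f.1 (x * R g n * x⁻¹) = 0 := f.2.2.2.1 x

theorem coh_c (f : Coh φ) (x : F g n) (j : Fin n) :
    f.1 (x * c g j ^ orderOf (φ (c g j)) * x⁻¹) = 0 := f.2.2.2.2 x j _ (pow_orderOf_eq_one _)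

theorem c_ord (φ : F g n →* H) (j : Fin n) : φ (c g j ^ orderOf (φ (c g j))) = 1 := by
  rw [map_pow, pow_orderOf_eq_one]

theorem lam_unique (hR : φ (R g n) = 1) (f f' : Coh φ) {P Q : F g n → ℂ} (hP : PrimK φ f.1 f'.1 P)
    (hQ : PrimK φ f.1 f'.1 Q) {s t : H → F g n} (hs : ∀ h, φ (s h) = h) (ht : ∀ h, φ (t h) = h) :
    Lam φ s P = Lam φ t Q := by
  have h1 : Lam φ s P = Lam φ t P := by
    unfold Lam
    rw [PrimK.sum_eq (coh_addK f) (coh_addK f') hP hR (coh_R f) (coh_R f') ht (Equiv.refl H) hs]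
    congr 1
    refine Finset.sum_congr rfl fun j _ => ?_
    rw [PrimK.sum_eq (coh_addK f) (coh_addK f') hP (c_ord φ j) (fun x => coh_c f x j)
      (fun x => coh_c f' x j) ht (Equiv.refl H) hs]
  rw [h1, ← sub_eq_zero, ← lam_sub]
  exact lam_addK hR (PrimK.sub hP hQ) ht

theorem exists_primC (f f' : Coh φ) : ∃ P, PrimK φ f.1 f'.1 P :=
  exists_primK (coh_addK f) (coh_addK f')

/-- the value of the form -/
noncomputable def formVal (hs : Function.Surjective φ) (f f' : Coh φ) : ℂ :=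
  Lam φ (Function.surjInv hs) (exists_primC f f').choose

theorem formVal_eq (hs : Function.Surjective φ) (hR : φ (R g n) = 1) (f f' : Coh φ) {P : F g n → ℂ}
    (hP : PrimK φ f.1 f'.1 P) {s : H → F g n} (h1 : ∀ h, φ (s h) = h) : formVal hs f f' = Lam φ s P :=
  lam_unique hR f f' (exists_primC f f').choose_spec hP (Function.surjInv_eq hs) h1

/-- The form. -/
noncomputable def form (hs : Function.Surjective φ) (hR : φ (R g n) = 1) :
    LinearMap.BilinForm ℂ (Coh φ) :=
  LinearMap.mk₂ ℂ (formVal hs)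
    (fun f f' e => by
      obtain ⟨P, hP⟩ := exists_primC f e
      obtain ⟨Q, hQ⟩ := exists_primC f' e
      rw [formVal_eq hs hR f e hP (Function.surjInv_eq hs), formVal_eq hs hR f' e hQ (Function.surjInv_eq hs),
        ← lam_add]
      refine formVal_eq hs hR _ _ (fun x y hx hy => ?_) (Function.surjInv_eq hs)
      simp only [hP x y hx hy, hQ x y hx hy, Submodule.coe_add, Pi.add_apply]
      ring)
    (fun t f e => by
      obtain ⟨P, hP⟩ := exists_primC f e
      rw [formVal_eq hs hR f e hP (Function.surjInv_eq hs), smul_eq_mul, ← lam_smul]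
      refine formVal_eq hs hR _ _ (fun x y hx hy => ?_) (Function.surjInv_eq hs)
      simp only [hP x y hx hy, Submodule.coe_smul, Pi.smul_apply, smul_eq_mul]
      ring)
    (fun e f f' => by
      obtain ⟨P, hP⟩ := exists_primC e f
      obtain ⟨Q, hQ⟩ := exists_primC e f'
      rw [formVal_eq hs hR e f hP (Function.surjInv_eq hs), formVal_eq hs hR e f' hQ (Function.surjInv_eq hs),
        ← lam_add]
      refine formVal_eq hs hR _ _ (fun x y hx hy => ?_) (Function.surjInv_eq hs)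
      simp only [hP x y hx hy, hQ x y hx hy, Submodule.coe_add, Pi.add_apply]
      ring)
    (fun t e f => by
      obtain ⟨P, hP⟩ := exists_primC e f
      rw [formVal_eq hs hR e f hP (Function.surjInv_eq hs), smul_eq_mul, ← lam_smul]
      refine formVal_eq hs hR _ _ (fun x y hx hy => ?_) (Function.surjInv_eq hs)
      simp only [hP x y hx hy, Submodule.coe_smul, Pi.smul_apply, smul_eq_mul]
      ring)

/-- the value of the form by any primitive and any section -/
theorem form_eq (hs : Function.Surjective φ) (hR : φ (R g n) = 1) (f f' : Coh φ) {P : F g n → ℂ}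
    (hP : PrimK φ f.1 f'.1 P) {s : H → F g n} (h1 : ∀ h, φ (s h) = h) : form hs hR f f' = Lam φ s P :=
  formVal_eq hs hR f f' hP h1

theorem form_self (hs : Function.Surjective φ) (hR : φ (R g n) = 1) (f : Coh φ) : form hs hR f f = 0 := by
  have hP : PrimK φ f.1 f.1 (fun x => f.1 x * f.1 x / 2) := by
    intro x y hx hy
    simp only [coh_addK f x y hx hy]
    ring
  rw [form_eq hs hR f f hP (Function.surjInv_eq hs), Lam]
  simp only [coh_R, coh_c]
  simp

theorem form_inn (hs : Function.Surjective φ) (hR : φ (R g n) = 1) (y : F g n) (f f' : Coh φ) :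
    form hs hR (inn φ y f) (inn φ y f') = form hs hR f f' := by
  obtain ⟨P, hP⟩ := exists_primC f f'
  have hQ : PrimK φ (inn φ y f).1 (inn φ y f').1 (fun x => P (y⁻¹ * x * y)) := by
    intro x z hx hz
    have h5 : y⁻¹ * (x * z) * y = (y⁻¹ * x * y) * (y⁻¹ * z * y) := by group
    simp only [inn_apply]
    rw [h5, hP _ _ (by simp [hx]) (by simp [hz])]
  rw [form_eq hs hR _ _ hQ (Function.surjInv_eq hs), form_eq hs hR _ _ hP (Function.surjInv_eq hs)]
  set s := Function.surjInv hs with hs0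
  have hs1 : ∀ h, φ (s h) = h := Function.surjInv_eq hs
  have h6 : ∀ h, φ (y⁻¹ * s h) = Equiv.mulLeft (φ y)⁻¹ h := by
    intro h
    rw [map_mul, map_inv, hs1, Equiv.coe_mulLeft]
  have h7 : ∀ (N : F g n) (h : H), y⁻¹ * (s h * N * (s h)⁻¹) * y = (y⁻¹ * s h) * N * (y⁻¹ * s h)⁻¹ := by
    intro N h
    group
  unfold Lam
  simp only [h7]
  rw [PrimK.sum_eq (coh_addK f) (coh_addK f') hP hR (coh_R f) (coh_R f') hs1 _ h6]
  congr 1
  refine Finset.sum_congr rfl fun j _ => ?_
  rw [PrimK.sum_eq (coh_addK f) (coh_addK f') hP (c_ord φ j) (fun x => coh_c f x j)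
      (fun x => coh_c f' x j) hs1 _ h6]

theorem form_mon (hs : Function.Surjective φ) (hR : φ (R g n) = 1) (α : Stab φ) (f f' : Coh φ) :
    form hs hR (mon φ α f) (mon φ α f') = form hs hR f f' := by
  obtain ⟨P, hP⟩ := exists_primC f f'
  obtain ⟨k1, k2, k3⟩ := (α⁻¹ : Stab φ).2
  have hQ : PrimK φ (mon φ α f).1 (mon φ α f').1 (fun x => P ((α⁻¹ : Stab φ).1 x)) := by
    intro x z hx hz
    simp only [mon_apply]
    rw [map_mul, hP _ _ (by rw [k3, hx]) (by rw [k3, hz])]
  rw [form_eq hs hR _ _ hQ (Function.surjInv_eq hs), form_eq hs hR _ _ hP (Function.surjInv_eq hs)]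
  set s := Function.surjInv hs with hs0
  have hs1 : ∀ h, φ (s h) = h := Function.surjInv_eq hs
  unfold Lam
  congr 1
  · have h6 : ∀ h, φ ((α⁻¹ : Stab φ).1 (s h)) = Equiv.refl H h := by
      intro h
      rw [k3, hs1, Equiv.refl_apply]
    rw [← PrimK.sum_eq (coh_addK f) (coh_addK f') hP hR (coh_R f) (coh_R f') hs1 _ h6]
    refine Finset.sum_congr rfl fun h _ => ?_
    beta_reduce
    rw [map_mul, map_mul, map_inv, k1]
  · refine Finset.sum_congr rfl fun j _ => ?_
    obtain ⟨d, hd⟩ := isConj_iff.1 (k2 j).symm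
    have h6 : ∀ h, φ ((α⁻¹ : Stab φ).1 (s h) * d) = Equiv.mulRight (φ d) h := by
      intro h
      rw [map_mul, k3, hs1, Equiv.coe_mulRight]
    rw [← PrimK.sum_eq (coh_addK f) (coh_addK f') hP (c_ord φ j) (fun x => coh_c f x j)
      (fun x => coh_c f' x j) hs1 _ h6]
    congr 1
    refine Finset.sum_congr rfl fun h _ => ?_
    beta_reduce
    rw [map_mul, map_mul, map_inv, map_pow, ← hd, conj_pow]
    congr 1
    group

/-- The form exists. -/
theorem exists_form (hs : Function.Surjective φ) (hR : φ (R g n) = 1) :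
    ∃ ω : LinearMap.BilinForm ℂ (Coh φ), (∀ f, ω f f = 0) ∧
      (∀ y f f', ω (inn φ y f) (inn φ y f') = ω f f') ∧
      (∀ α f f', ω (mon φ α f) (mon φ α f') = ω f f') ∧
      ∀ f f' P, PrimK φ f.1 f'.1 P → ∀ s : H → F g n, (∀ h, φ (s h) = h) → ω f f' = Lam φ s P :=
  ⟨form hs hR, form_self hs hR, form_inn hs hR, form_mon hs hR,
    fun f f' P hP s h1 => form_eq hs hR f f' hP h1⟩

end surface

end Pool.Agent.BM
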