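import Mathlib
import Pool.Agent.Lib.MP_943dad_ag.HMv.Defs

set_option linter.all false

/-!
Homomorphisms which are trivial on a handle.
-/

namespace Pool.Agent.BM

open Pool.Agent.HMv

/-- `ψ` is trivial on a handle: for a mapping class `t` it is trivial on the images of the last `a` and the last `b`. -/
def TrivH {Q : Type} [Group Q] {g n : ℕ} (ψ : F g n →* Q) : Prop :=
  ∃ t : MulAut (F g n), t (R g n) = R g n ∧ (∀ j : Fin n, IsConj (t (c g j)) (c g j)) ∧
    ∃ i : Fin g, i.val + 1 = g ∧ ψ (t (a n i)) = 1 ∧ ψ (t (b n i)) = 1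

end Pool.Agent.BM
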