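import Pool.Agent.Lib.MP_943dad_ag.BM.Pair
import Pool.Agent.Lib.MP_943dad_ag.BM.Gen

set_option linter.all false

/-!
# The cup product is non-degenerate
-/

namespace Pool.Agent.BM

open Pool.Agent.HMv

variable {H : Type} [Group H] [Fintype H] {g n : ℕ} {φ : F g n →* H}

/-- The form is non-degenerate, if the unipotent elements `N_w` of the mapping class group are given. -/
theorem nondeg {ω : LinearMap.BilinForm ℂ (Coh φ)} (hω : ∀ f f' P, PrimK φ f.1 f'.1 P →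
    ∀ s : H → F g n, (∀ h, φ (s h) = h) → ω f f' = Lam φ s P)
    (hmon : ∀ α f f', ω (mon φ α f) (mon φ α f') = ω f f') (hs : Function.Surjective φ)
    (hR : φ (R g n) = 1) {i : Fin g} (ha : φ (a n i) = 1) (hb : φ (b n i) = 1)
    (hN : ∀ w ∈ Xs n i, φ w = 1 → ∃ N : Module.End ℂ (Coh φ), N * N * N = 0 ∧
      (∃ α : Stab φ, mon φ α = 1 + N + (1 / 2 : ℂ) • (N * N)) ∧
      ∀ f : Coh φ, (∀ x, f.1 (x * b n i * x⁻¹) = 0) → ∀ y, (N f).1 (y * a n i * y⁻¹) = f.1 (y * w * y⁻¹))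
    {f : Coh φ} (hf : ∀ f', ω f f' = 0) : f = 0 := by
  classical
  obtain ⟨p, hpa, hpb, hp⟩ := exists_dual (n := n) (i := i) hR ha hb (fun h : H => if h = 1 then 1 else 0)
    (fun _ => 0)
  obtain ⟨q, hqa, hqb, hq⟩ := exists_dual (n := n) (i := i) hR ha hb (fun _ : H => 0)
    (fun h => if h = 1 then 1 else 0)
  refine nondeg_of hω hmon hs hR ha hb (p := p) (q := q) (fun x hx hx1 => ?_) (fun x hx hx1 => ?_)
    (fun x => ?_) hpb hqa (fun x => ?_) (fun f h0 h1 h2 => coh_eq_zero ha hb f h0 h1 h2) hN hf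
  · simpa using hp 1 x hx hx1
  · simpa using hq 1 x hx hx1
  · rw [hpa]
    simp
  · rw [hqb]
    simp

/-- The form exists: alternating, non-degenerate, invariant under the deck group and under the mapping classes. -/
theorem exists_form_nondeg (hs : Function.Surjective φ)
    (hR : φ (R g n) = 1) {i : Fin g} (ha : φ (a n i) = 1) (hb : φ (b n i) = 1)
    (hN : ∀ w ∈ Xs n i, φ w = 1 → ∃ N : Module.End ℂ (Coh φ), N * N * N = 0 ∧
      (∃ α : Stab φ, mon φ α = 1 + N + (1 / 2 : ℂ) • (N * N)) ∧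
      ∀ f : Coh φ, (∀ x, f.1 (x * b n i * x⁻¹) = 0) → ∀ y, (N f).1 (y * a n i * y⁻¹) = f.1 (y * w * y⁻¹)) :
    ∃ ω : LinearMap.BilinForm ℂ (Coh φ), (∀ f, ω f f = 0) ∧ (∀ f, (∀ f', ω f f' = 0) → f = 0) ∧
      (∀ y f f', ω (inn φ y f) (inn φ y f') = ω f f') ∧
      (∀ α f f', ω (mon φ α f) (mon φ α f') = ω f f') ∧
      ∀ f f' P, PrimK φ f.1 f'.1 P → ∀ s : H → F g n, (∀ h, φ (s h) = h) → ω f f' = Lam φ s P := by
  obtain ⟨ω, h1, h2, h3, h4⟩ := exists_form hs hR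
  exact ⟨ω, h1, fun f hf => nondeg h4 h3 hs hR ha hb hN hf, h2, h3, h4⟩

end Pool.Agent.BM
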