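import Pool.Agent.Lib.MP_943dad_ag.BM.Form
import Pool.Agent.Lib.MP_943dad_ag.BM.Spl

set_option linter.all false

/-!
# The cup product at one handle, and non-degeneracy
-/

namespace Pool.Agent.BM

open Pool.Agent.HMv

/-- the retraction of `F g n` onto the subgroup `Xs n i`, which kills `a_i` and `b_i` -/
def ret {g : ℕ} (n : ℕ) (i : Fin g) : F g n →* F g n :=
  FreeGroup.lift (fun s => Sum.elim (fun t : Fin g × Bool => if t.1 = i then 1 else FreeGroup.of (Sum.inl t))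
    (fun j => FreeGroup.of (Sum.inr j)) s)

theorem ret_a {g : ℕ} (n : ℕ) (i : Fin g) : ret n i (a n i) = 1 := by
  simp [ret, a]

theorem ret_b {g : ℕ} (n : ℕ) (i : Fin g) : ret n i (b n i) = 1 := by
  simp [ret, b]

theorem ret_Xs {g n : ℕ} {i : Fin g} {x : F g n} (hx : x ∈ Xs n i) : ret n i x = x := by
  unfold Xs at hx
  induction hx using Subgroup.closure_induction with
  | mem x hx =>
    rcases hx with ⟨j, hj, rfl | rfl⟩ | ⟨j, rfl⟩
    · simp [ret, a, hj]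
    · simp [ret, b, hj]
    · simp [ret, c]
  | one => exact map_one _
  | mul x y _ _ h1 h2 => rw [map_mul, h1, h2]
  | inv x _ h1 => rw [map_inv, h1]

theorem ret_mem {g n : ℕ} {i : Fin g} (x : F g n) : ret n i x ∈ Xs n i := by
  have h1 : x ∈ (Xs n i).comap (ret n i) := by
    refine mem_of_Xs (i := i) (fun y hy => ?_) ?_ ?_ x
    · rw [Subgroup.mem_comap, ret_Xs hy]
      exact hy
    · rw [Subgroup.mem_comap, ret_a]
      exact one_mem _
    · rw [Subgroup.mem_comap, ret_b]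
      exact one_mem _
  exact h1

theorem phi_ret {H : Type} [Group H] {g n : ℕ} {φ : F g n →* H} {i : Fin g} (ha : φ (a n i) = 1)
    (hb : φ (b n i) = 1) (x : F g n) : φ (ret n i x) = φ x := by
  have h1 : x ∈ (φ.comp (ret n i)).eqLocus φ := by
    refine mem_of_Xs (i := i) (fun y hy => ?_) ?_ ?_ x
    · change φ (ret n i y) = φ y
      rw [ret_Xs hy]
    · change φ (ret n i (a n i)) = φ (a n i)
      rw [ret_a, ha, map_one]
    · change φ (ret n i (b n i)) = φ (b n i)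
      rw [ret_b, hb, map_one]
  exact h1

/-- the values at conjugates depend on the image of the conjugating element only -/
theorem AddK.conj_eq {F H : Type} [Group F] [Group H] {φ : F →* H} {u : F → ℂ} (hu : AddK φ u)
    {x y N : F} (hN : φ N = 1) (hxy : φ x = φ y) : u (x * N * x⁻¹) = u (y * N * y⁻¹) := by
  have h3 : x * N * x⁻¹ = (x * y⁻¹) * (y * N * y⁻¹) * (x * y⁻¹)⁻¹ := by group
  have h4 : φ (x * y⁻¹) = 1 := by rw [map_mul, map_inv, hxy, mul_inv_cancel]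
  have h5 : φ (y * N * y⁻¹) = 1 := by rw [map_mul, map_mul, map_inv, hN, mul_one, mul_inv_cancel]
  rw [h3, hu _ _ (by rw [map_mul, h4, h5, one_mul]) (by rw [map_inv, h4, inv_one]), hu _ _ h4 h5,
    hu.inv h4]
  ring

section

variable {H : Type} [Group H] [Fintype H] {g n : ℕ} {φ : F g n →* H}

/-- the product at one handle -/
theorem pair_handle {ω : LinearMap.BilinForm ℂ (Coh φ)} (hω : ∀ f f' P, PrimK φ f.1 f'.1 P →
    ∀ s : H → F g n, (∀ h, φ (s h) = h) → ω f f' = Lam φ s P) (hR : φ (R g n) = 1) {i : Fin g}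
    (ha : φ (a n i) = 1) (hb : φ (b n i) = 1) (f f' : Coh φ)
    (hf' : ∀ x ∈ Xs n i, φ x = 1 → f'.1 x = 0) {s : H → F g n} (hs : ∀ h, φ (s h) = h) :
    ω f f' = ∑ h, (f.1 (s h * a n i * (s h)⁻¹) * f'.1 (s h * b n i * (s h)⁻¹) -
      f.1 (s h * b n i * (s h)⁻¹) * f'.1 (s h * a n i * (s h)⁻¹)) := by
  obtain ⟨P, hP⟩ := exists_primC f f'
  obtain ⟨A, hA, B, hB, hAB⟩ := R_split (n := n) i
  set t : H → F g n := fun h => ret n i (s h) with ht0
  have ht : ∀ h, φ (t h) = h := fun h => by rw [ht0]; simp only; rw [phi_ret ha hb, hs]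
  have htX : ∀ h, t h ∈ Xs n i := fun h => ret_mem _
  have hu := coh_addK f
  have hv := coh_addK f'
  have hcm : φ (a n i * b n i * (a n i)⁻¹ * (b n i)⁻¹) = 1 := by
    simp [ha, hb]
  have hAB1 : φ (A * B) = 1 := by
    rw [hAB, map_mul, map_mul, hcm, mul_one, ← map_mul] at hR
    exact hR
  -- the additive function
  have hQ : AddK φ (fun x => P (ret n i x)) := by
    intro x y hx hy
    have h1 : f'.1 (ret n i y) = 0 := hf' _ (ret_mem y) (by rw [phi_ret ha hb, hy])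
    simp only
    rw [map_mul, hP _ _ (by rw [phi_ret ha hb, hx]) (by rw [phi_ret ha hb, hy]), h1]
    ring
  have hbd := boundary hR hQ ht
  have hretR : ret n i (R g n) = A * B := by
    rw [hAB]
    simp only [map_mul, map_inv, ret_a, ret_b, ret_Xs hA, ret_Xs hB]
    group
  have h1 : ∀ h, P (ret n i (t h * R g n * (t h)⁻¹)) = P (t h * (A * B) * (t h)⁻¹) := by
    intro h
    rw [map_mul, map_mul, map_inv, hretR, ret_Xs (htX h)]
  have h2 : ∀ h (j : Fin n), P (ret n i (t h * c g j ^ orderOf (φ (c g j)) * (t h)⁻¹)) =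
      P (t h * c g j ^ orderOf (φ (c g j)) * (t h)⁻¹) := by
    intro h j
    rw [map_mul, map_mul, map_inv, map_pow, ret_Xs (htX h), ret_Xs (c_mem_Xs i j)]
  simp only [h1, h2] at hbd
  -- the product formula
  have h3 : ∀ h, P (t h * R g n * (t h)⁻¹) =
      (f.1 ((t h * A) * a n i * (t h * A)⁻¹) * f'.1 ((t h * A) * b n i * (t h * A)⁻¹) -
      f.1 ((t h * A) * b n i * (t h * A)⁻¹) * f'.1 ((t h * A) * a n i * (t h * A)⁻¹)) +
      P (t h * (A * B) * (t h)⁻¹) := by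
    intro h
    have h4 : t h * R g n * (t h)⁻¹ = (((t h * A) * a n i * (t h * A)⁻¹) * ((t h * A) * b n i * (t h * A)⁻¹) *
        ((t h * A) * a n i * (t h * A)⁻¹)⁻¹ * ((t h * A) * b n i * (t h * A)⁻¹)⁻¹) *
        (t h * (A * B) * (t h)⁻¹) := by
      rw [hAB]
      group
    have h5 : φ ((t h * A) * a n i * (t h * A)⁻¹) = 1 := by simp [ha]
    have h6 : φ ((t h * A) * b n i * (t h * A)⁻¹) = 1 := by simp [hb]
    have h7 : φ (t h * (A * B) * (t h)⁻¹) = 1 := by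
      rw [map_mul, map_mul, map_inv, hAB1, mul_one, mul_inv_cancel]
    have h8 : f'.1 (t h * (A * B) * (t h)⁻¹) = 0 :=
      hf' _ (mul_mem (mul_mem (htX h) (mul_mem hA hB)) (inv_mem (htX h))) h7
    have h9 : φ (((t h * A) * a n i * (t h * A)⁻¹) * ((t h * A) * b n i * (t h * A)⁻¹) *
        ((t h * A) * a n i * (t h * A)⁻¹)⁻¹ * ((t h * A) * b n i * (t h * A)⁻¹)⁻¹) = 1 := by
      rw [map_mul, map_mul, map_mul, map_inv, map_inv, h5, h6]
      simp
    rw [h4, hP _ _ h9 h7, PrimK.comm hu hv hP h5 h6, h8]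
    ring
  have h10 : ω f f' = ∑ h, (f.1 ((t h * A) * a n i * (t h * A)⁻¹) * f'.1 ((t h * A) * b n i * (t h * A)⁻¹) -
      f.1 ((t h * A) * b n i * (t h * A)⁻¹) * f'.1 ((t h * A) * a n i * (t h * A)⁻¹)) := by
    rw [hω f f' P hP t ht, Lam]
    simp only [h3]
    rw [Finset.sum_add_distrib, hbd]
    ring
  rw [h10, ← Equiv.sum_comp (Equiv.mulRight (φ A)) (fun h =>
    (f.1 (s h * a n i * (s h)⁻¹) * f'.1 (s h * b n i * (s h)⁻¹) -
      f.1 (s h * b n i * (s h)⁻¹) * f'.1 (s h * a n i * (s h)⁻¹)))]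
  refine Finset.sum_congr rfl fun h _ => ?_
  have h11 : φ (t h * A) = φ (s (h * φ A)) := by rw [map_mul, ht, hs]
  rw [Equiv.coe_mulRight, hu.conj_eq ha h11, hu.conj_eq hb h11, hv.conj_eq ha h11, hv.conj_eq hb h11]

/-- The radical vanishes on the conjugates of `a_i`, `b_i`. -/
theorem rad_handle [DecidableEq H] {ω : LinearMap.BilinForm ℂ (Coh φ)} (hω : ∀ f f' P, PrimK φ f.1 f'.1 P →
    ∀ s : H → F g n, (∀ h, φ (s h) = h) → ω f f' = Lam φ s P) (hs : Function.Surjective φ)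
    (hR : φ (R g n) = 1) {i : Fin g}
    (ha : φ (a n i) = 1) (hb : φ (b n i) = 1) {p q : Coh φ}
    (hp : ∀ x ∈ Xs n i, φ x = 1 → p.1 x = 0) (hq : ∀ x ∈ Xs n i, φ x = 1 → q.1 x = 0)
    (hpa : ∀ x, p.1 (x * a n i * x⁻¹) = if φ x = 1 then 1 else 0) (hpb : ∀ x, p.1 (x * b n i * x⁻¹) = 0)
    (hqa : ∀ x, q.1 (x * a n i * x⁻¹) = 0) (hqb : ∀ x, q.1 (x * b n i * x⁻¹) = if φ x = 1 then 1 else 0)
    {f : Coh φ} (hf : ∀ f', ω f f' = 0) (y : F g n) :
    f.1 (y * a n i * y⁻¹) = 0 ∧ f.1 (y * b n i * y⁻¹) = 0 := by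
  have hy : φ (ret n i y) = φ y := phi_ret ha hb y
  rw [(coh_addK f).conj_eq ha hy.symm, (coh_addK f).conj_eq hb hy.symm]
  set z := ret n i y with hz0
  have hz : z ∈ Xs n i := ret_mem y
  have hinn : ∀ e : Coh φ, (∀ x ∈ Xs n i, φ x = 1 → e.1 x = 0) →
      ∀ x ∈ Xs n i, φ x = 1 → (inn φ z e).1 x = 0 := by
    intro e he x hx hx1
    rw [inn_apply]
    exact he _ (mul_mem (mul_mem (inv_mem hz) hx) hz) (by rw [map_mul, map_mul, map_inv, hx1]; simp)
  have hconj : ∀ N h, z⁻¹ * (Function.surjInv hs h * N * (Function.surjInv hs h)⁻¹) * z =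
      (z⁻¹ * Function.surjInv hs h) * N * (z⁻¹ * Function.surjInv hs h)⁻¹ := by
    intro N h
    group
  have hs1 : ∀ h, φ (Function.surjInv hs h) = h := Function.surjInv_eq hs
  have hδ : ∀ h, φ (z⁻¹ * Function.surjInv hs h) = 1 ↔ h = φ z := by
    intro h
    rw [map_mul, map_inv, hs1, inv_mul_eq_one]
    exact eq_comm
  have h1 := hf (inn φ z q)
  have h2 := hf (inn φ z p)
  rw [pair_handle hω hR ha hb f (inn φ z q) (hinn q hq) hs1] at h1
  rw [pair_handle hω hR ha hb f (inn φ z p) (hinn p hp) hs1] at h2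
  simp only [inn_apply, hconj, hpa, hpb, hqa, hqb, hδ, mul_zero, sub_zero, zero_sub, mul_ite, mul_one,
    Finset.sum_ite_eq', Finset.mem_univ, if_true, Finset.sum_neg_distrib, neg_eq_zero] at h1 h2
  rw [(coh_addK f).conj_eq ha (hs1 (φ z))] at h1
  rw [(coh_addK f).conj_eq hb (hs1 (φ z))] at h2
  exact ⟨h1, h2⟩

/-- The form is non-degenerate. -/
theorem nondeg_of [DecidableEq H] {ω : LinearMap.BilinForm ℂ (Coh φ)} (hω : ∀ f f' P, PrimK φ f.1 f'.1 P →
    ∀ s : H → F g n, (∀ h, φ (s h) = h) → ω f f' = Lam φ s P)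
    (hmon : ∀ α f f', ω (mon φ α f) (mon φ α f') = ω f f') (hs : Function.Surjective φ)
    (hR : φ (R g n) = 1) {i : Fin g}
    (ha : φ (a n i) = 1) (hb : φ (b n i) = 1) {p q : Coh φ}
    (hp : ∀ x ∈ Xs n i, φ x = 1 → p.1 x = 0) (hq : ∀ x ∈ Xs n i, φ x = 1 → q.1 x = 0)
    (hpa : ∀ x, p.1 (x * a n i * x⁻¹) = if φ x = 1 then 1 else 0) (hpb : ∀ x, p.1 (x * b n i * x⁻¹) = 0)
    (hqa : ∀ x, q.1 (x * a n i * x⁻¹) = 0) (hqb : ∀ x, q.1 (x * b n i * x⁻¹) = if φ x = 1 then 1 else 0)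
    (hext : ∀ f : Coh φ, (∀ x ∈ Xs n i, φ x = 1 → f.1 x = 0) → (∀ x, f.1 (x * a n i * x⁻¹) = 0) →
      (∀ x, f.1 (x * b n i * x⁻¹) = 0) → f = 0)
    (hN : ∀ w ∈ Xs n i, φ w = 1 → ∃ N : Module.End ℂ (Coh φ), N * N * N = 0 ∧
      (∃ α : Stab φ, mon φ α = 1 + N + (1 / 2 : ℂ) • (N * N)) ∧
      ∀ f : Coh φ, (∀ x, f.1 (x * b n i * x⁻¹) = 0) → ∀ y, (N f).1 (y * a n i * y⁻¹) = f.1 (y * w * y⁻¹))
    {f : Coh φ} (hf : ∀ f', ω f f' = 0) : f = 0 := by
  -- the radical is invariant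
  have hinv : ∀ (α : Stab φ) (e : Coh φ), (∀ f', ω e f' = 0) → ∀ f', ω (mon φ α e) f' = 0 := by
    intro α e he f'
    have h1 := hmon α e (mon φ α⁻¹ f')
    have h2 : mon φ α (mon φ α⁻¹ f') = f' := by
      apply Subtype.ext
      funext x
      rw [mon_apply, mon_apply]
      simp
    rw [h2, he] at h1
    exact h1
  have hab : ∀ (e : Coh φ), (∀ f', ω e f' = 0) → ∀ y, e.1 (y * a n i * y⁻¹) = 0 ∧ e.1 (y * b n i * y⁻¹) = 0 :=
    fun e he y => rad_handle hω hs hR ha hb hp hq hpa hpb hqa hqb he y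
  refine hext f (fun w hw hw1 => ?_) (fun x => (hab f hf x).1) (fun x => (hab f hf x).2)
  obtain ⟨N, hN3, ⟨α, hα⟩, hNa⟩ := hN w hw hw1
  -- `N` as a polynomial in `u`
  have hN1 : N = (mon φ α - 1) - (1 / 2 : ℂ) • ((mon φ α - 1) * (mon φ α - 1)) := by
    have h1 : mon φ α - 1 = N + (1 / 2 : ℂ) • (N * N) := by
      rw [hα]
      abel
    have h4 : N * (N * N) = 0 := by rw [← mul_assoc, hN3]
    have h2 : (mon φ α - 1) * (mon φ α - 1) = N * N := by
      rw [h1]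
      simp only [add_mul, mul_add, smul_mul_assoc, mul_smul_comm, hN3, h4, smul_zero, add_zero,
        mul_assoc, mul_zero]
    rw [h2, h1]
    abel
  have hNf : ∀ f', ω (N f) f' = 0 := by
    intro f'
    have h1 := hinv α f hf
    have h2 := hinv α _ h1
    rw [hN1]
    simp only [LinearMap.sub_apply, LinearMap.smul_apply, Module.End.mul_apply, Module.End.one_apply,
      map_sub, map_smul, LinearMap.sub_apply, hf f', h1 f', h2 f', sub_self, smul_zero, sub_zero]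
  have h1 := (hab _ hNf 1).1
  rw [hNa f (fun x => (hab f hf x).2)] at h1
  simpa using h1

end

end Pool.Agent.BM
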