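import Pool.Agent.Lib.MP_943dad_ag.BM.AlgA

set_option linter.all false

/-!
# The commutators of the centraliser form a perfect Lie algebra
-/

open Finset Polynomial

namespace Pool.Agent.Lib.MP_943dad_ag.BMo

/-- The Fitting idempotent. -/
theorem fitting {V : Type} [AddCommGroup V] [Module ℂ V] [FiniteDimensional ℂ V] (f : Module.End ℂ V) (μ : ℂ) :
    ∃ (q : ℂ[X]) (k : ℕ), IsIdempotentElem (aeval f ((X - C μ) ^ (k + 1) * q)) ∧
      aeval f ((X - C μ) ^ (k + 1)) * (1 - aeval f ((X - C μ) ^ (k + 1) * q)) = 0 := by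
  have h0 : minpoly ℂ f ≠ 0 := minpoly.ne_zero (Algebra.IsIntegral.isIntegral f)
  obtain ⟨u, hu, hnd⟩ := exists_eq_pow_rootMultiplicity_mul_and_not_dvd (minpoly ℂ f) h0 μ
  obtain ⟨m, hm⟩ : ∃ m, m = rootMultiplicity μ (minpoly ℂ f) := ⟨_, rfl⟩
  rw [← hm] at hu
  have hc : IsCoprime ((X - C μ) ^ (m + 1)) u :=
    IsCoprime.pow_left (((irreducible_X_sub_C μ).coprime_iff_not_dvd).2 hnd)
  obtain ⟨s, t, hst⟩ := hc
  have hz : aeval f ((X - C μ) ^ (m + 1) * u) = 0 := by
    have e : (X - C μ) ^ (m + 1) * u = (X - C μ) * minpoly ℂ f := by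
      rw [hu]
      ring
    rw [e, map_mul, minpoly.aeval, mul_zero]
  have e1 : (1 : ℂ[X]) - (X - C μ) ^ (m + 1) * s = t * u := by
    rw [← hst]
    ring
  have e2 : (1 : Module.End ℂ V) - aeval f ((X - C μ) ^ (m + 1) * s) = aeval f (t * u) := by
    rw [← e1, map_sub, map_one]
  refine ⟨s, m, ?_, ?_⟩
  · have h1 : aeval f ((X - C μ) ^ (m + 1) * s) * (1 - aeval f ((X - C μ) ^ (m + 1) * s)) = 0 := by
      rw [e2, ← map_mul]
      have e : (X - C μ) ^ (m + 1) * s * (t * u) = s * t * ((X - C μ) ^ (m + 1) * u) := by ring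
      rw [e, map_mul, hz, mul_zero]
    rw [mul_sub, mul_one, sub_eq_zero] at h1
    exact h1.symm
  · rw [e2, ← map_mul]
    have e : (X - C μ) ^ (m + 1) * (t * u) = t * ((X - C μ) ^ (m + 1) * u) := by ring
    rw [e, map_mul, hz, mul_zero]

/-- An endomorphism all of whose powers have trace zero is nilpotent. -/
theorem nil_of_trace {V : Type} [AddCommGroup V] [Module ℂ V] [FiniteDimensional ℂ V] (f : Module.End ℂ V)
    (h : ∀ k : ℕ, LinearMap.trace ℂ V (f ^ (k + 1)) = 0) : IsNilpotent f := by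
  obtain ⟨q, k, h1, h2⟩ := fitting f 0
  have h3 : ∀ r : ℂ[X], LinearMap.trace ℂ V (aeval f (X * r)) = 0 := by
    intro r
    induction r using Polynomial.induction_on' with
    | add p q hp hq => rw [mul_add, map_add, map_add, hp, hq, add_zero]
    | monomial n c =>
      rw [X_mul_monomial, aeval_monomial, ← Algebra.smul_def, map_smul, h, smul_zero]
  have h4 : aeval f ((X - C (0 : ℂ)) ^ (k + 1) * q) = 0 := by
    refine LinearMap.IsIdempotentElem.eq_zero_of_trace_eq_zero h1 ?_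
    have e : (X - C (0 : ℂ)) ^ (k + 1) * q = X * (X ^ k * q) := by
      rw [C_0, sub_zero]
      ring
    rw [e]
    exact h3 _
  refine ⟨k + 1, ?_⟩
  rw [h4, sub_zero, mul_one] at h2
  simpa using h2

variable {H V : Type} [Group H] [Fintype H] [AddCommGroup V] [Module ℂ V]
  {ρ : H →* Module.End ℂ V} {ω : V →ₗ[ℂ] V →ₗ[ℂ] ℂ}

/-- `zz` is closed under brackets. -/
theorem brk_zz (hS : Sym ρ ω) {X Y : Module.End ℂ V} (hX : X ∈ zz ρ ω) (hY : Y ∈ zz ρ ω) :
    X * Y - Y * X ∈ zz ρ ω := by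
  constructor
  · intro h
    rw [sub_mul, mul_sub, mul_assoc, mul_assoc, hX.1, hY.1, ← mul_assoc, ← mul_assoc, hX.1, hY.1, mul_assoc,
      mul_assoc]
  · intro u v
    simp only [LinearMap.sub_apply, Module.End.mul_apply, map_sub]
    rw [skew_zz hX, skew_zz hY, skew_zz hY, skew_zz hX]
    ring

/-- The Lie algebra spanned by the commutators of elements of `zz`. -/
def gg {H V : Type} [Group H] [AddCommGroup V] [Module ℂ V] (ρ : H →* Module.End ℂ V)
    (ω : V →ₗ[ℂ] V →ₗ[ℂ] ℂ) : Submodule ℂ (Module.End ℂ V) :=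
  Submodule.span ℂ {Z | ∃ X ∈ zz ρ ω, ∃ Y ∈ zz ρ ω, Z = X * Y - Y * X}

theorem gg_zz (hS : Sym ρ ω) {X : Module.End ℂ V} (hX : X ∈ gg ρ ω) : X ∈ zz ρ ω := by
  refine (Submodule.span_le.2 ?_) hX
  rintro _ ⟨X, hX, Y, hY, rfl⟩
  exact brk_zz hS hX hY

/-- Every linear functional on `zz` is given by an element of `zz`. -/
theorem exists_rep [FiniteDimensional ℂ V] (hS : Sym ρ ω) (f : Module.End ℂ V →ₗ[ℂ] ℂ) :
    ∃ C ∈ zz ρ ω, ∀ x y, f (S ρ ω x y) = ω (C x) y := by
  have hinj : Function.Injective ω := by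
    rw [← LinearMap.ker_eq_bot, LinearMap.ker_eq_bot']
    intro v hv
    exact hS.nd v fun u => by rw [hv, LinearMap.zero_apply]
  have hsurj : Function.Surjective ω :=
    (LinearMap.injective_iff_surjective_of_finrank_eq_finrank (f := ω)
      (Subspace.dual_finrank_eq (K := ℂ) (V := V)).symm).1 hinj
  obtain ⟨e, he⟩ : ∃ e : V ≃ₗ[ℂ] (V →ₗ[ℂ] ℂ), ∀ v, e v = ω v :=
    ⟨LinearEquiv.ofBijective ω ⟨hinj, hsurj⟩, fun v => rfl⟩
  obtain ⟨C, hC⟩ : ∃ C : Module.End ℂ V, ∀ x y, ω (C x) y = f (S ρ ω x y) := by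
    refine ⟨e.symm.toLinearMap ∘ₗ (S ρ ω).compr₂ f, fun x y => ?_⟩
    rw [LinearMap.comp_apply, ← he]
    change e (e.symm _) y = _
    rw [LinearEquiv.apply_symm_apply]
    rfl
  refine ⟨C, ⟨fun h => ?_, fun u v => ?_⟩, fun x y => (hC x y).symm⟩
  · refine LinearMap.ext fun v => ?_
    rw [Module.End.mul_apply, Module.End.mul_apply, ← sub_eq_zero]
    refine hS.nd _ fun u => ?_
    rw [map_sub, LinearMap.sub_apply, hC, hS.inv', hC, S_rho', sub_self]
  · rw [hC, hS.skew, hC, S_symm]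
    ring

/-- `2 |H| A = ∑ S (e_i) (A b_i)` for dual bases. -/
theorem exists_bases [FiniteDimensional ℂ V] (hS : Sym ρ ω) :
    ∃ (b : Module.Basis (Fin (Module.finrank ℂ V)) ℂ V) (e : Fin (Module.finrank ℂ V) → V),
      (∀ i v, ω v (e i) = b.coord i v) ∧
      ∀ A ∈ zz ρ ω, (2 * (Fintype.card H : ℂ)) • A = ∑ i, S ρ ω (e i) (A (b i)) := by
  classical
  have hinj : Function.Injective ω.flip := by
    rw [← LinearMap.ker_eq_bot, LinearMap.ker_eq_bot']
    intro v hv
    exact hS.nd' v fun u => by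
      have := LinearMap.congr_fun hv u
      simpa using this
  have hsurj : Function.Surjective ω.flip := by
    have := LinearMap.injective_iff_surjective_of_finrank_eq_finrank (f := ω.flip)
      (Subspace.dual_finrank_eq (K := ℂ) (V := V)).symm
    exact this.1 hinj
  obtain ⟨b, -⟩ : ∃ b : Module.Basis (Fin (Module.finrank ℂ V)) ℂ V, True := ⟨Module.finBasis ℂ V, trivial⟩
  choose e he using fun i => hsurj (b.coord i)
  have he' : ∀ i v, ω v (e i) = b.coord i v := fun i v => by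
    rw [← he i, LinearMap.flip_apply]
  refine ⟨b, e, he', fun A hA => ?_⟩
  have hv : ∀ v, ∑ i, ω v (e i) • A (b i) = A v := by
    intro v
    conv_rhs => rw [← b.sum_repr v, map_sum]
    refine sum_congr rfl fun i _ => ?_
    rw [he', map_smul, Module.Basis.coord_apply]
  have h1 : ∀ v, ∑ i, ∑ h : H, ω v (ρ h (e i)) • ρ h (A (b i)) = (Fintype.card H : ℂ) • A v := by
    intro v
    rw [sum_comm]
    calc ∑ h : H, ∑ i, ω v (ρ h (e i)) • ρ h (A (b i)) = ∑ h : H, A v := by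
          refine sum_congr rfl fun h _ => ?_
          have h2 := congrArg (ρ h) (hv (ρ h⁻¹ v))
          rw [map_sum, ← comm_zz hA, ← rho_mul, mul_inv_cancel, rho_one] at h2
          rw [← h2]
          refine sum_congr rfl fun i _ => ?_
          rw [map_smul, hS.inv'']
      _ = (Fintype.card H : ℂ) • A v := by
          rw [sum_const, card_univ, ← Nat.cast_smul_eq_nsmul ℂ]
  have h2 : ∀ v, ∑ i, ∑ h : H, ω v (ρ h (A (b i))) • ρ h (e i) = (Fintype.card H : ℂ) • A v := by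
    intro v
    rw [← sub_eq_zero]
    refine hS.nd _ fun u => ?_
    rw [map_sub, LinearMap.sub_apply, sub_eq_zero]
    have h3 := congrArg (ω v) (h1 u)
    rw [map_smul, smul_eq_mul] at h3
    rw [map_smul, LinearMap.smul_apply, smul_eq_mul, skew_zz hA, mul_neg, ← h3]
    simp only [map_sum, LinearMap.sum_apply, map_smul, LinearMap.smul_apply, smul_eq_mul]
    rw [← sum_neg_distrib]
    refine sum_congr rfl fun i _ => ?_
    rw [← sum_neg_distrib]
    refine sum_congr rfl fun h _ => ?_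
    rw [hS.skew (ρ h (e i)) u]
    ring
  refine LinearMap.ext fun v => ?_
  rw [LinearMap.sum_apply, LinearMap.smul_apply, two_mul, add_smul]
  nth_rewrite 1 [← h1 v]
  rw [← h2 v, ← sum_add_distrib]
  refine sum_congr rfl fun i _ => ?_
  rw [S_apply, sum_add_distrib]

/-- If `C` represents `f`, then `2 |H| f X = tr (C X)`. -/
theorem rep_trace [FiniteDimensional ℂ V] (hS : Sym ρ ω) {f : Module.End ℂ V →ₗ[ℂ] ℂ} {C : Module.End ℂ V}
    (hC : C ∈ zz ρ ω) (hf : ∀ x y, f (S ρ ω x y) = ω (C x) y) {X : Module.End ℂ V} (hX : X ∈ zz ρ ω) :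
    (2 * (Fintype.card H : ℂ)) * f X = LinearMap.trace ℂ V (C * X) := by
  classical
  obtain ⟨b, e, he, h⟩ := exists_bases (ρ := ρ) hS
  have h1 := congrArg f (h X hX)
  rw [map_smul, smul_eq_mul] at h1
  rw [h1, map_sum, LinearMap.trace_eq_matrix_trace ℂ b, Matrix.trace]
  refine sum_congr rfl fun i _ => ?_
  rw [hf, Matrix.diag_apply, LinearMap.toMatrix_apply, Module.End.mul_apply, ← Module.Basis.coord_apply, ← he,
    skew_zz hC, ← hS.skew]

/-- **`zz` is the sum of the commutators and the centre.** -/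
theorem zz_le [FiniteDimensional ℂ V] (hS : Sym ρ ω) {X : Module.End ℂ V} (hX : X ∈ zz ρ ω) :
    ∃ G ∈ gg ρ ω, ∃ Z ∈ zz ρ ω, (∀ Y ∈ zz ρ ω, Z * Y = Y * Z) ∧ X = G + Z := by
  obtain ⟨Zc, hZc⟩ : ∃ Zc : Submodule ℂ (Module.End ℂ V), ∀ Z, Z ∈ Zc ↔ Z ∈ zz ρ ω ∧ ∀ Y ∈ zz ρ ω, Z * Y = Y * Z := by
    refine ⟨{ carrier := {Z | Z ∈ zz ρ ω ∧ ∀ Y ∈ zz ρ ω, Z * Y = Y * Z}
              add_mem' := ?_
              zero_mem' := ?_
              smul_mem' := ?_ }, fun m => Iff.rfl⟩
    · rintro Z Z' ⟨h1, h2⟩ ⟨h3, h4⟩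
      exact ⟨Submodule.add_mem _ h1 h3, fun Y hY => by rw [add_mul, mul_add, h2 Y hY, h4 Y hY]⟩
    · exact ⟨Submodule.zero_mem _, fun Y hY => by rw [zero_mul, mul_zero]⟩
    · rintro t Z ⟨h1, h2⟩
      exact ⟨Submodule.smul_mem _ _ h1, fun Y hY => by rw [smul_mul_assoc, mul_smul_comm, h2 Y hY]⟩
  have key : X ∈ gg ρ ω ⊔ Zc := by
    by_contra hcon
    obtain ⟨f, hf, hle⟩ := Submodule.exists_le_ker_of_notMem hcon
    obtain ⟨C, hC, hfC⟩ := exists_rep hS f
    -- `C` is central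
    have hcen : ∀ A ∈ zz ρ ω, C * A = A * C := by
      intro A hA
      refine LinearMap.ext fun x => ?_
      rw [← sub_eq_zero]
      refine hS.nd _ fun y => ?_
      have h1 : f (A * S ρ ω x y - S ρ ω x y * A) = 0 :=
        hle (Submodule.mem_sup_left (Submodule.subset_span ⟨A, hA, _, S_zz hS x y, rfl⟩))
      rw [brk hA, map_add, hfC, hfC] at h1
      rw [map_sub, LinearMap.sub_apply, Module.End.mul_apply, Module.End.mul_apply, skew_zz hA, sub_neg_eq_add]
      exact h1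
    -- the odd powers of `C` are in the centre
    have hpow : ∀ k : ℕ, C ^ (2 * k + 1) ∈ Zc := by
      intro k
      induction k with
      | zero => rw [mul_zero, zero_add, pow_one, hZc]; exact ⟨hC, hcen⟩
      | succ k ih =>
        rw [hZc] at ih ⊢
        have e : C ^ (2 * (k + 1) + 1) = C * C ^ (2 * k + 1) * C := by
          rw [← pow_succ', ← pow_succ]
          congr 1
        rw [e]
        refine ⟨⟨fun h => ?_, fun u v => ?_⟩, fun Y hY => ?_⟩
        · exact (((show Commute C (ρ h) from hC.1 h).mul_left (show Commute (C ^ (2 * k + 1)) (ρ h) from ih.1.1 h)).mul_left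
            (show Commute C (ρ h) from hC.1 h)).eq
        · simp only [Module.End.mul_apply]
          rw [skew_zz hC, skew_zz ih.1, skew_zz hC]
          ring
        · exact (((show Commute C Y from hcen Y hY).mul_left (show Commute (C ^ (2 * k + 1)) Y from ih.2 Y hY)).mul_left
            (show Commute C Y from hcen Y hY)).eq
    have hcard : (2 * (Fintype.card H : ℂ)) ≠ 0 := by
      have : (Fintype.card H : ℂ) ≠ 0 := by exact_mod_cast Fintype.card_ne_zero
      exact mul_ne_zero two_ne_zero this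
    have hnil : IsNilpotent (C * C) := by
      refine nil_of_trace _ fun k => ?_
      have h1 : f (C ^ (2 * k + 1)) = 0 := hle (Submodule.mem_sup_right (hpow k))
      have h2 := rep_trace hS hC hfC ((hZc _).1 (hpow k)).1
      rw [h1, mul_zero, ← pow_succ'] at h2
      rw [← pow_two, ← pow_mul, h2]
      congr 1
    have hnil2 : IsNilpotent (C * X) := by
      have h1 : IsNilpotent C := by
        obtain ⟨n, hn⟩ := hnil
        exact ⟨2 * n, by rw [pow_mul, pow_two, hn]⟩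
      exact (show Commute C X from hcen X hX).isNilpotent_mul_right h1
    have h3 := rep_trace hS hC hfC hX
    rw [(LinearMap.isNilpotent_trace_of_isNilpotent hnil2).eq_zero] at h3
    exact hf ((mul_eq_zero.1 h3).resolve_left hcard)
  obtain ⟨G, hG, Z, hZ, e⟩ := Submodule.mem_sup.1 key
  exact ⟨G, hG, Z, ((hZc _).1 hZ).1, ((hZc _).1 hZ).2, e.symm⟩

/-- **The Lie algebra spanned by the commutators is perfect.** -/
theorem perfect [FiniteDimensional ℂ V] (hS : Sym ρ ω) {G : Module.End ℂ V} (hG : G ∈ gg ρ ω) :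
    G ∈ Submodule.span ℂ {Z | ∃ X ∈ gg ρ ω, ∃ Y ∈ gg ρ ω, Z = X * Y - Y * X} := by
  refine (Submodule.span_le.2 ?_) hG
  rintro _ ⟨X, hX, Y, hY, rfl⟩
  obtain ⟨G, hG, Z, hZ, hZ', rfl⟩ := zz_le hS hX
  obtain ⟨G', hG', Z', hZz, hZ'', rfl⟩ := zz_le hS hY
  refine Submodule.subset_span ⟨G, hG, G', hG', ?_⟩
  have e1 := hZ' _ (gg_zz hS hG')
  have e2 := hZ' _ hZz
  have e3 := hZ'' _ (gg_zz hS hG)
  rw [add_mul, mul_add, mul_add, add_mul, mul_add, mul_add, e1, e2, e3]
  abel

end Pool.Agent.Lib.MP_943dad_ag.BMo
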