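import Pool.Agent.Lib.MP_943dad_ag.SO.Slide

set_option linter.all false

/-!
# Pushing one end of the last handle around a loop

`exists_push`: in `F (g + 1) n`, let `a`, `b` be the last handle, `X` the subgroup generated by the other generators and
`B` the normal closure of `b`. For every `w` in `X` there is an automorphism which fixes the boundary word, maps
each `c_j` to a conjugate, maps `b` to `κ b κ⁻¹` with `κ` in `B`, and is modulo `B` the identity on `X` and
`a ↦ w a`.
-/

namespace Pool.Agent.BM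

open Pool.Agent.HMv Pool.Agent.HMv.Item

section Lists

variable {G Q : Type} [Group G] [Group Q]

/-- A subgroup contains all entries of a list. -/
theorem gen_le_of_conj (K : Subgroup G) : ∀ T : List (Item G),
    (∀ T1 y T2, T = T1 ++ y :: T2 → ∀ z ∈ y.ent, (cp T2)⁻¹ * z * cp T2 ∈ K) → gen T ≤ K ∧ cp T ∈ K
  | [], _ => by
    refine ⟨gen_le fun p hp => by simp at hp, ?_⟩
    rw [cp_nil]
    exact K.one_mem
  | y :: T, h => by
    obtain ⟨h1, h2⟩ := gen_le_of_conj K T (fun T1 y' T2 hT z hz => h (y :: T1) y' T2 (by rw [hT]; rfl) z hz)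
    have h3 : ∀ z ∈ y.ent, z ∈ K := by
      intro z hz
      have h4 := K.mul_mem (K.mul_mem h2 (h [] y T rfl z hz)) (K.inv_mem h2)
      have h5 : cp T * ((cp T)⁻¹ * z * cp T) * (cp T)⁻¹ = z := by group
      rwa [h5] at h4
    constructor
    · apply gen_le
      intro p hp z hz
      rcases List.mem_cons.1 hp with rfl | hp
      · exact h3 z hz
      · exact h1 (ent_mem_gen hp hz)
    · rw [cp_cons]
      refine K.mul_mem ?_ h2
      cases y with
      | hd p q =>
        have hp := h3 p (Or.inl rfl)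
        have hq := h3 q (Or.inr rfl)
        exact K.mul_mem (K.mul_mem (K.mul_mem hp hq) (K.inv_mem hp)) (K.inv_mem hq)
      | pt c => exact h3 c rfl

theorem mv_assoc {T1 T2 : List (Item G)} {y y' x x' : Item G}
    (h : Mv (T1 ++ y :: (T2 ++ [x])) (T1 ++ y' :: (T2 ++ [x']))) :
    Mv ((T1 ++ y :: T2) ++ [x]) ((T1 ++ y' :: T2) ++ [x']) := by
  rw [List.append_assoc, List.append_assoc]
  exact h

/-- The slide of the last handle `(r, s)` over an item, modulo the kernel of a homomorphism which kills `s`. -/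
theorem sl_ex (π : G →* Q) {s : G} (hs : π s = 1) (T1 T2 : List (Item G)) (y : Item G) (z : G) (hz : z ∈ y.ent) (r : G) :
    ∃ (T' : List (Item G)) (r' : G) (e : ℤ), (e = 1 ∨ e = -1) ∧
      Mv ((T1 ++ y :: T2) ++ [hd r s]) (T' ++ [hd r' s]) ∧
      mp π T' = mp π (T1 ++ y :: T2) ∧ π r' = π ((cp T2)⁻¹ * z ^ e * cp T2) * π r := by
  cases y with
  | hd p q =>
    rcases hz with hz | hz
    · subst hz
      refine ⟨_, _, -1, Or.inr rfl, mv_assoc (slp T1 T2 z q r s), ?_, ?_⟩
      · simp [hs]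
      · simp [hs, mul_assoc]
    · have hz' : z = q := hz
      subst hz'
      refine ⟨_, _, 1, Or.inl rfl, mv_assoc (slq T1 T2 p z r s), ?_, ?_⟩
      · simp [hs]
      · simp [hs, mul_assoc]
  | pt c =>
    have hz' : z = c := hz
    subst hz'
    refine ⟨_, _, 1, Or.inl rfl, mv_assoc (slc T1 T2 z r s), ?_, ?_⟩
    · simp [hs]
    · simp [hs, mul_assoc]

end Lists

section Push

variable {g n : ℕ}

/-- the first generator of the last handle -/
def aL (g n : ℕ) : F (g + 1) n := a n (Fin.last g)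

/-- the second generator of the last handle -/
def bL (g n : ℕ) : F (g + 1) n := b n (Fin.last g)

/-- the items other than the last handle -/
def IA (g n : ℕ) : List (Item (F (g + 1) n)) :=
  hds (List.ofFn fun i : Fin g => (a n i.castSucc, b n i.castSucc))

/-- the points -/
def IP (g n : ℕ) : List (Item (F (g + 1) n)) := pts (List.ofFn fun j : Fin n => c (g + 1) j)

theorem B0_eq (g n : ℕ) : B0 (g + 1) n = IA g n ++ hd (aL g n) (bL g n) :: IP g n := by
  rw [B0, List.ofFn_succ', List.concat_eq_append, hds_append, List.append_assoc]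
  rfl

/-- the subgroup generated by the generators other than the last handle -/
def XL (g n : ℕ) : Subgroup (F (g + 1) n) := gen (IA g n ++ IP g n)

/-- the normal closure of `b` -/
def BL (g n : ℕ) : Subgroup (F (g + 1) n) := Subgroup.normalClosure {bL g n}

instance : (BL g n).Normal := Subgroup.normalClosure_normal

theorem bL_mem : bL g n ∈ BL g n := Subgroup.subset_normalClosure (Set.mem_singleton _)

/-- the projection modulo `B` -/
def pL (g n : ℕ) : F (g + 1) n →* F (g + 1) n ⧸ BL g n := QuotientGroup.mk' (BL g n)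

theorem pL_eq_one {x : F (g + 1) n} : pL g n x = 1 ↔ x ∈ BL g n := by
  rw [pL, QuotientGroup.mk'_apply, QuotientGroup.eq_one_iff]

theorem pL_b : pL g n (bL g n) = 1 := pL_eq_one.2 bL_mem

/-- an automorphism as a homomorphism -/
def tM (α : MulAut (F (g + 1) n)) : F (g + 1) n →* F (g + 1) n := MulEquiv.toMonoidHom α

theorem tM_apply (α : MulAut (F (g + 1) n)) (x : F (g + 1) n) : tM α x = α x := rfl

/-- `α` is a push with first coordinate `w`. -/
structure IsPush (α : MulAut (F (g + 1) n)) (w : F (g + 1) n) : Prop where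
  R_eq : α (R (g + 1) n) = R (g + 1) n
  c_conj : ∀ j : Fin n, IsConj (α (c (g + 1) j)) (c (g + 1) j)
  b_eq : ∃ κ ∈ BL g n, α (bL g n) = κ * bL g n * κ⁻¹
  x_eq : ∀ x ∈ XL g n, pL g n (α x) = pL g n x
  a_eq : pL g n (α (aL g n)) = pL g n (w * aL g n)

theorem IsPush.pL_of_mem {α : MulAut (F (g + 1) n)} {w : F (g + 1) n} (h : IsPush α w) {x : F (g + 1) n}
    (hx : x ∈ BL g n) : α x ∈ BL g n := by
  have h1 : BL g n ≤ (BL g n).comap (tM α) := by
    apply Subgroup.normalClosure_le_normal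
    rw [Set.singleton_subset_iff]
    obtain ⟨κ, hκ, hb⟩ := h.b_eq
    rw [SetLike.mem_coe, Subgroup.mem_comap, tM_apply, hb]
    exact Subgroup.Normal.conj_mem inferInstance _ bL_mem κ
  have h2 := Subgroup.mem_comap.1 (h1 hx)
  rwa [tM_apply] at h2

theorem IsPush.pL_congr {α : MulAut (F (g + 1) n)} {w : F (g + 1) n} (h : IsPush α w) {x y : F (g + 1) n}
    (hx : pL g n x = pL g n y) : pL g n (α x) = pL g n (α y) := by
  have h1 : x * y⁻¹ ∈ BL g n := by
    rw [← pL_eq_one, map_mul, map_inv, hx, mul_inv_cancel]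
  have h2 := h.pL_of_mem h1
  rw [← pL_eq_one, map_mul, map_mul, map_inv, map_inv] at h2
  exact mul_inv_eq_one.1 h2

theorem isPush_one : IsPush (1 : MulAut (F (g + 1) n)) 1 where
  R_eq := rfl
  c_conj := fun _ => IsConj.refl _
  b_eq := ⟨1, one_mem _, by simp⟩
  x_eq := fun _ _ => rfl
  a_eq := by simp

theorem IsPush.mul {α β : MulAut (F (g + 1) n)} {w v : F (g + 1) n} (h : IsPush α w) (h' : IsPush β v)
    (hv : v ∈ XL g n) : IsPush (α * β) (v * w) where
  R_eq := by rw [MulAut.mul_apply, h'.R_eq, h.R_eq]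
  c_conj := fun j => by
    rw [MulAut.mul_apply]
    have h1 := (tM α).map_isConj (h'.c_conj j)
    rw [tM_apply, tM_apply] at h1
    exact h1.trans (h.c_conj j)
  b_eq := by
    obtain ⟨κ, hκ, h1⟩ := h.b_eq
    obtain ⟨κ', hκ', h2⟩ := h'.b_eq
    refine ⟨α κ' * κ, (BL g n).mul_mem (h.pL_of_mem hκ') hκ, ?_⟩
    rw [MulAut.mul_apply, h2, map_mul, map_mul, map_inv, h1]
    group
  x_eq := fun x hx => by
    rw [MulAut.mul_apply, h.pL_congr (h'.x_eq x hx), h.x_eq x hx]
  a_eq := by
    rw [MulAut.mul_apply, h.pL_congr h'.a_eq, map_mul, map_mul, h.x_eq v hv, h.a_eq, map_mul, map_mul, map_mul,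
      mul_assoc]

theorem IsPush.inv {α : MulAut (F (g + 1) n)} {w : F (g + 1) n} (h : IsPush α w) (hw : w ∈ XL g n) :
    IsPush α⁻¹ w⁻¹ := by
  -- `α⁻¹` maps `B` into `B`
  have hb : α⁻¹ (bL g n) ∈ BL g n := by
    obtain ⟨κ, hκ, h1⟩ := h.b_eq
    have h3 : (BL g n).map (tM α) = Subgroup.normalClosure {α (bL g n)} := by
      have := Subgroup.map_normalClosure {bL g n} (tM α) (MulEquiv.surjective α)
      rw [BL, this, Set.image_singleton, tM_apply]
    have h2 : BL g n ≤ (BL g n).map (tM α) := by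
      rw [h3, h1]
      apply Subgroup.normalClosure_le_normal
      rw [Set.singleton_subset_iff]
      have h4 := (Subgroup.normalClosure_normal (s := ({κ * bL g n * κ⁻¹} : Set (F (g + 1) n)))).conj_mem _
        (Subgroup.subset_normalClosure rfl) κ⁻¹
      have h5 : κ⁻¹ * (κ * bL g n * κ⁻¹) * κ⁻¹⁻¹ = bL g n := by group
      rwa [h5] at h4
    obtain ⟨x, hx, hx'⟩ := Subgroup.mem_map.1 (h2 bL_mem)
    rw [tM_apply] at hx'
    rw [← hx', MulAut.inv_apply_self]
    exact hx
  have hB : ∀ x ∈ BL g n, α⁻¹ x ∈ BL g n := by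
    have h1 : BL g n ≤ (BL g n).comap (tM α⁻¹) := by
      apply Subgroup.normalClosure_le_normal
      rw [Set.singleton_subset_iff, SetLike.mem_coe, Subgroup.mem_comap, tM_apply]
      exact hb
    intro x hx
    have h2 := Subgroup.mem_comap.1 (h1 hx)
    rwa [tM_apply] at h2
  have hcongr : ∀ x y, pL g n x = pL g n y → pL g n (α⁻¹ x) = pL g n (α⁻¹ y) := by
    intro x y hx
    have h1 : x * y⁻¹ ∈ BL g n := by
      rw [← pL_eq_one, map_mul, map_inv, hx, mul_inv_cancel]
    have h2 := hB _ h1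
    rw [← pL_eq_one, map_mul, map_mul, map_inv, map_inv] at h2
    exact mul_inv_eq_one.1 h2
  refine ⟨?_, ?_, ?_, ?_, ?_⟩
  · rw [MulAut.inv_apply, MulEquiv.symm_apply_eq, h.R_eq]
  · intro j
    rw [MulAut.inv_apply]
    have h4 := ((tM α⁻¹).map_isConj (h.c_conj j)).symm
    rw [tM_apply, tM_apply, MulAut.inv_apply_self] at h4
    exact h4
  · obtain ⟨κ, hκ, h1⟩ := h.b_eq
    refine ⟨α⁻¹ κ⁻¹, hB _ ((BL g n).inv_mem hκ), ?_⟩
    have h2 : bL g n = κ⁻¹ * α (bL g n) * κ := by
      rw [h1]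
      group
    have h3 := congrArg (α⁻¹ : MulAut (F (g + 1) n)) h2
    rw [map_mul, map_mul] at h3
    rw [MulAut.inv_apply_self] at h3
    rw [h3, map_inv α⁻¹ κ, inv_inv]
  · intro x hx
    have h1 := hcongr _ _ (h.x_eq x hx)
    rw [MulAut.inv_apply_self] at h1
    exact h1.symm
  · have h0 : pL g n (α (w⁻¹ * aL g n)) = pL g n (aL g n) := by
      rw [map_mul, map_mul, h.x_eq _ ((XL g n).inv_mem hw), h.a_eq]
      simp
    have h1 := hcongr _ _ h0
    rw [MulAut.inv_apply_self] at h1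
    exact h1.symm

theorem cp_mem_gen {G : Type} [Group G] (T : List (Item G)) : cp T ∈ gen T := by
  induction T with
  | nil => rw [cp_nil]; exact one_mem _
  | cons y T ih =>
    rw [cp_cons]
    refine (gen (y :: T)).mul_mem ?_ (gen_mono (fun p hp => List.mem_cons_of_mem _ hp) ih)
    cases y with
    | hd p q =>
      have hp : p ∈ gen (hd p q :: T) := ent_mem_gen List.mem_cons_self (Or.inl rfl)
      have hq : q ∈ gen (hd p q :: T) := ent_mem_gen List.mem_cons_self (Or.inr rfl)
      exact Subgroup.mul_mem _ (Subgroup.mul_mem _ (Subgroup.mul_mem _ hp hq) (Subgroup.inv_mem _ hp))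
        (Subgroup.inv_mem _ hq)
    | pt c => exact ent_mem_gen List.mem_cons_self rfl

/-- The elements `w` for which there is a push. -/
def PL (g n : ℕ) : Subgroup (F (g + 1) n) where
  carrier := {w | w ∈ XL g n ∧ ∃ α, IsPush α w}
  one_mem' := ⟨one_mem _, 1, isPush_one⟩
  mul_mem' := by
    rintro v w ⟨hv, β, hβ⟩ ⟨hw, α, hα⟩
    exact ⟨mul_mem hv hw, α * β, hα.mul hβ hv⟩
  inv_mem' := by
    rintro w ⟨hw, α, hα⟩
    exact ⟨inv_mem hw, α⁻¹, hα.inv hw⟩

theorem mem_PL_slide (T1 : List (Item (F (g + 1) n))) (y : Item (F (g + 1) n)) (T2 : List (Item (F (g + 1) n)))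
    (hT : IA g n ++ IP g n = T1 ++ y :: T2) (z : F (g + 1) n) (hz : z ∈ y.ent) :
    cp (IP g n) * ((cp T2)⁻¹ * z * cp T2) * (cp (IP g n))⁻¹ ∈ PL g n := by
  set D := cp (IP g n) with hD
  have h1 := (passR (IP g n) (aL g n) (bL g n) []).app_left (IA g n)
  rw [List.append_nil, ← B0_eq, ← hD, ← List.append_assoc, hT] at h1
  have hs : pL g n (D⁻¹ * bL g n * D) = 1 := by
    rw [map_mul, map_mul, pL_b, map_inv, mul_one, inv_mul_cancel]
  obtain ⟨T', r', e, he, h2, h3, h4⟩ := sl_ex (pL g n) hs T1 T2 y z hz (D⁻¹ * aL g n * D)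
  rw [← hT, mp_append] at h3
  obtain ⟨A', P', rfl, hA, hP⟩ := mp_eq_append h3
  have h5 : Mv ((A' ++ P') ++ [hd r' (D⁻¹ * bL g n * D)]) (A' ++ hd (cp P' * r' * (cp P')⁻¹)
      (cp P' * (D⁻¹ * bL g n * D) * (cp P')⁻¹) :: (P' ++ [])) := by
    have := (passL P' r' (D⁻¹ * bL g n * D) []).app_left A'
    rw [← List.append_assoc] at this
    exact this
  rw [List.append_nil] at h5
  have h6 := h1.trans (h2.trans h5)
  -- back to lists of handles and points
  have hA0 := hA
  have hP0 := hP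
  rw [IA, mp_hds] at hA
  rw [IP, mp_pts] at hP
  obtain ⟨LA, rfl, hLA⟩ := mp_eq_hds hA
  obtain ⟨LP, rfl, hLP⟩ := mp_eq_pts hP
  have hlA : LA.length = g := by
    have := congrArg List.length hLA
    simpa using this
  have hlP : LP.length = n := by
    have := congrArg List.length hLP
    simpa using this
  have h7 : hds LA ++ hd (cp (pts LP) * r' * (cp (pts LP))⁻¹)
      (cp (pts LP) * (D⁻¹ * bL g n * D) * (cp (pts LP))⁻¹) :: pts LP =
      hds (LA ++ [(cp (pts LP) * r' * (cp (pts LP))⁻¹,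
        cp (pts LP) * (D⁻¹ * bL g n * D) * (cp (pts LP))⁻¹)]) ++ pts LP := by
    rw [hds_append, List.append_assoc]
    rfl
  rw [h7] at h6
  obtain ⟨α, hR, hc, hα⟩ := sound (by simp [hlA]) hlP h6
  rw [← h7, B0_eq, mp_append, mp_cons] at hα
  obtain ⟨h8, h9⟩ := List.append_inj hα (by
    rw [mp_length, IA, hds_length, hds_length, hlA, List.length_ofFn])
  rw [List.cons.injEq, Item.mp_hd, Item.hd.injEq] at h9
  obtain ⟨⟨h10, h11⟩, h12⟩ := h9
  have hDP : pL g n (cp (pts LP)) = pL g n D := by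
    rw [← cp_mp, hD, ← cp_mp, hP0]
  have hα' : IsPush (g := g) (n := n) α (D * ((cp T2)⁻¹ * z ^ e * cp T2) * D⁻¹) := by
    refine ⟨hR, hc, ?_, ?_, ?_⟩
    · refine ⟨cp (pts LP) * D⁻¹, ?_, ?_⟩
      · rw [← pL_eq_one, map_mul, hDP, map_inv, mul_inv_cancel]
      · have h13 : α (bL g n) = cp (pts LP) * (D⁻¹ * bL g n * D) * (cp (pts LP))⁻¹ := h11
        rw [h13]
        group
    · intro x hx
      have h14 : mp ((pL g n).comp (tM α)) (IA g n ++ IP g n) = mp (pL g n) (IA g n ++ IP g n) := by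
        rw [← HMv.mp_mp, mp_append, mp_append, mp_append]
        have h15 : mp (tM α) (IA g n) = hds LA := h8
        have h16 : mp (tM α) (IP g n) = pts LP := h12
        rw [h15, h16, hA0, hP0]
      have h17 : XL g n ≤ ((pL g n).comp (tM α)).eqLocus (pL g n) := by
        apply gen_le
        intro p hp z hz
        have h18 : p.mp ((pL g n).comp (tM α)) = p.mp (pL g n) := by
          have := List.map_inj_left.1 h14 p hp
          exact this
        cases p with
        | hd u v =>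
          rw [Item.mp_hd, Item.mp_hd, Item.hd.injEq] at h18
          rcases hz with hz | hz
          · rw [hz]
            exact h18.1
          · have hz' : z = v := hz
            rw [hz']
            exact h18.2
        | pt u =>
          rw [Item.mp_pt, Item.mp_pt, Item.pt.injEq] at h18
          have hz' : z = u := hz
          rw [hz']
          exact h18
      exact h17 hx
    · have h13 : α (aL g n) = cp (pts LP) * r' * (cp (pts LP))⁻¹ := h10
      rw [h13, map_mul, map_mul, map_inv, hDP, h4, map_mul (pL g n) _ (aL g n), map_mul (pL g n) (D * _) D⁻¹,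
        map_mul (pL g n) D, map_mul (pL g n) (D⁻¹ * aL g n), map_mul (pL g n) D⁻¹, map_inv]
      group
  have hγX : cp (IP g n) * ((cp T2)⁻¹ * z ^ e * cp T2) * (cp (IP g n))⁻¹ ∈ XL g n := by
    have h20 : cp (IP g n) ∈ XL g n := by
      have := cp_mem_gen (IP g n)
      exact gen_mono (fun p hp => List.mem_append_right _ hp) this
    have h21 : z ∈ XL g n := by
      rw [XL, hT]
      exact ent_mem_gen (by simp) hz
    have h22 : cp T2 ∈ XL g n := by
      rw [XL, hT]
      exact gen_mono (fun p hp => by simp [hp]) (cp_mem_gen T2)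
    exact mul_mem (mul_mem h20 (mul_mem (mul_mem (inv_mem h22) (zpow_mem h21 e)) h22)) (inv_mem h20)
  have hmem : D * ((cp T2)⁻¹ * z ^ e * cp T2) * D⁻¹ ∈ PL g n := ⟨hγX, α, hα'⟩
  rcases he with rfl | rfl
  · rwa [zpow_one] at hmem
  · have h23 := inv_mem hmem
    have h24 : (D * ((cp T2)⁻¹ * z ^ (-1 : ℤ) * cp T2) * D⁻¹)⁻¹ = D * ((cp T2)⁻¹ * z * cp T2) * D⁻¹ := by
      group
    rwa [h24] at h23

/-- **Pushes.** -/
theorem exists_push {w : F (g + 1) n} (hw : w ∈ XL g n) : ∃ α : MulAut (F (g + 1) n), IsPush α w := by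
  set D := cp (IP g n) with hD
  have hDX : D ∈ XL g n := gen_mono (fun p hp => List.mem_append_right _ hp) (cp_mem_gen (IP g n))
  let K : Subgroup (F (g + 1) n) := (PL g n).comap (MulAut.conj D).toMonoidHom
  have h1 := (gen_le_of_conj K (IA g n ++ IP g n) (fun T1 y T2 hT z hz => by
    rw [Subgroup.mem_comap]
    exact mem_PL_slide T1 y T2 hT z hz)).1
  have h2 : D⁻¹ * w * D ∈ K := h1 (mul_mem (mul_mem (inv_mem hDX) hw) hDX)
  have h3 : D * (D⁻¹ * w * D) * D⁻¹ ∈ PL g n := h2
  have h4 : D * (D⁻¹ * w * D) * D⁻¹ = w := by group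
  rw [h4] at h3
  exact h3.2

end Push

end Pool.Agent.BM
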