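import Pool.Agent.Lib.MP_943dad_ag.BM.St
import Pool.Agent.Lib.MP_943dad_ag.BM.Fin2
import Pool.Agent.Lib.MP_943dad_ag.SO.GC

set_option linter.all false

/-!
The theorem for covers whose quotients by the intersections of the kernels of two irreducible representations have a
small cost.
-/

namespace Pool.Agent.BigMon

open Pool.Agent.HMv
open Pool.Agent.BM (Coh Stab InLie IrrK)

variable {H : Type} [Group H] {g n : ℕ}

theorem main2 [Fintype H] (hg : 3 ≤ g + 1) (φ : F (g + 1) n →* H) (hφ : Function.Surjective φ)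
    (hR : φ (R (g + 1) n) = 1)
    (h : ∀ (N₁ N₂ : Subgroup H) [N₁.Normal] [N₂.Normal], IrrK N₁ → IrrK N₂ → Adm (g + 1) (H ⧸ (N₁ ⊓ N₂))) :
    ∃ ω : Form φ, IsCup φ ω ∧ Sympl ω ∧ BigM φ ω := by
  obtain ⟨ω, h1, h2, h3, h4⟩ := Pool.Agent.BM.main2 hg φ hφ hR fun N₁ N₂ _ _ k1 k2 => by
    obtain ⟨d, m, s, hs, hm, hlt⟩ := h N₁ N₂ k1 k2
    obtain ⟨α, hα, hc, hh⟩ := handles_of_killsGen (killsGen_of_cost hm inferInstance ⟨s, hs⟩)
      ((QuotientGroup.mk' (N₁ ⊓ N₂)).comp φ) ((QuotientGroup.mk'_surjective (N₁ ⊓ N₂)).comp hφ)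
    exact ⟨α, hα, hc, hh (Fin.last g) (by simp; omega)⟩
  refine ⟨ω, h1, ⟨h2, h3⟩, ?_⟩
  intro Δ hΔ X Y hX hY
  have hX' : Pool.Agent.BM.IsZ φ ω X := ⟨fun y => LinearMap.ext fun f => hX.1 y f, hX.2⟩
  have hY' : Pool.Agent.BM.IsZ φ ω Y := ⟨fun y => LinearMap.ext fun f => hY.1 y f, hY.2⟩
  exact h4 Δ hΔ X Y hX' hY'

end Pool.Agent.BigMon
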