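import Pool.Agent.Lib.MP_943dad_ag.BM.St
import Pool.Agent.Lib.MP_943dad_ag.BM.Fin3
import Pool.Agent.Lib.MP_943dad_ag.BM.Hdl
import Pool.Agent.Lib.MP_943dad_ag.SO.GC

set_option linter.all false

/-!
The theorem for covers whose quotients by the kernels of the irreducible representations have a small cost or are
trivial on a handle.
-/

namespace Pool.Agent.BigMon

open Pool.Agent.HMv
open Pool.Agent.BM (Coh Stab InLie IrrK TrivH)

variable {H : Type} [Group H] {g n : ℕ}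

theorem main3 [Fintype H] (hg : 3 ≤ g + 1) (φ : F (g + 1) n →* H) (hφ : Function.Surjective φ)
    (hR : φ (R (g + 1) n) = 1) (h : ∀ (N : Subgroup H) [N.Normal], IrrK N →
      Adm (g + 1) (H ⧸ N) ∨ TrivH ((QuotientGroup.mk' N).comp φ)) :
    ∃ ω : Form φ, IsCup φ ω ∧ Sympl ω ∧ BigM φ ω := by
  obtain ⟨ω, h1, h2, h3, h4⟩ := Pool.Agent.BM.main3 hg φ hφ hR fun N _ k1 => by
    rcases h N k1 with ⟨d, m, s, hs, hm, hlt⟩ | ⟨t, ht1, ht2, i, hi, ht3, ht4⟩
    · obtain ⟨α, hα, hc, hh⟩ := handles_of_killsGen (killsGen_of_cost hm inferInstance ⟨s, hs⟩)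
        ((QuotientGroup.mk' N).comp φ) ((QuotientGroup.mk'_surjective N).comp hφ)
      exact ⟨α, hα, hc, hh (Fin.last g) (by simp; omega)⟩
    · obtain rfl : i = Fin.last g := Fin.ext (by simp; omega)
      exact ⟨t, ht1, ht2, ht3, ht4⟩
  refine ⟨ω, h1, ⟨h2, h3⟩, ?_⟩
  intro Δ hΔ X Y hX hY
  have hX' : Pool.Agent.BM.IsZ φ ω X := ⟨fun y => LinearMap.ext fun f => hX.1 y f, hX.2⟩
  have hY' : Pool.Agent.BM.IsZ φ ω Y := ⟨fun y => LinearMap.ext fun f => hY.1 y f, hY.2⟩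
  exact h4 Δ hΔ X Y hX' hY'

end Pool.Agent.BigMon
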