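import Pool.Agent.Lib.MP_943dad_ag.BM.Unip
import Pool.Agent.Lib.MP_943dad_ag.BM.Gen

set_option linter.all false

/-!
# The trace formula for the two Dehn twists of a handle

`a`, `b` is the last handle, `α`, `β` are its images in `H` (arbitrary), `k = |H|`. `T_a : b ↦ b a ^ k`, `T_b : a ↦ a b ^ k` are in
`Stab φ`, and they act as `1 + N_a`, `1 + N_b`. `N_a = (1 / k) Θ_a F_a` with `F_a f (x) = f (x a ^ k x⁻¹)` and `Θ_a G` the class of
the crossed homomorphism which is `∑ i, G (h⁻¹ α ^ i)` at `b` and zero at the other generators. `F_a Θ_a = 0`,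
`F_b Θ_a = P_β P_α`, `P_α G (v) = ∑ i, G (v α ^ i)`. So
`tr (N_a N_b ∑ c h • h) = ∑ u, ∑ i, ∑ j, c (u β ^ i α ^ j u⁻¹)` (`trace_formula`).
-/

open Finset

namespace Pool.Agent.BM

open Pool.Agent.HMv Pool.Agent.HMv.Item

namespace Trf

section Unique

variable {H : Type} [Group H] {g n : ℕ} {φ : F g n →* H}

/-- A crossed homomorphism is determined by its values on the generators. -/
theorem crossed_unique {D D' : F g n → H → ℂ} (hD : ∀ x y h, D (x * y) h = D x (φ y * h) + D y h)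
    (hD' : ∀ x y h, D' (x * y) h = D' x (φ y * h) + D' y h)
    (h0 : ∀ s h, D (FreeGroup.of s) h = D' (FreeGroup.of s) h) : ∀ x h, D x h = D' x h := by
  intro x
  induction x using FreeGroup.induction_on with
  | C1 =>
    intro h
    rw [D_one hD, D_one hD']
  | of s => exact h0 s
  | inv_of s ih =>
    intro h
    rw [D_inv hD, D_inv hD', h0]
  | mul x y hx hy =>
    intro h
    rw [hD, hD', hx, hy]

/-- A crossed homomorphism on a power. -/
theorem D_pow {D : F g n → H → ℂ} (hD : ∀ x y h, D (x * y) h = D x (φ y * h) + D y h) (z : F g n) (m : ℕ) (h : H) :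
    D (z ^ m) h = ∑ j ∈ range m, D z (φ z ^ j * h) := by
  induction m with
  | zero => rw [pow_zero, D_one hD, range_zero, sum_empty]
  | succ m ih =>
    rw [pow_succ', hD, ih, sum_range_succ, map_pow]
    ring

end Unique

section Ops

variable {H : Type} [Group H] [Fintype H]

/-- Sum over the translates by the powers of `ζ`. -/
def P (ζ : H) : Module.End ℂ (H → ℂ) where
  toFun G v := ∑ i ∈ range (Fintype.card H), G (v * ζ ^ i)
  map_add' G G' := by
    funext v
    simp only [Pi.add_apply, sum_add_distrib]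
  map_smul' t G := by
    funext v
    simp only [Pi.smul_apply, smul_eq_mul, RingHom.id_apply, mul_sum]

theorem P_apply (ζ : H) (G : H → ℂ) (v : H) : P ζ G v = ∑ i ∈ range (Fintype.card H), G (v * ζ ^ i) := rfl

/-- Left convolution. -/
def lam (c : H → ℂ) : Module.End ℂ (H → ℂ) where
  toFun G v := ∑ h, c h * G (h⁻¹ * v)
  map_add' G G' := by
    funext v
    simp only [Pi.add_apply, mul_add, sum_add_distrib]
  map_smul' t G := by
    funext v
    simp only [Pi.smul_apply, smul_eq_mul, RingHom.id_apply, mul_sum]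
    exact sum_congr rfl fun h _ => by ring

theorem lam_apply (c : H → ℂ) (G : H → ℂ) (v : H) : lam c G v = ∑ h, c h * G (h⁻¹ * v) := rfl

/-- A sum over a period can be shifted. -/
theorem sum_shift {k : ℕ} {X : ℕ → ℂ} (hX : ∀ i, X (i + k) = X i) (m : ℕ) :
    ∑ i ∈ range k, X (i + m) = ∑ i ∈ range k, X i := by
  induction m with
  | zero => rfl
  | succ m ih =>
    rw [← ih]
    have h1 := sum_range_succ (fun i => X (i + m)) k
    have h2 := sum_range_succ' (fun i => X (i + m)) k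
    rw [h1] at h2
    have h3 : X (k + m) = X (0 + m) := by
      rw [add_comm k m, hX, zero_add]
    rw [h3] at h2
    have h4 := add_right_cancel h2
    rw [h4]
    exact sum_congr rfl fun i _ => by rw [show i + (m + 1) = i + 1 + m by ring]

theorem P_period (ζ v : H) (i : ℕ) : v * ζ ^ (i + Fintype.card H) = v * ζ ^ i := by
  rw [pow_add, pow_card_eq_one, mul_one]

/-- `P ζ G` is invariant under `ζ`. -/
theorem P_inv (ζ : H) (G : H → ℂ) (v : H) (m : ℕ) : P ζ G (v * ζ ^ m) = P ζ G v := by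
  rw [P_apply, P_apply, ← sum_shift (k := Fintype.card H) (X := fun i => G (v * ζ ^ i)) (fun i => by
    rw [P_period]) m]
  exact sum_congr rfl fun i _ => by rw [mul_assoc, ← pow_add, add_comm m i]

theorem P_sq (ζ : H) : P ζ * P ζ = (Fintype.card H : ℂ) • P ζ := by
  apply LinearMap.ext
  intro G
  funext v
  rw [Module.End.mul_apply, P_apply]
  simp only [P_inv, sum_const, card_range, LinearMap.smul_apply, Pi.smul_apply, smul_eq_mul, nsmul_eq_mul]

theorem P_lam (ζ : H) (c : H → ℂ) : P ζ * lam c = lam c * P ζ := by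
  apply LinearMap.ext
  intro G
  funext v
  rw [Module.End.mul_apply, Module.End.mul_apply, P_apply, lam_apply]
  simp only [lam_apply, P_apply, mul_sum]
  rw [sum_comm]
  exact sum_congr rfl fun h _ => sum_congr rfl fun i _ => by rw [mul_assoc]

open Classical in
/-- The trace on the functions on `H`. -/
theorem trace_fun (T : Module.End ℂ (H → ℂ)) :
    LinearMap.trace ℂ (H → ℂ) T = ∑ u, T (fun v => if v = u then 1 else 0) u := by
  classical
  rw [LinearMap.trace_eq_matrix_trace ℂ (Pi.basisFun ℂ H), Matrix.trace]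
  refine sum_congr rfl fun u _ => ?_
  have e : (Pi.single u (1 : ℂ) : H → ℂ) = fun v => if v = u then (1 : ℂ) else 0 := by
    funext v
    rw [Pi.single_apply]
  rw [Matrix.diag_apply, LinearMap.toMatrix_apply, Pi.basisFun_repr, Pi.basisFun_apply, e]

theorem trace_lam (c : H → ℂ) (α β : H) : LinearMap.trace ℂ (H → ℂ) (lam c * (P β * P α)) =
    ∑ u : H, ∑ i ∈ range (Fintype.card H), ∑ j ∈ range (Fintype.card H), c (u * β ^ i * α ^ j * u⁻¹) := by
  classical
  rw [trace_fun]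
  refine sum_congr rfl fun u _ => ?_
  rw [Module.End.mul_apply, lam_apply]
  simp only [Module.End.mul_apply, P_apply, mul_sum]
  rw [sum_comm]
  refine sum_congr rfl fun i _ => ?_
  rw [sum_comm]
  refine sum_congr rfl fun j _ => ?_
  rw [sum_eq_single (u * β ^ i * α ^ j * u⁻¹)]
  · have e : (u * β ^ i * α ^ j * u⁻¹)⁻¹ * u * β ^ i * α ^ j = u := by group
    rw [if_pos e, mul_one]
  · intro h _ hh
    rw [if_neg, mul_zero]
    intro h1
    apply hh
    have h2 : h * u = u * β ^ i * α ^ j := by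
      calc h * u = h * (h⁻¹ * u * β ^ i * α ^ j) := by rw [h1]
        _ = u * β ^ i * α ^ j := by group
    rw [eq_mul_inv_iff_mul_eq]
    exact h2
  · exact fun h => absurd (mem_univ _) h

end Ops

section Main

variable {H : Type} [Group H] [Fintype H] {g n : ℕ} {φ : F g n →* H}

/-- The value on the conjugates of `z ^ k`. -/
def Fz (φ : F g n →* H) (s : H → F g n) (z : F g n) : Coh φ →ₗ[ℂ] (H → ℂ) where
  toFun f h := f.1 (s h * z ^ Fintype.card H * (s h)⁻¹)
  map_add' _ _ := rfl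
  map_smul' _ _ := rfl

theorem pow_k (φ : F g n →* H) (z : F g n) : φ (z ^ Fintype.card H) = 1 := by
  rw [map_pow, pow_card_eq_one]

theorem Fz_apply {s : H → F g n} (hs : ∀ h, φ (s h) = h) (z : F g n) (f : Coh φ) (x : F g n) :
    f.1 (x * z ^ Fintype.card H * x⁻¹) = Fz φ s z f (φ x) := coh_conj' f _ _ _ (hs _).symm (pow_k φ z)

/-- `F` and the deck transformations. -/
theorem Fz_inn {s : H → F g n} (hs : ∀ h, φ (s h) = h) (z : F g n) (c : H → ℂ) :
    Fz φ s z ∘ₗ (∑ h, c h • inn φ (s h)) = lam c ∘ₗ Fz φ s z := by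
  apply LinearMap.ext
  intro f
  funext v
  rw [LinearMap.comp_apply, LinearMap.comp_apply, lam_apply, LinearMap.sum_apply, map_sum, Finset.sum_apply]
  refine sum_congr rfl fun h _ => ?_
  rw [LinearMap.smul_apply, map_smul, Pi.smul_apply, smul_eq_mul]
  congr 1
  have h1 : (inn φ (s h) f).1 (s v * z ^ Fintype.card H * (s v)⁻¹) =
      f.1 (((s h)⁻¹ * s v) * z ^ Fintype.card H * ((s h)⁻¹ * s v)⁻¹) := by
    rw [inn_apply]
    congr 1
    group
  change (inn φ (s h) f).1 (s v * z ^ Fintype.card H * (s v)⁻¹) = _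
  rw [h1, Fz_apply hs, map_mul, map_inv, hs, hs]

/-- The classes which cross the letter `s'`. -/
theorem exists_theta (hR : φ (R g n) = 1) (s' : (Fin g × Bool) ⊕ Fin n) (ζ : H) (hs' : ∀ j, s' ≠ Sum.inr j)
    (hcr : ∀ D : F g n → H → ℂ, (∀ x y h, D (x * y) h = D x (φ y * h) + D y h) →
      (∀ t, t ≠ s' → ∀ h, D (FreeGroup.of t) h = 0) →
      (∀ h, D (FreeGroup.of s') (ζ * h) = D (FreeGroup.of s') h) → ∀ h, D (R g n) h = 0) :
    ∃ (Θ : (H → ℂ) →ₗ[ℂ] Coh φ) (D : (H → ℂ) → F g n → H → ℂ),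
      (∀ G x y h, D G (x * y) h = D G x (φ y * h) + D G y h) ∧
      (∀ G t, t ≠ s' → ∀ h, D G (FreeGroup.of t) h = 0) ∧
      (∀ G h, D G (FreeGroup.of s') h = P ζ G h⁻¹) ∧
      ∀ G x y, φ y = 1 → (Θ G).1 (x * y * x⁻¹) = D G y (φ x)⁻¹ := by
  classical
  have h1 : ∀ u : H, ∃ D : F g n → H → ℂ, (∀ x y h, D (x * y) h = D x (φ y * h) + D y h) ∧
      (∀ t, t ≠ s' → ∀ h, D (FreeGroup.of t) h = 0) ∧
      ∀ h, D (FreeGroup.of s') h = P ζ (fun v => if v = u then 1 else 0) h⁻¹ := by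
    intro u
    obtain ⟨D, hD, ht⟩ := exists_crossed φ (fun t h => if t = s' then P ζ (fun v => if v = u then 1 else 0) h⁻¹ else 0)
    refine ⟨D, hD, fun t h2 h => ?_, fun h => ?_⟩
    · rw [ht, if_neg h2]
    · rw [ht, if_pos rfl]
  choose D hD hD0 hDs using h1
  have hinv : ∀ u h, D u (FreeGroup.of s') (ζ * h) = D u (FreeGroup.of s') h := by
    intro u h
    rw [hDs, hDs]
    have h2 := P_inv ζ (fun v => if v = u then (1 : ℂ) else 0) (ζ * h)⁻¹ 1
    rw [pow_one, mul_inv_rev, inv_mul_cancel_right] at h2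
    rw [h2, mul_inv_rev]
  have hc : ∀ u (j : Fin n) (k : ℕ), φ (c g j) ^ k = 1 → ∀ h, D u (c g j ^ k) h = 0 := by
    intro u j k _ h
    rw [D_pow (hD u)]
    refine sum_eq_zero fun i _ => ?_
    exact hD0 u _ (fun h2 => hs' j h2.symm) _
  let cls : H → Coh φ := fun u => ofD (hD u) hR (hcr _ (hD u) (hD0 u) (hinv u)) (hc u)
  have hcls : ∀ u x y, φ y = 1 → (cls u).1 (x * y * x⁻¹) = D u y (φ x)⁻¹ := fun u x y hy =>
    ofD_conj (hD u) hR (hcr _ (hD u) (hD0 u) (hinv u)) (hc u) x y hy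
  refine ⟨Fintype.linearCombination ℂ cls, fun G x h => ∑ u, G u * D u x h, fun G x y h => ?_, fun G t ht h => ?_,
    fun G h => ?_, fun G x y hy => ?_⟩
  · simp only [hD, mul_add, sum_add_distrib]
  · exact sum_eq_zero fun u _ => by rw [hD0 u t ht, mul_zero]
  · simp only [hDs, P_apply, mul_sum]
    rw [sum_comm]
    refine sum_congr rfl fun i _ => ?_
    rw [sum_eq_single (h⁻¹ * ζ ^ i)]
    · rw [if_pos rfl, mul_one]
    · intro u _ hu
      rw [if_neg (Ne.symm hu), mul_zero]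
    · exact fun h => absurd (mem_univ _) h
  · rw [Fintype.linearCombination_apply, Submodule.coe_sum, Finset.sum_apply]
    refine sum_congr rfl fun u _ => ?_
    change G u * (cls u).1 (x * y * x⁻¹) = _
    rw [hcls u x y hy]

/-- One twist: `s'` is the letter which is changed, `s' ↦ s' z ^ k`, `z = of s₀`. -/
theorem one_twist (hR : φ (R g n) = 1) {s : H → F g n} (hs : ∀ h, φ (s h) = h)
    (s' s₀ : (Fin g × Bool) ⊕ Fin n) (h0 : s₀ ≠ s') (hs' : ∀ j, s' ≠ Sum.inr j)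
    (hcr : ∀ D : F g n → H → ℂ, (∀ x y h, D (x * y) h = D x (φ y * h) + D y h) →
      (∀ t, t ≠ s' → ∀ h, D (FreeGroup.of t) h = 0) →
      (∀ h, D (FreeGroup.of s') (φ (FreeGroup.of s₀) * h) = D (FreeGroup.of s') h) → ∀ h, D (R g n) h = 0)
    (T : MulAut (F g n)) (hTR : T (R g n) = R g n) (hTc : ∀ j : Fin n, IsConj (T (c g j)) (c g j))
    (hT : T (FreeGroup.of s') = FreeGroup.of s' * FreeGroup.of s₀ ^ Fintype.card H)
    (hT' : ∀ t, t ≠ s' → T (FreeGroup.of t) = FreeGroup.of t) :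
    ∃ (N : Module.End ℂ (Coh φ)) (Θ : (H → ℂ) →ₗ[ℂ] Coh φ), N * N = 0 ∧ (∃ σ : Stab φ, mon φ σ = 1 + N) ∧
      (Fintype.card H : ℂ) • N = Θ ∘ₗ Fz φ s (FreeGroup.of s₀) ∧
      Fz φ s (FreeGroup.of s') ∘ₗ Θ = P (φ (FreeGroup.of s')) ∘ₗ P (φ (FreeGroup.of s₀)) := by
  obtain ⟨Θ, D, hD, hD0, hDs, hΘ⟩ := exists_theta hR s' (φ (FreeGroup.of s₀)) hs' hcr
  have hk : (Fintype.card H : ℂ) ≠ 0 := by exact_mod_cast Fintype.card_ne_zero
  have hφT : ∀ x, φ (T x) = φ x := by
    intro x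
    have h1 : φ.comp (MulEquiv.toMonoidHom T) = φ := by
      refine FreeGroup.ext_hom _ _ fun t => ?_
      change φ (T (FreeGroup.of t)) = φ (FreeGroup.of t)
      by_cases ht : t = s'
      · rw [ht, hT, map_mul, pow_k, mul_one]
      · rw [hT' t ht]
    exact congrArg (fun f : F g n →* H => f x) h1
  obtain ⟨σ, hσ⟩ := Unip.exists_stab T hTR hTc hφT
  have hN : ∀ f x, ((mon φ σ - 1 : Module.End ℂ (Coh φ)) f).1 x = f.1 (T x) - f.1 x := by
    intro f x
    rw [← hσ]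
    rfl
  -- `k N = Θ F`
  have h1 : (Fintype.card H : ℂ) • (mon φ σ - 1 : Module.End ℂ (Coh φ)) = Θ ∘ₗ Fz φ s (FreeGroup.of s₀) := by
    apply LinearMap.ext
    intro f
    apply Unip.coh_ext
    intro x hx
    have hTx : ∀ x, φ (T x * x⁻¹) = 1 := fun x => by rw [map_mul, map_inv, hφT, mul_inv_cancel]
    have key := crossed_unique (φ := φ)
      (D := fun x h => (Fintype.card H : ℂ) * f.1 (s (φ x * h)⁻¹ * (T x * x⁻¹) * (s (φ x * h)⁻¹)⁻¹))
      (D' := D (Fz φ s (FreeGroup.of s₀) f)) ?_ (hD _) ?_ x 1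
    · have h2 := hΘ (Fz φ s (FreeGroup.of s₀) f) 1 x hx
      rw [one_mul, inv_one, mul_one, map_one, inv_one, ← key] at h2
      change (Fintype.card H : ℂ) * ((mon φ σ - 1 : Module.End ℂ (Coh φ)) f).1 x = _
      rw [LinearMap.comp_apply, h2, hN]
      congr 1
      rw [coh_conj' f _ 1 _ (by rw [hs, hx]; simp) (hTx x), one_mul, inv_one, mul_one,
        Unip.coh_mul f (by rw [hφT, hx]) (by rw [map_inv, hx, inv_one]), Unip.coh_inv f hx]
      ring
    · intro x y h
      have e1 : s (φ (x * y) * h)⁻¹ * (T (x * y) * (x * y)⁻¹) * (s (φ (x * y) * h)⁻¹)⁻¹ =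
          ((s (φ (x * y) * h)⁻¹ * T x) * (T y * y⁻¹) * (s (φ (x * y) * h)⁻¹ * T x)⁻¹) *
            (s (φ (x * y) * h)⁻¹ * (T x * x⁻¹) * (s (φ (x * y) * h)⁻¹)⁻¹) := by
        rw [map_mul T]
        group
      have e2 := coh_conj' f (s (φ (x * y) * h)⁻¹ * T x) (s (φ y * h)⁻¹) (T y * y⁻¹) (by
        rw [map_mul, hs, hs, hφT, map_mul]
        group) (hTx y)
      have e3 : φ (x * y) * h = φ x * (φ y * h) := by rw [map_mul, mul_assoc]
      rw [e1, Unip.coh_mul f (by rw [map_mul, map_mul, hTx]; simp) (by rw [map_mul, map_mul, hTx]; simp), e2, e3]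
      ring
    · intro t h
      by_cases ht : t = s'
      · rw [ht, hDs, hT]
        have e1 : s (φ (FreeGroup.of s') * h)⁻¹ * (FreeGroup.of s' * FreeGroup.of s₀ ^ Fintype.card H *
            (FreeGroup.of s')⁻¹) * (s (φ (FreeGroup.of s') * h)⁻¹)⁻¹ =
          (s (φ (FreeGroup.of s') * h)⁻¹ * FreeGroup.of s') * FreeGroup.of s₀ ^ Fintype.card H *
            (s (φ (FreeGroup.of s') * h)⁻¹ * FreeGroup.of s')⁻¹ := by group
        rw [e1, Fz_apply hs, map_mul, hs]
        have e2 : (φ (FreeGroup.of s') * h)⁻¹ * φ (FreeGroup.of s') = h⁻¹ := by group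
        rw [e2, P_apply]
        have e3 : ∀ i ∈ range (Fintype.card H), Fz φ s (FreeGroup.of s₀) f (h⁻¹ * φ (FreeGroup.of s₀) ^ i) =
            Fz φ s (FreeGroup.of s₀) f h⁻¹ := by
          intro i _
          have e4 := Fz_apply hs (FreeGroup.of s₀) f (s h⁻¹ * FreeGroup.of s₀ ^ i)
          rw [map_mul, hs, map_pow] at e4
          rw [← e4]
          have e5 : s h⁻¹ * FreeGroup.of s₀ ^ i * FreeGroup.of s₀ ^ Fintype.card H * (s h⁻¹ * FreeGroup.of s₀ ^ i)⁻¹ =
              s h⁻¹ * FreeGroup.of s₀ ^ Fintype.card H * (s h⁻¹)⁻¹ := by group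
          rw [e5]
          rfl
        rw [sum_congr rfl e3, sum_const, card_range, nsmul_eq_mul]
      · rw [hD0 _ t ht, hT' t ht, mul_inv_cancel, mul_one, mul_inv_cancel, coh_one, mul_zero]
  -- `F Θ = 0`
  have h2 : Fz φ s (FreeGroup.of s₀) ∘ₗ Θ = 0 := by
    apply LinearMap.ext
    intro G
    funext v
    change (Θ G).1 (s v * FreeGroup.of s₀ ^ Fintype.card H * (s v)⁻¹) = 0
    rw [hΘ G _ _ (pow_k φ _), D_pow (hD G)]
    exact sum_eq_zero fun i _ => hD0 G _ h0 _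
  refine ⟨mon φ σ - 1, Θ, ?_, ⟨σ, by abel⟩, h1, ?_⟩
  · have h3 : ((Fintype.card H : ℂ) * Fintype.card H) • ((mon φ σ - 1 : Module.End ℂ (Coh φ)) * (mon φ σ - 1)) = 0 := by
      rw [mul_smul, ← smul_mul_assoc, ← mul_smul_comm, h1]
      change (Θ ∘ₗ Fz φ s (FreeGroup.of s₀)) ∘ₗ (Θ ∘ₗ Fz φ s (FreeGroup.of s₀)) = 0
      rw [LinearMap.comp_assoc, ← LinearMap.comp_assoc _ Θ, h2, LinearMap.zero_comp, LinearMap.comp_zero]
    exact (smul_eq_zero.1 h3).resolve_left (mul_ne_zero hk hk)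
  · apply LinearMap.ext
    intro G
    funext v
    change (Θ G).1 (s v * FreeGroup.of s' ^ Fintype.card H * (s v)⁻¹) = _
    rw [hΘ G _ _ (pow_k φ _), D_pow (hD G), LinearMap.comp_apply, P_apply, hs]
    have e1 : ∀ j, D G (FreeGroup.of s') (φ (FreeGroup.of s') ^ j * v⁻¹) =
        P (φ (FreeGroup.of s₀)) G (v * (φ (FreeGroup.of s'))⁻¹ ^ j) := by
      intro j
      rw [hDs, mul_inv_rev, inv_inv, inv_pow]
    rw [sum_congr rfl fun j _ => e1 j, ← sum_range_reflect]
    have e2 : ∀ j ∈ range (Fintype.card H), P (φ (FreeGroup.of s₀)) G (v * (φ (FreeGroup.of s'))⁻¹ ^ (Fintype.card H - 1 - j)) =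
        P (φ (FreeGroup.of s₀)) G (v * φ (FreeGroup.of s') ^ (j + 1)) := by
      intro j hj
      have e3 : Fintype.card H - 1 - j + (j + 1) = Fintype.card H := by
        have := mem_range.1 hj
        omega
      have e4 : (φ (FreeGroup.of s'))⁻¹ ^ (Fintype.card H - 1 - j) = φ (FreeGroup.of s') ^ (j + 1) := by
        rw [inv_pow, inv_eq_iff_mul_eq_one, ← pow_add, e3, pow_card_eq_one]
      rw [e4]
    rw [sum_congr rfl e2]
    exact sum_shift (k := Fintype.card H) (X := fun j => P (φ (FreeGroup.of s₀)) G (v * φ (FreeGroup.of s') ^ j))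
      (fun i => by rw [P_period]) 1

end Main

section Last

variable {H : Type} [Group H] [Fintype H] {g n : ℕ} {φ : F (g + 1) n →* H}

theorem aL_eq : aL g n = FreeGroup.of (Sum.inl (Fin.last g, false)) := rfl

theorem bL_eq : bL g n = FreeGroup.of (Sum.inl (Fin.last g, true)) := rfl

/-- An automorphism which fixes `XL` and the letter `s₀` fixes all letters but `s'`. -/
theorem fix_letters {T : MulAut (F (g + 1) n)} (h : ∀ x ∈ XL g n, T x = x) {e e' : Bool} (he : e ≠ e')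
    (h0 : T (FreeGroup.of (Sum.inl (Fin.last g, e))) = FreeGroup.of (Sum.inl (Fin.last g, e))) :
    ∀ t, t ≠ Sum.inl (Fin.last g, e') → T (FreeGroup.of t) = FreeGroup.of t := by
  rw [Unip.XL_eq] at h
  rintro (⟨i, x⟩ | j) ht
  · by_cases hi : i = Fin.last g
    · subst hi
      have hx : x = e := by
        cases x <;> cases e <;> cases e' <;> simp_all
      rw [hx, h0]
    · cases x
      · exact h _ (a_mem_Xs hi)
      · exact h _ (b_mem_Xs hi)
  · exact h _ (c_mem_Xs _ j)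

theorem zero_Xs {D : F (g + 1) n → H → ℂ} (hD : ∀ x y h, D (x * y) h = D x (φ y * h) + D y h) {e : Bool}
    (h0 : ∀ t, t ≠ Sum.inl (Fin.last g, e) → ∀ h, D (FreeGroup.of t) h = 0) :
    ∀ x ∈ Xs n (Fin.last g), ∀ h, D x h = 0 := by
  refine fun x hx h => D_Xs hD ?_ x hx h
  rintro x (⟨j, hj, rfl | rfl⟩ | ⟨j, rfl⟩) h
  · exact h0 _ (by simp [hj]) h
  · exact h0 _ (by simp [hj]) h
  · exact h0 _ (by simp) h

/-- **The trace formula.** -/
theorem _root_.Pool.Agent.BM.trace_formula (hR : φ (R (g + 1) n) = 1) (s : H → F (g + 1) n) (hs : ∀ h, φ (s h) = h) :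
    ∃ Na Nb : Module.End ℂ (Coh φ), Na * Na = 0 ∧ Nb * Nb = 0 ∧ (∃ σ : Stab φ, mon φ σ = 1 + Na) ∧
      (∃ σ : Stab φ, mon φ σ = 1 + Nb) ∧ ∀ c : H → ℂ,
      LinearMap.trace ℂ (Coh φ) (Na * Nb * ∑ h, c h • inn φ (s h)) =
        ∑ u : H, ∑ i ∈ range (Fintype.card H), ∑ j ∈ range (Fintype.card H),
          c (u * φ (b n (Fin.last g)) ^ i * φ (a n (Fin.last g)) ^ j * u⁻¹) := by
  haveI : FiniteDimensional ℂ (Coh φ) := finite_coh φ
  have hk : (Fintype.card H : ℂ) ≠ 0 := by exact_mod_cast Fintype.card_ne_zero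
  obtain ⟨Q, hQ, Q', hQ', hsplit⟩ := R_split (n := n) (Fin.last g)
  -- the automorphisms
  have t1 : Mv (B0 (g + 1) n) (IA g n ++ hd (aL g n * bL g n ^ (Fintype.card H : ℤ)) (bL g n) :: IP g n) := by
    rw [B0_eq]
    exact (Mv.twist (aL g n) (bL g n) _ (IP g n)).app_left _
  have t2 : Mv (B0 (g + 1) n) (IA g n ++ hd (aL g n) (bL g n * aL g n ^ (Fintype.card H : ℤ)) :: IP g n) := by
    rw [B0_eq]
    have h1 := Mv.rot (aL g n) (bL g n) (IP g n)
    have h2 := Mv.twist (aL g n * bL g n * (aL g n)⁻¹) (aL g n)⁻¹ (-(Fintype.card H : ℤ)) (IP g n)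
    have h3 := Mv.rotInv (aL g n * bL g n * (aL g n)⁻¹ * (aL g n)⁻¹ ^ (-(Fintype.card H : ℤ))) (aL g n)⁻¹ (IP g n)
    have e1 : (aL g n)⁻¹⁻¹ = aL g n := inv_inv _
    have e2 : (aL g n)⁻¹ * (aL g n * bL g n * (aL g n)⁻¹ * (aL g n)⁻¹ ^ (-(Fintype.card H : ℤ))) * (aL g n)⁻¹⁻¹ =
        bL g n * aL g n ^ (Fintype.card H : ℤ) := by
      group
    rw [e2, e1] at h3
    exact (h1.trans (h2.trans h3)).app_left _
  obtain ⟨T1, hR1, hc1, ha1, hb1, hX1⟩ := Unip.exists_last t1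
  obtain ⟨T2, hR2, hc2, ha2, hb2, hX2⟩ := Unip.exists_last t2
  rw [zpow_natCast] at ha1 hb2
  -- `T2 : b ↦ b a ^ k`
  obtain ⟨Na, Θa, hNa, hσa, hNΘa, hFΘa⟩ := one_twist (φ := φ) hR hs (Sum.inl (Fin.last g, true))
    (Sum.inl (Fin.last g, false)) (by simp) (by simp) (by
      intro D hD h0 hi h
      have hX := zero_Xs hD h0
      have hA : ∀ h, D (a n (Fin.last g)) h = 0 := h0 _ (by simp)
      have hi' : ∀ h, D (b n (Fin.last g)) (φ (a n (Fin.last g)) * h) = D (b n (Fin.last g)) h := hi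
      rw [hsplit, hD, hD, hX Q hQ, hX Q' hQ', hD, hD, hD, D_inv hD, D_inv hD, hA, hA]
      have h5 := hi' (φ ((a n (Fin.last g))⁻¹) * (φ ((b n (Fin.last g))⁻¹) * (φ Q' * h)))
      rw [← mul_assoc (φ (a n (Fin.last g))), map_inv, mul_inv_cancel, one_mul] at h5
      rw [map_inv, ← h5, map_inv]
      ring) T2 hR2 hc2 hb2 (fix_letters hX2 (e := false) (e' := true) (by simp) ha2)
  obtain ⟨Nb, Θb, hNb, hσb, hNΘb, hFΘb⟩ := one_twist (φ := φ) hR hs (Sum.inl (Fin.last g, false))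
    (Sum.inl (Fin.last g, true)) (by simp) (by simp) (by
      intro D hD h0 hi h
      have hX := zero_Xs hD h0
      have hB : ∀ h, D (b n (Fin.last g)) h = 0 := h0 _ (by simp)
      have hi' : ∀ h, D (a n (Fin.last g)) (φ (b n (Fin.last g)) * h) = D (a n (Fin.last g)) h := hi
      rw [hsplit, hD, hD, hX Q hQ, hX Q' hQ', hD, hD, hD, D_inv hD, D_inv hD, hB, hB, hi', map_inv]
      ring) T1 hR1 hc1 ha1 (fix_letters hX1 (e := true) (e' := false) (by simp) hb1)
  refine ⟨Na, Nb, hNa, hNb, hσa, hσb, fun c => ?_⟩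
  obtain ⟨E, hE⟩ : ∃ E : Module.End ℂ (Coh φ), E = ∑ h, c h • inn φ (s h) := ⟨_, rfl⟩
  have hFE : Fz φ s (FreeGroup.of (Sum.inl (Fin.last g, true))) ∘ₗ E =
      lam c ∘ₗ Fz φ s (FreeGroup.of (Sum.inl (Fin.last g, true))) := by
    rw [hE]
    exact Fz_inn hs _ c
  rw [← hE]
  obtain ⟨A, hA⟩ : ∃ A : Module.End ℂ (H → ℂ), A = P (φ (a n (Fin.last g))) := ⟨_, rfl⟩
  obtain ⟨B, hB⟩ : ∃ B : Module.End ℂ (H → ℂ), B = P (φ (b n (Fin.last g))) := ⟨_, rfl⟩
  have hFΘa' : Fz φ s (FreeGroup.of (Sum.inl (Fin.last g, true))) ∘ₗ Θa = B * A := by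
    rw [hA, hB]
    exact hFΘa
  have hFΘb' : Fz φ s (FreeGroup.of (Sum.inl (Fin.last g, false))) ∘ₗ Θb = A * B := by
    rw [hA, hB]
    exact hFΘb
  have hAA : A * A = (Fintype.card H : ℂ) • A := by rw [hA, P_sq]
  have hBB : B * B = (Fintype.card H : ℂ) • B := by rw [hB, P_sq]
  have hBL : B * lam c = lam c * B := by rw [hB, P_lam]
  have h1 : ((Fintype.card H : ℂ) * Fintype.card H) • (Na * Nb * E) =
      Θa ∘ₗ ((A * B * lam c : Module.End ℂ (H → ℂ)) ∘ₗ Fz φ s (FreeGroup.of (Sum.inl (Fin.last g, true)))) := by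
    have h2 : ((Fintype.card H : ℂ) * Fintype.card H) • (Na * Nb * E) =
        ((Fintype.card H : ℂ) • Na) * ((Fintype.card H : ℂ) • Nb) * E := by
      simp only [smul_mul_assoc, mul_smul_comm, smul_smul]
    rw [h2, hNΘa, hNΘb]
    apply LinearMap.ext
    intro f
    have h3 := fun f => congrArg (fun T : Coh φ →ₗ[ℂ] (H → ℂ) => T f) hFE
    have h4 := fun G => congrArg (fun T : (H → ℂ) →ₗ[ℂ] (H → ℂ) => T G) hFΘb'
    simp only [LinearMap.comp_apply] at h3 h4
    simp only [Module.End.mul_apply, LinearMap.comp_apply, h3, h4]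
  have h5 : ((Fintype.card H : ℂ) * Fintype.card H) * LinearMap.trace ℂ (Coh φ) (Na * Nb * E) =
      LinearMap.trace ℂ (H → ℂ) (A * B * lam c * (B * A)) := by
    rw [← smul_eq_mul, ← map_smul, h1, LinearMap.trace_comp_comm', LinearMap.comp_assoc, hFΘa']
    rfl
  have h6 : LinearMap.trace ℂ (H → ℂ) (A * B * lam c * (B * A)) =
      ((Fintype.card H : ℂ) * Fintype.card H) * LinearMap.trace ℂ (H → ℂ) (lam c * (B * A)) := by
    have e1 : A * B * lam c * (B * A) = (A * B) * (lam c * (B * A)) := by rw [mul_assoc]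
    have e2 : lam c * (B * A) * (A * B) = (Fintype.card H : ℂ) • (lam c * (B * A) * B) := by
      have e3 : lam c * (B * A) * (A * B) = lam c * B * (A * A) * B := by simp only [mul_assoc]
      rw [e3, hAA]
      simp only [mul_smul_comm, smul_mul_assoc, mul_assoc]
    have e4 : B * (lam c * (B * A)) = (Fintype.card H : ℂ) • (lam c * (B * A)) := by
      have e5 : B * (lam c * (B * A)) = lam c * (B * B) * A := by
        rw [← mul_assoc, hBL]
        simp only [mul_assoc]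
      rw [e5, hBB]
      simp only [mul_smul_comm, smul_mul_assoc, mul_assoc]
    rw [e1, LinearMap.trace_mul_comm, e2, map_smul, LinearMap.trace_mul_comm, e4, map_smul, smul_eq_mul, smul_eq_mul,
      mul_assoc]
  rw [h6] at h5
  have h7 := mul_left_cancel₀ (mul_ne_zero hk hk) h5
  rw [h7, hA, hB, trace_lam]

end Last

end Trf

end Pool.Agent.BM
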